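import Pool.Agent.MP_1c0fc2_co.RE.Basic

/-! Largest blocks of the `T`-graph are atoms. -/

open Function Set Relation

namespace Pool.Agent.MP_1c0fc2_co.RE

variable {V W : Type}

/-- a connected set with two neighbours in a 2-connected set enlarges it -/
theorem xatomb_ear [Finite V] {Y : SimpleGraph V} {O : Set V} (hO : TwoConn Y O) (n : ℕ) :
    ∀ C : Set V, C.ncard = n → Disjoint C O → ConnOn Y.Adj C → ¬ (Nb Y O C).Subsingleton →
      ∃ S, TwoConn Y S ∧ O.ncard < S.ncard := by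
  induction n using Nat.strong_induction_on with
  | _ n ih =>
  intro C hn hd hc hN
  obtain ⟨a, ha, b, hb, hab⟩ := not_subsingleton_iff.1 hN
  have hlt : O.ncard < (O ∪ C).ncard := by
    obtain ⟨-, c, hc, -⟩ := ha
    exact ncard_lt_ncard ⟨subset_union_left, fun h => disjoint_left.1 hd hc (h (.inr hc))⟩
  by_cases h2 : ∀ v, ConnOn Y.Adj ((O ∪ C) \ {v})
  · exact ⟨O ∪ C, ⟨hO.1.trans hlt.le, h2⟩, hlt⟩
  obtain ⟨v, hv⟩ := not_forall.1 h2
  by_cases hvC : v ∈ C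
  · have haS : a ∈ (O ∪ C) \ {v} := ⟨.inl ha.1, fun e => disjoint_left.1 hd hvC (e ▸ ha.1)⟩
    have hOD : O ⊆ comp Y.Adj ((O ∪ C) \ {v}) a :=
      hO.conn.sub_comp (fun x hx => ⟨.inl hx, fun e => disjoint_left.1 hd hvC (e ▸ hx)⟩) ha.1
        (mem_comp haS)
    obtain ⟨c, hc1, hc2⟩ : ∃ c ∈ (O ∪ C) \ {v}, c ∉ comp Y.Adj ((O ∪ C) \ {v}) a := by
      by_contra h3
      refine hv ?_
      have e : comp Y.Adj ((O ∪ C) \ {v}) a = (O ∪ C) \ {v} :=
        Subset.antisymm comp_sub fun x hx => by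
          by_contra h4
          exact h3 ⟨x, hx, h4⟩
      rw [← e]
      exact comp_conn (adj_symm' Y)
    have hnb : ∀ x ∈ comp Y.Adj ((O ∪ C) \ {v}) a, ∀ d ∈ C, Y.Adj x d →
        d ∈ insert v (comp Y.Adj ((O ∪ C) \ {v}) a) := fun x hx d hdC e => by
      by_cases hdv : d = v
      · exact .inl hdv
      · exact .inr (comp_closed hx ⟨.inr hdC, hdv⟩ e)
    refine ih (C ∩ insert v (comp Y.Adj ((O ∪ C) \ {v}) a)).ncard ?_ _ rfl
      (hd.mono_left inter_subset_left) ?_ fun hs => hN (hs.anti ?_)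
    · rw [← hn]
      refine ncard_lt_ncard ⟨inter_subset_left, fun h => ?_⟩
      rcases (h (hc1.1.resolve_left fun h' => hc2 (hOD h'))).2 with e | e
      exacts [hc1.2 e, hc2 e]
    · refine hc.trace (adj_symm' Y) _ (fun _ _ _ _ _ e => e) ?_
      rintro D hD - x hx y hy hxy ⟨d, hd1, e1⟩ ⟨d', hd2, e2⟩
      have h5 : x = v := hx.2.resolve_right fun h => (hD hd1).2 (hnb x h d (hD hd1).1 e1)
      have h6 : y = v := hy.2.resolve_right fun h => (hD hd2).2 (hnb y h d' (hD hd2).1 e2)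
      exact absurd (h5.trans h6.symm) hxy
    · rintro x ⟨hx, d, hdC, e⟩
      exact ⟨hx, d, ⟨hdC, hnb x (hOD hx) d hdC e⟩, e⟩
  · obtain ⟨w, ⟨hw, d, hdC, e⟩, hwv⟩ : ∃ w ∈ Nb Y O C, w ≠ v := by
      by_cases e : a = v
      · exact ⟨b, hb, fun e' => hab (e.trans e'.symm)⟩
      · exact ⟨a, ha, e⟩
    refine absurd ?_ hv
    rw [union_sdiff_distrib, sdiff_singleton_eq_self hvC]
    exact (hO.2 v).union (adj_symm' Y) hc ⟨hw, hwv⟩ hdC (.inr e)

variable {H : SimpleGraph W} {P : Par} {J : SimpleGraph V}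

theorem xatomb_att [Finite V] {O C : Set V} (hO : MaxB P H J O) (hd : Disjoint C O)
    (hc : ConnOn (TG P H J univ).Adj C) : (Nb (TG P H J univ) O C).Subsingleton := by
  by_contra hN
  obtain ⟨S, h1, h2⟩ := xatomb_ear hO.1 _ C rfl hd hc hN
  exact absurd (hO.2 S h1) (not_le.2 h2)

theorem xatomb_sub [Finite V] {O S : Set V} (hO : MaxB P H J O) (hS : TS P H J S)
    (h : ¬ (S ∩ O).Subsingleton) : S ⊆ O := by
  intro c hc
  by_contra hcO
  have h1 : TwoConn (TG P H J univ) S :=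
    hS.two.mono fun x hx y hy e => ⟨e, S, subset_univ _, hS, hx, hy⟩
  obtain ⟨u, hu, v, hv, huv, h2, h3⟩ := h1.two_nb h ⟨hc, hcO⟩
  exact huv (xatomb_att hO (disjoint_left.2 fun x hx => (comp_sub hx).2)
    (comp_conn (adj_symm' _)) ⟨hu.2, h2⟩ ⟨hv.2, h3⟩)

theorem atomB_stmt : AtomBStmt := by
  intro W V _ _ H P J
  refine ⟨⟨fun τ τ' h h' => h.anti h', fun v => subsingleton_singleton,
    fun τ h a ha b hb hab => absurd (h ha hb) hab, fun O C => xatomb_att, fun O τ hO hτ => ?_,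
    fun O O' hO hO' h => eq_of_subset_of_ncard_le h (hO.2 O' hO'.1)⟩,
    fun O S => xatomb_sub, fun O hO => ?_, fun hP ⟨f, hf⟩ O hO => ⟨?_, fun S hS => ?_⟩⟩
  · rcases hτ.eq_empty_or_singleton with rfl | ⟨v, rfl⟩
    · rw [sdiff_empty]
      exact ⟨hO.1.conn, hO.1.nonempty⟩
    · obtain ⟨c, h1, h2, -⟩ := hO.1.exists_ne v v
      exact ⟨hO.1.2 v, c, h1, h2⟩
  · refine hO.1.mono ?_
    rintro x hx y hy ⟨e, S, -, h1, h2, h3⟩
    exact ⟨e, S, xatomb_sub hO h1 fun hs => e.ne (hs ⟨h2, hx⟩ ⟨h3, hy⟩), h1, h2, h3⟩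
  · exact hO.1.mono fun _ _ _ _ e => TG_mono (subset_univ _) e
  · rw [hO.2, ← (hf.on S).ncard]
    exact hP.maxθ _ (hS.map (hf.tg.on S))

end Pool.Agent.MP_1c0fc2_co.RE
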