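import Pool.Agent.MP_1c0fc2_co.RE.Basic

/-! Blue families lift from the middle graph to the final graph. -/

open Function Set Relation

namespace Pool.Agent.MP_1c0fc2_co.RE

section
variable {X V : Type} {J : SimpleGraph X} {J' : SimpleGraph V} {γ : X → V}

/-- the rules lift along an induced copy that contains all triangles on its edges -/
theorem xbluelift_rule (hi : Injective γ) (ha : ∀ a b, J'.Adj (γ a) (γ b) ↔ J.Adj a b)
    (ht : ∀ a ∈ range γ, ∀ b ∈ range γ, ∀ w, J'.Adj a b → J'.Adj a w → J'.Adj b w → w ∈ range γ)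
    (m : Mode) {K : Set X} (h : Rule m J K) : Rule m J' (γ '' K) := by
  cases m
  · trivial
  · trivial
  · rintro _ ⟨t, htK, rfl⟩ C hd hC hc _ ⟨⟨a, haK, rfl⟩, hta, x, hx, hax⟩
      _ ⟨⟨a', haK', rfl⟩, hta', x', hx', hax'⟩
    have hxr : x ∈ range γ :=
      ht _ (mem_range_self t) _ (mem_range_self a) x hta (hC x hx) hax
    have hCr : C ⊆ range γ := hc.sub hx hxr fun y hy y' hy' hyr e =>
      ht _ (mem_range_self t) _ hyr y' (hC y hy) (hC y' hy') e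
    obtain ⟨k, h1, h2, -⟩ := exists_pull' (J := J) (J' := J') hi (fun x y e => (ha x y).1 e) hCr
      ⟨x, hx⟩
    have hcc : ConnOn J.Adj (γ ⁻¹' C) := h2 ▸ hc.map h1
    obtain ⟨y, rfl⟩ := hxr
    obtain ⟨y', rfl⟩ := hCr hx'
    have := h t htK (γ ⁻¹' C)
      (disjoint_left.2 fun u hu huK => disjoint_left.1 hd hu (mem_image_of_mem γ huK))
      (fun u hu => (ha _ _).1 (hC _ hu)) hcc
      (show a ∈ _ from ⟨haK, (ha _ _).1 hta, y, hx, (ha _ _).1 hax⟩)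
      (show a' ∈ _ from ⟨haK', (ha _ _).1 hta', y', hx', (ha _ _).1 hax'⟩)
    rw [this]
  · rintro _ ⟨a, haK, rfl⟩ _ ⟨b, hbK, rfl⟩ w h1 h2 h3
    obtain ⟨y, rfl⟩ := ht _ (mem_range_self a) _ (mem_range_self b) w h1 h2 h3
    exact mem_image_of_mem γ (h a haK b hbK y ((ha _ _).1 h1) ((ha _ _).1 h2) ((ha _ _).1 h3))

end

theorem blueLift_stmt (hK3 : K3Stmt) (hCone : ConeStmt) (hTwoNb : TwoNbStmt) (hRPG : RPGStmt)
    (hLoc : LocStmt) (hPullB : PullBStmt) : BlueLiftStmt := by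
  intro W U X V Z L _ _ _ _ _ _ H P hP m hm A E Γ RΓ Hub G R Gs Bs g B φ K s hA hB hdeg hg hL hCols
    hG hφ
  have hc := hL.core
  have hg1 : 1 ≤ g := by
    obtain ⟨h1, h2, h3, -⟩ := (hK3 W W H P hP).1
    omega
  have hadj : ∀ γ ∈ Gs, ∀ a b, (G \ R).Adj (γ a) (γ b) ↔ (Γ \ RΓ).Adj a b :=
    fun γ hγ a b => hc.ccol hγ false a b
  have hpull : ∀ γ ∈ Gs, ∀ O, BO P H m B O → φ '' O ⊆ range γ →
      BO P H m (Γ \ RΓ) (γ ⁻¹' (φ '' O)) ∧ Shape m (Γ \ RΓ) (γ ⁻¹' (φ '' O)) := by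
    intro γ hγ O hO hs
    obtain ⟨k, h1, h2, -⟩ := exists_pull' (J := Γ \ RΓ) (J' := G \ R) (hc.gind γ hγ).inj
      (fun x y e => (hadj γ hγ x y).1 e) hs (hO.two.nonempty.image φ)
    rw [← h2]
    exact ⟨(hO.map (hφ.on O)).map h1, ((hCone W Z H P hP m hm B hB O hO).1.map (hφ.on O)).map h1⟩
  have hloc : ∀ O, BO P H m B O → ∃ γ ∈ Gs, φ '' O ⊆ range γ := by
    intro O hO
    have h0 := hLoc W U X V H P hP A E Γ RΓ Hub G R Gs Bs g false hA hg hL (φ '' O)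
    have h1 := hO.map (hφ.on O)
    have h2 := (hCone W Z H P hP m hm B hB O hO).2
    cases m
    · exact h0.1 hCols.2 h1
    · exact h0.1 hCols.2 h1
    · exact h0.2.1 hCols.2 h1 ((h2 rfl).map (hφ.on O))
    · exact h0.1 hCols.2 h1
  refine hPullB W Z V (Gs × L) H P m B (G \ R) φ (fun z => z.1.1 '' K z.2) s hφ ?_ ?_ ?_ ?_ ?_
  · intro O hO
    obtain ⟨γ, hγ, hs⟩ := hloc O hO
    obtain ⟨h1, h2⟩ := hpull γ hγ O hO hs
    obtain ⟨l, hl⟩ := hG.cov _ h1 h2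
    refine ⟨(⟨γ, hγ⟩, l), fun x hx => ?_⟩
    obtain ⟨y, rfl⟩ := hs hx
    exact mem_image_of_mem γ (hl hx)
  · have := hRPG U X V L A Γ RΓ Hub G R Gs Bs g false K False ∅ hc hG.rp (range φ)
      (by
        rw [← image_univ, hφ.1.injOn.ncard_image]
        exact (ncard_le_card _).trans (hB.card_le.trans hg))
      (by
        rintro _ ⟨z, rfl⟩
        obtain ⟨z', e⟩ := hdeg z
        exact ⟨φ z', (hφ.2 _ _ e).1⟩)
      (fun _ _ _ h => h.elim)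
    have e : {r | False ∧ r ∈ range φ} = (∅ : Set V) := by simp
    rw [e] at this
    exact this
  · rintro ⟨⟨γ, hγ⟩, l⟩ ⟨⟨γ', hγ'⟩, l'⟩ hne
    refine disjoint_left.2 ?_
    rintro _ ⟨x, hx, rfl⟩ ⟨x', hx', e⟩
    obtain rfl : γ = γ' := hc.eq_of_mem hγ hγ' (mem_range_self x) ⟨x', e⟩
    obtain rfl : x' = x := (hc.gind γ hγ).inj e
    exact disjoint_left.1 (hG.dis l l' fun e => hne (by rw [e])) hx hx'
  · rintro ⟨⟨γ, hγ⟩, l⟩
    refine xbluelift_rule (hc.gind γ hγ).inj (hadj γ hγ) ?_ m (hG.rule l)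
    intro a ha b hb w h1 h2 h3
    by_contra hw
    exact h1.2 (hTwoNb U V A G R _ Bs g hg1 hc.pre false (range γ) (mem_image_of_mem range hγ) w hw
      a ha b hb h1.ne h2.symm h3.symm)
  · rintro ⟨⟨γ, hγ⟩, l⟩
    refine ⟨γ '' BW (BO P H m (Γ \ RΓ)) (K l), ?_, fun O hO hs x hx => ?_⟩
    · rw [(hc.gind γ hγ).inj.injOn.ncard_image]
      exact hG.wt l
    · obtain ⟨y, -, rfl⟩ := hs hx
      refine mem_image_of_mem γ ⟨_, (hpull γ hγ O hO (hs.trans (image_subset_range _ _))).1,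
        fun u hu => ?_, hx⟩
      obtain ⟨u', hu', e⟩ := hs hu
      rw [← (hc.gind γ hγ).inj e]
      exact hu'

end Pool.Agent.MP_1c0fc2_co.RE
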