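import Pool.Agent.MP_1c0fc2_co.RE.Basic
import Pool.Agent.MP_1c0fc2_co.Main

/-! The descent on the blue potential and the final assembly. -/

open Function Set Relation

namespace Pool.Agent.MP_1c0fc2_co.RE

section Aux
variable {U V : Type} {A : SimpleGraph U} {B : SimpleGraph V}

theorem xboth_inl (A : SimpleGraph U) (B : SimpleGraph V) : IH A (A.sum B) Sum.inl :=
  ⟨Sum.inl_injective, fun _ _ e => SimpleGraph.sum_adj_inl.2 e⟩

theorem xboth_inr (A : SimpleGraph U) (B : SimpleGraph V) : IH B (A.sum B) Sum.inr :=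
  ⟨Sum.inr_injective, fun _ _ e => SimpleGraph.sum_adj_inr.2 e⟩

/-- a 2-connected set of the disjoint sum lies on one side -/
theorem xboth_side {S : Set (U ⊕ V)} (h : TwoConn (A.sum B) S) :
    (∃ k : U ⊕ V → U, IHo (A.sum B) A k S) ∨ ∃ k : U ⊕ V → V, IHo (A.sum B) B k S := by
  obtain ⟨a, ha⟩ := h.nonempty
  rcases a with a | a
  · have hs : S ⊆ range Sum.inl := h.conn.sub ha (mem_range_self a) (by
      rintro _ - y - ⟨x, rfl⟩ e
      rcases y with y | y
      · exact mem_range_self y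
      · exact absurd e (SimpleGraph.not_adj_sum_inl_inr x y))
    obtain ⟨k, hk, -⟩ := exists_pull' (J := A) (J' := A.sum B) Sum.inl_injective
      (fun _ _ e => SimpleGraph.sum_adj_inl.1 e) hs h.nonempty
    exact .inl ⟨k, hk⟩
  · have hs : S ⊆ range Sum.inr := h.conn.sub ha (mem_range_self a) (by
      rintro _ - y - ⟨x, rfl⟩ e
      rcases y with y | y
      · exact absurd e.symm (SimpleGraph.not_adj_sum_inl_inr y x)
      · exact mem_range_self y)
    obtain ⟨k, hk, -⟩ := exists_pull' (J := B) (J' := A.sum B) Sum.inr_injective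
      (fun _ _ e => SimpleGraph.sum_adj_inr.1 e) hs h.nonempty
    exact .inr ⟨k, hk⟩

/-- a connected graph with a cycle has no isolated vertex -/
theorem xboth_nb (h : A.Connected) (hc : ¬ A.IsAcyclic) (z : U) : ∃ z', A.Adj z z' := by
  have : Nontrivial U := by
    by_contra hn
    have : Subsingleton U := not_nontrivial_iff_subsingleton.1 hn
    exact hc SimpleGraph.IsAcyclic.of_subsingleton
  obtain ⟨y, hy⟩ := exists_ne z
  obtain ⟨p⟩ := h.preconnected z y
  cases p with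
  | nil => exact absurd rfl hy
  | cons e _ => exact ⟨_, e⟩

/-- the descent -/
theorem xboth_desc {a b : ℕ → Prop} {p : Prop} (ha : ¬ a 0) (hb : ¬ b 0)
    (hab : ∀ s, a (s + 1) → b s) (hp : p → ∀ s, b s → a s) (hq : ¬ p → ∀ s, b (s + 1) → a s)
    (s : ℕ) : ¬ a s := by
  induction s using Nat.strong_induction_on with
  | _ s ih =>
    intro h
    rcases s with _ | s
    · exact ha h
    have h1 := hab s h
    by_cases e : p
    · exact ih s (by omega) (hp e s h1)
    · rcases s with _ | s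
      · exact hb h1
      · exact ih s (by omega) (hq e s h1)

/-- the least value of a potential -/
theorem xboth_least {a : ℕ → Prop} (h0 : ¬ a 0) (n : ℕ) (hn : a n) : ∃ t, a (t + 1) ∧ ¬ a t := by
  induction n with
  | zero => exact absurd hn h0
  | succ n ih =>
    by_cases e : a n
    · exact ih e
    · exact ⟨n, hn, e⟩

theorem xboth_case {W : Type} (H : SimpleGraph W) (P : Par) (h : 3 ≤ P.vA) :
    ∃ m, Case P H m := by
  by_cases e : P.vA = 3
  · by_cases e' : ∃ S, RO P H .N2 H S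
    · exact ⟨.N2, e, e'⟩
    · exact ⟨.S2, e, fun S hS => e' ⟨S, hS⟩⟩
  · by_cases e' : ∃ S, RO P H .N1 H S
    · exact ⟨.N1, by omega, e'⟩
    · exact ⟨.S1, by omega, fun S hS => e' ⟨S, hS⟩⟩

/-- mutual containment of finite graphs gives an isomorphism -/
theorem xboth_iso [Finite U] [Finite V] (h : In A B) (h' : In B A) : Nonempty (A ≃g B) := by
  obtain ⟨f, hf⟩ := h
  obtain ⟨g, hg⟩ := h'
  have hgf := hf.comp hg
  have hb : Bijective (g ∘ f) := Finite.injective_iff_bijective.1 hgf.1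
  have hs : Surjective f := fun y => by
    obtain ⟨x, hx⟩ := hb.2 (g y)
    exact ⟨x, hg.1 hx⟩
  let σ : Equiv.Perm U := Equiv.ofBijective _ hb
  have hp : ∀ n x y, A.Adj (σ x) (σ y) → A.Adj ((σ ^ (n + 1)) x) ((σ ^ (n + 1)) y) := by
    intro n x y e
    induction n with
    | zero => simpa using e
    | succ n ih =>
      rw [pow_succ' σ (n + 1)]
      exact hgf.2 _ _ ih
  obtain ⟨n, hn⟩ : ∃ n, σ ^ (n + 1) = 1 := by
    have h1 := orderOf_pos σ
    exact ⟨orderOf σ - 1, by rw [Nat.sub_add_cancel h1]; exact pow_orderOf_eq_one σ⟩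
  refine ⟨⟨Equiv.ofBijective f ⟨hf.1, hs⟩, fun {x y} => ⟨fun e => ?_, hf.2 x y⟩⟩⟩
  have h2 := hp n x y (hg.2 _ _ e)
  rwa [hn] at h2

end Aux

theorem both_stmt (hPar : ParStmt) (hK3 : K3Stmt) (hROMono : ROMonoStmt) (hFam : FamStmt)
    (hInvA : InvAStmt) (hInvT : InvTStmt) (hInvR : InvRStmt) (hStepN : StepNStmt)
    (hStepS : StepSStmt) : BothStmt := by
  intro U V _ _ A B cA cB nA nB iAB iBA
  have hA : In A (A.sum B) := ⟨_, xboth_inl A B⟩
  have hB : In B (A.sum B) := ⟨_, xboth_inr A B⟩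
  obtain ⟨P, hP⟩ := hPar _ (A.sum B) fun h => nA (h.embedding SimpleGraph.Embedding.sumInl)
  have h3 : 3 ≤ P.vA := by
    obtain ⟨⟨h1, h2, -⟩, -⟩ := hK3 _ U (A.sum B) P hP
    exact h1.trans h2
  obtain ⟨m, hm⟩ := xboth_case (A.sum B) P h3
  have zA := xboth_nb cA nA
  have zB := xboth_nb cB nB
  -- both graphs have `α`-sets
  have aAB : (∃ O, AS P (A.sum B) A O) ∧ ∃ O, AS P (A.sum B) B O := by
    obtain ⟨S, hS⟩ := hP.exA
    rcases xboth_side hS.two with ⟨k, hk⟩ | ⟨k, hk⟩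
    · exact ⟨⟨_, hS.map hk⟩, (hInvA _ _ _ _ P hP B A hB iBA).1 ⟨_, hS.map hk⟩⟩
    · exact ⟨(hInvA _ _ _ _ P hP A B hA iAB).1 ⟨_, hS.map hk⟩, ⟨_, hS.map hk⟩⟩
  -- both graphs have `θ`-sets outside the first cone case
  have tAB : m ≠ .S1 → (∃ O, TH P (A.sum B) A O) ∧ ∃ O, TH P (A.sum B) B O := fun e => by
    obtain ⟨S, hS⟩ := hP.exθ
    rcases xboth_side hS.two with ⟨k, hk⟩ | ⟨k, hk⟩
    · exact ⟨⟨_, hS.map hk⟩, hInvT _ _ _ _ P hP m e hm B A hB iBA aAB.1 ⟨_, hS.map hk⟩⟩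
    · exact ⟨hInvT _ _ _ _ P hP m e hm A B hA iAB aAB.2 ⟨_, hS.map hk⟩, ⟨_, hS.map hk⟩⟩
  have bAB : (∃ O, BO P (A.sum B) m A O) ∧ ∃ O, BO P (A.sum B) m B O := by
    cases m
    exacts [tAB nofun, tAB nofun, aAB, tAB nofun]
  obtain ⟨mBA, fA, rA, zbA, zrA⟩ := hFam _ _ _ (A.sum B) P m A B
  obtain ⟨mAB, fB, -, zbB, -⟩ := hFam _ _ _ (A.sum B) P m B A
  -- the step in both directions
  have step : (¬ In B A → ∀ s, BFam P (A.sum B) m A (s + 1) → BFam P (A.sum B) m B s) ∧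
      (¬ In A B → ∀ s, BFam P (A.sum B) m B (s + 1) → BFam P (A.sum B) m A s) := by
    by_cases hN : m.IsN
    · have e : m ≠ .S1 := by
        rintro rfl
        exact hN
      obtain ⟨tA, tB⟩ := tAB e
      obtain ⟨oA, sA⟩ := hInvR _ _ _ _ P hP m hN hm A B hA hB zB iAB tB
      obtain ⟨-, sB⟩ := hInvR _ _ _ _ P hP m hN hm B A hB hA zA iBA tA
      have hr : ∃ O, RO P (A.sum B) m A O := by
        obtain ⟨S, hS⟩ : ∃ S, RO P (A.sum B) m (A.sum B) S := by
          cases m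
          exacts [hm.2, hm.2, hN.elim, hN.elim]
        rcases xboth_side hS.two with ⟨k, hk⟩ | ⟨k, hk⟩
        · exact ⟨_, hROMono _ _ _ _ P hP m _ A k _ S hk ((xboth_inl A B).on _) hS⟩
        · exact oA ⟨_, hROMono _ _ _ _ P hP m _ B k _ S hk ((xboth_inr A B).on _) hS⟩
      obtain ⟨t, h1, h2⟩ := xboth_least (zrA hr) _ rA
      exact ⟨fun n => hStepN _ _ _ _ P hP m hN hm A B hA hB cB zB iAB n t h1 fun h => h2 (sB t h),
        fun n => hStepN _ _ _ _ P hP m hN hm B A hB hA cA zA iBA n t (sA _ h1) h2⟩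
    · have hr : (∃ O, RO P (A.sum B) m A O) ∧ ∃ O, RO P (A.sum B) m B O := by
        cases m
        exacts [(hN trivial).elim, (hN trivial).elim, bAB, bAB]
      exact ⟨fun n => hStepS _ _ _ _ P hP m hN hm A B hA hB cB zB iAB n hr.2,
        fun n => hStepS _ _ _ _ P hP m hN hm B A hB hA cA zA iBA n hr.1⟩
  constructor
  · by_contra n
    exact xboth_desc (zbB bAB.2) (zbA bAB.1) (step.2 n) mBA step.1 _ fB
  · by_contra n
    exact xboth_desc (zbA bAB.1) (zbB bAB.2) (step.1 n) mAB step.2 _ fA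

theorem final_stmt (hBoth : BothStmt) : FinalStmt := by
  intro U V _ _ A B cA cB h
  by_cases nA : A.IsAcyclic
  · exact tree_isolated A B ⟨cA, nA⟩ cB h
  by_cases nB : B.IsAcyclic
  · obtain ⟨e⟩ := tree_isolated B A ⟨cB, nB⟩ cA fun Z _ G => (h Z G).symm
    exact ⟨e.symm⟩
  have kA : ∀ (Z : Type) (G : SimpleGraph Z), Arr G A ↔ Arrows G A := fun Z G =>
    forall₂_congr fun _ _ => or_congr in_iff in_iff
  have kB : ∀ (Z : Type) (G : SimpleGraph Z), Arr G B ↔ Arrows G B := fun Z G =>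
    forall₂_congr fun _ _ => or_congr in_iff in_iff
  obtain ⟨h1, h2⟩ := hBoth U V A B cA cB nA nB
    (fun Z _ G e => (kB Z G).2 ((h Z G).1 ((kA Z G).1 e)))
    (fun Z _ G e => (kA Z G).2 ((h Z G).2 ((kB Z G).1 e)))
  exact xboth_iso h1 h2

end Pool.Agent.MP_1c0fc2_co.RE
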