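import Pool.Agent.MP_1c0fc2_co.RE.Basic

/-! Minimal branches and elimination orders. -/

open Function Set Relation

namespace Pool.Agent.MP_1c0fc2_co.RE

/-- the side of `O` away from the component of `d` -/
theorem xbr_side {V : Type} {Y : SimpleGraph V} {Al Ob : Set V → Prop} (h : Atoms Y Al Ob)
    {O : Set V} (hO : Ob O) {d : V} (hd : d ∉ O) : ∃ D τ, d ∈ D ∧ Disjoint D O ∧ Al τ ∧
      Cut Y O τ (D ∪ τ)ᶜ ∧ ∀ O', Ob O' → d ∈ O' → O' ⊆ D ∪ τ := by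
  have h1 : Disjoint (comp Y.Adj Oᶜ d) O := disjoint_left.2 fun _ hx => comp_sub hx
  have h2 := h.att O _ hO h1 (comp_conn (adj_symm' Y))
  have h3 : ∀ v w, w ∈ comp Y.Adj Oᶜ d → Y.Adj w v →
      v ∈ comp Y.Adj Oᶜ d ∪ Nb Y O (comp Y.Adj Oᶜ d) := fun v w hw e => by
    by_cases hv : v ∈ O
    · exact Or.inr ⟨hv, w, hw, e.symm⟩
    · exact Or.inl (comp_closed hw hv e)
  refine ⟨_, _, mem_comp hd, h1, h2, ⟨fun _ hx => hx.1, fun x hx e => ?_,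
    disjoint_left.2 fun _ hx e => hx (Or.inr e), fun v hv w e => ?_⟩, fun O' hO' hd' x hx => ?_⟩
  · exact e.elim (fun e => comp_sub e hx.1) hx.2
  · by_cases hw : w ∈ Nb Y O (comp Y.Adj Oᶜ d)
    · exact Or.inr hw
    · exact Or.inl fun e' => e'.elim (fun e' => hv (h3 v w e' e.symm)) hw
  · by_cases hx' : x ∈ Nb Y O (comp Y.Adj Oᶜ d)
    · exact Or.inr hx'
    · exact Or.inl ((h.nsep O' _ hO' h2).1.sub (a := d) ⟨hd', fun e => hd e.1⟩ (mem_comp hd)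
        (fun u _ v hv hu e => (h3 v u hu e).resolve_right hv.2) ⟨hx, hx'⟩)

theorem br_stmt : BrStmt := by
  intro V _ Y Al Ob h 𝒪 ⟨O₀, h0⟩ hOb c
  have hne : {z : Set V × Set V × Set V | z.1 ∈ 𝒪 ∧ Al z.2.1 ∧ Cut Y z.1 z.2.1 z.2.2 ∧
      c ∉ z.2.2}.Nonempty := by
    by_cases hc : c ∈ O₀
    · exact ⟨(O₀, {c}, {c}ᶜ), h0, h.one c, ⟨singleton_subset_iff.2 hc, fun _ hx => hx.2,
        disjoint_compl_left, fun _ _ w _ => (em (w ∈ ({c} : Set V))).symm⟩, fun e => e rfl⟩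
    · obtain ⟨D, τ, h1, -, h2, h3, -⟩ := xbr_side h (hOb _ h0) hc
      exact ⟨(O₀, τ, (D ∪ τ)ᶜ), h0, h2, h3, fun e => e (Or.inl h1)⟩
  obtain ⟨⟨O, τ, B⟩, ⟨h1, h2, h3, h4⟩, hmin⟩ :=
    exists_min_image _ (fun z => z.2.2.ncard) (toFinite _) hne
  refine ⟨O, h1, τ, B, h2, h3, h4, fun O' h5 hne => disjoint_left.2 fun p hp hpB => ?_⟩
  have e1 : O' \ τ ⊆ B := (h.nsep O' τ (hOb _ h5) h2).1.sub (a := p)
    ⟨hp, disjoint_left.1 h3.2.2.1 hpB⟩ hpB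
    fun u _ v hv hu e => (h3.2.2.2 u hu v e).resolve_right hv.2
  obtain ⟨x, hx, hx'⟩ := not_subset.1 fun e => hne (h.anti O O' (hOb _ h1) (hOb _ h5) e).symm
  obtain ⟨D, τ', -, g1, g2, g3, g4⟩ := xbr_side h (hOb _ h5) hx'
  have e2 := g4 O (hOb _ h1) hx
  have e3 : Cut Y O' τ' ((D ∪ τ')ᶜ ∩ B) := by
    refine ⟨g3.1, fun s hs => ⟨g3.2.1 hs, e1 ⟨hs.1, fun e => ?_⟩⟩,
      g3.2.2.1.mono_left inter_subset_left, fun v hv w e => ?_⟩
    · exact g3.2.1 hs (e2 (h3.1 e))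
    · refine (g3.2.2.2 v hv.1 w e).imp_left fun hw => ⟨hw, ?_⟩
      exact (h3.2.2.2 v hv.2 w e).resolve_right fun e' => hw (e2 (h3.1 e'))
  obtain ⟨y, hy⟩ := (h.nsep O τ (hOb _ h1) h2).2
  exact (hmin (O', τ', (D ∪ τ')ᶜ ∩ B) ⟨h5, g2, e3, fun e => h4 e.2⟩).not_gt
    (ncard_lt_ncard ⟨inter_subset_right, fun e => (e (h3.2.1 hy)).1 (e2 hy.1)⟩ (toFinite _))

theorem eo_stmt (hBr : BrStmt) : EOStmt := by
  intro V _ Y Al Ob h
  have key : ∀ n, ∀ 𝒪 : Set (Set V), 𝒪.ncard = n → (∀ O ∈ 𝒪, Ob O) →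
      ∃ (ρ : Set V → ℕ) (τ Br : Set V → Set V), (∀ O ∈ 𝒪, ∀ O' ∈ 𝒪, ρ O = ρ O' → O = O') ∧
        (∀ O ∈ 𝒪, Al (τ O) ∧ Cut Y O (τ O) (Br O)) ∧
        ∀ O ∈ 𝒪, ∀ O' ∈ 𝒪, ρ O < ρ O' → Disjoint O' (Br O) := by
    intro n
    induction n with
    | zero =>
      intro 𝒪 h0 _
      obtain rfl := (ncard_eq_zero (toFinite _)).1 h0
      exact ⟨0, id, id, by simp, by simp, by simp⟩
    | succ n ih =>
      intro 𝒪 h0 hOb
      obtain ⟨O₁, h1⟩ : 𝒪.Nonempty := nonempty_of_ncard_ne_zero (by omega)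
      obtain ⟨c, -⟩ := (h.nsep O₁ _ (hOb _ h1)
        (h.att O₁ ∅ (hOb _ h1) (empty_disjoint _) connOn_empty)).2
      obtain ⟨O₀, h2, τ₀, B₀, h3, h4, -, h5⟩ := hBr V Y Al Ob h 𝒪 ⟨O₁, h1⟩ hOb c
      obtain ⟨ρ, τ, Br, i1, i2, i3⟩ := ih (𝒪 \ {O₀})
        (by rw [ncard_sdiff_singleton_of_mem h2, h0]; rfl) fun O hO => hOb O hO.1
      classical
      refine ⟨fun O => if O = O₀ then 0 else ρ O + 1, fun O => if O = O₀ then τ₀ else τ O,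
        fun O => if O = O₀ then B₀ else Br O, fun O hO O' hO' e => ?_, fun O hO => ?_,
        fun O hO O' hO' e => ?_⟩
      · by_cases a : O = O₀ <;> by_cases b : O' = O₀
        · rw [a, b]
        · simp [a, b] at e
        · simp [a, b] at e
        · exact i1 O ⟨hO, a⟩ O' ⟨hO', b⟩ (by simpa [a, b] using e)
      · by_cases a : O = O₀
        · simp only [if_pos a]
          exact ⟨h3, a ▸ h4⟩
        · simp only [if_neg a]
          exact i2 O ⟨hO, a⟩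
      · by_cases a : O = O₀ <;> by_cases b : O' = O₀
        · simp [a, b] at e
        · simp only [if_pos a]
          exact h5 O' hO' b
        · simp [a, b] at e
        · simp only [if_neg a]
          exact i3 O ⟨hO, a⟩ O' ⟨hO', b⟩ (by simpa [a, b] using e)
  obtain ⟨ρ, τ, Br, i1, i2, i3⟩ := key _ {O | Ob O} rfl fun _ hO => hO
  exact ⟨ρ, τ, Br, fun O O' a b => i1 O a O' b, i2, fun O O' a b => i3 O a O' b⟩

end Pool.Agent.MP_1c0fc2_co.RE
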