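import Pool.Agent.MP_1c0fc2_co.RE.Basic

/-! Matchings of isolating edges. -/

open Function Set Relation

namespace Pool.Agent.MP_1c0fc2_co.RE

section
variable {W V : Type} {H : SimpleGraph W} {P : Par} {J M : SimpleGraph V}

theorem xbridge_ts [Finite V] {S : Set V} (h : TS P H (J \ M) S) : TS P H J S := by
  simpa using h.map ((ih_id (sdiff_le : J \ M ≤ J)).on S)

theorem xbridge_iso {O : Set V} {y y' : V} (h : Iso J {S | S ⊆ O ∧ TS P H J S} y y') :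
    y ∈ O ∧ y' ∈ O ∧ (TG P H J univ).Adj y y' := by
  obtain ⟨h1, ⟨S, hS, hy⟩, h2⟩ := h
  exact ⟨hS.1 hy, hS.1 (h2 S hS hy), h1, S, subset_univ _, hS.2, hy, h2 S hS hy⟩

theorem xbridge_kill [Finite W] [Finite V] (hEq : EqStmt) (hP : P.Ok H) (hJ : In J H)
    {O S : Set V} {y y' : V} (hM : M.Adj y y') (h : Iso J {S | S ⊆ O ∧ TS P H J S} y y')
    (hS : TS P H (J \ M) S) (hO : S ⊆ O) (hy : y ∈ S) : False := by
  obtain ⟨f, hf⟩ := hJ
  exact (hEq W V V H P hP (J \ M) J id f S ((ih_id sdiff_le).on S) (hf.on _) (Or.inl hS) y hy y'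
    (h.2.2 S ⟨hO, xbridge_ts hS⟩ hy) h.1).2 hM

theorem xbridge_path [Finite W] [Finite V] (hEq : EqStmt) (hAtomB : AtomBStmt) (hP : P.Ok H)
    (hJ : In J H) (hM : Mat M) (hY : M ≤ TG P H J univ) {O : Set V} {y y' : V}
    (hO : MaxB P H J O) (e : M.Adj y y') (h : Iso J {S | S ⊆ O ∧ TS P H J S} y y') :
    ¬ ReflTransGen (fun x z => ((TG P H (J \ M) univ).Adj x z ∨ M.Adj x z) ∧
      s(x, z) ≠ s(y, y')) y y' := by
  obtain ⟨hA, hB, -⟩ := hAtomB W V H P J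
  obtain ⟨hy, hy', -⟩ := xbridge_iso h
  have key : ∀ z, ReflTransGen (fun x z => ((TG P H (J \ M) univ).Adj x z ∨ M.Adj x z) ∧
      s(x, z) ≠ s(y, y')) y z → z = y ∨ ∃ C, Disjoint C O ∧ ConnOn (TG P H J univ).Adj C ∧
        z ∈ C ∧ ∃ c ∈ C, (TG P H J univ).Adj y c := by
    intro z p
    induction p with
    | refl => exact Or.inl rfl
    | @tail u w _ s ih =>
      have huw : (TG P H J univ).Adj u w :=
        s.1.elim ((ih_id (sdiff_le : J \ M ≤ J)).tg.2 u w) (@hY u w)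
      rcases ih with rfl | ⟨C, c1, c2, c3, c4⟩
      · by_cases hw : w ∈ O
        · rcases s.1 with ⟨-, S, -, hS, h1, h2⟩ | h1
          · exact (xbridge_kill hEq hP hJ e h hS (hB O S hO (xbridge_ts hS)
              fun hs => huw.ne (hs ⟨h1, hy⟩ ⟨h2, hw⟩)) h1).elim
          · exact (s.2 (by rw [hM _ _ _ h1 e])).elim
        · exact Or.inr ⟨{w}, disjoint_singleton_left.2 hw, connOn_singleton w, rfl, w, rfl, huw⟩
      · by_cases hw : w ∈ O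
        · exact Or.inl (hA.att O C hO c1 c2 ⟨hw, u, c3, huw.symm⟩ ⟨hy, c4⟩)
        · obtain ⟨c, c5, c6⟩ := c4
          exact Or.inr ⟨insert w C, disjoint_insert_left.2 ⟨hw, c1⟩,
            c2.insert (adj_symm' _) c3 huw.symm, mem_insert _ _, c, mem_insert_of_mem _ c5, c6⟩
  intro p
  rcases key y' p with h1 | ⟨C, c1, -, c3, -⟩
  · exact e.ne h1.symm
  · exact disjoint_left.1 c1 c3 hy'

end

theorem bridge_stmt (hEq : EqStmt) (hAtomB : AtomBStmt) : BridgeStmt := by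
  intro W V _ _ H P hP J M hJ
  refine ⟨fun O y y' e hy h h2 => ?_, fun hM h a b e p => ?_⟩
  · obtain ⟨c, -, -, S, hO, hS, h1, -⟩ := h2.nbr' hy
    exact xbridge_kill hEq hP hJ e h hS hO h1
  · have hY : M ≤ TG P H J univ := fun x z e' => by
      obtain ⟨O, y, y', -, h1, h2⟩ := h x z e'
      have := (xbridge_iso h2).2.2
      rcases Sym2.eq_iff.1 h1 with ⟨rfl, rfl⟩ | ⟨rfl, rfl⟩
      exacts [this, this.symm]
    obtain ⟨O, y, y', hO, h1, h2⟩ := h a b e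
    rcases Sym2.eq_iff.1 h1 with ⟨rfl, rfl⟩ | ⟨rfl, rfl⟩
    · exact xbridge_path hEq hAtomB hP hJ hM hY hO e h2 p
    · refine xbridge_path hEq hAtomB hP hJ hM hY hO e.symm h2 (rtg_mono ?_ p.swap)
      exact fun x z s => ⟨s.1.imp (fun t => t.symm) fun t => t.symm, by
        rw [Sym2.eq_swap, h1]
        exact s.2⟩

theorem mi_stmt (hAtomB : AtomBStmt) (hIE : IEStmt) (hBr : BrStmt) (hBridge : BridgeStmt) :
    MIStmt := by
  intro W V _ _ H P hP J hJ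
  obtain ⟨hA, -, hC, hD⟩ := hAtomB W V H P J
  have key : ∀ 𝒪 : Set (Set V), (∀ O ∈ 𝒪, MaxB P H J O) → ∃ M : SimpleGraph V, Mat M ∧
      (∀ a b, M.Adj a b → (∃ O ∈ 𝒪, a ∈ O) ∧ ∃ O y y', MaxB P H J O ∧ s(y, y') = s(a, b) ∧
        Iso J {S | S ⊆ O ∧ TS P H J S} y y') ∧
      ∀ O ∈ 𝒪, ∃ y y', M.Adj y y' ∧ Iso J {S | S ⊆ O ∧ TS P H J S} y y' := by
    intro 𝒪
    induction 𝒪 using WellFoundedLT.induction with
    | ind 𝒪 ih =>
      intro h𝒪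
      rcases 𝒪.eq_empty_or_nonempty with rfl | hne
      · exact ⟨⊥, fun _ _ _ h => h.elim, fun _ _ h => h.elim, fun _ h => h.elim⟩
      obtain ⟨c, -⟩ := (h𝒪 _ hne.choose_spec).1.nonempty
      obtain ⟨O, hO, τ, Br, h1, h2, -, h3⟩ := hBr V _ _ _ hA 𝒪 hne h𝒪 c
      obtain ⟨M, m1, m2, m3⟩ := ih (𝒪 \ {O}) (sdiff_singleton_ssubset.2 hO)
        fun O' h => h𝒪 O' h.1
      obtain ⟨r, hr⟩ : ∃ r, τ ⊆ {r} := by
        rcases h1.eq_empty_or_singleton with rfl | ⟨r, rfl⟩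
        exacts [⟨c, empty_subset _⟩, ⟨r, subset_rfl⟩]
      obtain ⟨_, -, _, -, -, S, s1, s2, -⟩ := (hC O (h𝒪 O hO)).edge
      obtain ⟨y, y', y1, y2, hi⟩ := (hIE W V H P hP J hJ {S | S ⊆ O ∧ TS P H J S} ⟨S, s1, s2⟩
        fun _ h => h.2).2 r
      obtain ⟨hy, hy', -⟩ := xbridge_iso hi
      have hn : ∀ a ∈ O, a ≠ r → ∀ b, ¬ M.Adj a b := fun a ha har b e => by
        obtain ⟨O', o1, o2⟩ := (m2 a b e).1
        exact disjoint_left.1 (h3 O' o1.1 o1.2) o2 (h2.2.1 ⟨ha, fun t => har (hr t)⟩)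
      have n1 := hn y hy y1
      have n2 := hn y' hy' y2
      have n3 := hi.1.ne
      refine ⟨M ⊔ SimpleGraph.edge y y', fun a b d e e' => ?_, fun a b e => ?_, fun O' o => ?_⟩
      · have := m1 a b d
        simp only [SimpleGraph.sup_adj, SimpleGraph.edge_adj] at e e'
        grind
      · rcases e with e | e
        · obtain ⟨⟨O', o1, o2⟩, o3⟩ := m2 a b e
          exact ⟨⟨O', o1.1, o2⟩, o3⟩
        · rcases ((SimpleGraph.edge_adj _ _ _ _).1 e).1 with ⟨rfl, rfl⟩ | ⟨rfl, rfl⟩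
          · exact ⟨⟨O, hO, hy⟩, O, _, _, h𝒪 O hO, rfl, hi⟩
          · exact ⟨⟨O, hO, hy'⟩, O, _, _, h𝒪 O hO, Sym2.eq_swap, hi⟩
      · by_cases e : O' = O
        · exact ⟨y, y', Or.inr ((SimpleGraph.edge_adj _ _ _ _).2 ⟨Or.inl ⟨rfl, rfl⟩, n3⟩), e ▸ hi⟩
        · obtain ⟨a, b, h4, h5⟩ := m3 O' ⟨o, e⟩
          exact ⟨a, b, Or.inl h4, h5⟩
  obtain ⟨M, m1, m2, m3⟩ := key {O | MaxB P H J O} fun _ h => h
  obtain ⟨b1, b2⟩ := hBridge W V H P hP J M hJ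
  refine ⟨M, fun a b e => ?_, m1, b2 m1 fun a b e => (m2 a b e).2, fun S hS => ?_⟩
  · obtain ⟨O, y, y', -, h1, h2⟩ := (m2 a b e).2
    rcases Sym2.eq_iff.1 h1 with ⟨rfl, rfl⟩ | ⟨rfl, rfl⟩
    exacts [h2.1, h2.1.symm]
  · have : TH P H J S := by simpa using hS.map ((ih_id (sdiff_le : J \ M ≤ J)).on S)
    obtain ⟨y, y', h1, h2⟩ := m3 S (hD hP hJ S this)
    exact b1 S y y' h1 (xbridge_iso h2).1 h2 hS.1

end Pool.Agent.MP_1c0fc2_co.RE
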