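import Pool.Agent.MP_1c0fc2_co.RE.CloseC

/-! The closing step: the Ramsey property. -/

open Function Set Relation

namespace Pool.Agent.MP_1c0fc2_co.RE

/-- the colours of the plain types -/
theorem xclose_nae {U S : Type} (A : SimpleGraph U) (Y : Set U) (Ok : S → S → Prop) (o : S)
    (ct : Sym2 S → Prop → Prop) (sl : S → S → U → S) (s1 : ∀ σ τ, ∀ a ∈ Y, sl σ τ a = σ)
    (s2 : ∀ σ τ, ∀ a ∉ Y, sl σ τ a = τ)
    (hn : ∀ σ τ, Ok σ τ → ∀ red, red = cutG A Y ∨ red = covG A Y → ∀ β : Prop,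
      ∃ a b, A.Adj a b ∧ (ct s(sl σ τ a, sl σ τ b) (red.Adj a b) ↔ β))
    (h0 : Ok o o) (h1 : ∀ σ τ, Ok σ τ → Ok σ σ ∧ Ok τ τ ∧ Ok σ o ∧ Ok o σ ∧ Ok τ o ∧ Ok o τ)
    {σ τ : S} (h : Ok σ τ) : ct s(σ, τ) True ↔ ¬ ct s(o, o) False := by
  have cut : ∀ σ τ, Ok σ τ → ∀ β : Prop, (ct s(σ, σ) False ↔ β) ∨ (ct s(σ, τ) True ↔ β) ∨
      (ct s(τ, τ) False ↔ β) := by
    intro σ τ h β
    obtain ⟨a, b, e, k⟩ := hn σ τ h _ (.inl rfl) β
    by_cases ha : a ∈ Y <;> by_cases hb : b ∈ Y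
    · rw [s1 _ _ _ ha, s1 _ _ _ hb, eq_false fun h : (cutG A Y).Adj a b => h.2.1 ha hb] at k
      exact .inl k
    · rw [s1 _ _ _ ha, s2 _ _ _ hb, @eq_true ((cutG A Y).Adj a b) ⟨e, by tauto⟩] at k
      exact .inr (.inl k)
    · rw [s2 _ _ _ ha, s1 _ _ _ hb, @eq_true ((cutG A Y).Adj a b) ⟨e, by tauto⟩, Sym2.eq_swap] at k
      exact .inr (.inl k)
    · rw [s2 _ _ _ ha, s2 _ _ _ hb, eq_false fun h : (cutG A Y).Adj a b => ha (h.2.2 hb)] at k
      exact .inr (.inr k)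
  have cov : ∀ σ τ, Ok σ τ → ∀ β : Prop, (ct s(σ, σ) True ↔ β) ∨ (ct s(σ, τ) True ↔ β) ∨
      (ct s(τ, τ) False ↔ β) := by
    intro σ τ h β
    obtain ⟨a, b, e, k⟩ := hn σ τ h _ (.inr rfl) β
    by_cases ha : a ∈ Y <;> by_cases hb : b ∈ Y
    · rw [s1 _ _ _ ha, s1 _ _ _ hb, @eq_true ((covG A Y).Adj a b) ⟨e, .inl ha⟩] at k
      exact .inl k
    · rw [s1 _ _ _ ha, s2 _ _ _ hb, @eq_true ((covG A Y).Adj a b) ⟨e, .inl ha⟩] at k
      exact .inr (.inl k)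
    · rw [s2 _ _ _ ha, s1 _ _ _ hb, @eq_true ((covG A Y).Adj a b) ⟨e, .inr hb⟩, Sym2.eq_swap] at k
      exact .inr (.inl k)
    · rw [s2 _ _ _ ha, s2 _ _ _ hb, eq_false fun h : (covG A Y).Adj a b => h.2.elim ha hb] at k
      exact .inr (.inr k)
  have k1 : ∀ σ, Ok σ σ → (ct s(σ, σ) True ↔ ¬ ct s(σ, σ) False) := fun σ h => by
    have := cut σ σ h (¬ ct s(σ, σ) False)
    tauto
  have k2 : ∀ σ, Ok σ σ → Ok σ o → Ok o σ → (ct s(σ, σ) False ↔ ct s(o, o) False) := by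
    intro σ a1 a2 a3
    have b1 := cut σ o a2 (¬ ct s(o, o) False)
    have b2 := cov σ o a2 (¬ ct s(o, o) False)
    have b3 := cov o σ a3 (ct s(o, o) False)
    have b4 := k1 σ a1
    have b5 := k1 o h0
    rw [Sym2.eq_swap (a := o) (b := σ)] at b3
    tauto
  obtain ⟨a1, a2, a3, a4, a5, a6⟩ := h1 σ τ h
  have b1 := k2 σ a1 a3 a4
  have b2 := k2 τ a2 a5 a6
  have b3 := cut σ τ h (¬ ct s(o, o) False)
  tauto

namespace CH
open CD
variable {U X V : Type} [Finite U] [Finite V] {c : CD U X V} (h : CH c)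

/-- pairs of slots that may be used together -/
def SOk (c : CD U X V) (σ τ : Option V) : Prop :=
  (∀ u, σ = some u → ∃ v, c.D.Adj u v) ∧ (∀ u, τ = some u → ∃ v, c.D.Adj u v) ∧
    (c.kd σ = c.kd τ → σ = τ)

omit [Finite U] [Finite V] in
theorem kd_none {σ : Option V} (e : c.kd σ = c.kd none) : σ = none := Option.map_eq_none_iff.1 e

theorem ram (hD : ∃ u v, c.D.Adj u v) (hr : MRam h.φ ((V → V → Prop) × Prop) univ) :
    RamOn c.A h.G' h.R' ⊥ := by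
  classical
  intro T hT _
  by_contra hno
  obtain ⟨p, hp⟩ := hr fun d => (fun u v => ∃ hd : h.H.ty d = none,
    T.Adj (h.ι ⟨d, hd⟩ u) (h.ι ⟨d, hd⟩ v), ∃ r x y, h.PlOn d r x y ∧ T.Adj x y)
  have hty : ∀ {j j' : c.J} {a b a' b' : U} (e : c.A.Adj a b) (e' : c.A.Adj a' b'),
      h.H.ty (h.ed p j e) = h.H.ty (h.ed p j' e') → c.F.ty ⟨(j, s(a, b)), e⟩ =
        c.F.ty ⟨(j', s(a', b')), e'⟩ := fun e e' k =>
    ((h.φ p).ty_e _).symm.trans (k.trans ((h.φ p).ty_e _))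
  have mono : ∀ (j : c.J) (β : Prop), ∃ a b, c.A.Adj a b ∧
      (T.Adj (h.tb p j a) (h.tb p j b) ↔ β) := by
    intro j β
    by_contra hc
    have k : ∀ a b, c.A.Adj a b → ¬ (T.Adj (h.tb p j a) (h.tb p j b) ↔ β) :=
      fun a b e k => hc ⟨a, b, e, k⟩
    by_cases hβ : β
    · exact hno (.inr ⟨_, h.tb_inj p j, fun a b e => ⟨h.G'_tb.2 e,
        fun t => k a b e (iff_of_true t hβ)⟩⟩)
    · exact hno (.inl ⟨_, h.tb_inj p j, fun a b e => by_contra fun t => k a b e (iff_of_false t hβ)⟩)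
  have hpl : ∀ (j : c.J) {a b : U} (e : c.A.Adj a b), ¬ (old j).Adj a b →
      ((∃ r x y, h.PlOn (h.ed p j e) r x y ∧ T.Adj x y) ↔ T.Adj (h.tb p j a) (h.tb p j b)) := by
    refine fun j a b e ho => ⟨?_, fun t => ⟨_, _, _, h.ed_plain p e ho, t⟩⟩
    rintro ⟨r, x, y, h1, t⟩
    obtain ⟨j', a', b', e', h2, -, -, rfl, rfl⟩ := h1.top (p := p) ⟨.inr _, rfl⟩
    obtain ⟨rfl, h3⟩ := Prod.mk.inj (congrArg Subtype.val ((h.φ p).e_inj h2))
    rcases Sym2.eq_iff.1 h3 with ⟨rfl, rfl⟩ | ⟨rfl, rfl⟩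
    exacts [t, t.symm]
  let ct : Sym2 (Option V) → Prop → Prop := fun s r => ∃ (j : c.J) (a b : U), c.A.Adj a b ∧
    ¬ (old j).Adj a b ∧ s(sl j a, sl j b) = s ∧ (red j).Adj a b = r ∧
      T.Adj (h.tb p j a) (h.tb p j b)
  have hct : ∀ (j : c.J) (a b : U), c.A.Adj a b → ¬ (old j).Adj a b →
      (ct s(sl j a, sl j b) ((red j).Adj a b) ↔ T.Adj (h.tb p j a) (h.tb p j b)) := by
    refine fun j a b e ho => ⟨?_, fun t => ⟨j, a, b, e, ho, rfl, rfl, t⟩⟩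
    rintro ⟨j', a', b', e', ho', h1, h2, t⟩
    have k := congrArg Prod.snd (hp _ _ trivial (hty e e' (by
      rw [h.ed_some p e ho, h.ed_some p e' ho', h1, h2])))
    exact (hpl j e ho).1 (k.mpr ((hpl j' e' ho').2 t))
  have hnone : ∀ u, (none : Option V) = some u → ∃ v, c.D.Adj u v := fun _ e => by simp at e
  have nae : ∀ σ τ, SOk c σ τ → (ct s(σ, τ) True ↔ ¬ ct s(none, none) False) := fun σ τ hs => by
    refine xclose_nae c.A c.E.S (SOk c) none ct (fun σ τ a => if a ∈ c.E.S then σ else τ)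
      (fun _ _ _ ha => if_pos ha) (fun _ _ _ ha => if_neg ha) ?_ ⟨hnone, hnone, fun _ => rfl⟩
      (fun σ τ k => ⟨⟨k.1, k.1, fun _ => rfl⟩, ⟨k.2.1, k.2.1, fun _ => rfl⟩,
        ⟨k.1, hnone, kd_none⟩, ⟨hnone, k.1, fun e => (kd_none e.symm).symm⟩,
        ⟨k.2.1, hnone, kd_none⟩, ⟨hnone, k.2.1, fun e => (kd_none e.symm).symm⟩⟩) hs
    intro σ τ k rd hrd β
    let j : c.J := ⟨(fun a => if a ∈ c.E.S then σ else τ, ⊥, rd), .inr ⟨rfl, hrd⟩,
      fun _ _ e => e.elim, fun a u => by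
        dsimp only
        split_ifs
        exacts [k.1 u, k.2.1 u], fun a b => by
        dsimp only
        split_ifs
        exacts [fun _ => rfl, k.2.2, fun e => (k.2.2 e.symm).symm, fun _ => rfl]⟩
    obtain ⟨a, b, e, t⟩ := mono j β
    exact ⟨a, b, e, (hct j a b e fun e => e.elim).trans t⟩
  obtain ⟨side, hside⟩ := c.ok.bip
  have big : ∀ u v, c.D.Adj u v → ∃ d : h.Big, (∃ e, (h.φ p).e e = d.1 ∧ c.F.ty e = none) ∧
      (T.Adj (h.ι d u) (h.ι d v) ↔ ct s(none, none) False) := by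
    intro u v huv
    let s0 : U → Option V := fun a =>
      if a ∈ c.E.F.support then (if side a = true then some u else some v) else none
    have hs0 : ∀ a, s0 a = some u ∨ s0 a = some v ∨ s0 a = none := fun a => by
      simp only [s0]
      split_ifs <;> simp
    have hF : ∀ a b, c.E.F.Adj a b →
        (s0 a = some u ∧ s0 b = some v) ∨ (s0 a = some v ∧ s0 b = some u) := fun a b e => by
      have := hside a b e
      have ha : a ∈ c.E.F.support := ⟨b, e⟩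
      have hb : b ∈ c.E.F.support := ⟨a, e.symm⟩
      simp only [s0, if_pos ha, if_pos hb]
      revert this
      cases side a <;> cases side b <;> simp
    have hk : ∀ a b, SOk c (s0 a) (s0 b) := fun a b => by
      have k1 : ∀ a w, s0 a = some w → ∃ z, c.D.Adj w z := fun a w e => by
        rcases hs0 a with e' | e' | e' <;> rw [e'] at e
        exacts [⟨v, Option.some.inj e ▸ huv⟩, ⟨u, Option.some.inj e ▸ huv.symm⟩, hnone w e]
      refine ⟨k1 a, k1 b, fun e => ?_⟩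
      rcases hs0 a with e1 | e1 | e1 <;> rcases hs0 b with e2 | e2 | e2 <;> rw [e1, e2] at e ⊢
      exacts [absurd (Option.some.inj e) (c.cell_ne huv), kd_none e,
        absurd (Option.some.inj e) (c.cell_ne huv.symm), kd_none e, (kd_none e.symm).symm,
        (kd_none e.symm).symm]
    let j : c.J := ⟨(s0, c.E.F, c.A \ c.E.F), .inl ⟨rfl, rfl⟩, fun a b e =>
      (hF a b e).elim (fun k => ⟨u, v, huv, k⟩) fun k => ⟨v, u, huv.symm, k⟩,
      fun a w => (hk a a).1 w, fun a b => (hk a b).2.2⟩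
    obtain ⟨a, b, e, t⟩ := mono j (ct s(none, none) False)
    have ho : (old j).Adj a b := by
      by_contra ho
      have k1 := hct j a b e ho
      rw [@eq_true ((red j).Adj a b) ⟨e, ho⟩] at k1
      exact iff_not_self (t.symm.trans (k1.symm.trans (nae _ _ (hk a b))))
    obtain ⟨u', v', -, h1, h2, h3, h4⟩ := h.old_ι p ho
    refine ⟨⟨h.ed p j (old_le j ho), h.ed_none.2 ho⟩, ⟨_, rfl, c.fty_none.2 ho⟩, ?_⟩
    rw [h3, h4] at t
    rcases hF a b ho with ⟨k1, k2⟩ | ⟨k1, k2⟩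
    · rwa [Option.some.inj (k1.symm.trans h1), Option.some.inj (k2.symm.trans h2)]
    · rwa [Option.some.inj (k1.symm.trans h1), Option.some.inj (k2.symm.trans h2), T.adj_comm]
  obtain ⟨u0, v0, h0⟩ := hD
  obtain ⟨d, ⟨e0, d1, d2⟩, -⟩ := big u0 v0 h0
  have all : ∀ u v, c.D.Adj u v → (T.Adj (h.ι d u) (h.ι d v) ↔ ct s(none, none) False) := by
    intro u v huv
    obtain ⟨d', ⟨e', k1, k2⟩, t⟩ := big u v huv
    have k := congrFun₂ (congrArg Prod.fst (hp e0 e' trivial (d2.trans k2.symm))) u v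
    obtain ⟨d, hd⟩ := d
    obtain ⟨d', hd'⟩ := d'
    obtain rfl : (h.φ p).e e0 = d := d1
    obtain rfl : (h.φ p).e e' = d' := k1
    exact ⟨fun t' => t.1 (k.mp ⟨hd, t'⟩).2, fun t' => (k.mpr ⟨hd', t.2 t'⟩).2⟩
  have i1 : ∀ K : SimpleGraph V, (∀ u v, K.Adj u v → T.Adj (h.ι d u) (h.ι d v)) → ¬ In c.A K :=
    fun K hK hi => hno (.inl (hi.trans ⟨_, h.ι_inj d, hK⟩))
  have i2 : ∀ K : SimpleGraph V, K ≤ c.G → (∀ u v, K.Adj u v → ¬ T.Adj (h.ι d u) (h.ι d v)) →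
      ¬ In c.A K := fun K hG hK hi =>
    hno (.inr (hi.trans ⟨_, h.ι_inj d, fun u v e => ⟨h.G'_ι.2 (hG e), hK u v e⟩⟩))
  by_cases hβ : ct s(none, none) False
  · rcases c.lev.ram (c.G \ T.comap (h.ι d)) sdiff_le (fun u v e => iff_of_false
      (fun k => k.2 ((all u v e).2 hβ)) (c.blue e).2) with k | k
    · exact i2 _ sdiff_le (fun _ _ e => e.2) k
    · exact i1 (c.G \ (c.G \ T.comap (h.ι d))) (fun _ _ e => by_contra fun t => e.2 ⟨e.1, t⟩) k
  · rcases c.lev.ram (T.comap (h.ι d)) (fun u v e => h.G'_ι.1 (hT e)) (fun u v e => iff_of_false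
      (fun k => hβ ((all u v e).1 k)) (c.blue e).2) with k | k
    · exact i1 _ (fun _ _ e => e) k
    · exact i2 _ sdiff_le (fun _ _ e => e.2) k

end CH

theorem close_stmt (hMT : MTStmt) : CloseStmt := by
  intro U X V _ _ _ A E Γ RΓ Hub G R D Gs Bs g hE hL hb hf
  by_cases hD : ∃ u v, D.Adj u v
  · let c : CD U X V := ⟨A, E, Γ, RΓ, Hub, G, R, D, Gs, Bs, g, hE, hL, hb, hf⟩
    obtain ⟨H, Q, _, φ, h1, h2⟩ := hMT _ _ c.prof c.F c.F_lin ((V → V → Prop) × Prop) g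
    let h : CH c := ⟨H, Q, φ, h1⟩
    exact ⟨h.W, inferInstance, h.G', h.R', h.Gs', h.Bs', h.last h.thin (h.ram hD h2)⟩
  · exact ⟨V, inferInstance, G, R, Gs, Bs, hL.core, fun β hβ => .inl (hL.low β hβ),
      fun R' h1 _ => hL.ram R' h1 fun x y e => absurd ⟨x, y, e⟩ hD⟩

end Pool.Agent.MP_1c0fc2_co.RE
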