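import Pool.Agent.MP_1c0fc2_co.RE.Basic

open Function Set Relation

namespace Pool.Agent.MP_1c0fc2_co.RE

theorem ie_stmt (hK3 : K3Stmt) (hIE3 : IE3Stmt) (hIE4 : IE4Stmt) : IEStmt := by
  intro W V _ _ H P hP
  rcases (hK3 W V H P hP).1.1.eq_or_lt with h | h
  exacts [hIE3 W V H P hP h.symm, hIE4 W V H P hP h]

theorem col2_stmt (hIE : IEStmt) : Col2Stmt := by
  classical
  intro W V _ _ H P hP J hJ 𝒯 h𝒯 χ0 p q
  induction hn : 𝒯.ncard using Nat.strong_induction_on generalizing 𝒯 with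
  | _ n ih =>
  rcases 𝒯.eq_empty_or_nonempty with rfl | hne
  · exact ⟨χ0, rfl, rfl, fun _ h => h.elim⟩
  obtain ⟨y, y', hp, hq, e, ⟨S0, h0, hy0⟩, h1⟩ := (hIE W V H P hP J hJ 𝒯 hne h𝒯).1 p q
  obtain ⟨χ, c1, c2, c3⟩ := ih _ (hn ▸ ncard_lt_ncard (s := {S | S ∈ 𝒯 ∧ y ∉ S})
    ⟨fun _ h => h.1, fun h => (h h0).2 hy0⟩ (toFinite _)) _ (fun S h => h𝒯 S h.1) rfl
  refine ⟨update χ y (!χ y'), by rwa [update_of_ne hp.symm], by rwa [update_of_ne hq.symm],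
    fun S hS => ?_⟩
  by_cases h : y ∈ S
  · refine ⟨y, h, y', h1 S hS h, ?_⟩
    rw [update_self, update_of_ne e.ne']
    simp
  · obtain ⟨a, ha, b, hb, hab⟩ := c3 S ⟨hS, h⟩
    refine ⟨a, ha, b, hb, ?_⟩
    rwa [update_of_ne (fun e => h (e ▸ ha) : a ≠ y), update_of_ne (fun e => h (e ▸ hb) : b ≠ y)]

section
variable {W V : Type} {H : SimpleGraph W} {P : Par} {J : SimpleGraph V}

/-- good colourings of `Z` -/
def xcol2_G (P : Par) (H : SimpleGraph W) (J : SimpleGraph V) (Z : Set V) (χ : V → Bool) : Prop :=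
  (∀ S, S ⊆ Z → TS P H J S → ∃ a ∈ S, ∃ b ∈ S, χ a ≠ χ b) ∧
    ∀ S, S ⊆ Z → AS P H J S → ∃ a ∈ S, ∃ b ∈ S, χ a = false ∧ χ b = false ∧ J.Adj a b

theorem xcol2_edge {S : Set V} (h : ConnOn J.Adj S) (h2 : ¬ S.Subsingleton) :
    ∃ a ∈ S, ∃ b ∈ S, J.Adj a b := by
  obtain ⟨a, ha, b, hb, hab⟩ := not_subsingleton_iff.1 h2
  obtain ⟨y, hy, -, e⟩ := h.step ha hb hab.symm
  exact ⟨a, ha, y, hy, e⟩

theorem xcol2_glue {Z κ A B : Set V} (hT : ∀ S, TS P H J S ∨ AS P H J S → ConnOn J.Adj (S \ κ))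
    (hc : Z \ κ ⊆ A ∪ B) (hd : Disjoint A B) (hn : ∀ a ∈ A, ∀ b ∈ B, ¬ J.Adj a b)
    (hA : Disjoint A κ) (hB : Disjoint B κ) {χ1 χ2 : V → Bool} (h12 : ∀ x ∈ κ, χ2 x = χ1 x)
    (h1 : xcol2_G P H J (Z \ B) χ1) (h2 : xcol2_G P H J (Z \ A) χ2) :
    ∃ χ, (∀ x ∉ B, χ x = χ1 x) ∧ xcol2_G P H J Z χ := by
  classical
  have side : ∀ S, S ⊆ Z → TS P H J S ∨ AS P H J S → S ⊆ Z \ B ∨ S ⊆ Z \ A := fun S hS h => by
    by_contra hx
    simp only [not_or, not_subset] at hx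
    obtain ⟨⟨b, hb, hb'⟩, a, ha, ha'⟩ := hx
    have e1 : b ∈ B := by_contra fun e => hb' ⟨hS hb, e⟩
    have e2 : a ∈ A := by_contra fun e => ha' ⟨hS ha, e⟩
    obtain ⟨x, hx, y, hy, h3, h4, h5⟩ := (hT S h).cross (Y := A) ⟨ha, disjoint_left.1 hA e2⟩
      ⟨hb, disjoint_left.1 hB e1⟩ e2 (disjoint_right.1 hd e1)
    exact hn x h3 y ((hc ⟨hS hy.1, hy.2⟩).resolve_left h4) h5
  have e1 : ∀ x ∉ B, (if x ∈ B then χ2 x else χ1 x) = χ1 x := fun x hx => if_neg hx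
  have e2 : ∀ x ∈ Z \ A, (if x ∈ B then χ2 x else χ1 x) = χ2 x := fun x hx => by
    split_ifs with h
    · rfl
    · exact (h12 x (by_contra fun e => (hc ⟨hx.1, e⟩).elim hx.2 h)).symm
  refine ⟨fun x => if x ∈ B then χ2 x else χ1 x, e1, fun S hS h => ?_, fun S hS h => ?_⟩
  · rcases side S hS (.inl h) with e | e
    · obtain ⟨a, ha, b, hb, hab⟩ := h1.1 S e h
      exact ⟨a, ha, b, hb, by simp only [e1 a (e ha).2, e1 b (e hb).2]; exact hab⟩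
    · obtain ⟨a, ha, b, hb, hab⟩ := h2.1 S e h
      exact ⟨a, ha, b, hb, by simp only [e2 a (e ha), e2 b (e hb)]; exact hab⟩
  · rcases side S hS (.inr h) with e | e
    · obtain ⟨a, ha, b, hb, hab⟩ := h1.2 S e h
      exact ⟨a, ha, b, hb, by simp only [e1 a (e ha).2, e1 b (e hb).2]; exact hab⟩
    · obtain ⟨a, ha, b, hb, hab⟩ := h2.2 S e h
      exact ⟨a, ha, b, hb, by simp only [e2 a (e ha), e2 b (e hb)]; exact hab⟩

theorem xcol2_full (hA : Atoms J (Cq J) (AS P H J)) {Z O : Set V}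
    (hZ : ∀ κ, Cq J κ → ConnOn J.Adj (Z \ κ)) (hO : AS P H J O) (hOZ : O ⊆ Z) : Z ⊆ O := by
  intro w hw
  by_contra hwO
  have hk := hA.att O (comp J.Adj (Z \ O) w) hO (disjoint_left.2 fun _ h => (comp_sub h).2)
    (comp_conn (adj_symm' J))
  obtain ⟨x, hx⟩ := (hA.nsep O _ hO hk).2
  obtain ⟨a, -, b, hb, h1, h2, h3⟩ := (hZ _ hk).cross (Y := comp J.Adj (Z \ O) w)
    ⟨hw, fun h => hwO h.1⟩ ⟨hOZ hx.1, hx.2⟩ (mem_comp ⟨hw, hwO⟩) fun h => (comp_sub h).2 hx.1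
  exact hb.2 ⟨by_contra fun h => h2 (comp_closed h1 ⟨hb.1, h⟩ h3), a, h1, h3.symm⟩

theorem xcol2_prime [Finite V] (hv : 4 ≤ P.vA) (hA : Atoms J (Cq J) (AS P H J)) {Z : Set V}
    (hZ : ∀ κ, Cq J κ → ConnOn J.Adj (Z \ κ)) {p q : V} (hpq : p = q ∨ J.Adj p q)
    (χ0 : V → Bool) (h0 : ∃ χ : V → Bool, χ p = χ0 p ∧ χ q = χ0 q ∧
      ∀ S, S ⊆ Z → TS P H J S → ∃ a ∈ S, ∃ b ∈ S, χ a ≠ χ b) :
    ∃ χ : V → Bool, χ p = χ0 p ∧ χ q = χ0 q ∧ xcol2_G P H J Z χ := by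
  classical
  obtain ⟨χ, ⟨c1, c2, c3⟩, hm⟩ := exists_min_image {χ : V → Bool | χ p = χ0 p ∧ χ q = χ0 q ∧
    ∀ S, S ⊆ Z → TS P H J S → ∃ a ∈ S, ∃ b ∈ S, χ a ≠ χ b} (fun χ => {x | χ x = true}.ncard)
    (toFinite _) h0
  refine ⟨χ, c1, c2, c3, fun O hOZ hO => ?_⟩
  have hZO := xcol2_full hA hZ hO hOZ
  by_contra hx
  have key : ∀ x, x ≠ p → x ≠ q → χ x = false := fun x hp hq => by
    by_contra hc
    refine (hm (update χ x false) ⟨by rwa [update_of_ne hp.symm], by rwa [update_of_ne hq.symm],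
      fun S hS hT => ?_⟩).not_gt (ncard_lt_ncard ⟨fun y hy => ?_, fun h => ?_⟩ (toFinite _))
    · by_contra hm
      simp only [not_exists, not_and, not_not] at hm
      by_cases hxS : x ∈ S
      · obtain ⟨a, ha, ha1, -⟩ := hT.two.exists_ne x x
        obtain ⟨b, hb, hb1, e⟩ := hT.two.nbr ha x ha1
        have e1 := hm a ha x hxS
        have e2 := hm b hb x hxS
        rw [update_self, update_of_ne (by assumption)] at e1 e2
        exact hx ⟨a, hZO (hS ha), b, hZO (hS hb), e1, e2, e⟩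
      · obtain ⟨a, ha, b, hb, hab⟩ := c3 S hS hT
        have e1 := hm a ha b hb
        rw [update_of_ne (fun e => hxS (e ▸ ha) : a ≠ x),
          update_of_ne (fun e => hxS (e ▸ hb) : b ≠ x)] at e1
        exact hab e1
    · by_cases e : y = x
      · simp [e] at hy
      · simpa [update_of_ne e] using hy
    · simpa using h (show x ∈ {x | χ x = true} by simpa using hc)
  have hk : Cq J {p, q} := by
    rcases hpq with rfl | e
    · exact .inl (by simp)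
    · exact .inr ⟨p, q, e, rfl⟩
  obtain ⟨a, ha, b, hb, e⟩ := xcol2_edge (hA.nsep O _ hO hk).1 fun h => by
    have h1 := (ncard_le_one (toFinite _)).2 h
    have h2 := ncard_le_ncard_sdiff_add_ncard O {p, q} (toFinite _)
    have h3 := ncard_pair_le p q
    have h4 := hO.2.1
    omega
  exact hx ⟨a, ha.1, b, hb.1, key a (fun e => ha.2 (.inl e)) fun e => ha.2 (.inr e),
    key b (fun e => hb.2 (.inl e)) fun e => hb.2 (.inr e), e⟩

end

theorem l6_stmt (hAtomA : AtomAStmt) (hNsep : NsepStmt) (hCol2 : Col2Stmt) : L6Stmt := by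
  intro W V _ _ H P hP hv J hJ
  have hA := hAtomA W V H P hP J hJ
  rcases isEmpty_or_nonempty V with hV | hV
  · exact ⟨∅, fun S h => h.two.nonempty.elim fun x _ => hV.elim x,
      fun S h => h.two.nonempty.elim fun x _ => hV.elim x⟩
  have hT : ∀ κ, Cq J κ → ∀ S, TS P H J S ∨ AS P H J S → ConnOn J.Adj (S \ κ) := by
    rintro κ hk S (h | h)
    · obtain ⟨a, ha, b, hb, e⟩ := h.two.edge
      exact (hNsep W V H J hJ S a b κ (h.1.rs ha hb e) hk).1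
    · exact (hA.nsep S κ h hk).1
  have key : ∀ (n : ℕ) (Z : Set V), Z.ncard = n → ∀ p q, (p = q ∨ J.Adj p q) → ∀ χ0 : V → Bool,
      ∃ χ : V → Bool, χ p = χ0 p ∧ χ q = χ0 q ∧ xcol2_G P H J Z χ := by
    intro n
    induction n using Nat.strong_induction_on with
    | _ n ih =>
    intro Z hn p q hpq χ0
    by_cases hZ : ∀ κ, Cq J κ → ConnOn J.Adj (Z \ κ)
    · obtain ⟨χ, c1, c2, c3⟩ := hCol2 W V H P hP J hJ {S | S ⊆ Z ∧ TS P H J S}
        (fun _ h => h.2) χ0 p q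
      exact xcol2_prime hv hA hZ hpq χ0 ⟨χ, c1, c2, fun S h1 h2 => c3 S ⟨h1, h2⟩⟩
    simp only [not_forall] at hZ
    obtain ⟨κ, hk, hZ⟩ := hZ
    obtain ⟨u, hu, w, hw, huw⟩ := not_connOn hZ
    have lt : ∀ B : Set V, B.Nonempty → B ⊆ Z \ κ → (Z \ B).ncard < n := fun B ⟨b, hb⟩ hB =>
      hn ▸ ncard_lt_ncard ⟨sdiff_subset, fun h => (h (hB hb).1).2 hb⟩ (toFinite _)
    have main : ∀ A B : Set V, A.Nonempty → B.Nonempty → A ⊆ Z \ κ → B ⊆ Z \ κ →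
        Z \ κ ⊆ A ∪ B → Disjoint A B → (∀ a ∈ A, ∀ b ∈ B, ¬ J.Adj a b) → p ∉ B → q ∉ B →
        ∃ χ : V → Bool, χ p = χ0 p ∧ χ q = χ0 q ∧ xcol2_G P H J Z χ := by
      intro A B h1 h2 h3 h4 h5 h6 h7 hp hq
      obtain ⟨χ1, c1, c2, c3⟩ := ih _ (lt B h2 h4) _ rfl p q hpq χ0
      obtain ⟨a, b, hab, hs⟩ := hk.pair
      obtain ⟨χ2, d1, d2, d3⟩ := ih _ (lt A h1 h3) _ rfl a b hab χ1
      obtain ⟨χ, e1, e2⟩ := xcol2_glue (hT κ hk) h5 h6 h7 (disjoint_left.2 fun _ h => (h3 h).2)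
        (disjoint_left.2 fun _ h => (h4 h).2)
        (fun x hx => by rcases hs hx with rfl | rfl <;> assumption) c3 d3
      exact ⟨χ, (e1 p hp).trans c1, (e1 q hq).trans c2, e2⟩
    have hn : ∀ a ∈ comp J.Adj (Z \ κ) u, ∀ b ∈ (Z \ κ) \ comp J.Adj (Z \ κ) u, ¬ J.Adj a b :=
      fun a ha b hb e => hb.2 (comp_closed ha hb.1 e)
    have hw' : ((Z \ κ) \ comp J.Adj (Z \ κ) u).Nonempty := ⟨w, hw, huw⟩
    have hc : Z \ κ ⊆ comp J.Adj (Z \ κ) u ∪ (Z \ κ) \ comp J.Adj (Z \ κ) u := fun x hx =>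
      (em _).imp id fun h => ⟨hx, h⟩
    by_cases h : p ∈ comp J.Adj (Z \ κ) u ∨ q ∈ comp J.Adj (Z \ κ) u
    · refine main _ _ ⟨u, mem_comp hu⟩ hw' comp_sub sdiff_subset hc disjoint_sdiff_right hn
        (fun hp => ?_) fun hq => ?_
      · rcases hpq with rfl | e
        exacts [h.elim hp.2 hp.2, hn q (h.resolve_left hp.2) p hp e.symm]
      · rcases hpq with rfl | e
        exacts [h.elim hq.2 hq.2, hn p (h.resolve_right hq.2) q hq e]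
    · exact main _ _ hw' ⟨u, mem_comp hu⟩ sdiff_subset comp_sub
        (fun x hx => (hc hx).symm) disjoint_sdiff_left
        (fun a ha b hb e => hn b hb a ha e.symm) (fun e => h (.inl e)) fun e => h (.inr e)
  obtain ⟨χ, -, -, c1, c2⟩ := key _ univ rfl (Classical.arbitrary V) _ (.inl rfl) fun _ => true
  refine ⟨{x | χ x = true}, fun S h => ?_, fun S h => ?_⟩
  · obtain ⟨a, ha, b, hb, hab⟩ := c1 S (subset_univ _) h
    refine ⟨fun e => hab ((e ha).trans (e hb).symm), fun e => hab ?_⟩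
    rw [Bool.eq_false_iff.2 (e ha), Bool.eq_false_iff.2 (e hb)]
  · obtain ⟨a, ha, b, hb, h1, h2, e⟩ := c2 S (subset_univ _) h
    exact ⟨a, ha, b, hb, Bool.eq_false_iff.1 h1, Bool.eq_false_iff.1 h2, e⟩

end Pool.Agent.MP_1c0fc2_co.RE
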