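import Pool.Agent.MP_1c0fc2_co.RE.Basic

/-! Stiff sets lie in one node. -/

open Function Set Relation

namespace Pool.Agent.MP_1c0fc2_co.RE

section
variable {U V W : Type} {A : SimpleGraph U} {G R J : SimpleGraph V} {H : SimpleGraph W}
  {Ls : Set (Set V)} {Bs : Set (Bag U V)} {g : ℕ} {S ν : Set V}

/-- two neighbours in a node of a small connected set outside the node -/
theorem xes_two [Finite V] (hP : Pre A G R Ls Bs g) (hJ : J ≤ G) (hS : S.ncard ≤ g)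
    (hν : ν ∈ Nodes Ls Bs) {C : Set V} (hC : C ⊆ S \ ν) (hc : ConnOn J.Adj C) {u v : V}
    (hu : u ∈ ν) (hv : v ∈ ν) (huv : u ≠ v) (hu' : ∃ d ∈ C, J.Adj u d) (hv' : ∃ d ∈ C, J.Adj v d) :
    G.Adj u v ∧ (∀ w ∈ ν, (∃ d ∈ C, J.Adj w d) → w = u ∨ w = v) ∧
      ∃ ν' ∈ Nodes Ls Bs, u ∈ ν' ∧ v ∈ ν' ∧ (ν' ∩ C).Nonempty := by
  have at' : ∀ w ∈ ν, (∃ d ∈ C, J.Adj w d) → w ∈ At (Nodes Ls Bs) ν C :=
    fun w hw ⟨d, hd, e⟩ => ⟨hw, d, hd, hP.tog (hJ e)⟩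
  obtain ⟨h1, h2, h3⟩ := (hP.thin ν hν).two (C := C)
    ((ncard_le_ncard (fun x hx => (hC hx).1) (toFinite _)).trans hS)
    (disjoint_left.2 fun x hx => (hC hx).2) (hc.mono fun _ _ _ _ e => hP.tog (hJ e))
    (at' u hu hu') (at' v hv hv') huv
  exact ⟨h1, fun w hw hw' => h2 (at' w hw hw'), h3⟩

theorem xes_torso [Finite V] (hP : Pre A G R Ls Bs g) (hJ : J ≤ G) (hS : S.ncard ≤ g)
    (hν : ν ∈ Nodes Ls Bs) {f : V → W} (hf : IHo G H f (S ∩ ν)) (h3 : 3 ≤ (S ∩ ν).ncard)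
    (hn : ¬ S ⊆ ν) : Torso H J S (S ∩ ν) := by
  refine ⟨inter_subset_left, fun e => hn (e ▸ inter_subset_right), h3, f,
    ⟨hf.1, fun x hx y hy e => hf.2 x hx y hy (hJ e)⟩, fun C hC hc => ?_⟩
  by_cases hs : (Nb J (S ∩ ν) C).Subsingleton
  · exact .inl (hs.image f)
  obtain ⟨u, hu, v, hv, huv⟩ := not_subsingleton_iff.1 hs
  obtain ⟨h1, h2, -⟩ := xes_two hP hJ hS hν (C := C)
    (fun x hx => ⟨(hC hx).1, fun h => (hC hx).2 ⟨(hC hx).1, h⟩⟩) hc hu.1.2 hv.1.2 huv hu.2 hv.2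
  refine Cq.sub (.inr ⟨f u, f v, hf.2 u hu.1 v hv.1 h1, rfl⟩) ?_
  rintro _ ⟨w, hw, rfl⟩
  rcases h2 w hw.1.2 hw.2 with rfl | rfl
  exacts [.inl rfl, .inr rfl]

theorem xes_bagmap (hA : In A H) (hP : Pre A G R Ls Bs g) {β : Bag U V} (hβ : β ∈ Bs)
    {T : Set V} (hT : T ⊆ range β.f) (hn : T.Nonempty) : ∃ f : V → W, IHo G H f T := by
  obtain ⟨k, hk⟩ := hA
  obtain ⟨p, h1, -, -⟩ := exists_pull' (J := A) (J' := G) (hP.ind β hβ).inj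
    (fun x y e => ((hP.ind β hβ).adj x y).1 e) hT hn
  exact ⟨_, h1.comp (hk.on _)⟩

theorem xes_three [Finite V] {T : Set V} {u v z : V} (hu : u ∈ T) (hv : v ∈ T) (hz : z ∈ T)
    (h1 : u ≠ v) (h2 : u ≠ z) (h3 : v ≠ z) : 3 ≤ T.ncard := by
  have : ({u, v, z} : Set V).ncard = 3 := ncard_eq_three.2 ⟨u, v, z, h1, h2, h3, rfl⟩
  rw [← this]
  refine ncard_le_ncard ?_ (toFinite _)
  rintro x (rfl | rfl | rfl) <;> assumption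

theorem xes_next [Finite V] (hP : Pre A G R Ls Bs g) (hJ : J ≤ G) (hS : S.ncard ≤ g)
    (hν : ν ∈ Nodes Ls Bs) (h2 : TwoConn J S) (hs : ¬ (S ∩ ν).Subsingleton) (hn : ¬ S ⊆ ν) :
    ∃ u ∈ S ∩ ν, ∃ v ∈ S ∩ ν, u ≠ v ∧ ∃ ν' ∈ Nodes Ls Bs, u ∈ ν' ∧ v ∈ ν' ∧
      ∃ z ∈ S ∩ ν', z ∉ ν := by
  obtain ⟨c, hc, hc'⟩ := not_subset.1 hn
  obtain ⟨u, hu, v, hv, huv, h3, h4⟩ := h2.two_nb hs ⟨hc, hc'⟩
  obtain ⟨-, -, ν', h5, h6, h7, z, h8, h9⟩ := xes_two hP hJ hS hν comp_sub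
    (comp_conn (adj_symm' J)) hu.2 hv.2 huv h3 h4
  exact ⟨u, hu, v, hv, huv, ν', h5, h6, h7, z, ⟨(comp_sub h9).1, h8⟩, (comp_sub h9).2⟩

theorem xes_bag [Finite V] (hA : In A H) (hP : Pre A G R Ls Bs g) (hJ : J ≤ G) (hS : S.ncard ≤ g)
    {β : Bag U V} (hβ : β ∈ Bs) (h3 : 3 ≤ (S ∩ range β.f).ncard)
    (ht : ¬ Torso H J S (S ∩ range β.f)) : S ⊆ range β.f := by
  by_contra hn
  obtain ⟨f, hf⟩ := xes_bagmap hA hP hβ (T := S ∩ range β.f) inter_subset_right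
    (nonempty_of_ncard_ne_zero (by omega))
  exact ht (xes_torso hP hJ hS (.inr ⟨β, hβ, rfl⟩) hf h3 hn)

/-- the trace of a 2-connected set on a node -/
theorem xes_trace [Finite V] (hP : Pre A G R Ls Bs g) (hJ : J ≤ G) (hS : S.ncard ≤ g)
    (hν : ν ∈ Nodes Ls Bs) (h2 : TwoConn J S) (h3 : 3 ≤ (S ∩ ν).ncard) : TwoConn G (S ∩ ν) := by
  refine ⟨h3, fun v => ?_⟩
  have e : (S ∩ ν) \ {v} = (S \ {v}) ∩ ν := by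
    ext x
    simp only [mem_sdiff, mem_inter_iff]
    tauto
  rw [e]
  refine (h2.2 v).trace (adj_symm' J) ν (fun x _ y _ _ e => hJ e) fun D hD hd x hx y hy hxy h4 h5 =>
    (xes_two hP hJ hS hν (fun d h => ⟨(hD h).1.1, (hD h).2⟩) hd hx.2 hy.2 hxy h4 h5).1

end

theorem esnode_stmt : ESNodeStmt := by
  intro W U V _ _ _ H A G R Ls Bs g hA hP J hJ S hS
  have nss : ∀ {T : Set V} {u v : V}, u ∈ T → v ∈ T → u ≠ v → ¬ T.Subsingleton :=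
    fun hu hv huv h => huv (h hu hv)
  refine ⟨fun hE => ?_, fun a b hR => ?_⟩
  · by_contra hn
    have hn' : ∀ ν ∈ Nodes Ls Bs, ¬ S ⊆ ν := by
      rintro ν (h | ⟨β, hβ, rfl⟩) hs
      exacts [hn (.inl ⟨ν, h, hs⟩), hn (.inr ⟨β, hβ, hs⟩)]
    have step : ∀ ν ∈ Nodes Ls Bs, ¬ (S ∩ ν).Subsingleton → ∃ L ∈ Ls, ¬ (S ∩ L).Subsingleton ∧
        (ν ∩ L).Nonempty ∧ ν ≠ L := by
      intro ν hν hs
      obtain ⟨u, hu, v, hv, huv, ν', h1, h2, h3, z, hz, hz'⟩ :=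
        xes_next hP hJ hS hν hE.1 hs (hn' ν hν)
      rcases h1 with h1 | ⟨β, hβ, rfl⟩
      · exact ⟨ν', h1, nss ⟨hu.1, h2⟩ ⟨hv.1, h3⟩ huv, ⟨u, hu.2, h2⟩, fun e => hz' (e ▸ hz.2)⟩
      · exact absurd (xes_bag hA hP hJ hS hβ (xes_three ⟨hu.1, h2⟩ ⟨hv.1, h3⟩ hz huv
          (fun e => hz' (e ▸ hu.2)) fun e => hz' (e ▸ hv.2)) (hE.2 _)) (hn' _ (.inr ⟨β, hβ, rfl⟩))
    obtain ⟨x, hx, y, hy, e⟩ := hE.1.edge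
    obtain ⟨ν, hν, h1, h2⟩ := hP.tog (hJ e)
    obtain ⟨L, hL, h3, -⟩ := step ν hν (nss ⟨hx, h1⟩ ⟨hy, h2⟩ e.ne)
    obtain ⟨L', hL', -, ⟨w, h4, h5⟩, h6⟩ := step L (.inl hL) h3
    exact h6 (hP.eq_of_mem hL hL' h4 h5)
  · obtain ⟨ha, hb, hab, h2, ht⟩ := hR
    obtain ⟨ν, hν, h3, h4, h5⟩ : ∃ ν ∈ Nodes Ls Bs, a ∈ ν ∧ b ∈ ν ∧ 3 ≤ (S ∩ ν).ncard := by
      obtain ⟨ν, hν, h3, h4⟩ := hP.tog (hJ hab)
      by_cases h5 : ∃ z ∈ S ∩ ν, z ≠ a ∧ z ≠ b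
      · obtain ⟨z, hz, h6, h7⟩ := h5
        exact ⟨ν, hν, h3, h4, xes_three ⟨ha, h3⟩ ⟨hb, h4⟩ hz hab.ne h6.symm h7.symm⟩
      have h6 : ∀ z ∈ S ∩ ν, z = a ∨ z = b := fun z hz => by
        by_contra h
        exact h5 ⟨z, hz, fun e => h (.inl e), fun e => h (.inr e)⟩
      obtain ⟨c, hc, h7, h8⟩ := h2.exists_ne a b
      obtain ⟨u, hu, v, hv, huv, ν', h9, h10, h11, z, hz, hz'⟩ :=
        xes_next hP hJ hS hν h2 (nss ⟨ha, h3⟩ ⟨hb, h4⟩ hab.ne)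
          fun hs => h5 ⟨c, ⟨hc, hs hc⟩, h7, h8⟩
      have h12 : a ∈ ν' ∧ b ∈ ν' := by
        rcases h6 u hu with rfl | rfl <;> rcases h6 v hv with rfl | rfl
        exacts [absurd rfl huv, ⟨h10, h11⟩, ⟨h11, h10⟩, absurd rfl huv]
      exact ⟨ν', h9, h12.1, h12.2, xes_three ⟨ha, h12.1⟩ ⟨hb, h12.2⟩ hz hab.ne
        (fun e => hz' (e ▸ h3)) fun e => hz' (e ▸ h4)⟩
    rcases hν with hL | ⟨β, hβ, rfl⟩
    · refine .inr ⟨ν, hL, h3, h4, xes_trace hP hJ hS (.inl hL) h2 h5, fun h hh => ?_⟩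
      by_contra hn
      exact ht (S ∩ ν) ⟨ha, h3⟩ ⟨hb, h4⟩ (xes_torso hP hJ hS (.inl hL) hh h5 hn)
    · exact .inl ⟨β, hβ, xes_bag hA hP hJ hS hβ h5 (ht _ ⟨ha, h3⟩ ⟨hb, h4⟩)⟩

end Pool.Agent.MP_1c0fc2_co.RE
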