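import Pool.Agent.MP_1c0fc2_co.RE.Basic

/-! The edge bound when all stiff sets are triangles. -/

open Function Set Relation

namespace Pool.Agent.MP_1c0fc2_co.RE

variable {W : Type} [Finite W] {J : SimpleGraph W}

theorem xedge_sq (S : Set W) : ec J S + S.ncard ≤ S.ncard * S.ncard := by
  have h1 : ((fun x => (x, x)) '' S).ncard = S.ncard :=
    ncard_image_of_injective _ fun _ _ e => congrArg Prod.fst e
  rw [← ncard_prod, ec]
  nth_rewrite 1 [← h1]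
  rw [← ncard_union_eq]
  · refine ncard_le_ncard ?_ (toFinite _)
    rintro _ (h | ⟨x, hx, rfl⟩)
    exacts [⟨h.1, h.2.1⟩, ⟨hx, hx⟩]
  · rw [disjoint_right]
    rintro _ ⟨x, -, rfl⟩ h
    exact h.2.2.ne rfl

theorem xedge_split {S S1 S2 : Set W}
    (h : ∀ x ∈ S, ∀ y ∈ S, J.Adj x y → (x ∈ S1 ∧ y ∈ S1) ∨ (x ∈ S2 ∧ y ∈ S2)) :
    ec J S ≤ ec J S1 + ec J S2 := by
  refine le_trans (ncard_le_ncard ?_ (toFinite _)) (ncard_union_le _ _)
  rintro ⟨x, y⟩ ⟨hx, hy, e⟩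
  exact (h x hx y hy e).imp (fun h => ⟨h.1, h.2, e⟩) fun h => ⟨h.1, h.2, e⟩

/-- real edges and unused virtual edges -/
def xedge_F (J : SimpleGraph W) (S' : Set W) (Q : W → W → Prop) (p : W → Set W) (X : Set W) :
    Set (W × W) :=
  {q | (q.1 ∈ S' ∪ X ∧ q.2 ∈ S' ∪ X ∧ J.Adj q.1 q.2) ∨
    (q.1 ∈ S' ∧ q.2 ∈ S' ∧ Q q.1 q.2 ∧ ∀ z ∈ X, p z ≠ {q.1, q.2})}

theorem xedge_groups {S' Z : Set W} {Q : W → W → Prop} {p : W → Set W}
    (hp : ∀ z ∈ Z, ∃ a ∈ S', ∃ b ∈ S', a ≠ b ∧ Q a b ∧ Q b a ∧ p z = {a, b})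
    (h1 : ∀ z ∈ Z, ∀ y ∈ S', J.Adj z y → y ∈ p z) (h2 : ∀ z ∈ Z, ∀ y ∈ Z, J.Adj z y → p y = p z)
    (hG : ∀ G ⊆ Z, ∀ a ∈ S', ∀ b ∈ S', a ≠ b → ec J (G ∪ {a, b}) ≤ 4 * G.ncard + 2) (n : ℕ) :
    ∀ X ⊆ Z, X.ncard = n →
      (xedge_F J S' Q p X).ncard ≤ (xedge_F J S' Q p ∅).ncard + 4 * X.ncard := by
  induction n using Nat.strong_induction_on with
  | _ n ih =>
  intro X hX hn
  rcases X.eq_empty_or_nonempty with rfl | ⟨z, hz⟩
  · exact Nat.le_add_right _ _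
  obtain ⟨a, ha, b, hb, hab, q1, q2, hpz⟩ := hp z (hX hz)
  obtain ⟨G, hGd⟩ : ∃ G : Set W, ∀ x, x ∈ G ↔ x ∈ X ∧ p x = {a, b} := ⟨_, fun _ => Iff.rfl⟩
  have hGX : G ⊆ X := fun x hx => ((hGd x).1 hx).1
  have c1 : (X \ G).ncard + G.ncard = X.ncard := ncard_sdiff_add_ncard_of_subset hGX
  have c2 : 0 < G.ncard := (ncard_pos (toFinite _)).2 ⟨z, (hGd z).2 ⟨hz, hpz⟩⟩
  have c3 := ih (X \ G).ncard (by omega) (X \ G) (sdiff_subset.trans hX) rfl
  have c4 := hG G (hGX.trans hX) a ha b hb hab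
  have s1 : ({(a, b), (b, a)} : Set (W × W)) ⊆ xedge_F J S' Q p (X \ G) := by
    rintro _ (rfl | rfl)
    · exact .inr ⟨ha, hb, q1, fun x hx e => hx.2 ((hGd x).2 ⟨hx.1, e⟩)⟩
    · exact .inr ⟨hb, ha, q2, fun x hx e => hx.2 ((hGd x).2 ⟨hx.1, e.trans (pair_comm _ _)⟩)⟩
  have c5 := ncard_sdiff_add_ncard_of_subset s1
  rw [ncard_pair fun e => hab (congrArg Prod.fst e)] at c5
  have k : ∀ x ∈ G, ∀ y ∈ S' ∪ X, J.Adj x y → y ∈ G ∪ {a, b} := by
    rintro x hx y (hy | hy) e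
    · exact .inr (((hGd x).1 hx).2 ▸ h1 x (hX (hGX hx)) y hy e)
    · exact .inl ((hGd y).2 ⟨hy, (h2 x (hX (hGX hx)) y (hX hy) e).trans ((hGd x).1 hx).2⟩)
  have s2 : xedge_F J S' Q p X ⊆ (xedge_F J S' Q p (X \ G) \ {(a, b), (b, a)}) ∪
      {q : W × W | q.1 ∈ G ∪ {a, b} ∧ q.2 ∈ G ∪ {a, b} ∧ J.Adj q.1 q.2} := by
    rintro ⟨x, y⟩ (⟨hx, hy, e⟩ | ⟨hx, hy, e, hz'⟩)
    · by_cases g1 : x ∈ G
      · exact .inr ⟨.inl g1, k x g1 y hy e, e⟩
      by_cases g2 : y ∈ G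
      · exact .inr ⟨k y g2 x hx e.symm, .inl g2, e⟩
      by_cases g3 : (x, y) ∈ ({(a, b), (b, a)} : Set (W × W))
      · rcases g3 with g3 | g3 <;> obtain ⟨rfl, rfl⟩ := Prod.ext_iff.1 g3
        · exact .inr ⟨.inr (.inl rfl), .inr (.inr rfl), e⟩
        · exact .inr ⟨.inr (.inr rfl), .inr (.inl rfl), e⟩
      · exact .inl ⟨.inl ⟨hx.imp_right fun h => ⟨h, g1⟩, hy.imp_right fun h => ⟨h, g2⟩, e⟩, g3⟩
    · refine .inl ⟨.inr ⟨hx, hy, e, fun w hw => hz' w hw.1⟩, ?_⟩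
      rintro (g3 | g3) <;> obtain ⟨rfl, rfl⟩ := Prod.ext_iff.1 g3
      · exact hz' z hz hpz
      · exact hz' z hz (hpz.trans (pair_comm _ _))
  have c6 := (ncard_le_ncard s2 (toFinite _)).trans (ncard_union_le _ _)
  change _ ≤ _ + ec J (G ∪ {a, b}) at c6
  omega

theorem xedge_torso {S S' : Set W} (hS : TwoConn J S) (ht : Torso J J S S')
    (ih : ∀ T : Set W, T.ncard < S.ncard → 2 ≤ T.ncard → ec J T + 6 ≤ 4 * T.ncard) :
    ec J S + 6 ≤ 4 * S.ncard := by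
  obtain ⟨t1, t2, t3, f, t4, t5⟩ := ht
  have lt : S'.ncard < S.ncard := ncard_lt_ncard (ssubset_iff_subset_ne.2 ⟨t1, t2⟩) (toFinite _)
  have ns : ¬ (S ∩ S').Subsingleton := fun h => by
    rw [inter_eq_right.2 t1] at h
    have := ncard_le_one_iff_subsingleton.2 h
    omega
  have key := xedge_groups (J := J) (S' := S') (Z := S \ S') (Q := fun x y => J.Adj (f x) (f y))
    (p := fun z => Nb J S' (comp J.Adj (S \ S') z)) (fun z hz => ?_)
    (fun z hz y hy e => ⟨hy, z, mem_comp hz, e.symm⟩)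
    (fun z hz y hy e => by rw [comp_eq (adj_symm' J) (comp_closed (mem_comp hz) hy e)])
    (fun G hG a ha b hb hab => ?_) _ _ subset_rfl rfl
  · have c1 : ec J S ≤ (xedge_F J S' (fun x y => J.Adj (f x) (f y))
        (fun z => Nb J S' (comp J.Adj (S \ S') z)) (S \ S')).ncard := by
      refine ncard_le_ncard ?_ (toFinite _)
      rintro ⟨x, y⟩ ⟨hx, hy, e⟩
      refine .inl ⟨?_, ?_, e⟩ <;> rwa [union_sdiff_cancel t1]
    have c2 : (xedge_F J S' (fun x y => J.Adj (f x) (f y))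
        (fun z => Nb J S' (comp J.Adj (S \ S') z)) ∅).ncard ≤ ec J (f '' S') := by
      have m : ∀ q ∈ xedge_F J S' (fun x y => J.Adj (f x) (f y))
          (fun z => Nb J S' (comp J.Adj (S \ S') z)) ∅,
          q.1 ∈ S' ∧ q.2 ∈ S' ∧ J.Adj (f q.1) (f q.2) := by
        rintro ⟨x, y⟩ (⟨hx, hy, e⟩ | ⟨hx, hy, e, -⟩)
        · rw [union_empty] at hx hy
          exact ⟨hx, hy, t4.2 _ hx _ hy e⟩
        · exact ⟨hx, hy, e⟩
      refine ncard_le_ncard_of_injOn (fun q => (f q.1, f q.2)) (fun q hq => ?_)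
        (fun q hq q' hq' e => ?_) (toFinite _)
      · exact ⟨mem_image_of_mem f (m q hq).1, mem_image_of_mem f (m q hq).2.1, (m q hq).2.2⟩
      · exact Prod.ext (t4.1 (m q hq).1 (m q' hq').1 (congrArg Prod.fst e))
          (t4.1 (m q hq).2.1 (m q' hq').2.1 (congrArg Prod.snd e))
    have c3 := ih (f '' S') (by rw [t4.ncard]; exact lt) (by rw [t4.ncard]; omega)
    rw [t4.ncard] at c3
    have c4 : (S \ S').ncard + S'.ncard = S.ncard := ncard_sdiff_add_ncard_of_subset t1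
    omega
  · obtain ⟨u, hu, v, hv, huv, u1, v1⟩ := hS.two_nb ns hz
    have q := t5 _ comp_sub (comp_conn (C := S \ S') (a := z) (adj_symm' J))
    have u2 : u ∈ Nb J S' (comp J.Adj (S \ S') z) := ⟨hu.2, u1⟩
    have v2 : v ∈ Nb J S' (comp J.Adj (S \ S') z) := ⟨hv.2, v1⟩
    have ne : f u ≠ f v := fun e => huv (t4.1 hu.2 hv.2 e)
    have a1 := q.adj (mem_image_of_mem f u2) (mem_image_of_mem f v2) ne
    refine ⟨u, hu.2, v, hv.2, huv, a1, a1.symm, Subset.antisymm (fun c hc => ?_)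
      (pair_subset u2 v2)⟩
    rcases q.three (mem_image_of_mem f u2) (mem_image_of_mem f v2) (mem_image_of_mem f hc) with
      e | e | e
    exacts [absurd e ne, .inl (t4.1 hu.2 hc.1 e).symm, .inr (t4.1 hv.2 hc.1 e).symm]
  · have c1 : (G ∪ {a, b}).ncard = G.ncard + 2 := by
      rw [ncard_union_eq, ncard_pair hab]
      rw [disjoint_right]
      rintro x (rfl | rfl) h
      exacts [(hG h).2 ha, (hG h).2 hb]
    have c2 := ncard_le_ncard hG (toFinite _)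
    have c4 : (S \ S').ncard + S'.ncard = S.ncard := ncard_sdiff_add_ncard_of_subset t1
    have := ih (G ∪ {a, b}) (by omega) (by omega)
    omega

theorem xedge_cut {S : Set W} {v : W} (hv : ¬ ConnOn J.Adj (S \ {v}))
    (ih : ∀ T : Set W, T.ncard < S.ncard → 2 ≤ T.ncard → ec J T + 6 ≤ 4 * T.ncard) :
    ec J S + 6 ≤ 4 * S.ncard := by
  obtain ⟨a, ha, b, hb, hab⟩ := not_connOn hv
  obtain ⟨D, hD, aD, bD, cl⟩ : ∃ D : Set W, D ⊆ S \ {v} ∧ a ∈ D ∧ b ∉ D ∧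
      ∀ x ∈ D, ∀ y ∈ S \ {v}, J.Adj x y → y ∈ D :=
    ⟨_, comp_sub, mem_comp ha, hab, fun _ hx _ hy e => comp_closed hx hy e⟩
  have hDS : D ⊆ S := hD.trans sdiff_subset
  have c1 : (S \ D).ncard + D.ncard = S.ncard := ncard_sdiff_add_ncard_of_subset hDS
  have c2 : 0 < D.ncard := (ncard_pos (toFinite _)).2 ⟨a, aD⟩
  have ih' : ∀ T : Set W, T.ncard < S.ncard → 0 < T.ncard → ec J T + 4 ≤ 4 * T.ncard := by
    intro T h1 h2
    by_cases h : 2 ≤ T.ncard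
    · have := ih T h1 h
      omega
    · have := xedge_sq (J := J) T
      rw [show T.ncard = 1 by omega] at this ⊢
      omega
  by_cases hvS : v ∈ S
  · have vD : v ∉ D := fun h => (hD h).2 rfl
    have c3 : (insert v D).ncard = D.ncard + 1 := ncard_insert_of_notMem vD
    have c4 : 2 ≤ (S \ D).ncard := by
      rw [← ncard_pair (show b ≠ v from hb.2)]
      exact ncard_le_ncard (pair_subset ⟨hb.1, bD⟩ ⟨hvS, vD⟩) (toFinite _)
    have c5 : ec J S ≤ ec J (insert v D) + ec J (S \ D) := xedge_split fun x hx y hy e => by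
      by_cases h1 : x ∈ D
      · refine .inl ⟨.inr h1, ?_⟩
        by_cases h2 : y = v
        exacts [.inl h2, .inr (cl x h1 y ⟨hy, h2⟩ e)]
      by_cases h2 : y ∈ D
      · refine .inl ⟨?_, .inr h2⟩
        by_cases h3 : x = v
        exacts [.inl h3, .inr (cl y h2 x ⟨hx, h3⟩ e.symm)]
      · exact .inr ⟨⟨hx, h1⟩, hy, h2⟩
    have := ih (insert v D) (by omega) (by omega)
    have := ih (S \ D) (by omega) c4
    omega
  · have c4 : 0 < (S \ D).ncard := (ncard_pos (toFinite _)).2 ⟨b, hb.1, bD⟩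
    have c5 : ec J S ≤ ec J D + ec J (S \ D) := xedge_split fun x hx y hy e => by
      by_cases h1 : x ∈ D
      · exact .inl ⟨h1, cl x h1 y ⟨hy, fun h => hvS (h ▸ hy)⟩ e⟩
      · exact .inr ⟨⟨hx, h1⟩, hy, fun h2 => h1 (cl y h2 x ⟨hx, fun h => hvS (h ▸ hx)⟩ e.symm)⟩
    have := ih' D (by omega) c2
    have := ih' (S \ D) (by omega) c4
    omega

theorem edge_stmt : EdgeStmt := by
  intro W _ H P hP h3 S
  obtain ⟨n, hn⟩ : ∃ n, S.ncard = n := ⟨_, rfl⟩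
  induction n using Nat.strong_induction_on generalizing S with
  | _ n ih =>
  intro h2
  have ih' : ∀ T : Set W, T.ncard < S.ncard → 2 ≤ T.ncard → ec H T + 6 ≤ 4 * T.ncard :=
    fun T h => ih _ (hn ▸ h) T rfl
  by_cases h4 : S.ncard ≤ 3
  · have := xedge_sq (J := H) S
    rcases (show S.ncard = 2 ∨ S.ncard = 3 by omega) with e | e <;> rw [e] at this ⊢ <;> omega
  by_cases hc : ∀ v, ConnOn H.Adj (S \ {v})
  · have hS : TwoConn H S := ⟨by omega, hc⟩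
    by_cases ht : ∃ S', Torso H H S S'
    · obtain ⟨S', ht⟩ := ht
      exact xedge_torso hS ht ih'
    · have := hP.maxT S ⟨hS, fun S' h => ht ⟨S', h⟩⟩
      omega
  · obtain ⟨v, hv⟩ := not_forall.1 hc
    exact xedge_cut hv ih'

end Pool.Agent.MP_1c0fc2_co.RE
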