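import Pool.Agent.MP_1c0fc2_co.RE.Basic

/-! The engine: alternate protection steps, then close. -/

open Function Set Relation

namespace Pool.Agent.MP_1c0fc2_co.RE

theorem xeng_base {U X : Type} (A : SimpleGraph U) (E : EP U) (Γ RΓ : SimpleGraph X) (Hub : Set X)
    (g : ℕ) (h : RΓ ≤ Γ) (hr : RamOn A Γ RΓ (offG Γ Hub)) :
    Lev A E Γ RΓ Hub Γ RΓ (offG Γ Hub) {id} ∅ g := by
  have e : range '' ({id} : Set (X → X)) = {univ} := by simp
  refine ⟨⟨⟨h, fun _ h => h.elim, fun _ h => h.elim, fun _ h => h.elim, fun x y _ => ?_, ?_,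
    fun _ _ _ h => h.elim, fun _ h => h.elim, fun _ h => h.elim, ?_⟩, ?_, ?_, ?_,
    fun _ _ _ h => h.elim⟩, fun _ h => h.elim, fun _ _ h => h.1, hr, ?_⟩
  · exact .inl ⟨univ, e ▸ rfl, trivial, trivial⟩
  · rintro ν (hν | ⟨_, h, -⟩) C - hd -
    · rw [e] at hν
      obtain rfl : ν = univ := hν
      exact .inl (eq_empty_of_forall_notMem fun w ⟨_, c, hc, _⟩ => disjoint_left.1 hd hc trivial)
    · exact h.elim
  · rw [e]
    rintro _ rfl _ rfl h
    exact absurd rfl h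
  · rintro _ rfl
    exact ⟨fun _ _ _ _ h => h, fun _ _ _ _ => .rfl⟩
  · rintro _ rfl _ _
    exact .rfl
  · rintro _ rfl _ rfl h
    exact absurd rfl h
  · rintro _ rfl x hx y h
    exact h.2.1 hx

theorem engine_stmt (hProt : ProtStmt) (hClose : CloseStmt) : EngineStmt := by
  intro U X _ _ A E Γ RΓ Hub g hE hle hr
  have far0 : ∀ (V : Type) [Finite V] (D : SimpleGraph V) (Gs : Set (X → V))
      (Bs : Set (Bag U V)), FarD D Gs Bs 0 := by
    rintro V _ D Gs Bs u v - C hC - ⟨c, hc, -⟩ -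
    obtain rfl : C = ∅ := (ncard_eq_zero (toFinite C)).1 (Nat.le_zero.1 hC)
    exact hc.elim
  have key : ∀ k, k ≤ g + 1 → ∀ c, ∃ (V : Type) (_ : Finite V) (G R D : SimpleGraph V)
      (Gs : Set (X → V)) (Bs : Set (Bag U V)), Lev A E Γ RΓ Hub G R D Gs Bs (g + 2) ∧
      D ≤ cc G R c ∧ FarD D Gs Bs k := by
    intro k
    induction k with
    | zero =>
      intro _ c
      obtain ⟨V, _, G, R, D, Gs, Bs, h1, h2, -⟩ := hProt U X X A E Γ RΓ Hub Γ RΓ _ _ _ (g + 2) 0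
        (!c) hE (by omega) (xeng_base A E Γ RΓ Hub _ hle hr) (far0 _ _ _ _)
      exact ⟨V, ‹_›, G, R, D, Gs, Bs, h1, by rwa [Bool.not_not] at h2, far0 _ _ _ _⟩
    | succ k ih =>
      intro hk c
      obtain ⟨V, _, G, R, D, Gs, Bs, h1, h2, h3⟩ := ih (by omega) (!c)
      obtain ⟨V', _, G', R', D', Gs', Bs', k1, k2, k3⟩ := hProt U X V A E Γ RΓ Hub G R D Gs Bs
        (g + 2) k (!c) hE (by omega) h1 h3
      exact ⟨V', ‹_›, G', R', D', Gs', Bs', k1, by rwa [Bool.not_not] at k2, k3 h2⟩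
  obtain ⟨V, _, G, R, D, Gs, Bs, h1, h2, h3⟩ := key (g + 1) le_rfl false
  exact hClose U X V A E Γ RΓ Hub G R D Gs Bs g hE
    { h1 with core := { h1.core with pre := h1.core.pre.mono (by omega) } } h2 h3

end Pool.Agent.MP_1c0fc2_co.RE
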