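import Pool.Agent.MP_1c0fc2_co.RE.Basic

/-! A bipartite subgraph without back paths that meets every triangle in an edge. -/

open Function Set Relation

namespace Pool.Agent.MP_1c0fc2_co.RE

section
variable {V : Type} {Y F : SimpleGraph V} {v p q : V}

theorem xfp_tri {O : Set V} (h : Tri Y O) (hv : v ∈ O) :
    ∃ p q, Y.Adj v p ∧ Y.Adj p q ∧ O = {v, p, q} := by
  obtain ⟨a, b, c, h1, h2, h3, rfl⟩ := h
  rcases hv with rfl | rfl | rfl
  · exact ⟨b, c, h1, h3, rfl⟩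
  · exact ⟨a, c, h1.symm, h2, insert_comm _ _ _⟩
  · refine ⟨a, b, h2.symm, h1, ?_⟩
    ext x
    simp only [mem_insert_iff, mem_singleton_iff]
    tauto

theorem xfp_adj {x y : V} (h : (F ⊔ SimpleGraph.edge v p).Adj x y) :
    F.Adj x y ∨ (x = v ∧ y = p) ∨ (x = p ∧ y = v) :=
  h.imp_right fun h => ((SimpleGraph.edge_adj v p x y).1 h).1

theorem xfp_rev {e : Sym2 V} {a b : V}
    (h : ReflTransGen (fun x y => F.Adj x y ∧ s(x, y) ≠ e) a b) :
    ReflTransGen (fun x y => F.Adj x y ∧ s(x, y) ≠ e) b a := by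
  induction h with
  | refl => exact .refl
  | tail _ h ih => exact ih.head ⟨h.1.symm, by rw [Sym2.eq_swap]; exact h.2⟩

open Classical in
theorem xfp_route (hv : ∀ y, ¬ F.Adj v y) {e : Sym2 V} {a b : V}
    (h : ReflTransGen (fun x y => (F ⊔ SimpleGraph.edge v p).Adj x y ∧ s(x, y) ≠ e) a b) :
    ReflTransGen (fun x y => F.Adj x y ∧ s(x, y) ≠ e) (if a = v then p else a)
      (if b = v then p else b) := by
  induction h with
  | refl => exact .refl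
  | @tail x y _ h ih =>
    rcases xfp_adj h.1 with h1 | ⟨rfl, rfl⟩ | ⟨rfl, rfl⟩
    · have hx : x ≠ v := fun e => hv y (e ▸ h1)
      have hy : y ≠ v := fun e => hv x (e ▸ h1.symm)
      rw [if_neg hx] at ih
      rw [if_neg hy]
      exact ih.tail ⟨h1, h.2⟩
    · rw [if_pos rfl] at ih
      rw [ite_self]
      exact ih
    · rw [ite_self] at ih
      rw [if_pos rfl]
      exact ih

theorem xfp_leaf (hv : ∀ y, ¬ F.Adj v y) (hF : NoBack Y F) (hpq : Y.Adj p q) (hn : ¬ F.Adj p q)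
    (hb : ∀ b z, Y.Adj v b → F.Adj b z → b = p ∨ b = q) {b : V} (h : Y.Adj v b) :
    ¬ ReflTransGen (fun x y => (F ⊔ SimpleGraph.edge v p).Adj x y ∧ s(x, y) ≠ s(v, b)) v b := by
  intro P
  by_cases hbp : b = p
  · rcases P.cases_head with e | ⟨z, hz, -⟩
    · exact h.ne e
    · rcases xfp_adj hz.1 with h1 | ⟨-, rfl⟩ | ⟨e, -⟩
      · exact hv z h1
      · exact hz.2 (by rw [hbp])
      · exact h.ne (e.trans hbp.symm)
  have Q := xfp_route hv P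
  rw [if_pos rfl, if_neg h.ne'] at Q
  rcases Q.cases_tail with e | ⟨z, -, hz⟩
  · exact hbp e
  obtain rfl : b = q := (hb b z h hz.1.symm).resolve_left hbp
  refine hF p b hpq (rtg_mono (fun x y hxy => ⟨hxy.1, fun e => hn ?_⟩) Q)
  rcases Sym2.eq_iff.1 e with ⟨rfl, rfl⟩ | ⟨rfl, rfl⟩
  exacts [hxy.1, hxy.1.symm]

theorem xfp_noBack (hv : ∀ y, ¬ F.Adj v y) (hF : NoBack Y F) (hpq : Y.Adj p q)
    (hn : ¬ F.Adj p q) (hb : ∀ b z, Y.Adj v b → F.Adj b z → b = p ∨ b = q) :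
    NoBack Y (F ⊔ SimpleGraph.edge v p) := by
  intro a b hab P
  by_cases ha : a = v
  · subst ha
    exact xfp_leaf hv hF hpq hn hb hab P
  by_cases hb' : b = v
  · subst hb'
    rw [Sym2.eq_swap (a := a)] at P
    exact xfp_leaf hv hF hpq hn hb hab.symm (xfp_rev P)
  have Q := xfp_route hv P
  rw [if_neg ha, if_neg hb'] at Q
  exact hF a b hab Q

theorem xfp_bip (hv : ∀ y, ¬ F.Adj v y) (hvp : v ≠ p) (h : Bip F) :
    Bip (F ⊔ SimpleGraph.edge v p) := by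
  classical
  obtain ⟨s, hs⟩ := h
  refine ⟨update s v (!s p), fun x y hxy => ?_⟩
  rcases xfp_adj hxy with h1 | ⟨rfl, rfl⟩ | ⟨rfl, rfl⟩
  · have hx : x ≠ v := fun e => hv y (e ▸ h1)
    have hy : y ≠ v := fun e => hv x (e ▸ h1.symm)
    rw [update_of_ne hx, update_of_ne hy]
    exact hs x y h1
  · rw [update_self, update_of_ne hvp.symm]
    simp
  · rw [update_self, update_of_ne hvp.symm]
    simp

theorem xfp_main [Finite V] (hBr : BrStmt) (hA : Atoms Y (Cq Y) (Tri Y)) (𝒪 : Set (Set V)) :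
    (∀ O ∈ 𝒪, Tri Y O) → ∃ F, F ≤ Y ∧ Bip F ∧ NoBack Y F ∧
      (∀ O ∈ 𝒪, ∃ a ∈ O, ∃ b ∈ O, F.Adj a b) ∧ ∀ x y, F.Adj x y → ∃ O ∈ 𝒪, x ∈ O := by
  induction 𝒪 using WellFoundedLT.induction with
  | ind 𝒪 ih =>
    intro h
    rcases 𝒪.eq_empty_or_nonempty with rfl | hne
    · exact ⟨⊥, bot_le, ⟨fun _ => true, fun _ _ e => e.elim⟩, noBack_bot, fun _ e => e.elim,
        fun _ _ e => e.elim⟩
    obtain ⟨c, -⟩ := h _ hne.some_mem
    obtain ⟨O, hO, τ, Br, hτ, ⟨c1, c2, -, c4⟩, -, hd⟩ := hBr V Y _ _ hA 𝒪 hne h c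
    obtain ⟨F, f1, f2, f3, f4, f5⟩ := ih (𝒪 \ {O}) (sdiff_singleton_ssubset.2 hO)
      fun O' h' => h O' h'.1
    have hout : ∀ x y, F.Adj x y → x ∉ Br := fun x y e hx => by
      obtain ⟨O', h1, h2⟩ := f5 x y e
      exact disjoint_left.1 (hd O' h1.1 h1.2) h2 hx
    have f5' : ∀ x y, F.Adj x y → ∃ O ∈ 𝒪, x ∈ O := fun x y e =>
      let ⟨O', h1, h2⟩ := f5 x y e; ⟨O', h1.1, h2⟩
    obtain ⟨v, hv⟩ := (hA.nsep O τ (h O hO) hτ).2
    obtain ⟨p, q, hvp, hpq, e⟩ := xfp_tri (h O hO) hv.1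
    have hp : p ∈ O := by simp [e]
    have hq : q ∈ O := by simp [e]
    by_cases hn : F.Adj p q
    · refine ⟨F, f1, f2, f3, fun O' h' => ?_, f5'⟩
      by_cases e' : O' = O
      · exact e' ▸ ⟨p, hp, q, hq, hn⟩
      · exact f4 O' ⟨h', e'⟩
    have hv' : ∀ y, ¬ F.Adj v y := fun y e => hout v y e (c2 hv)
    refine ⟨F ⊔ SimpleGraph.edge v p, sup_le f1 ((SimpleGraph.edge_le_iff Y).2 (.inr hvp)),
      xfp_bip hv' hvp.ne f2, xfp_noBack hv' f3 hpq hn fun b z h1 h2 => ?_, fun O' h' => ?_,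
      fun x y hxy => ?_⟩
    · have := c1 ((c4 v (c2 hv) b h1).resolve_left (hout b z h2))
      rw [e] at this
      exact this.resolve_left h1.ne'
    · by_cases e' : O' = O
      · exact e' ▸ ⟨v, hv.1, p, hp, .inr ((SimpleGraph.edge_adj v p v p).2
          ⟨.inl ⟨rfl, rfl⟩, hvp.ne⟩)⟩
      · obtain ⟨a, ha, b, hb, e⟩ := f4 O' ⟨h', e'⟩
        exact ⟨a, ha, b, hb, .inl e⟩
    · rcases xfp_adj hxy with h1 | ⟨rfl, -⟩ | ⟨rfl, -⟩
      exacts [f5' x y h1, ⟨O, hO, hv.1⟩, ⟨O, hO, hp⟩]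

end

theorem fp_stmt (hBr : BrStmt) : FPStmt := by
  intro V _ Y hA
  obtain ⟨F, f1, f2, f3, f4, -⟩ := xfp_main hBr hA {O | Tri Y O} fun _ h => h
  exact ⟨F, f1, f2, f3, f4⟩

end Pool.Agent.MP_1c0fc2_co.RE
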