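import Pool.Agent.MP_1c0fc2_co.RE.Basic

open Function Set Relation

namespace Pool.Agent.MP_1c0fc2_co.RE

theorem leaf_stmt : LeafStmt := by
  intro V _ N Lk g hT Z hZ hcov ν0 hν0
  by_cases h0 : Z ⊆ ν0
  · exact .inl h0
  refine .inr ?_
  have key : ∀ n, ∀ X ∈ N, ∀ a ∈ Z \ X, Disjoint (comp (Tog N) (Z \ X) a) ν0 →
      (comp (Tog N) (Z \ X) a).ncard = n → ∃ μ ∈ N, ∃ ℓ, (ℓ = ∅ ∨ Lk ℓ) ∧ ℓ ⊆ μ ∧
        ((Z ∩ μ) \ ℓ).Nonempty ∧ ∀ s ∈ (Z ∩ μ) \ ℓ, s ∉ ν0 ∧ ∀ z ∈ Z, Tog N s z → z ∈ μ := by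
    intro n
    induction n using Nat.strong_induction_on with | _ n ih
    intro X hX a ha hd hn
    set C := comp (Tog N) (Z \ X) a with hC
    have hCZ : C ⊆ Z \ X := comp_sub
    obtain ⟨μ, hμ, ℓ, l1, l2, l3, l4, c, c1, c2⟩ : ∃ μ ∈ N, ∃ ℓ, (ℓ = ∅ ∨ Lk ℓ) ∧ ℓ ⊆ μ ∧ ℓ ⊆ X ∧
        At N X C ⊆ ℓ ∧ (μ ∩ C).Nonempty := by
      rcases hT X hX C ((ncard_le_ncard (hCZ.trans sdiff_subset)).trans hZ)
        (disjoint_left.2 fun x hx => (hCZ hx).2) (comp_conn (tog_symm N)) with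
        e | ⟨ℓ, l1, l2, l3, μ, hμ, l4, l5⟩
      · obtain ⟨μ, hμ, h⟩ := hcov a ha.1
        exact ⟨μ, hμ, ∅, .inl rfl, empty_subset _, empty_subset _, e.le, a, h, mem_comp ha⟩
      · exact ⟨μ, hμ, ℓ, .inr l1, l4, l3, l2, l5⟩
    have hS : ∀ s ∈ (Z ∩ μ) \ ℓ, s ∈ C := fun s hs => by
      by_cases hsX : s ∈ X
      · exact absurd (l4 ⟨hsX, c, c2, μ, hμ, hs.1.2, c1⟩) hs.2
      · exact comp_closed c2 ⟨hs.1.1, hsX⟩ ⟨μ, hμ, c1, hs.1.2⟩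
    by_cases hall : ∀ s ∈ (Z ∩ μ) \ ℓ, ∀ z ∈ Z, Tog N s z → z ∈ μ
    · exact ⟨μ, hμ, ℓ, l1, l2, ⟨c, ⟨(hCZ c2).1, c1⟩, fun h => (hCZ c2).2 (l3 h)⟩,
        fun s hs => ⟨disjoint_left.1 hd (hS s hs), hall s hs⟩⟩
    push Not at hall
    obtain ⟨s, hs, z, hz, hsz, hzμ⟩ := hall
    have hzC : z ∈ C := by
      by_cases hzX : z ∈ X
      · exact absurd (l2 (l4 ⟨hzX, s, hS s hs, hsz.symm⟩)) hzμ
      · exact comp_closed (hS s hs) ⟨hz, hzX⟩ hsz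
    have hsub : comp (Tog N) (Z \ μ) z ⊆ C := by
      refine (comp_conn (tog_symm N)).sub (mem_comp ⟨hz, hzμ⟩) hzC fun x _ y hy hxC hxy => ?_
      by_cases hyX : y ∈ X
      · exact absurd (l2 (l4 ⟨hyX, x, hxC, hxy.symm⟩)) (comp_sub hy).2
      · exact comp_closed hxC ⟨(comp_sub hy).1, hyX⟩ hxy
    refine ih _ ?_ μ hμ z ⟨hz, hzμ⟩ (hd.mono_left hsub) rfl
    rw [← hn]
    exact ncard_lt_ncard ⟨hsub, fun h => (comp_sub (h c2)).2 c1⟩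
  obtain ⟨a, ha, ha'⟩ := not_subset.1 h0
  exact key _ ν0 hν0 a ⟨ha, ha'⟩ (disjoint_left.2 fun x hx => (comp_sub hx).2) rfl

theorem proj_stmt : ProjStmt := by
  intro V _ N N' Lk n X C hT hc hn hC
  have key : ∀ D, D ⊆ C \ X → ConnOn (Tog N) D → ∀ x ∈ X, ∀ y ∈ X, x ≠ y → (∃ d ∈ D, Tog N x d) →
      (∃ d ∈ D, Tog N y d) → Tog N' x y := by
    rintro D hD hDc x hx y hy hxy ⟨d, hd, hxd⟩ h2
    obtain ⟨ℓ, -, l2, -, ν, hν, l3, -⟩ := hT.link ((ncard_le_ncard hD).trans hn)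
      (disjoint_left.2 fun z hz => (hD hz).2) hDc hx hd hxd
    exact hc x y hxy hx hy ⟨ν, hν, l3 (l2 ⟨hx, d, hd, hxd⟩), l3 (l2 ⟨hy, h2⟩)⟩
  refine ⟨hC.trace (tog_symm N) X (fun x hx y hy e h => hc x y e hx.2 hy.2 h)
    fun D h1 h2 x hx y hy => key D h1 h2 x hx.2 y hy.2, ?_⟩
  rintro w hw hwC ⟨c, hcC, hwc⟩ ⟨b, hb⟩
  by_cases hcX : c ∈ X
  · exact ⟨c, ⟨hcC, hcX⟩, hc w c (fun e => hwC (e ▸ hcC)) hw hcX hwc⟩
  · obtain ⟨x, hx, y, hy, hxy⟩ := hC.comp_nb (Y := X) ⟨hcC, hcX⟩ hb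
    exact ⟨y, hy, key _ comp_sub (comp_conn (tog_symm N)) w hw y hy.2 (fun e => hwC (e ▸ hy.1))
      ⟨c, mem_comp ⟨hcC, hcX⟩, hwc⟩ ⟨x, hx, hxy.symm⟩⟩

/-- the local step: a set that meets the region is handled inside the region -/
theorem xframe_in {V : Type} [Finite V] {N N' : Set (Set V)} {Lk : Set V → Prop} {n g : ℕ}
    {X S Y C : Set V} (hT : Thin N Lk n X) (hN : N' ⊆ N)
    (hc : ∀ x y, x ≠ y → x ∈ X → y ∈ X → Tog N x y → Tog N' x y) (hn : (C \ X).ncard ≤ n)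
    (hg : C.ncard ≤ g) (hC : ConnOn (Tog N) C) (hX : (C ∩ X).Nonempty) (hS : Thin N' Lk g S)
    (hSX : S ⊆ X) (hSY : S ⊆ Y) (hd : Disjoint C Y) (hA : At N Y C ⊆ S) :
    At N Y C = ∅ ∨ ∃ ℓ, Lk ℓ ∧ At N Y C ⊆ ℓ ∧ ℓ ⊆ Y ∧ ∃ ν ∈ N, ℓ ⊆ ν ∧ (ν ∩ C).Nonempty := by
  obtain ⟨h1, h2⟩ := proj_stmt V N N' Lk n X C hT hc hn hC
  have h3 : At N Y C ⊆ At N' S (C ∩ X) := fun w hw =>
    ⟨hA hw, h2 w (hSX (hA hw)) (disjoint_right.1 hd hw.1) hw.2 hX⟩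
  rcases hS (C ∩ X) ((ncard_le_ncard inter_subset_left).trans hg)
    (hd.mono inter_subset_left hSY) h1 with e | ⟨ℓ, l1, l2, l3, ν, hν, l4, c, c1, c2⟩
  · exact .inl (subset_eq_empty h3 e)
  · exact .inr ⟨ℓ, l1, h3.trans l2, l3.trans hSY, ν, hN hν, l4, c, c1, c2.1⟩

theorem local_stmt : LocalStmt := by
  intro V _ N N' Lk g X Y hT hN hc hY hL hI C hg hd hC
  by_cases hX : (C ∩ X).Nonempty
  · exact xframe_in hT hN hc ((ncard_le_ncard sdiff_subset).trans hg) hg hC hX hL hY subset_rfl hd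
      fun w hw => hw.1
  · have h1 : At N Y C ⊆ At N X C := fun w hw => ⟨hY hw.1, hw.2⟩
    rcases hT C hg (disjoint_iff_inter_eq_empty.2 (not_nonempty_iff_eq_empty.1 hX)) hC with
      e | ⟨ℓ, l1, l2, -, ν, hν, l4, l5⟩
    · exact .inl (subset_eq_empty h1 e)
    · have h2 : At N Y C ⊆ ℓ ∩ Y := fun w hw => ⟨l2 (h1 hw), hw.1⟩
      rcases hI ℓ l1 with e | e
      · exact .inl (subset_eq_empty h2 e)
      · exact .inr ⟨_, e, h2, inter_subset_right, ν, hν, inter_subset_left.trans l4, l5⟩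

theorem parts_stmt : PartsStmt := by
  intro V Q _ X loc Lk g hsub hdis p Y hY hT C hg hd hC
  have key : ∀ x y, x ∈ X p → Tog (⋃ q, loc q) x y → Tog (loc p) x y := by
    rintro x y hx ⟨ν, hν, h1, h2⟩
    obtain ⟨q, hq⟩ := mem_iUnion.1 hν
    by_cases e : p = q
    · exact ⟨ν, e ▸ hq, h1, h2⟩
    · exact absurd (hsub q ν hq h1) (disjoint_left.1 (hdis p q e) hx)
  have hin : ∀ x y, Tog (loc p) x y → y ∈ X p := fun x y ⟨ν, hν, _, h⟩ => hsub p ν hν h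
  by_cases h0 : At (⋃ q, loc q) Y C = ∅
  · exact .inl h0
  obtain ⟨w, hw, c, hc, hwc⟩ := nonempty_iff_ne_empty.2 h0
  have hCX : C ⊆ X p := hC.sub hc (hin _ _ (key _ _ (hY hw) hwc))
    fun x _ y _ hx h => hin _ _ (key _ _ hx h)
  obtain ⟨ℓ, l1, l2, l3, ν, hν, l4⟩ := hT.link hg hd (hC.mono fun x hx y _ h => key _ _ (hCX hx) h)
    hw hc (key _ _ (hY hw) hwc)
  exact .inr ⟨ℓ, l1, fun z ⟨hz, d, hd, h⟩ => l2 ⟨hz, d, hd, key _ _ (hY hz) h⟩, l3, ν,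
    mem_iUnion.2 ⟨p, hν⟩, l4⟩

theorem pair_stmt : PairStmt := by
  rintro V _ N G g hT u v C huv ⟨ν, hν, hu, hv⟩ hg hC - - h1 h2
  by_cases h : (ν ∩ C).Nonempty
  · exact ⟨ν, hν, hu, hv, h⟩
  · exact ((hT ν hν).two hg (disjoint_iff_inter_eq_empty.2
      (by rw [inter_comm]; exact not_nonempty_iff_eq_empty.1 h)) hC ⟨hu, h1⟩ ⟨hv, h2⟩ huv).2.2

theorem xframe_tog {V V' : Type} {f : V → V'} (hf : Injective f) {N : Set (Set V)} {x y : V} :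
    Tog (image f '' N) (f x) (f y) ↔ Tog N x y :=
  ⟨fun ⟨_, ⟨ν, hν, rfl⟩, h1, h2⟩ => ⟨ν, hν, (hf.mem_set_image).1 h1, (hf.mem_set_image).1 h2⟩,
    fun ⟨ν, hν, h1, h2⟩ => ⟨_, ⟨ν, hν, rfl⟩, mem_image_of_mem f h1, mem_image_of_mem f h2⟩⟩

theorem xframe_rng {V V' : Type} {f : V → V'} {N : Set (Set V)} {x y : V'}
    (h : Tog (image f '' N) x y) : y ∈ range f := by
  obtain ⟨_, ⟨ν, -, rfl⟩, -, h⟩ := h
  exact image_subset_range _ _ h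

theorem xframe_pull {V V' : Type} {f : V → V'} (hf : Injective f) {N : Set (Set V)} {C : Set V'}
    (hC : ConnOn (Tog (image f '' N)) C) {c : V'} (hc : c ∈ C) (hr : c ∈ range f) :
    ∃ D, C = f '' D ∧ ConnOn (Tog N) D := by
  have h1 : C ⊆ range f := hC.sub hc hr fun _ _ _ _ _ h => xframe_rng h
  obtain ⟨x0, -⟩ := hr
  have : Nonempty V := ⟨x0⟩
  refine ⟨invFun f '' C, ?_, hC.image _ fun x hx y hy h => .inr ?_⟩
  · rw [← image_comp]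
    exact ((image_congr fun z hz => invFun_eq (h1 hz)).trans (image_id' C)).symm
  · rwa [← xframe_tog hf, invFun_eq (h1 hx), invFun_eq (h1 hy)]

theorem map_stmt : MapStmt := by
  intro V V' _ _ f N g hf
  refine ⟨fun Lk Lk' Y hL hT C hg hd hC => ?_, fun X Y u hF C hg hC h1 h2 => ?_⟩
  · by_cases h0 : At (image f '' N) (f '' Y) C = ∅
    · exact .inl h0
    obtain ⟨_, ⟨w, hw, rfl⟩, c, hc, hwc⟩ := nonempty_iff_ne_empty.2 h0
    obtain ⟨D, rfl, hD⟩ := xframe_pull hf hC hc (xframe_rng hwc)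
    obtain ⟨c, hc', rfl⟩ := hc
    obtain ⟨ℓ, l1, l2, l3, ν, hν, l4, d, d1, d2⟩ := hT.link
      (by rwa [ncard_image_of_injective _ hf] at hg) ((disjoint_image_iff hf).1 hd) hD hw hc'
      ((xframe_tog hf).1 hwc)
    refine .inr ⟨f '' ℓ, hL ℓ l1, ?_, image_mono l3, f '' ν, ⟨ν, hν, rfl⟩, image_mono l4, f d,
      mem_image_of_mem f d1, mem_image_of_mem f d2⟩
    rintro _ ⟨⟨z, hz, rfl⟩, _, ⟨e, he, rfl⟩, h⟩
    exact mem_image_of_mem f (l2 ⟨hz, e, he, (xframe_tog hf).1 h⟩)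
  · obtain ⟨c, hc, hc'⟩ := h1
    obtain ⟨D, rfl, hD⟩ := xframe_pull hf hC hc (image_subset_range _ _ hc')
    rw [ncard_image_of_injective _ hf] at hg
    rw [← image_inter hf, image_nonempty] at h2
    refine mem_image_of_mem f (hF D hg hD ?_ h2)
    obtain ⟨x, hx, rfl⟩ := hc
    exact ⟨x, hx, (hf.mem_set_image).1 hc'⟩

theorem glue_stmt : GlueStmt := by
  intro N0 V Q _ _ B Lk0 own X loc Lk g hT h2 ho hn hsub hc hL
  have hco : ∀ x y, Tog (⋃ q, loc q) x y → ∃ q, x ∈ X q ∧ y ∈ X q := by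
    rintro x y ⟨ν, hν, h1, h2⟩
    obtain ⟨q, hq⟩ := mem_iUnion.1 hν
    exact ⟨q, hsub q ν hq h1, hsub q ν hq h2⟩
  have hcons : ∀ p x y, x ≠ y → x ∈ X p → y ∈ X p → Tog (⋃ q, loc q) x y → Tog (loc p) x y := by
    rintro p x y e hx hy ⟨ν, hν, h⟩
    obtain ⟨q, hq⟩ := mem_iUnion.1 hν
    exact hc p q x y e hx hy ⟨ν, hq, h⟩
  have coarse : ∀ p (C : Set V), C.ncard ≤ g → Disjoint C (X p) → ConnOn (Tog (⋃ q, loc q)) C →
      (At (⋃ q, loc q) (X p) C).Nonempty → ∃ q ℓ, Lk0 ℓ ∧ ℓ ⊆ B p ∧ ℓ ⊆ B q ∧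
        At (⋃ q, loc q) (X p) C ⊆ {x | ∃ n ∈ ℓ, own x = some n} ∧ (C ∩ X q).Nonempty := by
    intro p C hg hd hC ⟨w0, hw0⟩
    have hat : ∀ w ∈ At (⋃ q, loc q) (X p) C, ∃ n q, ∃ c ∈ C, own w = some n ∧ n ∈ B p ∧ n ∈ B q ∧
        c ∈ X q := by
      rintro w ⟨hw, c, hcC, h⟩
      obtain ⟨q, h1, h3⟩ := hco _ _ h
      cases e : own w with
      | none => exact absurd (hn w p q e hw h1 ▸ h3) (disjoint_left.1 hd hcC)
      | some n => exact ⟨n, q, c, hcC, rfl, (ho w n p e).1 hw, (ho w n q e).1 h1, h3⟩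
    by_cases h0 : ∃ x ∈ C, ∃ n, own x = some n
    · obtain ⟨x0, hx0, n0, e0⟩ := h0
      let D : Set N0 := {n | ∃ x ∈ C, own x = some n}
      have key : ∀ x, ReflTransGen (fun x y => x ∈ C ∧ y ∈ C ∧ Tog (⋃ q, loc q) x y) x0 x →
          ∀ q, x ∈ X q → ∃ n ∈ D, n ∈ B q ∧
            ReflTransGen (fun x y => x ∈ D ∧ y ∈ D ∧ Tog (range B) x y) n0 n ∧
            ∀ n', own x = some n' → n' = n := by
        intro x hx
        induction hx with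
        | refl => exact fun q hq => ⟨n0, ⟨x0, hx0, e0⟩, (ho _ _ _ e0).1 hq, .refl,
            fun n' e => Option.some_injective _ (e.symm.trans e0)⟩
        | @tail u v _ h ih =>
          intro q hq
          obtain ⟨r, h1, h3⟩ := hco _ _ h.2.2
          obtain ⟨n, n1, n2, n3, -⟩ := ih r h1
          cases e : own v with
          | none => exact ⟨n, n1, hn v r q e h3 hq ▸ n2, n3, fun _ e => by cases e⟩
          | some n' => exact ⟨n', ⟨v, h.2.1, e⟩, (ho _ _ _ e).1 hq, n3.tail ⟨n1, ⟨v, h.2.1, e⟩,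
              _, mem_range_self r, n2, (ho _ _ _ e).1 h3⟩,
              fun _ e => (Option.some_injective _ e).symm⟩
      have hD : ConnOn (Tog (range B)) D := by
        refine connOn_of_base (tog_symm _) n0 ?_
        rintro n ⟨x, hx, e⟩
        by_cases e' : x = x0
        · obtain rfl : n = n0 := Option.some_injective _ (e.symm.trans (e' ▸ e0))
          exact .refl
        · obtain ⟨y, -, -, h⟩ := hC.step hx hx0 (Ne.symm e')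
          obtain ⟨q, hq, -⟩ := hco _ _ h
          obtain ⟨n', -, -, n3, n4⟩ := key x (hC x0 hx0 x hx) q hq
          exact n4 n e ▸ n3
      have hDg : D.ncard ≤ g := by
        refine le_trans ?_ hg
        rw [← ncard_image_of_injective D (Option.some_injective N0)]
        refine le_trans (ncard_le_ncard (t := own '' C) ?_) (ncard_image_le)
        rintro _ ⟨n, ⟨x, hx, e⟩, rfl⟩
        exact ⟨x, hx, e⟩
      have hDd : Disjoint D (B p) := disjoint_left.2 fun n ⟨x, hx, e⟩ h =>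
        disjoint_left.1 hd hx ((ho _ _ _ e).2 h)
      have hat' : ∀ w ∈ At (⋃ q, loc q) (X p) C, ∃ n ∈ At (range B) (B p) D, own w = some n := by
        intro w hw
        obtain ⟨n, q, c, hcC, e, n1, n2, n3⟩ := hat w hw
        obtain ⟨n', m1, m2, -⟩ := key c (hC x0 hx0 c hcC) q n3
        exact ⟨n, ⟨n1, n', m1, _, mem_range_self q, n2, m2⟩, e⟩
      obtain ⟨n, ⟨n1, n', n2, n3⟩, -⟩ := hat' w0 hw0
      obtain ⟨ℓ, l1, l2, l3, _, ⟨q, rfl⟩, l4, m, m1, x, hx, e⟩ := (hT p).link hDg hDd hD n1 n2 n3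
      exact ⟨q, ℓ, l1, l3, l4, fun w hw => let ⟨n, h1, h2⟩ := hat' w hw; ⟨n, l2 h1, h2⟩,
        x, hx, (ho _ _ _ e).2 m1⟩
    · have h1 : ∀ x ∈ C, own x = none := fun x hx => by
        cases e : own x with
        | none => rfl
        | some n => exact absurd ⟨x, hx, n, e⟩ h0
      obtain ⟨n0, q, c, hcC, -, n1, n2, n3⟩ := hat w0 hw0
      have hCq : C ⊆ X q := hC.sub hcC n3 fun x hx y _ hxq h => by
        obtain ⟨r, r1, r2⟩ := hco _ _ h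
        exact hn x r q (h1 x hx) r1 hxq ▸ r2
      rcases h2 p q (fun e => disjoint_left.1 hd hcC (e ▸ n3)) with e | ⟨ℓ, l1, l2, l3, l4⟩
      · exact absurd (e ▸ ⟨n1, n2⟩ : n0 ∈ (∅ : Set N0)) (notMem_empty _)
      · refine ⟨q, ℓ, l1, l3, l4, fun w hw => ?_, c, hcC, n3⟩
        obtain ⟨n, r, d, hd', e, m1, m2, m3⟩ := hat w hw
        exact ⟨n, l2 ⟨m1, hn d r q (h1 d hd') m3 (hCq hd') ▸ m2⟩, e⟩
  have main : ∀ n, n ≤ g → ∀ p, Thin (⋃ q, loc q) Lk n (X p) := by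
    intro n
    induction n with
    | zero =>
      intro _ p C hg _ _
      obtain rfl : C = ∅ := (ncard_eq_zero (toFinite C)).1 (Nat.le_zero.1 hg)
      exact .inl (eq_empty_of_forall_notMem fun w ⟨_, c, hc, _⟩ => hc)
    | succ n ih =>
      intro hn' p C hg hd hC
      by_cases h0 : At (⋃ q, loc q) (X p) C = ∅
      · exact .inl h0
      obtain ⟨q, ℓ, l1, l2, l3, l4, c, hc'⟩ :=
        coarse p C (hg.trans hn') hd hC (nonempty_iff_ne_empty.2 h0)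
      have hlt : (C \ X q).ncard < C.ncard :=
        ncard_lt_ncard ⟨sdiff_subset, fun h => (h hc'.1).2 hc'.2⟩
      exact xframe_in (ih (by omega) q) (subset_iUnion loc q) (hcons q) (by omega) (hg.trans hn')
        hC ⟨c, hc'⟩ (hL q ℓ l1 l3) (fun x ⟨n, h1, h2⟩ => (ho _ _ _ h2).2 (l3 h1))
        (fun x ⟨n, h1, h2⟩ => (ho _ _ _ h2).2 (l2 h1)) hd l4
  exact main g le_rfl

end Pool.Agent.MP_1c0fc2_co.RE
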