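import Pool.Agent.MP_1c0fc2_co.RE.Basic

/-! The blue classes of the middle graph in the cases without cones. -/

open Function Set Relation

namespace Pool.Agent.MP_1c0fc2_co.RE

section
variable {U X Q L : Type} {A M : SimpleGraph U} {I : Set U} {Γ RΓ : SimpleGraph X} {Hub : Set X}
  {Hs Us Xs : Set (U → X)} {g : ℕ} {pt : U → Option Q}

theorem xgbluen_adj (h : Gam A M I pt Γ RΓ Hub Hs Us Xs g) {υ : U → X} (hυ : υ ∈ Us) (a b : U) :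
    (Γ \ RΓ).Adj (υ a) (υ b) ↔ (A \ M).Adj a b :=
  cc_iff ((h.uind υ hυ).adj a b) (h.ucol υ hυ a b) false

theorem xgbluen_body (h : Gam A M I (fun _ => (none : Option Q)) Γ RΓ Hub Hs Us Xs g)
    {υ υ' : U → X} (hυ : υ ∈ Us) (hυ' : υ' ∈ Us) {a : U} (ha : a ∉ M.support)
    (h' : υ a ∈ range υ') : υ = υ' := by
  by_contra e
  have hm : υ a ∈ range υ ∩ range υ' := ⟨mem_range_self a, h'⟩
  rcases h.uu υ hυ υ' hυ' e with h1 | ⟨k, hk, h1⟩ | ⟨z, ⟨υ'', -, hz⟩, h1⟩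
  · rw [h1] at hm
    exact hm
  · exact ha ((h.uhub υ hυ a).1 ((h.hub _).2 ⟨k, hk, h1 hm⟩))
  · have := h1 hm
    rw [hz] at this
    obtain ⟨u, hu, -⟩ := this
    cases hu

theorem xgbluen_dis (h : Gam A M I (fun _ => (none : Option Q)) Γ RΓ Hub Hs Us Xs g)
    {K : L → Set U} (hd : ∀ l l', l ≠ l' → Disjoint (K l) (K l'))
    (ho : ∀ l, Disjoint (K l) M.support) (z z' : Us × L) (hz : z ≠ z') :
    Disjoint (z.1.1 '' K z.2) (z'.1.1 '' K z'.2) := by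
  obtain ⟨⟨υ, hυ⟩, l⟩ := z
  obtain ⟨⟨υ', hυ'⟩, l'⟩ := z'
  refine disjoint_left.2 ?_
  rintro _ ⟨a, ha, rfl⟩ ⟨b, hb, e⟩
  obtain rfl : υ = υ' := xgbluen_body h hυ hυ' (disjoint_left.1 (ho l) ha) ⟨b, e⟩
  obtain rfl : b = a := (h.uind υ hυ).inj e
  exact disjoint_left.1 (hd l l' fun e => hz (by rw [e])) ha hb

theorem xgbluen_port (h : Gam A M I (fun _ => (none : Option Q)) Γ RΓ Hub Hs Us Xs g)
    {K : L → Set U} (hd : ∀ l l', l ≠ l' → Disjoint (K l) (K l'))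
    (ho : ∀ l, Disjoint (K l) M.support) (υ : Us) (l : L) (Y Z : Set X) (Z' : Set U)
    (hZ : ∀ q ∈ Z, ∃ z : Us × L, z ≠ (υ, l) ∧ q ∈ z.1.1 '' K z.2 ∧ (z.1 = υ → K z.2 ⊆ Z')) :
    Port (Γ \ RΓ) (υ.1 '' K l ∩ Y) Z ⊆ υ.1 '' Port (A \ M) (K l) Z' := by
  rintro _ ⟨⟨⟨a, ha, rfl⟩, -⟩, hp | ⟨q, hq, -, e⟩⟩
  · obtain ⟨z, h1, h2, -⟩ := hZ _ hp
    exact (disjoint_left.1 (xgbluen_dis h hd ho z (υ, l) h1) h2 ⟨a, ha, rfl⟩).elim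
  · obtain ⟨⟨υ', l'⟩, h1, ⟨b, hb, rfl⟩, h3⟩ := hZ _ hq
    obtain ⟨υ'', h4, h5, h6⟩ := h.bcov _ _ e
    have e1 := xgbluen_body h υ.2 h4 (disjoint_left.1 (ho l) ha) h5
    have e2 := xgbluen_body h υ'.2 h4 (disjoint_left.1 (ho l') hb) h6
    obtain rfl : υ' = υ := Subtype.ext (e2.trans e1.symm)
    refine ⟨a, ⟨ha, .inr ⟨b, h3 rfl hb, fun hb' => ?_, (xgbluen_adj h υ'.2 a b).1 e⟩⟩, rfl⟩
    exact disjoint_left.1 (hd l' l fun e => h1 (by rw [e])) hb hb'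

theorem xgbluen_rp (h : Gam A M I (fun _ => (none : Option Q)) Γ RΓ Hub Hs Us Xs g)
    {K : L → Set U} (hd : ∀ l l', l ≠ l' → Disjoint (K l) (K l'))
    (ho : ∀ l, Disjoint (K l) M.support) (h1 : RP (A \ M) K ∅)
    (h2 : RPX (A \ M) K Set.Subsingleton) :
    LocRP Γ RΓ Hub false (fun z : Us × L => z.1.1 '' K z.2) False ∅ g := by
  intro Y _ _
  have oth : ∀ (𝒮 : Set (Us × L)) (υ : Us) (l : L),
      ∀ q ∈ Oth (fun z : Us × L => z.1.1 '' K z.2 ∩ Y) 𝒮 (υ, l), ∃ z : Us × L, z ≠ (υ, l) ∧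
        q ∈ z.1.1 '' K z.2 ∧ (z.1 = υ → K z.2 ⊆ Oth K {l' | (υ, l') ∈ 𝒮} l) := by
    rintro 𝒮 υ l q ⟨⟨υ', l'⟩, z1, z2, z3⟩
    refine ⟨(υ', l'), z2, z3.1, ?_⟩
    rintro rfl b hb
    exact ⟨l', z1, fun e => z2 (by rw [e]), hb⟩
  refine ⟨?_, ?_⟩
  · rintro 𝒮 R0 ⟨⟨υ, l1⟩, hl1⟩ hR
    obtain ⟨R1, r1, r2⟩ : ∃ R1 : Set U, (R1 = ∅ ∨ (∃ l0, l0 ∉ {l' | (υ, l') ∈ 𝒮} ∧ R1 = K l0) ∨
        ∃ r ∈ (∅ : Set U), R1 = {r}) ∧ ∀ q ∈ R0, ∃ z : Us × L, z ∉ 𝒮 ∧ q ∈ z.1.1 '' K z.2 ∧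
          (z.1 = υ → K z.2 ⊆ R1) := by
      rcases hR with rfl | ⟨⟨υ0, l0⟩, z1, rfl⟩ | ⟨r, hr, -⟩
      · exact ⟨∅, .inl rfl, fun _ hq => hq.elim⟩
      · by_cases e : υ0 = υ
        · subst e
          exact ⟨K l0, .inr (.inl ⟨l0, z1, rfl⟩), fun q hq => ⟨_, z1, hq.1, fun _ => subset_rfl⟩⟩
        · exact ⟨∅, .inl rfl, fun q hq => ⟨_, z1, hq.1, fun e' => absurd e' e⟩⟩
      · exact hr.1.elim
    obtain ⟨l, hl, hs⟩ := h1 {l' | (υ, l') ∈ 𝒮} R1 ⟨l1, hl1⟩ r1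
    refine ⟨(υ, l), hl, (hs.image υ.1).anti (xgbluen_port h hd ho υ l Y _ _ ?_)⟩
    rintro q (hq | hq)
    · obtain ⟨z, z1, z2, z3⟩ := r2 q hq
      exact ⟨z, fun e => z1 (e ▸ hl), z2, fun e => (z3 e).trans subset_union_left⟩
    · obtain ⟨z, z1, z2, z3⟩ := oth 𝒮 υ l q hq
      exact ⟨z, z1, z2, fun e => (z3 e).trans subset_union_right⟩
  · rintro 𝒮 Pt ⟨⟨υ, l1⟩, hl1⟩ ⟨-, hP⟩
    have hi := (h.uind υ.1 υ.2).inj
    have hP' : (υ.1 ⁻¹' Pt).Subsingleton := by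
      rcases hP with hP | ⟨a, b, ha, hb, e, hP⟩
      · exact hP.preimage hi
      · have key : ∀ x y, υ.1 x = a → υ.1 y = b → False := by
          rintro x y rfl rfl
          exact ha ((h.uhub _ υ.2 x).2 ⟨y, (h.ucol _ υ.2 x y).1 e⟩)
        intro x hx y hy
        rcases hP hx with e1 | e1 <;> rcases hP hy with e2 | e2
        exacts [hi (e1.trans e2.symm), (key x y e1 e2).elim, (key y x e2 e1).elim,
          hi (e1.trans e2.symm)]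
    obtain ⟨l, hl, hs⟩ := h2 {l' | (υ, l') ∈ 𝒮} _ ⟨l1, hl1⟩ hP'
    refine ⟨(υ, l), hl, (hs.image υ.1).anti ?_⟩
    rw [image_union]
    refine union_subset_union ?_ (xgbluen_port h hd ho υ l Y _ _ (oth 𝒮 υ l))
    rintro _ ⟨⟨⟨a, ha, rfl⟩, -⟩, hp⟩
    exact ⟨a, ⟨ha, hp⟩, rfl⟩

end

theorem gBlueN_stmt (hK3 : K3Stmt) (hRP : RPStmt) (hThNode : ThNodeStmt) : GBlueNStmt := by
  intro W U X Q L _ _ _ _ H P hP m hm A M I Γ RΓ Hub Hs Us Xs g K s hA hg h hD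
  have hBO : ∀ {V : Type} (J : SimpleGraph V) (S : Set V), BO P H m J S ↔ TH P H J S := by
    intro V J S
    cases m
    exacts [Iff.rfl, Iff.rfl, hm.elim, hm.elim]
  have pull : ∀ υ ∈ Us, ∀ S, S ⊆ range υ → BO P H m (Γ \ RΓ) S →
      BO P H m (A \ M) (υ ⁻¹' S) := by
    intro υ hυ S hS hO
    obtain ⟨k, k1, k2, -⟩ := exists_pull' (J := A \ M) (J' := Γ \ RΓ) (h.uind υ hυ).inj
      (fun x y => (xgbluen_adj h hυ x y).1) hS hO.two.nonempty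
    exact k2 ▸ hO.map k1
  refine ⟨fun S hS _ => ?_, ?_, xgbluen_dis h hD.fam.dis hD.off, fun l => ?_,
    xgbluen_rp h hD.fam.dis hD.off hD.fam.rp
      ((hRP U L (A \ M) K ∅).2.2.1 hD.fam.rp hD.fam.dis)⟩
  · obtain ⟨G', R', e, hpre⟩ := h.preB fun _ => rfl
    obtain ⟨⟨-, k1, k2, k3⟩, -⟩ := hK3 W U H P hP
    have hT := (hBO _ _).1 hS
    rcases hThNode W U X H P A G' R' _ _ g false hA (k1.trans (k2.trans hg)) hpre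
      (by
        rintro β ⟨-, b1, b2, b3⟩
        rw [b1, b2]
        exact .inl ⟨b3, rfl, hD.br hm⟩) S (hT.2 ▸ k3.trans hg)
      (by
        have : cc G' R' false = Γ \ RΓ := e
        rw [this]
        exact hT.1.mono fun _ _ _ _ e' => TG_mono (subset_univ _) e') with
      ⟨_, ⟨k, hk, rfl⟩, hSk⟩ | ⟨β, hβ, hSβ⟩
    · obtain ⟨x, hx, y, hy, exy⟩ := hS.two.edge
      obtain ⟨a, rfl⟩ := hSk hx
      obtain ⟨b, rfl⟩ := hSk hy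
      exact (exy.2 (h.hred k hk a b (((h.hind k hk).adj a b).1 exy.1))).elim
    · obtain ⟨l, hl⟩ := hD.fam.cov _ (pull _ hβ.1 S hSβ hS)
      refine ⟨(⟨β.f, hβ.1⟩, l), fun x hx => ?_⟩
      obtain ⟨a, rfl⟩ := hSβ hx
      exact ⟨a, hl hx, rfl⟩
  · rintro ⟨⟨υ, hυ⟩, l⟩
    refine le_trans ?_ ((ncard_image_le (f := υ) (toFinite _)).trans (hD.wt l))
    refine ncard_le_ncard ?_ (toFinite _)
    rintro w ⟨O, hO, hOK, hw⟩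
    obtain ⟨a, -, rfl⟩ := hOK hw
    refine ⟨a, ⟨υ ⁻¹' O, pull υ hυ O (hOK.trans (image_subset_range _ _)) hO, fun b hb => ?_, hw⟩,
      rfl⟩
    obtain ⟨c, hc, e⟩ := hOK hb
    exact (h.uind υ hυ).inj e ▸ hc
  · cases m
    exacts [trivial, trivial, hm.elim, hm.elim]

end Pool.Agent.MP_1c0fc2_co.RE
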