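import Pool.Agent.MP_1c0fc2_co.RE.Basic

/-! Blue classes of the middle graph in the cone cases. -/

open Function Set Relation

namespace Pool.Agent.MP_1c0fc2_co.RE

section
variable {U X L : Type} {A M : SimpleGraph U} {I : Set U} {pt : U → Option (L ⊕ U)}
  {Γ RΓ : SimpleGraph X} {Hub : Set X} {Hs Us Xs : Set (U → X)} {g : ℕ} {K : L → Set U}

theorem xgblues_adj (hG : Gam A M I pt Γ RΓ Hub Hs Us Xs g) {υ : U → X} (hυ : υ ∈ Us) (a b : U) :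
    (Γ \ RΓ).Adj (υ a) (υ b) ↔ (A \ M).Adj a b :=
  and_congr ((hG.uind υ hυ).adj a b) (not_congr (hG.ucol υ hυ a b))

theorem xgblues_set (hp : IsPt M K pt) (l : L) : {u | pt u = some (.inl l)} = K l :=
  Set.ext fun a => hp.2.1 l a

theorem xgblues_cel (hG : Gam A M I pt Γ RΓ Hub Hs Us Xs g) (hp : IsPt M K pt) (z : CI pt Us)
    {υ : U → X} (hυ : υ ∈ Us) {x : X} (hx : x ∈ z.1.2) (hx' : x ∈ range υ) :
    z.1.2 = υ '' K z.1.1 := by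
  rw [← xgblues_set hp]
  exact hG.cel _ z.2.2 υ hυ ⟨x, hx, hx'⟩

theorem xgblues_unit (hp : IsPt M K pt) (z : CI pt Us) : ∃ υ ∈ Us, z.1.2 = υ '' K z.1.1 := by
  obtain ⟨υ, hυ, e⟩ := z.2.2
  exact ⟨υ, hυ, xgblues_set hp z.1.1 ▸ e⟩

theorem xgblues_eq (hG : Gam A M I pt Γ RΓ Hub Hs Us Xs g) (hp : IsPt M K pt) {z z' : CI pt Us}
    {x : X} (hx : x ∈ z.1.2) (hx' : x ∈ z'.1.2) : z = z' := by
  obtain ⟨υ, hυ, e⟩ := xgblues_unit hp z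
  have e' := xgblues_cel hG hp z' hυ hx' (image_subset_range _ _ (e ▸ hx))
  obtain ⟨a, ha, rfl⟩ : x ∈ υ '' K z.1.1 := e ▸ hx
  obtain ⟨a', ha', e2⟩ : υ a ∈ υ '' K z'.1.1 := e' ▸ hx'
  rw [(hG.uind υ hυ).inj e2] at ha'
  have e3 : z.1.1 = z'.1.1 := by
    simpa using ((hp.2.1 _ _).2 ha).symm.trans ((hp.2.1 _ _).2 ha')
  exact Subtype.ext (Prod.ext e3 (by rw [e, e', e3]))

/-- a blue edge in two different units lies in a class point -/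
theorem xgblues_two (hG : Gam A M I pt Γ RΓ Hub Hs Us Xs g) (hp : IsPt M K pt) {υ υ' : U → X}
    (hυ : υ ∈ Us) (hυ' : υ' ∈ Us) (hne : υ ≠ υ') {x y : X} (e : (Γ \ RΓ).Adj x y)
    (hx : x ∈ range υ ∩ range υ') (hy : y ∈ range υ ∩ range υ') :
    ∃ z : CI pt Us, x ∈ z.1.2 ∧ y ∈ z.1.2 := by
  rcases hG.uu υ hυ υ' hυ' hne with h | ⟨h, hh, hs⟩ | ⟨⟨q, Z⟩, hz, hs⟩
  · exact (h ▸ hx : x ∈ (∅ : Set X)).elim
  · obtain ⟨a, rfl⟩ := hs hx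
    obtain ⟨b, rfl⟩ := hs hy
    exact (e.2 (hG.hred h hh a b (((hG.hind h hh).adj a b).1 e.1))).elim
  · rcases q with l | c
    · exact ⟨⟨(l, Z), ⟨x, hs hx⟩, hz⟩, hs hx, hs hy⟩
    · obtain ⟨υ'', -, e'⟩ := hz
      have key : ∀ u, pt u = some (.inr c) → u = c := fun u hu => by
        have h1 := hp.2.2 u (fun h => by simp [hp.1 u h] at hu)
          fun l h => by simp [(hp.2.1 l u).2 h] at hu
        simpa using h1.symm.trans hu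
      obtain ⟨a, ha, rfl⟩ : x ∈ υ'' '' {u | pt u = some (.inr c)} := e' ▸ hs hx
      obtain ⟨b, hb, rfl⟩ : y ∈ υ'' '' {u | pt u = some (.inr c)} := e' ▸ hs hy
      rw [key a ha, key b hb] at e
      exact (e.ne rfl).elim

/-- a blue fan that avoids the class point of its centre lies in one unit -/
theorem xgblues_fan (hG : Gam A M I pt Γ RΓ Hub Hs Us Xs g) (hp : IsPt M K pt) {w x0 : X}
    {C : Set X} (hx0 : x0 ∈ C) (hw : ∀ x ∈ C, (Γ \ RΓ).Adj w x) (hc : ConnOn (Γ \ RΓ).Adj C)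
    (hd : ∀ z : CI pt Us, w ∈ z.1.2 → Disjoint C z.1.2) :
    ∃ υ ∈ Us, w ∈ range υ ∧ C ⊆ range υ := by
  obtain ⟨υ, hυ, h1, h2⟩ := hG.bcov w x0 (hw x0 hx0)
  refine ⟨υ, hυ, h1, hc.sub hx0 h2 fun x hx y hy hxυ e => ?_⟩
  obtain ⟨υ', hυ', hs⟩ := hG.tri _ ⟨w, x, y, hw x hx, hw y hy, e, rfl⟩
  by_cases hne : υ = υ'
  · exact hne ▸ hs (by simp)
  · obtain ⟨z, z1, z2⟩ := xgblues_two hG hp hυ hυ' hne (hw x hx) ⟨h1, hs (by simp)⟩
      ⟨hxυ, hs (by simp)⟩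
    exact (disjoint_left.1 (hd z z1) hx z2).elim

theorem xgblues_pull (hG : Gam A M I pt Γ RΓ Hub Hs Us Xs g) {υ : U → X} (hυ : υ ∈ Us)
    {T : Set X} (hT : T ⊆ range υ) (hn : T.Nonempty) :
    ∃ k : X → U, IHo (Γ \ RΓ) (A \ M) k T ∧ k '' T = υ ⁻¹' T := by
  obtain ⟨k, h1, h2, -⟩ := exists_pull' (J := A \ M) (J' := Γ \ RΓ) (hG.uind υ hυ).inj
    (fun a b => (xgblues_adj hG hυ a b).1) hT hn
  exact ⟨k, h1, h2⟩

theorem xgblues_rule (hG : Gam A M I pt Γ RΓ Hub Hs Us Xs g) (hp : IsPt M K pt) {m : Mode}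
    (hr : ∀ l, Rule m (A \ M) (K l)) (z : CI pt Us) : Rule m (Γ \ RΓ) z.1.2 := by
  cases m
  · trivial
  · trivial
  · rintro t ht C hd hw hc a ⟨a1, a2, x, hx, a3⟩ b ⟨b1, b2, y, hy, b3⟩
    obtain ⟨υ, hυ, h1, h2⟩ := xgblues_fan hG hp hx hw hc fun z' hz' => xgblues_eq hG hp ht hz' ▸ hd
    have e := xgblues_cel hG hp z hυ ht h1
    obtain ⟨k, k1, k2⟩ := xgblues_pull hG hυ h2 ⟨x, hx⟩
    rw [e] at ht a1 b1 hd
    obtain ⟨t, ht, rfl⟩ := ht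
    obtain ⟨a, a1, rfl⟩ := a1
    obtain ⟨b, b1, rfl⟩ := b1
    obtain ⟨x, rfl⟩ := h2 hx
    obtain ⟨y, rfl⟩ := h2 hy
    exact congrArg υ (hr z.1.1 t ht (υ ⁻¹' C)
      (disjoint_left.2 fun u h1 h2 => disjoint_left.1 hd h1 (mem_image_of_mem υ h2))
      (fun u hu => (xgblues_adj hG hυ _ _).1 (hw _ hu)) (k2 ▸ hc.map k1)
      ⟨a1, (xgblues_adj hG hυ _ _).1 a2, x, hx, (xgblues_adj hG hυ _ _).1 a3⟩
      ⟨b1, (xgblues_adj hG hυ _ _).1 b2, y, hy, (xgblues_adj hG hυ _ _).1 b3⟩)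
  · intro a ha b hb w h1 h2 h3
    obtain ⟨υ, hυ, hs⟩ := hG.tri _ ⟨a, b, w, h1, h2, h3, rfl⟩
    have e := xgblues_cel hG hp z hυ ha (hs (by simp))
    rw [e] at ha hb ⊢
    obtain ⟨a, ha, rfl⟩ := ha
    obtain ⟨b, hb, rfl⟩ := hb
    obtain ⟨w, rfl⟩ := hs (show w ∈ _ by simp)
    exact mem_image_of_mem υ (hr z.1.1 a ha b hb w ((xgblues_adj hG hυ _ _).1 h1)
      ((xgblues_adj hG hυ _ _).1 h2) ((xgblues_adj hG hυ _ _).1 h3))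

theorem xgblues_cone (hG : Gam A M I pt Γ RΓ Hub Hs Us Xs g) (hp : IsPt M K pt) {S : Set X}
    {w : X} (hn : 3 ≤ S.ncard) (hw : ∀ x ∈ S, x ≠ w → (Γ \ RΓ).Adj w x)
    (hc : ConnOn (Γ \ RΓ).Adj (S \ {w}))
    (hd : ∀ z : CI pt Us, w ∈ z.1.2 → Disjoint (S \ {w}) z.1.2) : ∃ υ ∈ Us, S ⊆ range υ := by
  obtain ⟨x0, hx0⟩ : (S \ {w}).Nonempty := by
    by_contra h
    have h1 := ncard_le_ncard (sdiff_eq_empty.1 (not_nonempty_iff_eq_empty.1 h)) (toFinite _)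
    rw [ncard_singleton] at h1
    omega
  obtain ⟨υ, hυ, h1, h2⟩ := xgblues_fan hG hp hx0 (fun x hx => hw x hx.1 hx.2) hc hd
  refine ⟨υ, hυ, fun x hx => ?_⟩
  by_cases e : x = w
  · exact e ▸ h1
  · exact h2 ⟨hx, e⟩

theorem xgblues_shape (hG : Gam A M I pt Γ RΓ Hub Hs Us Xs g) (hp : IsPt M K pt) {m : Mode}
    (hr : ∀ z : CI pt Us, Rule m (Γ \ RΓ) z.1.2) (hm : ¬ m.IsN) {S : Set X}
    (hS : Shape m (Γ \ RΓ) S) : ∃ υ ∈ Us, S ⊆ range υ := by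
  have hin : ∀ z : CI pt Us, S ⊆ z.1.2 → ∃ υ ∈ Us, S ⊆ range υ := fun z h => by
    obtain ⟨υ, hυ, e⟩ := xgblues_unit hp z
    exact ⟨υ, hυ, h.trans (e ▸ image_subset_range _ _)⟩
  cases m
  · exact (hm trivial).elim
  · exact (hm trivial).elim
  · obtain ⟨hn, w, -, hw, hc⟩ := hS
    by_cases hz : ∃ z : CI pt Us, w ∈ z.1.2
    · obtain ⟨z, hz⟩ := hz
      by_cases hs : S ⊆ z.1.2
      · exact hin z hs
      obtain ⟨y, hy, hy'⟩ := not_subset.1 hs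
      have hy0 := mem_comp (R := (Γ \ RΓ).Adj) (C := S \ z.1.2) ⟨hy, hy'⟩
      have hd : Disjoint (comp (Γ \ RΓ).Adj (S \ z.1.2) y) z.1.2 :=
        disjoint_left.2 fun x hx => (comp_sub hx).2
      have hw' : ∀ x ∈ comp (Γ \ RΓ).Adj (S \ z.1.2) y, (Γ \ RΓ).Adj w x := fun x hx =>
        hw x (comp_sub hx).1 fun e => (comp_sub hx).2 (e ▸ hz)
      have hcc := comp_conn (C := S \ z.1.2) (a := y) (adj_symm' (Γ \ RΓ))
      obtain ⟨υ, hυ, h1, h2⟩ := xgblues_fan hG hp hy0 hw' hcc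
        fun z' hz' => xgblues_eq hG hp hz hz' ▸ hd
      have h3 : z.1.2 ⊆ range υ := xgblues_cel hG hp z hυ hz h1 ▸ image_subset_range _ _
      obtain ⟨a, ha, h4⟩ : ∃ a ∈ z.1.2, ∀ b ∈ z.1.2, (Γ \ RΓ).Adj w b →
          (∃ x ∈ comp (Γ \ RΓ).Adj (S \ z.1.2) y, (Γ \ RΓ).Adj b x) → b = a := by
        rcases (hr z w hz _ hd hw' hcc).eq_empty_or_singleton with e | ⟨a, e⟩
        · exact ⟨w, hz, fun b b1 b2 b3 => (e ▸ ⟨b1, b2, b3⟩ : b ∈ (∅ : Set X)).elim⟩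
        · exact ⟨a, (e.ge (mem_singleton a)).1,
            fun b b1 b2 b3 => (e ▸ ⟨b1, b2, b3⟩ : b ∈ ({a} : Set X))⟩
      have h5 : S \ {w, a} ⊆ comp (Γ \ RΓ).Adj (S \ z.1.2) y := by
        refine (hc a).sub ⟨hy, ?_⟩ hy0 fun x _ v hv hx e => ?_
        · rintro (rfl | rfl)
          exacts [hy' hz, hy' ha]
        · refine comp_closed hx ⟨hv.1, fun hv' => hv.2 (.inr ?_)⟩ e
          exact h4 v hv' (hw v hv.1 fun e' => hv.2 (.inl e')) ⟨x, hx, e.symm⟩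
      refine ⟨υ, hυ, fun x hx => ?_⟩
      by_cases e : x ∈ ({w, a} : Set X)
      · rcases e with rfl | rfl
        exacts [h1, h3 ha]
      · exact h2 (h5 ⟨hx, e⟩)
    · refine xgblues_cone hG hp (by omega) hw ?_ fun z h => (hz ⟨z, h⟩).elim
      simpa using hc w
  · obtain ⟨hn, w, -, hw, hc⟩ := hS
    by_cases hz : ∀ z : CI pt Us, w ∈ z.1.2 → Disjoint (S \ {w}) z.1.2
    · exact xgblues_cone hG hp hn hw hc hz
    · obtain ⟨z, hz⟩ := not_forall.1 hz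
      obtain ⟨hz, hd⟩ := Classical.not_imp.1 hz
      obtain ⟨x0, x1, x2⟩ := not_disjoint_iff.1 hd
      have h1 : S \ {w} ⊆ z.1.2 := hc.sub x1 x2 fun x hx y hy hx' e =>
        hr z w hz x hx' y (hw x hx.1 hx.2) (hw y hy.1 hy.2) e
      refine hin z fun x hx => ?_
      by_cases e : x = w
      · exact e ▸ hz
      · exact h1 ⟨hx, e⟩

end

theorem gBlueSRule_stmt : GBlueSRuleStmt := by
  intro U X L _ _ _ m A M I pt Γ RΓ Hub Hs Us Xs g K hG hp hr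
  exact ⟨xgblues_rule hG hp hr, fun hm _ => xgblues_shape hG hp (xgblues_rule hG hp hr) hm⟩

theorem gBlueS_stmt (hGBlueSRP : GBlueSRPStmt) (hGBlueSRule : GBlueSRuleStmt) : GBlueSStmt := by
  intro W U X L _ _ _ _ H P _ m hm A M I pt Γ RΓ Hub Hs Us Xs g K s hG hp hD
  obtain ⟨r1, r2⟩ := hGBlueSRule U X L m A M I pt Γ RΓ Hub Hs Us Xs g K hG hp hD.fam.rule
  have pull : ∀ υ ∈ Us, ∀ S, S ⊆ range υ → BO P H m (Γ \ RΓ) S → BO P H m (A \ M) (υ ⁻¹' S) :=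
    fun υ hυ S hS h => by
      obtain ⟨k, k1, k2⟩ := xgblues_pull hG hυ hS h.two.nonempty
      exact k2 ▸ h.map k1
  refine ⟨fun S hS hs => ?_, fun z => ?_, fun z z' hz => ?_, r1,
    hGBlueSRP U X L A M I pt Γ RΓ Hub Hs Us Xs g K hG hp hD.fam.rp⟩
  · obtain ⟨υ, hυ, h1⟩ := r2 hm S hs
    obtain ⟨l, hl⟩ := hD.fam.cov _ (pull υ hυ S h1 hS)
    have h2 : S ⊆ υ '' K l := fun x hx => by
      obtain ⟨a, rfl⟩ := h1 hx
      exact mem_image_of_mem υ (hl hx)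
    exact ⟨⟨(l, υ '' K l), hS.two.nonempty.mono h2, υ, hυ, by rw [xgblues_set hp]⟩, h2⟩
  · obtain ⟨υ, hυ, e⟩ := xgblues_unit hp z
    refine le_trans (ncard_le_ncard (t := υ '' BW (BO P H m (A \ M)) (K z.1.1)) ?_ (toFinite _))
      ((ncard_image_le (toFinite _)).trans (hD.wt _))
    rintro w ⟨O, o1, o2, o3⟩
    replace o2 : O ⊆ υ '' K z.1.1 := e ▸ o2
    obtain ⟨a, -, rfl⟩ := o2 o3
    refine mem_image_of_mem υ ⟨υ ⁻¹' O, pull υ hυ O (o2.trans (image_subset_range _ _)) o1,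
      fun b hb => ?_, o3⟩
    obtain ⟨c, hc, e'⟩ := o2 hb
    exact (hG.uind υ hυ).inj e' ▸ hc
  · exact disjoint_left.2 fun x h1 h2 => hz (xgblues_eq hG hp h1 h2)

end Pool.Agent.MP_1c0fc2_co.RE
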