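import Pool.Agent.MP_1c0fc2_co.RE.Basic

/-! Local peelability of the blue class points of the middle graph. -/

open Function Set Relation

namespace Pool.Agent.MP_1c0fc2_co.RE

section
variable {U X L : Type} {A M : SimpleGraph U} {I : Set U} {pt : U → Option (L ⊕ U)}
  {Γ RΓ : SimpleGraph X} {Hub : Set X} {Hs Us Xs : Set (U → X)} {g : ℕ} {K : L → Set U}

theorem xgbluesrp_K (hp : IsPt M K pt) (l : L) : {u | pt u = some (Sum.inl l)} = K l := by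
  ext a
  exact hp.2.1 l a

theorem xgbluesrp_supp (hp : IsPt M K pt) {l : L} {a : U} (ha : a ∈ K l) : a ∉ M.support := by
  intro h
  have h1 := hp.1 a h
  have h2 := (hp.2.1 l a).2 ha
  rw [h1] at h2
  cases h2

theorem xgbluesrp_Kdis (hp : IsPt M K pt) {l l' : L} {a : U} (ha : a ∈ K l) (ha' : a ∈ K l') :
    l = l' := by
  have h1 := (hp.2.1 l a).2 ha
  have h2 := (hp.2.1 l' a).2 ha'
  rw [h1] at h2
  exact Sum.inl.inj (Option.some.inj h2)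

/-- cells that meet are equal -/
theorem xgbluesrp_cells (hG : Gam A M I pt Γ RΓ Hub Hs Us Xs g) {z z' : (L ⊕ U) × Set X}
    (hz : z ∈ Cells pt Us) (hz' : z' ∈ Cells pt Us) {x : X} (hx : x ∈ z.2) (hx' : x ∈ z'.2) :
    z = z' := by
  obtain ⟨υ, hυ, e⟩ := hz
  have hxr : x ∈ range υ := by
    rw [e] at hx
    exact image_subset_range _ _ hx
  have e' := hG.cel z' hz' υ hυ ⟨x, hx', hxr⟩
  rw [e] at hx
  rw [e'] at hx'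
  obtain ⟨a, ha, rfl⟩ := hx
  obtain ⟨a', ha', h⟩ := hx'
  have h0 := (hG.uind υ hυ).inj h
  subst h0
  have h1 : z.1 = z'.1 := Option.some.inj (ha.symm.trans ha')
  exact Prod.ext h1 (by rw [e, e', h1])

theorem xgbluesrp_dis (hG : Gam A M I pt Γ RΓ Hub Hs Us Xs g) {z z' : CI pt Us} {x : X}
    (hx : x ∈ z.1.2) (hx' : x ∈ z'.1.2) : z = z' := by
  have h := xgbluesrp_cells hG z.2.2 z'.2.2 hx hx'
  have h1 : z.1.1 = z'.1.1 := Sum.inl.inj (congrArg Prod.fst h)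
  have h2 : z.1.2 = z'.1.2 := (Prod.ext_iff.1 h).2
  exact Subtype.ext (Prod.ext h1 h2)

theorem xgbluesrp_eq (hG : Gam A M I pt Γ RΓ Hub Hs Us Xs g) (hp : IsPt M K pt) (z : CI pt Us)
    {υ : U → X} (hυ : υ ∈ Us) {x : X} (hx : x ∈ z.1.2) (hx' : x ∈ range υ) :
    z.1.2 = υ '' K z.1.1 := by
  have h := hG.cel _ z.2.2 υ hυ ⟨x, hx, hx'⟩
  rw [← xgbluesrp_K hp]
  exact h

theorem xgbluesrp_body (hp : IsPt M K pt) (z : CI pt Us) :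
    ∃ υ ∈ Us, z.1.2 ⊆ υ '' M.supportᶜ := by
  obtain ⟨υ, hυ, e⟩ := z.2.2
  refine ⟨υ, hυ, ?_⟩
  have e' : z.1.2 = υ '' K z.1.1 := by
    rw [← xgbluesrp_K hp]
    exact e
  rw [e']
  exact image_mono fun a ha => xgbluesrp_supp hp ha

theorem xgbluesrp_tog1 (hp : IsPt M K pt) (z : CI pt Us) {x y : X} (hx : x ∈ z.1.2)
    (hy : y ∈ z.1.2) : Tog (RBags M I Us Xs) x y := by
  obtain ⟨υ, hυ, h⟩ := xgbluesrp_body hp z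
  exact ⟨_, .inl ⟨υ, hυ, rfl⟩, h hx, h hy⟩

theorem xgbluesrp_tog2 (hG : Gam A M I pt Γ RΓ Hub Hs Us Xs g) (hp : IsPt M K pt)
    (z z' : CI pt Us) {x y : X} (hx : x ∈ z.1.2) (hy : y ∈ z'.1.2) (h : (Γ \ RΓ).Adj x y) :
    Tog (RBags M I Us Xs) x y := by
  obtain ⟨υ, hυ, h1, h2⟩ := hG.bcov x y h
  refine ⟨_, .inl ⟨υ, hυ, rfl⟩, ?_, ?_⟩
  · rw [xgbluesrp_eq hG hp z hυ hx h1] at hx
    exact image_mono (fun a ha => xgbluesrp_supp hp ha) hx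
  · rw [xgbluesrp_eq hG hp z' hυ hy h2] at hy
    exact image_mono (fun a ha => xgbluesrp_supp hp ha) hy

/-- peeling inside one unit -/
theorem xgbluesrp_pull (hG : Gam A M I pt Γ RΓ Hub Hs Us Xs g) (hp : IsPt M K pt)
    (hK : RP (A \ M) K ∅) {υ : U → X} (hυ : υ ∈ Us) (𝒯 𝒞 : Set (CI pt Us)) (hn : 𝒯.Nonempty)
    (hs : 𝒞.Subsingleton) (hd : ∀ c ∈ 𝒞, c ∉ 𝒯)
    (hm : ∀ z, z ∈ 𝒯 ∨ z ∈ 𝒞 → ∃ x ∈ z.1.2, x ∈ range υ) :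
    ∃ l ∈ 𝒯, {p | p ∈ l.1.2 ∧ ∃ z, (z ∈ 𝒯 ∨ z ∈ 𝒞) ∧ z ≠ l ∧
      ∃ q ∈ z.1.2, (Γ \ RΓ).Adj p q}.Subsingleton := by
  have he : ∀ z, z ∈ 𝒯 ∨ z ∈ 𝒞 → z.1.2 = υ '' K z.1.1 := fun z hz => by
    obtain ⟨x, h1, h2⟩ := hm z hz
    exact xgbluesrp_eq hG hp z hυ h1 h2
  have hinj : ∀ z z', z ∈ 𝒯 ∨ z ∈ 𝒞 → z' ∈ 𝒯 ∨ z' ∈ 𝒞 → z.1.1 = z'.1.1 → z = z' :=
    fun z z' hz hz' e => Subtype.ext (Prod.ext e (by rw [he z hz, he z' hz', e]))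
  obtain ⟨l', ⟨l, hl, rfl⟩, hsub⟩ := hK ((fun z : CI pt Us => z.1.1) '' 𝒯)
    {a | ∃ c ∈ 𝒞, a ∈ K c.1.1} (hn.image _) (by
      rcases hs.eq_empty_or_singleton with rfl | ⟨c, rfl⟩
      · left
        ext a
        simp
      · refine .inr (.inl ⟨c.1.1, ?_, ?_⟩)
        · rintro ⟨z, hz, e⟩
          have := hinj z c (.inl hz) (.inr rfl) e
          exact hd c rfl (this ▸ hz)
        · ext a
          simp)
  refine ⟨l, hl, (hsub.image υ).anti ?_⟩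
  rintro p ⟨hpl, z, hz, hne, q, hq, hadj⟩
  rw [he l (.inl hl)] at hpl
  rw [he z hz] at hq
  obtain ⟨a, ha, rfl⟩ := hpl
  obtain ⟨b, hb, rfl⟩ := hq
  have hne' : z.1.1 ≠ l.1.1 := fun e => hne (hinj z l hz (.inl hl) e)
  refine ⟨a, ⟨ha, .inr ⟨b, ?_, fun hb' => hne' (xgbluesrp_Kdis hp hb hb'), ?_⟩⟩, rfl⟩
  · rcases hz with hz | hz
    · exact .inr ⟨z.1.1, ⟨z, hz, rfl⟩, hne', hb⟩
    · exact .inl ⟨z, hz, hb⟩
  · exact ⟨((hG.uind υ hυ).adj a b).1 hadj.1, fun h => hadj.2 ((hG.ucol υ hυ a b).2 h)⟩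

/-- the leaf argument -/
theorem xgbluesrp_main [Finite X] (hLeaf : LeafStmt) (hG : Gam A M I pt Γ RΓ Hub Hs Us Xs g)
    (hp : IsPt M K pt) (hK : RP (A \ M) K ∅) {Y : Set X} (hY : Y.ncard ≤ g)
    (𝒮 : Set (CI pt Us)) (R Pt ν0 : Set X) (hν0 : ν0 ∈ RBags M I Us Xs) (hR : R ⊆ ν0)
    (hPt : Pt ⊆ ν0) (hRc : ∀ q ∈ R, q ∈ Y ∧ ∃ z : CI pt Us, z ∉ 𝒮 ∧ q ∈ z.1.2)
    (hbig : ∀ l ∈ 𝒮, ¬ (l.1.2 ∩ Y).Subsingleton) :
    (∀ l ∈ 𝒮, l.1.2 ∩ Y ⊆ ν0) ∨ ∃ l ∈ 𝒮, ((l.1.2 ∩ Y ∩ Pt) ∪ Port (Γ \ RΓ) (l.1.2 ∩ Y)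
      (R ∪ Oth (fun z : CI pt Us => z.1.2 ∩ Y) 𝒮 l)).Subsingleton := by
  set Z : Set X := R ∪ {x | ∃ l ∈ 𝒮, x ∈ l.1.2 ∩ Y} with hZ
  have hZY : Z ⊆ Y := by
    rintro x (hx | ⟨l, -, hx⟩)
    · exact (hRc x hx).1
    · exact hx.2
  have hZc : ∀ x ∈ Z, ∃ z : CI pt Us, x ∈ z.1.2 := by
    rintro x (hx | ⟨l, -, hx⟩)
    · obtain ⟨z, -, hz⟩ := (hRc x hx).2
      exact ⟨z, hz⟩
    · exact ⟨l, hx.1⟩
  rcases hLeaf X (RBags M I Us Xs) (RLk pt Us) g hG.thin Z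
    ((ncard_le_ncard hZY (toFinite _)).trans hY) (fun x hx => by
      obtain ⟨z, hz⟩ := hZc x hx
      obtain ⟨ν, h1, h2, -⟩ := xgbluesrp_tog1 (I := I) (Xs := Xs) hp z hz hz
      exact ⟨ν, h1, h2⟩) ν0 hν0 with h | ⟨μ, hμ, ℓ, hℓ, hℓμ, ⟨s, hs⟩, hleaf⟩
  · exact .inl fun l hl x hx => h (.inr ⟨l, hl, hx⟩)
  right
  -- at most one class meets the link
  have hone : ∀ z z' : CI pt Us, (z.1.2 ∩ ℓ).Nonempty → (z'.1.2 ∩ ℓ).Nonempty → z = z' := by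
    rintro z z' ⟨x, hx, hx'⟩ ⟨y, hy, hy'⟩
    rcases hℓ with rfl | ⟨v, rfl⟩ | ⟨w, hw, rfl⟩
    · exact hx'.elim
    · rw [mem_singleton_iff] at hx' hy'
      subst hx' hy'
      exact xgbluesrp_dis hG hx hy
    · have h1 := xgbluesrp_cells hG z.2.2 hw hx hx'
      have h2 : z.1.2 = w.2 := congrArg Prod.snd h1
      exact xgbluesrp_dis hG (h2 ▸ hy') hy
  -- a class with a free point lies in the leaf
  have hin : ∀ l ∈ 𝒮, ∀ x ∈ l.1.2 ∩ Y, x ∈ μ → x ∉ ℓ → l.1.2 ∩ Y ⊆ μ :=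
    fun l hl x hx h1 h2 y hy => (hleaf x ⟨⟨.inr ⟨l, hl, hx⟩, h1⟩, h2⟩).2 y (.inr ⟨l, hl, hy⟩)
      (xgbluesrp_tog1 hp l hx.1 hy.1)
  -- ports at free points
  have hport : ∀ l ∈ 𝒮, ∀ p ∈ (l.1.2 ∩ Y ∩ Pt) ∪ Port (Γ \ RΓ) (l.1.2 ∩ Y)
      (R ∪ Oth (fun z : CI pt Us => z.1.2 ∩ Y) 𝒮 l), p ∈ μ → p ∉ ℓ →
      ∃ z : CI pt Us, (z ∈ {z | z ∈ 𝒮 ∧ (z.1.2 ∩ Y ∩ μ).Nonempty ∧ ¬ (z.1.2 ∩ ℓ).Nonempty} ∨
        z ∈ {z : CI pt Us | (z.1.2 ∩ ℓ).Nonempty}) ∧ z ≠ l ∧ ∃ q ∈ z.1.2, (Γ \ RΓ).Adj p q := by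
    intro l hl p hpp h1 h2
    have hpl : p ∈ l.1.2 ∩ Y := by
      rcases hpp with h | h
      · exact h.1
      · exact h.1
    obtain ⟨h3, h4⟩ := hleaf p ⟨⟨.inr ⟨l, hl, hpl⟩, h1⟩, h2⟩
    rcases hpp with h | ⟨-, (h | ⟨z, -, hz, h⟩) | ⟨q, hq, -, hadj⟩⟩
    · exact absurd (hPt h.2) h3
    · exact absurd (hR h) h3
    · exact absurd (xgbluesrp_dis hG h.1 hpl.1) hz
    have hqZ : q ∈ Z := by
      rcases hq with hq | ⟨z, hz, -, hq⟩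
      · exact .inl hq
      · exact .inr ⟨z, hz, hq⟩
    rcases hq with hq | ⟨z, hz, hne, hq⟩
    · obtain ⟨-, z, hz, hqz⟩ := hRc q hq
      have hqμ := h4 q hqZ (xgbluesrp_tog2 hG hp l z hpl.1 hqz hadj)
      refine ⟨z, .inr ⟨q, hqz, ?_⟩, fun e => hz (e ▸ hl), q, hqz, hadj⟩
      by_contra h5
      exact (hleaf q ⟨⟨hqZ, hqμ⟩, h5⟩).1 (hR hq)
    · have hqμ := h4 q hqZ (xgbluesrp_tog2 hG hp l z hpl.1 hq.1 hadj)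
      refine ⟨z, ?_, hne, q, hq.1, hadj⟩
      by_cases h5 : (z.1.2 ∩ ℓ).Nonempty
      · exact .inr h5
      · exact .inl ⟨hz, ⟨q, hq, hqμ⟩, h5⟩
  obtain ⟨l1, hl1, hs1⟩ : ∃ l ∈ 𝒮, s ∈ l.1.2 ∩ Y := by
    rcases hs.1.1 with h | h
    · exact absurd (hR h) (hleaf s hs).1
    · exact h
  have hl1μ := hin l1 hl1 s hs1 hs.1.2 hs.2
  rcases hμ with ⟨υ, hυ, rfl⟩ | ⟨ξ, hξ, rfl⟩
  swap
  · obtain ⟨υ, hυ, h⟩ := xgbluesrp_body hp l1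
    exact absurd ((hG.xu ξ hξ υ hυ).anti fun x hx =>
      ⟨hl1μ hx, image_subset_range _ _ (h hx.1)⟩) (hbig l1 hl1)
  by_cases hT : {z : CI pt Us | z ∈ 𝒮 ∧ (z.1.2 ∩ Y ∩ υ '' M.supportᶜ).Nonempty ∧
      ¬ (z.1.2 ∩ ℓ).Nonempty}.Nonempty
  · obtain ⟨l, hl, hsub⟩ := xgbluesrp_pull hG hp hK hυ _ {z : CI pt Us | (z.1.2 ∩ ℓ).Nonempty} hT
      (fun z hz z' hz' => hone z z' hz hz') (fun c hc h => h.2.2 hc) (by
        rintro z (⟨-, ⟨x, hx, hx'⟩, -⟩ | ⟨x, hx, hx'⟩)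
        · exact ⟨x, hx.1, image_subset_range _ _ hx'⟩
        · exact ⟨x, hx, image_subset_range _ _ (hℓμ hx')⟩)
    refine ⟨l, hl.1, hsub.anti fun p hpp => ?_⟩
    have hpl : p ∈ l.1.2 ∩ Y := by
      rcases hpp with h | h
      · exact h.1
      · exact h.1
    obtain ⟨x, hx, hx'⟩ := hl.2.1
    exact ⟨hpl.1, hport l hl.1 p hpp (hin l hl.1 x hx hx' (fun h => hl.2.2 ⟨x, hx.1, h⟩) hpl)
      fun h => hl.2.2 ⟨p, hpl.1, h⟩⟩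
  · have hm : (l1.1.2 ∩ ℓ).Nonempty := by
      by_contra h
      exact hT ⟨l1, hl1, ⟨s, hs1, hs.1.2⟩, h⟩
    have hℓs : ℓ.Subsingleton := by
      rcases hℓ with rfl | ⟨v, rfl⟩ | ⟨w, hw, rfl⟩
      · exact subsingleton_empty
      · exact subsingleton_singleton
      · obtain ⟨x, hx, hx'⟩ := hm
        have h1 := xgbluesrp_cells hG l1.2.2 hw hx hx'
        have h2 : l1.1.2 = w.2 := congrArg Prod.snd h1
        exact absurd (h2 ▸ hs1.1) hs.2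
    refine ⟨l1, hl1, hℓs.anti fun p hpp => ?_⟩
    have hpl : p ∈ l1.1.2 ∩ Y := by
      rcases hpp with h | h
      · exact h.1
      · exact h.1
    by_contra h
    obtain ⟨z, hz | hz, hne, -⟩ := hport l1 hl1 p hpp (hl1μ hpl) h
    · exact hT ⟨z, hz⟩
    · exact hne (hone z l1 hz hm)

end

theorem gBlueSRP_stmt (hRP : RPStmt) (hLeaf : LeafStmt) : GBlueSRPStmt := by
  intro U X L _ _ _ A M I pt Γ RΓ Hub Hs Us Xs g K hG hp hK Y hY _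
  have hdis : ∀ l l' : CI pt Us, l ≠ l' → Disjoint (l.1.2 ∩ Y) (l'.1.2 ∩ Y) := fun l l' h =>
    disjoint_left.2 fun x hx hx' => h (xgbluesrp_dis hG hx.1 hx'.1)
  have hR := hRP X (CI pt Us) (Γ \ RΓ) (fun z => z.1.2 ∩ Y) {r | False ∧ r ∈ Y}
  have h1 : RP (Γ \ RΓ) (fun z : CI pt Us => z.1.2 ∩ Y) {r | False ∧ r ∈ Y} := by
    refine hR.2.1 ?_
    rintro 𝒮 R0 hn (⟨l0, hl0, rfl⟩ | ⟨r, hr, -⟩)
    swap
    · exact hr.1.elim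
    by_cases hbig : ∀ l ∈ 𝒮, ¬ (l.1.2 ∩ Y).Subsingleton
    swap
    · push Not at hbig
      obtain ⟨l, hl, h⟩ := hbig
      exact ⟨l, hl, h.anti fun p hpp => hpp.1⟩
    obtain ⟨υ, hυ, hb⟩ := xgbluesrp_body hp l0
    rcases xgbluesrp_main hLeaf hG hp hK hY 𝒮 (l0.1.2 ∩ Y) ∅ _ (.inl ⟨υ, hυ, rfl⟩)
      (fun x hx => hb hx.1) (empty_subset _) (fun q hq => ⟨hq.2, l0, hl0, hq.1⟩) hbig with
      h | ⟨l, hl, h⟩
    · obtain ⟨l, hl, hsub⟩ := xgbluesrp_pull hG hp hK hυ 𝒮 {l0} hn subsingleton_singleton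
        (by
          rintro c rfl
          exact hl0) (by
          rintro z (hz | rfl)
          · obtain ⟨x, hx, -⟩ := not_subsingleton_iff.1 (hbig z hz)
            exact ⟨x, hx.1, image_subset_range _ _ (h z hz hx)⟩
          · obtain ⟨x, hx⟩ := z.2.1
            exact ⟨x, hx, image_subset_range _ _ (hb hx)⟩)
      refine ⟨l, hl, hsub.anti ?_⟩
      have hne : l0 ≠ l := fun e => hl0 (e ▸ hl)
      rintro p ⟨hpl, (h2 | ⟨z, -, hz, h2⟩) | ⟨q, hq | ⟨z, hz, hz', hq⟩, -, hadj⟩⟩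
      · exact absurd (xgbluesrp_dis hG h2.1 hpl.1) hne
      · exact absurd (xgbluesrp_dis hG h2.1 hpl.1) hz
      · exact ⟨hpl.1, l0, .inr rfl, hne, q, hq.1, hadj⟩
      · exact ⟨hpl.1, z, .inl hz, hz', q, hq.1, hadj⟩
    · exact ⟨l, hl, h.anti subset_union_right⟩
  refine ⟨h1, ?_⟩
  rintro 𝒮 Pt hn ⟨-, hPt | ⟨a, b, ha, -, hab, hPt⟩⟩
  · exact hR.2.2.1 h1 hdis 𝒮 Pt hn hPt
  by_cases hbig : ∀ l ∈ 𝒮, ¬ (l.1.2 ∩ Y).Subsingleton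
  swap
  · push Not at hbig
    obtain ⟨l, hl, h⟩ := hbig
    refine ⟨l, hl, h.anti ?_⟩
    rintro p (hpp | hpp)
    · exact hpp.1
    · exact hpp.1
  obtain ⟨ξ, hξ, h2, h3⟩ := hG.rcov a b hab ha
  rcases xgbluesrp_main hLeaf hG hp hK hY 𝒮 ∅ Pt _ (.inr ⟨ξ, hξ, rfl⟩) (empty_subset _)
    (hPt.trans (by
      rintro x (rfl | rfl)
      exacts [h2, h3])) (fun q hq => hq.elim) hbig with h | ⟨l, hl, h⟩
  · obtain ⟨l, hl⟩ := hn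
    obtain ⟨υ, hυ, hb⟩ := xgbluesrp_body hp l
    exact absurd ((hG.xu ξ hξ υ hυ).anti fun x hx =>
      ⟨h l hl hx, image_subset_range _ _ (hb hx.1)⟩) (hbig l hl)
  · rw [empty_union] at h
    exact ⟨l, hl, h⟩

end Pool.Agent.MP_1c0fc2_co.RE
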