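import Pool.Agent.MP_1c0fc2_co.RE.Basic

/-! Local peelability of the red classes of the middle graph. -/

open Function Set Relation

namespace Pool.Agent.MP_1c0fc2_co.RE

section
variable {U X Q L : Type} {A M : SimpleGraph U} {I : Set U} {pt : U → Option Q}
  {Γ RΓ : SimpleGraph X} {Hub : Set X} {Hs Us Xs : Set (U → X)} {g : ℕ} {K : L → Set U}
  {Y R0 : Set X}

/-- the traces of the red classes on `Y` -/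
def xgredrp_K (I : Set U) (Xs : Set (U → X)) (K : L → Set U) (Y : Set X) (z : Xs × L) : Set X :=
  z.1.1 '' (K z.2 \ I) ∩ Y

theorem xgredrp_sub (z : Xs × L) : xgredrp_K I Xs K Y z ⊆ z.1.1 '' Iᶜ :=
  fun _ ⟨⟨a, ha, e⟩, _⟩ => ⟨a, ha.2, e⟩

theorem xgredrp_bag {ξ : U → X} (hξ : ξ ∈ Xs) : ξ '' Iᶜ ∈ RBags M I Us Xs := .inr ⟨ξ, hξ, rfl⟩

theorem xgredrp_same (h : Gam A M I pt Γ RΓ Hub Hs Us Xs g) {ξ ξ' : U → X} (hξ : ξ ∈ Xs)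
    (hξ' : ξ' ∈ Xs) {S : Set X} (hS : ¬ S.Subsingleton) (h1 : S ⊆ ξ '' Iᶜ) (h2 : S ⊆ ξ' '' Iᶜ) :
    ξ = ξ' := by
  by_contra e
  exact hS ((h.xx ξ hξ ξ' hξ' e).anti (subset_inter h1 h2))

theorem xgredrp_port {V : Type} {J : SimpleGraph V} {S T : Set V} : Port J S T ⊆ S :=
  fun _ h => h.1

/-- transfer of ports to `A` -/
theorem xgredrp_transfer (h : Gam A M I pt Γ RΓ Hub Hs Us Xs g) (hd : Disjoint Y Hub)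
    (hR0 : R0 ⊆ Y) {𝒮 : Set (Xs × L)} (hns : ∀ z ∈ 𝒮, ¬ (xgredrp_K I Xs K Y z).Subsingleton)
    (ξ : Xs) {R : Set U}
    (H : ∀ a ∉ I, ξ.1 a ∈ R0 ∪ {x | ∃ z ∈ 𝒮, x ∈ xgredrp_K I Xs K Y z} → a ∈ R ∨ (ξ.1 a ∉ R0 ∧
      ∀ x ∈ R0 ∪ {x | ∃ z ∈ 𝒮, x ∈ xgredrp_K I Xs K Y z}, Tog (RBags M I Us Xs) (ξ.1 a) x →
        x ∈ ξ.1 '' Iᶜ)) {l : L} (hl : (ξ, l) ∈ 𝒮) :
    Port RΓ (xgredrp_K I Xs K Y (ξ, l)) (R0 ∪ Oth (xgredrp_K I Xs K Y) 𝒮 (ξ, l)) ⊆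
      ξ.1 '' Port A (K l) (R ∪ Oth K {l' | (ξ, l') ∈ 𝒮} l) := by
  have hZ : R0 ∪ Oth (xgredrp_K I Xs K Y) 𝒮 (ξ, l) ⊆
      R0 ∪ {x | ∃ z ∈ 𝒮, x ∈ xgredrp_K I Xs K Y z} :=
    union_subset_union_right _ fun _ ⟨z, h1, _, h2⟩ => ⟨z, h1, h2⟩
  have hinj := (h.xind ξ.1 ξ.2).1
  have key : ∀ b ∉ I, ξ.1 b ∈ R0 ∪ Oth (xgredrp_K I Xs K Y) 𝒮 (ξ, l) →
      b ∈ R ∪ Oth K {l' | (ξ, l') ∈ 𝒮} l := by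
    intro b hb hm
    rcases H b hb (hZ hm) with h1 | ⟨h1, h2⟩
    · exact .inl h1
    obtain ⟨⟨ξ', l'⟩, z1, z2, z3⟩ := hm.resolve_left h1
    have e : ξ'.1 = ξ.1 := xgredrp_same h ξ'.2 ξ.2 (hns _ z1) (xgredrp_sub _) fun x hx =>
      h2 x (.inr ⟨_, z1, hx⟩) ⟨_, xgredrp_bag ξ'.2, xgredrp_sub _ z3, xgredrp_sub _ hx⟩
    obtain rfl : ξ' = ξ := Subtype.ext e
    obtain ⟨⟨c, hc, e'⟩, -⟩ := z3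
    obtain rfl : c = b := hinj hc.2 hb e'
    exact .inr ⟨l', z1, fun e => z2 (by rw [e]), hc.1⟩
  rintro _ ⟨⟨⟨a, ha, rfl⟩, hY⟩, hp⟩
  refine ⟨a, ⟨ha.1, ?_⟩, rfl⟩
  rcases hp with hp | ⟨q, q1, q2, q3⟩
  · exact .inl (key a ha.2 hp)
  rcases H a ha.2 (.inr ⟨_, hl, ⟨a, ha, rfl⟩, hY⟩) with h1 | ⟨-, h2⟩
  · exact .inl (.inl h1)
  obtain ⟨ξ', x1, x2, x3⟩ := h.rcov _ _ q3 (disjoint_left.1 hd hY)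
  obtain ⟨b, hb, rfl⟩ := h2 q (hZ q1) ⟨_, xgredrp_bag x1, x2, x3⟩
  have hbY : ξ.1 b ∈ Y := by
    rcases q1 with q1 | ⟨z, -, -, q1⟩
    exacts [hR0 q1, q1.2]
  exact .inr ⟨b, key b hb q1, fun hbK => q2 ⟨⟨b, ⟨hbK, hb⟩, rfl⟩, hbY⟩,
    ((h.xind ξ.1 ξ.2).2 a ha.2 b hb).1 (h.le q3)⟩

/-- peeling a leaf of the frame -/
theorem xgredrp_core [Finite X] (hLeaf : LeafStmt)
    (h : Gam A M I (fun _ => (none : Option Q)) Γ RΓ Hub Hs Us Xs g) (hK : RP A K univ)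
    (hY : Y.ncard ≤ g) (hd : Disjoint Y Hub) (hR0 : R0 ⊆ Y) {𝒮 : Set (Xs × L)}
    (hns : ∀ z ∈ 𝒮, ¬ (xgredrp_K I Xs K Y z).Subsingleton) {ν0 : Set X}
    (h0 : ν0 ∈ RBags M I Us Xs) (hR : R0 ⊆ ν0) :
    R0 ∪ {x | ∃ z ∈ 𝒮, x ∈ xgredrp_K I Xs K Y z} ⊆ ν0 ∨ ∃ z ∈ 𝒮,
      (Port RΓ (xgredrp_K I Xs K Y z) (R0 ∪ Oth (xgredrp_K I Xs K Y) 𝒮 z)).Subsingleton := by
  have hZY : R0 ∪ {x | ∃ z ∈ 𝒮, x ∈ xgredrp_K I Xs K Y z} ⊆ Y :=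
    union_subset hR0 fun _ ⟨_, _, hx⟩ => hx.2
  rcases hLeaf X _ _ g h.thin _ ((ncard_le_ncard hZY (toFinite _)).trans hY)
    (by
      rintro x (hx | ⟨z, -, hx⟩)
      exacts [⟨ν0, h0, hR hx⟩, ⟨_, xgredrp_bag z.1.2, xgredrp_sub _ hx⟩]) ν0 h0 with
    h1 | ⟨μ, hμ, ℓ, l1, l2, ⟨s, hs⟩, l3⟩
  · exact .inl h1
  refine .inr ?_
  have hℓ : ℓ.Subsingleton := by
    rcases l1 with rfl | ⟨v, rfl⟩ | ⟨z, ⟨υ, -, e⟩, rfl⟩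
    · exact subsingleton_empty
    · exact subsingleton_singleton
    · rw [e]
      rintro _ ⟨_, hu, -⟩
      exact absurd hu (by simp)
  obtain ⟨⟨ξ, l⟩, z1, z2⟩ := hs.1.1.resolve_left fun hs' => (l3 s hs).1 (hR hs')
  have hsub : xgredrp_K I Xs K Y (ξ, l) ⊆ μ := fun x hx =>
    (l3 s hs).2 x (.inr ⟨_, z1, hx⟩) ⟨_, xgredrp_bag ξ.2, xgredrp_sub _ z2, xgredrp_sub _ hx⟩
  obtain rfl : μ = ξ.1 '' Iᶜ := by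
    rcases hμ with ⟨υ, hυ, rfl⟩ | ⟨ξ', hξ', rfl⟩
    · exact absurd ((h.xu ξ.1 ξ.2 υ hυ).anti (subset_inter (xgredrp_sub _)
        (hsub.trans (image_subset_range _ _)))) (hns _ z1)
    · rw [xgredrp_same h hξ' ξ.2 (hns _ z1) hsub (xgredrp_sub _)]
  have hinj := (h.xind ξ.1 ξ.2).1
  obtain ⟨l', m1, m2⟩ := hK {l' | (ξ, l') ∈ 𝒮} {a | a ∉ I ∧ ξ.1 a ∈ ℓ} ⟨l, z1⟩ (by
    have hs : {a | a ∉ I ∧ ξ.1 a ∈ ℓ}.Subsingleton := fun a ha b hb =>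
      hinj ha.1 hb.1 (hℓ ha.2 hb.2)
    rcases hs.eq_empty_or_singleton with e | ⟨r, e⟩
    exacts [.inl e, .inr (.inr ⟨r, trivial, e⟩)])
  refine ⟨_, m1, (m2.image ξ.1).anti (xgredrp_transfer h hd hR0 hns ξ (fun a ha hm => ?_) m1)⟩
  by_cases e : ξ.1 a ∈ ℓ
  · exact .inl ⟨ha, e⟩
  · have := l3 _ ⟨⟨hm, a, ha, rfl⟩, e⟩
    exact .inr ⟨fun h' => this.1 (hR h'), this.2⟩

/-- roots inside a red part -/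
theorem xgredrp_root [Finite X] (hLeaf : LeafStmt)
    (h : Gam A M I (fun _ => (none : Option Q)) Γ RΓ Hub Hs Us Xs g) (hK : RP A K univ)
    (hY : Y.ncard ≤ g) (hd : Disjoint Y Hub) (hR0 : R0 ⊆ Y) {𝒮 : Set (Xs × L)} (hne : 𝒮.Nonempty)
    (ξ : Xs) {R : Set U} (hR : R0 ⊆ ξ.1 '' (R \ I))
    (hroot : R = ∅ ∨ (∃ l0, (ξ, l0) ∉ 𝒮 ∧ R = K l0) ∨ ∃ r ∈ (univ : Set U), R = {r}) :
    ∃ z ∈ 𝒮,
      (Port RΓ (xgredrp_K I Xs K Y z) (R0 ∪ Oth (xgredrp_K I Xs K Y) 𝒮 z)).Subsingleton := by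
  by_cases hns : ∀ z ∈ 𝒮, ¬ (xgredrp_K I Xs K Y z).Subsingleton
  swap
  · push Not at hns
    obtain ⟨z, z1, z2⟩ := hns
    exact ⟨z, z1, z2.anti xgredrp_port⟩
  rcases xgredrp_core hLeaf h hK hY hd hR0 hns (xgredrp_bag ξ.2)
    (hR.trans (image_mono fun _ ha => ha.2)) with h1 | h1
  swap
  · exact h1
  obtain ⟨⟨ξ', l⟩, z1⟩ := hne
  obtain rfl : ξ' = ξ := Subtype.ext (xgredrp_same h ξ'.2 ξ.2 (hns _ z1) (xgredrp_sub _)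
    fun x hx => h1 (.inr ⟨_, z1, hx⟩))
  obtain ⟨l', m1, m2⟩ := hK {l' | (ξ', l') ∈ 𝒮} R ⟨l, z1⟩ hroot
  refine ⟨_, m1, (m2.image ξ'.1).anti (xgredrp_transfer h hd hR0 hns ξ' (fun a ha _ => ?_) m1)⟩
  by_cases e : ξ'.1 a ∈ R0
  · obtain ⟨b, hb, e'⟩ := hR e
    obtain rfl : b = a := (h.xind ξ'.1 ξ'.2).1 hb.2 ha e'
    exact .inl hb.1
  · exact .inr ⟨e, fun x hx _ => h1 hx⟩

theorem xgredrp_rp [Finite X] (hLeaf : LeafStmt)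
    (h : Gam A M I (fun _ => (none : Option Q)) Γ RΓ Hub Hs Us Xs g) (hK : RP A K univ)
    (hY : Y.ncard ≤ g) (hd : Disjoint Y Hub) :
    RP RΓ (xgredrp_K I Xs K Y) {r | True ∧ r ∈ Y} := by
  have hemp : ∀ 𝒮 : Set (Xs × L), 𝒮.Nonempty → ∃ z ∈ 𝒮,
      (Port RΓ (xgredrp_K I Xs K Y z) (∅ ∪ Oth (xgredrp_K I Xs K Y) 𝒮 z)).Subsingleton :=
    fun 𝒮 hne => xgredrp_root (R := ∅) hLeaf h hK hY hd (empty_subset _) hne hne.some.1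
      (empty_subset _) (.inl rfl)
  rintro 𝒮 _ hne (rfl | ⟨⟨ξ, l0⟩, h1, rfl⟩ | ⟨r, hr, rfl⟩)
  · exact hemp 𝒮 hne
  · exact xgredrp_root hLeaf h hK hY hd inter_subset_right hne ξ inter_subset_left
      (.inr (.inl ⟨l0, h1, rfl⟩))
  by_cases hx : ∃ ξ ∈ Xs, r ∈ ξ '' Iᶜ
  · obtain ⟨ξ, hξ, u, hu, rfl⟩ := hx
    exact xgredrp_root (R := {u}) hLeaf h hK hY hd (singleton_subset_iff.2 hr.2) hne ⟨ξ, hξ⟩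
      (singleton_subset_iff.2 ⟨u, ⟨rfl, hu⟩, rfl⟩) (.inr (.inr ⟨u, trivial, rfl⟩))
  obtain ⟨z, z1, z2⟩ := hemp 𝒮 hne
  refine ⟨z, z1, z2.anti ?_⟩
  rintro p ⟨p1, (rfl | p2) | ⟨q, rfl | q1, q2, q3⟩⟩
  · exact absurd ⟨_, z.1.2, xgredrp_sub _ p1⟩ hx
  · exact ⟨p1, .inl (.inr p2)⟩
  · obtain ⟨ξ, x1, -, x3⟩ := h.rcov _ _ q3 (disjoint_left.1 hd p1.2)
    exact absurd ⟨ξ, x1, x3⟩ hx
  · exact ⟨p1, .inr ⟨q, .inr q1, q2, q3⟩⟩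

end

theorem gRedRP_stmt (hRP : RPStmt) (hLeaf : LeafStmt) : GRedRPStmt := by
  intro U X Q L _ _ _ A M I Γ RΓ Hub Hs Us Xs g K h hK Y hY hd
  have h1 := xgredrp_rp hLeaf h hK hY hd
  refine ⟨h1, ?_⟩
  rintro 𝒮 Pt hne ⟨hP, hs | ⟨a, b, ha, hb, hab, hs⟩⟩
  · exact (hRP X (Xs × L) RΓ _ _).2.2.2.1 h1 𝒮 Pt hne ⟨hs, fun x hx => ⟨trivial, hP hx⟩⟩
  by_cases hns : ∀ z ∈ 𝒮, ¬ (xgredrp_K I Xs K Y z).Subsingleton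
  swap
  · push Not at hns
    obtain ⟨z, z1, z2⟩ := hns
    exact ⟨z, z1, z2.anti (union_subset inter_subset_left xgredrp_port)⟩
  obtain ⟨υ, hυ, ⟨a', rfl⟩, b', rfl⟩ := h.bcov a b hab
  rcases xgredrp_core hLeaf h hK hY hd hP hns (.inl ⟨υ, hυ, rfl⟩) (hs.trans (pair_subset
    ⟨a', fun e => ha ((h.uhub υ hυ a').2 e), rfl⟩ ⟨b', fun e => hb ((h.uhub υ hυ b').2 e), rfl⟩))
    with h2 | ⟨z, z1, z2⟩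
  · obtain ⟨z, z1⟩ := hne
    exact absurd ((h.xu z.1.1 z.1.2 υ hυ).anti (subset_inter (xgredrp_sub _)
      fun x hx => image_subset_range _ _ (h2 (.inr ⟨z, z1, hx⟩)))) (hns z z1)
  refine ⟨z, z1, z2.anti ?_⟩
  rintro p (⟨p1, p2⟩ | ⟨p1, p2 | ⟨q, q1, q2⟩⟩)
  exacts [⟨p1, .inl (.inl p2)⟩, ⟨p1, .inl (.inr p2)⟩, ⟨p1, .inr ⟨q, .inr q1, q2⟩⟩]

end Pool.Agent.MP_1c0fc2_co.RE
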