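import Pool.Agent.MP_1c0fc2_co.RE.Basic

/-! Red parts of the middle graph. -/

open Function Set Relation

namespace Pool.Agent.MP_1c0fc2_co.RE

section
variable {U X Q : Type} {A M : SimpleGraph U} {I : Set U} {pt : U → Option Q}
  {Γ RΓ : SimpleGraph X} {Hub : Set X} {Hs Us Xs : Set (U → X)} {g : ℕ}

theorem xgx_red (h : Gam A M I pt Γ RΓ Hub Hs Us Xs g) {x y : X} (hx : x ∉ Hub)
    (e : RΓ.Adj x y) : Tog (RBags M I Us Xs) x y := by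
  obtain ⟨ξ, h1, h2⟩ := h.rcov x y e hx
  exact ⟨_, .inr ⟨ξ, h1, rfl⟩, h2⟩

theorem xgx_tog (h : Gam A M I pt Γ RΓ Hub Hs Us Xs g) {x y : X} (hx : x ∉ Hub) (hy : y ∉ Hub)
    (e : Γ.Adj x y) : Tog (RBags M I Us Xs) x y := by
  by_cases e' : RΓ.Adj x y
  · exact xgx_red h hx e'
  · obtain ⟨υ, h1, ⟨a, rfl⟩, b, rfl⟩ := h.bcov x y ⟨e, e'⟩
    exact ⟨_, .inl ⟨υ, h1, rfl⟩, ⟨a, fun k => hx ((h.uhub υ h1 a).2 k), rfl⟩,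
      b, fun k => hy ((h.uhub υ h1 b).2 k), rfl⟩

theorem xgx_at (h : Gam A M I pt Γ RΓ Hub Hs Us Xs g) {ξ : U → X} (hξ : ξ ∈ Xs) {C : Set X}
    (h1 : C.ncard ≤ g) (h2 : Disjoint C (ξ '' Iᶜ)) (h3 : ConnOn (Tog (RBags M I Us Xs)) C) :
    (At (RBags M I Us Xs) (ξ '' Iᶜ) C).Subsingleton := by
  rcases h.thin _ (.inr ⟨ξ, hξ, rfl⟩) C h1 h2 h3 with e | ⟨ℓ, l1, l2, l3, -⟩
  · rw [e]
    exact subsingleton_empty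
  · rcases l1 with ⟨v, rfl⟩ | ⟨z, ⟨υ, hυ, hz⟩, rfl⟩
    · exact subsingleton_singleton.anti l2
    · refine (h.xu ξ hξ υ hυ).anti (l2.trans (subset_inter l3 ?_))
      rw [hz]
      exact image_subset_range _ _

end

theorem gx_stmt : GXStmt := by
  intro U X Q _ _ A M I pt Γ RΓ Hub Hs Us Xs g h
  refine ⟨fun S h1 h2 h3 ⟨a, ha, b, hb, e⟩ => ?_, fun hg ξ hξ a ha b hb hab w e1 e2 => ?_⟩
  · have hS : ∀ x ∈ S, x ∉ Hub := fun x hx => disjoint_left.1 h2 hx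
    obtain ⟨ξ, hξ, k1, k2⟩ := h.rcov a b e (hS a ha)
    refine ⟨ξ, hξ, fun c hc => ?_⟩
    by_contra hc'
    obtain ⟨u, hu, v, hv, huv, ⟨d, hd, e1⟩, d', hd', e2⟩ :=
      h3.two_nb (Y := ξ '' Iᶜ) (fun k => e.ne (k ⟨ha, k1⟩ ⟨hb, k2⟩)) ⟨hc, hc'⟩
    have hD : ∀ x ∈ comp Γ.Adj (S \ ξ '' Iᶜ) c, x ∈ S := fun x hx => (comp_sub hx).1
    refine huv (xgx_at h hξ ((ncard_le_ncard hD).trans h1)
      (disjoint_left.2 fun x hx => (comp_sub hx).2)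
      ((comp_conn (adj_symm' Γ)).mono fun x hx y hy k =>
        xgx_tog h (hS x (hD x hx)) (hS y (hD y hy)) k)
      ⟨hu.2, d, hd, xgx_tog h (hS u hu.1) (hS d (hD d hd)) e1⟩
      ⟨hv.2, d', hd', xgx_tog h (hS v hv.1) (hS d' (hD d' hd')) e2⟩)
  · by_contra hw
    have hX : ∀ x ∈ ξ '' Iᶜ, x ∉ Hub := by
      rintro _ ⟨y, hy, rfl⟩
      exact h.xhub ξ hξ y hy
    exact hab (xgx_at h hξ (C := {w}) (by rwa [ncard_singleton])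
      (disjoint_singleton_left.2 hw) (connOn_singleton w)
      ⟨ha, w, rfl, xgx_red h (hX a ha) e1.symm⟩ ⟨hb, w, rfl, xgx_red h (hX b hb) e2.symm⟩)

theorem xgx_card {W V : Type} {H : SimpleGraph W} {P : Par} {m : Mode} {J : SimpleGraph V}
    {S : Set V} (h : RO P H m J S) : S.ncard = P.vA ∨ S.ncard = P.θ := by
  cases m
  exacts [.inl h.1.2.1, .inr h.1.2, .inl h.2.1, .inr h.2]

theorem gRed_stmt (hK3 : K3Stmt) (hROMono : ROMonoStmt) (hGX : GXStmt) (hGRedRP : GRedRPStmt) :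
    GRedStmt := by
  intro W U X Q L _ _ _ _ H P hP m A M I Γ RΓ Hub Hs Us Xs g K s ⟨φ, hφ⟩ hg h hV
  obtain ⟨⟨k1, k2, k3, k4⟩, -⟩ := hK3 W U H P hP
  obtain ⟨x1, x2⟩ := hGX U X Q A M I _ Γ RΓ Hub Hs Us Xs g h
  have adj : ∀ ξ ∈ Xs, ∀ x ∈ Iᶜ, ∀ y ∈ Iᶜ, RΓ.Adj (ξ x) (ξ y) → A.Adj x y :=
    fun ξ hξ x hx y hy e => ((h.xind ξ hξ).2 x hx y hy).1 (h.le e)
  have pull : ∀ ξ ∈ Xs, ∀ S, S ⊆ ξ '' Iᶜ → RO P H m RΓ S → RO P H m A (Iᶜ ∩ ξ ⁻¹' S) := by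
    intro ξ hξ S hS hR
    obtain ⟨k, p1, p2, -⟩ := exists_pull (J := A) (J' := RΓ) (h.xind ξ hξ).1 (adj ξ hξ) hS
      hR.two.nonempty
    rw [← p2]
    exact hROMono W X U H P hP m RΓ A k φ S (p1.sub hS) (hφ.on _) hR
  refine ⟨fun S hS hR => ?_, fun ⟨⟨ξ, hξ⟩, l⟩ => ?_, ?_,
    hGRedRP U X Q L A M I Γ RΓ Hub Hs Us Xs g K h hV.fam.rp⟩
  · obtain ⟨ξ, hξ, hs⟩ := x1 S (by rcases xgx_card hR with e | e <;> omega) hS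
      (hR.two.mono fun _ _ _ _ e => h.le e) hR.two.edge
    obtain ⟨l, hl⟩ := hV.fam.cov _ (pull ξ hξ S hs hR)
    refine ⟨(⟨ξ, hξ⟩, l), fun x hx => ?_⟩
    obtain ⟨y, hy, rfl⟩ := hs hx
    exact ⟨y, ⟨hl ⟨hy, hx⟩, hy⟩, rfl⟩
  · refine le_trans (ncard_le_ncard (t := ξ '' (RW A (RO P H m A) (K l) \ I)) ?_)
      ((ncard_image_le (toFinite _)).trans (hV.wt l))
    rintro w ⟨O, hO, hOK, hw⟩
    have hO' : O ⊆ ξ '' Iᶜ := hOK.trans (image_mono fun _ k => k.2)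
    have hK : Iᶜ ∩ ξ ⁻¹' O ⊆ K l := by
      rintro y ⟨hy, hy'⟩
      obtain ⟨z, hz, e⟩ := hOK hy'
      rw [← (h.xind ξ hξ).1 hz.2 hy e]
      exact hz.1
    rcases hw with hw | ⟨a, ha, b, hb, hab, e1, e2⟩
    · obtain ⟨y, hy, rfl⟩ := hO' hw
      exact ⟨y, ⟨⟨_, pull ξ hξ O hO' hO, hK, .inl ⟨hy, hw⟩⟩, hy⟩, rfl⟩
    · obtain ⟨y, hy, rfl⟩ := x2 (by omega) ξ hξ a (hO' ha) b (hO' hb) hab w e1 e2
      obtain ⟨a, ha', rfl⟩ := hO' ha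
      obtain ⟨b, hb', rfl⟩ := hO' hb
      exact ⟨y, ⟨⟨_, pull ξ hξ O hO' hO, hK, .inr ⟨a, ⟨ha', ha⟩, b, ⟨hb', hb⟩,
        fun e => hab (congrArg ξ e), adj ξ hξ y hy a ha' e1, adj ξ hξ y hy b hb' e2⟩⟩, hy⟩, rfl⟩
  · rintro ⟨⟨ξ, hξ⟩, l⟩ _ ⟨a, ha, rfl⟩ _ ⟨b, hb, rfl⟩ e
    exact h.xred ξ hξ a ha.2 b hb.2 (((h.xind ξ hξ).2 a ha.2 b hb.2).1 e)

end Pool.Agent.MP_1c0fc2_co.RE
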