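import Pool.Agent.MP_1c0fc2_co.RE.GamP

/-! The middle graph. -/

open Function Set Relation

namespace Pool.Agent.MP_1c0fc2_co.RE

namespace GamC

variable {U Q : Type} {A M : SimpleGraph U} {I : Set U} {pt : U → Option Q}
variable {F H : MH (prof A M pt)} (un : Un A M I → F.E) {P : Type} (φ : P → MEmb F H) {g : ℕ}

def gR : SimpleGraph (XV H (RI A M P)) := gr A univ (Hs H _) ⊔ gr A Iᶜ (range (xi un φ))

def gG : SimpleGraph (XV H (RI A M P)) := gR un φ ⊔ gr A univ (Us H _)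

def Hub (H : MH (prof A M pt)) (R : Type) : Set (XV H R) := {x | ∃ h ∈ Hs H R, x ∈ range h}

variable {un φ} {p : P} {n : H.V} {d : H.E} {a b : U}

theorem uu_hub {R : Type} (hd : IsU d) : uu H R d a ∈ Hub H R ↔ a ∈ M.support := by
  constructor
  · rintro ⟨_, ⟨n, hn, rfl⟩, h⟩
    exact ow_hub (d := d) hn (Option.some_injective _ (own_hb.1 h))
  · intro ha
    obtain ⟨n, hn, e⟩ := hd.hub ha
    exact ⟨_, ⟨n, hn, rfl⟩, own_hb.2 (congrArg some e)⟩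

theorem blue_unit {x y : XV H (RI A M P)} (h : (gG un φ \ gR un φ).Adj x y) :
    ∃ d a b, IsU d ∧ x = uu H _ d a ∧ y = uu H _ d b := by
  obtain ⟨-, _, ⟨d, hd, rfl⟩, a, -, b, -, -, rfl, rfl⟩ := h.1.resolve_left h.2
  exact ⟨d, a, b, hd, rfl, rfl⟩

namespace Ctx
variable (c : Ctx I un φ g)
include c

theorem gR_uu (hd : IsU d) : (gR un φ).Adj (uu H _ d a) (uu H _ d b) ↔ M.Adj a b :=
  ⟨fun h => (gH_uu c.mat hd).1 (h.resolve_right c.gX_uu), fun h => .inl ((gH_uu c.mat hd).2 h)⟩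

theorem gG_uu (hd : IsU d) : (gG un φ).Adj (uu H _ d a) (uu H _ d b) ↔ A.Adj a b :=
  ⟨fun h => h.elim (fun h => c.imat.1 ((c.gR_uu hd).1 h)) (gU_uu c.imat.1 c.good.lin hd),
    fun h => .inr (gU_adj hd h)⟩

theorem xi_nhub {r : RI A M P} (ha : a ∉ I) : xi un φ r a ∉ Hub H _ := by
  rintro ⟨_, ⟨n, hn, rfl⟩, h⟩
  exact c.xi_hub hn ⟨a, ha, rfl⟩ h

theorem blue_tri (S : Set (XV H (RI A M P))) (h : Tri (gG un φ \ gR un φ) S) :
    ∃ υ ∈ Us H _, S ⊆ range υ := by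
  have same : ∀ d d' a b b', IsU d → IsU d' → (gG un φ \ gR un φ).Adj (uu H _ d a) (uu H _ d b) →
      ow H d a = ow H d b → uu H (RI A M P) d' b' = uu H _ d a →
      uu H (RI A M P) d b ∈ range (uu H _ d') := by
    intro d d' a b b' hd hd' e1 e2 e3
    by_cases k : d' = d
    · exact ⟨b, by rw [k]⟩
    obtain ⟨n, -, k1, k2, -, k3⟩ := ow_ne k (uu_eq.1 e3).1
    have k4 := ow_inl.2 ⟨k2, k3⟩
    by_cases hb : b ∈ M.support
    · exact absurd ((c.gR_uu hd).2 (ow_adj (isH_of hb (ow_inl.1 (e2.symm.trans k4)).2) k4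
        (e2.symm.trans k4) fun k => e1.ne (by rw [k]))) e1.2
    · exact ⟨b, (uu_move hb (e2.symm.trans k4) k1).symm⟩
  obtain ⟨x, y, z, h1, h2, h3, rfl⟩ := h
  obtain ⟨d1, a1, b1, u1, rfl, rfl⟩ := blue_unit h1
  obtain ⟨d2, a2, b2, u2, e1, rfl⟩ := blue_unit h2
  obtain ⟨d3, a3, b3, u3, e2, e3⟩ := blue_unit h3
  have fin : ∀ d, IsU d → uu H (RI A M P) d1 a1 ∈ range (uu H _ d) →
      uu H (RI A M P) d1 b1 ∈ range (uu H _ d) → uu H (RI A M P) d2 b2 ∈ range (uu H _ d) →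
      ∃ υ ∈ Us H (RI A M P), {uu H _ d1 a1, uu H _ d1 b1, uu H _ d2 b2} ⊆ range υ := by
    refine fun d hd k1 k2 k3 => ⟨_, ⟨d, hd, rfl⟩, ?_⟩
    rintro _ (rfl | rfl | rfl) <;> assumption
  by_cases k12 : d1 = d2
  · exact fin d1 u1 ⟨_, rfl⟩ ⟨_, rfl⟩ ⟨_, by rw [k12]⟩
  by_cases k13 : d1 = d3
  · exact fin d1 u1 ⟨_, rfl⟩ ⟨_, rfl⟩ ⟨_, by rw [k13, e3]⟩
  by_cases k23 : d2 = d3
  · exact fin d2 u2 ⟨_, e1.symm⟩ ⟨_, by rw [k23, e2]⟩ ⟨_, rfl⟩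
  obtain ⟨n1, p1, p2, p3, -, p4⟩ := ow_ne k12 (uu_eq.1 e1).1
  obtain ⟨n2, q1, q2, q3, -, q4⟩ := ow_ne k13 (uu_eq.1 e2).1
  obtain ⟨n3, r1, r2, r3, -⟩ := ow_ne k23 (uu_eq.1 e3).1
  by_cases m12 : n1 = n2
  · exact fin d2 u2 ⟨_, e1.symm⟩ (same d1 d2 a1 b1 a2 u1 u2 h1 (by rw [p1, q1, m12]) e1.symm)
      ⟨_, rfl⟩
  by_cases m13 : n1 = n3
  · exact fin d1 u1 ⟨_, rfl⟩ ⟨_, rfl⟩ (same d2 d1 a2 b2 a1 u2 u1 (e1 ▸ h2)
      (by rw [← (uu_eq.1 e1).1, p1, r1, m13]) e1)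
  by_cases m23 : n2 = n3
  · refine fin d1 u1 ⟨_, rfl⟩ ⟨_, rfl⟩ ?_
    rw [e3]
    exact same d3 d1 a3 b3 b1 u3 u1 (e2 ▸ e3 ▸ h3)
      (by rw [← (uu_eq.1 e2).1, ← (uu_eq.1 e3).1, q1, r1, m23]) e2
  exact (c.tri n1 n2 n3 d1 d2 d3 m12 m13 m23 p2 q2 p3 r2 q3 r3).elim (absurd · k12)
    fun h => h.elim (absurd · k13) (absurd · k23)

theorem inter {d d' : H.E} (hne : d ≠ d') (hd : IsU d) :
    range (uu H (RI A M P) d) ∩ range (uu H _ d') = ∅ ∨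
    (∃ h ∈ Hs H (RI A M P), range (uu H _ d) ∩ range (uu H _ d') ⊆ range h) ∨
    ∃ z ∈ Cells pt (Us H (RI A M P)), range (uu H _ d) ∩ range (uu H _ d') ⊆ z.2 := by
  refine (eq_empty_or_nonempty _).imp_right ?_
  rintro ⟨_, ⟨a, rfl⟩, a', e⟩
  obtain ⟨n, -, k1, k2, -⟩ := ow_ne hne (uu_eq.1 e.symm).1
  have key : ∀ b b', uu H (RI A M P) d' b' = uu H _ d b → ow H d b = .inl n := by
    intro b b' e
    obtain ⟨n', k3, k4, k5, -⟩ := ow_ne hne (uu_eq.1 e.symm).1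
    rw [k3, (by_contra fun k => hne (c.good.lin _ _ _ _ k k1 k4 k2 k5) : n = n')]
  rcases hn : H.kd n with k | q
  · refine .inl ⟨_, ⟨n, ⟨k, hn⟩, rfl⟩, ?_⟩
    rintro _ ⟨⟨b, rfl⟩, b', e⟩
    exact own_hb.2 (congrArg some (key b b' e))
  · refine .inr ⟨(q, uu H _ d '' {u | pt u = some q}), ⟨_, ⟨d, hd, rfl⟩, rfl⟩, ?_⟩
    rintro _ ⟨⟨b, rfl⟩, b', e⟩
    have := (ow_inl.1 (key b b' e)).2
    rw [hn] at this
    exact ⟨b, (ko_inr this).2, rfl⟩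

theorem ram [Finite U] (hR : MRam φ (U → U → Prop) univ) :
    RamOn A (gG un φ) (gR un φ) (offG (gG un φ) (Hub H _)) := by
  intro R' _ hag
  by_contra hno
  rw [not_or] at hno
  obtain ⟨p, hp⟩ := hR fun d a b => (IsU d ∧ R'.Adj (uu H _ d a) (uu H _ d b)) ∨
    (¬ IsU d ∧ ∃ n, H.mem n d ∧ R'.Adj (hb H _ n a) (hb H _ n b))
  have hU : ∀ w w' : Un A M I, w.1 = w'.1 → ∀ a b,
      R'.Adj (uu H _ (uU un φ p w) a) (uu H _ (uU un φ p w) b) →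
      R'.Adj (uu H _ (uU un φ p w') a) (uu H _ (uU un φ p w') b) := by
    intro w w' e a b h
    have := congrFun (congrFun (hp (un w) (un w') trivial (by rw [c.ok.ty, c.ok.ty, e])) a) b
    exact ((this.mp (.inl ⟨c.isU p w, h⟩)).resolve_right fun k => k.1 (c.isU p w')).2
  have hH : ∀ n n', .inl n ∈ (φ p).Bag → .inl n' ∈ (φ p).Bag → H.kd n = H.kd n' → ∀ a b,
      R'.Adj (hb H _ n a) (hb H _ n b) → R'.Adj (hb H _ n' a) (hb H _ n' b) := by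
    rintro n n' ⟨x | x, hx⟩ ⟨x' | x', hx'⟩ e a b h <;>
      first | exact (Sum.inr_ne_inl ‹_›).elim | skip
    obtain rfl : (φ p).v x = n := Sum.inl_injective hx
    obtain rfl : (φ p).v x' = n' := Sum.inl_injective hx'
    rw [(φ p).kd_v, (φ p).kd_v] at e
    obtain ⟨f, t, m⟩ := c.ok.one x
    obtain ⟨f', t', m'⟩ := c.ok.one x'
    have nu : ∀ f i, F.ty f = .inl i → ¬ IsU ((φ p).e f) := fun f i t ⟨_, k⟩ =>
      Sum.inl_ne_inr (t.symm.trans (((φ p).ty_e f).symm.trans k))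
    have := congrFun (congrFun (hp f f' trivial (by rw [t, t', e])) a) b
    obtain ⟨-, n, k1, k2⟩ := (this.mp (.inr ⟨nu f _ t, _, ((φ p).mem_iff _ _).2 ⟨x, m, rfl⟩,
      h⟩)).resolve_left fun k => nu f' _ t' k.1
    rwa [one_uniq (((φ p).ty_e f').trans t') k1 (((φ p).mem_iff _ _).2 ⟨x', m', rfl⟩)] at k2
  have hbl : ∀ n, ∃ a b, A.Adj a b ∧ ¬ R'.Adj (hb H _ n a) (hb H _ n b) := fun n => by
    by_contra k
    exact hno.1 ⟨hb H _ n, fun _ _ e => (hb_eq.1 e).2, fun a b e =>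
      by_contra fun k' => k ⟨a, b, e, k'⟩⟩
  have hk : ∀ a : U, ∃ y : U × U, ∀ n, .inl n ∈ (φ p).Bag → H.kd n = .inl (kd M a) →
      A.Adj y.1 y.2 ∧ ¬ R'.Adj (hb H _ n y.1) (hb H _ n y.2) := fun a => by
    by_cases k : ∃ n, .inl n ∈ (φ p).Bag ∧ H.kd n = .inl (kd M a)
    · obtain ⟨n, k1, k2⟩ := k
      obtain ⟨x, y, e, e'⟩ := hbl n
      exact ⟨(x, y), fun n' k3 k4 => ⟨e, fun h => e' (hH n' n k3 k1 (k4.trans k2.symm) x y h)⟩⟩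
    · exact ⟨(a, a), fun n k1 k2 => absurd ⟨n, k1, k2⟩ k⟩
  have hk' : ∀ k : Set U, ∃ y : Option (U × U), ∀ a, k = kd M a → ∃ y', y = some y' ∧
      ∀ n, .inl n ∈ (φ p).Bag → H.kd n = .inl k →
      A.Adj y'.1 y'.2 ∧ ¬ R'.Adj (hb H _ n y'.1) (hb H _ n y'.2) := fun k => by
    by_cases h : ∃ a, k = kd M a
    · obtain ⟨a, rfl⟩ := h
      obtain ⟨y, hy⟩ := hk a
      exact ⟨some y, fun _ _ => ⟨y, rfl, hy⟩⟩
    · exact ⟨none, fun a e => absurd ⟨a, e⟩ h⟩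
  choose Y hY using hk'
  obtain ⟨s, hs⟩ := c.mat.bip
  let e : U → U := fun a => ((Y (kd M a)).map fun y => if s a then y.1 else y.2).getD a
  have he : ∀ a b, M.Adj a b → ∀ n, .inl n ∈ (φ p).Bag → H.kd n = .inl (kd M a) →
      A.Adj (e a) (e b) ∧ ¬ R'.Adj (hb H _ n (e a)) (hb H _ n (e b)) := by
    intro a b h n k1 k2
    obtain ⟨y, e1, e2⟩ := hY _ a rfl
    have e3 := e2 n k1 k2
    have e4 := hs a b h
    simp only [e, ← kd_adj c.mat h, e1, Option.map_some, Option.getD_some]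
    rcases ha : s a with _ | _ <;> rcases hb : s b with _ | _ <;> rw [ha, hb] at e4
    · exact absurd rfl e4
    · exact ⟨e3.1.symm, fun k => e3.2 k.symm⟩
    · exact e3
    · exact absurd rfl e4
  have hub : ∀ (w : Un A M I) a, a ∈ M.support → ∃ n, ow H (uU un φ p w) a = .inl n ∧
      .inl n ∈ (φ p).Bag ∧ H.kd n = .inl (kd M a) := fun w a ha => by
    obtain ⟨n, k1, k2, k3⟩ := (c.isU p w).ow_some (ko_sup ha)
    exact ⟨n, k1, uU_bag p w (inl_wb.2 k2), k3⟩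
  let t : Ty A M := ⟨e, fun a b h => by
    obtain ⟨n, -, k1, k2⟩ := hub (⟨id, fun _ _ h => c.imat.1 h⟩, none) a ⟨b, h⟩
    exact (he a b h n k1 k2).1⟩
  obtain ⟨a, b, hab, hr⟩ : ∃ a b, A.Adj a b ∧
      R'.Adj (uu H _ (uU un φ p (t, none)) a) (uu H _ (uU un φ p (t, none)) b) := by
    by_contra k
    exact hno.2 ⟨_, uu_inj (c.isU p (t, none)), fun a b h =>
      ⟨(c.gG_uu (c.isU p _)).2 h, fun k' => k ⟨a, b, h, k'⟩⟩⟩
  have spoke : ∀ z u, z ∈ M.support → u ∉ M.support → A.Adj z u →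
      ¬ R'.Adj (uu H _ (uU un φ p (t, none)) z) (uu H _ (uU un φ p (t, none)) u) := by
    intro z u hz hu h hr
    let r : RI A M P := (p, t, ⟨(z, u), hz, hu, h⟩)
    have k : ∀ v x, v ∈ I → A.Adj v x → R'.Adj (xi un φ r v) (xi un φ r x) := fun v x hv h => by
      rw [c.xi_ctr r ⟨(v, x), hv, h⟩, c.xi_leaf r ⟨(v, x), hv, h⟩]
      exact hU (t, none) (t, some (r.2.2, ⟨(v, x), hv, h⟩)) rfl z u hr
    refine hno.1 ⟨xi un φ r, c.xi_inj r, fun x y h => ?_⟩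
    by_cases hx : x ∈ I
    · exact k x y hx h
    by_cases hy : y ∈ I
    · exact (k y x hy h.symm).symm
    have k' := (c.gX_xi (r := r) hx hy).2 h
    exact (hag _ _ ⟨.inl (.inr k'), c.xi_nhub hx, c.xi_nhub hy⟩).2 (.inr k')
  by_cases ha : a ∈ M.support <;> by_cases hb : b ∈ M.support
  · have h := imat_adj c.imat ha hb hab
    obtain ⟨n, k1, k2, k3⟩ := hub (t, none) a ha
    rw [uu_hb.2 ⟨k1, lab_sup (c.ty p (t, none)) ha⟩, uu_hb.2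
      ⟨(ow_congr (ko_adj c.mat h)).symm.trans k1, lab_sup (c.ty p (t, none)) hb⟩] at hr
    exact (he a b h n k2 k3).2 hr
  · exact spoke a b ha hb hab hr
  · exact spoke b a hb ha hab.symm hr.symm
  · exact ha ⟨b, (c.gR_uu (c.isU p _)).1 ((hag _ _ ⟨(c.gG_uu (c.isU p _)).2 hab,
      fun k => ha ((uu_hub (c.isU p _)).1 k), fun k => hb ((uu_hub (c.isU p _)).1 k)⟩).1 hr)⟩

theorem gam [Finite U] [Finite P] (hG : GlueStmt) (hLo : LocalStmt) (hL : LinkStmt)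
    (hR : MRam φ (U → U → Prop) univ) :
    Gam A M I pt (gG un φ) (gR un φ) (Hub H _) (Hs H _) (Us H _) (range (xi un φ)) g where
  le := le_sup_left
  hind := by
    rintro _ ⟨n, hn, rfl⟩
    refine ⟨fun _ _ _ _ e => (hb_eq.1 e).2, fun a _ b _ =>
      ⟨?_, fun h => .inl (.inl (gH_adj hn h))⟩⟩
    rintro ((h | h) | h)
    · obtain ⟨b', e, h⟩ := gH_hb h
      rwa [(hb_eq.1 e).2]
    · exact absurd h (c.gX_hb hn)
    · exact gU_hb hn h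
  hred := by
    rintro _ ⟨n, hn, rfl⟩ a b h
    exact .inl (gH_adj hn h)
  hub := fun _ => Iff.rfl
  hcl := by
    rintro _ ⟨n, hn, rfl⟩ a y (h | h)
    · obtain ⟨b, rfl, -⟩ := gH_hb h
      exact ⟨b, rfl⟩
    · exact absurd h (c.gX_hb hn)
  uind := by
    rintro _ ⟨d, hd, rfl⟩
    exact ⟨(uu_inj hd).injOn, fun a _ b _ => c.gG_uu hd⟩
  ucol := by
    rintro _ ⟨d, hd, rfl⟩ a b
    exact c.gR_uu hd
  uhub := by
    rintro _ ⟨d, hd, rfl⟩ a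
    exact uu_hub hd
  xind := by
    rintro _ ⟨r, rfl⟩
    refine ⟨(c.xi_inj r).injOn, fun a ha b hb => ⟨?_, fun h => .inl (.inr ((c.gX_xi ha hb).2 h))⟩⟩
    rintro ((⟨-, f, hf, x, -, -, -, -, e, -⟩ | h) | ⟨hne, _, ⟨d, -, rfl⟩, x, -, y, -, -, e, e'⟩)
    · exact absurd ⟨f, hf, x, e⟩ (c.xi_nhub ha)
    · exact (c.gX_xi ha hb).1 h
    · exact absurd (c.xu r d ⟨⟨a, ha, rfl⟩, x, e⟩ ⟨⟨b, hb, rfl⟩, y, e'⟩) hne
  xred := by
    rintro _ ⟨r, rfl⟩ a ha b hb h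
    exact .inr ((c.gX_xi ha hb).2 h)
  xhub := by
    rintro _ ⟨r, rfl⟩ a ha
    exact c.xi_nhub ha
  rcov := by
    rintro _ _ (⟨-, f, hf, a, -, b, -, -, rfl, rfl⟩ | ⟨-, f, hf, a, ha, b, hb, -, rfl, rfl⟩) h
    · exact absurd ⟨f, hf, a, rfl⟩ h
    · exact ⟨f, hf, ⟨a, ha, rfl⟩, b, hb, rfl⟩
  bcov := fun x y h => by
    obtain ⟨d, a, b, hd, rfl, rfl⟩ := blue_unit h
    exact ⟨_, ⟨d, hd, rfl⟩, ⟨a, rfl⟩, b, rfl⟩
  ram := c.ram hR
  thin := c.thin_R hG hLo hL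
  xx := by
    rintro _ ⟨r, rfl⟩ _ ⟨r', rfl⟩ h
    exact c.xx fun e => h (by rw [e])
  xu := by
    rintro _ ⟨r, rfl⟩ _ ⟨d, -, rfl⟩
    exact c.xu r d
  cel := cel c.hpt
  uu := by
    rintro _ ⟨d, hd, rfl⟩ _ ⟨d', -, rfl⟩ h
    exact c.inter (fun e => h (by rw [e])) hd
  tri := c.blue_tri
  preB := fun h0 => ⟨_, _, by
    ext x y
    refine ⟨fun h => ?_, fun h => ⟨.inr (h.1.resolve_left h.2), fun k => h.2 (.inl k)⟩⟩
    have k := h.1.resolve_left h.2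
    refine ⟨.inr k, fun k' => k'.elim h.2 ?_⟩
    obtain ⟨-, _, ⟨d, -, rfl⟩, a, -, b, -, -, rfl, rfl⟩ := k
    exact c.gX_uu, c.preB hG hLo hL h0⟩

end Ctx

end GamC

open GamC in
theorem gam_stmt (hMT : MTStmt) (hL : LinkStmt) (hG : GlueStmt) (hLo : LocalStmt) : GamStmt := by
  intro U Q _ _ A M I pt g h1 h2 h3 h4
  have ok := pat_ok A M I pt
  obtain ⟨H, P, _, φ, hg, hR⟩ := hMT _ _ _ (pat A M I pt) ok.lin (U → U → Prop) (g + 1)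
  have c : Ctx I _ φ g := ⟨h1, h2, h3, h4, ok,
    { hg with thin := fun p => (hg.thin p).mono (Nat.le_succ g) },
    (hL _ _ _ _ _ _ φ _ hg).2.2 (Nat.le_add_left 1 g) ok.noTri⟩
  exact ⟨_, inferInstance, _, _, _, _, _, _, c.gam hG hLo hL hR⟩

end Pool.Agent.MP_1c0fc2_co.RE
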