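import Pool.Agent.MP_1c0fc2_co.RE.Basic
import Pool.Agent.MP_1c0fc2_co.GR.Graph

open Function Set Relation

namespace Pool.Agent.MP_1c0fc2_co.RE

/-- thinness from the pairwise form -/
theorem xhost_thin {V : Type} {G : SimpleGraph V} {N : Set (Set V)} {g : ℕ} {X : Set V}
    (h : ∀ C : Set V, C.ncard ≤ g → Disjoint C X → ConnOn (Tog N) C →
      (∀ u ∈ At N X C, ∀ v ∈ At N X C, u ≠ v →
        G.Adj u v ∧ ∃ ν ∈ N, u ∈ ν ∧ v ∈ ν ∧ (ν ∩ C).Nonempty) ∧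
      ∀ u ∈ At N X C, ∀ v ∈ At N X C, ∀ w ∈ At N X C, u = v ∨ u = w ∨ v = w) :
    Thin N (GLk G) g X := fun C c1 c2 c3 => by
  obtain ⟨h1, h2⟩ := h C c1 c2 c3
  rcases (At N X C).subsingleton_or_nontrivial with hs | ⟨u, hu, v, hv, huv⟩
  · rcases hs.eq_empty_or_singleton with e | ⟨w, e⟩
    · exact .inl e
    · obtain ⟨hw, c, hc, ν, n1, n2, n3⟩ : w ∈ At N X C := e ▸ rfl
      exact .inr ⟨{w}, .inl ⟨w, rfl⟩, e.le, singleton_subset_iff.2 hw, ν, n1,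
        singleton_subset_iff.2 n2, c, n3, hc⟩
  · obtain ⟨e, ν, n1, n2, n3, n4⟩ := h1 u hu v hv huv
    refine .inr ⟨{u, v}, .inr ⟨u, v, e, rfl⟩, fun w hw => ?_, pair_subset hu.1 hv.1, ν, n1,
      pair_subset n2 n3, n4⟩
    rcases h2 u hu v hv w hw with e | e | e
    · exact absurd e huv
    · exact .inl e.symm
    · exact .inr e.symm

theorem host_stmt : HostStmt := by
  intro U _ A g
  classical
  obtain ⟨V, hV, G, P, -, φ, hram, hcov, hatt⟩ := GR.girth_ramsey_atom A Bool g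
  let bag : P → Bag U V := fun p => ⟨φ p, ⊥, ⊥, True⟩
  have hN : ∀ ν, ν ∈ Nodes ∅ (range bag) ↔ ∃ p, ν = range (φ p) := by
    intro ν
    constructor
    · rintro (h | ⟨_, ⟨p, rfl⟩, rfl⟩)
      · exact h.elim
      · exact ⟨p, rfl⟩
    · rintro ⟨p, rfl⟩
      exact .inr ⟨_, ⟨p, rfl⟩, rfl⟩
  have hT : ∀ x y, Tog (Nodes ∅ (range bag)) x y ↔ GR.Tog (fun p => φ p) x y := by
    intro x y
    constructor
    · rintro ⟨ν, h1, h2⟩
      obtain ⟨p, rfl⟩ := (hN ν).1 h1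
      exact ⟨p, h2⟩
    · rintro ⟨p, h2⟩
      exact ⟨_, (hN _).2 ⟨p, rfl⟩, h2⟩
  refine ⟨V, hV, G, range bag, ⟨bot_le, ?_, ?_, ?_, ?_, ?_, fun _ h => h.elim, ?_, ?_,
    fun _ h => h.elim⟩, ?_⟩
  · rintro _ ⟨p, rfl⟩
    exact ⟨(φ p).injective.injOn, fun x _ y _ => (φ p).map_adj_iff⟩
  · rintro _ ⟨p, rfl⟩ a b
    exact Iff.rfl
  · rintro _ ⟨p, rfl⟩
    exact bot_le
  · intro x y e
    obtain ⟨p, a, b, h1, h2⟩ := hcov x y e
    exact .inr ⟨_, ⟨p, rfl⟩, a, b, h1, h2, fun h => h⟩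
  · intro ν hν
    obtain ⟨p, rfl⟩ := (hN ν).1 hν
    refine xhost_thin fun C c1 c2 c3 => ?_
    have hf : C.Finite := toFinite C
    obtain ⟨h1, h2⟩ := hatt hf.toFinset p (by rwa [← ncard_eq_toFinset_card C hf])
      (fun a ha => disjoint_left.1 c2 (hf.mem_toFinset.1 ha))
      (fun a ha b hb => rtg_mono (fun x y e => ⟨hf.mem_toFinset.2 e.1, hf.mem_toFinset.2 e.2.1,
        (hT x y).1 e.2.2⟩) (c3 a (hf.mem_toFinset.1 ha) b (hf.mem_toFinset.1 hb)))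
    have hA : ∀ x, φ p x ∈ At (Nodes ∅ (range bag)) (range (φ p)) C →
        ∃ a ∈ hf.toFinset, GR.Tog (fun p => φ p) (φ p x) a := by
      rintro x ⟨-, c, hc, e⟩
      exact ⟨c, hf.mem_toFinset.2 hc, (hT _ _).1 e⟩
    constructor
    · intro u hu v hv huv
      obtain ⟨x, rfl⟩ := hu.1
      obtain ⟨y, rfl⟩ := hv.1
      obtain ⟨e, a, ha, p', n1, n2, n3⟩ :=
        h1 x y (fun e => huv (congrArg _ e)) (hA x hu) (hA y hv)
      exact ⟨(φ p).map_adj_iff.2 e, _, (hN _).2 ⟨p', rfl⟩, n1, n2, a, n3, hf.mem_toFinset.1 ha⟩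
    · intro u hu v hv w hw
      obtain ⟨x, rfl⟩ := hu.1
      obtain ⟨y, rfl⟩ := hv.1
      obtain ⟨z, rfl⟩ := hw.1
      exact (h2 x y z (hA x hu) (hA y hv) (hA z hw)).imp (congrArg _)
        (Or.imp (congrArg _) (congrArg _))
  · rintro _ ⟨p, rfl⟩ _ ⟨p', rfl⟩ _ _ _ _ _ _ _ _ _
    exact .inr ⟨trivial, trivial⟩
  · rintro _ ⟨p, rfl⟩ h
    exact absurd trivial h
  · intro R _
    obtain ⟨p, c, hc⟩ := hram fun e => decide (e ∈ R.edgeSet)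
    cases c
    · refine .inr ⟨φ p, (φ p).injective, fun x y e => ⟨(φ p).map_adj_iff.2 e, ?_⟩⟩
      exact of_decide_eq_false (hc x y e)
    · exact .inl ⟨φ p, (φ p).injective, fun x y e => of_decide_eq_true (hc x y e)⟩

theorem hub_stmt : HubStmt := by
  intro U X V Z Q _ _ _ _ A M I pt Γ RΓ Hub Hs Us Xs G R Gs Bs g g' B φ hG hC hB hφ γ hγ x hx
    ⟨z0, hz0⟩
  obtain ⟨h, hh, a0, rfl⟩ := (hG.hub x).1 hx
  have key : ∀ z, ∃ a, γ (h a) = φ z := by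
    intro z
    have hr := (SimpleGraph.reachable_iff_reflTransGen _ _).1 (hB.preconnected z0 z)
    induction hr with
    | refl => exact ⟨a0, hz0.symm⟩
    | @tail u v _ e ih =>
      obtain ⟨a, ha⟩ := ih
      have eR : R.Adj (γ (h a)) (φ v) := ha ▸ hφ.2 u v e
      rcases hC.pre.cov _ _ (hC.pre.le eR) with ⟨_, ⟨γ', hγ', rfl⟩, n1, n2⟩ | ⟨β, hβ, b, -, n1, -⟩
      · obtain rfl : γ' = γ := hC.eq_of_mem hγ' hγ n1 (mem_range_self _)
        obtain ⟨y, hy⟩ := n2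
        rw [← hy, hC.gcol γ' hγ] at eR
        obtain ⟨b, rfl⟩ := hG.hcl h hh a y eR
        exact ⟨b, hy⟩
      · exact absurd n1 (hC.hub γ hγ β hβ b _ ((hG.hub _).2 ⟨h, hh, a, rfl⟩))
  choose k hk using key
  refine ⟨k, fun z z' e => hφ.1 (by rw [← hk, ← hk, e]), fun z z' e => ?_⟩
  have e1 := hC.pre.le (hφ.2 z z' e)
  rwa [← hk, ← hk, (hC.gind γ hγ).adj, (hG.hind h hh).adj] at e1

theorem twoNb_stmt : TwoNbStmt := by
  intro U V _ _ A G R Ls Bs g hg hP c L hL w hw a ha b hb hab ea eb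
  have hA : ∀ x ∈ L, (cc G R c).Adj w x → x ∈ At (Nodes Ls Bs) L {w} := fun x hx e =>
    ⟨hx, w, rfl, hP.tog (cc_le hP.le c e).symm⟩
  obtain ⟨-, -, ν, hν, n1, n2, _, n3, rfl⟩ := (hP.thin L (.inl hL)).two (C := {w})
    (by rwa [ncard_singleton]) (disjoint_singleton_left.2 hw) (connOn_singleton w)
    (hA a ha ea) (hA b hb eb) hab
  rcases hν with hν | ⟨β, hβ, rfl⟩
  · exact absurd (hP.eq_of_mem hν hL n1 ha ▸ n3) hw
  · obtain ⟨a', rfl⟩ := n1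
    obtain ⟨b', rfl⟩ := n2
    obtain ⟨w', rfl⟩ := n3
    have hab' : a' ≠ b' := fun e => hab (congrArg _ e)
    obtain ⟨ht, ho⟩ := hP.lb L hL β hβ a' b' hab' ha hb
    obtain ⟨hm, c', hc'⟩ := hP.low β hβ ht
    have h2 := cc_of_sdiff (hP.red_le hβ) (hP.old β hβ) hc'
    rw [hP.ccol hβ] at ea eb ⊢
    by_cases e : c = c'
    · rwa [e, h2]
    · rw [Bool.eq_not_of_ne e, h2] at ea eb
      exact absurd (hm _ _ _ ea eb) hab'

end Pool.Agent.MP_1c0fc2_co.RE
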