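import Pool.Agent.MP_1c0fc2_co.RE.Basic

/-! Isolating edges for families of triangles. -/

open Function Set Relation

namespace Pool.Agent.MP_1c0fc2_co.RE

open Classical in
theorem xie3_sum {V : Type} (J : SimpleGraph V) (s : Finset V) :
    ec J ↑s = ∑ x ∈ s, (s.filter (J.Adj x)).card := by
  have e : {p : V × V | p.1 ∈ (s : Set V) ∧ p.2 ∈ (s : Set V) ∧ J.Adj p.1 p.2} =
      ↑((s ×ˢ s).filter fun p => J.Adj p.1 p.2) := by
    ext p
    simp [and_assoc]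
  rw [ec, e, ncard_coe_finset, Finset.card_filter, Finset.sum_product]
  simp only [Finset.card_filter]

theorem xie3_tri {V : Type} {J : SimpleGraph V} {S : Set V} (h : Tri J S) {y : V} (hy : y ∈ S) :
    ∃ a b, J.Adj y a ∧ J.Adj y b ∧ J.Adj a b ∧ S = {y, a, b} := by
  obtain ⟨a, b, c, h1, h2, h3, rfl⟩ := h
  rcases hy with rfl | rfl | rfl
  · exact ⟨b, c, h1, h2, h3, rfl⟩
  · exact ⟨a, c, h1.symm, h3, h2, insert_comm _ _ _⟩
  · exact ⟨a, b, h2.symm, h3.symm, h1, by rw [pair_comm b, insert_comm]⟩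

theorem xie3_loc {V : Type} [DecidableEq V] {J : SimpleGraph V} {𝒯 : Set (Set V)}
    (hT : ∀ S ∈ 𝒯, Tri J S)
    (h4 : ∀ a b c d, J.Adj a b → J.Adj a c → J.Adj a d → J.Adj b c → J.Adj b d → ¬ J.Adj c d)
    {y : V} {N : Finset V} (hN : ∀ S ∈ 𝒯, y ∈ S → ∀ x ∈ S, x ≠ y → x ∈ N) {S : Set V}
    (hS : S ∈ 𝒯) (hy : y ∈ S) : 2 ≤ N.card ∧ (N.card ≤ 3 → ∀ r,
      (∃ y', y' ≠ r ∧ Iso J 𝒯 y y') ∨ (N.card = 3 ∧ r ∈ S ∧ Iso J 𝒯 y r)) := by
  obtain ⟨a, b, ha, hb, hab, rfl⟩ := xie3_tri (hT S hS) hy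
  have ma := hN _ hS hy a (by simp) ha.ne'
  have mb := hN _ hS hy b (by simp) hb.ne'
  have key : ∀ x, J.Adj y x → x ∈ N → N.card ≤ 3 → Iso J 𝒯 y x ∨
      (N.card = 3 ∧ ∀ u ∈ N, u ≠ x → J.Adj y u ∧ ∀ w ∈ N, w ≠ x → u ≠ w → J.Adj u w) := by
    intro x hx mx h3
    by_cases h : ∀ S ∈ 𝒯, y ∈ S → x ∈ S
    · exact Or.inl ⟨hx, ⟨_, hS, hy⟩, h⟩
    push Not at h
    obtain ⟨S', hS', hy', hx'⟩ := h
    obtain ⟨c, d, hc, hd, hcd, e⟩ := xie3_tri (hT S' hS') hy'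
    have h5 : ({x, c, d} : Finset V) ⊆ N := by
      rw [Finset.insert_subset_iff, Finset.insert_subset_iff, Finset.singleton_subset_iff]
      exact ⟨mx, hN _ hS' hy' c (by simp [e]) hc.ne', hN _ hS' hy' d (by simp [e]) hd.ne'⟩
    have h6 : ({x, c, d} : Finset V).card = 3 := Finset.card_eq_three.2 ⟨x, c, d,
      fun h => hx' (by simp [e, h]), fun h => hx' (by simp [e, h]), hcd.ne, rfl⟩
    have h7 := Finset.eq_of_subset_of_card_le h5 (h6 ▸ h3)
    have h8 : ∀ u ∈ N, u ≠ x → u ∈ S' ∧ u ≠ y := fun u hu hux => by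
      rw [← h7] at hu
      simp only [Finset.mem_insert, Finset.mem_singleton, hux, false_or] at hu
      rcases hu with rfl | rfl
      · exact ⟨by simp [e], hc.ne'⟩
      · exact ⟨by simp [e], hd.ne'⟩
    exact Or.inr ⟨h7 ▸ h6, fun u hu hux => ⟨(hT _ hS').adj hy' (h8 u hu hux).1 (h8 u hu hux).2.symm,
      fun w hw hwx => (hT _ hS').adj (h8 u hu hux).1 (h8 w hw hwx).1⟩⟩
  refine ⟨Finset.one_lt_card.2 ⟨a, ma, b, mb, hab.ne⟩, fun h3 r => ?_⟩
  rcases key a ha ma h3 with h | h <;> rcases key b hb mb h3 with h' | h'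
  · by_cases e : a = r
    · exact Or.inl ⟨b, e ▸ hab.ne', h'⟩
    · exact Or.inl ⟨a, e, h⟩
  · by_cases e : a = r
    · exact Or.inr ⟨h'.1, by simp [e], e ▸ h⟩
    · exact Or.inl ⟨a, e, h⟩
  · by_cases e : b = r
    · exact Or.inr ⟨h.1, by simp [e], e ▸ h'⟩
    · exact Or.inl ⟨b, e, h'⟩
  · obtain ⟨c, hc, h5⟩ := Finset.exists_mem_notMem_of_card_lt_card
      (s := {a, b}) (t := N) (Finset.card_le_two.trans_lt (by omega))
    simp only [Finset.mem_insert, Finset.mem_singleton, not_or] at h5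
    exact absurd ((h.2 b mb hab.ne').2 c hc h5.1 (Ne.symm h5.2)) (h4 y a b c ha hb
      (h.2 c hc h5.1).1 hab ((h'.2 a ma hab.ne).2 c hc h5.2 (Ne.symm h5.1)))

theorem ie3_stmt (hK3 : K3Stmt) (hEdge : EdgeStmt) : IE3Stmt := by
  intro W V _ _ H P hP h3 J ⟨f, hf⟩ 𝒯 ⟨S₀, hS₀⟩ hTS
  classical
  have := Fintype.ofFinite V
  have hT : ∀ S ∈ 𝒯, Tri J S := fun S hS => (((hK3 W V H P hP).2 J S).2.1 h3).1 (hTS S hS)
  have hE : ∀ (J' : SimpleGraph V) (s : Finset V), J' ≤ J → 2 ≤ s.card →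
      ∑ x ∈ s, (s.filter (J'.Adj x)).card + 6 ≤ 4 * s.card := fun J' s hle hs => by
    have h1 : IHo J' H f s := ((ih_id hle).comp hf).on _
    have h2 := hEdge W H P hP h3 (f '' s) (by rwa [h1.ncard, ncard_coe_finset])
    rw [h1.ncard, ncard_coe_finset] at h2
    have h4 := ec_le h1
    rw [xie3_sum] at h4
    exact (Nat.add_le_add_right (by convert h4) 6).trans h2
  have h4 : ∀ a b c d, J.Adj a b → J.Adj a c → J.Adj a d → J.Adj b c → J.Adj b d →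
      ¬ J.Adj c d := fun a b c d e1 e2 e3 e4 e5 e6 => by
    have hc : ({a, b, c, d} : Finset V).card = 4 := Finset.card_eq_four.2
      ⟨a, b, c, d, e1.ne, e2.ne, e3.ne, e4.ne, e5.ne, e6.ne, rfl⟩
    have h1 := hE J {a, b, c, d} le_rfl (by omega)
    have h2 := Finset.card_nsmul_le_sum {a, b, c, d}
      (fun x => (({a, b, c, d} : Finset V).filter (J.Adj x)).card) 3 fun x hx => by
        refine le_trans ?_ (Finset.card_le_card (s := Finset.erase {a, b, c, d} x) fun z hz => ?_)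
        · rw [Finset.card_erase_of_mem hx, hc]
        · obtain ⟨hzx, hz⟩ := Finset.mem_erase.1 hz
          refine Finset.mem_filter.2 ⟨hz, ?_⟩
          simp only [Finset.mem_insert, Finset.mem_singleton] at hx hz
          rcases hx with rfl | rfl | rfl | rfl <;> rcases hz with rfl | rfl | rfl | rfl <;>
            first | assumption | exact absurd rfl hzx | exact SimpleGraph.Adj.symm (by assumption)
    rw [hc] at h1
    rw [hc, smul_eq_mul] at h2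
    omega
  obtain ⟨J', hJ'⟩ : ∃ J' : SimpleGraph V, ∀ x y, J'.Adj x y ↔ x ≠ y ∧ ∃ S ∈ 𝒯, x ∈ S ∧ y ∈ S :=
    ⟨{ Adj := fun x y => x ≠ y ∧ ∃ S ∈ 𝒯, x ∈ S ∧ y ∈ S
       symm := ⟨fun _ _ ⟨h, S, h1, h2, h3⟩ => ⟨h.symm, S, h1, h3, h2⟩⟩
       loopless := ⟨fun _ h => h.1 rfl⟩ }, fun _ _ => Iff.rfl⟩
  obtain ⟨U, hU⟩ : ∃ U : Finset V, ∀ x, x ∈ U ↔ ∃ S ∈ 𝒯, x ∈ S :=
    ⟨Finset.univ.filter fun x => ∃ S ∈ 𝒯, x ∈ S, fun x => by simp⟩
  have hs := hE J' U (fun x y h => by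
    obtain ⟨h, S, h1, h2, h3⟩ := (hJ' x y).1 h
    exact (hT S h1).adj h2 h3 h) (by
    obtain ⟨a, b, c, h, -, -, e⟩ := hT S₀ hS₀
    exact Finset.one_lt_card.2 ⟨a, (hU a).2 ⟨S₀, hS₀, by simp [e]⟩, b,
      (hU b).2 ⟨S₀, hS₀, by simp [e]⟩, h.ne⟩)
  have loc : ∀ y ∈ U, 2 ≤ (U.filter (J'.Adj y)).card ∧ ((U.filter (J'.Adj y)).card ≤ 3 → ∀ r,
      (∃ y', y' ≠ r ∧ Iso J 𝒯 y y') ∨
        ((U.filter (J'.Adj y)).card = 3 ∧ J'.Adj r y ∧ Iso J 𝒯 y r)) := fun y hy => by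
    obtain ⟨S, hS, hyS⟩ := (hU y).1 hy
    have h := xie3_loc (N := U.filter (J'.Adj y)) hT h4 (fun S hS hy x hx e =>
      Finset.mem_filter.2 ⟨(hU x).2 ⟨S, hS, hx⟩, (hJ' _ _).2 ⟨e.symm, S, hS, hy, hx⟩⟩) hS hyS
    exact ⟨h.1, fun h3 r => (h.2 h3 r).imp_right fun h =>
      ⟨h.1, (hJ' _ _).2 ⟨h.2.2.1.ne', S, hS, h.2.1, hyS⟩, h.2.2⟩⟩
  refine ⟨fun p q => by_contra fun hn => ?_, fun r => by_contra fun hn => ?_⟩
  · have h1 := Finset.card_nsmul_le_sum U (fun x => (U.filter (J'.Adj x)).card +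
        ((if x = p then 2 else 0) + if x = q then 2 else 0)) 4 fun x hx => by
      obtain ⟨a1, a2⟩ := loc x hx
      by_cases e1 : x = p
      · simp only [if_pos e1]; omega
      by_cases e2 : x = q
      · simp only [if_pos e2]; omega
      by_contra h
      rcases a2 (by omega) x with ⟨y', -, h'⟩ | ⟨-, -, h'⟩
      · exact hn ⟨x, y', e1, e2, h'⟩
      · exact hn ⟨x, x, e1, e2, h'⟩
    simp only [Finset.sum_add_distrib, Finset.sum_ite_eq', smul_eq_mul] at h1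
    split_ifs at h1 <;> omega
  · have h1 : ∑ x ∈ U, (4 + if x = r then (U.filter (J'.Adj r)).card else 0) ≤
        ∑ x ∈ U, ((U.filter (J'.Adj x)).card +
          ((if x = r then 4 else 0) + if J'.Adj r x then 1 else 0)) := by
      refine Finset.sum_le_sum fun x hx => ?_
      by_cases e : x = r
      · rw [if_pos e, if_pos e, e]; omega
      rw [if_neg e, if_neg e]
      by_contra h
      rcases (loc x hx).2 (by omega) r with ⟨y', h1, h'⟩ | ⟨h1, h2, -⟩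
      · exact hn ⟨x, y', e, h1, h'⟩
      · rw [if_pos h2] at h
        omega
    simp only [Finset.sum_add_distrib, Finset.sum_ite_eq', Finset.sum_const, smul_eq_mul,
      ← Finset.card_filter] at h1
    split_ifs at h1 with hr
    · change _ ≤ _ + (_ + (U.filter (J'.Adj r)).card) at h1
      omega
    · have h2 : U.filter (J'.Adj r) = ∅ := Finset.filter_eq_empty_iff.2
        fun x _ h => by
          obtain ⟨_, S, hS, h, _⟩ := (hJ' r x).1 h
          exact hr ((hU r).2 ⟨S, hS, h⟩)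
      rw [h2, Finset.card_empty] at h1
      omega

end Pool.Agent.MP_1c0fc2_co.RE
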