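import Pool.Agent.MP_1c0fc2_co.RE.Basic

/-! Isolating edges when the `T`-sets have at least four vertices. -/

open Function Set Relation

namespace Pool.Agent.MP_1c0fc2_co.RE

section IE4
variable {V W : Type}

/-- the vertices that lie in exactly one member -/
def xie4_Free (𝒯 : Set (Set V)) : Set V := {y | ∃ S ∈ 𝒯, y ∈ S ∧ ∀ S' ∈ 𝒯, y ∈ S' → S' = S}

/-- the edges inside members -/
def xie4_G (J : SimpleGraph V) (𝒯 : Set (Set V)) : SimpleGraph V where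
  Adj x y := J.Adj x y ∧ ∃ S ∈ 𝒯, x ∈ S ∧ y ∈ S
  symm := ⟨fun _ _ ⟨h, S, h1, h2, h3⟩ => ⟨h.symm, S, h1, h3, h2⟩⟩
  loopless := ⟨fun _ h => h.1.ne rfl⟩

/-- a group `G` attached through `a` and `b` -/
def xie4_Split (𝒯 : Set (Set V)) : Prop :=
  ∃ (G : Set V) (a b : V), (∀ S ∈ 𝒯, (S ∩ G).Nonempty → S ⊆ G ∪ {a, b}) ∧
    (∃ S ∈ 𝒯, (S ∩ G).Nonempty) ∧ ∃ S ∈ 𝒯, ¬ (S ∩ G).Nonempty

theorem xie4_cut {Y : SimpleGraph V} {𝒯 : Set (Set V)} (h2 : ∀ S ∈ 𝒯, TwoConn Y S) {v : V}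
    (h : ¬ ConnOn Y.Adj (⋃₀ 𝒯 \ {v})) : xie4_Split 𝒯 := by
  obtain ⟨a, ha, b, hb, hab⟩ := not_connOn h
  have key : ∀ S ∈ 𝒯, (S ∩ comp Y.Adj (⋃₀ 𝒯 \ {v}) a).Nonempty →
      S ⊆ comp Y.Adj (⋃₀ 𝒯 \ {v}) a ∪ {v, v} := by
    rintro S hS ⟨x, hx, hx'⟩ y hy
    by_cases e : y = v
    · exact .inr (.inl e)
    · refine .inl (((h2 S hS).2 v).sub_comp (b := x) ?_ ⟨hx, (comp_sub hx').2⟩ hx' ⟨hy, e⟩)
      exact fun z hz => ⟨⟨S, hS, hz.1⟩, hz.2⟩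
  refine ⟨_, v, v, key, ?_, ?_⟩
  · obtain ⟨S, hS, h1⟩ := ha.1
    exact ⟨S, hS, a, h1, mem_comp ha⟩
  · obtain ⟨S, hS, h1⟩ := hb.1
    refine ⟨S, hS, fun h3 => ?_⟩
    rcases key S hS h3 h1 with e | e | e
    exacts [hab e, hb.2 e, hb.2 e]

theorem xie4_three {S : Set V} (h : S.ncard < 3) [Finite V] {a b c : V} (ha : a ∈ S) (hb : b ∈ S)
    (hc : c ∈ S) (hab : a ≠ b) : c = a ∨ c = b := by
  by_contra hn
  rw [not_or] at hn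
  have h1 : ({a, b, c} : Set V).ncard = 3 :=
    ncard_eq_three.2 ⟨a, b, c, hab, fun e => hn.1 e.symm, fun e => hn.2 e.symm, rfl⟩
  have h2 : ({a, b, c} : Set V) ⊆ S := by
    rintro z (rfl | rfl | rfl) <;> assumption
  have := ncard_le_ncard h2 (toFinite _)
  omega

theorem xie4_torso [Finite V] {H : SimpleGraph W} {Y : SimpleGraph V} {𝒯 : Set (Set V)}
    (h2 : ∀ S ∈ 𝒯, ES H Y S) (hU : TwoConn Y (⋃₀ 𝒯)) {T : Set V} (hT : Torso H Y (⋃₀ 𝒯) T) :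
    xie4_Split 𝒯 := by
  obtain ⟨t1, t2, t3, f, t4, t5⟩ := hT
  have small : ∀ S ∈ 𝒯, ¬ S ⊆ T → (S ∩ T).ncard < 3 := by
    intro S hS hn
    by_contra hc
    refine (h2 S hS).2 (S ∩ T) ⟨inter_subset_left, fun e => hn (inter_eq_left.1 e), by omega, f,
      t4.sub inter_subset_right, fun C hC hc => (t5 C ?_ hc).sub (image_mono ?_)⟩
    · exact fun x hx => ⟨⟨S, hS, (hC hx).1⟩, fun h => (hC hx).2 ⟨(hC hx).1, h⟩⟩
    · exact fun x hx => ⟨hx.1.2, hx.2⟩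
  have three : ∀ y u v w, u ∈ Nb Y T (comp Y.Adj (⋃₀ 𝒯 \ T) y) →
      v ∈ Nb Y T (comp Y.Adj (⋃₀ 𝒯 \ T) y) → w ∈ Nb Y T (comp Y.Adj (⋃₀ 𝒯 \ T) y) → u ≠ v →
      w = u ∨ w = v := by
    intro y u v w hu hv hw huv
    rcases (t5 _ comp_sub (comp_conn (adj_symm' Y))).three (mem_image_of_mem f hu)
      (mem_image_of_mem f hv) (mem_image_of_mem f hw) with e | e | e
    exacts [absurd (t4.1 hu.1 hv.1 e) huv, .inl (t4.1 hu.1 hw.1 e).symm,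
      .inr (t4.1 hv.1 hw.1 e).symm]
  obtain ⟨c, hc⟩ : (⋃₀ 𝒯 \ T).Nonempty := by
    by_contra hn
    rw [not_nonempty_iff_eq_empty, sdiff_eq_empty] at hn
    exact t2 (Subset.antisymm t1 hn)
  have hns : ¬ (⋃₀ 𝒯 ∩ T).Subsingleton := by
    rw [inter_eq_right.2 t1]
    intro hs
    have := (ncard_le_one (toFinite T)).2 fun a ha b hb => hs ha hb
    omega
  obtain ⟨u, hu, v, hv, huv, hu', hv'⟩ := hU.two_nb hns hc
  have key : ∀ S ∈ 𝒯,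
      (S ∩ {x | x ∈ ⋃₀ 𝒯 \ T ∧ Nb Y T (comp Y.Adj (⋃₀ 𝒯 \ T) x) ⊆ {u, v}}).Nonempty →
      S ⊆ {x | x ∈ ⋃₀ 𝒯 \ T ∧ Nb Y T (comp Y.Adj (⋃₀ 𝒯 \ T) x) ⊆ {u, v}} ∪ {u, v} := by
    rintro S hS ⟨x, hx, hx1, hx2⟩
    have hs := small S hS fun h => hx1.2 (h hx)
    have hSU : S \ T ⊆ ⋃₀ 𝒯 \ T := fun z hz => ⟨⟨S, hS, hz.1⟩, hz.2⟩
    have two := (h2 S hS).1
    by_cases hss : (S ∩ T).Subsingleton
    · have hcon : ConnOn Y.Adj (S \ T) := by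
        rcases hss.eq_empty_or_singleton with e | ⟨w, e⟩
        · rw [← sdiff_self_inter, e, sdiff_empty]
          exact two.conn
        · rw [← sdiff_self_inter, e]
          exact two.2 w
      have hsub : S \ T ⊆ comp Y.Adj (⋃₀ 𝒯 \ T) x :=
        hcon.sub_comp hSU ⟨hx, hx1.2⟩ (mem_comp hx1)
      intro y hy
      by_cases hyT : y ∈ T
      · obtain ⟨z, hz, e⟩ := two.nbr' hy
        refine .inr (hx2 ⟨hyT, z, hsub ⟨hz, fun h => e.ne (hss ⟨hy, hyT⟩ ⟨hz, h⟩)⟩, e⟩)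
      · refine .inl ⟨hSU ⟨hy, hyT⟩, ?_⟩
        rw [comp_eq (adj_symm' Y) (hsub ⟨hy, hyT⟩)]
        exact hx2
    · have nb : ∀ y ∈ S \ T, ∃ a ∈ S ∩ T, ∃ b ∈ S ∩ T, a ≠ b ∧
          a ∈ Nb Y T (comp Y.Adj (⋃₀ 𝒯 \ T) y) ∧ b ∈ Nb Y T (comp Y.Adj (⋃₀ 𝒯 \ T) y) := by
        intro y hy
        obtain ⟨a, ha, b, hb, hab, ⟨d, hd, e⟩, d', hd', e'⟩ := two.two_nb hss hy
        have hsub : comp Y.Adj (S \ T) y ⊆ comp Y.Adj (⋃₀ 𝒯 \ T) y :=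
          (comp_conn (adj_symm' Y)).sub_comp (comp_sub.trans hSU) (mem_comp hy)
            (mem_comp (hSU hy))
        exact ⟨a, ha, b, hb, hab, ⟨ha.2, d, hsub hd, e⟩, hb.2, d', hsub hd', e'⟩
      have hST : S ∩ T ⊆ {u, v} := by
        obtain ⟨a, ha, b, hb, hab, h3, h4⟩ := nb x ⟨hx, hx1.2⟩
        intro w hw
        rcases xie4_three hs ha hb hw hab with rfl | rfl
        exacts [hx2 h3, hx2 h4]
      intro y hy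
      by_cases hyT : y ∈ T
      · exact .inr (hST ⟨hy, hyT⟩)
      · refine .inl ⟨hSU ⟨hy, hyT⟩, fun w hw => ?_⟩
        obtain ⟨a, ha, b, hb, hab, h3, h4⟩ := nb y ⟨hy, hyT⟩
        rcases three y a b w h3 h4 hw hab with rfl | rfl
        exacts [hST ha, hST hb]
  refine ⟨_, u, v, key, ?_, ?_⟩
  · obtain ⟨S, hS, h1⟩ := hc.1
    exact ⟨S, hS, c, h1, hc, fun w hw => three c u v w ⟨hu.2, hu'⟩ ⟨hv.2, hv'⟩ hw huv⟩
  · obtain ⟨z, hz, hz'⟩ : ∃ z ∈ T, z ∉ ({u, v} : Set V) := by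
      by_contra hn
      have h1 : T ⊆ {u, v} := fun z hz => by
        by_contra h
        exact hn ⟨z, hz, h⟩
      have := ncard_le_ncard h1 (toFinite _)
      have := ncard_pair_le u v
      omega
    obtain ⟨S, hS, h1⟩ := t1 hz
    refine ⟨S, hS, fun h3 => ?_⟩
    rcases key S hS h3 h1 with e | e
    exacts [e.1.2 hz, hz' e]

theorem xie4_split [Finite W] [Finite V] {H : SimpleGraph W} {P : Par} (hP : P.Ok H)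
    {J : SimpleGraph V} (hJ : In J H) {𝒯 : Set (Set V)} (h : ∀ S ∈ 𝒯, TS P H J S)
    {S1 S2 : Set V} (h1 : S1 ∈ 𝒯) (h2 : S2 ∈ 𝒯) (h12 : S2 ≠ S1) : xie4_Split 𝒯 := by
  have es : ∀ S ∈ 𝒯, ES H (xie4_G J 𝒯) S := by
    intro S hS
    have := (h S hS).1.map (J' := xie4_G J 𝒯) (f := id)
      ⟨injOn_id S, fun x hx y hy e => ⟨e, S, hS, hx, hy⟩⟩
    rwa [image_id] at this
  have hsub : S1 ⊆ ⋃₀ 𝒯 := subset_sUnion_of_mem h1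
  by_cases hU : TwoConn (xie4_G J 𝒯) (⋃₀ 𝒯)
  · by_cases hE : ES H (xie4_G J 𝒯) (⋃₀ 𝒯)
    · exfalso
      obtain ⟨f, hf⟩ := hJ
      have hf' : IHo (xie4_G J 𝒯) H f (⋃₀ 𝒯) := ⟨hf.1.injOn, fun x _ y _ e => hf.2 _ _ e.1⟩
      have h3 := hP.maxT _ (hE.map hf')
      rw [hf'.ncard] at h3
      have c1 := (h S1 h1).2.1
      have c2 := (h S2 h2).2.1
      have e1 : S1 = ⋃₀ 𝒯 := eq_of_subset_of_ncard_le hsub (by omega)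
      have e2 : S2 = ⋃₀ 𝒯 := eq_of_subset_of_ncard_le (subset_sUnion_of_mem h2) (by omega)
      exact h12 (e2.trans e1.symm)
    · obtain ⟨T, hT⟩ : ∃ T, Torso H (xie4_G J 𝒯) (⋃₀ 𝒯) T := by
        by_contra hn
        exact hE ⟨hU, fun T hT => hn ⟨T, hT⟩⟩
      exact xie4_torso es hU hT
  · obtain ⟨v, hv⟩ : ∃ v, ¬ ConnOn (xie4_G J 𝒯).Adj (⋃₀ 𝒯 \ {v}) := by
      by_contra hn
      refine hU ⟨(es S1 h1).1.1.trans (ncard_le_ncard hsub (toFinite _)), fun v => ?_⟩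
      by_contra h3
      exact hn ⟨v, h3⟩
    exact xie4_cut (fun S hS => (es S hS).1) hv

theorem xie4_two [Finite V] {A : Set V} (h : 4 ≤ A.ncard) (a b : V) : 2 ≤ (A \ {a, b}).ncard := by
  have h1 := ncard_pair_le a b
  have h2 : A ⊆ (A \ {a, b}) ∪ {a, b} := subset_sdiff_union _ _
  have h3 := (ncard_le_ncard h2 (toFinite _)).trans (ncard_union_le _ _)
  omega

theorem xie4_free [Finite W] [Finite V] {H : SimpleGraph W} {P : Par} (hP : P.Ok H)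
    (h4 : 4 ≤ P.vT) {J : SimpleGraph V} (hJ : In J H) : ∀ (n : ℕ) (𝒯 : Set (Set V)),
    𝒯.ncard = n → 𝒯.Nonempty → (∀ S ∈ 𝒯, TS P H J S) → 4 ≤ (xie4_Free 𝒯).ncard := by
  intro n
  induction n using Nat.strong_induction_on with
  | _ n ih =>
  rintro 𝒯 rfl ⟨S1, h1⟩ h
  by_cases h0 : ∀ S2 ∈ 𝒯, S2 = S1
  · have hs : S1 ⊆ xie4_Free 𝒯 := fun y hy => ⟨S1, h1, hy, fun S' hS' _ => h0 S' hS'⟩
    have := ncard_le_ncard hs (toFinite _)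
    have := (h S1 h1).2.1
    omega
  obtain ⟨S2, h2, h12⟩ : ∃ S2 ∈ 𝒯, S2 ≠ S1 := by
    by_contra hn
    refine h0 fun S2 h2 => ?_
    by_contra e
    exact hn ⟨S2, h2, e⟩
  obtain ⟨G, a, b, k1, ⟨A, hA, kA⟩, B, hB, kB⟩ := xie4_split hP hJ h h1 h2 h12
  have i1 := ih {S | S ∈ 𝒯 ∧ (S ∩ G).Nonempty}.ncard
    (ncard_lt_ncard ⟨fun _ h => h.1, fun h => kB (h hB).2⟩ (toFinite _)) _ rfl ⟨A, hA, kA⟩
    fun S hS => h S hS.1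
  have i2 := ih {S | S ∈ 𝒯 ∧ ¬ (S ∩ G).Nonempty}.ncard
    (ncard_lt_ncard ⟨fun _ h => h.1, fun h => (h hA).2 kA⟩ (toFinite _)) _ rfl ⟨B, hB, kB⟩
    fun S hS => h S hS.1
  have j1 := xie4_two i1 a b
  have j2 := xie4_two i2 a b
  have inG : ∀ y ∈ xie4_Free {S | S ∈ 𝒯 ∧ (S ∩ G).Nonempty} \ {a, b}, y ∈ G := by
    rintro y ⟨⟨S, hS, hy, -⟩, hy'⟩
    exact (k1 S hS.1 hS.2 hy).resolve_right hy'
  have outG : ∀ y ∈ xie4_Free {S | S ∈ 𝒯 ∧ ¬ (S ∩ G).Nonempty} \ {a, b}, y ∉ G := by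
    rintro y ⟨⟨S, hS, hy, -⟩, -⟩ hG
    exact hS.2 ⟨y, hy, hG⟩
  have hd : Disjoint (xie4_Free {S | S ∈ 𝒯 ∧ (S ∩ G).Nonempty} \ {a, b})
      (xie4_Free {S | S ∈ 𝒯 ∧ ¬ (S ∩ G).Nonempty} \ {a, b}) :=
    disjoint_left.2 fun y hy hy' => outG y hy' (inG y hy)
  have hs : (xie4_Free {S | S ∈ 𝒯 ∧ (S ∩ G).Nonempty} \ {a, b}) ∪
      (xie4_Free {S | S ∈ 𝒯 ∧ ¬ (S ∩ G).Nonempty} \ {a, b}) ⊆ xie4_Free 𝒯 := by
    rintro y (hy | hy)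
    · have hG := inG y hy
      obtain ⟨⟨S, hS, hy1, hy2⟩, -⟩ := hy
      exact ⟨S, hS.1, hy1, fun S' hS' e => hy2 S' ⟨hS', y, e, hG⟩ e⟩
    · have hG := outG y hy
      obtain ⟨⟨S, hS, hy1, hy2⟩, hy3⟩ := hy
      exact ⟨S, hS.1, hy1, fun S' hS' e =>
        hy2 S' ⟨hS', fun hn => (k1 S' hS' hn e).elim hG hy3⟩ e⟩
  have := ncard_le_ncard hs (toFinite _)
  rw [ncard_union_eq hd] at this
  omega

end IE4

theorem ie4_stmt : IE4Stmt := by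
  intro W V _ _ H P hP h4 J hJ 𝒯 hn h
  have key : ∀ p q, ∃ y, y ≠ p ∧ y ≠ q ∧ ∀ r, y ≠ r → ∃ y', y' ≠ r ∧ Iso J 𝒯 y y' := by
    intro p q
    have h1 := xie4_two (xie4_free hP h4 hJ _ 𝒯 rfl hn h) p q
    obtain ⟨y, ⟨S, hS, hy, hu⟩, hy'⟩ :=
      nonempty_of_ncard_ne_zero (s := xie4_Free 𝒯 \ {p, q}) (by omega)
    refine ⟨y, fun e => hy' (.inl e), fun e => hy' (.inr e), fun r hr => ?_⟩
    obtain ⟨c, hc, h2, h3⟩ := (h S hS).two.nbr hy r hr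
    exact ⟨c, h2, h3, ⟨S, hS, hy⟩, fun S' hS' e => hu S' hS' e ▸ hc⟩
  refine ⟨fun p q => ?_, fun r => ?_⟩
  · obtain ⟨y, h1, h2, h3⟩ := key p q
    obtain ⟨y', -, h4⟩ := h3 p h1
    exact ⟨y, y', h1, h2, h4⟩
  · obtain ⟨y, h1, -, h3⟩ := key r r
    obtain ⟨y', h2, h4⟩ := h3 r h1
    exact ⟨y, y', h1, h2, h4⟩

end Pool.Agent.MP_1c0fc2_co.RE
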