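import Pool.Agent.MP_1c0fc2_co.RE.Basic

open Function Set Relation

namespace Pool.Agent.MP_1c0fc2_co.RE

section
variable {I T : Type} {prof : T → I → ℕ} {F H : MH prof}

theorem xlink_inl {ψ : MEmb F H} {v : H.V} (h : Sum.inl v ∈ ψ.Bag) : ∃ x, ψ.v x = v := by
  obtain ⟨x | x, e⟩ := h
  · exact ⟨x, Sum.inl.inj e⟩
  · exact absurd e Sum.inr_ne_inl

theorem xlink_wb {ψ : MEmb F H} {d : H.E} (h : Sum.inr d ∈ ψ.Bag) : H.WB d ⊆ ψ.Bag := by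
  rintro _ (rfl | ⟨v, hv, rfl⟩)
  · exact h
  · obtain ⟨x | x, e⟩ := h
    · exact absurd e Sum.inl_ne_inr
    · obtain rfl : ψ.e x = d := Sum.inr.inj e
      obtain ⟨y, -, rfl⟩ := (ψ.mem_iff v x).1 hv
      exact ⟨.inl y, rfl⟩

theorem xlink_inr {d e : H.E} (h : Sum.inr d ∈ H.WB e) : d = e := by
  rcases h with h | ⟨v, -, h⟩
  · exact Sum.inr.inj h
  · exact absurd h Sum.inr_ne_inl

theorem xlink_mem {ψ : MEmb F H} {x : F.V} {d : F.E} (h : H.mem (ψ.v x) (ψ.e d)) : F.mem x d := by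
  obtain ⟨y, hy, e⟩ := (ψ.mem_iff _ d).1 h
  exact ψ.v_inj e ▸ hy

theorem xlink_pt {N : Set (Set (H.V ⊕ H.E))} {X C : Set (H.V ⊕ H.E)} {v : H.V}
    (h : At N X C ⊆ {.inl v}) : At N X C = ∅ ∨
      ∃ ℓ, H.Lk ℓ ∧ At N X C ⊆ ℓ ∧ ℓ ⊆ X ∧ ∃ ν ∈ N, ℓ ⊆ ν ∧ (ν ∩ C).Nonempty := by
  by_cases hv : Sum.inl v ∈ At N X C
  · obtain ⟨hw, c, hc, ν, n1, n2, n3⟩ := hv
    exact .inr ⟨_, .inl ⟨v, rfl⟩, h, singleton_subset_iff.2 hw, ν, n1, singleton_subset_iff.2 n2,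
      c, n3, hc⟩
  · exact .inl (eq_empty_of_forall_notMem fun w hw => hv (h hw ▸ hw))

variable {Q : Type} {φ : Q → MEmb F H} {g : ℕ}

theorem xlink_two (h : Good φ g) {p : Q} {x y : H.V ⊕ H.E} {d : H.E} (hxy : x ≠ y)
    (hx : x ∈ H.WB d) (hy : y ∈ H.WB d) (hx' : x ∈ (φ p).Bag) (hy' : y ∈ (φ p).Bag) :
    Sum.inr d ∈ (φ p).Bag := by
  rcases hx with rfl | ⟨u, hu, rfl⟩
  · exact hx'
  rcases hy with rfl | ⟨v, hv, rfl⟩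
  · exact hy'
  obtain ⟨a, rfl⟩ := xlink_inl hx'
  obtain ⟨b, rfl⟩ := xlink_inl hy'
  obtain ⟨d0, rfl⟩ := h.str p a b d (fun e => hxy (by rw [e])) hu hv
  exact ⟨.inr d0, rfl⟩

theorem xlink_inter (h : Good φ g) (p q : Q) (hpq : p ≠ q) :
    (φ p).Bag ∩ (φ q).Bag = ∅ ∨ ∃ ℓ, H.Lk ℓ ∧ (φ p).Bag ∩ (φ q).Bag ⊆ ℓ ∧
      ℓ ⊆ (φ p).Bag ∧ ℓ ⊆ (φ q).Bag := by
  have key : ∀ d, Sum.inr d ∈ (φ p).Bag → Sum.inr d ∈ (φ q).Bag →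
      ∃ ℓ, H.Lk ℓ ∧ (φ p).Bag ∩ (φ q).Bag ⊆ ℓ ∧ ℓ ⊆ (φ p).Bag ∧ ℓ ⊆ (φ q).Bag := by
    intro d h1 h2
    refine ⟨H.WB d, .inr ⟨d, rfl⟩, fun z hz => ?_, xlink_wb h1, xlink_wb h2⟩
    by_cases e : z = .inr d
    · exact .inl e
    · obtain ⟨d', h3, h4⟩ := h.b2 p q hpq z _ e hz.1 h1 hz.2 h2
      exact xlink_inr h4 ▸ h3
  by_cases hs : ((φ p).Bag ∩ (φ q).Bag).Subsingleton
  · rcases hs.eq_empty_or_singleton with e | ⟨x, e⟩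
    · exact .inl e
    · have hx : x ∈ (φ p).Bag ∩ (φ q).Bag := e ▸ rfl
      rcases x with v | d
      · exact .inr ⟨_, .inl ⟨v, rfl⟩, e.le, singleton_subset_iff.2 hx.1,
          singleton_subset_iff.2 hx.2⟩
      · exact .inr (key d hx.1 hx.2)
  · obtain ⟨x, hx, y, hy, hxy⟩ := not_subsingleton_iff.1 hs
    obtain ⟨d, h1, h2⟩ := h.b2 p q hpq x y hxy hx.1 hy.1 hx.2 hy.2
    exact .inr (key d (xlink_two h hxy h1 h2 hx.1 hy.1) (xlink_two h hxy h1 h2 hx.2 hy.2))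

theorem xlink_thin (h : Good φ g) (ℓ : Set (H.V ⊕ H.E)) (hℓ : H.Lk ℓ) :
    Thin (range fun q => (φ q).Bag) H.Lk g ℓ := by
  intro C c1 c2 c3
  rcases hℓ with ⟨v, rfl⟩ | ⟨d, rfl⟩
  · exact xlink_pt fun _ hw => hw.1
  obtain ⟨p, hp⟩ := h.cov (.inr d)
  have hsub := xlink_wb hp
  by_cases hC : ((φ p).Bag ∩ C).Nonempty
  · exact .inr ⟨_, .inr ⟨d, rfl⟩, fun _ hw => hw.1, Subset.rfl, _, ⟨p, rfl⟩, hsub, hC⟩
  have hAt : At (range fun q => (φ q).Bag) (H.WB d) C ⊆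
      At (range fun q => (φ q).Bag) (φ p).Bag C := fun _ hw => ⟨hsub hw.1, hw.2⟩
  rcases h.thin p C c1 (disjoint_left.2 fun x h1 h2 => hC ⟨x, h2, h1⟩) c3 with
    e | ⟨ℓ, ⟨v, rfl⟩ | ⟨d', rfl⟩, l2, -, l4⟩
  · exact .inl (subset_empty_iff.1 (e ▸ hAt))
  · exact xlink_pt (hAt.trans l2)
  by_cases e : d' = d
  · subst e
    exact .inr ⟨_, .inr ⟨_, rfl⟩, hAt.trans l2, Subset.rfl, l4⟩
  have pt : ∀ w ∈ At (range fun q => (φ q).Bag) (H.WB d) C,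
      ∃ v, H.mem v d ∧ H.mem v d' ∧ w = .inl v := by
    intro w hw
    have h2 := l2 (hAt hw)
    rcases hw.1 with rfl | ⟨v, hv, rfl⟩
    · exact absurd (xlink_inr h2).symm e
    · rcases h2 with h2 | ⟨u, hu, h2⟩
      · exact absurd h2 Sum.inl_ne_inr
      · exact ⟨v, hv, Sum.inl.inj h2 ▸ hu, rfl⟩
  rcases eq_empty_or_nonempty (At (range fun q => (φ q).Bag) (H.WB d) C) with e0 | ⟨w, hw⟩
  · exact .inl e0
  obtain ⟨v, h1, h2, -⟩ := pt w hw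
  refine xlink_pt (v := v) fun w' hw' => ?_
  obtain ⟨u, h3, h4, rfl⟩ := pt w' hw'
  by_contra hne
  exact e (h.lin d' d u v (fun e' => hne (by rw [e']; rfl)) h4 h2 h3 h1)

theorem xlink_noTri (h : Good φ g) (hg : 1 ≤ g) (hF : F.NoTri) : H.NoTri := by
  intro a b c d e f hab hac hbc h1 h2 h3 h4 h5 h6
  have tog : ∀ u v k, H.mem u k → H.mem v k → ∃ p, Sum.inl u ∈ (φ p).Bag ∧ .inl v ∈ (φ p).Bag :=
    fun u v k hu hv => by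
      obtain ⟨p, hp⟩ := h.cov (.inr k)
      exact ⟨p, xlink_wb hp (.inr ⟨u, hu, rfl⟩), xlink_wb hp (.inr ⟨v, hv, rfl⟩)⟩
  obtain ⟨q, qa, qb, qc⟩ : ∃ q, Sum.inl a ∈ (φ q).Bag ∧ Sum.inl b ∈ (φ q).Bag ∧
      Sum.inl c ∈ (φ q).Bag := by
    obtain ⟨p, pa, pb⟩ := tog a b d h1 h2
    by_cases hc : Sum.inl c ∈ (φ p).Bag
    · exact ⟨p, pa, pb, hc⟩
    obtain ⟨p1, t1⟩ := tog a c e h3 h4
    obtain ⟨p2, t2⟩ := tog b c f h5 h6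
    obtain ⟨ℓ, -, l2, -, _, ⟨q, rfl⟩, l4, _, l5, rfl⟩ := (h.thin p).link (C := {.inl c})
      (by rwa [ncard_singleton]) (disjoint_singleton_left.2 hc) (connOn_singleton _) pa rfl
      ⟨_, ⟨p1, rfl⟩, t1⟩
    exact ⟨q, l4 (l2 ⟨pa, _, rfl, _, ⟨p1, rfl⟩, t1⟩), l4 (l2 ⟨pb, _, rfl, _, ⟨p2, rfl⟩, t2⟩), l5⟩
  obtain ⟨a, rfl⟩ := xlink_inl qa
  obtain ⟨b, rfl⟩ := xlink_inl qb
  obtain ⟨c, rfl⟩ := xlink_inl qc
  have hab' : a ≠ b := fun e => hab (by rw [e])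
  have hac' : a ≠ c := fun e => hac (by rw [e])
  have hbc' : b ≠ c := fun e => hbc (by rw [e])
  obtain ⟨d, rfl⟩ := h.str q a b d hab' h1 h2
  obtain ⟨e, rfl⟩ := h.str q a c e hac' h3 h4
  obtain ⟨f, rfl⟩ := h.str q b c f hbc' h5 h6
  exact (hF a b c d e f hab' hac' hbc' (xlink_mem h1) (xlink_mem h2) (xlink_mem h3) (xlink_mem h4)
    (xlink_mem h5) (xlink_mem h6)).imp (congrArg _) fun h => h.imp (congrArg _) (congrArg _)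

end

theorem link_stmt : LinkStmt := fun _ _ _ _ _ _ _ _ h =>
  ⟨xlink_inter h, xlink_thin h, xlink_noTri h⟩

end Pool.Agent.MP_1c0fc2_co.RE
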