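import Pool.Agent.MP_1c0fc2_co.RE.Basic

/-! Objects of a controlled colour lie in a copy of the middle graph. -/

open Function Set Relation

namespace Pool.Agent.MP_1c0fc2_co.RE

theorem xloc_pull {U V : Type} {A : SimpleGraph U} {G R : SimpleGraph V} {Ls : Set (Set V)}
    {Bs : Set (Bag U V)} {g : ℕ} (h : Pre A G R Ls Bs g) {β : Bag U V} (hβ : β ∈ Bs) (c : Bool)
    {S : Set V} (hS : S ⊆ range β.f) (hn : S.Nonempty) :
    ∃ k : V → U, IHo (cc G R c) (cc A β.red c) k S := by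
  obtain ⟨k, hk, -⟩ := exists_pull' (J := cc A β.red c) (J' := cc G R c) (h.ind β hβ).inj
    (fun x y => (h.ccol hβ c x y).1) hS hn
  exact ⟨k, hk⟩

theorem loc_stmt (hK3 : K3Stmt) (hESNode : ESNodeStmt) (hThNode : ThNodeStmt) : LocStmt := by
  intro W U X V _ _ _ _ H P hP A E Γ RΓ Hub G R Gs Bs g c hA hg hL S
  obtain ⟨⟨-, k1, k2, k3⟩, -⟩ := hK3 W V H P hP
  have pre := hL.core.pre
  have noA : ColA P H A E c → AS P H (cc G R c) S → ∀ β ∈ Bs, ¬ S ⊆ range β.f := by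
    intro hc hS β hβ hs
    obtain ⟨k, hk⟩ := xloc_pull pre hβ c hs hS.two.nonempty
    exact hc _ _ _ (hL.kind β hβ) _ (hS.map hk)
  have node := fun hS : AS P H (cc G R c) S =>
    hESNode W U V H A G R _ Bs g hA pre (cc G R c) (cc_le pre.le c) S (hS.2.1.le.trans (k2.trans hg))
  refine ⟨fun hc hS => ?_, fun hc hS hE => ?_, fun hc hS => ?_⟩
  · rcases hThNode W U V H P A G R _ Bs g c hA (k1.trans (k2.trans hg)) pre
      (fun β hβ => (hc _ _ _ (hL.kind β hβ)).1) S (hS.2.le.trans (k3.trans hg))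
      (hS.1.mono fun _ _ _ _ e => TG_mono (subset_univ S) e) with
      ⟨_, ⟨γ, hγ, rfl⟩, hs⟩ | ⟨β, hβ, hs⟩
    · exact ⟨γ, hγ, hs⟩
    · obtain ⟨k, hk⟩ := xloc_pull pre hβ c hs hS.two.nonempty
      exact absurd (hS.map hk) ((hc _ _ _ (hL.kind β hβ)).2 _)
  · rcases (node hS).1 hE with ⟨_, ⟨γ, hγ, rfl⟩, hs⟩ | ⟨β, hβ, hs⟩
    · exact ⟨γ, hγ, hs⟩
    · exact absurd hs (noA hc hS β hβ)
  · obtain ⟨a, b, hab⟩ := hS.1
    rcases (node hS).2 a b hab with ⟨β, hβ, hs⟩ |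
      ⟨_, ⟨γ, hγ, rfl⟩, ⟨a', rfl⟩, ⟨b', rfl⟩, h2, hh⟩
    · exact absurd hs (noA hc hS β hβ)
    · obtain ⟨k, hk, e, -⟩ := exists_pull' (J := Γ) (J' := G) (hL.core.gind γ hγ).inj
        (fun x y => ((hL.core.gind γ hγ).adj x y).1) (T := S ∩ range γ) inter_subset_right
        h2.nonempty
      rw [preimage_inter_range] at e
      exact ⟨γ, hγ, ⟨a', b', hab.1, hab.2.1, (hL.core.ccol hγ c a' b').1 hab.2.2.1⟩,
        e ▸ h2.map hk, fun h hh' => hh (h ∘ k) (hk.comp (e ▸ hh'))⟩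

theorem redLoc_stmt (hK3 : K3Stmt) (hROMono : ROMonoStmt) (hLoc : LocStmt) : RedLocStmt := by
  intro W U X V Z _ _ _ _ _ H P hP m A E Γ RΓ Hub G R Gs Bs g B φ hA hg hL hC hR hφ hH O hO
  obtain ⟨⟨-, -, k2, k3⟩, -⟩ := hK3 W V H P hP
  obtain ⟨l1, -, l3⟩ := hLoc W U X V H P hP A E Γ RΓ Hub G R Gs Bs g true hA hg hL (φ '' O)
  have hcard : O.ncard ≤ g := by
    cases m
    exacts [hO.1.2.1.le.trans (k2.trans hg), hO.1.2.le.trans (k3.trans hg),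
      hO.2.1.le.trans (k2.trans hg), hO.2.le.trans (k3.trans hg)]
  have hc : ∀ γ ∈ Gs, (γ ⁻¹' (φ '' O)).ncard ≤ g := fun γ hγ =>
    (ncard_le_ncard_of_injOn γ (fun _ hx => hx) (hL.core.gind γ hγ).inj.injOn (toFinite _)).trans
      ((hφ.on O).ncard.le.trans hcard)
  have hd : ∀ γ ∈ Gs, Disjoint (γ ⁻¹' (φ '' O)) Hub := fun γ hγ =>
    disjoint_left.2 fun x hx hx' => hH γ hγ x hx' (image_subset_range φ O hx)
  have cA : ColA P H A E true → AS P H B O → ∃ γ ∈ Gs, φ '' O ⊆ range γ := by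
    intro h1 h2
    obtain ⟨γ, hγ, ⟨a, b, ha, hb, hab⟩, h3, h4⟩ := l3 h1 (h2.map (hφ.on O))
    obtain ⟨h, hh⟩ := hR _ (hc γ hγ) (hd γ hγ) h3 ⟨a, ha, b, hb, hab⟩
    exact ⟨γ, hγ, h4 h hh⟩
  have cT : ColT P H A E true → TH P H B O → ∃ γ ∈ Gs, φ '' O ⊆ range γ := fun h1 h2 =>
    l1 h1 (h2.map (hφ.on O))
  obtain ⟨γ, hγ, hs⟩ : ∃ γ ∈ Gs, φ '' O ⊆ range γ := by
    cases m
    exacts [cA hC.1 hO.1, cT hC.1 hO.1, cA hC.1 hO, cT hC.1 hO]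
  refine ⟨γ, hγ, hs, ?_⟩
  obtain ⟨k, hk, e, -⟩ := exists_pull' (J := RΓ) (J' := R) (hL.core.gind γ hγ).inj
    (fun x y => (hL.core.gcol γ hγ x y).1) hs (hO.two.nonempty.image φ)
  have hle : RΓ ≤ Γ := fun a b hab =>
    ((hL.core.gind γ hγ).adj a b).1 (hL.core.pre.le ((hL.core.gcol γ hγ a b).2 hab))
  have h2 : TwoConn RΓ (γ ⁻¹' (φ '' O)) := e ▸ (hO.two.map (hφ.on O)).map hk
  obtain ⟨h, hh⟩ := hR _ (hc γ hγ) (hd γ hγ) (h2.mono fun _ _ _ _ e => hle e) h2.edge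
  have e' : (k ∘ φ) '' O = γ ⁻¹' (φ '' O) := by rw [image_comp, e]
  rw [← e'] at hh ⊢
  exact hROMono W Z X H P hP m B RΓ (k ∘ φ) h O ((hφ.on O).comp hk)
    ⟨hh.1, fun x hx y hy e => hh.2 x hx y hy (hle e)⟩ hO

end Pool.Agent.MP_1c0fc2_co.RE
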