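import Pool.Agent.MP_1c0fc2_co.RE.Basic

open Function Set Relation

namespace Pool.Agent.MP_1c0fc2_co.RE

/-- the slot edge and the removed branch of one class -/
theorem xm0a_one (hBr : BrStmt) {U : Type} [Finite U] {A : SimpleGraph U} {Ob : Set U → Prop}
    (hA : Atoms A (Cq A) Ob) (h4 : ∀ O, Ob O → 4 ≤ O.ncard) (K : Set U) (c : U) :
    ∃ (Br τ : Set U) (m : SimpleGraph U), m ≤ A ∧
      (∀ a b x y, m.Adj a b → m.Adj x y → x = a ∨ x = b) ∧ (∀ a b, m.Adj a b → a ∈ K ∧ a ∈ Br) ∧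
      c ∉ Br ∧ (∀ O, Ob O → O ⊆ K → Disjoint O Br ∨ ∃ x ∈ O, ∃ y ∈ O, m.Adj x y) ∧
      (∀ O, Ob O → O ⊆ K → ∃ x ∈ BW Ob K, x ∈ Br) ∧ Cq A τ ∧ τ ⊆ K ∧ Disjoint Br τ ∧
      ∀ v ∈ Br, ∀ w, A.Adj v w → w ∈ Br ∨ w ∈ τ := by
  by_cases hn : {O | Ob O ∧ O ⊆ K}.Nonempty
  · obtain ⟨O, ⟨hO, hOK⟩, τ, Br, hτ, ⟨c1, c2, c3, c4⟩, hc, hd⟩ :=
      hBr U A _ _ hA _ hn (fun _ h => h.1) c
    obtain ⟨n1, a, ha⟩ := hA.nsep O τ hO hτ
    have h2 : 1 < (O \ τ).ncard := by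
      have h5 := h4 O hO
      have h6 := hτ.ncard_le
      have h7 := ncard_sdiff_add_ncard_of_subset c1
      omega
    obtain ⟨b', hb', hne⟩ := exists_ne_of_one_lt_ncard h2 a
    obtain ⟨b, hb, hba, hab⟩ := n1.step ha hb' hne
    have key : ∀ x y, (SimpleGraph.edge a b).Adj x y → (x = a ∧ y = b) ∨ (x = b ∧ y = a) :=
      fun x y h => ((SimpleGraph.edge_adj a b x y).1 h).1
    refine ⟨Br, τ, SimpleGraph.edge a b, fun x y h => ?_, fun x y z w h h' => ?_,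
      fun x y h => ?_, hc, fun O' h1 h2 => ?_, fun _ _ _ => ⟨a, ⟨O, hO, hOK, ha.1⟩, c2 ha⟩, hτ,
      c1.trans hOK, c3, c4⟩
    · rcases key x y h with ⟨rfl, rfl⟩ | ⟨rfl, rfl⟩
      exacts [hab, hab.symm]
    · rcases key x y h with ⟨rfl, rfl⟩ | ⟨rfl, rfl⟩ <;> rcases key z w h' with h3 | h3
      exacts [.inl h3.1, .inr h3.1, .inr h3.1, .inl h3.1]
    · rcases key x y h with ⟨rfl, rfl⟩ | ⟨rfl, rfl⟩
      exacts [⟨hOK ha.1, c2 ha⟩, ⟨hOK hb.1, c2 hb⟩]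
    · by_cases e : O' = O
      · subst e
        exact .inr ⟨a, ha.1, b, hb.1, (SimpleGraph.edge_adj a b a b).2 ⟨.inl ⟨rfl, rfl⟩, hab.ne⟩⟩
      · exact .inl (hd O' ⟨h1, h2⟩ e)
  · exact ⟨∅, ∅, ⊥, bot_le, fun _ _ _ _ h => h.elim, fun _ _ h => h.elim, fun h => h,
      fun _ _ _ => .inl (disjoint_empty _), fun O h1 h2 => (hn ⟨O, h1, h2⟩).elim,
      .inl subsingleton_empty, empty_subset _, disjoint_empty _, fun _ h => h.elim⟩

/-- the convexity rule survives the removal of a branch -/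
theorem xm0a_rule {U : Type} {A J : SimpleGraph U} (hJ : J ≤ A) {K Br τ : Set U}
    (h : Rule .S1 A K) (hτ : Cq A τ) (hK : τ ⊆ K) (hd : Disjoint Br τ)
    (hc : ∀ v ∈ Br, ∀ w, A.Adj v w → w ∈ Br ∨ w ∈ τ) : Rule .S1 J (K \ Br) := by
  intro t ht C hC hadj hconn
  by_cases hm : (C ∩ Br).Nonempty
  · obtain ⟨x0, hx0, hx0'⟩ := hm
    have hsub : C ⊆ Br := hconn.sub hx0 hx0' fun x _ y hy hx e =>
      (hc x hx y (hJ e)).resolve_right fun hy' =>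
        disjoint_left.1 hC hy ⟨hK hy', disjoint_right.1 hd hy'⟩
    have htτ : t ∈ τ := (hc x0 hx0' t (hJ (hadj x0 hx0)).symm).resolve_left ht.2
    rintro a ⟨ha, hta, x, hx, hax⟩ b ⟨hb, htb, y, hy, hby⟩
    have haτ : a ∈ τ := (hc x (hsub hx) a (hJ hax).symm).resolve_left ha.2
    have hbτ : b ∈ τ := (hc y (hsub hy) b (hJ hby).symm).resolve_left hb.2
    exact ((hτ.three htτ haτ hbτ).resolve_left hta.ne).resolve_left htb.ne
  · have hCK : Disjoint C K := disjoint_left.2 fun x hx hxK =>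
      disjoint_left.1 hC hx ⟨hxK, fun hxB => hm ⟨x, hx, hxB⟩⟩
    refine (h t ht.1 C hCK (fun x hx => hJ (hadj x hx))
      (hconn.mono fun _ _ _ _ e => hJ e)).anti ?_
    rintro a ⟨ha, hta, x, hx, hax⟩
    exact ⟨ha.1, hJ hta, x, hx, hJ hax⟩

theorem m0A_stmt (hEq : EqStmt) (hAtomA : AtomAStmt) (hBr : BrStmt) (hRP : RPStmt) :
    M0AStmt := by
  intro W U _ _ H P hP hcase A hAH s hfam
  obtain ⟨L, _, K, ⟨cov, rp, dis, rule⟩, wt⟩ := hfam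
  rcases isEmpty_or_nonempty U with hU | hU
  · refine ⟨⊥, Empty, inferInstance, Empty.elim, ⟨bot_le, fun _ _ _ h => h.elim,
      fun _ _ _ _ h => h.elim⟩, ⟨fun O hO => ?_, fun _ _ h => ?_, fun l => l.elim,
      fun l => l.elim⟩, fun l => l.elim, fun l => l.elim, fun h => h.elim⟩
    · obtain ⟨x, -⟩ := hO.two.nonempty
      exact isEmptyElim x
    · obtain ⟨l, -⟩ := h
      exact l.elim
  obtain ⟨c, hc⟩ := (hRP U L A K ∅).2.2.2.2 rp hU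
  have hA := hAtomA W U H P hP A hAH
  choose Br τ m m1 m2 m3 m4 m5 m6 m7 m8 m9 m10 using fun l =>
    xm0a_one hBr hA (fun O hO => hO.2.1 ▸ hcase.1) (K l) (c l)
  have same : ∀ {l l' x}, x ∈ K l → x ∈ K l' → l = l' := fun {l l' x} h h' => by
    by_contra e
    exact disjoint_left.1 (dis l l' e) h h'
  have up : ∀ O, AS P H (A \ ⨆ l, m l) O → AS P H A O := fun O hO => by
    have := hO.map ((ih_id (sdiff_le (a := A) (b := ⨆ l, m l))).on O)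
    rwa [image_id] at this
  refine ⟨⨆ l, m l, L, inferInstance, fun l => K l \ Br l,
    ⟨iSup_le m1, fun a b d h h' => ?_, fun a b x y h h' e => ?_⟩,
    ⟨fun O hO => ?_, ?_, fun l l' e => (dis l l' e).mono sdiff_subset sdiff_subset, fun l =>
      xm0a_rule sdiff_le (rule l) (m7 l) (m8 l) (m9 l) (m10 l)⟩, fun l => ?_, fun l => ?_,
    fun h => h.elim⟩
  · obtain ⟨l, h⟩ := SimpleGraph.iSup_adj.1 h
    obtain ⟨l', h'⟩ := SimpleGraph.iSup_adj.1 h'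
    obtain rfl := same (m3 l _ _ h).1 (m3 l' _ _ h').1
    exact ((m2 l _ _ _ _ h h'.symm).resolve_left h'.ne').symm
  · obtain ⟨l, h⟩ := SimpleGraph.iSup_adj.1 h
    obtain ⟨l', h'⟩ := SimpleGraph.iSup_adj.1 h'
    have ha := m3 l _ _ h
    have hx := m3 l' _ _ h'
    by_cases hl : l = l'
    · subst hl
      exact (m2 l _ _ _ _ h h').resolve_left e.ne'
    · exfalso
      rcases hc l l' hl with h1 | h1
      · have h2 : a = c l := h1 ⟨ha.1, .inr ⟨x, hx.1, fun h3 => hl (same h3 hx.1), e⟩⟩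
        exact m4 l (h2 ▸ ha.2)
      · have h2 : x = c l' := h1 ⟨hx.1, .inr ⟨a, ha.1, fun h3 => hl (same ha.1 h3), e.symm⟩⟩
        exact m4 l' (h2 ▸ hx.2)
  · obtain ⟨l, hl⟩ := cov O (up O hO)
    rcases m5 l O (up O hO) hl with h | ⟨x, hx, y, hy, h⟩
    · exact ⟨l, subset_sdiff.2 ⟨hl, h⟩⟩
    · obtain ⟨f, hf⟩ := hAH
      exact ((hEq W U U H P hP (A \ ⨆ l, m l) A id f O ((ih_id sdiff_le).on O) (hf.on _)
        (.inr hO) x hx y hy (m1 l h)).2 (SimpleGraph.iSup_adj.2 ⟨l, h⟩)).elim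
  · have h1 := (hRP U L A K ∅).1 rp (A \ ⨆ l, m l) (⋃ l, K l \ Br l) sdiff_le
    have h2 : (fun l => K l ∩ ⋃ l, K l \ Br l) = fun l => K l \ Br l := by
      funext l
      refine Subset.antisymm ?_ fun x hx => ⟨hx.1, mem_iUnion.2 ⟨l, hx⟩⟩
      rintro x ⟨hx, hx'⟩
      obtain ⟨l', hl'⟩ := mem_iUnion.1 hx'
      obtain rfl := same hx hl'.1
      exact hl'
    rwa [h2, empty_inter] at h1
  · rcases (BW (BO P H .S1 (A \ ⨆ l, m l)) (K l \ Br l)).eq_empty_or_nonempty with h | h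
    · rw [h, ncard_empty]
      exact Nat.zero_le _
    · obtain ⟨_, O, hO, hOK, -⟩ := h
      obtain ⟨x, hx, hxB⟩ := m6 l O (up O hO) (hOK.trans sdiff_subset)
      refine Nat.le_of_lt_succ (lt_of_lt_of_le (ncard_lt_ncard ⟨?_, fun h => ?_⟩) (wt l))
      · rintro w ⟨O', h1, h2, h3⟩
        exact ⟨O', up O' h1, h2.trans sdiff_subset, h3⟩
      · obtain ⟨O', -, h2, h3⟩ := h hx
        exact (h2 h3).2 hxB
  · refine disjoint_left.2 ?_
    rintro x hx ⟨y, h⟩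
    obtain ⟨l', h⟩ := SimpleGraph.iSup_adj.1 h
    obtain rfl := same hx.1 (m3 l' _ _ h).1
    exact hx.2 (m3 l _ _ h).2

end Pool.Agent.MP_1c0fc2_co.RE
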