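import Pool.Agent.MP_1c0fc2_co.RE.Basic

/-! Choice of the slot edges in the cases where the blue objects are theta sets. -/

open Function Set Relation

namespace Pool.Agent.MP_1c0fc2_co.RE

theorem xm0t_bo {W U : Type} {P : Par} {H : SimpleGraph W} {m : Mode} (hm : m ≠ .S1)
    (J : SimpleGraph U) : BO P H m J = TH P H J := by
  cases m
  · rfl
  · rfl
  · exact absurd rfl hm
  · rfl

theorem xm0t_mono {W U : Type} [Finite U] {P : Par} {H : SimpleGraph W} {J J' : SimpleGraph U}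
    (h : J ≤ J') {O : Set U} (hO : TH P H J O) : TH P H J' O := by
  have := hO.map ((ih_id h).on O)
  rwa [image_id] at this

/-- the data chosen in one class -/
structure xm0t_Data {W U : Type} (P : Par) (H : SimpleGraph W) (A : SimpleGraph U) (K : Set U)
    (c : U) (O τ Br : Set U) (y y' : U) : Prop where
  th : TH P H A O
  sub : O ⊆ K
  one : τ.Subsingleton
  cut : Cut (TG P H A univ) O τ Br
  root : c ∉ Br
  oth : ∀ O', TH P H A O' → O' ⊆ K → O' ≠ O → Disjoint O' Br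
  iso : Iso A {S | S ⊆ O ∧ TS P H A S} y y'
  yO : y ∈ O
  yO' : y' ∈ O
  yB : y ∈ Br
  yB' : y' ∈ Br

theorem xm0t_class (hAtomB : AtomBStmt) (hIE : IEStmt) (hBr : BrStmt) {W U : Type} [Finite W]
    [Finite U] {H : SimpleGraph W} {P : Par} (hP : P.Ok H) {A : SimpleGraph U} (hA : In A H)
    (K : Set U) (c : U) (hG : ∃ O, TH P H A O ∧ O ⊆ K) :
    ∃ O τ Br y y', xm0t_Data P H A K c O τ Br y y' := by
  obtain ⟨a1, -, -, a4⟩ := hAtomB W U H P A
  obtain ⟨O, ⟨o1, o2⟩, τ, Br, b1, b2, b3, b4⟩ := hBr U _ _ _ a1 {O | TH P H A O ∧ O ⊆ K} hG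
    (fun O hO => a4 hP hA O hO.1) c
  obtain ⟨r, hr⟩ : ∃ r, τ ⊆ {r} := by
    rcases b1.eq_empty_or_singleton with e | ⟨r, e⟩
    · exact ⟨c, e ▸ empty_subset _⟩
    · exact ⟨r, e.le⟩
  obtain ⟨x, hx⟩ := o1.two.nonempty
  obtain ⟨D, d1, d2, -⟩ := o1.ts hx
  obtain ⟨y, y', h1, h2, h3⟩ := (hIE W U H P hP A hA {S | S ⊆ O ∧ TS P H A S} ⟨D, d1, d2⟩
    fun S hS => hS.2).2 r
  obtain ⟨S, hS, hy⟩ := h3.2.1
  have hy' := h3.2.2 S hS hy
  exact ⟨O, τ, Br, y, y', o1, o2, b1, b2, b3, fun O' e1 e2 => b4 O' ⟨e1, e2⟩, h3, hS.1 hy,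
    hS.1 hy', b2.2.1 ⟨hS.1 hy, fun e => h1 (hr e)⟩, b2.2.1 ⟨hS.1 hy', fun e => h2 (hr e)⟩⟩

/-- the chosen edges -/
def xm0t_M {U L : Type} (A : SimpleGraph U) (G : L → Prop) (y y' : L → U) : SimpleGraph U where
  Adj a b := A.Adj a b ∧ ∃ l, G l ∧ s(y l, y' l) = s(a, b)
  symm := ⟨fun _ _ ⟨h, l, h1, h2⟩ => ⟨h.symm, l, h1, h2.trans Sym2.eq_swap⟩⟩
  loopless := ⟨fun _ h => h.1.ne rfl⟩

theorem m0T_stmt (hK3 : K3Stmt) (hAtomB : AtomBStmt) (hIE : IEStmt) (hBr : BrStmt)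
    (hBridge : BridgeStmt) (hRP : RPStmt) : M0TStmt := by
  intro W U _ _ H P hP m hm hC A hA s ⟨L, hL, K, hK, hw⟩
  rcases isEmpty_or_nonempty U with hU | hU
  · refine ⟨⊥, L, hL, K, ⟨bot_le, fun _ _ _ h => h.elim, fun _ _ _ _ h => h.elim⟩, ?_,
      fun l => ?_, fun l => ?_, fun _ a => isEmptyElim a⟩
    · rwa [sdiff_bot]
    · rw [eq_empty_of_isEmpty (BW _ _), ncard_empty]
      exact Nat.zero_le _
    · exact disjoint_left.2 fun a => isEmptyElim a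
  rw [xm0t_bo hm] at hK hw
  obtain ⟨r1, -, -, -, r5⟩ := hRP U L A K ∅
  obtain ⟨c, hc⟩ := r5 hK.rp hU
  let G : L → Prop := fun l => ∃ O, TH P H A O ∧ O ⊆ K l
  have key : ∀ l, ∃ (O τ Br : Set U) (y y' : U),
      (G l → xm0t_Data P H A (K l) (c l) O τ Br y y') ∧ (¬ G l → Br = ∅) := by
    intro l
    by_cases h : G l
    · obtain ⟨O, τ, Br, y, y', d⟩ := xm0t_class hAtomB hIE hBr hP hA (K l) (c l) h
      exact ⟨O, τ, Br, y, y', fun _ => d, fun h' => absurd h h'⟩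
    · exact ⟨∅, ∅, ∅, c l, c l, fun h' => absurd h' h, fun _ => rfl⟩
  choose O τ Br y y' hd h0 using key
  let M : SimpleGraph U := xm0t_M A G y y'
  have hM : ∀ a b, M.Adj a b → ∃ l, G l ∧ s(y l, y' l) = s(a, b) ∧ a ∈ K l ∧ a ∈ Br l := by
    rintro a b ⟨-, l, h1, h2⟩
    refine ⟨l, h1, h2, ?_⟩
    rcases Sym2.eq_iff.1 h2 with ⟨rfl, -⟩ | ⟨-, rfl⟩
    · exact ⟨(hd l h1).sub (hd l h1).yO, (hd l h1).yB⟩
    · exact ⟨(hd l h1).sub (hd l h1).yO', (hd l h1).yB'⟩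
  have heq : ∀ l l' x, x ∈ K l → x ∈ K l' → l = l' := fun l l' x h1 h2 => by
    by_contra e
    exact disjoint_left.1 (hK.dis l l' e) h1 h2
  have hMat : Mat M := by
    intro a b b' h1 h2
    obtain ⟨l, -, l2, l3, -⟩ := hM a b h1
    obtain ⟨l', -, l2', l3', -⟩ := hM a b' h2
    obtain rfl := heq l l' a l3 l3'
    exact Sym2.congr_right.1 (l2.symm.trans l2')
  let Y : Set U := {x | ∀ l, x ∈ K l → x ∉ Br l}
  have hY : ∀ l x, x ∈ K l → x ∉ Br l → x ∈ Y := fun l x h1 h2 l' h3 => heq l l' x h1 h3 ▸ h2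
  obtain ⟨b1, b2⟩ := hBridge W U H P hP A M hA
  refine ⟨M, L, hL, fun l => K l ∩ Y, ⟨fun _ _ h => h.1, hMat, fun a b a' b' h1 h2 h3 => ?_⟩,
    ⟨fun S hS => ?_, ?_, fun l l' e => (hK.dis l l' e).mono inter_subset_left inter_subset_left,
      fun l => ?_⟩, fun l => ?_, fun l => ?_, fun _ => b2 hMat fun a b h => ?_⟩
  · obtain ⟨l, -, l2, l3, l4⟩ := hM a b h1
    obtain ⟨l', -, l2', l3', l4'⟩ := hM a' b' h2
    by_cases e : l = l'
    · subst e
      rcases Sym2.eq_iff.1 (l2.symm.trans l2') with ⟨e, -⟩ | ⟨-, e⟩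
      · exact absurd e h3.ne
      · exact e.symm
    · have g : ∀ l, a ∈ Br l ∨ a' ∈ Br l → c l ∉ Br l := fun l h => by
        by_cases hG : G l
        · exact (hd l hG).root
        · rw [h0 l hG]
          exact notMem_empty _
      rcases hc l l' e with h | h
      · have e' : a = c l := h ⟨l3, .inr ⟨a', l3', fun h4 => e (heq l l' a' h4 l3'), h3⟩⟩
        exact absurd (e' ▸ l4) (g l (.inl l4))
      · have e' : a' = c l' := h ⟨l3', .inr ⟨a, l3, fun h4 => e (heq l l' a l3 h4), h3.symm⟩⟩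
        exact absurd (e' ▸ l4') (g l' (.inr l4'))
  · rw [xm0t_bo hm] at hS
    have h1 : TH P H A S := xm0t_mono sdiff_le hS
    obtain ⟨l, hl⟩ := hK.cov S h1
    have d := hd l ⟨S, h1, hl⟩
    have h2 : S ≠ O l := by
      rintro rfl
      exact b1 _ _ _ ⟨d.iso.1, l, ⟨_, h1, hl⟩, rfl⟩ d.yO d.iso hS.1
    exact ⟨l, fun x hx => ⟨hl hx, hY l x (hl hx) (disjoint_left.1 (d.oth S h1 hl h2) hx)⟩⟩
  · have := r1 hK.rp (A \ M) Y sdiff_le
    rwa [empty_inter] at this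
  · have hr := hK.rule l
    cases m
    · trivial
    · trivial
    · exact absurd rfl hm
    · intro a ha b hb w h1 h2 h3
      have hw' : w ∈ K l := hr a ha.1 b hb.1 w h1.1 h2.1 h3.1
      refine ⟨hw', hY l w hw' fun hB => ?_⟩
      have hG : G l := by
        by_contra hG
        rw [h0 l hG] at hB
        exact hB
      obtain ⟨⟨k1, k2, -⟩, k3⟩ := hK3 W U H P hP
      have k4 : P.vT = 3 := le_antisymm (k2.trans hC.1.le) k1
      have k5 : TS P H A {a, b, w} :=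
        ((k3 A _).2.1 k4).2 ⟨a, b, w, h1.1, h2.1, h3.1, rfl⟩
      have k6 : ∀ x ∈ K l ∩ Y, x ∈ ({a, b, w} : Set U) → A.Adj x w → x ∈ τ l := fun x x1 x2 x3 =>
        ((hd l hG).cut.2.2.2 w hB x ⟨x3.symm, _, subset_univ _, k5, by simp, x2⟩).resolve_left
          (x1.2 l x1.1)
      exact h1.ne ((hd l hG).one (k6 a ha (by simp) h2.1) (k6 b hb (by simp) h3.1))
  · rw [xm0t_bo hm]
    by_cases hG : G l
    · have d := hd l hG
      have h1 : BW (TH P H (A \ M)) (K l ∩ Y) ⊆ BW (TH P H A) (K l) \ {y l} := by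
        rintro x ⟨S, s1, s2, s3⟩
        refine ⟨⟨S, xm0t_mono sdiff_le s1, s2.trans inter_subset_left, s3⟩, ?_⟩
        rintro rfl
        exact (s2 s3).2 l (s2 s3).1 d.yB
      have h2 := ncard_le_ncard h1 (toFinite _)
      have h3 := ncard_sdiff_singleton_add_one
        (show y l ∈ BW (TH P H A) (K l) from ⟨_, d.th, d.sub, d.yO⟩) (toFinite _)
      have h4 := hw l
      omega
    · have h1 : BW (TH P H (A \ M)) (K l ∩ Y) = ∅ := by
        refine eq_empty_of_forall_notMem ?_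
        rintro x ⟨S, s1, s2, -⟩
        exact hG ⟨S, xm0t_mono sdiff_le s1, s2.trans inter_subset_left⟩
      rw [h1, ncard_empty]
      exact Nat.zero_le _
  · refine disjoint_left.2 ?_
    rintro a ha ⟨b, hb⟩
    obtain ⟨l', -, -, l3, l4⟩ := hM a b hb
    exact ha.2 l' l3 l4
  · obtain ⟨l, l1, l2, -⟩ := hM a b h
    exact ⟨O l, y l, y' l, (hAtomB W U H P A).2.2.2 hP hA _ (hd l l1).th, l2, (hd l l1).iso⟩

end Pool.Agent.MP_1c0fc2_co.RE
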