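import Pool.Agent.MP_1c0fc2_co.RE.Basic

/-! A matching and an independent set that meet all atoms. -/

open Function Set Relation

namespace Pool.Agent.MP_1c0fc2_co.RE

theorem xma_ind (hBr : BrStmt) {V : Type} [Finite V] {Y : SimpleGraph V} {Al Ob : Set V → Prop}
    (hA : Atoms Y Al Ob) (Q : Set (Set V) → Prop) (h0 : Q ∅)
    (hs : ∀ (𝒪 : Set (Set V)) (O τ Br : Set V), Ob O → Al τ → Cut Y O τ Br →
      (∀ O' ∈ 𝒪, Disjoint O' Br) → Q 𝒪 → Q (insert O 𝒪)) :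
    Q {O | Ob O} := by
  suffices h : ∀ (n : ℕ) (𝒪 : Set (Set V)), 𝒪.ncard = n → (∀ O ∈ 𝒪, Ob O) → Q 𝒪 from
    h _ _ rfl fun _ h => h
  intro n
  induction n with
  | zero =>
    intro 𝒪 hn _
    rw [(ncard_eq_zero (toFinite _)).1 hn]
    exact h0
  | succ n ih =>
    intro 𝒪 hn hO
    have hne : 𝒪.Nonempty := nonempty_of_ncard_ne_zero (by omega)
    obtain ⟨O0, hO0⟩ := hne
    have hemp : Al ∅ :=
      hA.sub _ _ (hA.att O0 ∅ (hO O0 hO0) (empty_disjoint _) connOn_empty) (empty_subset _)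
    obtain ⟨c, -⟩ := (hA.nsep O0 ∅ (hO O0 hO0) hemp).2
    obtain ⟨O, hO𝒪, τ, Br, hτ, hcut, -, hdis⟩ := hBr V Y Al Ob hA 𝒪 ⟨O0, hO0⟩ hO c
    have h1 : Q (𝒪 \ {O}) := by
      refine ih _ ?_ fun O' h => hO O' h.1
      rw [ncard_sdiff_singleton_of_mem hO𝒪, hn]
      rfl
    have h2 := hs _ O τ Br (hO O hO𝒪) hτ hcut (fun O' h => hdis O' h.1 h.2) h1
    rwa [insert_sdiff_singleton, insert_eq_of_mem hO𝒪] at h2

theorem ma_stmt (hBr : BrStmt) : MAStmt := by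
  intro V _ Y Ob hA h4
  have key := xma_ind hBr hA (fun 𝒪 => ∃ M, M ≤ Y ∧ Mat M ∧
    (∀ a b, M.Adj a b → ∃ O ∈ 𝒪, a ∈ O) ∧ ∀ O ∈ 𝒪, ∃ a ∈ O, ∃ b ∈ O, M.Adj a b)
    ⟨⊥, bot_le, fun _ _ _ h => h.elim, fun _ _ h => h.elim, fun _ h => h.elim⟩ ?_
  · obtain ⟨M, h1, h2, -, h3⟩ := key
    exact ⟨M, h1, h2, h3⟩
  rintro 𝒪 O τ Br hO hτ ⟨-, hc2, -, -⟩ hdis ⟨M, hle, hmat, hsup, hall⟩
  have hcard : 1 < (O \ τ).ncard := by
    have h1 := h4 O hO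
    have h2 := hτ.ncard_le
    have h3 := ncard_le_ncard_sdiff_add_ncard O τ (toFinite _)
    omega
  obtain ⟨a, b0, ha, hb0, hab0⟩ := (one_lt_ncard_iff (toFinite _)).1 hcard
  obtain ⟨b, hb, hba, hab⟩ := (hA.nsep O τ hO hτ).1.step ha hb0 (Ne.symm hab0)
  have hout : ∀ x ∈ O \ τ, ∀ y, ¬ M.Adj x y := by
    intro x hx y h
    obtain ⟨O', hO', hx'⟩ := hsup x y h
    exact disjoint_left.1 (hdis O' hO') hx' (hc2 hx)
  have hadj : ∀ x y, (M ⊔ SimpleGraph.edge a b).Adj x y ↔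
      M.Adj x y ∨ (x = a ∧ y = b) ∨ (x = b ∧ y = a) := by
    intro x y
    rw [SimpleGraph.sup_adj, SimpleGraph.edge_adj]
    constructor
    · rintro (h | h)
      · exact .inl h
      · exact .inr h.1
    · rintro (h | h)
      · exact .inl h
      · refine .inr ⟨h, ?_⟩
        rcases h with ⟨rfl, rfl⟩ | ⟨rfl, rfl⟩
        · exact hba.symm
        · exact hba
  refine ⟨M ⊔ SimpleGraph.edge a b, ?_, ?_, ?_, ?_⟩
  · intro x y h
    rcases (hadj x y).1 h with h | ⟨rfl, rfl⟩ | ⟨rfl, rfl⟩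
    · exact hle h
    · exact hab
    · exact hab.symm
  · intro x y z h h'
    rcases (hadj x y).1 h with h | ⟨h1, h2⟩ | ⟨h1, h2⟩ <;>
      rcases (hadj x z).1 h' with h' | ⟨h3, h4⟩ | ⟨h3, h4⟩
    · exact hmat x y z h h'
    · exact (hout x (h3 ▸ ha) y h).elim
    · exact (hout x (h3 ▸ hb) y h).elim
    · exact (hout x (h1 ▸ ha) z h').elim
    · rw [h2, h4]
    · exact (hba (h3.symm.trans h1)).elim
    · exact (hout x (h1 ▸ hb) z h').elim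
    · exact (hba (h1.symm.trans h3)).elim
    · rw [h2, h4]
  · intro x y h
    rcases (hadj x y).1 h with h | ⟨rfl, rfl⟩ | ⟨rfl, rfl⟩
    · obtain ⟨O', hO', hx⟩ := hsup x y h
      exact ⟨O', mem_insert_of_mem _ hO', hx⟩
    · exact ⟨O, mem_insert _ _, ha.1⟩
    · exact ⟨O, mem_insert _ _, hb.1⟩
  · rintro O' (rfl | hO')
    · exact ⟨a, ha.1, b, hb.1, (hadj a b).2 (.inr (.inl ⟨rfl, rfl⟩))⟩
    · obtain ⟨x, hx, y, hy, h⟩ := hall O' hO'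
      exact ⟨x, hx, y, hy, (hadj x y).2 (.inl h)⟩

theorem ia_stmt (hBr : BrStmt) : IAStmt := by
  intro V _ Y Ob hA
  have key := xma_ind hBr hA (fun 𝒪 => ∃ I, Indp Y I ∧
    (∀ a ∈ I, ∃ O ∈ 𝒪, a ∈ O) ∧ ∀ O ∈ 𝒪, ∃ v, O ∩ I = {v})
    ⟨∅, fun _ h => h.elim, fun _ h => h.elim, fun _ h => h.elim⟩ ?_
  · obtain ⟨I, h1, -, h3⟩ := key
    exact ⟨I, h1, h3⟩
  rintro 𝒪 O τ Br hO hτ ⟨hc1, hc2, -, hc4⟩ hdis ⟨I, hind, hsup, hall⟩
  have hout : ∀ x ∈ I, x ∉ Br := by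
    intro x hx h
    obtain ⟨O', hO', hx'⟩ := hsup x hx
    exact disjoint_left.1 (hdis O' hO') hx' h
  have hτI : ∀ x ∈ O ∩ I, x ∈ τ := by
    intro x hx
    by_contra h
    exact hout x hx.2 (hc2 ⟨hx.1, h⟩)
  by_cases hne : (O ∩ I).Nonempty
  · obtain ⟨v, hv⟩ := hne
    refine ⟨I, hind, fun a ha => ?_, ?_⟩
    · obtain ⟨O', hO', hx⟩ := hsup a ha
      exact ⟨O', mem_insert_of_mem _ hO', hx⟩
    · rintro O' (rfl | hO')
      · refine ⟨v, eq_singleton_iff_unique_mem.2 ⟨hv, fun w hw => ?_⟩⟩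
        by_contra h
        exact hind w hw.2 v hv.2 (hτ.adj (hτI w hw) (hτI v hv) h)
      · exact hall O' hO'
  · obtain ⟨v, hv⟩ := (hA.nsep O τ hO hτ).2
    have hnb : ∀ x ∈ I, ¬ Y.Adj v x := by
      intro x hx h
      rcases hc4 v (hc2 hv) x h with h1 | h1
      · exact hout x hx h1
      · exact hne ⟨x, hc1 h1, hx⟩
    refine ⟨insert v I, ?_, ?_, ?_⟩
    · rintro x (rfl | hx) y (rfl | hy)
      · exact Y.irrefl
      · exact hnb y hy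
      · exact fun h => hnb x hx h.symm
      · exact hind x hx y hy
    · rintro a (rfl | ha)
      · exact ⟨O, mem_insert _ _, hv.1⟩
      · obtain ⟨O', hO', hx⟩ := hsup a ha
        exact ⟨O', mem_insert_of_mem _ hO', hx⟩
    · rintro O' (rfl | hO')
      · refine ⟨v, eq_singleton_iff_unique_mem.2 ⟨⟨hv.1, mem_insert _ _⟩, ?_⟩⟩
        rintro w ⟨hw, rfl | hw'⟩
        · rfl
        · exact (hne ⟨w, hw, hw'⟩).elim
      · obtain ⟨w, hw⟩ := hall O' hO'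
        refine ⟨w, ?_⟩
        rw [inter_insert_of_notMem fun h => disjoint_left.1 (hdis O' hO') h (hc2 hv), hw]

end Pool.Agent.MP_1c0fc2_co.RE
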