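import Pool.Agent.MP_1c0fc2_co.RE.Basic

/-! The Ramsey theorem for all types at once. -/

open Function Set Relation

namespace Pool.Agent.MP_1c0fc2_co.RE

section
variable {I T : Type} {prof : T → I → ℕ} {F H H2 : MH prof}

/-- the identity embedding -/
def xmt_id (F : MH prof) : MEmb F F where
  v := id
  e := id
  v_inj := injective_id
  e_inj := injective_id
  kd_v _ := rfl
  ty_e _ := rfl
  mem_iff y _ := ⟨fun h => ⟨y, h, rfl⟩, fun ⟨_, h, e⟩ => e ▸ h⟩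

/-- composition of embeddings -/
def xmt_comp (φ : MEmb F H) (ψ : MEmb H H2) : MEmb F H2 where
  v := ψ.v ∘ φ.v
  e := ψ.e ∘ φ.e
  v_inj := ψ.v_inj.comp φ.v_inj
  e_inj := ψ.e_inj.comp φ.e_inj
  kd_v x := (ψ.kd_v _).trans (φ.kd_v x)
  ty_e d := (ψ.ty_e _).trans (φ.ty_e d)
  mem_iff y d := by
    constructor
    · intro h
      obtain ⟨z, h1, rfl⟩ := (ψ.mem_iff y _).1 h
      obtain ⟨x, h2, rfl⟩ := (φ.mem_iff z d).1 h1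
      exact ⟨x, h2, rfl⟩
    · rintro ⟨x, h, rfl⟩
      exact (ψ.mem_iff _ _).2 ⟨_, (φ.mem_iff _ _).2 ⟨x, h, rfl⟩, rfl⟩

/-- the map on nodes -/
def xmt_n (ψ : MEmb H H2) : H.V ⊕ H.E → H2.V ⊕ H2.E := Sum.map ψ.v ψ.e

theorem xmt_inj (ψ : MEmb H H2) : Injective (xmt_n ψ) := ψ.v_inj.sumMap ψ.e_inj

theorem xmt_bag (φ : MEmb F H) (ψ : MEmb H H2) : (xmt_comp φ ψ).Bag = xmt_n ψ '' φ.Bag := by
  rw [MEmb.Bag, MEmb.Bag, ← range_comp, xmt_n, Sum.map_comp_map]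
  rfl

theorem xmt_wb (ψ : MEmb H H2) (d : H.E) : xmt_n ψ '' H.WB d = H2.WB (ψ.e d) := by
  ext n
  constructor
  · rintro ⟨_, rfl | ⟨v, h, rfl⟩, rfl⟩
    · exact .inl rfl
    · exact .inr ⟨ψ.v v, (ψ.mem_iff _ _).2 ⟨v, h, rfl⟩, rfl⟩
  · rintro (rfl | ⟨v, h, rfl⟩)
    · exact ⟨.inr d, .inl rfl, rfl⟩
    · obtain ⟨x, h1, rfl⟩ := (ψ.mem_iff _ _).1 h
      exact ⟨.inl x, .inr ⟨x, h1, rfl⟩, rfl⟩

theorem xmt_lk (ψ : MEmb H H2) (ℓ : Set (H.V ⊕ H.E)) (h : H.Lk ℓ) : H2.Lk (xmt_n ψ '' ℓ) := by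
  rcases h with ⟨v, rfl⟩ | ⟨d, rfl⟩
  · exact .inl ⟨ψ.v v, image_singleton⟩
  · exact .inr ⟨_, xmt_wb ψ d⟩

theorem xmt_inl {ψ : MEmb H H2} {v : H2.V} (h : Sum.inl v ∈ ψ.Bag) : ∃ x, ψ.v x = v := by
  obtain ⟨x | x, e⟩ := h
  · exact ⟨x, Sum.inl.inj e⟩
  · cases e

theorem xmt_inr {ψ : MEmb H H2} {d : H2.E} (h : Sum.inr d ∈ ψ.Bag) : ∃ x, ψ.e x = d := by
  obtain ⟨x | x, e⟩ := h
  · cases e
  · exact ⟨x, Sum.inr.inj e⟩

theorem xmt_wb_sub {ψ : MEmb H H2} {d : H2.E} (h : Sum.inr d ∈ ψ.Bag) : H2.WB d ⊆ ψ.Bag := by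
  obtain ⟨x, rfl⟩ := xmt_inr h
  rw [← xmt_wb]
  exact image_subset_range _ _

theorem xmt_two {ψ : MEmb H H2}
    (hs : ∀ x y d, x ≠ y → H2.mem (ψ.v x) d → H2.mem (ψ.v y) d → ∃ d0, ψ.e d0 = d)
    {x y : H2.V ⊕ H2.E} {d : H2.E} (hxy : x ≠ y) (hx : x ∈ ψ.Bag) (hy : y ∈ ψ.Bag)
    (hx' : x ∈ H2.WB d) (hy' : y ∈ H2.WB d) : Sum.inr d ∈ ψ.Bag := by
  rcases hx' with rfl | ⟨u, hu, rfl⟩
  · exact hx
  rcases hy' with rfl | ⟨v, hv, rfl⟩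
  · exact hy
  obtain ⟨a, rfl⟩ := xmt_inl hx
  obtain ⟨b, rfl⟩ := xmt_inl hy
  obtain ⟨d0, rfl⟩ := hs a b d (fun e => hxy (by rw [e])) hu hv
  exact ⟨.inr d0, rfl⟩

theorem xmt_pull {ψ : MEmb H H2} {ℓ : Set (H2.V ⊕ H2.E)} (h : H2.Lk ℓ) (hs : ℓ ⊆ ψ.Bag) :
    ∃ ℓ0, H.Lk ℓ0 ∧ xmt_n ψ '' ℓ0 = ℓ := by
  rcases h with ⟨v, rfl⟩ | ⟨d, rfl⟩
  · obtain ⟨x, rfl⟩ := xmt_inl (hs rfl)
    exact ⟨{.inl x}, .inl ⟨x, rfl⟩, image_singleton⟩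
  · obtain ⟨x, rfl⟩ := xmt_inr (hs (.inl rfl))
    exact ⟨H.WB x, .inr ⟨x, rfl⟩, xmt_wb ψ x⟩

theorem xmt_cap {ψ : MEmb H H2}
    (hs : ∀ x y d, x ≠ y → H2.mem (ψ.v x) d → H2.mem (ψ.v y) d → ∃ d0, ψ.e d0 = d)
    (ℓ : Set (H2.V ⊕ H2.E)) (h : H2.Lk ℓ) : ℓ ∩ ψ.Bag = ∅ ∨ H2.Lk (ℓ ∩ ψ.Bag) := by
  rcases h with ⟨v, rfl⟩ | ⟨d, rfl⟩
  · by_cases hv : Sum.inl v ∈ ψ.Bag
    · exact .inr (.inl ⟨v, inter_eq_left.2 (singleton_subset_iff.2 hv)⟩)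
    · exact .inl (singleton_inter_eq_empty.2 hv)
  · by_cases hd : Sum.inr d ∈ ψ.Bag
    · exact .inr (.inr ⟨d, inter_eq_left.2 (xmt_wb_sub hd)⟩)
    · have h1 : (H2.WB d ∩ ψ.Bag).Subsingleton := fun x hx y hy => by
        by_contra e
        exact hd (xmt_two hs e hx.2 hy.2 hx.1 hy.1)
      rcases h1.eq_empty_or_singleton with e | ⟨x, e⟩
      · exact .inl e
      · have hx : x ∈ H2.WB d ∩ ψ.Bag := e ▸ rfl
        rcases hx.1 with rfl | ⟨v, -, rfl⟩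
        · exact absurd hx.2 hd
        · exact .inr (.inl ⟨v, e⟩)

theorem xmt_good_id (hF : F.Lin) (g : ℕ) : Good (fun _ : Unit => xmt_id F) g := by
  have h : ∀ n, n ∈ (xmt_id F).Bag := fun n => ⟨n, by cases n <;> rfl⟩
  refine ⟨hF, fun _ _ _ d _ _ _ => ⟨d, rfl⟩, fun n => ⟨(), h n⟩, fun _ _ e => absurd rfl e,
    fun _ C _ hd _ => .inl (eq_empty_of_forall_notMem ?_)⟩
  rintro w ⟨-, c, hc, -⟩
  exact disjoint_left.1 hd hc (h c)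

theorem xmt_good (hLink : LinkStmt) (hGlue : GlueStmt) (hLocal : LocalStmt) (hMap : MapStmt)
    {Q Q2 : Type} {φ : Q → MEmb F H} {ψ : Q2 → MEmb H H2} {g : ℕ} (hφ : Good φ g)
    (hψ : Good ψ g) : Good (fun z : Q2 × Q => xmt_comp (φ z.2) (ψ z.1)) g := by
  have hstr : ∀ (z : Q2 × Q) x y d, x ≠ y → H2.mem ((xmt_comp (φ z.2) (ψ z.1)).v x) d →
      H2.mem ((xmt_comp (φ z.2) (ψ z.1)).v y) d → ∃ d0, (xmt_comp (φ z.2) (ψ z.1)).e d0 = d := by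
    rintro ⟨a, p⟩ x y d hxy hx hy
    obtain ⟨d1, rfl⟩ := hψ.str a _ _ d ((φ p).v_inj.ne hxy) hx hy
    obtain ⟨x', h1, h2⟩ := ((ψ a).mem_iff _ _).1 hx
    obtain ⟨y', h3, h4⟩ := ((ψ a).mem_iff _ _).1 hy
    obtain rfl := (ψ a).v_inj h2
    obtain rfl := (ψ a).v_inj h4
    obtain ⟨d0, rfl⟩ := hφ.str p x y d1 hxy h1 h3
    exact ⟨d0, rfl⟩
  have hsub : ∀ a p, (xmt_comp (φ p) (ψ a)).Bag ⊆ (ψ a).Bag := fun a p => by
    rw [xmt_bag]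
    exact image_subset_range _ _
  refine ⟨hψ.lin, hstr, fun n => ?_, ?_, ?_⟩
  · obtain ⟨a, m, rfl⟩ := hψ.cov n
    obtain ⟨p, hp⟩ := hφ.cov m
    exact ⟨(a, p), by rw [xmt_bag]; exact mem_image_of_mem _ hp⟩
  · rintro ⟨a, p⟩ ⟨b, q⟩ hne x y hxy h1 h2 h3 h4
    by_cases hab : a = b
    · subst hab
      rw [xmt_bag] at h1 h2 h3 h4
      obtain ⟨x, h1, rfl⟩ := h1
      obtain ⟨y, h2, rfl⟩ := h2
      obtain ⟨d, d1, d2⟩ := hφ.b2 p q (fun e => hne (by rw [e])) x y (fun e => hxy (by rw [e]))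
        h1 h2 (((xmt_inj _).mem_set_image).1 h3) (((xmt_inj _).mem_set_image).1 h4)
      refine ⟨(ψ a).e d, ?_, ?_⟩ <;> rw [← xmt_wb]
      exacts [mem_image_of_mem _ d1, mem_image_of_mem _ d2]
    · exact hψ.b2 a b hab x y hxy (hsub _ _ h1) (hsub _ _ h2) (hsub _ _ h3) (hsub _ _ h4)
  · rintro ⟨a, p⟩
    obtain ⟨loc, hloc⟩ : ∃ loc : Q2 → Set (Set (H2.V ⊕ H2.E)),
        loc = fun a => image (xmt_n (ψ a)) '' range fun q => (φ q).Bag := ⟨_, rfl⟩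
    have hN : (range fun z : Q2 × Q => (xmt_comp (φ z.2) (ψ z.1)).Bag) = ⋃ b, loc b := by
      ext ν
      simp only [hloc, mem_range, mem_iUnion, mem_image, Prod.exists, xmt_bag,
        exists_exists_eq_and]
    have hl : ∀ b, ∀ ν ∈ loc b, ν ⊆ (ψ b).Bag := by
      rw [hloc]
      rintro b _ ⟨μ, -, rfl⟩
      exact image_subset_range _ _
    have key : ∀ a b x y, x ≠ y → x ∈ (ψ a).Bag → y ∈ (ψ a).Bag → Tog (loc b) x y →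
        Tog (loc a) x y := by
      rintro a b x y hxy hx hy ⟨ν, n1, n2, n3⟩
      by_cases hab : a = b
      · exact hab ▸ ⟨ν, n1, n2, n3⟩
      obtain ⟨d, d1, d2⟩ := hψ.b2 a b hab x y hxy hx hy (hl b ν n1 n2) (hl b ν n1 n3)
      obtain ⟨d0, rfl⟩ := xmt_inr (xmt_two (hψ.str a) hxy hx hy d1 d2)
      obtain ⟨q, hq⟩ := hφ.cov (.inr d0)
      rw [← xmt_wb] at d1 d2
      rw [hloc]
      exact ⟨_, ⟨_, ⟨q, rfl⟩, rfl⟩, image_mono (xmt_wb_sub hq) d1, image_mono (xmt_wb_sub hq) d2⟩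
    have hm : ∀ b Y, Thin (range fun q => (φ q).Bag) H.Lk g Y →
        Thin (loc b) H2.Lk g (xmt_n (ψ b) '' Y) := fun b Y hY => by
      rw [hloc]
      exact (hMap _ _ (xmt_n (ψ b)) _ g (xmt_inj _)).1 _ _ Y (xmt_lk _) hY
    have hX := hGlue _ _ Q2 (fun b => (ψ b).Bag) H2.Lk some (fun b => (ψ b).Bag) loc H2.Lk g
      hψ.thin (hLink I T prof H H2 Q2 ψ g hψ).1
      (fun x n b e => by rw [Option.some.inj e]) (fun _ _ _ e => by cases e) hl key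
      (fun b ℓ l1 l2 => by
        have e : {x | ∃ n ∈ ℓ, some x = some n} = ℓ := by
          ext x
          simp
        rw [e]
        obtain ⟨ℓ0, l3, rfl⟩ := xmt_pull l1 l2
        exact hm b ℓ0 ((hLink I T prof F H Q φ g hφ).2.1 ℓ0 l3)) a
    rw [hN]
    refine hLocal _ _ (loc a) H2.Lk g _ _ hX (subset_iUnion loc a) ?_ (hsub a p) ?_
      (xmt_cap (hstr (a, p)))
    · rintro x y hxy hx hy ⟨ν, n1, n2⟩
      obtain ⟨b, hb⟩ := mem_iUnion.1 n1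
      exact key a b x y hxy hx hy ⟨ν, hb, n2⟩
    · rw [xmt_bag]
      exact hm a _ (hφ.thin p)

end

theorem mt_stmt (hMT1 : MT1Stmt) (hLink : LinkStmt) (hGlue : GlueStmt) (hLocal : LocalStmt) (hMap : MapStmt) : MTStmt := by
  intro I T _ _ prof F hF κ _ _ g
  have key : ∀ l : List T, ∃ (H : MH prof) (Q : Type) (_ : Finite Q) (φ : Q → MEmb F H),
      Good φ g ∧ MRam φ κ {t | t ∈ l} := by
    intro l
    induction l with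
    | nil =>
      exact ⟨F, Unit, inferInstance, _, xmt_good_id hF g,
        fun _ => ⟨(), fun _ _ h => absurd h List.not_mem_nil⟩⟩
    | cons t l ih =>
      obtain ⟨H, Q, _, φ, h1, h2⟩ := ih
      obtain ⟨H2, Q2, _, ψ, h3, h4⟩ := hMT1 I T prof H h1.lin t κ g
      refine ⟨H2, Q2 × Q, inferInstance, _, xmt_good hLink hGlue hLocal hMap h1 h3, fun χ => ?_⟩
      obtain ⟨a, ha⟩ := h4 χ
      obtain ⟨p, hp⟩ := h2 fun d => χ ((ψ a).e d)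
      refine ⟨(a, p), fun d d' hd e => ?_⟩
      rcases List.mem_cons.1 hd with hd | hd
      · exact ha _ _ (((φ p).ty_e d).trans hd)
          (((φ p).ty_e d).trans (e.trans ((φ p).ty_e d').symm))
      · exact hp d d' hd e
  have := Fintype.ofFinite T
  obtain ⟨H, Q, _, φ, h1, h2⟩ := key Finset.univ.toList
  refine ⟨H, Q, inferInstance, φ, h1, fun χ => ?_⟩
  obtain ⟨p, hp⟩ := h2 χ
  exact ⟨p, fun d d' _ => hp d d' (Finset.mem_toList.2 (Finset.mem_univ _))⟩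

end Pool.Agent.MP_1c0fc2_co.RE
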