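import Pool.Agent.MP_1c0fc2_co.RE.Basic

/-! The tree-like pigeonhole principle for points. -/

open Function Set Relation

namespace Pool.Agent.MP_1c0fc2_co.RE

/-- the hypergraph of singletons -/
def xmt0_F (X : Type) [Finite X] : MH (fun (_ : Unit) (_ : Unit) => 1) where
  V := X
  E := X
  kd := fun _ => ()
  ty := fun _ => ()
  mem := Eq
  shape := fun e _ => ncard_eq_one.2 ⟨e, by ext v; simp⟩

theorem xmt0_pt (H : MH (fun (_ : Unit) (_ : Unit) => 1)) :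
    ∃ pt : H.E → H.V, ∀ v d, H.mem v d ↔ v = pt d := by
  choose pt hpt using fun d => ncard_eq_one.1 (H.shape d ())
  refine ⟨pt, fun v d => ?_⟩
  have h := Set.ext_iff.1 (hpt d) v
  exact ⟨fun e => h.1 ⟨e, rfl⟩, fun e => (h.2 e).1⟩

theorem xmt0_bag {I T : Type} {prof : T → I → ℕ} {F H : MH prof} (φ : MEmb F H) (v : H.V) :
    Sum.inl v ∈ φ.Bag ↔ v ∈ range φ.v := by
  constructor
  · rintro ⟨x | x, h⟩
    · exact ⟨x, Sum.inl_injective h⟩
    · exact absurd h Sum.inr_ne_inl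
  · rintro ⟨x, rfl⟩
    exact ⟨.inl x, rfl⟩

theorem mt0_stmt (hMT : MTStmt) : MT0Stmt := by
  intro X κ _ _ _ g
  obtain ⟨H, Q, hQ, φ, hG, hR⟩ := hMT Unit Unit _ (xmt0_F X)
    (fun e e' u v _ h1 _ h2 _ => (show u = e from h1).symm.trans h2) κ g
  obtain ⟨pt, hpt⟩ := xmt0_pt H
  have hwb : ∀ v d, Sum.inl v ∈ H.WB d ↔ v = pt d := by
    intro v d
    constructor
    · rintro (h | ⟨w, hw, h⟩)
      · exact absurd h Sum.inl_ne_inr
      · exact (Sum.inl_injective h).trans ((hpt w d).1 hw)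
    · intro h
      exact .inr ⟨v, (hpt v d).2 h, rfl⟩
  have hve : ∀ p (x : X), (φ p).v x = pt ((φ p).e x) := fun p x =>
    (hpt _ _).1 (((φ p).mem_iff _ _).2 ⟨x, rfl, rfl⟩)
  have htog : ∀ x y, Tog (range fun q => range (φ q).v) x y →
      Tog (range fun q => (φ q).Bag) (.inl x) (.inl y) := by
    rintro x y ⟨_, ⟨q, rfl⟩, hx, hy⟩
    exact ⟨_, ⟨q, rfl⟩, (xmt0_bag _ _).2 hx, (xmt0_bag _ _).2 hy⟩
  refine ⟨H.V, Q, inferInstance, hQ, fun p => (φ p).v, fun p => (φ p).v_inj, fun χ => ?_,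
    fun p q hpq x hx y hy => ?_, fun n => ?_, fun p C hC hd hc => ?_⟩
  · obtain ⟨p, hp⟩ := hR fun d => χ (pt d)
    refine ⟨p, fun x x' => ?_⟩
    have := hp x x' trivial rfl
    rwa [← hve, ← hve] at this
  · by_contra hxy
    obtain ⟨d, h1, h2⟩ := hG.b2 p q hpq (.inl x) (.inl y) (fun e => hxy (Sum.inl_injective e))
      ((xmt0_bag _ _).2 hx.1) ((xmt0_bag _ _).2 hy.1) ((xmt0_bag _ _).2 hx.2)
      ((xmt0_bag _ _).2 hy.2)
    exact hxy (((hwb _ _).1 h1).trans ((hwb _ _).1 h2).symm)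
  · obtain ⟨p, hp⟩ := hG.cov (.inl n)
    exact ⟨p, (xmt0_bag _ _).1 hp⟩
  · have hat : ∀ w ∈ At (range fun q => range (φ q).v) (range (φ p).v) C,
        Sum.inl w ∈ At (range fun q => (φ q).Bag) (φ p).Bag (Sum.inl '' C) := by
      rintro w ⟨hw, c, hcC, h⟩
      exact ⟨(xmt0_bag _ _).2 hw, _, mem_image_of_mem _ hcC, htog _ _ h⟩
    have hd2 : Disjoint (Sum.inl '' C) (φ p).Bag := by
      refine disjoint_left.2 ?_
      rintro _ ⟨c, hcC, rfl⟩ h
      exact disjoint_left.1 hd hcC ((xmt0_bag _ _).1 h)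
    rcases hG.thin p (Sum.inl '' C) ((ncard_image_of_injective C Sum.inl_injective).le.trans hC)
      hd2 (hc.image _ fun x _ y _ h => .inr (htog x y h)) with
      h | ⟨ℓ, hl, h1, h2, _, ⟨q, rfl⟩, h3, _, h4, c, hcC, rfl⟩
    · refine .inl (eq_empty_of_forall_notMem fun w hw => ?_)
      have := hat w hw
      rw [h] at this
      exact this
    · obtain ⟨v, hv⟩ : ∃ v, ∀ w, Sum.inl w ∈ ℓ ↔ w = v := by
        rcases hl with ⟨v, rfl⟩ | ⟨d, rfl⟩
        · exact ⟨v, fun w => ⟨fun e => Sum.inl_injective e, fun e => congrArg _ e⟩⟩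
        · exact ⟨pt d, fun w => hwb w d⟩
      refine .inr ⟨{v}, ⟨v, rfl⟩, fun w hw => (hv w).1 (h1 (hat w hw)), ?_, _, ⟨q, rfl⟩, ?_,
        c, (xmt0_bag _ _).1 h4, hcC⟩
      · exact singleton_subset_iff.2 ((xmt0_bag _ _).1 (h2 ((hv v).2 rfl)))
      · exact singleton_subset_iff.2 ((xmt0_bag _ _).1 (h3 ((hv v).2 rfl)))

end Pool.Agent.MP_1c0fc2_co.RE
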