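import Pool.Agent.MP_1c0fc2_co.RE.Basic

open Function Set Relation

namespace Pool.Agent.MP_1c0fc2_co.RE

variable {I T : Type} {prof : T → I → ℕ} {F H : MH prof} {Q : Type}

/-- a system of copies in pair form -/
structure GoodP (φ : Q → MEmb F H) (g : ℕ) : Prop where
  lin : H.Lin
  str : ∀ p x y d, x ≠ y → H.mem ((φ p).v x) d → H.mem ((φ p).v y) d → ∃ d0, (φ p).e d0 = d
  b2 : ∀ p q, p ≠ q → ∀ x y, x ≠ y → x ∈ (φ p).Bag → y ∈ (φ p).Bag → x ∈ (φ q).Bag →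
    y ∈ (φ q).Bag → ∃ d, x ∈ H.WB d ∧ y ∈ H.WB d
  pair : ∀ p (C : Set (H.V ⊕ H.E)), C.ncard ≤ g → Disjoint C (φ p).Bag →
    ConnOn (Tog (range fun q => (φ q).Bag)) C → ∀ x ∈ (φ p).Bag, ∀ y ∈ (φ p).Bag, x ≠ y →
    (∃ c ∈ C, Tog (range fun q => (φ q).Bag) x c) →
    (∃ c ∈ C, Tog (range fun q => (φ q).Bag) y c) →
    ∃ q, x ∈ (φ q).Bag ∧ y ∈ (φ q).Bag ∧ ((φ q).Bag ∩ C).Nonempty

theorem xmt1b_inl {ψ : MEmb F H} {v : H.V} : Sum.inl v ∈ ψ.Bag ↔ ∃ u, ψ.v u = v := by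
  constructor
  · rintro ⟨z | z, h⟩
    · exact ⟨z, Sum.inl_injective h⟩
    · exact (Sum.inr_ne_inl h).elim
  · rintro ⟨u, rfl⟩
    exact ⟨.inl u, rfl⟩

theorem xmt1b_inr {ψ : MEmb F H} {d : H.E} : Sum.inr d ∈ ψ.Bag ↔ ∃ u, ψ.e u = d := by
  constructor
  · rintro ⟨z | z, h⟩
    · exact (Sum.inl_ne_inr h).elim
    · exact ⟨z, Sum.inr_injective h⟩
  · rintro ⟨u, rfl⟩
    exact ⟨.inr u, rfl⟩

theorem xmt1b_wb {ψ : MEmb F H} {d : H.E} (h : Sum.inr d ∈ ψ.Bag) : H.WB d ⊆ ψ.Bag := by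
  obtain ⟨f, rfl⟩ := xmt1b_inr.1 h
  rintro _ (rfl | ⟨v, hv, rfl⟩)
  · exact h
  · obtain ⟨x, -, rfl⟩ := (ψ.mem_iff _ _).1 hv
    exact ⟨.inl x, rfl⟩

theorem xmt1b_eq {d e : H.E} (h : Sum.inr d ∈ H.WB e) : d = e := by
  rcases h with h | ⟨v, -, h⟩
  · exact Sum.inr_injective h
  · exact (Sum.inr_ne_inl h).elim

theorem xmt1b_mem {ψ : MEmb F H}
    (hs : ∀ x y d, x ≠ y → H.mem (ψ.v x) d → H.mem (ψ.v y) d → ∃ d0, ψ.e d0 = d) {d : H.E}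
    {x y : H.V ⊕ H.E} (hxy : x ≠ y) (hx : x ∈ ψ.Bag) (hy : y ∈ ψ.Bag) (hxd : x ∈ H.WB d)
    (hyd : y ∈ H.WB d) : Sum.inr d ∈ ψ.Bag := by
  rcases hxd with rfl | ⟨u, hu, rfl⟩
  · exact hx
  rcases hyd with rfl | ⟨v, hv, rfl⟩
  · exact hy
  obtain ⟨u, rfl⟩ := xmt1b_inl.1 hx
  obtain ⟨v, rfl⟩ := xmt1b_inl.1 hy
  exact xmt1b_inr.2 (hs u v d (fun e => hxy (by rw [e])) hu hv)

theorem GoodP.thin {φ : Q → MEmb F H} {g : ℕ} (h : GoodP φ g) (p : Q) :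
    Thin (range fun q => (φ q).Bag) H.Lk g (φ p).Bag := by
  intro C hC hd hc
  have key : ∀ x ∈ At (range fun q => (φ q).Bag) (φ p).Bag C,
      ∀ y ∈ At (range fun q => (φ q).Bag) (φ p).Bag C, x ≠ y → ∃ d q, x ∈ H.WB d ∧ y ∈ H.WB d ∧
        Sum.inr d ∈ (φ p).Bag ∧ Sum.inr d ∈ (φ q).Bag ∧ ((φ q).Bag ∩ C).Nonempty := by
    intro x hx y hy hxy
    obtain ⟨q, h1, h2, c, h3, h4⟩ := h.pair p C hC hd hc x hx.1 y hy.1 hxy hx.2 hy.2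
    have hpq : p ≠ q := by
      rintro rfl
      exact Set.disjoint_left.1 hd h4 h3
    obtain ⟨d, d1, d2⟩ := h.b2 p q hpq x y hxy hx.1 hy.1 h1 h2
    exact ⟨d, q, d1, d2, xmt1b_mem (h.str p) hxy hx.1 hy.1 d1 d2,
      xmt1b_mem (h.str q) hxy h1 h2 d1 d2, c, h3, h4⟩
  by_cases hs : (At (range fun q => (φ q).Bag) (φ p).Bag C).Subsingleton
  · rcases hs.eq_empty_or_singleton with e | ⟨w, e⟩
    · exact .inl e
    obtain ⟨hw, c, hc', _, ⟨q, rfl⟩, n2, n3⟩ := e.ge (mem_singleton w)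
    rcases w with v | d
    · exact .inr ⟨{.inl v}, .inl ⟨v, rfl⟩, e.le, singleton_subset_iff.2 hw, _, ⟨q, rfl⟩,
        singleton_subset_iff.2 n2, c, n3, hc'⟩
    · exact .inr ⟨H.WB d, .inr ⟨d, rfl⟩, e.le.trans (singleton_subset_iff.2 (.inl rfl)),
        xmt1b_wb hw, _, ⟨q, rfl⟩, xmt1b_wb n2, c, n3, hc'⟩
  · obtain ⟨x, hx, y, hy, hxy⟩ := not_subsingleton_iff.1 hs
    obtain ⟨d, q, -, -, d3, d4, c, c1, c2⟩ := key x hx y hy hxy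
    refine .inr ⟨H.WB d, .inr ⟨d, rfl⟩, fun z hz => ?_, xmt1b_wb d3, _, ⟨q, rfl⟩, xmt1b_wb d4,
      c, c1, c2⟩
    by_cases e : z = .inr d
    · exact .inl e
    obtain ⟨d', -, e1, e2, -⟩ := key z hz _ ⟨d3, c, c2, _, ⟨q, rfl⟩, d4, c1⟩ e
    rwa [xmt1b_eq e2]

/-- the covered part of the host -/
def xmt1b_H [Finite Q] (φ : Q → MEmb F H) : MH prof where
  V := {v : H.V // ∃ p x, (φ p).v x = v}
  E := {d : H.E // ∃ p x, (φ p).e x = d}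
  kd := fun v => H.kd v.1
  ty := fun d => H.ty d.1
  mem := fun v d => H.mem v.1 d.1
  shape := by
    rintro ⟨_, p, f, rfl⟩ i
    rw [← H.shape, ← Set.ncard_image_of_injective _ Subtype.val_injective]
    congr 1
    ext v
    constructor
    · rintro ⟨w, h, rfl⟩
      exact h
    · rintro ⟨h1, h2⟩
      obtain ⟨x, -, hx⟩ := ((φ p).mem_iff _ _).1 h1
      exact ⟨⟨v, p, x, hx⟩, ⟨h1, h2⟩, rfl⟩

def xmt1b_φ [Finite Q] (φ : Q → MEmb F H) (p : Q) : MEmb F (xmt1b_H φ) where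
  v := fun x => ⟨(φ p).v x, p, x, rfl⟩
  e := fun x => ⟨(φ p).e x, p, x, rfl⟩
  v_inj := fun _ _ h => (φ p).v_inj (congrArg Subtype.val h)
  e_inj := fun _ _ h => (φ p).e_inj (congrArg Subtype.val h)
  kd_v := (φ p).kd_v
  ty_e := (φ p).ty_e
  mem_iff := fun y d => ((φ p).mem_iff y.1 d).trans
    (exists_congr fun _ => and_congr_right fun _ => ⟨fun h => Subtype.ext h, congrArg Subtype.val⟩)

theorem GoodP.restrict [Finite Q] {φ : Q → MEmb F H} {g : ℕ} (h : GoodP φ g) {κ : Type}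
    [Nonempty κ] {S : Set T} (hr : MRam φ κ S) :
    ∃ (H' : MH prof) (φ' : Q → MEmb F H'), Good φ' g ∧ MRam φ' κ S := by
  let j : (xmt1b_H φ).V ⊕ (xmt1b_H φ).E → H.V ⊕ H.E := Sum.map Subtype.val Subtype.val
  have hj : Injective j := Subtype.val_injective.sumMap Subtype.val_injective
  have hb : ∀ p x, j x ∈ (φ p).Bag ↔ x ∈ (xmt1b_φ φ p).Bag := by
    refine fun p x => ⟨?_, ?_⟩
    · rintro ⟨y | y, e⟩
      · exact ⟨.inl y, hj e⟩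
      · exact ⟨.inr y, hj e⟩
    · rintro ⟨y | y, rfl⟩
      · exact ⟨.inl y, rfl⟩
      · exact ⟨.inr y, rfl⟩
  have ht : ∀ x y, Tog (range fun q => (xmt1b_φ φ q).Bag) x y →
      Tog (range fun q => (φ q).Bag) (j x) (j y) := by
    rintro x y ⟨_, ⟨q, rfl⟩, h1, h2⟩
    exact ⟨_, ⟨q, rfl⟩, (hb _ _).2 h1, (hb _ _).2 h2⟩
  have hP : GoodP (xmt1b_φ φ) g := by
    refine ⟨fun e e' u v huv a1 a2 a3 a4 => Subtype.ext
      (h.lin e.1 e'.1 u.1 v.1 (Subtype.val_injective.ne huv) a1 a2 a3 a4), ?_, ?_, ?_⟩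
    · intro p x y d hxy hx hy
      obtain ⟨d0, e⟩ := h.str p x y d.1 hxy hx hy
      exact ⟨d0, Subtype.ext e⟩
    · intro p q hpq x y hxy a1 a2 a3 a4
      have b1 := (hb _ _).2 a1
      have b2 := (hb _ _).2 a2
      obtain ⟨d, d1, d2⟩ := h.b2 p q hpq _ _ (hj.ne hxy) b1 b2 ((hb _ _).2 a3) ((hb _ _).2 a4)
      obtain ⟨f, rfl⟩ := xmt1b_inr.1 (xmt1b_mem (h.str p) (hj.ne hxy) b1 b2 d1 d2)
      have k : ∀ z, j z ∈ H.WB ((φ p).e f) → z ∈ (xmt1b_H φ).WB ((xmt1b_φ φ p).e f) := by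
        rintro (z | z) hz
        · rcases hz with e | ⟨v, hv, e⟩
          · exact (Sum.inl_ne_inr e).elim
          · obtain rfl : z.1 = v := Sum.inl_injective e
            exact .inr ⟨z, hv, rfl⟩
        · exact .inl (congrArg Sum.inr (Subtype.ext (xmt1b_eq hz)))
      exact ⟨_, k x d1, k y d2⟩
    · rintro p C hC hd hc x hx y hy hxy ⟨a, ha, hxa⟩ ⟨b, hb', hyb⟩
      obtain ⟨q, q1, q2, _, q3, c, q4, rfl⟩ := h.pair p (j '' C)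
        ((Set.ncard_image_of_injective _ hj).trans_le hC)
        (Set.disjoint_left.2 (by
          rintro _ ⟨c, hc', rfl⟩ e
          exact Set.disjoint_left.1 hd hc' ((hb _ _).1 e)))
        (hc.image j fun u _ v _ e => .inr (ht u v e)) _ ((hb _ _).2 hx) _ ((hb _ _).2 hy)
        (hj.ne hxy) ⟨_, ⟨a, ha, rfl⟩, ht _ _ hxa⟩ ⟨_, ⟨b, hb', rfl⟩, ht _ _ hyb⟩
      exact ⟨q, (hb _ _).1 q1, (hb _ _).1 q2, c, (hb _ _).1 q3, q4⟩
  refine ⟨_, xmt1b_φ φ, ⟨hP.lin, hP.str, ?_, hP.b2, hP.thin⟩, fun χ => ?_⟩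
  · rintro (⟨_, p, x, rfl⟩ | ⟨_, p, x, rfl⟩)
    · exact ⟨p, .inl x, rfl⟩
    · exact ⟨p, .inr x, rfl⟩
  · obtain ⟨p, hp⟩ := hr (Function.extend Subtype.val χ fun _ => Classical.arbitrary κ)
    refine ⟨p, fun d d' h1 h2 => ?_⟩
    have := hp d d' h1 h2
    rwa [show (φ p).e d = ((xmt1b_φ φ p).e d).1 from rfl,
      show (φ p).e d' = ((xmt1b_φ φ p).e d').1 from rfl, Subtype.val_injective.extend_apply,
      Subtype.val_injective.extend_apply] at this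

end Pool.Agent.MP_1c0fc2_co.RE
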