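import Pool.Agent.MP_1c0fc2_co.RE.MT1A
import Pool.Agent.MP_1c0fc2_co.RE.MT1B

open Function Set Relation

namespace Pool.Agent.MP_1c0fc2_co.RE

theorem xmt1_enum {V : Type} [Finite V] (r : V → ℕ) (hr : Injective r) (S : Set V) (n : ℕ)
    (h : S.ncard = n) : ∃ f : Fin n → V, range f = S ∧ StrictMono (r ∘ f) := by
  letI : LinearOrder V := LinearOrder.lift' r hr
  have hc : (Set.toFinite S).toFinset.card = n := by
    rw [← h, Set.ncard_eq_toFinset_card S]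
  refine ⟨(Set.toFinite S).toFinset.orderEmbOfFin hc, ?_, fun a b hab => ?_⟩
  · rw [Finset.range_orderEmbOfFin]
    simp
  · exact ((Set.toFinite S).toFinset.orderEmbOfFin hc).strictMono hab

variable {I T : Type} {prof : T → I → ℕ}

/-- positions of an edge -/
structure xmt1_K (n : I → ℕ) where
  i : I
  j : Fin (n i)

theorem xmt1_fin [Finite I] (n : I → ℕ) : Finite (xmt1_K n) :=
  Finite.of_surjective (fun k : Σ i, Fin (n i) => (⟨k.1, k.2⟩ : xmt1_K n))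
    fun k => ⟨⟨k.1, k.2⟩, rfl⟩

theorem xmt1_hg [Finite I] (F : MH prof) (t : T) :
    ∃ (_ : LinearOrder (xmt1_K (prof t))) (inc : {e : F.E // F.ty e = t} →
      xmt1_K (prof t) → F.V) (ρ : F.V → ℕ), (∀ e, StrictMono fun k => ρ (inc e k)) ∧
      (∀ e k, F.kd (inc e k) = k.1) ∧ ∀ e v, (∃ k, inc e k = v) ↔ F.mem v e.1 := by
  let r : F.V → ℕ := fun x => Finite.equivFin F.V x
  have hr : Injective r := Fin.val_injective.comp (Finite.equivFin F.V).injective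
  have hr' : ∀ v, r v < Nat.card F.V := fun v => (Finite.equivFin F.V v).2
  let c : I → ℕ := fun x => Finite.equivFin I x
  have hc : Injective c := Fin.val_injective.comp (Finite.equivFin I).injective
  have h1 : ∀ (e : {e : F.E // F.ty e = t}) i, ∃ f : Fin (prof t i) → F.V,
      range f = {v | F.mem v e.1 ∧ F.kd v = i} ∧ StrictMono (r ∘ f) :=
    fun e i => xmt1_enum r hr _ _ (by rw [F.shape, e.2])
  choose f f1 f2 using h1
  have f3 : ∀ e i j, F.mem (f e i j) e.1 ∧ F.kd (f e i j) = i :=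
    fun e i j => (f1 e i).le ⟨j, rfl⟩
  let o : xmt1_K (prof t) → ℕ ×ₗ ℕ := fun k => toLex (c k.1, k.2.1)
  have ho : Injective o := by
    rintro ⟨i, j⟩ ⟨i', j'⟩ h
    have h' := toLex.injective h
    obtain rfl : i = i' := hc (congrArg Prod.fst h')
    obtain rfl : j = j' := Fin.ext (congrArg Prod.snd h')
    rfl
  refine ⟨LinearOrder.lift' o ho, fun e k => f e k.1 k.2,
    fun v => c (F.kd v) * Nat.card F.V + r v, ?_, fun e k => (f3 e _ _).2, fun e v => ⟨?_, ?_⟩⟩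
  · rintro e ⟨i, j⟩ ⟨i', j'⟩ h
    have h' : o ⟨i, j⟩ < o ⟨i', j'⟩ := h
    simp only [(f3 e _ _).2]
    rcases Prod.Lex.toLex_lt_toLex.1 h' with h2 | ⟨h2, h3⟩
    · have a := hr' (f e i j)
      have b : (c i + 1) * Nat.card F.V ≤ c i' * Nat.card F.V := Nat.mul_le_mul_right _ h2
      rw [Nat.add_mul] at b
      omega
    · obtain rfl : i = i' := hc h2
      exact Nat.add_lt_add_left (f2 e i (show j < j' from h3)) _
  · rintro ⟨k, rfl⟩
    exact (f3 e _ _).1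
  · intro h
    obtain ⟨j, hj⟩ := (f1 e (F.kd v)).ge ⟨h, rfl⟩
    exact ⟨⟨_, j⟩, hj⟩

/-- the host with the edges of the other types -/
def xmt1_H (F : MH prof) (t : T) (H : GR.HG (xmt1_K.i : xmt1_K (prof t) → I)) (P : Type)
    [Finite P] (v : P → F.V → H.V) (hv : ∀ p, Injective (v p))
    (hk : ∀ p x, H.vc (v p x) = F.kd x) : MH prof where
  V := H.V
  E := H.E ⊕ (P × {d : F.E // F.ty d ≠ t})
  kd := H.vc
  ty := Sum.elim (fun _ => t) fun x => F.ty x.2.1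
  mem := fun y => Sum.elim (H.On y) fun x => ∃ u, F.mem u x.2.1 ∧ v x.1 u = y
  shape := by
    rintro (e | ⟨p, d⟩) i
    · have : {y | H.On y e ∧ H.vc y = i} = range fun j : Fin (prof t i) => H.inc e ⟨i, j⟩ := by
        ext y
        constructor
        · rintro ⟨⟨⟨i', j⟩, rfl⟩, h⟩
          obtain rfl : i' = i := (H.vc_inc e _).symm.trans h
          exact ⟨j, rfl⟩
        · rintro ⟨j, rfl⟩
          exact ⟨⟨_, rfl⟩, H.vc_inc e _⟩
      refine (congrArg Set.ncard this).trans ?_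
      rw [Set.ncard_range_of_injective fun a b h => by simpa using H.inc_inj e h]
      simp
    · refine Eq.trans ?_ (F.shape d.1 i)
      rw [← Set.ncard_image_of_injective _ (hv p)]
      congr 1
      ext y
      constructor
      · rintro ⟨⟨u, h1, rfl⟩, h2⟩
        exact ⟨u, ⟨h1, (hk p u).symm.trans h2⟩, rfl⟩
      · rintro ⟨u, ⟨h1, h2⟩, rfl⟩
        exact ⟨⟨u, h1, rfl⟩, (hk p u).trans h2⟩

theorem xmt1_pair {N0 N1 P : Type} [Finite N1] (j : N0 → N1) (hj : Injective j) (B0 : P → Set N0)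
    (B1 : P → Set N1) (hb : ∀ p x, j x ∈ B1 p ↔ x ∈ B0 p)
    (hp : ∀ z, z ∉ range j → ∀ p q, z ∈ B1 p → z ∈ B1 q → p = q) (g : ℕ)
    (h : ∀ p (C : Set N0), C.ncard ≤ g → Disjoint C (B0 p) → ConnOn (Tog (range B0)) C →
      ∀ x ∈ B0 p, ∀ y ∈ B0 p, x ≠ y → (∃ c ∈ C, Tog (range B0) x c) →
      (∃ c ∈ C, Tog (range B0) y c) → ∃ q, x ∈ B0 q ∧ y ∈ B0 q ∧ (B0 q ∩ C).Nonempty)
    (p : P) (C : Set N1) (hC : C.ncard ≤ g) (hd : Disjoint C (B1 p))
    (hc : ConnOn (Tog (range B1)) C) (x : N1) (hx : x ∈ B1 p) (y : N1) (hy : y ∈ B1 p)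
    (hxy : x ≠ y) (ha : ∃ c ∈ C, Tog (range B1) x c) (ha' : ∃ c ∈ C, Tog (range B1) y c) :
    ∃ q, x ∈ B1 q ∧ y ∈ B1 q ∧ (B1 q ∩ C).Nonempty := by
  have A : ∀ z ∈ B1 p, (∃ c ∈ C, Tog (range B1) z c) → z ∈ range j := by
    rintro z hz ⟨c, hc', _, ⟨q, rfl⟩, h1, h2⟩
    by_contra hn
    exact Set.disjoint_left.1 hd hc' (hp z hn q p h1 hz ▸ h2)
  have B : ∀ D, D ⊆ C \ range j → ConnOn (Tog (range B1)) D → ∀ u w, ∀ d ∈ D, ∀ d' ∈ D,
      Tog (range B1) u d → Tog (range B1) w d' → ∃ q, u ∈ B1 q ∧ w ∈ B1 q ∧ d ∈ B1 q := by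
    rintro D hD hcD u w d hd1 d' hd2 ⟨_, ⟨q, rfl⟩, h1, h2⟩ ⟨_, ⟨q', rfl⟩, h3, h4⟩
    have : D ⊆ B1 q := hcD.sub hd1 h2 (by
      rintro a ha1 b - ha2 ⟨_, ⟨r, rfl⟩, r1, r2⟩
      exact hp a (hD ha1).2 r q r1 ha2 ▸ r2)
    exact ⟨q, h1, hp d' (hD hd2).2 q' q h4 (this hd2) ▸ h3, h2⟩
  rcases (C ∩ range j).eq_empty_or_nonempty with e | ⟨c0, hc0⟩
  · obtain ⟨a, a1, a2⟩ := ha
    obtain ⟨b, b1, b2⟩ := ha'
    obtain ⟨q, q1, q2, q3⟩ := B C (fun z hz => ⟨hz, fun h' => (e.le ⟨hz, h'⟩ : z ∈ (∅ : Set N1))⟩)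
      hc x y a a1 b b1 a2 b2
    exact ⟨q, q1, q2, a, q3, a1⟩
  obtain ⟨x, rfl⟩ := A x hx ha
  obtain ⟨y, rfl⟩ := A y hy ha'
  haveI : Nonempty N0 := ⟨x⟩
  have hk : ∀ z ∈ range j, j (invFun j z) = z := fun z hz => invFun_eq hz
  have ht : ∀ u w, Tog (range B1) (j u) (j w) → Tog (range B0) u w := by
    rintro u w ⟨_, ⟨q, rfl⟩, h1, h2⟩
    exact ⟨_, ⟨q, rfl⟩, (hb _ _).1 h1, (hb _ _).1 h2⟩
  have hat : ∀ z, (∃ c ∈ C, Tog (range B1) (j z) c) →
      ∃ c ∈ invFun j '' (C ∩ range j), Tog (range B0) z c := by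
    rintro z ⟨c, c1, c2⟩
    by_cases e : c ∈ range j
    · exact ⟨_, ⟨c, ⟨c1, e⟩, rfl⟩, ht _ _ (by rwa [hk c e])⟩
    · obtain ⟨d, d1, w, w1, w2⟩ := hc.comp_nb (Y := range j) ⟨c1, e⟩ hc0
      obtain ⟨q, q1, q2, -⟩ := B _ comp_sub (comp_conn (tog_symm _)) (j z) w c
        (mem_comp ⟨c1, e⟩) d d1 c2 w2.symm
      exact ⟨_, ⟨w, w1, rfl⟩, ht _ _ ⟨_, ⟨q, rfl⟩, q1, by rwa [hk w w1.2]⟩⟩
  have hcn : ConnOn (Tog (range B1)) (C ∩ range j) := hc.trace (tog_symm _) _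
    (fun _ _ _ _ _ e => e) (by
      rintro D hD hcD u - w - - ⟨d, d1, d2⟩ ⟨d', d3, d4⟩
      obtain ⟨q, q1, q2, -⟩ := B D hD hcD u w d d1 d' d3 d2 d4
      exact ⟨_, ⟨q, rfl⟩, q1, q2⟩)
  obtain ⟨q, q1, q2, _, q3, c, q4, rfl⟩ := h p (invFun j '' (C ∩ range j))
    ((Set.ncard_image_le (Set.toFinite _)).trans
      ((Set.ncard_le_ncard inter_subset_left (Set.toFinite _)).trans hC))
    (Set.disjoint_left.2 (by
      rintro _ ⟨c, hc', rfl⟩ e
      exact Set.disjoint_left.1 hd hc'.1 (hk c hc'.2 ▸ (hb _ _).2 e)))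
    (hcn.image _ fun u hu w hw e => .inr (ht _ _ (by rwa [hk u hu.2, hk w hw.2])))
    x ((hb _ _).1 hx) y ((hb _ _).1 hy) (fun e => hxy (by rw [e])) (hat x ha) (hat y ha')
  exact ⟨q, (hb _ _).2 q1, (hb _ _).2 q2, c, hk c q4.2 ▸ (hb _ _).2 q3, q4.1⟩

theorem mt1_stmt : MT1Stmt := by
  classical
  intro I T _ _ prof F hL t κ _ _ g
  obtain ⟨_, inc, ρ, h1, h2, h3⟩ := xmt1_hg F t
  haveI := xmt1_fin (prof t)
  let F0 : GR.HG (xmt1_K.i : xmt1_K (prof t) → I) :=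
    { V := F.V, E := {e : F.E // F.ty e = t}, vc := F.kd, inc := inc
      inc_inj := fun e _ _ h => (h1 e).injective (congrArg ρ h :), vc_inc := h2 }
  have hon : ∀ v (e : F0.E), F0.On v e ↔ F.mem v e.1 := fun v e => h3 e v
  obtain ⟨H, P, _, φ, hR, hl, hs, hb2, hpair⟩ := GR.gr_nodes F0 ⟨ρ, h1⟩
    (fun e e' u v huv a1 a2 a3 a4 => Subtype.ext (hL _ _ u v huv ((hon _ _).1 a1) ((hon _ _).1 a2)
      ((hon _ _).1 a3) ((hon _ _).1 a4))) κ g
  have hon' : ∀ p y (f : F0.E), H.On y ((φ p).e f) ↔ ∃ x, F.mem x f.1 ∧ (φ p).v x = y := by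
    refine fun p y f => ⟨?_, ?_⟩
    · rintro ⟨k, rfl⟩
      exact ⟨_, (hon _ _).1 ⟨k, rfl⟩, ((φ p).inc_e f k).symm⟩
    · rintro ⟨x, hx, rfl⟩
      obtain ⟨k, rfl⟩ := (hon _ _).2 hx
      exact ⟨k, (φ p).inc_e f k⟩
  let H1 := xmt1_H F t H P (fun p => (φ p).v) (fun p => (φ p).v_inj) fun p => (φ p).vc_v
  let ψ : P → MEmb F H1 := fun p =>
    { v := (φ p).v
      e := fun d => if h : F.ty d = t then .inl ((φ p).e ⟨d, h⟩) else .inr (p, ⟨d, h⟩)
      v_inj := (φ p).v_inj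
      e_inj := by
        intro d d' h
        by_cases a : F.ty d = t <;> by_cases b : F.ty d' = t <;>
          simp only [a, b, dif_pos, dif_neg, not_false_eq_true] at h
        · exact congrArg Subtype.val ((φ p).e_inj (Sum.inl_injective h))
        · exact (Sum.inl_ne_inr h).elim
        · exact (Sum.inr_ne_inl h).elim
        · exact congrArg (fun x => x.2.1) (Sum.inr_injective h)
      kd_v := (φ p).vc_v
      ty_e := by
        intro d
        by_cases a : F.ty d = t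
        · rw [dif_pos a]
          exact a.symm
        · rw [dif_neg a]
          rfl
      mem_iff := by
        intro y d
        by_cases a : F.ty d = t
        · rw [dif_pos a]
          exact hon' p y ⟨d, a⟩
        · rw [dif_neg a]
          rfl }
  have e1 : ∀ p (f : F0.E), (ψ p).e f.1 = .inl ((φ p).e f) := fun p f => dif_pos f.2
  have e2 : ∀ p (d : {d : F.E // F.ty d ≠ t}), (ψ p).e d.1 = .inr (p, d) := fun p d => dif_neg d.2
  let j : H.V ⊕ H.E → H1.V ⊕ H1.E := Sum.map id Sum.inl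
  have hj : Injective j := injective_id.sumMap Sum.inl_injective
  have hb : ∀ p x, j x ∈ (ψ p).Bag ↔ x ∈ (φ p).nb := by
    refine fun p x => ⟨?_, ?_⟩
    · rintro ⟨y | y, h⟩
      · exact ⟨.inl y, hj h⟩
      · by_cases a : F.ty y = t
        · exact ⟨.inr ⟨y, a⟩, hj ((congrArg Sum.inr (e1 p ⟨y, a⟩)).symm.trans h)⟩
        · have := (congrArg Sum.inr (e2 p ⟨y, a⟩)).symm.trans h
          rcases x with x | x
          · exact (Sum.inr_ne_inl this).elim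
          · exact (Sum.inr_ne_inl (Sum.inr_injective this)).elim
    · rintro ⟨y | y, rfl⟩
      · exact ⟨.inl y, rfl⟩
      · exact ⟨.inr y.1, congrArg Sum.inr (e1 p y)⟩
  have hp : ∀ z, z ∉ range j → ∀ p q, z ∈ (ψ p).Bag → z ∈ (ψ q).Bag → p = q := by
    have k : ∀ r d p, Sum.inr (Sum.inr (r, d)) ∈ (ψ p).Bag → p = r := by
      intro r d p h
      obtain ⟨y, h⟩ := xmt1b_inr.1 h
      by_cases a : F.ty y = t
      · exact (Sum.inl_ne_inr ((e1 p ⟨y, a⟩).symm.trans h)).elim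
      · exact congrArg Prod.fst (Sum.inr_injective ((e2 p ⟨y, a⟩).symm.trans h))
    rintro (z | z | ⟨r, d⟩) hz p q h1 h2
    · exact (hz ⟨.inl z, rfl⟩).elim
    · exact (hz ⟨.inr z, rfl⟩).elim
    · exact (k r d p h1).trans (k r d q h2).symm
  have k1 : ∀ e p (d : {d : F.E // F.ty d ≠ t}) u v, u ≠ v → H.On u e → H.On v e →
      H1.mem u (.inr (p, d)) → H1.mem v (.inr (p, d)) → False := by
    rintro e p d _ _ huv a1 a2 ⟨x, x1, rfl⟩ ⟨y, y1, rfl⟩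
    have hxy : x ≠ y := fun h => huv (by rw [h])
    obtain ⟨f, rfl⟩ := hs p e x y hxy a1 a2
    obtain ⟨x', x2, x3⟩ := (hon' _ _ _).1 a1
    obtain ⟨y', y2, y3⟩ := (hon' _ _ _).1 a2
    rw [(φ p).v_inj x3] at x2
    rw [(φ p).v_inj y3] at y2
    exact d.2 (hL _ _ x y hxy x2 y2 x1 y1 ▸ f.2)
  have k2 : ∀ p q (d : {d : F.E // F.ty d ≠ t}) x y, x ≠ y → H1.mem ((φ p).v x) (.inr (q, d)) →
      H1.mem ((φ p).v y) (.inr (q, d)) → p = q := by
    intro p q d x y hxy a1 a2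
    by_contra hpq
    have hne := (φ p).v_inj.ne hxy
    obtain ⟨e, b1, b2⟩ := hb2 p q hpq (.inl ((φ p).v x)) (.inl ((φ p).v y))
      (Sum.inl_injective.ne hne) ⟨.inl x, rfl⟩ ⟨.inl y, rfl⟩
      (let ⟨u, _, h⟩ := a1; ⟨.inl u, congrArg Sum.inl h⟩)
      (let ⟨u, _, h⟩ := a2; ⟨.inl u, congrArg Sum.inl h⟩)
    have k : ∀ z, Sum.inl z ∈ H.nw e → H.On z e := by
      rintro z (h | ⟨v, hv, h⟩)
      · exact (Sum.inl_ne_inr h).elim
      · exact Sum.inl_injective h ▸ hv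
    exact k1 e q d _ _ hne (k _ b1) (k _ b2) a1 a2
  have hP : GoodP ψ g := by
    refine ⟨?_, ?_, ?_, xmt1_pair j hj (fun p => (φ p).nb) (fun p => (ψ p).Bag) hb hp g hpair⟩
    · rintro (e | ⟨p, d⟩) (e' | ⟨q, d'⟩) u v huv a1 a2 a3 a4
      · exact congrArg Sum.inl (hl e e' u v huv a1 a2 a3 a4)
      · exact (k1 e q d' u v huv a1 a2 a3 a4).elim
      · exact (k1 e' p d u v huv a3 a4 a1 a2).elim
      · obtain ⟨x, x1, rfl⟩ := a1
        obtain ⟨y, y1, rfl⟩ := a2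
        have hxy : x ≠ y := fun h => huv (by rw [h])
        obtain rfl := k2 p q d' x y hxy a3 a4
        obtain ⟨x', x2, x3⟩ := a3
        obtain ⟨y', y2, y3⟩ := a4
        rw [(φ p).v_inj x3] at x2
        rw [(φ p).v_inj y3] at y2
        rw [Subtype.ext (hL _ _ x y hxy x1 y1 x2 y2 : d.1 = d'.1)]
    · rintro p x y (e | ⟨q, d⟩) hxy a1 a2
      · obtain ⟨f, rfl⟩ := hs p e x y hxy a1 a2
        exact ⟨f.1, e1 p f⟩
      · obtain rfl := k2 p q d x y hxy a1 a2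
        exact ⟨d.1, e2 p d⟩
    · intro p q hpq x y hxy a1 a2 a3 a4
      obtain ⟨x, rfl⟩ : x ∈ range j := by_contra fun h => hpq (hp x h p q a1 a3)
      obtain ⟨y, rfl⟩ : y ∈ range j := by_contra fun h => hpq (hp y h p q a2 a4)
      obtain ⟨d, d1, d2⟩ := hb2 p q hpq x y (fun e => hxy (by rw [e])) ((hb _ _).1 a1)
        ((hb _ _).1 a2) ((hb _ _).1 a3) ((hb _ _).1 a4)
      have k : ∀ z ∈ H.nw d, j z ∈ H1.WB (.inl d) := by
        rintro _ (rfl | ⟨v, hv, rfl⟩)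
        · exact .inl rfl
        · exact .inr ⟨v, hv, rfl⟩
      exact ⟨_, k x d1, k y d2⟩
  obtain ⟨H', φ', h4, h5⟩ := hP.restrict (κ := κ) (S := {t}) fun χ => by
    obtain ⟨p, hp'⟩ := hR fun e => χ (.inl e)
    refine ⟨p, fun d d' a b => ?_⟩
    have a' : F.ty d = t := a
    rw [e1 p ⟨d, a'⟩, e1 p ⟨d', b.symm.trans a'⟩]
    exact hp' _ _
  exact ⟨H', P, inferInstance, φ', h4, h5⟩

end Pool.Agent.MP_1c0fc2_co.RE
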