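import Pool.Agent.MP_1c0fc2_co.RE.Basic

/-! Small cliques do not separate stiff sets; the cone shape of the blue objects. -/

open Function Set Relation

namespace Pool.Agent.MP_1c0fc2_co.RE

section Aux
variable {V W : Type} {J : SimpleGraph V} {H : SimpleGraph W} {S τ : Set V}

theorem xnsep_one (h : TwoConn J S) (hτ : (S ∩ τ).Subsingleton) : ConnOn J.Adj (S \ τ) := by
  rcases hτ.eq_empty_or_singleton with e | ⟨v, e⟩
  · rw [← sdiff_self_inter, e, sdiff_empty]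
    exact h.conn
  · rw [← sdiff_self_inter, e]
    exact h.2 v

theorem xnsep_three [Finite V] {a b c : V} (ha : a ∈ S) (hb : b ∈ S) (hc : c ∈ S) (hab : a ≠ b)
    (hac : a ≠ c) (hbc : b ≠ c) : 3 ≤ S.ncard :=
  (two_lt_ncard (toFinite S)).2 ⟨a, ha, b, hb, c, hc, hab, hac, hbc⟩

theorem xnsep_star {w : V} (hw : w ∈ S) (h : ∀ x ∈ S, x ≠ w → J.Adj w x) : ConnOn J.Adj S := by
  refine connOn_of_base (adj_symm' J) w fun b hb => ?_
  by_cases e : b = w
  · rw [e]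
  · exact .single ⟨hw, hb, h b hb e⟩

/-- no torso if no set of at most two vertices separates -/
theorem xnsep_torso [Finite V] (h : ∀ p q : V, ∀ τ ⊆ {p, q}, ConnOn J.Adj (S \ τ)) (S' : Set V) :
    ¬ Torso H J S S' := by
  rintro ⟨h1, h2, h3, g, hg, h4⟩
  obtain ⟨c, hc, hc'⟩ := exists_of_ssubset (ssubset_of_subset_of_ne h1 h2)
  have hcC : c ∈ comp J.Adj (S \ S') c := mem_comp ⟨hc, hc'⟩
  have h5 := h4 _ comp_sub (comp_conn (a := c) (adj_symm' J))
  set τ := Nb J S' (comp J.Adj (S \ S') c) with hτ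
  have hτS : τ ⊆ S' := fun x hx => hx.1
  have h6 : τ.ncard ≤ 2 := by
    rw [← (hg.sub hτS).ncard]
    exact h5.ncard_le
  have h7 : ∃ p q : V, τ ⊆ {p, q} := by
    have h8 : τ.ncard = 0 ∨ τ.ncard = 1 ∨ τ.ncard = 2 := by omega
    rcases h8 with e | e | e
    · rw [ncard_eq_zero] at e
      exact ⟨c, c, e ▸ empty_subset _⟩
    · obtain ⟨p, e⟩ := ncard_eq_one.1 e
      exact ⟨p, p, by rw [e]; simp⟩
    · obtain ⟨p, q, -, e⟩ := ncard_eq_two.1 e
      exact ⟨p, q, e.subset⟩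
  obtain ⟨p, q, hpq⟩ := h7
  obtain ⟨s, hs, hs'⟩ : ∃ s ∈ S', s ∉ τ := by
    by_contra hcon
    push Not at hcon
    have := ncard_le_ncard hcon (toFinite τ)
    omega
  obtain ⟨x, -, y, hy, hx, hy', e⟩ := (h p q τ hpq).cross (Y := comp J.Adj (S \ S') c)
    (a := c) (b := s) ⟨hc, fun h => hc' (hτS h)⟩ ⟨h1 hs, hs'⟩ hcC fun h => (comp_sub h).2 hs
  by_cases hyS : y ∈ S'
  · exact hy.2 ⟨hyS, x, hx, e.symm⟩
  · exact hy' (comp_closed hx ⟨hy.1, hyS⟩ e)

end Aux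

theorem nsep_stmt : NsepStmt := by
  rintro W V _ _ H J ⟨f, hf⟩ S a b τ ⟨ha, hb, hab, h2, hT⟩ hτ
  have : Nonempty V := ⟨a⟩
  constructor
  · by_cases hs : (S ∩ τ).Subsingleton
    · exact xnsep_one h2 hs
    rcases hτ with h | ⟨p, q, hpq, rfl⟩
    · exact absurd (h.anti inter_subset_right) hs
    have hp : p ∈ S := by
      by_contra hp
      refine hs ((subsingleton_singleton (a := q)).anti ?_)
      rintro x ⟨hx, rfl | rfl⟩
      · exact absurd hx hp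
      · rfl
    have hq : q ∈ S := by
      by_contra hq
      refine hs ((subsingleton_singleton (a := p)).anti ?_)
      rintro x ⟨hx, rfl | rfl⟩
      · rfl
      · exact absurd hx hq
    by_contra hcon
    obtain ⟨c, hc, hca, hcb⟩ : ∃ c ∈ S \ {p, q}, a ∈ comp J.Adj (S \ {p, q}) c ∪ {p, q} ∧
        b ∈ comp J.Adj (S \ {p, q}) c ∪ {p, q} := by
      by_cases h1 : a ∈ ({p, q} : Set V)
      · by_cases h3 : b ∈ ({p, q} : Set V)
        · obtain ⟨c, hc, -⟩ := not_connOn hcon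
          exact ⟨c, hc, .inr h1, .inr h3⟩
        · exact ⟨b, ⟨hb, h3⟩, .inr h1, .inl (mem_comp ⟨hb, h3⟩)⟩
      · by_cases h3 : b ∈ ({p, q} : Set V)
        · exact ⟨a, ⟨ha, h1⟩, .inl (mem_comp ⟨ha, h1⟩), .inr h3⟩
        · exact ⟨a, ⟨ha, h1⟩, .inl (mem_comp ⟨ha, h1⟩),
            .inl (comp_closed (mem_comp ⟨ha, h1⟩) ⟨hb, h3⟩ hab)⟩
    refine hT _ hca hcb ⟨union_subset (comp_sub.trans sdiff_subset) (pair_subset hp hq), ?_, ?_,
      f, hf.on _, fun C hC _ => ?_⟩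
    · intro e
      refine hcon ?_
      have e' : S \ {p, q} = comp J.Adj (S \ {p, q}) c := by
        refine Subset.antisymm (fun x hx => ?_) comp_sub
        have hx' : x ∈ comp J.Adj (S \ {p, q}) c ∪ {p, q} := by
          rw [e]
          exact hx.1
        exact hx'.resolve_right hx.2
      rw [e']
      exact comp_conn (adj_symm' J)
    · exact xnsep_three (a := c) (b := p) (c := q) (.inl (mem_comp hc)) (.inr (by simp))
        (.inr (by simp)) (fun e => hc.2 (by simp [e])) (fun e => hc.2 (by simp [e])) hpq.ne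
    · refine Cq.sub (τ := {f p, f q}) (.inr ⟨_, _, hf.2 _ _ hpq, rfl⟩) ?_
      rw [← image_pair]
      refine image_mono ?_
      rintro x ⟨hx | hx, d, hd, e⟩
      · exact absurd (.inl (comp_closed hx ⟨(hC hd).1, fun h => (hC hd).2 (.inr h)⟩ e)) (hC hd).2
      · exact hx
  · obtain ⟨p, q, -, h⟩ := hτ.pair
    obtain ⟨c, hc, h3, h4⟩ := h2.exists_ne p q
    exact ⟨c, hc, fun h' => (h h').elim h3 h4⟩

theorem cone_stmt (hEq : EqStmt) (hK3 : K3Stmt) (hNsep : NsepStmt) : ConeStmt := by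
  rintro W V _ _ H P hP m hm J ⟨f, hf⟩ S hS
  cases m
  · exact ⟨trivial, fun h => nomatch h⟩
  · exact ⟨trivial, fun h => nomatch h⟩
  · have hA : AS P H J S := hS
    have h1 : ¬ (AS P H H (f '' S) ∧ ∀ c ∈ f '' S, ∃ v ∈ f '' S, v ≠ c ∧ ¬ H.Adj c v) := hm.2 _
    have h2 : ∃ w ∈ S, ∀ x ∈ S, x ≠ w → J.Adj w x := by
      by_contra hcon
      push Not at hcon
      refine h1 ⟨hA.map (hf.on S), ?_⟩
      rintro _ ⟨w, hw, rfl⟩
      obtain ⟨x, hx, hxw, e⟩ := hcon w hw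
      exact ⟨f x, mem_image_of_mem f hx, hf.1.ne hxw, fun e' => e (hEq W V W H P hP J H f id S
        (hf.on S) ((ih_id le_rfl).on _) (.inr hA) w hw x hx e')⟩
    obtain ⟨w, hw, h2⟩ := h2
    obtain ⟨a, b, hab⟩ := hA.1
    have h3 : ∀ x, ConnOn J.Adj (S \ {w, x}) := fun x => by
      by_cases hx : x ∈ S ∧ x ≠ w
      · exact (hNsep W V H J ⟨f, hf⟩ S a b _ hab (.inr ⟨w, x, h2 x hx.1 hx.2, rfl⟩)).1
      · refine xnsep_one hA.two ((subsingleton_singleton (a := w)).anti ?_)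
        rintro y ⟨hy, rfl | rfl⟩
        · rfl
        · by_contra e
          exact hx ⟨hy, e⟩
    refine ⟨⟨hA.2.1 ▸ hm.1, w, hw, h2, h3⟩, fun _ => ⟨hA.two, xnsep_torso fun p q τ hτ => ?_⟩⟩
    by_cases hwτ : w ∈ τ
    · by_cases hs : (S ∩ τ).Subsingleton
      · exact xnsep_one hA.two hs
      obtain ⟨x, hx, hxw⟩ := (not_subsingleton_iff.1 hs).exists_ne w
      have e : τ = {w, x} := by
        refine Subset.antisymm (fun y hy => ?_) (pair_subset hwτ hx.2)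
        have e1 := hτ hwτ
        have e2 := hτ hx.2
        have e3 := hτ hy
        simp only [mem_insert_iff, mem_singleton_iff] at e1 e2 e3 ⊢
        grind
      rw [e]
      exact h3 x
    · exact xnsep_star ⟨hw, hwτ⟩ fun x hx => h2 x hx.1
  · have hT : TH P H J S := hS
    have h1 : ¬ (TH P H H (f '' S) ∧ ∀ c, ∃ D, D ⊆ f '' S ∧ Tri H D ∧ c ∉ D) := hm.2 _
    obtain ⟨⟨k1, k2, -⟩, k3⟩ := hK3 W V H P hP
    have k4 : P.vT = 3 := le_antisymm (hm.1 ▸ k2) k1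
    have h2 : ∃ c, ∀ D, D ⊆ f '' S → Tri H D → c ∈ D := by
      by_contra hcon
      push Not at hcon
      exact h1 ⟨hT.map (hf.on S), hcon⟩
    obtain ⟨c, hc⟩ := h2
    have h3 : ∀ x ∈ S, ∃ D, D ⊆ S ∧ Tri J D ∧ x ∈ D ∧ c ∈ f '' D := fun x hx => by
      obtain ⟨D, d1, d2, d3⟩ := hT.ts hx
      have d4 := ((k3 J D).2.1 k4).1 d2
      exact ⟨D, d1, d4, d3, hc _ (image_mono d1) (d4.map (hf.on D))⟩
    obtain ⟨x0, hx0⟩ := hT.two.nonempty
    obtain ⟨D0, d0, -, -, w, hw, rfl⟩ := h3 x0 hx0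
    refine ⟨⟨hT.two.1, w, d0 hw, fun x hx hxw => ?_, hT.two.2 w⟩, fun h => nomatch h⟩
    obtain ⟨D, -, d2, d3, w', hw', e⟩ := h3 x hx
    exact d2.adj (hf.1 e ▸ hw') d3 hxw.symm

end Pool.Agent.MP_1c0fc2_co.RE
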