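import Pool.Agent.MP_1c0fc2_co.RE.Basic

open Function Set Relation

namespace Pool.Agent.MP_1c0fc2_co.RE

variable {V W : Type}

theorem xpar_walk {H : SimpleGraph W} {a b : W} (p : H.Walk a b) :
    ConnOn H.Adj {x | x ∈ p.support} := by
  induction p with
  | nil =>
    refine connOn_of_subsingleton fun x hx y hy => ?_
    simp only [SimpleGraph.Walk.support_nil, List.mem_singleton, mem_ofPred_eq] at hx hy
    rw [hx, hy]
  | @cons u v w h p ih =>
    have e : {x | x ∈ (SimpleGraph.Walk.cons h p).support} = insert u {x | x ∈ p.support} := by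
      ext x
      simp
    rw [e]
    exact ih.insert (adj_symm' H) p.start_mem_support h

theorem xpar_cyc_del {H : SimpleGraph W} {v : W} (c : H.Walk v v) (hc : c.IsCycle) :
    ConnOn H.Adj ({x | x ∈ c.support} \ {v}) := by
  cases c with
  | nil => exact absurd hc SimpleGraph.Walk.not_isCycle_nil
  | @cons _ w _ h p =>
    have hp : p.IsPath := ((SimpleGraph.Walk.cons_isCycle_iff p h).1 hc).1
    have hr := hp.reverse
    have hs : ∀ x, x ∈ p.reverse.support ↔ x ∈ p.support := by simp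
    generalize p.reverse = q at hr hs
    cases q with
    | nil => exact absurd rfl h.ne
    | @cons _ z _ h' q =>
      have hv : v ∉ q.support := ((SimpleGraph.Walk.cons_isPath_iff h' q).1 hr).2
      have e : {x | x ∈ (SimpleGraph.Walk.cons h p).support} \ {v} = {x | x ∈ q.support} := by
        ext x
        have := hs x
        simp only [SimpleGraph.Walk.support_cons, List.mem_cons, mem_sdiff, mem_ofPred_eq,
          mem_singleton_iff] at this ⊢
        constructor
        · rintro ⟨h1 | h1, h2⟩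
          · exact absurd h1 h2
          · exact (this.2 h1).resolve_left h2
        · intro h1
          exact ⟨.inr (this.1 (.inr h1)), fun e => hv (e ▸ h1)⟩
      rw [e]
      exact xpar_walk q

theorem xpar_cyc [Finite W] {H : SimpleGraph W} (h : ¬ H.IsAcyclic) : ∃ S, TwoConn H S := by
  classical
  obtain ⟨v, c, hc⟩ : ∃ (v : W) (c : H.Walk v v), c.IsCycle := by
    by_contra h'
    exact h fun v c hc => h' ⟨v, c, hc⟩
  refine ⟨{x | x ∈ c.support}, ?_, fun u => ?_⟩
  · have h1 : ((c.support.tail.toFinset : Finset W) : Set W) ⊆ {x | x ∈ c.support} :=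
      fun x hx => List.mem_of_mem_tail (List.mem_toFinset.1 hx)
    refine le_trans ?_ (ncard_le_ncard h1 (toFinite _))
    rw [ncard_coe_finset, List.toFinset_card_of_nodup hc.support_nodup, List.length_tail,
      SimpleGraph.Walk.length_support]
    exact hc.three_le_length
  · by_cases hu : u ∈ c.support
    · have e : {x | x ∈ c.support} = {x | x ∈ (c.rotate u hu).support} := by
        ext x
        simp only [mem_ofPred_eq, SimpleGraph.Walk.mem_support_rotate_iff]
      rw [e]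
      exact xpar_cyc_del _ (hc.rotate hu)
    · rw [sdiff_singleton_eq_self (show u ∉ {x | x ∈ c.support} from hu)]
      exact xpar_walk c

theorem xpar_torso {H : SimpleGraph W} {J : SimpleGraph V} {S S' : Set V} (hS : TwoConn J S)
    (h : Torso H J S S') : ∃ T, TwoConn H T ∧ T.ncard = S'.ncard := by
  obtain ⟨h1, -, h3, f, h4, h5⟩ := h
  have key : ∀ C, C ⊆ S → ConnOn J.Adj C → ConnOn H.Adj (f '' (C ∩ S')) := by
    intro C hC hc
    refine (hc.trace (adj_symm' J) S' (Q := fun x y => H.Adj (f x) (f y))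
      (fun x hx y hy _ e => h4.2 x hx.2 y hy.2 e) ?_).image f fun _ _ _ _ e => .inr e
    intro D hD hd x hx y hy hxy ex ey
    exact (h5 D (fun z hz => ⟨hC (hD hz).1, (hD hz).2⟩) hd).adj
      (mem_image_of_mem f ⟨hx.2, ex⟩) (mem_image_of_mem f ⟨hy.2, ey⟩)
      fun e => hxy (h4.1 hx.2 hy.2 e)
  refine ⟨f '' S', ⟨by rw [h4.ncard]; exact h3, fun v => ?_⟩, h4.ncard⟩
  by_cases hv : v ∈ f '' S'
  · obtain ⟨u, hu, rfl⟩ := hv
    rw [← image_singleton, ← injOn_image_diff h4.1 (singleton_subset_iff.2 hu)]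
    have e : S' \ {u} = (S \ {u}) ∩ S' := by
      ext x
      exact ⟨fun h => ⟨⟨h1 h.1, h.2⟩, h.1⟩, fun h => ⟨h.2, h.1.2⟩⟩
    rw [e]
    exact key _ sdiff_subset (hS.2 u)
  · rw [sdiff_singleton_eq_self hv]
    have := key S subset_rfl hS.conn
    rwa [inter_eq_right.2 h1] at this

theorem xpar_es [Finite W] {H : SimpleGraph W} (h : ¬ H.IsAcyclic) : ∃ S, ES H H S := by
  obtain ⟨S, hS, hm⟩ := exists_min_image {S | TwoConn H S} ncard (toFinite _) (xpar_cyc h)
  refine ⟨S, hS, fun S' ht => ?_⟩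
  obtain ⟨T, hT, e⟩ := xpar_torso hS ht
  have h1 := hm T hT
  have h2 : S'.ncard < S.ncard := ncard_lt_ncard (ht.1.ssubset_of_ne ht.2.1) (toFinite _)
  omega

theorem xpar_lex [Finite W] (H : SimpleGraph W) {p : Set W → Prop} (h : ∃ S, p S) :
    ∃ S, p S ∧ ∀ S', p S' → S'.ncard < S.ncard ∨ (S'.ncard = S.ncard ∧ ec H S' ≤ ec H S) := by
  obtain ⟨S, hS, hm⟩ := exists_max_image {S | p S} ncard (toFinite _) h
  obtain ⟨T, hT, hm'⟩ := exists_max_image {T | p T ∧ T.ncard = S.ncard} (ec H) (toFinite _)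
    ⟨S, hS, rfl⟩
  refine ⟨T, hT.1, fun S' h' => ?_⟩
  rcases (hm S' h').lt_or_eq with e | e
  · exact .inl (hT.2 ▸ e)
  · exact .inr ⟨e.trans hT.2.symm, hm' S' ⟨h', e⟩⟩

theorem par_stmt (hAtomB : AtomBStmt) : ParStmt := by
  intro W _ H h
  obtain ⟨T, hT, hmT⟩ := xpar_lex H (xpar_es h)
  obtain ⟨A, hA, hmA⟩ := xpar_lex H (p := fun S => ∃ a b, RS H H S a b) (by
    obtain ⟨a, ha, b, hb, e⟩ := hT.1.edge
    exact ⟨T, a, b, hT.rs ha hb e⟩)
  let P : ℕ → Par := fun θ => ⟨T.ncard, ec H T, A.ncard, ec H A, θ⟩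
  have hTS : ∀ θ, TS (P θ) H H T := fun θ => ⟨hT, rfl, le_rfl⟩
  obtain ⟨O, hO, hmO⟩ := exists_max_image {S | TwoConn (TG (P 0) H H univ) S} ncard (toFinite _)
    ⟨T, hT.1.mono fun x hx y hy e => ⟨e, T, subset_univ _, hTS 0, hx, hy⟩⟩
  refine ⟨P O.ncard, ⟨T, hTS _⟩, hmT, ⟨A, hA, rfl, le_rfl⟩, fun S a b hS => hmA S ⟨a, b, hS⟩,
    ⟨O, (hAtomB W W H (P O.ncard) H).2.2.1 O ⟨hO, hmO⟩, rfl⟩, hmO⟩

end Pool.Agent.MP_1c0fc2_co.RE
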