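import Pool.Agent.MP_1c0fc2_co.RE.Basic

/-! The parameters of the engine in the four cases. -/

open Function Set Relation

namespace Pool.Agent.MP_1c0fc2_co.RE

section
variable {U W : Type} {A : SimpleGraph U} {E : EP U} {H : SimpleGraph W} {P : Par}

theorem xparam_cut_le (S : Set U) : cutG A S ≤ A := fun _ _ h => h.1

theorem xparam_cov_le (S : Set U) : covG A S ≤ A := fun _ _ h => h.1

/-- the colour classes of the different kinds of bags -/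
theorem xparam_kind (hE : E.Ok A) {old red : SimpleGraph U} {top : Prop}
    (h : Kind A E old red top) (d : Bool) :
    (¬ top ∧ old = E.M d ∧ cc A red d = A \ E.M d) ∨ (old = E.M (!d) ∧ cc A red d = E.M (!d)) ∨
      (old = E.F ∧ ((d = true ∧ cc A red d = A \ E.F) ∨ cc A red d = E.F)) ∨
      (old = ⊥ ∧ (cc A red d = cc A (cutG A E.S) d ∨ cc A red d = cc A (covG A E.S) d)) := by
  rcases h with ⟨h1, h2, c, h3, h4⟩ | ⟨-, h2, h3⟩ | ⟨-, h2, h3 | h3⟩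
  · by_cases e : c = d
    · subst e
      exact .inl ⟨h1, h3, h4⟩
    · have e' : d = !c := by cases c <;> cases d <;> simp_all
      subst e'
      rw [Bool.not_not]
      exact .inr (.inl ⟨h3, cc_of_sdiff h2 (hE.M_le c) h4⟩)
  · subst h3
    refine .inr (.inr (.inl ⟨h2, ?_⟩))
    cases d
    · exact .inr (cc_of_sdiff (c := true) sdiff_le hE.F_le rfl)
    · exact .inl ⟨rfl, rfl⟩
  · exact .inr (.inr (.inr ⟨h2, .inl (by rw [h3])⟩))
  · exact .inr (.inr (.inr ⟨h2, .inr (by rw [h3])⟩))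

/-- sets with exactly one point in `I` are not monochromatic -/
theorem xparam_one {I O : Set U} {v : U} (h : O ∩ I = {v}) (d : Bool) :
    ¬ TwoConn (cc A (cutG A I) d) O ∧ ¬ TwoConn (cc A (covG A I) d) O := by
  have hv : v ∈ O ∩ I := h ▸ rfl
  have hn : ∀ x ∈ O, x ≠ v → x ∉ I := fun x hx e hI => e (h ▸ ⟨hx, hI⟩ : x ∈ ({v} : Set U))
  cases d
  · refine ⟨fun h2 => ?_, fun h2 => ?_⟩
    · obtain ⟨w, hw, e⟩ := h2.nbr' hv.1
      exact e.2 ⟨e.1, iff_of_true hv.2 (hn w hw e.1.ne')⟩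
    · obtain ⟨w, -, e⟩ := h2.nbr' hv.1
      exact e.2 ⟨e.1, .inl hv.2⟩
  · refine ⟨fun h2 => ?_, fun h2 => ?_⟩
    · obtain ⟨x, hx, h3, -⟩ := h2.exists_ne v v
      obtain ⟨y, hy, h4, e⟩ := h2.nbr hx v h3
      exact hn x hx h3 (e.2.2 (hn y hy h4))
    · obtain ⟨x, hx, h3, -⟩ := h2.exists_ne v v
      obtain ⟨y, hy, h4, e⟩ := h2.nbr hx v h3
      exact e.2.elim (hn x hx h3) (hn y hy h4)

theorem xparam_noTH {J : SimpleGraph U} (h : ∀ S, ¬ TS P H J S) (S : Set U) : ¬ TH P H J S :=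
  fun hS =>
    let ⟨_, ha⟩ := hS.1.nonempty
    let ⟨D, _, h2, _⟩ := hS.ts ha
    h D h2

variable [Finite U]

theorem xparam_AS {J : SimpleGraph U} (hJ : J ≤ A) {O : Set U} (h : AS P H J O) : AS P H A O := by
  simpa using h.map ((ih_id hJ).on O)

theorem xparam_TS {J : SimpleGraph U} (hJ : J ≤ A) {O : Set U} (h : TS P H J O) : TS P H A O := by
  simpa using h.map ((ih_id hJ).on O)

theorem xparam_eq [Finite W] (hEq : EqStmt) (hP : P.Ok H) (hA : In A H) {J : SimpleGraph U}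
    (hJ : J ≤ A) {O : Set U} (h : AS P H J O) {a b : U} (ha : a ∈ O) (hb : b ∈ O)
    (e : A.Adj a b) : J.Adj a b :=
  let ⟨k, hk⟩ := hA
  hEq W U U H P hP J A id k O ((ih_id hJ).on O) (hk.on _) (.inr h) a ha b hb e

theorem xparam_MA [Finite W] (hEq : EqStmt) (hP : P.Ok H) (hA : In A H) {M : SimpleGraph U}
    (hM : M ≤ A) (h : ∀ O, AS P H A O → ∃ a ∈ O, ∃ b ∈ O, M.Adj a b) (O : Set U) :
    ¬ AS P H (A \ M) O := fun hO =>
  let ⟨_, ha, _, hb, e⟩ := h O (xparam_AS sdiff_le hO)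
  (xparam_eq hEq hP hA sdiff_le hO ha hb (hM e)).2 e

omit [Finite U] in
/-- a criterion for `α`-colours -/
theorem xparam_colA (hE : E.Ok A) (d : Bool) (h1 : ∀ S, ¬ AS P H (A \ E.M d) S)
    (h2 : d = true → ∀ S, ¬ AS P H (A \ E.F) S) (h3 : Mat E.F)
    (h4 : ∀ S, ¬ AS P H (cc A (cutG A E.S) d) S) (h5 : ∀ S, ¬ AS P H (cc A (covG A E.S) d) S) :
    ColA P H A E d := by
  intro old red top hK S
  rcases xparam_kind hE hK d with ⟨-, -, e⟩ | ⟨-, e⟩ | ⟨-, ⟨e', e⟩ | e⟩ | ⟨-, e | e⟩ <;> rw [e]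
  exacts [h1 S, fun h => (hE.mat _).not_two S h.two, h2 e' S, fun h => h3.not_two S h.two, h4 S,
    h5 S]

omit [Finite U] in
/-- a criterion for `T`-colours -/
theorem xparam_colT (hE : E.Ok A) (d : Bool) (h0 : Bridge P H A (E.M d))
    (h1 : ∀ S, ¬ TH P H (A \ E.M d) S) (h2 : d = true → ∀ S, ¬ TS P H (A \ E.F) S)
    (h3 : NoBack A E.F) (h4 : ∀ S, ¬ TS P H (cc A (cutG A E.S) d) S)
    (h5 : ∀ S, ¬ TS P H (cc A (covG A E.S) d) S) : ColT P H A E d := by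
  intro old red top hK
  have key : (∀ S, ¬ TS P H (cc A red d) S) → NoBack A old →
      Tok P H A d old red top ∧ ∀ S, ¬ TH P H (cc A red d) S := fun k1 k2 =>
    ⟨.inr ⟨k1, k2⟩, xparam_noTH k1⟩
  rcases xparam_kind hE hK d with ⟨e1, e2, e⟩ | ⟨e2, e⟩ | ⟨e2, ⟨e', e⟩ | e⟩ | ⟨e2, e | e⟩
  · subst e2
    exact ⟨.inl ⟨e1, e, h0⟩, by rwa [e]⟩
  · exact key (fun S h => (hE.mat _).not_two S (e ▸ h.two)) (e2 ▸ (hE.mat _).noBack)
  · exact key (e ▸ h2 e') (e2 ▸ h3)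
  · exact key (fun S h => h3.not_two hE.F_le S (e ▸ h.two)) (e2 ▸ h3)
  · exact key (e ▸ h4) (e2 ▸ noBack_bot)
  · exact key (e ▸ h5) (e2 ▸ noBack_bot)

end

theorem param_stmt (hEq : EqStmt) (hK3 : K3Stmt) (hAtomA : AtomAStmt) (hL6 : L6Stmt)
    (hMA : MAStmt) (hIA : IAStmt) (hFP : FPStmt) (hMI : MIStmt) : ParamStmt := by
  intro W U _ _ H P hP m hm A hA
  have hAt := hAtomA W U H P hP A hA
  obtain ⟨MI, i1, i2, i3, i4⟩ := hMI W U H P hP A hA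
  obtain ⟨I, -, hI⟩ := hIA U A _ hAt
  have h3 : P.vA = 3 → ∃ E : EP U, E.Ok A ∧ ∀ d, ColT P H A E d := by
    intro hv
    obtain ⟨⟨k1, k2, -⟩, k3⟩ := hK3 W U H P hP
    have hT : P.vT = 3 := by omega
    have e : AS P H A = Tri A := funext fun S => propext ((k3 A S).2.2 hv)
    rw [e] at hAt hI
    obtain ⟨F, f1, f2, f3, f4⟩ := hFP U A hAt
    have hE : EP.Ok ⟨fun _ => MI, F, I⟩ A := ⟨fun _ => i1, fun _ => i2, f1, f2⟩
    have hI' : ∀ J ≤ A, ∀ S, TS P H J S → ∃ v, S ∩ I = {v} := fun J hJ S hS =>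
      hI S (((k3 A S).2.1 hT).1 (xparam_TS hJ hS))
    refine ⟨_, hE, fun d => xparam_colT hE d i3 i4 (fun _ S hS => ?_) f3 (fun S hS => ?_)
      fun S hS => ?_⟩
    · obtain ⟨a, ha, b, hb, e⟩ := f4 S (((k3 A S).2.1 hT).1 (xparam_TS sdiff_le hS))
      exact ((((k3 _ S).2.1 hT).1 hS).adj ha hb e.ne).2 e
    · obtain ⟨v, hv⟩ := hI' _ (cc_le (xparam_cut_le _) d) S hS
      exact (xparam_one hv d).1 hS.two
    · obtain ⟨v, hv⟩ := hI' _ (cc_le (xparam_cov_le _) d) S hS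
      exact (xparam_one hv d).2 hS.two
  have h4 : 4 ≤ P.vA → ∃ M, M ≤ A ∧ Mat M ∧ ∀ S, ¬ AS P H (A \ M) S := by
    intro hv
    obtain ⟨M, m1, m2, m3⟩ := hMA U A _ hAt fun O hO => hO.2.1 ▸ hv
    exact ⟨M, m1, m2, xparam_MA hEq hP hA m1 m3⟩
  cases m
  · obtain ⟨M, m1, m2, m3⟩ := h4 hm.1
    obtain ⟨Y, y1, y2⟩ := hL6 W U H P hP hm.1 A hA
    have hE : EP.Ok ⟨fun c => cond c M MI, M, Y⟩ A :=
      ⟨fun c => by cases c <;> assumption, fun c => by cases c <;> assumption, m1, m2.bip⟩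
    refine ⟨_, hE, xparam_colA hE true m3 (fun _ => m3) m2 (fun S hS => ?_) (fun S hS => ?_),
      xparam_colT hE false i3 i4 (fun e => absurd e Bool.false_ne_true) m2.noBack
        (fun S hS => ?_) fun S hS => ?_⟩
    · obtain ⟨a, ha, b, hb, a1, b1, e⟩ := y2 S (xparam_AS (xparam_cut_le _) hS)
      exact a1 ((xparam_eq hEq hP hA (xparam_cut_le _) hS ha hb e).2.2 b1)
    · obtain ⟨a, ha, b, hb, a1, b1, e⟩ := y2 S (xparam_AS (xparam_cov_le _) hS)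
      exact (xparam_eq hEq hP hA (xparam_cov_le _) hS ha hb e).2.elim a1 b1
    · obtain ⟨k1, k2⟩ := y1 S (xparam_TS sdiff_le hS)
      obtain ⟨b, hb, b1⟩ := not_subset.1 k1
      obtain ⟨a, ha, a1⟩ := not_subset.1 k2
      obtain ⟨x, -, y, -, x1, x2, e⟩ := hS.two.conn.cross ha hb (not_not.1 a1) b1
      exact e.2 ⟨e.1, iff_of_true x1 x2⟩
    · refine (y1 S (xparam_TS sdiff_le hS)).2 fun a ha a1 => ?_
      obtain ⟨c, -, e⟩ := hS.two.nbr' ha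
      exact e.2 ⟨e.1, .inl a1⟩
  · obtain ⟨E, h1, h2⟩ := h3 hm.1
    exact ⟨E, h1, h2 _, h2 _⟩
  · obtain ⟨M, m1, m2, m3⟩ := h4 hm.1
    have hE : EP.Ok ⟨fun _ => M, M, I⟩ A := ⟨fun _ => m1, fun _ => m2, m1, m2.bip⟩
    have key : ∀ d, ColA P H A ⟨fun _ => M, M, I⟩ d := fun d => by
      refine xparam_colA hE d m3 (fun _ => m3) m2 (fun S hS => ?_) fun S hS => ?_
      · obtain ⟨v, hv⟩ := hI S (xparam_AS (cc_le (xparam_cut_le _) d) hS)
        exact (xparam_one hv d).1 hS.two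
      · obtain ⟨v, hv⟩ := hI S (xparam_AS (cc_le (xparam_cov_le _) d) hS)
        exact (xparam_one hv d).2 hS.two
    exact ⟨_, hE, key _, key _⟩
  · obtain ⟨E, h1, h2⟩ := h3 hm.1
    exact ⟨E, h1, h2 _, h2 _⟩

end Pool.Agent.MP_1c0fc2_co.RE
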