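import Pool.Agent.MP_1c0fc2_co.RE.Basic

/-! A lower node with few ports. -/

open Function Set Relation

namespace Pool.Agent.MP_1c0fc2_co.RE

theorem xpi_bag {U V : Type} {A : SimpleGraph U} {G R : SimpleGraph V} {Ls : Set (Set V)}
    {Bs : Set (Bag U V)} {g : ℕ} (h : Pre A G R Ls Bs g) (c : Bool) {β : Bag U V} (hβ : β ∈ Bs)
    {L : Set V} (hL : L ∈ Ls) {P : Set V} (h1 : P ⊆ L) (h2 : P ⊆ range β.f) {s q : V} (hs : s ∈ P)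
    (hq : q ∈ range β.f) (hqL : q ∉ L) (e : (cc G R c).Adj s q) :
    P.Subsingleton ∨ ∃ a b, (cc G R (!c)).Adj a b ∧ P = {a, b} := by
  refine or_iff_not_imp_left.2 fun hn => ?_
  obtain ⟨p, hp, hps⟩ := (not_subsingleton_iff.1 hn).exists_ne s
  obtain ⟨a, rfl⟩ := h2 hs
  obtain ⟨b, rfl⟩ := h2 hp
  obtain ⟨a', rfl⟩ := hq
  obtain ⟨ht, hab⟩ := h.lb L hL β hβ a b (fun e => hps (by rw [e])) (h1 hs) (h1 hp)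
  obtain ⟨hm, c', hc'⟩ := h.low β hβ ht
  have e1 := (h.ccol hβ c a a').1 e
  have e2 : (cc A β.red c').Adj a a' := by
    rw [hc']
    exact ⟨cc_le (h.red_le hβ) c e1, fun e' => hqL (hm a b a' hab e' ▸ h1 hp)⟩
  obtain rfl : c = c' := by
    by_contra e'
    rw [Bool.eq_not_of_ne e'] at e1
    exact cc_not e2 e1
  refine ⟨β.f a, β.f b, (h.ccol hβ _ a b).2 ?_, Subset.antisymm (fun z hz => ?_)
    (pair_subset hs hp)⟩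
  · rwa [cc_of_sdiff (h.red_le hβ) (h.old β hβ) hc']
  · obtain ⟨a'', rfl⟩ := h2 hz
    by_cases e' : a = a''
    · exact .inl (by rw [e'])
    · exact .inr (congrArg β.f (hm a a'' b (h.lb L hL β hβ a a'' e' (h1 hs) (h1 hz)).2 hab))

theorem pi_stmt (hLeaf : LeafStmt) : PiStmt := by
  intro U V _ _ A G R Ls Bs g h c 𝒢 h𝒢 ⟨L0, hL0⟩ ν0 hν0 hν Y hY hsub
  set Z : Set V := {p | p ∈ Y ∧ ∃ q ∈ Y, (cc G R c).Adj p q ∧ ∀ L ∈ Ls, p ∈ L → q ∉ L} with hZ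
  have hZY : Z ⊆ Y := fun _ hp => hp.1
  have hP : ∀ L ∈ 𝒢, {p | p ∈ Y ∩ L ∧ ∃ q ∈ Y \ L, (cc G R c).Adj p q} = Z ∩ L := fun L hL => by
    ext p
    constructor
    · rintro ⟨⟨h1, h2⟩, q, ⟨h3, h4⟩, h5⟩
      exact ⟨⟨h1, q, h3, h5, fun L' hL' h6 => h.eq_of_mem (h𝒢 hL) hL' h2 h6 ▸ h4⟩, h2⟩
    · rintro ⟨⟨h1, q, h3, h5, h6⟩, h2⟩
      exact ⟨⟨h1, h2⟩, q, ⟨h3, h6 L (h𝒢 hL) h2⟩, h5⟩
  have hq : ∀ p ∈ Z, ∃ q ∈ Z, (cc G R c).Adj p q ∧ ∀ L ∈ Ls, p ∈ L → q ∉ L :=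
    fun p ⟨h1, q, h3, h5, h6⟩ =>
      ⟨q, ⟨h3, p, h1, h5.symm, fun L hL h7 h8 => h6 L hL h8 h7⟩, h5, h6⟩
  rcases hLeaf V (Nodes Ls Bs) (GLk G) g h.thin Z ((ncard_le_ncard hZY (toFinite _)).trans hY)
    (fun z hz => (hsub hz.1).elim (fun e => ⟨ν0, hν0, e⟩) fun ⟨L, hL, e⟩ => ⟨L, .inl (h𝒢 hL), e⟩)
    ν0 hν0 with h1 | ⟨μ, hμ, ℓ, -, -, ⟨s, hs⟩, h1⟩
  · refine ⟨L0, hL0, ?_⟩
    rw [hP L0 hL0]
    rcases (Z ∩ L0).eq_empty_or_nonempty with e | ⟨s, hs⟩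
    · exact .inl (e ▸ subsingleton_empty)
    rcases hν0 with hν0 | ⟨β, hβ, rfl⟩
    · exact absurd (h.eq_of_mem (h𝒢 hL0) hν0 hs.2 (h1 hs.1) ▸ hL0) hν
    · obtain ⟨q, h2, h3, h4⟩ := hq s hs.1
      exact xpi_bag h c hβ (h𝒢 hL0) inter_subset_right (inter_subset_left.trans h1) hs (h1 h2)
        (h4 L0 (h𝒢 hL0) hs.2) h3
  · obtain ⟨h2, h3⟩ := h1 s hs
    obtain ⟨L, hL, hsL⟩ := (hsub hs.1.1.1).resolve_left h2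
    obtain ⟨q, h4, h5, h6⟩ := hq s hs.1.1
    have h7 := h3 q h4 (h.tog (cc_le h.le c h5))
    refine ⟨L, hL, ?_⟩
    rw [hP L hL]
    rcases hμ with hμ | ⟨β, hβ, rfl⟩
    · exact absurd h7 (h6 μ hμ hs.1.2)
    · exact xpi_bag h c hβ (h𝒢 hL) inter_subset_right
        (fun z hz => h3 z hz.1 ⟨L, .inl (h𝒢 hL), hsL, hz.2⟩) ⟨hs.1.1, hsL⟩ h7
        (h6 L (h𝒢 hL) hsL) h5

end Pool.Agent.MP_1c0fc2_co.RE
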