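import Pool.Agent.MP_1c0fc2_co.RE.Basic

/-! Pulling back blue families; elementary facts about families. -/

open Function Set Relation

namespace Pool.Agent.MP_1c0fc2_co.RE

theorem xpullb_rp {V Z L : Type} {B : SimpleGraph V} {Y : SimpleGraph Z} {φ : V → Z}
    {K : L → Set Z} (hφ : IH B Y φ) (h : RP Y (fun l => K l ∩ range φ) ∅) :
    RP B (fun l => φ ⁻¹' K l) ∅ := by
  intro 𝒮 R0 hn hR
  obtain ⟨R1, h1, h2⟩ : ∃ R1 : Set Z, (R1 = ∅ ∨ (∃ l0, l0 ∉ 𝒮 ∧ R1 = K l0 ∩ range φ) ∨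
      ∃ r ∈ (∅ : Set Z), R1 = {r}) ∧ ∀ x ∈ R0, φ x ∈ R1 := by
    rcases hR with rfl | ⟨l0, h0, rfl⟩ | ⟨r, hr, -⟩
    · exact ⟨∅, .inl rfl, fun _ h => h⟩
    · exact ⟨_, .inr (.inl ⟨l0, h0, rfl⟩), fun x hx => ⟨hx, mem_range_self x⟩⟩
    · exact hr.elim
  obtain ⟨l, hl, h3⟩ := h 𝒮 R1 hn h1
  have k1 : ∀ x ∈ R0 ∪ Oth (fun l => φ ⁻¹' K l) 𝒮 l,
      φ x ∈ R1 ∪ Oth (fun l => K l ∩ range φ) 𝒮 l := by
    rintro x (hx | ⟨l', a1, a2, a3⟩)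
    · exact .inl (h2 x hx)
    · exact .inr ⟨l', a1, a2, a3, mem_range_self x⟩
  have k2 : ∀ x ∈ Port B (φ ⁻¹' K l) (R0 ∪ Oth (fun l => φ ⁻¹' K l) 𝒮 l),
      φ x ∈ Port Y (K l ∩ range φ) (R1 ∪ Oth (fun l => K l ∩ range φ) 𝒮 l) := by
    rintro x ⟨hx, h' | ⟨q, a1, a2, a3⟩⟩
    · exact ⟨⟨hx, mem_range_self x⟩, .inl (k1 x h')⟩
    · exact ⟨⟨hx, mem_range_self x⟩, .inr ⟨φ q, k1 q a1, fun e => a2 e.1, hφ.2 _ _ a3⟩⟩
  exact ⟨l, hl, fun x hx y hy => hφ.1 (h3 (k2 x hx) (k2 y hy))⟩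

theorem xpullb_rule {V Z : Type} {B : SimpleGraph V} {Y : SimpleGraph Z} {φ : V → Z}
    {K : Set Z} {m : Mode} (hφ : IH B Y φ) (h : Rule m Y K) : Rule m B (φ ⁻¹' K) := by
  cases m
  · trivial
  · trivial
  · intro t ht C h1 h2 h3
    have h4 := h (φ t) ht (φ '' C) (disjoint_image_left.2 h1)
      (by rintro _ ⟨x, hx, rfl⟩; exact hφ.2 _ _ (h2 x hx)) (h3.map (hφ.on C))
    rintro a ⟨a1, a2, x, a3, a4⟩ b ⟨b1, b2, y, b3, b4⟩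
    exact hφ.1 (h4 ⟨a1, hφ.2 _ _ a2, φ x, mem_image_of_mem φ a3, hφ.2 _ _ a4⟩
      ⟨b1, hφ.2 _ _ b2, φ y, mem_image_of_mem φ b3, hφ.2 _ _ b4⟩)
  · exact fun a ha b hb w h1 h2 h3 =>
      h (φ a) ha (φ b) hb (φ w) (hφ.2 _ _ h1) (hφ.2 _ _ h2) (hφ.2 _ _ h3)

theorem pullB_stmt : PullBStmt := by
  intro W V Z L _ _ _ hL H P m B Y φ K s hφ h1 h2 h3 h4 h5
  refine ⟨L, hL, fun l => φ ⁻¹' K l, ⟨fun O hO => (h1 O hO).imp fun l h => image_subset_iff.1 h,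
    xpullb_rp hφ h2, fun l l' e => (h3 l l' e).preimage φ, fun l => xpullb_rule hφ (h4 l)⟩,
    fun l => ?_⟩
  obtain ⟨D, hD, h6⟩ := h5 l
  refine (ncard_le_ncard_of_injOn φ ?_ hφ.1.injOn (toFinite D)).trans hD
  rintro w ⟨O, a1, a2, a3⟩
  exact h6 O a1 (image_subset_iff.2 a2) (mem_image_of_mem φ a3)

theorem xpullb_univ {U : Type} (A : SimpleGraph U) (vr : Set U) :
    RP A (fun _ : Unit => univ) vr := by
  rintro 𝒮 R0 ⟨l, hl⟩ hR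
  have h1 : R0.Subsingleton := by
    rcases hR with rfl | ⟨l0, h0, -⟩ | ⟨r, -, rfl⟩
    · exact subsingleton_empty
    · exact absurd hl h0
    · exact subsingleton_singleton
  refine ⟨l, hl, h1.anti ?_⟩
  rintro x ⟨-, (h | ⟨l', -, h, -⟩) | ⟨q, -, h, -⟩⟩
  · exact h
  · exact absurd rfl h
  · exact absurd trivial h

theorem xpullb_rule_univ {U : Type} (A : SimpleGraph U) (m : Mode) : Rule m A univ := by
  cases m
  · trivial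
  · trivial
  · rintro t - C h1 - - a ⟨-, -, x, hx, -⟩
    exact absurd trivial (disjoint_left.1 h1 hx)
  · exact fun _ _ _ _ _ _ _ _ => trivial

theorem fam_stmt (hRP : RPStmt) (hPullB : PullBStmt) : FamStmt := by
  intro W U V _ _ _ H P m A B
  refine ⟨?_, ⟨Unit, inferInstance, fun _ => univ, ⟨fun O _ => ⟨(), subset_univ O⟩,
    xpullb_univ A _, fun _ _ e => absurd rfl e, fun _ => xpullb_rule_univ A m⟩,
    fun _ => ncard_le_card _⟩, ⟨Unit, inferInstance, fun _ => univ,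
    ⟨fun O _ => ⟨(), subset_univ O⟩, xpullb_univ A _⟩, fun _ => ncard_le_card _⟩, ?_, ?_⟩
  · rintro ⟨φ, hφ⟩ s ⟨L, hL, K, hK, hs⟩
    have h1 := (hRP U L A K ∅).1 hK.rp A (range φ) le_rfl
    rw [empty_inter] at h1
    exact hPullB W V U L H P m B A φ K s hφ (fun O hO => hK.cov _ (hO.map (hφ.on O))) h1 hK.dis
      hK.rule fun l => ⟨_, hs l, fun O hO h w hw => ⟨_, hO.map (hφ.on O), h, hw⟩⟩
  · rintro ⟨O, hO⟩ ⟨L, -, K, hK, hs⟩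
    obtain ⟨l, hl⟩ := hK.cov O hO
    obtain ⟨w, hw⟩ := hO.two.nonempty
    exact absurd (hs l) (not_le.2 ((ncard_pos (toFinite _)).2 ⟨w, O, hO, hl, hw⟩))
  · rintro ⟨O, hO⟩ ⟨L, -, K, hK, hs⟩
    obtain ⟨l, hl⟩ := hK.cov O hO
    obtain ⟨w, hw⟩ := hO.two.nonempty
    exact absurd (hs l) (not_le.2 ((ncard_pos (toFinite _)).2 ⟨w, O, hO, hl, .inl hw⟩))

end Pool.Agent.MP_1c0fc2_co.RE
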