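import Pool.Agent.MP_1c0fc2_co.RE.Basic

open Function Set Relation

namespace Pool.Agent.MP_1c0fc2_co.RE

section
variable {U X V L : Type} {A : SimpleGraph U} {Γ RΓ : SimpleGraph X} {Hub : Set X}
  {G R : SimpleGraph V} {Gs : Set (X → V)} {Bs : Set (Bag U V)} {g : ℕ}

theorem xrpg_oth (h : Core A Γ RΓ Hub G R Gs Bs g) {K : L → Set X} {Y : Set V}
    {𝒮 : Set (Gs × L)} {γ : Gs} {l : L} {y : X}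
    (hy : γ.1 y ∈ Oth (fun z : Gs × L => z.1.1 '' K z.2 ∩ Y) 𝒮 (γ, l)) :
    y ∈ Oth (fun l => K l ∩ γ.1 ⁻¹' Y) {l | (γ, l) ∈ 𝒮} l := by
  obtain ⟨⟨γ', l'⟩, h1, h2, ⟨y', h3, h4⟩, h5⟩ := hy
  obtain rfl : γ' = γ := Subtype.ext (h.eq_of_mem γ'.2 γ.2 ⟨y', h4⟩ ⟨y, rfl⟩)
  obtain rfl : y' = y := (h.gind _ γ'.2).inj h4
  exact ⟨l', h1, fun e => h2 (by rw [e]), h3, h5⟩

theorem xrpg_pull (h : Core A Γ RΓ Hub G R Gs Bs g) {c : Bool} {K : L → Set X} {Y R0 : Set V}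
    {𝒮 : Set (Gs × L)} {γ : Gs} {l : L} {R1 : Set X} (hR : ∀ y, γ.1 y ∈ R0 → y ∈ R1) {p : V}
    (hp : p ∈ Port (cc G R c) (γ.1 '' K l ∩ Y)
      (R0 ∪ Oth (fun z : Gs × L => z.1.1 '' K z.2 ∩ Y) 𝒮 (γ, l))) :
    ∃ x, γ.1 x = p ∧ x ∈ K l ∩ γ.1 ⁻¹' Y ∧
      (x ∈ Port (cc Γ RΓ c) (K l ∩ γ.1 ⁻¹' Y)
        (R1 ∪ Oth (fun l => K l ∩ γ.1 ⁻¹' Y) {l | (γ, l) ∈ 𝒮} l) ∨
      ∃ q ∈ R0 ∪ Oth (fun z : Gs × L => z.1.1 '' K z.2 ∩ Y) 𝒮 (γ, l),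
        q ∉ range γ.1 ∧ (cc G R c).Adj p q) := by
  obtain ⟨⟨⟨x, hx, rfl⟩, hY⟩, h1⟩ := hp
  refine ⟨x, rfl, ⟨hx, hY⟩, ?_⟩
  rcases h1 with h1 | ⟨q, h1, h2, h3⟩
  · exact .inl ⟨⟨hx, hY⟩, .inl (h1.imp (hR x) (xrpg_oth h))⟩
  · by_cases hq : q ∈ range γ.1
    · obtain ⟨y, rfl⟩ := hq
      exact .inl ⟨⟨hx, hY⟩, .inr ⟨y, h1.imp (hR y) (xrpg_oth h),
        fun e => h2 ⟨mem_image_of_mem _ e.1, e.2⟩, (h.ccol γ.2 c x y).1 h3⟩⟩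
    · exact .inr ⟨q, h1, hq, h3⟩

theorem xrpg_hub (h : Core A Γ RΓ Hub G R Gs Bs g) {γ : X → V} (hγ : γ ∈ Gs) {x : X} {q : V}
    (hq : q ∉ range γ) (e : G.Adj (γ x) q) : x ∉ Hub := fun hx => by
  rcases h.pre.cov _ _ e with ⟨_, ⟨γ', h1, rfl⟩, h2, h3⟩ | ⟨β, h1, a, b, h2, -⟩
  · exact hq (h.eq_of_mem h1 hγ h2 ⟨x, rfl⟩ ▸ h3)
  · exact h.hub γ hγ β h1 a x hx h2

theorem xrpg_card [Finite V] (h : Core A Γ RΓ Hub G R Gs Bs g) {γ : X → V} (hγ : γ ∈ Gs)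
    (Y : Set V) : (γ ⁻¹' Y).ncard ≤ Y.ncard :=
  ncard_le_ncard_of_injOn γ (fun _ hx => hx) (h.gind γ hγ).inj.injOn (toFinite _)

theorem xrpg_out (hPi : PiStmt) [Finite U] [Finite V] (h : Core A Γ RΓ Hub G R Gs Bs g)
    {c : Bool} {K : L → Set X} {vr : Prop} {Av : Set X} (hL : LocRP Γ RΓ Hub c K vr Av g)
    {Y : Set V} (hY : Y.ncard ≤ g) (hA : ∀ γ ∈ Gs, ∀ x ∈ Av, γ x ∉ Y) {𝒮 : Set (Gs × L)}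
    {R0 ν0 : Set V} (hν : ν0 ∈ Nodes (range '' Gs) Bs) (h1 : R0 ⊆ Y ∩ ν0)
    (h2 : ∀ γ ∈ Gs, range γ ≠ ν0 → ∀ y, γ y ∉ R0) (h3 : ∃ z ∈ 𝒮, range z.1.1 ≠ ν0) :
    ∃ z ∈ 𝒮, (Port (cc G R c) (z.1.1 '' K z.2 ∩ Y)
      (R0 ∪ Oth (fun z : Gs × L => z.1.1 '' K z.2 ∩ Y) 𝒮 z)).Subsingleton := by
  obtain ⟨_, ⟨⟨γ, l1⟩, hz, rfl, hne⟩, hP⟩ := hPi U V A G R _ Bs g h.pre c
    {N | ∃ z ∈ 𝒮, N = range z.1.1 ∧ N ≠ ν0} (by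
      rintro _ ⟨z, -, rfl, -⟩
      exact ⟨_, z.1.2, rfl⟩) (let ⟨z, hz, e⟩ := h3; ⟨_, z, hz, rfl, e⟩) ν0 hν
    (fun ⟨_, _, _, e⟩ => e rfl) (Y ∩ (ν0 ∪ ⋃₀ {N | ∃ z ∈ 𝒮, N = range z.1.1 ∧ N ≠ ν0}))
    ((ncard_le_ncard inter_subset_left).trans hY) inter_subset_right
  set Pt := {p | p ∈ Y ∩ (ν0 ∪ ⋃₀ {N | ∃ z ∈ 𝒮, N = range z.1.1 ∧ N ≠ ν0}) ∩ range γ.1 ∧
    ∃ q ∈ (Y ∩ (ν0 ∪ ⋃₀ {N | ∃ z ∈ 𝒮, N = range z.1.1 ∧ N ≠ ν0})) \ range γ.1,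
      (cc G R c).Adj p q} with hPt
  have hi := (h.gind _ γ.2).inj
  have hE : ExP Γ RΓ Hub c (γ.1 ⁻¹' Y) (γ.1 ⁻¹' Pt) := by
    refine ⟨fun x hx => hx.1.1.1, hP.imp (fun hs => hs.preimage hi) ?_⟩
    rintro ⟨a, b, hab, e⟩
    have k : ∀ p ∈ Pt, ∃ x, x ∉ Hub ∧ γ.1 x = p := by
      rintro _ ⟨⟨-, x, rfl⟩, q, hq, e⟩
      exact ⟨x, xrpg_hub h γ.2 hq.2 (cc_le h.pre.le c e), rfl⟩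
    obtain ⟨a', ha, rfl⟩ := k a (by rw [e]; exact .inl rfl)
    obtain ⟨b', hb, rfl⟩ := k b (by rw [e]; exact .inr rfl)
    refine ⟨a', b', ha, hb, (h.ccol γ.2 _ a' b').1 hab, fun x hx => ?_⟩
    have hx' : γ.1 x ∈ ({γ.1 a', γ.1 b'} : Set V) := by rw [← e]; exact hx
    exact hx'.imp (fun e => hi e) fun e => hi e
  obtain ⟨l, hl, hs⟩ := (hL (γ.1 ⁻¹' Y) ((xrpg_card h γ.2 Y).trans hY)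
    (disjoint_left.2 fun x hx hx' => hA _ γ.2 x hx' hx)).2 {l | (γ, l) ∈ 𝒮} _ ⟨l1, hz⟩ hE
  refine ⟨(γ, l), hl, (hs.image γ.1).anti fun p hp => ?_⟩
  obtain ⟨x, rfl, hx, h4⟩ := xrpg_pull h (R1 := ∅) (fun y hy => h2 _ γ.2 hne y hy) hp
  refine mem_image_of_mem _ (h4.symm.imp ?_ fun e => by rwa [empty_union] at e)
  rintro ⟨q, h5, h6, h7⟩
  refine ⟨hx, ⟨⟨hx.2, .inr ⟨_, ⟨_, hz, rfl, hne⟩, x, rfl⟩⟩, x, rfl⟩, q, ⟨?_, h6⟩, h7⟩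
  rcases h5 with h5 | ⟨z', h8, -, ⟨y, -, h9⟩, h10⟩
  · exact ⟨(h1 h5).1, .inl (h1 h5).2⟩
  · refine ⟨h10, ?_⟩
    by_cases e : range z'.1.1 = ν0
    · exact .inl (e ▸ ⟨y, h9⟩)
    · exact .inr ⟨_, ⟨z', h8, rfl, e⟩, y, h9⟩

theorem xrpg_in [Finite V] (h : Core A Γ RΓ Hub G R Gs Bs g)
    {c : Bool} {K : L → Set X} {vr : Prop} {Av : Set X} (hL : LocRP Γ RΓ Hub c K vr Av g)
    {Y : Set V} (hY : Y.ncard ≤ g) (hA : ∀ γ ∈ Gs, ∀ x ∈ Av, γ x ∉ Y) {𝒮 : Set (Gs × L)}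
    {R0 : Set V} {γ : Gs} (h1 : R0 ⊆ range γ.1) (h2 : ∀ z ∈ 𝒮, range z.1.1 = range γ.1)
    {l1 : L} (hz : (γ, l1) ∈ 𝒮) (h3 : (∃ l0, (γ, l0) ∉ 𝒮 ∧ R0 = γ.1 '' K l0 ∩ Y) ∨
      ∃ r, (vr ∧ r ∈ Y) ∧ R0 = {r}) :
    ∃ z ∈ 𝒮, (Port (cc G R c) (z.1.1 '' K z.2 ∩ Y)
      (R0 ∪ Oth (fun z : Gs × L => z.1.1 '' K z.2 ∩ Y) 𝒮 z)).Subsingleton := by
  have hi := (h.gind _ γ.2).inj
  obtain ⟨l, hl, hs⟩ := (hL (γ.1 ⁻¹' Y) ((xrpg_card h γ.2 Y).trans hY)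
    (disjoint_left.2 fun x hx hx' => hA _ γ.2 x hx' hx)).1 {l | (γ, l) ∈ 𝒮} (γ.1 ⁻¹' R0)
    ⟨l1, hz⟩ (.inr (h3.imp (by
      rintro ⟨l0, h4, rfl⟩
      exact ⟨l0, h4, by rw [preimage_inter, preimage_image_eq _ hi]⟩) (by
      rintro ⟨r, h4, rfl⟩
      obtain ⟨x, rfl⟩ := h1 rfl
      exact ⟨x, h4, by rw [← image_singleton, preimage_image_eq _ hi]⟩)))
  refine ⟨(γ, l), hl, (hs.image γ.1).anti fun p hp => ?_⟩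
  obtain ⟨x, rfl, -, h4⟩ := xrpg_pull h (R1 := γ.1 ⁻¹' R0) (fun y hy => hy) hp
  refine mem_image_of_mem _ (h4.resolve_right ?_)
  rintro ⟨q, h5 | ⟨z', h8, -, ⟨y, -, h9⟩, -⟩, h6, -⟩
  · exact h6 (h1 h5)
  · exact h6 (h2 z' h8 ▸ ⟨y, h9⟩)

end

theorem rpg_stmt (hRP : RPStmt) (hPi : PiStmt) : RPGStmt := by
  intro U X V L _ _ _ _ A Γ RΓ Hub G R Gs Bs g c K vr Av h hL Y hY hN hA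
  refine (hRP V (Gs × L) _ _ _).2.1 fun 𝒮 R0 ⟨⟨γ1, l1⟩, hz⟩ hR => ?_
  rcases (γ1.1 '' K l1 ∩ Y).eq_empty_or_nonempty with he | ⟨p, ⟨x1, -, -⟩, -⟩
  · exact ⟨_, hz, fun p hp => absurd (he ▸ hp.1 : p ∈ (∅ : Set V)) id⟩
  have key : ∀ γ0 : Gs, R0 ⊆ Y ∩ range γ0.1 → ((∃ l0, (γ0, l0) ∉ 𝒮 ∧ R0 = γ0.1 '' K l0 ∩ Y) ∨
      ∃ r, (vr ∧ r ∈ Y) ∧ R0 = {r}) → ∃ z ∈ 𝒮, (Port (cc G R c) (z.1.1 '' K z.2 ∩ Y)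
      (R0 ∪ Oth (fun z : Gs × L => z.1.1 '' K z.2 ∩ Y) 𝒮 z)).Subsingleton := by
    intro γ0 h1 h2
    by_cases h3 : ∃ z ∈ 𝒮, range z.1.1 ≠ range γ0.1
    · exact xrpg_out hPi h hL hY hA (.inl ⟨_, γ0.2, rfl⟩) h1 (fun γ hγ e y hy =>
        e (by rw [h.eq_of_mem hγ γ0.2 ⟨y, rfl⟩ (h1 hy).2])) h3
    · push Not at h3
      obtain rfl : γ1 = γ0 :=
        Subtype.ext (h.eq_of_mem γ1.2 γ0.2 ⟨x1, rfl⟩ (h3 _ hz ▸ ⟨x1, rfl⟩))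
      exact xrpg_in h hL hY hA (fun y hy => (h1 hy).2) h3 hz h2
  rcases hR with ⟨⟨γ0, l0⟩, h1, rfl⟩ | ⟨r, h1, rfl⟩
  · exact key γ0 (fun y hy => ⟨hy.2, image_subset_range _ _ hy.1⟩) (.inl ⟨l0, h1, rfl⟩)
  · by_cases h2 : ∃ γ ∈ Gs, r ∈ range γ
    · obtain ⟨γ, h2, h3⟩ := h2
      exact key ⟨γ, h2⟩ (singleton_subset_iff.2 ⟨h1.2, h3⟩) (.inr ⟨r, h1, rfl⟩)
    · obtain ⟨q, hq⟩ := hN r h1.2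
      rcases h.pre.cov _ _ hq with ⟨_, ⟨γ', h3, rfl⟩, h4, -⟩ | ⟨β, h3, a, b, h4, -⟩
      · exact absurd ⟨γ', h3, h4⟩ h2
      · exact xrpg_out hPi h hL hY hA (.inr ⟨β, h3, rfl⟩) (singleton_subset_iff.2 ⟨h1.2, a, h4⟩)
          (fun γ hγ _ y hy => h2 ⟨γ, hγ, y, hy⟩)
          ⟨_, hz, fun e => h2 ⟨_, γ1.2, e ▸ ⟨a, h4⟩⟩⟩

end Pool.Agent.MP_1c0fc2_co.RE
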