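import Pool.Agent.MP_1c0fc2_co.RE.Basic

/-! Rooted peelability: basic rules and the splitting of classes into components. -/

open Function Set Relation

namespace Pool.Agent.MP_1c0fc2_co.RE

section Aux
variable {V L : Type} {J J' : SimpleGraph V} {K : L → Set V} {vr : Set V}

theorem xrps_port_mono {A A' Y Y' : Set V} (hJ : J' ≤ J) (hA : A' ⊆ A) (hY : Y' ⊆ Y)
    (h : ∀ q ∈ Y', q ∈ A → q ∈ A') : Port J' A' Y' ⊆ Port J A Y := by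
  rintro p ⟨h1, h2 | ⟨q, h2, h3, h4⟩⟩
  · exact ⟨hA h1, .inl (hY h2)⟩
  · exact ⟨hA h1, .inr ⟨q, hY h2, fun e => h3 (h q h2 e), hJ h4⟩⟩

theorem xrps_port_le {A Y Y' : Set V} (hY : Y' ⊆ Y) : Port J A Y' ⊆ Port J A Y :=
  xrps_port_mono le_rfl subset_rfl hY fun _ _ h => h

theorem xrps_port_empty {A : Set V} : Port J A ∅ = ∅ := by
  refine eq_empty_of_forall_notMem ?_
  rintro p ⟨-, h | ⟨q, h, -⟩⟩ <;> exact h

theorem xrps_oth_root {𝒮 : Set L} (l0 l : L) :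
    Oth K 𝒮 l ⊆ K l0 ∪ Oth K (𝒮 \ {l0}) l := by
  rintro x ⟨l', h1, h2, h3⟩
  by_cases e : l' = l0
  · exact .inl (e ▸ h3)
  · exact .inr ⟨l', ⟨h1, e⟩, h2, h3⟩

theorem xrps_oth_empty {𝒮 : Set L} {l0 : L} (h : ¬ (𝒮 \ {l0}).Nonempty) : Oth K 𝒮 l0 = ∅ := by
  refine eq_empty_of_forall_notMem ?_
  rintro x ⟨l', h1, h2, -⟩
  exact h ⟨l', h1, h2⟩

theorem xrps_one (h : RP J K vr) (J' : SimpleGraph V) (Y : Set V) (hJ : J' ≤ J) :
    RP J' (fun l => K l ∩ Y) (vr ∩ Y) := by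
  intro 𝒮 R0 hn hR
  obtain ⟨R1, h1, h2, h3⟩ : ∃ R1, (R1 = ∅ ∨ (∃ l0, l0 ∉ 𝒮 ∧ R1 = K l0) ∨ ∃ r ∈ vr, R1 = {r}) ∧
      R0 ⊆ R1 ∧ R0 ⊆ Y := by
    rcases hR with rfl | ⟨l0, h1, rfl⟩ | ⟨r, h1, rfl⟩
    · exact ⟨∅, .inl rfl, subset_rfl, empty_subset _⟩
    · exact ⟨K l0, .inr (.inl ⟨l0, h1, rfl⟩), inter_subset_left, inter_subset_right⟩
    · exact ⟨{r}, .inr (.inr ⟨r, h1.1, rfl⟩), subset_rfl, singleton_subset_iff.2 h1.2⟩
  obtain ⟨l, hl, hp⟩ := h 𝒮 R1 hn h1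
  refine ⟨l, hl, hp.anti (xrps_port_mono hJ inter_subset_left (union_subset_union h2 ?_) ?_)⟩
  · rintro x ⟨l', a1, a2, a3⟩
    exact ⟨l', a1, a2, a3.1⟩
  · rintro q (a | ⟨l', -, -, a⟩) b
    · exact ⟨b, h3 a⟩
    · exact ⟨b, a.2⟩

theorem xrps_two (h : ∀ (𝒮 : Set L) (R0 : Set V), 𝒮.Nonempty →
    ((∃ l0, l0 ∉ 𝒮 ∧ R0 = K l0) ∨ ∃ r ∈ vr, R0 = {r}) →
    ∃ l ∈ 𝒮, (Port J (K l) (R0 ∪ Oth K 𝒮 l)).Subsingleton) : RP J K vr := by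
  rintro 𝒮 R0 hn (rfl | hR)
  · obtain ⟨l0, h0⟩ := hn
    by_cases h1 : (𝒮 \ {l0}).Nonempty
    · obtain ⟨l, hl, hp⟩ := h _ (K l0) h1 (.inl ⟨l0, fun e => e.2 rfl, rfl⟩)
      refine ⟨l, hl.1, hp.anti (xrps_port_le ?_)⟩
      rw [empty_union]
      exact xrps_oth_root l0 l
    · refine ⟨l0, h0, ?_⟩
      rw [xrps_oth_empty h1, empty_union, xrps_port_empty]
      exact subsingleton_empty
  · exact h 𝒮 R0 hn hR

theorem xrps_three (h : RP J K vr) (hd : ∀ l l', l ≠ l' → Disjoint (K l) (K l')) :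
    RPX J K Set.Subsingleton := by
  intro 𝒮 Pt hn hP
  by_cases h0 : ∃ l0 ∈ 𝒮, (K l0 ∩ Pt).Nonempty
  · obtain ⟨l0, h0, x, hx, hx'⟩ := h0
    by_cases h1 : (𝒮 \ {l0}).Nonempty
    · obtain ⟨l, hl, hp⟩ := h _ (K l0) h1 (.inr (.inl ⟨l0, fun e => e.2 rfl, rfl⟩))
      refine ⟨l, hl.1, hp.anti (union_subset ?_ (xrps_port_le (xrps_oth_root l0 l)))⟩
      rintro y ⟨a, b⟩
      exact absurd (hP hx' b ▸ hx) (disjoint_left.1 (hd l l0 hl.2) a)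
    · refine ⟨l0, h0, ?_⟩
      rw [xrps_oth_empty h1, xrps_port_empty, union_empty]
      exact hP.anti inter_subset_right
  · obtain ⟨l, hl, hp⟩ := h 𝒮 ∅ hn (.inl rfl)
    refine ⟨l, hl, hp.anti (union_subset (fun y hy => absurd ⟨l, hl, y, hy⟩ h0)
      (xrps_port_le subset_union_right))⟩

theorem xrps_four (h : RP J K vr) : RPX J K fun Pt => Pt.Subsingleton ∧ Pt ⊆ vr := by
  rintro 𝒮 Pt hn ⟨h1, h2⟩
  obtain ⟨l, hl, hp⟩ := h 𝒮 Pt hn (h1.eq_empty_or_singleton.imp_right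
    fun ⟨r, e⟩ => .inr ⟨r, h2 (e ▸ rfl), e⟩)
  exact ⟨l, hl, hp.anti (union_subset (fun y hy => ⟨hy.1, .inl (.inl hy.2)⟩)
    (xrps_port_le subset_union_right))⟩

theorem xrps_five [Finite L] [Nonempty V] (h : RP J K vr) (n : ℕ) : ∀ 𝒮 : Set L, 𝒮.ncard = n →
    ∃ c : L → V, ∀ l ∈ 𝒮, ∀ l' ∈ 𝒮, l ≠ l' →
      Port J (K l) (K l') ⊆ {c l} ∨ Port J (K l') (K l) ⊆ {c l'} := by
  classical
  induction n with
  | zero =>
    intro 𝒮 h0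
    rw [ncard_eq_zero] at h0
    subst h0
    exact ⟨fun _ => Classical.arbitrary V, fun _ a => a.elim⟩
  | succ n ih =>
    intro 𝒮 h0
    obtain ⟨l1, h1, hp⟩ := h 𝒮 ∅ (nonempty_of_ncard_ne_zero (by omega)) (.inl rfl)
    obtain ⟨c, hc⟩ := ih (𝒮 \ {l1}) (by rw [ncard_sdiff_singleton_of_mem h1]; omega)
    obtain ⟨x, hx⟩ : ∃ x, Port J (K l1) (∅ ∪ Oth K 𝒮 l1) ⊆ {x} := by
      rcases hp.eq_empty_or_singleton with e | ⟨x, e⟩
      · exact ⟨Classical.arbitrary V, e.le.trans (empty_subset _)⟩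
      · exact ⟨x, e.le⟩
    have key : ∀ l ∈ 𝒮, l ≠ l1 → Port J (K l1) (K l) ⊆ {update c l1 x l1} := fun l a b => by
      rw [update_self]
      exact (xrps_port_le fun y hy => .inr ⟨l, a, b, hy⟩).trans hx
    refine ⟨update c l1 x, fun l a l' a' b => ?_⟩
    by_cases e : l = l1
    · subst e
      exact .inl (key l' a' b.symm)
    by_cases e' : l' = l1
    · subst e'
      exact .inr (key l a b)
    rw [update_of_ne e, update_of_ne e']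
    exact hc l ⟨a, e⟩ l' ⟨a', e'⟩ b

/-- the components of the classes -/
abbrev XrpsL (J : SimpleGraph V) (K : L → Set V) : Type :=
  {z : L × Set V // ∃ a ∈ K z.1, z.2 = comp J.Adj (K z.1) a}

theorem xrps_sub (z : XrpsL J K) : z.1.2 ⊆ K z.1.1 := by
  obtain ⟨a, -, e⟩ := z.2
  rw [e]
  exact comp_sub

theorem xrps_eq {z z' : XrpsL J K} (h : z'.1.1 = z.1.1) {y : V} (h1 : y ∈ z'.1.2)
    (h2 : y ∈ z.1.2) : z' = z := by
  obtain ⟨a, -, e⟩ := z.2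
  obtain ⟨a', -, e'⟩ := z'.2
  refine Subtype.ext (Prod.ext h ?_)
  rw [e] at h2
  rw [e', h] at h1
  rw [e, e', h, ← comp_eq (adj_symm' J) h1, ← comp_eq (adj_symm' J) h2]

theorem xrps_port (z : XrpsL J K) {Y Y' : Set V}
    (h : ∀ y ∈ Y', y ∈ Y ∨ (y ∈ K z.1.1 ∧ y ∉ z.1.2)) :
    Port J z.1.2 Y' ⊆ Port J (K z.1.1) Y := by
  rintro p ⟨h1, h2 | ⟨q, h2, h3, h4⟩⟩
  · exact ⟨xrps_sub z h1, .inl ((h p h2).resolve_right fun e => e.2 h1)⟩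
  · have h5 : q ∉ K z.1.1 := fun e => h3 (by
      obtain ⟨a, -, e'⟩ := z.2
      rw [e'] at h1 ⊢
      exact comp_closed h1 e h4)
    exact ⟨xrps_sub z h1, .inr ⟨q, (h q h2).resolve_right fun e => h5 e.1, h5, h4⟩⟩

theorem xrps_oth {𝒮 : Set (XrpsL J K)} (z : XrpsL J K) {y : V}
    (hy : y ∈ Oth (fun z : XrpsL J K => z.1.2) 𝒮 z) :
    y ∈ Oth K ((fun z : XrpsL J K => z.1.1) '' 𝒮) z.1.1 ∨ (y ∈ K z.1.1 ∧ y ∉ z.1.2) := by
  obtain ⟨z', h1, h2, h3⟩ := hy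
  by_cases e : z'.1.1 = z.1.1
  · exact .inr ⟨e ▸ xrps_sub z' h3, fun h4 => h2 (xrps_eq e h3 h4)⟩
  · exact .inl ⟨_, mem_image_of_mem _ h1, e, xrps_sub z' h3⟩

theorem xrps_split (h : RP J K univ) : RP J (fun z : XrpsL J K => z.1.2) univ := by
  refine xrps_two ?_
  rintro 𝒮 R0 hn (⟨z0, h0, rfl⟩ | ⟨r, -, rfl⟩)
  · by_cases h1 : ((fun z : XrpsL J K => z.1.1) '' 𝒮 \ {z0.1.1}).Nonempty
    · obtain ⟨l, ⟨⟨z, hz, rfl⟩, -⟩, hp⟩ :=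
        h _ (K z0.1.1) h1 (.inr (.inl ⟨_, fun e => e.2 rfl, rfl⟩))
      refine ⟨z, hz, hp.anti (xrps_port z ?_)⟩
      rintro y (a | a)
      · exact .inl (.inl (xrps_sub z0 a))
      · exact (xrps_oth z a).imp_left fun b => xrps_oth_root _ _ b
    · obtain ⟨z, hz⟩ := hn
      have e : z0.1.1 = z.1.1 := by
        by_contra e
        exact h1 ⟨_, mem_image_of_mem _ hz, fun e' => e (Eq.symm e')⟩
      refine ⟨z, hz, subsingleton_empty.anti ((xrps_port z (Y := ∅) ?_).trans xrps_port_empty.le)⟩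
      rintro y (a | a)
      · exact .inr ⟨e ▸ xrps_sub z0 a, fun b => h0 (xrps_eq e a b ▸ hz)⟩
      · refine (xrps_oth z a).imp_left fun b => ?_
        rw [e] at h1
        rwa [xrps_oth_empty h1] at b
  · obtain ⟨l, ⟨z, hz, rfl⟩, hp⟩ := h _ {r} (hn.image fun z : XrpsL J K => z.1.1)
      (.inr (.inr ⟨r, trivial, rfl⟩))
    refine ⟨z, hz, hp.anti (xrps_port z ?_)⟩
    rintro y (a | a)
    · exact .inl (.inl a)
    · exact (xrps_oth z a).imp_left .inr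

end Aux

theorem rp_stmt : RPStmt := by
  intro V L _ _ J K vr
  refine ⟨xrps_one, xrps_two, xrps_three, xrps_four, fun h _ => ?_⟩
  obtain ⟨c, hc⟩ := xrps_five h _ univ rfl
  exact ⟨c, fun l l' => hc l trivial l' trivial⟩

theorem split_stmt : SplitStmt := by
  intro V L _ _ J Ob K h hO
  refine ⟨XrpsL J K, inferInstance, fun z => z.1.2, ⟨fun O a => ?_, xrps_split h.rp⟩,
    fun z => ?_, fun z => ⟨_, xrps_sub z⟩⟩
  · obtain ⟨l, hl⟩ := h.cov O a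
    obtain ⟨h1, x, hx⟩ := hO O a
    exact ⟨⟨(l, comp J.Adj (K l) x), x, hl hx, rfl⟩, h1.sub_comp hl hx (mem_comp (hl hx))⟩
  · obtain ⟨a, -, e⟩ := z.2
    change ConnOn J.Adj z.1.2
    rw [e]
    exact comp_conn (adj_symm' J)

end Pool.Agent.MP_1c0fc2_co.RE
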