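import Pool.Agent.MP_1c0fc2_co.RE.Basic

open Function Set Relation

namespace Pool.Agent.MP_1c0fc2_co.RE

theorem redLift_stmt (hK3 : K3Stmt) (hTwoNb : TwoNbStmt) (hRPG : RPGStmt) (hRedLoc : RedLocStmt)
    (hPullR : PullRStmt) : RedLiftStmt := by
  intro W U X V Z L _ _ _ _ _ _ H P hP m A E Γ RΓ Hub G R Gs Bs g B φ K s hA hB hnb hg hL hC hT hR
    hφ hH
  have hc := hL.core
  have hg1 : 1 ≤ g := by
    obtain ⟨⟨h1, h2, h3, -⟩, -⟩ := hK3 W W H P hP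
    omega
  have hloc := hRedLoc W U X V Z H P hP m A E Γ RΓ Hub G R Gs Bs g B φ hA hg hL hC hT hφ hH
  refine hPullR W Z V (Gs × L) H P m B R φ (fun z => z.1.1 '' K z.2) s hφ ?_ ?_ ?_
  · intro O hO
    obtain ⟨γ, hγ, h1, h2⟩ := hloc O hO
    obtain ⟨l, hl⟩ := hR.cov _ (disjoint_left.2 fun x hx hx' =>
      hH γ hγ x hx' (image_subset_range φ O hx)) h2
    refine ⟨(⟨γ, hγ⟩, l), fun y hy => ?_⟩
    obtain ⟨x, rfl⟩ := h1 hy
    exact ⟨x, hl hy, rfl⟩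
  · have h1 : (range φ).ncard ≤ g := by
      rw [ncard_range_of_injective hφ.1]
      exact hB.card_le.trans hg
    have h2 := hRPG U X V L A Γ RΓ Hub G R Gs Bs g true K True Hub hc hR.rp (range φ) h1 (by
      rintro _ ⟨z, rfl⟩
      obtain ⟨z', h⟩ := hnb z
      exact ⟨φ z', hc.pre.le (hφ.2 _ _ h)⟩) hH
    have h3 : {r | True ∧ r ∈ range φ} = range φ := by
      ext r
      exact ⟨fun h => h.2, fun h => ⟨trivial, h⟩⟩
    rw [h3] at h2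
    exact h2
  · rintro ⟨⟨γ, hγ⟩, l⟩
    have hi : Injective γ := (hc.gind γ hγ).inj
    refine ⟨γ '' RW RΓ (RO P H m RΓ) (K l), by
      rw [ncard_image_of_injective _ hi]
      exact hR.wt l, fun O hO hs => ?_⟩
    obtain ⟨γ', hγ', h1, h2⟩ := hloc O hO
    obtain ⟨o, ho⟩ := hO.two.nonempty
    obtain rfl : γ' = γ := hc.eq_of_mem hγ' hγ (h1 (mem_image_of_mem φ ho))
      (image_subset_range γ _ (hs (mem_image_of_mem φ ho)))
    have h3 : γ' ⁻¹' (φ '' O) ⊆ K l := fun x hx => by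
      obtain ⟨y, hy, e⟩ := hs hx
      exact hi e ▸ hy
    rintro _ ⟨w, hw | ⟨a, ha, b, hb, hab, hwa, hwb⟩, rfl⟩
    · obtain ⟨x, hx⟩ := h1 (mem_image_of_mem φ hw)
      exact ⟨x, ⟨_, h2, h3, .inl ⟨w, hw, hx.symm⟩⟩, hx⟩
    · obtain ⟨a', ha'⟩ := h1 (mem_image_of_mem φ ha)
      obtain ⟨b', hb'⟩ := h1 (mem_image_of_mem φ hb)
      have ma : a' ∈ γ' ⁻¹' (φ '' O) := ⟨a, ha, ha'.symm⟩
      have mb : b' ∈ γ' ⁻¹' (φ '' O) := ⟨b, hb, hb'.symm⟩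
      have hne : γ' a' ≠ γ' b' := by
        rw [ha', hb']
        exact hφ.1.ne hab
      have ra : R.Adj (φ w) (γ' a') := ha' ▸ hφ.2 _ _ hwa
      have rb : R.Adj (φ w) (γ' b') := hb' ▸ hφ.2 _ _ hwb
      by_cases hw : φ w ∈ range γ'
      · obtain ⟨x, hx⟩ := hw
        rw [← hx] at ra rb
        exact ⟨x, ⟨_, h2, h3, .inr ⟨a', ma, b', mb, fun e => hne (congrArg γ' e),
          (hc.gcol γ' hγ _ _).1 ra, (hc.gcol γ' hγ _ _).1 rb⟩⟩, hx⟩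
      · have h4 : (G \ R).Adj (γ' a') (γ' b') := hTwoNb U V A G R _ Bs g hg1 hc.pre true _
          (mem_image_of_mem range hγ) _ hw _ (mem_range_self a') _ (mem_range_self b') hne ra rb
        exact absurd ((hc.gcol γ' hγ _ _).2 (hR.red l a' (h3 ma) b' (h3 mb)
          (((hc.gind γ' hγ).adj _ _).1 h4.1))) h4.2

end Pool.Agent.MP_1c0fc2_co.RE
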