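import Pool.Agent.MP_1c0fc2_co.RE.Basic

open Function Set Relation

namespace Pool.Agent.MP_1c0fc2_co.RE

section
variable {W U X Q : Type} {H : SimpleGraph W} {A M : SimpleGraph U} {I : Set U}
  {pt : U → Option Q} {Γ RΓ : SimpleGraph X} {Hub : Set X} {Hs Us Xs : Set (U → X)} {g : ℕ}

theorem xstep_pull (hG : Gam A M I pt Γ RΓ Hub Hs Us Xs g) {ξ : U → X} (hξ : ξ ∈ Xs)
    {S : Set X} (hS : S ⊆ ξ '' Iᶜ) (hn : S.Nonempty) :
    ∃ k : X → U, IHo Γ A k S ∧ Disjoint (k '' S) I := by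
  obtain ⟨k, h1, h2, -⟩ := exists_pull (J := A) (J' := Γ) (hG.xind ξ hξ).1
    (fun x hx y hy e => ((hG.xind ξ hξ).2 x hx y hy).1 e) hS hn
  refine ⟨k, h1.sub hS, ?_⟩
  rw [h2]
  exact disjoint_left.2 fun _ h => h.1

theorem xstep_rtr [Finite U] [Finite X] (hGX : GXStmt) (hA : In A H)
    (hG : Gam A M I pt Γ RΓ Hub Hs Us Xs g) : RTr H Γ RΓ Hub g := by
  intro S h1 h2 h3 h4
  obtain ⟨ξ, hξ, hS⟩ := (hGX U X Q A M I pt Γ RΓ Hub Hs Us Xs g hG).1 S h1 h2 h3 h4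
  obtain ⟨k, hk, -⟩ := xstep_pull hG hξ hS h3.nonempty
  obtain ⟨f, hf⟩ := hA
  exact ⟨f ∘ k, hk.comp (hf.on _)⟩

theorem xstep_arr {V : Type} {E : EP U} {G R : SimpleGraph V} {Gs : Set (X → V)}
    {Bs : Set (Bag U V)} (hL : Last A E Γ RΓ Hub G R Gs Bs g) : Arr G A :=
  fun R' h => hL.ram R' h fun _ _ e => e.elim

theorem xstep_pt {L : Type} {K : L → Set U} (hd : ∀ l l', l ≠ l' → Disjoint (K l) (K l'))
    (ho : ∀ l, Disjoint (K l) M.support) :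
    ∃ pt : U → Option (L ⊕ U), IsPt M K pt ∧ ∀ u ∉ M.support, pt u ≠ none := by
  classical
  refine ⟨fun a => if a ∈ M.support then none else
    if h : ∃ l, a ∈ K l then some (.inl h.choose) else some (.inr a),
    ⟨fun a ha => if_pos ha, fun l a => ⟨fun e => ?_, fun ha => ?_⟩, fun a ha h => ?_⟩,
    fun u hu => ?_⟩
  · dsimp only at e
    split_ifs at e with h1 h2
    · obtain rfl : h2.choose = l := Sum.inl.inj (Option.some.inj e)
      exact h2.choose_spec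
    · exact absurd (Option.some.inj e) Sum.inr_ne_inl
  · have h2 : ∃ l, a ∈ K l := ⟨l, ha⟩
    dsimp only
    rw [if_neg (disjoint_left.1 (ho l) ha), dif_pos h2]
    have e : h2.choose = l := by
      by_contra hne
      exact disjoint_left.1 (hd _ _ hne) h2.choose_spec ha
    rw [e]
  · dsimp only
    rw [if_neg ha, dif_neg (not_exists.2 h)]
  · dsimp only
    rw [if_neg hu]
    split_ifs <;> exact Option.some_ne_none _

end

theorem stepN_stmt (hV0 : V0Stmt) (hM0T : M0TStmt) (hGam : GamStmt) (hParam : ParamStmt)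
    (hEngine : EngineStmt) (hHub : HubStmt) (hGX : GXStmt) (hGRed : GRedStmt)
    (hGBlueN : GBlueNStmt) (hRedLift : RedLiftStmt) (hBlueLift : BlueLiftStmt) : StepNStmt := by
  intro W U V _ _ _ H P hP m hm hC A B hA hB hBc hBn hImp hnBA t hRA hnRB s hBA
  obtain ⟨I, L1, _, K1, hV⟩ := hV0 W U H P hP m hm hC A hA t hRA
  have hne : m ≠ .S1 := by
    rintro rfl
    exact hm
  obtain ⟨M, L2, _, K2, hM⟩ := hM0T W U H P hP m hne hC A hA s hBA
  obtain ⟨X, _, Γ, RΓ, Hub, Hs, Us, Xs, hG⟩ := hGam U Unit A M I (fun _ => none) (Nat.card W)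
    hM.imat hV.ind (fun _ _ => rfl) fun _ _ _ => hV.nc
  obtain ⟨E, hE, hCols⟩ := hParam W U H P hP m hC A hA
  obtain ⟨Z, _, G, R, Gs, Bs, hL⟩ := hEngine U X A E Γ RΓ Hub (Nat.card W) hE hG.le hG.ram
  rcases hImp Z G (xstep_arr hL) R hL.core.pre.le with ⟨φ, hφ⟩ | ⟨φ, hφ⟩
  · refine absurd (hRedLift W U X Z V _ H P hP m A E Γ RΓ Hub G R Gs Bs _ B φ _ t hA hB hBn le_rfl
      hL hCols (xstep_rtr hGX hA hG)
      (hGRed W U X Unit L1 H P hP m A M I Γ RΓ Hub Hs Us Xs _ K1 t hA le_rfl hG hV) hφ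
      fun γ hγ x hx hr => hnBA ?_) hnRB
    exact hHub U X Z V Unit A M I _ Γ RΓ Hub Hs Us Xs G R Gs Bs _ _ B φ hG hL.core hBc hφ γ hγ x
      hx hr
  · exact hBlueLift W U X Z V _ H P hP m hC A E Γ RΓ Hub G R Gs Bs _ B φ _ s hA hB hBn le_rfl hL
      hCols (hGBlueN W U X Unit L2 H P hP m hm A M I Γ RΓ Hub Hs Us Xs _ K2 s hA le_rfl hG hM) hφ

theorem stepS_stmt (hK3 : K3Stmt) (hROMono : ROMonoStmt) (hAtomA : AtomAStmt) (hIA : IAStmt)
    (hM0A : M0AStmt) (hM0T : M0TStmt) (hGam : GamStmt) (hParam : ParamStmt)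
    (hEngine : EngineStmt) (hHub : HubStmt) (hGX : GXStmt) (hGBlueS : GBlueSStmt)
    (hRedLoc : RedLocStmt) (hBlueLift : BlueLiftStmt) : StepSStmt := by
  intro W U V _ _ _ H P hP m hm hC A B hA hB hBc hBn hImp hnBA ⟨O, hO⟩ s hBA
  obtain ⟨I, hI, hIO⟩ := hIA U A _ (hAtomA W U H P hP A hA)
  obtain ⟨M, L, _, K, hM⟩ : ∃ (M : SimpleGraph U) (L : Type) (_ : Finite L) (K : L → Set U),
      MData P H m A M K s := by
    by_cases e : m = .S1
    · subst e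
      exact hM0A W U H P hP hC A hA s hBA
    · exact hM0T W U H P hP m e hC A hA s hBA
  obtain ⟨pt, hpt, hpt'⟩ := xstep_pt hM.fam.dis hM.off
  obtain ⟨X, _, Γ, RΓ, Hub, Hs, Us, Xs, hG⟩ := hGam U (L ⊕ U) A M I pt (Nat.card W)
    hM.imat hI hpt.1 fun u hu e => absurd e (hpt' u hu)
  obtain ⟨E, hE, hCols⟩ := hParam W U H P hP m hC A hA
  obtain ⟨Z, _, G, R, Gs, Bs, hL⟩ := hEngine U X A E Γ RΓ Hub (Nat.card W) hE hG.le hG.ram
  rcases hImp Z G (xstep_arr hL) R hL.core.pre.le with ⟨φ, hφ⟩ | ⟨φ, hφ⟩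
  · exfalso
    have hh : ∀ γ ∈ Gs, ∀ x ∈ Hub, γ x ∉ range φ := fun γ hγ x hx hr => hnBA
      (hHub U X Z V _ A M I _ Γ RΓ Hub Hs Us Xs G R Gs Bs _ _ B φ hG hL.core hBc hφ γ hγ x hx hr)
    obtain ⟨γ, hγ, -, hR⟩ := hRedLoc W U X Z V H P hP m A E Γ RΓ Hub G R Gs Bs _ B φ hA le_rfl hL
      hCols (xstep_rtr hGX hA hG) hφ hh O hO
    obtain ⟨⟨k1, k2, k3, k4⟩, k5⟩ := hK3 W U H P hP
    have hcard : (γ ⁻¹' (φ '' O)).ncard ≤ Nat.card W := by
      cases m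
      · exact absurd trivial hm
      · exact absurd trivial hm
      · exact hR.2.1.le.trans k3
      · exact hR.2.le.trans k4
    obtain ⟨ξ, hξ, hS⟩ := (hGX U X _ A M I pt Γ RΓ Hub Hs Us Xs _ hG).1 _ hcard
      (disjoint_left.2 fun x hx hx' => hh γ hγ x hx' (image_subset_range φ O hx))
      (hR.two.mono fun _ _ _ _ e => hG.le e) hR.two.edge
    obtain ⟨k, hk, hkI⟩ := xstep_pull hG hξ hS hR.two.nonempty
    obtain ⟨f, hf⟩ := hA
    have hRA := hROMono W X U H P hP m RΓ A k f _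
      ⟨hk.1, fun x hx y hy e => hk.2 x hx y hy (hG.le e)⟩ (hf.on _) hR
    obtain ⟨D, hD, hAD⟩ : ∃ D, D ⊆ k '' (γ ⁻¹' (φ '' O)) ∧ AS P H A D := by
      cases m
      · exact absurd trivial hm
      · exact absurd trivial hm
      · exact ⟨_, Subset.rfl, hRA⟩
      · obtain ⟨a, ha⟩ := hRA.two.nonempty
        obtain ⟨D, h1, h2, -⟩ := TH.ts hRA ha
        have e3 : P.vA = 3 := hC.1
        exact ⟨D, h1, ((k5 A D).2.2 e3).2 (((k5 A D).2.1 (by omega)).1 h2)⟩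
    obtain ⟨v, hv⟩ := hIO D hAD
    have hv' : v ∈ D ∩ I := hv ▸ mem_singleton v
    exact disjoint_left.1 hkI (hD hv'.1) hv'.2
  · have := Finite.of_injective (fun z : CI pt Us => z.1) Subtype.val_injective
    exact hBlueLift W U X Z V _ H P hP m hC A E Γ RΓ Hub G R Gs Bs _ B φ _ s hA hB hBn le_rfl hL
      hCols (hGBlueS W U X L H P hP m hm A M I pt Γ RΓ Hub Hs Us Xs _ K s hG hpt hM) hφ

end Pool.Agent.MP_1c0fc2_co.RE
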