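import Pool.Agent.MP_1c0fc2_co.RE.Basic

/-! Blocks of the `T`-graph lie in one node. -/

open Function Set Relation

namespace Pool.Agent.MP_1c0fc2_co.RE

section
variable {U V W : Type} [Finite W] [Finite U] [Finite V] {A : SimpleGraph U}
  {G R : SimpleGraph V} {H : SimpleGraph W} {P : Par}
  {Ls : Set (Set V)} {Bs : Set (Bag U V)} {g : ℕ} {c : Bool}

/-- steps inside a bag -/
def xth_Q (P : Par) (H : SimpleGraph W) (A : SimpleGraph U) (c : Bool) (β : Bag U V) (a b : U) :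
    Prop :=
  β.old.Adj a b ∨ (cc A β.red c = A \ β.old ∧ (TG P H (A \ β.old) univ).Adj a b)

omit [Finite W] [Finite V] in
theorem xth_pull (hP : Pre A G R Ls Bs g) {β : Bag U V} (hβ : β ∈ Bs) {D : Set V}
    (hD : TS P H (cc G R c) D) (hs : D ⊆ range β.f) : TS P H (cc A β.red c) (β.f ⁻¹' D) := by
  obtain ⟨k, h1, h2, -⟩ := exists_pull' (J := cc A β.red c) (J' := cc G R c) (hP.ind β hβ).inj
    (fun x y e => (hP.ccol hβ c x y).1 e) hs hD.two.nonempty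
  rw [← h2]
  exact hD.map h1

theorem xth_fact (hE : ESNodeStmt) (hA : In A H) (hg : P.vT ≤ g) (hP : Pre A G R Ls Bs g)
    (hT : ∀ β ∈ Bs, Tok P H A c β.old β.red β.top) {β : Bag U V} (hβ : β ∈ Bs) {a b : U}
    (e : (TG P H (cc G R c) univ).Adj (β.f a) (β.f b)) : xth_Q P H A c β a b := by
  obtain ⟨e1, D, -, hD, ha, hb⟩ := e
  have hab : a ≠ b := fun h => e1.ne (by rw [h])
  rcases (hE W U V H A G R Ls Bs g hA hP _ (cc_le hP.le c) D (hD.2.1.le.trans hg)).1 hD.1 with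
    ⟨L, hL, hs⟩ | ⟨β', hβ', hs⟩
  · exact .inl (hP.lb L hL β hβ a b hab (hs ha) (hs hb)).2
  have hD' := xth_pull hP hβ' hD hs
  obtain ⟨a', ha'⟩ := hs ha
  obtain ⟨b', hb'⟩ := hs hb
  rcases hT β' hβ' with ⟨h1, h2, -⟩ | ⟨h1, -⟩
  swap
  · exact absurd hD' (h1 _)
  have e2 : (cc A β'.red c).Adj a' b' := (hP.ccol hβ' c a' b').1 (by rw [ha', hb']; exact e1)
  rw [h2] at e2 hD'
  by_cases ho : β.old.Adj a b
  · exact .inl ho
  rcases hP.bb β hβ β' hβ' a b a' b' (((hP.ind β hβ).adj a b).1 (cc_le hP.le c e1)) ho e2.2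
    ha'.symm hb'.symm with rfl | h
  · obtain rfl := (hP.ind β hβ).inj ha'
    obtain rfl := (hP.ind β hβ).inj hb'
    exact .inr ⟨h2, e2, _, subset_univ _, hD', ha, hb⟩
  · exact absurd h.2 h1

/-- the trace of a connected set on a bag -/
theorem xth_tr (hE : ESNodeStmt) (hA : In A H) (hg : P.vT ≤ g) (hP : Pre A G R Ls Bs g)
    (hT : ∀ β ∈ Bs, Tok P H A c β.old β.red β.top) {β : Bag U V} (hβ : β ∈ Bs) {C : Set V}
    (hc : ConnOn (TG P H (cc G R c) univ).Adj C)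
    (hx : ∀ D, D ⊆ C \ range β.f → ConnOn (TG P H (cc G R c) univ).Adj D → ∀ a b, a ≠ b →
      (∃ d ∈ D, (TG P H (cc G R c) univ).Adj (β.f a) d) →
      (∃ d ∈ D, (TG P H (cc G R c) univ).Adj (β.f b) d) → β.old.Adj a b) :
    ConnOn (xth_Q P H A c β) (β.f ⁻¹' C) := by
  have inj := (hP.ind β hβ).inj
  have h1 := hc.trace (adj_symm' _) (range β.f)
    (Q := fun x y => ∃ a b, β.f a = x ∧ β.f b = y ∧ xth_Q P H A c β a b)
    (by
      rintro _ ⟨-, a, rfl⟩ _ ⟨-, b, rfl⟩ - e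
      exact ⟨a, b, rfl, rfl, xth_fact hE hA hg hP hT hβ e⟩)
    (by
      rintro D hD hd _ ⟨-, a, rfl⟩ _ ⟨-, b, rfl⟩ hab h2 h3
      exact ⟨a, b, rfl, rfl, .inl (hx D hD hd a b (fun e => hab (by rw [e])) h2 h3)⟩)
  intro a ha b hb
  have key : ∀ y, ReflTransGen (fun x y => x ∈ C ∩ range β.f ∧ y ∈ C ∩ range β.f ∧
      ∃ a b, β.f a = x ∧ β.f b = y ∧ xth_Q P H A c β a b) (β.f a) y → ∀ b, β.f b = y →
      ReflTransGen (fun x y => x ∈ β.f ⁻¹' C ∧ y ∈ β.f ⁻¹' C ∧ xth_Q P H A c β x y) a b := by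
    intro y p
    induction p with
    | refl => intro b e; rw [inj e]
    | tail _ h ih =>
      obtain ⟨h2, h3, a', b', rfl, rfl, h4⟩ := h
      intro b e
      rw [inj e]
      exact (ih a' rfl).tail ⟨h2.1, h3.1, h4⟩
  exact key _ (h1 _ ⟨ha, mem_range_self a⟩ _ ⟨hb, mem_range_self b⟩) b rfl

omit [Finite W] [Finite U] [Finite V] in
/-- a detour inside a bag forces a protecting bag and a new edge -/
theorem xth_end {β : Bag U V} (hT : Tok P H A c β.old β.red β.top) {a b z : U} (e : A.Adj a b)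
    {C1 C2 : Set U} (h1 : ConnOn (xth_Q P H A c β) C1) (h2 : ConnOn (xth_Q P H A c β) C2)
    (ha : a ∈ C1) (hb : b ∉ C1) (hz : z ∈ C1) (hz' : z ∈ C2) (ha' : a ∉ C2) (hb' : b ∈ C2) :
    ¬ β.top ∧ ¬ β.old.Adj a b := by
  have p : ReflTransGen (fun x y => xth_Q P H A c β x y ∧ s(x, y) ≠ s(a, b)) a b :=
    (rtg_avoid (.inr hb) (h1 a ha z hz)).trans (rtg_avoid (.inl ha') (h2 z hz' b hb'))
  rcases hT with ⟨t1, -, t3⟩ | ⟨t1, t2⟩
  · exact ⟨t1, fun ho => t3 a b ho (rtg_mono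
      (fun x y h => ⟨h.1.elim .inr fun h => .inl h.2, h.2⟩) p)⟩
  · refine absurd (rtg_mono (fun x y h => ⟨h.1.resolve_right ?_, h.2⟩) p) (t2 a b e)
    rintro ⟨h3, -, D, -, h4, -⟩
    exact t1 D (h3 ▸ h4)

theorem xth_nc (hE : ESNodeStmt) (hA : In A H) (hg : P.vT ≤ g) (hP : Pre A G R Ls Bs g)
    (hT : ∀ β ∈ Bs, Tok P H A c β.old β.red β.top) (n : ℕ) : ∀ C : Set V, C.ncard ≤ n →
    C.ncard ≤ g → ∀ μ ∈ Nodes Ls Bs, Disjoint C μ → ConnOn (TG P H (cc G R c) univ).Adj C →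
    ∀ u ∈ μ, ∀ v ∈ μ, u ≠ v → (∃ d ∈ C, (TG P H (cc G R c) univ).Adj u d) →
    (∃ d ∈ C, (TG P H (cc G R c) univ).Adj v d) →
    μ ∉ Ls ∧ ∀ β ∈ Bs, μ = range β.f → ∀ a b, β.f a = u → β.f b = v → β.old.Adj a b := by
  have hle : TG P H (cc G R c) univ ≤ G := (TG_le _ _).trans (cc_le hP.le c)
  induction n with
  | zero =>
    rintro C h - μ - - - u - v - - ⟨d, hd, -⟩ -
    rw [Nat.le_zero, ncard_eq_zero] at h
    exact absurd hd (h ▸ notMem_empty d)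
  | succ n ih =>
    rintro C hn hC μ hμ hd hc u hu v hv huv ⟨du, hdu, eu⟩ ⟨dv, hdv, ev⟩
    obtain ⟨e, -, ν, hν, h1, h2, z, h3, h4⟩ := (hP.thin μ hμ).two hC hd
      (hc.mono fun _ _ _ _ e => hP.tog (hle e)) (u := u) (v := v) ⟨hu, du, hdu, hP.tog (hle eu)⟩
      ⟨hv, dv, hdv, hP.tog (hle ev)⟩ huv
    have hz : z ∉ μ := disjoint_left.1 hd h4
    rcases hν with hν | ⟨β', hβ', rfl⟩
    · refine ⟨fun h => hz (hP.eq_of_mem hν h h1 hu ▸ h3), ?_⟩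
      rintro β hβ - a b rfl rfl
      exact (hP.lb ν hν β hβ a b (fun e => huv (by rw [e])) h1 h2).2
    obtain ⟨a', rfl⟩ := h1
    obtain ⟨b', rfl⟩ := h2
    obtain ⟨z', rfl⟩ := h3
    have tr : ∀ w d, d ∈ C → (TG P H (cc G R c) univ).Adj (β'.f w) d →
        ConnOn (xth_Q P H A c β') (β'.f ⁻¹' insert (β'.f w) C) := by
      intro w d h5 h6
      refine xth_tr hE hA hg hP hT hβ' (hc.insert (adj_symm' _) h5 h6)
        fun D hD hD' a b hab h7 h8 => ?_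
      have h9 : D ⊆ C \ {β'.f z'} := fun x hx =>
        ⟨(hD hx).1.resolve_left fun e => (hD hx).2 ⟨w, e.symm⟩, fun e => (hD hx).2 ⟨z', e.symm⟩⟩
      have h10 : D.ncard < C.ncard :=
        (ncard_le_ncard h9 (toFinite _)).trans_lt (ncard_sdiff_singleton_lt_of_mem h4 (toFinite _))
      exact (ih D (by omega) (by omega) _ (.inr ⟨β', hβ', rfl⟩)
        (disjoint_left.2 fun x hx => (hD hx).2) hD' _ (mem_range_self a) _ (mem_range_self b)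
        (fun e => hab ((hP.ind β' hβ').inj e)) h7 h8).2 β' hβ' rfl a b rfl rfl
    obtain ⟨t1, t2⟩ := xth_end (hT β' hβ') (((hP.ind β' hβ').adj a' b').1 e) (z := z')
      (tr a' du hdu eu) (tr b' dv hdv ev) (.inl rfl)
      (fun h => h.elim (fun e => huv e.symm) fun h => disjoint_left.1 hd h hv) (.inr h4) (.inr h4)
      (fun h => h.elim huv fun h => disjoint_left.1 hd h hu) (.inl rfl)
    refine ⟨fun h => t2 (hP.lb μ h β' hβ' a' b' (fun e => huv (by rw [e])) hu hv).2, ?_⟩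
    rintro β hβ rfl a b h5 h6
    by_contra ho
    rcases hP.bb β hβ β' hβ' a b a' b' (((hP.ind β hβ).adj a b).1 (by rw [h5, h6]; exact e)) ho t2
      h5 h6 with rfl | h
    exacts [hz (mem_range_self z'), t1 h.2]

end

theorem thnode_stmt (hE : ESNodeStmt) : ThNodeStmt := by
  intro W U V _ _ _ H P A G R Ls Bs g c hA hg hP hT S hS h2
  obtain ⟨x, hx, y, hy, e⟩ := h2.edge
  obtain ⟨e1, D, -, hD, hxD, hyD⟩ := e
  have nc : ∀ μ ∈ Nodes Ls Bs, ∀ C, C ⊆ S \ μ → ConnOn (TG P H (cc G R c) univ).Adj C →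
      ∀ u ∈ μ, ∀ v ∈ μ, u ≠ v → (∃ d ∈ C, (TG P H (cc G R c) univ).Adj u d) →
      (∃ d ∈ C, (TG P H (cc G R c) univ).Adj v d) →
      μ ∉ Ls ∧ ∀ β ∈ Bs, μ = range β.f → ∀ a b, β.f a = u → β.f b = v → β.old.Adj a b :=
    fun μ hμ C hC => xth_nc hE hA hg hP hT _ C le_rfl
      ((ncard_le_ncard (fun x hx => (hC hx).1) (toFinite _)).trans hS) μ hμ
      (disjoint_left.2 fun x hx => (hC hx).2)
  have out : ∀ μ ∈ Nodes Ls Bs, D ⊆ μ → ¬ S ⊆ μ → ∃ u ∈ S ∩ μ, ∃ v ∈ S ∩ μ, u ≠ v ∧ μ ∉ Ls ∧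
      ∀ β ∈ Bs, μ = range β.f → ∀ a b, β.f a = u → β.f b = v → β.old.Adj a b := by
    intro μ hμ hs hn
    obtain ⟨w, hw, hw'⟩ := not_subset.1 hn
    obtain ⟨u, hu, v, hv, huv, h3, h4⟩ := h2.two_nb (Y := μ)
      (fun h => e1.ne (h ⟨hx, hs hxD⟩ ⟨hy, hs hyD⟩)) ⟨hw, hw'⟩
    exact ⟨u, hu, v, hv, huv, nc μ hμ _ comp_sub (comp_conn (adj_symm' _)) u hu.2 v hv.2 huv h3 h4⟩
  rcases (hE W U V H A G R Ls Bs g hA hP _ (cc_le hP.le c) D (hD.2.1.le.trans hg)).1 hD.1 with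
    ⟨L, hL, hs⟩ | ⟨β, hβ, hs⟩
  · refine .inl ⟨L, hL, ?_⟩
    by_contra hn
    obtain ⟨-, -, -, -, -, h, -⟩ := out L (.inl hL) hs hn
    exact h hL
  refine .inr ⟨β, hβ, ?_⟩
  by_contra hn
  obtain ⟨_, ⟨hu, a, rfl⟩, _, ⟨hv, b, rfl⟩, huv, -, ho⟩ := out _ (.inr ⟨β, hβ, rfl⟩) hs hn
  replace ho := ho β hβ rfl a b rfl rfl
  have inj := (hP.ind β hβ).inj
  obtain ⟨x', rfl⟩ := hs hxD
  obtain ⟨y', rfl⟩ := hs hyD
  have hxy : ¬ β.old.Adj x' y' := by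
    rcases hT β hβ with ⟨-, t, -⟩ | ⟨t, -⟩
    · have e2 := (hP.ccol hβ c x' y').1 e1
      rw [t] at e2
      exact e2.2
    · exact absurd (xth_pull hP hβ hD hs) (t _)
  obtain ⟨z, hz, h3, h4⟩ : ∃ z, β.f z ∈ S ∧ z ≠ a ∧ z ≠ b := by
    by_contra h
    have h5 : ∀ z, β.f z ∈ S → z = a ∨ z = b := fun z hz => by
      by_contra h'
      exact h ⟨z, hz, fun e => h' (.inl e), fun e => h' (.inr e)⟩
    rcases h5 x' hx with rfl | rfl <;> rcases h5 y' hy with rfl | rfl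
    exacts [e1.ne rfl, hxy ho, hxy ho.symm, e1.ne rfl]
  have tr : ∀ w, ConnOn (xth_Q P H A c β) (β.f ⁻¹' (S \ {w})) := fun w =>
    xth_tr hE hA hg hP hT hβ (h2.2 w) fun C hC hc a b hab h5 h6 =>
      (nc _ (.inr ⟨β, hβ, rfl⟩) C (fun x hx => ⟨(hC hx).1.1, (hC hx).2⟩) hc _ (mem_range_self a) _
        (mem_range_self b) (fun e => hab (inj e)) h5 h6).2 β hβ rfl a b rfl rfl
  exact (xth_end (hT β hβ) (hP.old β hβ ho) (z := z) (tr (β.f b)) (tr (β.f a)) ⟨hu, huv⟩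
    (fun h => h.2 rfl) ⟨hz, fun e => h4 (inj e)⟩ ⟨hz, fun e => h3 (inj e)⟩ (fun h => h.2 rfl)
    ⟨hv, fun e => huv e.symm⟩).2 ho

end Pool.Agent.MP_1c0fc2_co.RE
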