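import Pool.Agent.MP_1c0fc2_co.RE.Basic

/-! Choice of the centres and pulling back red families. -/

open Function Set Relation

namespace Pool.Agent.MP_1c0fc2_co.RE

theorem xv0_rw_mono {V : Type} (J : SimpleGraph V) (Ob : Set V → Prop) {K K' : Set V}
    (h : K ⊆ K') : RW J Ob K ⊆ RW J Ob K' :=
  fun _ ⟨O, h1, h2, h3⟩ => ⟨O, h1, h2.trans h, h3⟩

theorem v0_stmt (hK3 : K3Stmt) (hAtomA : AtomAStmt) (hSplit : SplitStmt) (hV0Abs : V0AbsStmt) : V0Stmt := by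
  intro W U _ _ H P hP m hm hC A hA s hF
  obtain ⟨L, _, K, h1, h2⟩ := hF
  obtain ⟨L', _, K', k1, k2, k3⟩ := hSplit U L A _ K h1 fun O hO => ⟨hO.two.conn, hO.two.nonempty⟩
  obtain ⟨I, i1, i2, i3⟩ := hV0Abs U L' A (AS P H A) (RO P H m A) K' (hAtomA W U H P hP A hA)
    (fun D hD hs => by
      obtain ⟨a, ha, b, hb, e⟩ := hD.two.edge
      exact e.ne (hs ha hb))
    (fun O hO => hO.two.nonempty)
    (fun O x hO => by
      cases m with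
      | N1 =>
        refine ⟨O, subset_rfl, hO.1, ?_⟩
        by_cases hx : x ∈ O
        · exact .inr (hO.2 x hx)
        · exact .inl hx
      | N2 =>
        obtain ⟨D, d1, d2, d3⟩ := hO.2 x
        exact ⟨D, d1, (((hK3 W U H P hP).2 A D).2.2 hC.1).2 d2, .inl d3⟩
      | S1 => exact hm.elim
      | S2 => exact hm.elim)
    k1.rp k2
  refine ⟨I, L', inferInstance, K', i1, i2, k1, fun l => ?_⟩
  by_cases h : ∃ O, RO P H m A O ∧ O ⊆ K' l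
  · obtain ⟨x, hx, hx'⟩ := i3 l h
    obtain ⟨l0, hl⟩ := k3 l
    have a1 : (RW A (RO P H m A) (K' l) \ I).ncard < (RW A (RO P H m A) (K' l)).ncard :=
      ncard_lt_ncard ⟨sdiff_subset, fun e => (e hx').2 hx⟩
    have a2 := ncard_le_ncard (xv0_rw_mono A (RO P H m A) hl)
    have a3 := h2 l0
    omega
  · have e : RW A (RO P H m A) (K' l) \ I = ∅ :=
      eq_empty_of_forall_notMem fun _ ⟨⟨O, o1, o2, _⟩, _⟩ => h ⟨O, o1, o2⟩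
    rw [e, ncard_empty]
    exact Nat.zero_le _

theorem xv0_port {V Z L : Type} {B : SimpleGraph V} {Y : SimpleGraph Z} {φ : V → Z}
    (hφ : IH B Y φ) (K : L → Set Z) (𝒮 : Set L) (l : L) {R0 : Set V} {R0' : Set Z}
    (hR : ∀ x ∈ R0, φ x ∈ R0') {p : V}
    (hp : p ∈ Port B (φ ⁻¹' K l) (R0 ∪ Oth (fun l => φ ⁻¹' K l) 𝒮 l)) :
    φ p ∈ Port Y (K l ∩ range φ) (R0' ∪ Oth (fun l => K l ∩ range φ) 𝒮 l) := by
  have h : ∀ x ∈ R0 ∪ Oth (fun l => φ ⁻¹' K l) 𝒮 l,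
      φ x ∈ R0' ∪ Oth (fun l => K l ∩ range φ) 𝒮 l := by
    rintro x (hx | ⟨l', a1, a2, a3⟩)
    · exact .inl (hR x hx)
    · exact .inr ⟨l', a1, a2, a3, mem_range_self x⟩
  obtain ⟨p1, p2 | ⟨q, q1, q2, q3⟩⟩ := hp
  · exact ⟨⟨p1, mem_range_self p⟩, .inl (h p p2)⟩
  · exact ⟨⟨p1, mem_range_self p⟩, .inr ⟨φ q, h q q1, fun e => q2 e.1, hφ.2 _ _ q3⟩⟩

theorem pullR_stmt : PullRStmt := by
  intro W V Z L _ _ _ _ H P m B Y φ K s hφ h1 h2 h3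
  refine ⟨L, inferInstance, fun l => φ ⁻¹' K l, ⟨fun O hO => ?_, fun 𝒮 R0 hn hR => ?_⟩,
    fun l => ?_⟩
  · obtain ⟨l, hl⟩ := h1 O hO
    exact ⟨l, image_subset_iff.1 hl⟩
  · obtain ⟨R0', r1, r2⟩ : ∃ R0' : Set Z, (∀ x ∈ R0, φ x ∈ R0') ∧
        (R0' = ∅ ∨ (∃ l0, l0 ∉ 𝒮 ∧ R0' = K l0 ∩ range φ) ∨ ∃ r ∈ range φ, R0' = {r}) := by
      rcases hR with rfl | ⟨l0, a1, rfl⟩ | ⟨r, -, rfl⟩
      · exact ⟨∅, fun _ h => h.elim, .inl rfl⟩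
      · exact ⟨K l0 ∩ range φ, fun x hx => ⟨hx, mem_range_self x⟩, .inr (.inl ⟨l0, a1, rfl⟩)⟩
      · exact ⟨{φ r}, fun x hx => congrArg φ hx, .inr (.inr ⟨φ r, mem_range_self r, rfl⟩)⟩
    obtain ⟨l, hl, hs⟩ := h2 𝒮 R0' hn r2
    exact ⟨l, hl, fun p hp q hq =>
      hφ.1 (hs (xv0_port hφ K 𝒮 l r1 hp) (xv0_port hφ K 𝒮 l r1 hq))⟩
  · obtain ⟨D, d1, d2⟩ := h3 l
    refine le_trans (ncard_le_ncard_of_injOn φ ?_ hφ.1.injOn (toFinite _)) d1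
    rintro w ⟨O, o1, o2, o3⟩
    exact d2 O o1 (image_subset_iff.2 o2) (mem_image_of_mem φ o3)

end Pool.Agent.MP_1c0fc2_co.RE
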