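import Pool.Agent.MP_1c0fc2_co.RE.Basic

/-! One vertex for each class with an object, independent and without common neighbours. -/

open Function Set Relation

namespace Pool.Agent.MP_1c0fc2_co.RE

section
variable {V L : Type} {J : SimpleGraph V} {A0 Ob : Set V → Prop} {K : L → Set V}
  {ρ : Set V → ℕ} {τ Br : Set V → Set V}

theorem xv0abs_port {𝒮 : Set L} {l l' : L} (hl' : l' ∈ 𝒮) (hne : l' ≠ l) {p : V} (hp : p ∈ K l)
    (hp' : p ∈ K l') : p ∈ Port J (K l) (Oth K 𝒮 l) :=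
  ⟨hp, .inl ⟨l', hl', hne, hp'⟩⟩

theorem xv0abs_port' {𝒮 : Set L} {l l' : L} (hl' : l' ∈ 𝒮) (hne : l' ≠ l) {p q : V}
    (hp : p ∈ K l) (hq : q ∈ K l') (hq' : q ∉ K l) (e : J.Adj p q) :
    p ∈ Port J (K l) (Oth K 𝒮 l) :=
  ⟨hp, .inr ⟨q, ⟨l', hl', hne, hq⟩, hq', e⟩⟩

/-- two classes meet or are adjacent -/
def xv0abs_Con (J : SimpleGraph V) (K : L → Set V) (l l' : L) : Prop :=
  ∃ p ∈ K l, ∃ q ∈ K l', p = q ∨ J.Adj p q

theorem xv0abs_symm (l l' : L) (h : xv0abs_Con J K l l') : xv0abs_Con J K l' l :=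
  let ⟨p, hp, q, hq, e⟩ := h; ⟨q, hq, p, hp, e.imp Eq.symm SimpleGraph.Adj.symm⟩

theorem xv0abs_restrict {𝒮 : Set L} {l1 l : L} (hl : l ∈ comp (xv0abs_Con J K) 𝒮 l1) :
    Port J (K l) (Oth K 𝒮 l) ⊆ Port J (K l) (Oth K (comp (xv0abs_Con J K) 𝒮 l1) l) := by
  rintro p ⟨hp, ⟨l', h1, h2, h3⟩ | ⟨q, ⟨l', h1, h2, h3⟩, h4, h5⟩⟩
  · exact xv0abs_port (comp_closed hl h1 ⟨p, hp, p, h3, .inl rfl⟩) h2 hp h3
  · exact xv0abs_port' (comp_closed hl h1 ⟨p, hp, q, h3, .inr h5⟩) h2 hp h3 h4 h5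

/-- if the port lies in a branch then all the other classes lie in that branch -/
theorem xv0abs_inside {𝒦 : Set L} (h𝒦 : ConnOn (xv0abs_Con J K) 𝒦)
    (hK : ∀ l, ConnOn J.Adj (K l)) {l : L} (hl : l ∈ 𝒦) {D t B : Set V} (hD : D ⊆ K l)
    (hc : Cut J D t B) (hp : Port J (K l) (Oth K 𝒦 l) ⊆ B) {l' : L} (hl' : l' ∈ 𝒦)
    (hne : l' ≠ l) : K l' ⊆ B := by
  have miss : ∀ u ∈ 𝒦, u ≠ l → ∀ q ∈ K u, q ∉ t := fun u hu e q hq hqt =>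
    disjoint_left.1 hc.2.2.1 (hp (xv0abs_port hu e (hD (hc.1 hqt)) hq)) hqt
  have sub : ∀ u ∈ 𝒦, u ≠ l → ∀ q ∈ K u, q ∈ B → K u ⊆ B := fun u hu e q hq hqB =>
    (hK u).sub hq hqB fun x _ y hy hx exy => (hc.2.2.2 x hx y exy).resolve_right (miss u hu e y hy)
  have key : ∀ u, ReflTransGen (fun x y => x ∈ 𝒦 ∧ y ∈ 𝒦 ∧ xv0abs_Con J K x y) l u →
      u = l ∨ K u ⊆ B := by
    intro u hu
    induction hu with
    | refl => exact .inl rfl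
    | @tail u w _ h ih =>
      by_cases e : w = l
      · exact .inl e
      obtain ⟨-, hw, p, hp1, q, hq, epq⟩ := h
      refine .inr (sub w hw e q hq ?_)
      have step : p ∈ B → q ∈ B := fun hpB => by
        rcases epq with rfl | epq
        · exact hpB
        · exact (hc.2.2.2 p hpB q epq).resolve_right (miss w hw e q hq)
      rcases ih with rfl | ih
      · by_cases hq' : q ∈ K u
        · exact hp (xv0abs_port hw e hq' hq)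
        · rcases epq with rfl | epq
          · exact absurd hp1 hq'
          · exact step (hp (xv0abs_port' hw e hp1 hq hq' epq))
      · exact step (ih hp1)
  exact (key l' (h𝒦 l hl l' hl')).resolve_left hne

theorem xv0abs_step [Finite V] [Finite L] (hns : ∀ D, A0 D → ¬ D.Subsingleton)
    (hinj : ∀ O O', A0 O → A0 O' → ρ O = ρ O' → O = O')
    (hcut : ∀ O, A0 O → Cq J (τ O) ∧ Cut J O (τ O) (Br O))
    (hlt : ∀ O O', A0 O → A0 O' → ρ O < ρ O' → Disjoint O' (Br O))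
    (hrp : RP J K univ) (hK : ∀ l, ConnOn J.Adj (K l)) {𝒮 : Set L} {l1 : L} (h1 : l1 ∈ 𝒮)
    (hD1 : ∃ D, A0 D ∧ D ⊆ K l1) :
    ∃ l ∈ 𝒮, (Port J (K l) (Oth K 𝒮 l)).Subsingleton ∧
      ∀ c ∈ Port J (K l) (Oth K 𝒮 l), ∀ D, A0 D → D ⊆ K l → c ∉ Br D := by
  set 𝒦 := comp (xv0abs_Con J K) 𝒮 l1 with h𝒦
  obtain ⟨D1, hD1, hD1'⟩ := hD1
  obtain ⟨D0, ⟨hD0, l0, hl0, hD0'⟩, hmax⟩ := Set.exists_max_image
    {D | A0 D ∧ ∃ l ∈ 𝒦, D ⊆ K l} ρ (toFinite _) ⟨D1, hD1, l1, mem_comp h1, hD1'⟩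
  by_cases hn : (𝒦 \ {l0}).Nonempty
  · obtain ⟨l, hl, hs⟩ := hrp (𝒦 \ {l0}) (K l0) hn (.inr (.inl ⟨l0, fun h => h.2 rfl, rfl⟩))
    have hs' : (Port J (K l) (Oth K 𝒦 l)).Subsingleton := by
      have hO : Oth K 𝒦 l ⊆ K l0 ∪ Oth K (𝒦 \ {l0}) l := by
        rintro x ⟨l', a1, a2, a3⟩
        by_cases e : l' = l0
        · exact .inl (e ▸ a3)
        · exact .inr ⟨l', ⟨a1, e⟩, a2, a3⟩
      refine hs.anti ?_
      rintro p ⟨hp, h | ⟨q, a1, a2, a3⟩⟩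
      exacts [⟨hp, .inl (hO h)⟩, ⟨hp, .inr ⟨q, hO a1, a2, a3⟩⟩]
    refine ⟨l, comp_sub hl.1, hs'.anti (xv0abs_restrict hl.1), fun c hc D hD hDl hcB => ?_⟩
    have hne : l0 ≠ l := fun e => hl.2 e.symm
    have hin : K l0 ⊆ Br D := xv0abs_inside (comp_conn xv0abs_symm) hK hl.1 hDl (hcut D hD).2
      (fun p hp => by rw [hs' hp (xv0abs_restrict hl.1 hc)]; exact hcB) hl0 hne
    rcases (hmax D ⟨hD, l, hl.1, hDl⟩).lt_or_eq with h | h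
    · obtain ⟨a, ha, -⟩ := not_subsingleton_iff.1 (hns D0 hD0)
      exact disjoint_left.1 (hlt D D0 hD hD0 h) ha (hin (hD0' ha))
    · obtain rfl := hinj D D0 hD hD0 h
      exact hns D hD (hs'.anti fun p hp => xv0abs_port hl0 hne (hDl hp) (hD0' hp))
  · have he : Port J (K l0) (Oth K 𝒮 l0) = ∅ := by
      refine eq_empty_of_forall_notMem fun p hp => ?_
      rcases (xv0abs_restrict hl0 hp).2 with ⟨l', a1, a2, -⟩ | ⟨q, ⟨l', a1, a2, -⟩, -⟩ <;>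
        exact hn ⟨l', a1, a2⟩
    exact ⟨l0, comp_sub hl0, he ▸ subsingleton_empty, fun c hc => by rw [he] at hc; exact hc.elim⟩

theorem xv0abs_pick (hat : Atoms J (Cq J) A0)
    (hcut : ∀ O, A0 O → Cq J (τ O) ∧ Cut J O (τ O) (Br O)) {O Pt : Set V} (hO : O.Nonempty)
    (hD : ∀ x, ∃ D, D ⊆ O ∧ A0 D ∧ (x ∉ D ∨ ∃ v ∈ D, v ≠ x ∧ ¬ J.Adj x v))
    (hs : Pt.Subsingleton) (hB : ∀ c ∈ Pt, ∀ D, A0 D → D ⊆ O → c ∉ Br D) :
    ∃ D, D ⊆ O ∧ A0 D ∧ ∃ v ∈ D \ τ D, ∀ c ∈ Pt, v ≠ c ∧ ¬ J.Adj v c ∧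
      (c ∉ Ext J O → ∀ x ∈ τ D, J.Adj c x → ¬ J.Adj v x) := by
  rcases hs.eq_empty_or_singleton with rfl | ⟨c, rfl⟩
  · obtain ⟨x, -⟩ := hO
    obtain ⟨D, h1, h2, -⟩ := hD x
    obtain ⟨v, hv⟩ := (hat.nsep D _ h2 (hcut D h2).1).2
    exact ⟨D, h1, h2, v, hv, fun c hc => hc.elim⟩
  have far : ∀ D, D ⊆ O → A0 D → c ∉ D → ∀ v ∈ D \ τ D, v ≠ c ∧ ¬ J.Adj v c := by
    intro D h1 h2 h3 v hv
    refine ⟨fun e => h3 (e ▸ hv.1), fun e => ?_⟩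
    rcases (hcut D h2).2.2.2.2 v ((hcut D h2).2.2.1 hv) c e with h | h
    exacts [hB c rfl D h2 h1 h, h3 ((hcut D h2).2.1 h)]
  by_cases hc : c ∈ Ext J O
  · obtain ⟨D, h1, h2, h3⟩ := hD c
    by_cases hcD : c ∈ D
    · obtain ⟨v, hv, h4, h5⟩ := h3.resolve_left (not_not.2 hcD)
      have hcτ : c ∈ τ D := by
        by_contra h
        exact hB c rfl D h2 h1 ((hcut D h2).2.2.1 ⟨hcD, h⟩)
      refine ⟨D, h1, h2, v, ⟨hv, fun h => h5 ((hcut D h2).1.adj hcτ h h4.symm)⟩, ?_⟩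
      rintro _ rfl
      exact ⟨h4, fun e => h5 e.symm, fun h => absurd hc h⟩
    · obtain ⟨v, hv⟩ := (hat.nsep D _ h2 (hcut D h2).1).2
      refine ⟨D, h1, h2, v, hv, ?_⟩
      rintro _ rfl
      exact ⟨(far D h1 h2 hcD v hv).1, (far D h1 h2 hcD v hv).2, fun h => absurd hc h⟩
  · have hcO : c ∉ O := fun h => hc (.inl h)
    obtain ⟨x0, hx0⟩ : ∃ x0, ∀ x ∈ O, J.Adj c x → x = x0 := by
      by_cases h : ∃ x ∈ O, J.Adj c x
      · obtain ⟨x0, a1, a2⟩ := h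
        refine ⟨x0, fun x b1 b2 => ?_⟩
        by_contra e
        exact hc (.inr ⟨x, b1, x0, a1, e, b2, a2⟩)
      · exact ⟨c, fun x b1 b2 => absurd ⟨x, b1, b2⟩ h⟩
    obtain ⟨D, h1, h2, h3⟩ := hD x0
    have hcD : c ∉ D := fun h => hcO (h1 h)
    by_cases hx : x0 ∈ τ D
    · obtain ⟨v, hv, h4, h5⟩ := h3.resolve_left (not_not.2 ((hcut D h2).2.1 hx))
      have hv' : v ∈ D \ τ D := ⟨hv, fun h => h5 ((hcut D h2).1.adj hx h h4.symm)⟩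
      refine ⟨D, h1, h2, v, hv', ?_⟩
      rintro _ rfl
      refine ⟨(far D h1 h2 hcD v hv').1, (far D h1 h2 hcD v hv').2, fun _ x a1 a2 a3 => ?_⟩
      rw [hx0 x (h1 ((hcut D h2).2.1 a1)) a2] at a3
      exact h5 a3.symm
    · obtain ⟨v, hv⟩ := (hat.nsep D _ h2 (hcut D h2).1).2
      refine ⟨D, h1, h2, v, hv, ?_⟩
      rintro _ rfl
      refine ⟨(far D h1 h2 hcD v hv).1, (far D h1 h2 hcD v hv).2, fun _ x a1 a2 _ => ?_⟩
      rw [hx0 x (h1 ((hcut D h2).2.1 a1)) a2] at a1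
      exact hx a1

theorem xv0abs_conf (hns : ∀ D, A0 D → ¬ D.Subsingleton)
    (hinj : ∀ O O', A0 O → A0 O' → ρ O = ρ O' → O = O')
    (hcut : ∀ O, A0 O → Cq J (τ O) ∧ Cut J O (τ O) (Br O))
    (hlt : ∀ O O', A0 O → A0 O' → ρ O < ρ O' → Disjoint O' (Br O))
    {𝒮 : Set L} {l l' : L} (hl' : l' ∈ 𝒮) (hne : l' ≠ l)
    (hs : (Port J (K l) (Oth K 𝒮 l)).Subsingleton) {O D D' : Set V} (hO : O ⊆ K l) (hDO : D ⊆ O)
    (hD : A0 D) (hD' : A0 D') (hD'K : D' ⊆ K l') {v v' : V} (hv : v ∈ D \ τ D)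
    (hv' : v' ∈ D' \ τ D') (hE : v' ∉ Ext J O)
    (hp : ∀ c ∈ Port J (K l) (Oth K 𝒮 l), v ≠ c ∧ ¬ J.Adj v c ∧
      (c ∉ Ext J O → ∀ x ∈ τ D, J.Adj c x → ¬ J.Adj v x)) :
    ¬ J.Adj v v' ∧ ∀ x, J.Adj v x → ¬ J.Adj v' x := by
  have hvK : v ∈ K l := hO (hDO hv.1)
  have hv'K : v' ∈ K l' := hD'K hv'.1
  have nb : ∀ q ∈ K l', ¬ J.Adj v q := fun q hq e => by
    by_cases h : q ∈ K l
    · exact (hp q (xv0abs_port hl' hne h hq)).2.1 e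
    · exact (hp v (xv0abs_port' hl' hne hvK hq h e)).1 rfl
  refine ⟨nb v' hv'K, fun x e e' => ?_⟩
  obtain ⟨-, c1, c2, -, c4⟩ := hcut D hD
  obtain ⟨-, d1, d2, -, d4⟩ := hcut D' hD'
  rcases lt_trichotomy (ρ D) (ρ D') with h | h | h
  · rcases c4 v (c2 hv) x e with hx | hx
    · rcases c4 x hx v' e'.symm with a | a
      · exact disjoint_left.1 (hlt D D' hD hD' h) hv'.1 a
      · exact hE (.inl (hDO (c1 a)))
    · by_cases a : v' ∈ K l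
      · exact (hp v' (xv0abs_port hl' hne a hv'K)).2.2 hE x hx e' e
      · exact (hp x (xv0abs_port' hl' hne (hO (hDO (c1 hx))) hv'K a e'.symm)).2.1 e
  · obtain rfl := hinj D D' hD hD' h
    exact hns D hD (hs.anti fun p hp => xv0abs_port hl' hne (hO (hDO hp)) (hD'K hp))
  · rcases d4 v' (d2 hv') x e' with hx | hx
    · rcases d4 x hx v e.symm with a | a
      · exact disjoint_left.1 (hlt D' D hD' hD h) hv.1 a
      · exact (hp v (xv0abs_port hl' hne hvK (hD'K (d1 a)))).1 rfl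
    · exact nb x (hD'K (d1 hx)) e

end

theorem v0Abs_stmt (hEO : EOStmt) : V0AbsStmt := by
  intro V L _ _ J A0 Ob K hat hns hne hD hrp hK
  obtain ⟨ρ, τ, Br, hinj, hcut, hlt⟩ := hEO V J (Cq J) A0 hat
  have main : ∀ 𝒮 : Set L, (∀ l ∈ 𝒮, ∃ O, Ob O ∧ O ⊆ K l) → ∃ I, Indp J I ∧ NoCom J I ∧
      (∀ l ∈ 𝒮, (I ∩ RW J Ob (K l)).Nonempty) ∧
      ∀ v ∈ I, ∃ l ∈ 𝒮, ∃ D, A0 D ∧ D ⊆ K l ∧ v ∈ D \ τ D := by
    intro 𝒮
    induction 𝒮 using WellFoundedLT.induction with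
    | ind 𝒮 ih =>
    intro h𝒮
    rcases 𝒮.eq_empty_or_nonempty with rfl | ⟨l1, h1⟩
    · exact ⟨∅, fun _ h => h.elim, fun _ h => h.elim, fun _ h => h.elim, fun _ h => h.elim⟩
    obtain ⟨l, hl, hs, hB⟩ := xv0abs_step hns hinj hcut hlt hrp hK h1 (by
      obtain ⟨O, a1, a2⟩ := h𝒮 l1 h1
      obtain ⟨x, -⟩ := hne O a1
      obtain ⟨D, b1, b2, -⟩ := hD O x a1
      exact ⟨D, b2, b1.trans a2⟩)
    obtain ⟨I, i1, i2, i3, i4⟩ := ih (𝒮 \ {l}) (sdiff_singleton_ssubset.2 hl)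
      fun l' h => h𝒮 l' h.1
    by_cases hit : (I ∩ RW J Ob (K l)).Nonempty
    · refine ⟨I, i1, i2, fun l' h => ?_, fun v hv => ?_⟩
      · by_cases e : l' = l
        · exact e ▸ hit
        · exact i3 l' ⟨h, e⟩
      · obtain ⟨l', a, b⟩ := i4 v hv
        exact ⟨l', a.1, b⟩
    obtain ⟨O, hO, hOK⟩ := h𝒮 l hl
    obtain ⟨D, d1, d2, v, hv, hp⟩ := xv0abs_pick hat hcut (hne O hO) (fun x => hD O x hO) hs
      fun c hc D a b => hB c hc D a (b.trans hOK)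
    have conf : ∀ v' ∈ I, ¬ J.Adj v v' ∧ ∀ x, J.Adj v x → ¬ J.Adj v' x := fun v' hv' => by
      obtain ⟨l', a, D', b1, b2, b3⟩ := i4 v' hv'
      exact xv0abs_conf hns hinj hcut hlt a.1 a.2 hs hOK d1 d2 b1 b2 hv b3
        (fun h => hit ⟨v', hv', O, hO, hOK, h⟩) hp
    refine ⟨insert v I, ?_, ?_, fun l' h => ?_, ?_⟩
    · rintro a (rfl | ha) b (rfl | hb)
      exacts [fun e => e.ne rfl, (conf b hb).1, fun e => (conf a ha).1 e.symm, i1 a ha b hb]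
    · rintro a (rfl | ha) b (rfl | hb) x e e'
      exacts [rfl, absurd e' ((conf b hb).2 x e), absurd e ((conf a ha).2 x e'),
        i2 a ha b hb x e e']
    · by_cases e : l' = l
      · exact ⟨v, .inl rfl, O, hO, e ▸ hOK, .inl (d1 hv.1)⟩
      · exact (i3 l' ⟨h, e⟩).mono (inter_subset_inter_left _ (subset_insert _ _))
    · rintro a (rfl | ha)
      · exact ⟨l, hl, D, d2, d1.trans hOK, hv⟩
      · obtain ⟨l', b1, b2⟩ := i4 a ha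
        exact ⟨l', b1.1, b2⟩
  obtain ⟨I, i1, i2, i3, -⟩ := main {l | ∃ O, Ob O ∧ O ⊆ K l} fun _ h => h
  exact ⟨I, i1, i2, i3⟩

end Pool.Agent.MP_1c0fc2_co.RE
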