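import Pool.Agent.MP_1c0fc2_co.RE.AtomA
import Pool.Agent.MP_1c0fc2_co.RE.AtomB
import Pool.Agent.MP_1c0fc2_co.RE.BlueLift
import Pool.Agent.MP_1c0fc2_co.RE.Both
import Pool.Agent.MP_1c0fc2_co.RE.Br
import Pool.Agent.MP_1c0fc2_co.RE.Bridge
import Pool.Agent.MP_1c0fc2_co.RE.Close
import Pool.Agent.MP_1c0fc2_co.RE.Col2
import Pool.Agent.MP_1c0fc2_co.RE.ESNode
import Pool.Agent.MP_1c0fc2_co.RE.Edge
import Pool.Agent.MP_1c0fc2_co.RE.Engine
import Pool.Agent.MP_1c0fc2_co.RE.EqM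
import Pool.Agent.MP_1c0fc2_co.RE.FP
import Pool.Agent.MP_1c0fc2_co.RE.Frame
import Pool.Agent.MP_1c0fc2_co.RE.GBlueN
import Pool.Agent.MP_1c0fc2_co.RE.GBlueS
import Pool.Agent.MP_1c0fc2_co.RE.GBlueSRP
import Pool.Agent.MP_1c0fc2_co.RE.GRedRP
import Pool.Agent.MP_1c0fc2_co.RE.GX
import Pool.Agent.MP_1c0fc2_co.RE.Gam
import Pool.Agent.MP_1c0fc2_co.RE.Host
import Pool.Agent.MP_1c0fc2_co.RE.IE3
import Pool.Agent.MP_1c0fc2_co.RE.IE4
import Pool.Agent.MP_1c0fc2_co.RE.Inv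
import Pool.Agent.MP_1c0fc2_co.RE.Link
import Pool.Agent.MP_1c0fc2_co.RE.Loc
import Pool.Agent.MP_1c0fc2_co.RE.M0A
import Pool.Agent.MP_1c0fc2_co.RE.M0T
import Pool.Agent.MP_1c0fc2_co.RE.MA
import Pool.Agent.MP_1c0fc2_co.RE.MT
import Pool.Agent.MP_1c0fc2_co.RE.MT0
import Pool.Agent.MP_1c0fc2_co.RE.MT1
import Pool.Agent.MP_1c0fc2_co.RE.Nsep
import Pool.Agent.MP_1c0fc2_co.RE.Par
import Pool.Agent.MP_1c0fc2_co.RE.Param
import Pool.Agent.MP_1c0fc2_co.RE.Pi
import Pool.Agent.MP_1c0fc2_co.RE.Prot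
import Pool.Agent.MP_1c0fc2_co.RE.PullB
import Pool.Agent.MP_1c0fc2_co.RE.RPG
import Pool.Agent.MP_1c0fc2_co.RE.RPs
import Pool.Agent.MP_1c0fc2_co.RE.RedLift
import Pool.Agent.MP_1c0fc2_co.RE.Step
import Pool.Agent.MP_1c0fc2_co.RE.ThNode
import Pool.Agent.MP_1c0fc2_co.RE.V0
import Pool.Agent.MP_1c0fc2_co.RE.V0Abs

/-! Assembly of all steps. -/

namespace Pool.Agent.MP_1c0fc2_co.RE

theorem all_final : FinalStmt := by
  have hAtomB : AtomBStmt := atomB_stmt
  have hPar : ParStmt := par_stmt hAtomB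
  have hK3 : K3Stmt := k3_stmt
  have hEq : EqStmt := eq_stmt
  have hROMono : ROMonoStmt := roMono_stmt hEq
  have hRP : RPStmt := rp_stmt
  have hPullB : PullBStmt := pullB_stmt
  have hFam : FamStmt := fam_stmt hRP hPullB
  have hHost : HostStmt := host_stmt
  have hESNode : ESNodeStmt := esnode_stmt
  have hInvA : InvAStmt := invA_stmt hK3 hROMono hHost hESNode
  have hNsep : NsepStmt := nsep_stmt
  have hAtomA : AtomAStmt := atomA_stmt hEq hNsep
  have hEdge : EdgeStmt := edge_stmt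
  have hIE3 : IE3Stmt := ie3_stmt hK3 hEdge
  have hIE4 : IE4Stmt := ie4_stmt
  have hIE : IEStmt := ie_stmt hK3 hIE3 hIE4
  have hCol2 : Col2Stmt := col2_stmt hIE
  have hL6 : L6Stmt := l6_stmt hAtomA hNsep hCol2
  have hBr : BrStmt := br_stmt
  have hMA : MAStmt := ma_stmt hBr
  have hIA : IAStmt := ia_stmt hBr
  have hFP : FPStmt := fp_stmt hBr
  have hBridge : BridgeStmt := bridge_stmt hEq hAtomB
  have hMI : MIStmt := mi_stmt hAtomB hIE hBr hBridge
  have hParam : ParamStmt := param_stmt hEq hK3 hAtomA hL6 hMA hIA hFP hMI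
  have hMT1 : MT1Stmt := mt1_stmt
  have hLink : LinkStmt := link_stmt
  have hGlue : GlueStmt := glue_stmt
  have hLocal : LocalStmt := local_stmt
  have hMap : MapStmt := map_stmt
  have hMT : MTStmt := mt_stmt hMT1 hLink hGlue hLocal hMap
  have hMT0 : MT0Stmt := mt0_stmt hMT
  have hProt : ProtStmt := prot_stmt hMT0
  have hClose : CloseStmt := close_stmt hMT
  have hEngine : EngineStmt := engine_stmt hProt hClose
  have hThNode : ThNodeStmt := thnode_stmt hESNode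
  have hLoc : LocStmt := loc_stmt hK3 hESNode hThNode
  have hInvT : InvTStmt := invT_stmt hParam hEngine hLoc
  have hRedLoc : RedLocStmt := redLoc_stmt hK3 hROMono hLoc
  have hTwoNb : TwoNbStmt := twoNb_stmt
  have hLeaf : LeafStmt := leaf_stmt
  have hPi : PiStmt := pi_stmt hLeaf
  have hRPG : RPGStmt := rpg_stmt hRP hPi
  have hPullR : PullRStmt := pullR_stmt
  have hRedLift : RedLiftStmt := redLift_stmt hK3 hTwoNb hRPG hRedLoc hPullR
  have hInvR : InvRStmt := invR_stmt hRP hParam hEngine hLoc hRedLoc hRedLift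
  have hSplit : SplitStmt := split_stmt
  have hEO : EOStmt := eo_stmt hBr
  have hV0Abs : V0AbsStmt := v0Abs_stmt hEO
  have hV0 : V0Stmt := v0_stmt hK3 hAtomA hSplit hV0Abs
  have hM0T : M0TStmt := m0T_stmt hK3 hAtomB hIE hBr hBridge hRP
  have hGam : GamStmt := gam_stmt hMT hLink hGlue hLocal
  have hHub : HubStmt := hub_stmt
  have hGX : GXStmt := gx_stmt
  have hGRedRP : GRedRPStmt := gRedRP_stmt hRP hLeaf
  have hGRed : GRedStmt := gRed_stmt hK3 hROMono hGX hGRedRP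
  have hGBlueN : GBlueNStmt := gBlueN_stmt hK3 hRP hThNode
  have hCone : ConeStmt := cone_stmt hEq hK3 hNsep
  have hBlueLift : BlueLiftStmt := blueLift_stmt hK3 hCone hTwoNb hRPG hLoc hPullB
  have hStepN : StepNStmt := stepN_stmt hV0 hM0T hGam hParam hEngine hHub hGX hGRed hGBlueN hRedLift hBlueLift
  have hM0A : M0AStmt := m0A_stmt hEq hAtomA hBr hRP
  have hGBlueSRP : GBlueSRPStmt := gBlueSRP_stmt hRP hLeaf
  have hGBlueSRule : GBlueSRuleStmt := gBlueSRule_stmt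
  have hGBlueS : GBlueSStmt := gBlueS_stmt hGBlueSRP hGBlueSRule
  have hStepS : StepSStmt := stepS_stmt hK3 hROMono hAtomA hIA hM0A hM0T hGam hParam hEngine hHub hGX hGBlueS hRedLoc hBlueLift
  have hBoth : BothStmt := both_stmt hPar hK3 hROMono hFam hInvA hInvT hInvR hStepN hStepS
  exact final_stmt hBoth

end Pool.Agent.MP_1c0fc2_co.RE
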