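import Pool.Agent.MP_1c0fc2_co.RE.Basic

/-! The `α`-sets attach along cliques with at most two vertices. -/

open Function Set Relation

namespace Pool.Agent.MP_1c0fc2_co.RE

variable {V W : Type} {H : SimpleGraph W} {P : Par}

theorem xatoma_back [Finite W] [Finite V] (hEq : EqStmt) (ok : P.Ok H) {J : SimpleGraph V}
    {f : V → W} {O N : Set V} (hf : IHo J H f O) (hO : AS P H J O) (hN : N ⊆ O)
    (h : Cq H (f '' N)) : Cq J N := by
  refine cq_of (fun a ha b hb hab => ?_) fun a ha b hb c hc => ?_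
  · exact hEq W V W H P ok J H f id O hf ((ih_id le_rfl).on _) (.inr hO) a (hN ha) b (hN hb)
      (h.adj (mem_image_of_mem f ha) (mem_image_of_mem f hb)
        fun e => hab (hf.1 (hN ha) (hN hb) e))
  · rcases h.three (mem_image_of_mem f ha) (mem_image_of_mem f hb) (mem_image_of_mem f hc) with
      e | e | e
    exacts [.inl (hf.1 (hN ha) (hN hb) e), .inr (.inl (hf.1 (hN ha) (hN hc) e)),
      .inr (.inr (hf.1 (hN hb) (hN hc) e))]

/-- a minimal counterexample gives a larger 2-connected set -/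
theorem xatoma_two [Finite W] {O C : Set W} (hO : TwoConn H O) (hd : Disjoint C O)
    (hC : ConnOn H.Adj C) (hn : ¬ Cq H (Nb H O C))
    (hmin : ∀ C', C' ⊆ C → C' ≠ C → ConnOn H.Adj C' → Cq H (Nb H O C')) : TwoConn H (O ∪ C) := by
  refine ⟨hO.1.trans (ncard_le_ncard subset_union_left (toFinite _)), fun v => ?_⟩
  by_cases hv : v ∈ C
  · have hvO : v ∉ O := disjoint_left.1 hd hv
    have key : ∀ c ∈ C \ {v}, ∃ u ∈ O, ∃ d ∈ comp H.Adj (C \ {v}) c, H.Adj u d := by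
      intro c hc
      by_contra hno
      have hx : ∀ x ∈ C ∩ (comp H.Adj (C \ {v}) c)ᶜ, ∀ d ∈ comp H.Adj (C \ {v}) c,
          H.Adj x d → x = v := fun x hx d hd' e => by
        by_contra hxv
        exact hx.2 (comp_closed hd' ⟨hx.1, hxv⟩ e.symm)
      have hconn : ConnOn H.Adj (C ∩ (comp H.Adj (C \ {v}) c)ᶜ) :=
        hC.trace (adj_symm' H) _ (fun _ _ _ _ _ e => e)
          fun D hD _ x hx' y hy' hxy ⟨d, h1, e1⟩ ⟨d', h2, e2⟩ =>
            absurd ((hx x hx' d (not_not.1 (hD h1).2) e1).trans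
              (hx y hy' d' (not_not.1 (hD h2).2) e2).symm) hxy
      refine hn ((hmin _ inter_subset_left (fun e => ?_) hconn).sub ?_)
      · have h1 : c ∈ C ∩ (comp H.Adj (C \ {v}) c)ᶜ := by rw [e]; exact hc.1
        exact h1.2 (mem_comp hc)
      · rintro u ⟨hu, d, h1, e⟩
        exact ⟨hu, d, ⟨h1, fun h2 => hno ⟨u, hu, d, h2, e⟩⟩, e⟩
    obtain ⟨a, ha⟩ := hO.nonempty
    have hsub : O ⊆ (O ∪ C) \ {v} := fun x hx => ⟨.inl hx, fun e => hvO (mem_singleton_iff.1 e ▸ hx)⟩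
    refine connOn_of_base (adj_symm' H) a ?_
    rintro x ⟨hx | hx, hxv⟩
    · exact rtg_sub hsub (hO.conn a ha x hx)
    · obtain ⟨u, hu, d, h1, e⟩ := key x ⟨hx, hxv⟩
      refine rtg_sub (union_subset hsub fun y hy => ⟨.inr (comp_sub hy).1, (comp_sub hy).2⟩)
        (hO.conn.union (adj_symm' H) (comp_conn (adj_symm' H)) hu h1 (.inr e) a (.inl ha) x
          (.inr (mem_comp ⟨hx, hxv⟩)))
  · obtain ⟨x, hx, y, hy, hxy⟩ := not_subsingleton_iff.1 fun h => hn (.inl h)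
    obtain ⟨u, ⟨hu, c, hc, e⟩, huv⟩ : ∃ u ∈ Nb H O C, u ≠ v := by
      by_cases e : x = v
      · exact ⟨y, hy, fun e' => hxy (e.trans e'.symm)⟩
      · exact ⟨x, hx, e⟩
    have e' : (O ∪ C) \ {v} = (O \ {v}) ∪ C := by
      rw [union_sdiff_distrib, sdiff_singleton_eq_self hv]
    rw [e']
    exact (hO.2 v).union (adj_symm' H) hC ⟨hu, huv⟩ hc (.inr e)

/-- a torso through the root edge contains the whole stiff set -/
theorem xatoma_sub [Finite W] (hNsep : NsepStmt) {O C S' : Set W} {a b : W} (hO : RS H H O a b)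
    (hd : Disjoint C O) (hC : ConnOn H.Adj C) (hn : ¬ Cq H (Nb H O C)) (ha : a ∈ S')
    (hb : b ∈ S') (ht : Torso H H (O ∪ C) S') : O ⊆ S' := by
  obtain ⟨t1, -, t3, f, hf, t5⟩ := ht
  obtain ⟨haO, hbO, hab, hO2, hrs⟩ := id hO
  by_contra hno
  by_cases h3 : 3 ≤ (O ∩ S').ncard
  · refine hrs (O ∩ S') ⟨haO, ha⟩ ⟨hbO, hb⟩ ⟨inter_subset_left, fun e => hno (inter_eq_left.1 e),
      h3, f, hf.sub inter_subset_right, fun D hD hc => (t5 D (fun x hx => ?_) hc).sub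
        (image_mono fun x hx => ⟨hx.1.2, hx.2⟩)⟩
    exact ⟨.inl (hD hx).1, fun h => (hD hx).2 ⟨(hD hx).1, h⟩⟩
  have hint : ∀ x ∈ O, x ∈ S' → x = a ∨ x = b := fun x hx hx' => by
    by_contra hc
    push Not at hc
    refine h3 ?_
    rw [← ncard_eq_three.2 ⟨a, b, x, hab.ne, hc.1.symm, hc.2.symm, rfl⟩]
    refine ncard_le_ncard ?_ (toFinite _)
    rintro y (rfl | rfl | rfl)
    exacts [⟨haO, ha⟩, ⟨hbO, hb⟩, ⟨hx, hx'⟩]
  obtain ⟨hconn, x0, hx0⟩ := hNsep W W H H (In.of_le le_rfl) O a b {a, b} hO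
    (.inr ⟨a, b, hab, rfl⟩)
  have hsub : O \ {a, b} ⊆ (O ∪ C) \ S' := fun x hx => ⟨.inl hx.1, fun h => hx.2 (hint x hx.1 h)⟩
  have hD : O \ {a, b} ⊆ comp H.Adj ((O ∪ C) \ S') x0 :=
    hconn.sub_comp hsub hx0 (mem_comp (hsub hx0))
  have hq := t5 (comp H.Adj ((O ∪ C) \ S') x0) comp_sub (comp_conn (adj_symm' H))
  have hna : a ∈ Nb H S' (comp H.Adj ((O ∪ C) \ S') x0) := by
    obtain ⟨c, hc, h1, h2⟩ := hO2.nbr haO b hab.ne
    exact ⟨ha, c, hD ⟨hc, fun h => h.elim (fun e => h2.ne e.symm) h1⟩, h2⟩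
  have hnb : b ∈ Nb H S' (comp H.Adj ((O ∪ C) \ S') x0) := by
    obtain ⟨c, hc, h1, h2⟩ := hO2.nbr hbO a hab.ne'
    exact ⟨hb, c, hD ⟨hc, fun h => h.elim h1 fun e => h2.ne (mem_singleton_iff.1 e).symm⟩, h2⟩
  have hnC : ∀ y ∈ C, y ∉ Nb H S' (comp H.Adj ((O ∪ C) \ S') x0) := fun y hy h => by
    rcases hq.three (mem_image_of_mem f hna) (mem_image_of_mem f hnb) (mem_image_of_mem f h) with
      e | e | e
    · exact hab.ne (hf.1 ha hb e)
    · exact disjoint_left.1 hd hy (hf.1 ha h.1 e ▸ haO)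
    · exact disjoint_left.1 hd hy (hf.1 hb h.1 e ▸ hbO)
  have hstep : ∀ x ∈ comp H.Adj ((O ∪ C) \ S') x0, ∀ y ∈ C, H.Adj x y →
      y ∈ comp H.Adj ((O ∪ C) \ S') x0 := fun x hx y hy e =>
    comp_closed hx ⟨.inr hy, fun h => hnC y hy ⟨h, x, hx, e.symm⟩⟩ e
  obtain ⟨u, ⟨hu, c, hc, e⟩, hu'⟩ := not_subset.1 fun h : Nb H O C ⊆ {a, b} =>
    hn (Cq.sub (.inr ⟨a, b, hab, rfl⟩) h)
  have hCD : C ⊆ comp H.Adj ((O ∪ C) \ S') x0 :=
    hC.sub hc (hstep u (hD ⟨hu, hu'⟩) c hc e) fun x _ y hy hx e' => hstep x hx y hy e'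
  have hS : S' ⊆ {a, b} := fun s hs => (t1 hs).elim (fun h => hint s h hs)
    fun h => absurd hs (comp_sub (hCD h)).2
  have h4 := ncard_le_ncard hS (toFinite _)
  have h5 := ncard_pair_le a b
  omega

theorem xatoma_host [Finite W] (hEq : EqStmt) (hNsep : NsepStmt) (ok : P.Ok H) (n : ℕ) :
    ∀ O C : Set W, C.ncard = n → AS P H H O → Disjoint C O → ConnOn H.Adj C →
      Cq H (Nb H O C) := by
  induction n using Nat.strong_induction_on with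
  | _ n ih =>
  intro O C hcard hO hd hC
  by_contra hn
  obtain ⟨a, b, hrs⟩ := hO.1
  have htwo : TwoConn H (O ∪ C) := xatoma_two hO.two hd hC hn fun C' h1 h2 h3 =>
    ih _ (hcard ▸ ncard_lt_ncard (h1.ssubset_of_ne h2) (toFinite _)) O C' rfl hO
      (hd.mono_left h1) h3
  obtain ⟨_, ⟨-, c0, hc0, -⟩, -⟩ := not_subsingleton_iff.1 fun h => hn (.inl h)
  have hlt : O.ncard < (O ∪ C).ncard := ncard_lt_ncard
    ⟨subset_union_left, fun h => disjoint_left.1 hd hc0 (h (.inr hc0))⟩ (toFinite _)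
  obtain ⟨S', ha, hb, ht⟩ : ∃ S', a ∈ S' ∧ b ∈ S' ∧ Torso H H (O ∪ C) S' := by
    by_contra hc
    have h1 := ok.maxA (O ∪ C) a b ⟨.inl hrs.1, .inl hrs.2.1, hrs.2.2.1, htwo,
      fun S' h1 h2 h3 => hc ⟨S', h1, h2, h3⟩⟩
    have h2 := hO.2.1
    omega
  have hOS : O ⊆ S' := xatoma_sub hNsep hrs hd hC hn ha hb ht
  obtain ⟨t1, t2, -, f, hf, t5⟩ := ht
  refine hn (xatoma_back hEq ok (hf.sub hOS) hO (fun _ h => h.1) ?_)
  rcases (C ∩ S').eq_empty_or_nonempty with e | ⟨c1, hc1⟩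
  · refine (t5 C (fun x hx => ⟨.inr hx, fun h => ?_⟩) hC).sub
      (image_mono fun x hx => ⟨hOS hx.1, hx.2⟩)
    exact (e ▸ ⟨hx, h⟩ : x ∈ (∅ : Set W))
  have hadj : ∀ D, D ⊆ C \ S' → ConnOn H.Adj D → ∀ x ∈ S', ∀ y ∈ S', x ≠ y →
      (∃ d ∈ D, H.Adj x d) → (∃ d ∈ D, H.Adj y d) → H.Adj (f x) (f y) :=
    fun D hD hc x hx y hy hxy h1 h2 =>
      (t5 D (fun z hz => ⟨.inr (hD hz).1, (hD hz).2⟩) hc).adj (mem_image_of_mem f ⟨hx, h1⟩)
        (mem_image_of_mem f ⟨hy, h2⟩) fun e => hxy (hf.1 hx hy e)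
  have hconn : ConnOn H.Adj (f '' (C ∩ S')) :=
    (hC.trace (Q := fun x y => H.Adj (f x) (f y)) (adj_symm' H) S'
      (fun x hx y hy _ e => hf.2 x hx.2 y hy.2 e)
      fun D hD hc x hx y hy => hadj D hD hc x hx.2 y hy.2).image f fun _ _ _ _ e => .inr e
  have hss : C ∩ S' ⊂ C := ⟨inter_subset_left, fun h => t2
    (Subset.antisymm t1 (union_subset hOS fun x hx => (h hx).2))⟩
  have hlt' : (f '' (C ∩ S')).ncard < n := (ncard_image_le (toFinite _)).trans_lt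
    (hcard ▸ ncard_lt_ncard hss (toFinite _))
  have hd' : Disjoint (f '' (C ∩ S')) (f '' O) := by
    rw [disjoint_left]
    rintro _ ⟨x, hx, rfl⟩ ⟨y, hy, e⟩
    exact disjoint_left.1 hd hx.1 (hf.1 (hOS hy) hx.2 e ▸ hy)
  refine (ih _ hlt' (f '' O) _ rfl (hO.map (hf.sub hOS)) hd' hconn).sub ?_
  rintro _ ⟨u, ⟨hu, c, hc, e⟩, rfl⟩
  refine ⟨mem_image_of_mem f hu, ?_⟩
  by_cases hcS : c ∈ S'
  · exact ⟨f c, mem_image_of_mem f ⟨hc, hcS⟩, hf.2 u (hOS hu) c hcS e⟩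
  · obtain ⟨x, hx, y, hy, e'⟩ := hC.comp_nb (Y := S') ⟨hc, hcS⟩ hc1
    exact ⟨f y, mem_image_of_mem f hy, hadj _ comp_sub (comp_conn (adj_symm' H)) u (hOS hu) y hy.2
      (fun e'' => disjoint_left.1 hd hy.1 (e'' ▸ hu)) ⟨c, mem_comp ⟨hc, hcS⟩, e⟩ ⟨x, hx, e'.symm⟩⟩

theorem atomA_stmt (hEq : EqStmt) (hNsep : NsepStmt) : AtomAStmt := by
  intro W V _ _ H P ok J hJ
  refine ⟨fun _ _ h h' => h.sub h', fun _ => .inl subsingleton_singleton,
    fun _ h _ ha _ hb hab => h.adj ha hb hab, fun O C hO hd hC => ?_, fun O τ hO hτ => ?_,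
    fun O O' hO hO' h => eq_of_subset_of_ncard_le h (by rw [hO.2.1, hO'.2.1]) (toFinite _)⟩
  · obtain ⟨h, hh⟩ := hJ
    refine xatoma_back hEq ok (hh.on O) hO (fun _ h => h.1)
      ((xatoma_host hEq hNsep ok _ (h '' O) (h '' C) rfl (hO.map (hh.on O))
        ((disjoint_image_iff hh.1).2 hd) (hC.map (hh.on C))).sub ?_)
    rintro _ ⟨u, ⟨hu, c, hc, e⟩, rfl⟩
    exact ⟨mem_image_of_mem h hu, h c, mem_image_of_mem h hc, hh.2 _ _ e⟩
  · obtain ⟨a, b, hrs⟩ := hO.1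
    exact hNsep W V H J hJ O a b τ hrs hτ

end Pool.Agent.MP_1c0fc2_co.RE
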