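import Pool.Agent.MP_1c0fc2_co.RE.Stmts

/-! Connectivity of sets, components, traces, monotonicity. -/

open Function Set Relation

namespace Pool.Agent.MP_1c0fc2_co.RE

section Conn
variable {V W : Type} {R R' : V → V → Prop} {C D Y : Set V} {a b : V}

theorem rtg_mono (hR : ∀ x y, R x y → R' x y) (h : ReflTransGen R a b) : ReflTransGen R' a b := by
  induction h with
  | refl => exact .refl
  | tail _ h ih => exact ih.tail (hR _ _ h)

theorem ncard_pair_le (a b : V) : ({a, b} : Set V).ncard ≤ 2 :=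
  (ncard_insert_le a {b}).trans (by simp)

theorem ConnOn.mono (h : ConnOn R C) (hR : ∀ x ∈ C, ∀ y ∈ C, R x y → R' x y) : ConnOn R' C :=
  fun a ha b hb => rtg_mono (fun _ _ ⟨h1, h2, h3⟩ => ⟨h1, h2, hR _ h1 _ h2 h3⟩) (h a ha b hb)

theorem connOn_empty : ConnOn R ∅ := fun _ h => h.elim

theorem connOn_singleton (a : V) : ConnOn R {a} := by
  rintro x rfl y rfl
  exact .refl

theorem connOn_of_subsingleton (h : C.Subsingleton) : ConnOn R C := fun a ha b hb => by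
  rw [h ha hb]

theorem rtg_sub (hCD : C ⊆ D) (h : ReflTransGen (fun x y => x ∈ C ∧ y ∈ C ∧ R x y) a b) :
    ReflTransGen (fun x y => x ∈ D ∧ y ∈ D ∧ R x y) a b :=
  rtg_mono (fun _ _ ⟨h1, h2, h3⟩ => ⟨hCD h1, hCD h2, h3⟩) h

theorem rtg_symm (hs : ∀ x y, R x y → R y x)
    (h : ReflTransGen (fun x y => x ∈ C ∧ y ∈ C ∧ R x y) a b) :
    ReflTransGen (fun x y => x ∈ C ∧ y ∈ C ∧ R x y) b a := by
  induction h with
  | refl => exact .refl
  | tail _ h ih => exact ih.head ⟨h.2.1, h.1, hs _ _ h.2.2⟩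

/-- connectivity from one base point -/
theorem connOn_of_base (hs : ∀ x y, R x y → R y x) (a : V)
    (h : ∀ b ∈ C, ReflTransGen (fun x y => x ∈ C ∧ y ∈ C ∧ R x y) a b) : ConnOn R C :=
  fun x hx y hy => (rtg_symm hs (h x hx)).trans (h y hy)

theorem ConnOn.image {R' : W → W → Prop} (h : ConnOn R C) (f : V → W)
    (hf : ∀ x ∈ C, ∀ y ∈ C, R x y → f x = f y ∨ R' (f x) (f y)) : ConnOn R' (f '' C) := by
  rintro _ ⟨a, ha, rfl⟩ _ ⟨b, hb, rfl⟩
  have := h a ha b hb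
  clear hb
  induction this with
  | refl => exact .refl
  | tail _ h ih =>
    rcases hf _ h.1 _ h.2.1 h.2.2 with e | e
    · rw [← e]; exact ih
    · exact ih.tail ⟨mem_image_of_mem f h.1, mem_image_of_mem f h.2.1, e⟩

/-- a connected set that meets `Y` and its complement has a boundary step -/
theorem ConnOn.cross (h : ConnOn R C) (ha : a ∈ C) (hb : b ∈ C) (haY : a ∈ Y) (hbY : b ∉ Y) :
    ∃ x ∈ C, ∃ y ∈ C, x ∈ Y ∧ y ∉ Y ∧ R x y := by
  have := h a ha b hb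
  clear hb
  induction this with
  | refl => exact absurd haY hbY
  | @tail u v _ h ih =>
    by_cases hu : u ∈ Y
    · exact ⟨u, h.1, v, h.2.1, hu, hbY, h.2.2⟩
    · exact ih hu

/-- a connected set that meets a closed set lies in it -/
theorem ConnOn.sub (h : ConnOn R C) (ha : a ∈ C) (haY : a ∈ Y)
    (hc : ∀ x ∈ C, ∀ y ∈ C, x ∈ Y → R x y → y ∈ Y) : C ⊆ Y := fun b hb => by
  by_contra hbY
  obtain ⟨x, hx, y, hy, h1, h2, h3⟩ := h.cross ha hb haY hbY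
  exact h2 (hc x hx y hy h1 h3)

theorem ConnOn.union (hs : ∀ x y, R x y → R y x) (h : ConnOn R C) (h' : ConnOn R D)
    (ha : a ∈ C) (hb : b ∈ D) (hab : a = b ∨ R a b) : ConnOn R (C ∪ D) := by
  refine connOn_of_base hs a ?_
  rintro x (hx | hx)
  · exact rtg_sub subset_union_left (h a ha x hx)
  · have h2 := rtg_sub (D := C ∪ D) subset_union_right (h' b hb x hx)
    rcases hab with rfl | hab
    · exact h2
    · exact h2.head ⟨.inl ha, .inr hb, hab⟩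

theorem ConnOn.insert (hs : ∀ x y, R x y → R y x) (h : ConnOn R C) (hb : b ∈ C) (hab : R a b) :
    ConnOn R (insert a C) :=
  (connOn_singleton a).union hs h rfl hb (.inr hab)

/-- a connected set with two points has a step at every point -/
theorem ConnOn.step (h : ConnOn R C) (ha : a ∈ C) (hb : b ∈ C) (hab : b ≠ a) :
    ∃ y ∈ C, y ≠ a ∧ R a y := by
  obtain ⟨x, -, y, hy, rfl, h2, h3⟩ := h.cross (Y := {a}) ha hb rfl hab
  exact ⟨y, hy, h2, h3⟩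

/-- the component of `a` in `C` -/
def comp (R : V → V → Prop) (C : Set V) (a : V) : Set V :=
  {b | a ∈ C ∧ ReflTransGen (fun x y => x ∈ C ∧ y ∈ C ∧ R x y) a b}

theorem mem_comp (ha : a ∈ C) : a ∈ comp R C a := ⟨ha, .refl⟩

theorem comp_sub : comp R C a ⊆ C := by
  rintro b ⟨ha, h⟩
  induction h with
  | refl => exact ha
  | tail _ h _ => exact h.2.1

theorem comp_closed {x y : V} (hx : x ∈ comp R C a) (hy : y ∈ C) (h : R x y) : y ∈ comp R C a :=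
  ⟨hx.1, hx.2.tail ⟨comp_sub hx, hy, h⟩⟩

theorem comp_conn (hs : ∀ x y, R x y → R y x) : ConnOn R (comp R C a) := by
  refine connOn_of_base hs a ?_
  rintro b ⟨ha, h⟩
  induction h with
  | refl => exact .refl
  | tail h1 h ih => exact ih.tail ⟨⟨ha, h1⟩, ⟨ha, h1.tail h⟩, h.2.2⟩

theorem ConnOn.sub_comp (h : ConnOn R D) (hD : D ⊆ C) (hb : b ∈ D) (hba : b ∈ comp R C a) :
    D ⊆ comp R C a :=
  h.sub hb hba fun _ _ _ hy h1 h2 => comp_closed h1 (hD hy) h2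

theorem comp_eq (hs : ∀ x y, R x y → R y x) (hb : b ∈ comp R C a) : comp R C b = comp R C a := by
  refine Subset.antisymm ((comp_conn hs).sub_comp comp_sub (mem_comp (comp_sub hb)) hb) ?_
  exact (comp_conn hs).sub_comp comp_sub hb (mem_comp (comp_sub hb))

theorem not_connOn (h : ¬ ConnOn R C) : ∃ a ∈ C, ∃ b ∈ C, b ∉ comp R C a := by
  by_contra hc
  refine h fun a ha b hb => ?_
  by_contra h2
  exact hc ⟨a, ha, b, hb, fun h3 => h2 h3.2⟩

/-- a component of `C \ Y` touches `C ∩ Y` -/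
theorem ConnOn.comp_nb (h : ConnOn R C) (ha : a ∈ C \ Y) (hb : b ∈ C ∩ Y) :
    ∃ x ∈ comp R (C \ Y) a, ∃ y ∈ C ∩ Y, R x y := by
  obtain ⟨x, -, y, hy, h1, h2, h3⟩ := h.cross (Y := comp R (C \ Y) a) ha.1 hb.1 (mem_comp ha)
    fun h => (comp_sub h).2 hb.2
  refine ⟨x, h1, y, ⟨hy, ?_⟩, h3⟩
  by_contra hY
  exact h2 (comp_closed h1 ⟨hy, hY⟩ h3)

/-- projection of a connected set to `Y` -/
theorem ConnOn.trace (hs : ∀ x y, R x y → R y x) (h : ConnOn R C) (Y : Set V)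
    {Q : V → V → Prop} (h1 : ∀ x ∈ C ∩ Y, ∀ y ∈ C ∩ Y, x ≠ y → R x y → Q x y)
    (h2 : ∀ D, D ⊆ C \ Y → ConnOn R D → ∀ x ∈ C ∩ Y, ∀ y ∈ C ∩ Y, x ≠ y → (∃ d ∈ D, R x d) →
      (∃ d ∈ D, R y d) → Q x y) : ConnOn Q (C ∩ Y) := by
  intro a ha b hb
  have key : ∀ z, ReflTransGen (fun x y => x ∈ C ∧ y ∈ C ∧ R x y) a z →
      (z ∈ Y → ReflTransGen (fun x y => x ∈ C ∩ Y ∧ y ∈ C ∩ Y ∧ Q x y) a z) ∧
      (z ∉ Y → ∃ x ∈ C ∩ Y, ReflTransGen (fun x y => x ∈ C ∩ Y ∧ y ∈ C ∩ Y ∧ Q x y) a x ∧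
        ∃ d ∈ comp R (C \ Y) z, R x d) := by
    intro z hz
    induction hz with
    | refl => exact ⟨fun _ => .refl, fun h => absurd ha.2 h⟩
    | @tail u v _ h ih =>
      by_cases hu : u ∈ Y
      · refine ⟨fun hv => ?_, fun hv => ⟨u, ⟨h.1, hu⟩, ih.1 hu, v, mem_comp ⟨h.2.1, hv⟩, h.2.2⟩⟩
        by_cases e : u = v
        · exact e ▸ ih.1 hu
        · exact (ih.1 hu).tail ⟨⟨h.1, hu⟩, ⟨h.2.1, hv⟩, h1 _ ⟨h.1, hu⟩ _ ⟨h.2.1, hv⟩ e h.2.2⟩
      · obtain ⟨x, hx, p, d, hd, hxd⟩ := ih.2 hu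
        refine ⟨fun hv => ?_, fun hv => ⟨x, hx, p, d, ?_, hxd⟩⟩
        · by_cases e : x = v
          · exact e ▸ p
          · exact p.tail ⟨hx, ⟨h.2.1, hv⟩, h2 _ comp_sub (comp_conn hs) x hx v ⟨h.2.1, hv⟩ e
              ⟨d, hd, hxd⟩ ⟨u, mem_comp ⟨h.1, hu⟩, hs _ _ h.2.2⟩⟩
        · rw [comp_eq hs (comp_closed (C := C \ Y) (mem_comp ⟨h.1, hu⟩) ⟨h.2.1, hv⟩ h.2.2)]
          exact hd
  exact (key b (h a ha.1 b hb.1)).1 hb.2

end Conn

section Two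
variable {U V W : Type} {J J' : SimpleGraph V} {S Y τ : Set V}

theorem adj_symm' (J : SimpleGraph V) : ∀ x y, J.Adj x y → J.Adj y x := fun _ _ h => h.symm

theorem TwoConn.exists_ne (h : TwoConn J S) (a b : V) : ∃ c ∈ S, c ≠ a ∧ c ≠ b := by
  by_contra hc
  have : S ⊆ {a, b} := fun c hc' => by
    by_contra h2
    exact hc ⟨c, hc', fun e => h2 (.inl e), fun e => h2 (.inr e)⟩
  have h3 := ncard_le_ncard this (toFinite _)
  have := ncard_pair_le a b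
  have := h.1
  omega

theorem TwoConn.nonempty (h : TwoConn J S) : S.Nonempty :=
  nonempty_of_ncard_ne_zero (by have := h.1; omega)

theorem TwoConn.conn (h : TwoConn J S) : ConnOn J.Adj S := fun a ha b hb => by
  obtain ⟨c, -, h1, h2⟩ := h.exists_ne a b
  exact rtg_sub sdiff_subset (h.2 c a ⟨ha, fun e => h1 e.symm⟩ b ⟨hb, fun e => h2 e.symm⟩)

/-- every vertex of a 2-connected set has a neighbour different from a given vertex -/
theorem TwoConn.nbr (h : TwoConn J S) {a : V} (ha : a ∈ S) (b : V) (hab : a ≠ b) :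
    ∃ c ∈ S, c ≠ b ∧ J.Adj a c := by
  obtain ⟨c, hc, h1, h2⟩ := h.exists_ne a b
  obtain ⟨y, hy, -, h3⟩ := (h.2 b).step ⟨ha, hab⟩ ⟨hc, h2⟩ h1
  exact ⟨y, hy.1, hy.2, h3⟩

theorem TwoConn.nbr' (h : TwoConn J S) {a : V} (ha : a ∈ S) : ∃ c ∈ S, J.Adj a c := by
  obtain ⟨b, -, hb, -⟩ := h.exists_ne a a
  obtain ⟨c, hc, -, h1⟩ := h.nbr ha b hb.symm
  exact ⟨c, hc, h1⟩

theorem TwoConn.edge (h : TwoConn J S) : ∃ a ∈ S, ∃ b ∈ S, J.Adj a b := by
  obtain ⟨a, ha⟩ := h.nonempty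
  obtain ⟨b, hb, h1⟩ := h.nbr' ha
  exact ⟨a, ha, b, hb, h1⟩

theorem TwoConn.mono (h : TwoConn J S) (hJ : ∀ x ∈ S, ∀ y ∈ S, J.Adj x y → J'.Adj x y) :
    TwoConn J' S :=
  ⟨h.1, fun v => (h.2 v).mono fun _ hx _ hy => hJ _ hx.1 _ hy.1⟩

/-- a component outside `Y` has two neighbours in `S ∩ Y` -/
theorem TwoConn.two_nb (h : TwoConn J S) (hY : ¬ (S ∩ Y).Subsingleton) {c : V} (hc : c ∈ S \ Y) :
    ∃ u ∈ S ∩ Y, ∃ v ∈ S ∩ Y, u ≠ v ∧ (∃ d ∈ comp J.Adj (S \ Y) c, J.Adj u d) ∧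
      ∃ d ∈ comp J.Adj (S \ Y) c, J.Adj v d := by
  obtain ⟨a, ha, b, hb, hab⟩ := not_subsingleton_iff.1 hY
  obtain ⟨x, hx, u, hu, hxu⟩ := h.conn.comp_nb hc ha
  obtain ⟨w, hw, hwu⟩ : ∃ w ∈ S ∩ Y, w ≠ u := by
    by_cases e : a = u
    · exact ⟨b, hb, fun e' => hab (e.trans e'.symm)⟩
    · exact ⟨a, ha, e⟩
  obtain ⟨y, -, v, hv, h1, h2, h3⟩ := (h.2 u).cross (Y := comp J.Adj (S \ Y) c)
    ⟨hc.1, fun e => hc.2 (by rw [mem_singleton_iff.1 e]; exact hu.2)⟩ ⟨hw.1, hwu⟩ (mem_comp hc)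
    fun h => (comp_sub h).2 hw.2
  refine ⟨u, hu, v, ⟨hv.1, ?_⟩, fun e => hv.2 e.symm, ⟨x, hx, hxu.symm⟩, y, h1, h3.symm⟩
  by_contra hY'
  exact h2 (comp_closed h1 ⟨hv.1, hY'⟩ h3)

theorem Cq.sub (h : Cq J τ) {τ' : Set V} (h' : τ' ⊆ τ) : Cq J τ' := by
  rcases h with h | ⟨a, b, hab, rfl⟩
  · exact .inl (h.anti h')
  · by_cases hs : τ'.Subsingleton
    · exact .inl hs
    · refine .inr ⟨a, b, hab, Subset.antisymm h' ?_⟩
      obtain ⟨x, hx, y, hy, hxy⟩ := not_subsingleton_iff.1 hs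
      rintro z (rfl | rfl) <;> rcases h' hx with rfl | rfl <;> rcases h' hy with rfl | rfl <;>
        first | exact absurd rfl hxy | assumption

theorem Cq.adj (h : Cq J τ) {a b : V} (ha : a ∈ τ) (hb : b ∈ τ) (hab : a ≠ b) : J.Adj a b := by
  rcases h with h | ⟨x, y, hxy, rfl⟩
  · exact absurd (h ha hb) hab
  · rcases ha with rfl | rfl <;> rcases hb with rfl | rfl
    exacts [absurd rfl hab, hxy, hxy.symm, absurd rfl hab]

theorem Cq.three (h : Cq J τ) {a b c : V} (ha : a ∈ τ) (hb : b ∈ τ) (hc : c ∈ τ) :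
    a = b ∨ a = c ∨ b = c := by
  rcases h with h | ⟨x, y, -, rfl⟩
  · exact .inl (h ha hb)
  · rcases ha with rfl | rfl <;> rcases hb with rfl | rfl <;> rcases hc with rfl | rfl <;> simp

theorem cq_of (h1 : ∀ a ∈ τ, ∀ b ∈ τ, a ≠ b → J.Adj a b)
    (h2 : ∀ a ∈ τ, ∀ b ∈ τ, ∀ c ∈ τ, a = b ∨ a = c ∨ b = c) : Cq J τ := by
  by_cases hs : τ.Subsingleton
  · exact .inl hs
  obtain ⟨a, ha, b, hb, hab⟩ := not_subsingleton_iff.1 hs
  refine .inr ⟨a, b, h1 a ha b hb hab, Subset.antisymm (fun c hc => ?_) ?_⟩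
  · rcases h2 a ha b hb c hc with e | e | e
    exacts [absurd e hab, .inl e.symm, .inr e.symm]
  · rintro z (rfl | rfl) <;> assumption

theorem Cq.pair (h : Cq J τ) [Nonempty V] : ∃ a b, (a = b ∨ J.Adj a b) ∧ τ ⊆ {a, b} := by
  rcases h with h | ⟨a, b, hab, rfl⟩
  · rcases h.eq_empty_or_singleton with rfl | ⟨a, rfl⟩
    · exact ⟨Classical.arbitrary V, _, .inl rfl, empty_subset _⟩
    · exact ⟨a, a, .inl rfl, by simp⟩
  · exact ⟨a, b, .inr hab, subset_rfl⟩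

theorem Cq.ncard_le (h : Cq J τ) : τ.ncard ≤ 2 := by
  rcases h with h | ⟨a, b, -, rfl⟩
  · rcases h.eq_empty_or_singleton with rfl | ⟨a, rfl⟩ <;> simp
  · exact ncard_pair_le a b

end Two

section Maps
variable {U V W Z : Type} {J : SimpleGraph V} {J' : SimpleGraph U} {H : SimpleGraph W}
  {J'' : SimpleGraph Z} {f : V → U} {S S' : Set V} {P : Par}

theorem IHo.sub (h : IHo J J' f S) (hS : S' ⊆ S) : IHo J J' f S' :=
  ⟨h.1.mono hS, fun _ hx _ hy => h.2 _ (hS hx) _ (hS hy)⟩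

theorem IH.on (h : IH J J' f) (S : Set V) : IHo J J' f S :=
  ⟨h.1.injOn, fun _ _ _ _ => h.2 _ _⟩

theorem IHo.comp {k : U → Z} (h : IHo J J' f S) (h' : IHo J' J'' k (f '' S)) :
    IHo J J'' (k ∘ f) S :=
  ⟨h'.1.comp h.1 (mapsTo_image f S), fun _ hx _ hy e =>
    h'.2 _ (mem_image_of_mem f hx) _ (mem_image_of_mem f hy) (h.2 _ hx _ hy e)⟩

theorem IH.comp {k : U → Z} (h : IH J J' f) (h' : IH J' J'' k) : IH J J'' (k ∘ f) :=
  ⟨h'.1.comp h.1, fun _ _ e => h'.2 _ _ (h.2 _ _ e)⟩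

theorem In.trans (h : In J J') (h' : In J' J'') : In J J'' :=
  let ⟨_, h⟩ := h; let ⟨_, h'⟩ := h'; ⟨_, h.comp h'⟩

theorem ih_id {J1 J2 : SimpleGraph V} (h : J1 ≤ J2) : IH J1 J2 id := ⟨injective_id, fun _ _ e => h e⟩

theorem In.of_le {J1 J2 : SimpleGraph V} (h : J1 ≤ J2) : In J1 J2 := ⟨id, ih_id h⟩

theorem in_iff : In J J' ↔ J.IsContained J' :=
  ⟨fun ⟨f, h⟩ => ⟨⟨⟨f, fun e => h.2 _ _ e⟩, h.1⟩⟩,
    fun ⟨c⟩ => ⟨c.toHom, c.injective', fun _ _ e => c.toHom.map_adj e⟩⟩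

theorem Ind.iho (h : Ind J J' f S) : IHo J J' f S :=
  ⟨h.1, fun _ hx _ hy e => (h.2 _ hx _ hy).2 e⟩

theorem Ind.inj (h : Ind J J' f univ) : Injective f := injOn_univ.1 h.1

theorem Ind.adj (h : Ind J J' f univ) (x y : V) : J'.Adj (f x) (f y) ↔ J.Adj x y :=
  h.2 _ trivial _ trivial

/-- the inverse of a map that is injective on `S` and reflects adjacency -/
theorem iho_inv [Nonempty V] (hi : InjOn f S)
    (hr : ∀ x ∈ S, ∀ y ∈ S, J'.Adj (f x) (f y) → J.Adj x y) :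
    IHo J' J (invFunOn f S) (f '' S) := by
  refine ⟨invFunOn_injOn_image f S, ?_⟩
  rintro _ ⟨x, hx, rfl⟩ _ ⟨y, hy, rfl⟩ e
  rw [hi.leftInvOn_invFunOn hx, hi.leftInvOn_invFunOn hy]
  exact hr _ hx _ hy e

theorem invFunOn_image [Nonempty V] (hi : InjOn f S) {T : Set U} (hT : T ⊆ f '' S) :
    invFunOn f S '' T = S ∩ f ⁻¹' T := by
  ext x
  constructor
  · rintro ⟨t, ht, rfl⟩
    obtain ⟨y, hy, rfl⟩ := hT ht
    rw [hi.leftInvOn_invFunOn hy]
    exact ⟨hy, ht⟩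
  · exact fun h => ⟨f x, h.2, hi.leftInvOn_invFunOn h.1⟩

/-- pulling back along an injective map that reflects adjacency on `S` -/
theorem exists_pull (hi : InjOn f S) (hr : ∀ x ∈ S, ∀ y ∈ S, J'.Adj (f x) (f y) → J.Adj x y)
    {T : Set U} (hT : T ⊆ f '' S) (hn : T.Nonempty) :
    ∃ k : U → V, IHo J' J k (f '' S) ∧ k '' T = S ∩ f ⁻¹' T ∧ ∀ x ∈ S, k (f x) = x := by
  obtain ⟨_, ht⟩ := hn
  obtain ⟨x0, -, -⟩ := hT ht
  have : Nonempty V := ⟨x0⟩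
  exact ⟨_, iho_inv hi hr, invFunOn_image hi hT, fun _ hx => hi.leftInvOn_invFunOn hx⟩

/-- pulling back along an injective map that reflects adjacency -/
theorem exists_pull' (hi : Injective f) (hr : ∀ x y, J'.Adj (f x) (f y) → J.Adj x y)
    {T : Set U} (hT : T ⊆ range f) (hn : T.Nonempty) :
    ∃ k : U → V, IHo J' J k T ∧ k '' T = f ⁻¹' T ∧ ∀ x, k (f x) = x := by
  obtain ⟨k, h1, h2, h3⟩ := exists_pull (J := J) (J' := J') (S := univ) hi.injOn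
    (fun _ _ _ _ => hr _ _) (T := T) (by rwa [image_univ]) hn
  exact ⟨k, h1.sub (by rwa [image_univ]), by rwa [univ_inter] at h2, fun x => h3 x trivial⟩

theorem IHo.ncard (h : IHo J J' f S) : (f '' S).ncard = S.ncard := h.1.ncard_image

theorem ConnOn.map (h : ConnOn J.Adj S) (hf : IHo J J' f S) : ConnOn J'.Adj (f '' S) :=
  h.image f fun _ hx _ hy e => .inr (hf.2 _ hx _ hy e)

theorem injOn_image_diff (hi : InjOn f S) {T : Set V} (hT : T ⊆ S) :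
    f '' (S \ T) = f '' S \ f '' T := hi.image_sdiff_subset hT

theorem TwoConn.map (h : TwoConn J S) (hf : IHo J J' f S) : TwoConn J' (f '' S) := by
  refine ⟨by rw [hf.ncard]; exact h.1, fun v => ?_⟩
  by_cases hv : v ∈ f '' S
  · obtain ⟨u, hu, rfl⟩ := hv
    rw [← image_singleton, ← injOn_image_diff hf.1 (singleton_subset_iff.2 hu)]
    exact (h.2 u).map (hf.sub sdiff_subset)
  · rw [sdiff_singleton_eq_self hv]
    exact h.conn.map hf

theorem Torso.pull (hf : IHo J J' f S) {T : Set U} (h : Torso H J' (f '' S) T) :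
    Torso H J S (S ∩ f ⁻¹' T) := by
  obtain ⟨h1, h2, h3, k, h4, h5⟩ := h
  have e : f '' (S ∩ f ⁻¹' T) = T := by
    rw [image_inter_preimage, inter_eq_right.2 h1]
  refine ⟨inter_subset_left, fun e' => h2 (by rw [← e, e']), ?_, k ∘ f,
    (hf.sub inter_subset_left).comp (by rwa [e]), fun C hC hc => ?_⟩
  · rwa [← (hf.sub inter_subset_left).ncard, e]
  · have hCS : C ⊆ S := fun x hx => (hC hx).1
    refine (h5 (f '' C) ?_ (hc.map (hf.sub hCS))).sub ?_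
    · rintro _ ⟨x, hx, rfl⟩
      exact ⟨mem_image_of_mem f (hCS hx), fun h => (hC hx).2 ⟨hCS hx, h⟩⟩
    · rintro _ ⟨x, ⟨hx, c, hc, e⟩, rfl⟩
      exact ⟨f x, ⟨hx.2, f c, mem_image_of_mem f hc, hf.2 _ hx.1 _ (hCS hc) e⟩, rfl⟩

theorem ES.map (h : ES H J S) (hf : IHo J J' f S) : ES H J' (f '' S) :=
  ⟨h.1.map hf, fun _ ht => h.2 _ (ht.pull hf)⟩

theorem RS.map {a b : V} (h : RS H J S a b) (hf : IHo J J' f S) : RS H J' (f '' S) (f a) (f b) :=
  ⟨mem_image_of_mem f h.1, mem_image_of_mem f h.2.1, hf.2 _ h.1 _ h.2.1 h.2.2.1, h.2.2.2.1.map hf,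
    fun T ha hb ht => h.2.2.2.2 (S ∩ f ⁻¹' T) ⟨h.1, ha⟩ ⟨h.2.1, hb⟩ (ht.pull hf)⟩

theorem ES.rs (h : ES H J S) {a b : V} (ha : a ∈ S) (hb : b ∈ S) (hab : J.Adj a b) :
    RS H J S a b := ⟨ha, hb, hab, h.1, fun S' _ _ => h.2 S'⟩

theorem ec_le [Finite U] (hf : IHo J J' f S) : ec J S ≤ ec J' (f '' S) := by
  refine ncard_le_ncard_of_injOn (fun p => (f p.1, f p.2)) ?_ ?_ (toFinite _)
  · rintro ⟨x, y⟩ ⟨hx, hy, e⟩
    exact ⟨mem_image_of_mem f hx, mem_image_of_mem f hy, hf.2 _ hx _ hy e⟩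
  · rintro ⟨x, y⟩ ⟨hx, hy, -⟩ ⟨x', y'⟩ ⟨hx', hy', -⟩ e
    exact Prod.ext (hf.1 hx hx' (congrArg Prod.fst e)) (hf.1 hy hy' (congrArg Prod.snd e))

theorem TS.map [Finite U] (h : TS P H J S) (hf : IHo J J' f S) : TS P H J' (f '' S) :=
  ⟨h.1.map hf, hf.ncard.trans h.2.1, h.2.2.trans (ec_le hf)⟩

theorem AS.map [Finite U] (h : AS P H J S) (hf : IHo J J' f S) : AS P H J' (f '' S) :=
  ⟨h.1.elim fun _ h => h.elim fun _ h => ⟨_, _, h.map hf⟩, hf.ncard.trans h.2.1,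
    h.2.2.trans (ec_le hf)⟩

theorem TS.two (h : TS P H J S) : TwoConn J S := h.1.1

theorem AS.two (h : AS P H J S) : TwoConn J S := let ⟨_, _, h⟩ := h.1; h.2.2.2.1

theorem TG_le (J : SimpleGraph V) (Y : Set V) : TG P H J Y ≤ J := fun _ _ h => h.1

theorem TG_mono {Y Y' : Set V} (h : Y ⊆ Y') : TG P H J Y ≤ TG P H J Y' :=
  fun _ _ ⟨h1, S, h2, h3⟩ => ⟨h1, S, h2.trans h, h3⟩

theorem IHo.tg [Finite U] (hf : IHo J J' f S) : IHo (TG P H J S) (TG P H J' (f '' S)) f S :=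
  ⟨hf.1, fun _ hx _ hy ⟨e, D, h1, h2, h3, h4⟩ => ⟨hf.2 _ hx _ hy e, f '' D, image_mono h1,
    h2.map (hf.sub h1), mem_image_of_mem f h3, mem_image_of_mem f h4⟩⟩

theorem IH.tg [Finite U] (hf : IH J J' f) : IH (TG P H J univ) (TG P H J' univ) f :=
  ⟨hf.1, fun _ _ e => TG_mono (subset_univ _) ((hf.on univ).tg.2 _ trivial _ trivial e)⟩

theorem TH.map [Finite U] (h : TH P H J S) (hf : IHo J J' f S) : TH P H J' (f '' S) :=
  ⟨h.1.map hf.tg, hf.ncard.trans h.2⟩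

theorem TH.two (h : TH P H J S) : TwoConn J S := h.1.mono fun _ _ _ _ e => e.1

theorem TH.ts (h : TH P H J S) {a : V} (ha : a ∈ S) : ∃ D, D ⊆ S ∧ TS P H J D ∧ a ∈ D := by
  obtain ⟨c, -, -, D, h1, h2, h3, -⟩ := h.1.nbr' ha
  exact ⟨D, h1, h2, h3⟩

theorem Tri.map (h : Tri J S) (hf : IHo J J' f S) : Tri J' (f '' S) := by
  obtain ⟨a, b, c, h1, h2, h3, rfl⟩ := h
  exact ⟨f a, f b, f c, hf.2 _ (by simp) _ (by simp) h1, hf.2 _ (by simp) _ (by simp) h2,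
    hf.2 _ (by simp) _ (by simp) h3, by simp [image_insert_eq]⟩

theorem Tri.adj (h : Tri J S) {x y : V} (hx : x ∈ S) (hy : y ∈ S) (hxy : x ≠ y) : J.Adj x y := by
  obtain ⟨a, b, c, h1, h2, h3, rfl⟩ := h
  rcases hx with rfl | rfl | rfl <;> rcases hy with rfl | rfl | rfl <;>
    first | exact absurd rfl hxy | assumption | exact SimpleGraph.Adj.symm ‹_›

theorem Tri.ncard (h : Tri J S) : S.ncard = 3 := by
  obtain ⟨a, b, c, h1, h2, h3, rfl⟩ := h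
  exact ncard_eq_three.2 ⟨a, b, c, h1.ne, h2.ne, h3.ne, rfl⟩

theorem BO.map [Finite U] {m : Mode} (h : BO P H m J S) (hf : IHo J J' f S) :
    BO P H m J' (f '' S) := by
  cases m
  exacts [TH.map h hf, TH.map h hf, AS.map h hf, TH.map h hf]

theorem BO.two {m : Mode} (h : BO P H m J S) : TwoConn J S := by
  cases m
  exacts [TH.two h, TH.two h, AS.two h, TH.two h]

theorem RO.two {m : Mode} (h : RO P H m J S) : TwoConn J S := by
  cases m
  exacts [h.1.two, h.1.two, AS.two h, TH.two h]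

theorem Shape.map {m : Mode} (h : Shape m J S) (hf : IHo J J' f S) : Shape m J' (f '' S) := by
  cases m
  · trivial
  · trivial
  · obtain ⟨h1, w, hw, h2, h3⟩ := h
    refine ⟨by rwa [hf.ncard], f w, mem_image_of_mem f hw, ?_, fun x => ?_⟩
    · rintro _ ⟨x, hx, rfl⟩ e
      exact hf.2 _ hw _ hx (h2 x hx fun e' => e (by rw [e']))
    · by_cases hx : x ∈ f '' S
      · obtain ⟨u, hu, rfl⟩ := hx
        rw [← image_pair, ← injOn_image_diff hf.1 (pair_subset hw hu)]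
        exact (h3 u).map (hf.sub sdiff_subset)
      · have e : f '' S \ {f w, x} = f '' S \ {f w, f w} := by
          ext z
          simp only [mem_sdiff, mem_insert_iff, mem_singleton_iff, or_self, not_or]
          exact ⟨fun h => ⟨h.1, h.2.1⟩, fun h => ⟨h.1, h.2, fun e => hx (e ▸ h.1)⟩⟩
        rw [e, ← image_pair, ← injOn_image_diff hf.1 (pair_subset hw hw)]
        exact (h3 w).map (hf.sub sdiff_subset)
  · obtain ⟨h1, w, hw, h2, h3⟩ := h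
    refine ⟨by rwa [hf.ncard], f w, mem_image_of_mem f hw, ?_, ?_⟩
    · rintro _ ⟨x, hx, rfl⟩ e
      exact hf.2 _ hw _ hx (h2 x hx fun e' => e (by rw [e']))
    · rw [← image_singleton, ← injOn_image_diff hf.1 (singleton_subset_iff.2 hw)]
      exact h3.map (hf.sub sdiff_subset)

theorem ncard_le_card [Finite V] (S : Set V) : S.ncard ≤ Nat.card V := by
  rw [← ncard_univ]
  exact ncard_le_ncard (subset_univ _)

theorem In.card_le [Finite U] (h : In J J') : Nat.card V ≤ Nat.card U :=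
  let ⟨f, h⟩ := h; Nat.card_le_card_of_injective f h.1

end Maps

section Colours
variable {U V : Type} {G R : SimpleGraph V} {A : SimpleGraph U}

theorem cc_le (h : R ≤ G) (c : Bool) : cc G R c ≤ G := by
  cases c
  exacts [sdiff_le, h]

theorem cc_not {c : Bool} {x y : V} (h : (cc G R c).Adj x y) : ¬ (cc G R (!c)).Adj x y := by
  cases c
  exacts [h.2, fun h' => h'.2 h]

theorem cc_or {x y : V} (h : G.Adj x y) (c : Bool) :
    (cc G R c).Adj x y ∨ (cc G R (!c)).Adj x y := by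
  by_cases e : R.Adj x y <;> cases c
  exacts [.inr e, .inl e, .inl ⟨h, e⟩, .inr ⟨h, e⟩]

theorem cc_iff {f : U → V} {red : SimpleGraph U} {a b : U} (h : G.Adj (f a) (f b) ↔ A.Adj a b)
    (h' : R.Adj (f a) (f b) ↔ red.Adj a b) (c : Bool) :
    (cc G R c).Adj (f a) (f b) ↔ (cc A red c).Adj a b := by
  cases c
  · exact and_congr h (not_congr h')
  · exact h'

theorem cc_of_sdiff {red old : SimpleGraph U} {c : Bool} (h1 : red ≤ A) (h2 : old ≤ A)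
    (h : cc A red c = A \ old) : cc A red (!c) = old := by
  ext a b
  have h3 : (cc A red c).Adj a b ↔ A.Adj a b ∧ ¬ old.Adj a b := by rw [h]; rfl
  constructor
  · intro e
    by_contra e'
    exact cc_not e (by rw [Bool.not_not]; exact h3.2 ⟨cc_le h1 _ e, e'⟩)
  · intro e
    exact (cc_or (h2 e) c).resolve_left fun e' => (h3.1 e').2 e

theorem Mat.bip [Finite U] {M : SimpleGraph U} (h : Mat M) : Bip M := by
  classical
  let ρ : U → ℕ := fun x => Finite.equivFin U x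
  have hρ : Injective ρ := Fin.val_injective.comp (Finite.equivFin U).injective
  refine ⟨fun a => decide (∃ b, M.Adj a b ∧ ρ a < ρ b), fun a b e => ?_⟩
  have k : ∀ a b, M.Adj a b → ((∃ c, M.Adj a c ∧ ρ a < ρ c) ↔ ρ a < ρ b) := fun a b e =>
    ⟨fun ⟨c, h1, h2⟩ => by rwa [h a b c e h1], fun h => ⟨b, e, h⟩⟩
  have := hρ.ne e.ne
  simp only [k a b e, k b a e.symm, ne_eq, decide_eq_decide]
  omega

theorem Mat.not_two {M : SimpleGraph U} (h : Mat M) (S : Set U) : ¬ TwoConn M S := fun hS => by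
  obtain ⟨a, ha, b, -, e⟩ := hS.edge
  obtain ⟨c, -, h1, h2⟩ := hS.nbr ha b e.ne
  exact h1 (h a c b h2 e)

theorem Mat.noBack {M : SimpleGraph U} (h : Mat M) : NoBack A M := by
  intro a b e p
  have key : ∀ z, ReflTransGen (fun x y => M.Adj x y ∧ s(x, y) ≠ s(a, b)) a z →
      z = a ∨ (M.Adj a z ∧ z ≠ b) := by
    intro z p
    induction p with
    | refl => exact .inl rfl
    | @tail u v _ h1 ih =>
      rcases ih with rfl | ⟨h2, -⟩
      · exact .inr ⟨h1.1, fun e => h1.2 (by rw [e])⟩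
      · exact .inl (h u v a h1.1 h2.symm)
  rcases key b p with e' | e'
  exacts [e.ne e'.symm, e'.2 rfl]

theorem noBack_bot : NoBack A ⊥ := Mat.noBack fun _ _ _ h => h.elim

/-- a path inside a set that misses one end of the pair avoids the pair -/
theorem rtg_avoid {Q : U → U → Prop} {C : Set U} {a b x y : U} (h : a ∉ C ∨ b ∉ C)
    (p : ReflTransGen (fun x y => x ∈ C ∧ y ∈ C ∧ Q x y) x y) :
    ReflTransGen (fun x y => Q x y ∧ s(x, y) ≠ s(a, b)) x y := by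
  refine rtg_mono (fun u v ⟨h1, h2, h3⟩ => ⟨h3, fun e => ?_⟩) p
  rcases Sym2.eq_iff.1 e with ⟨rfl, rfl⟩ | ⟨rfl, rfl⟩ <;> tauto

theorem NoBack.not_two {F : SimpleGraph U} (h : NoBack A F) (hF : F ≤ A) (S : Set U) :
    ¬ TwoConn F S := fun hS => by
  obtain ⟨a, ha, b, hb, e⟩ := hS.edge
  obtain ⟨z, hz, h1, h2⟩ := hS.exists_ne a b
  exact h a b (hF e) ((rtg_avoid (.inr fun h => h.2 rfl)
    (hS.2 b a ⟨ha, e.ne⟩ z ⟨hz, h2⟩)).trans (rtg_avoid (.inl fun h => h.2 rfl)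
    (hS.2 a z ⟨hz, h1⟩ b ⟨hb, e.ne'⟩)))

theorem ramOn_bot : RamOn A G R ⊥ ↔ Arr G A :=
  ⟨fun h R' h' => h R' h' fun _ _ e => e.elim, fun h R' h' _ => h R' h'⟩

end Colours

section Fr
variable {U V : Type} {N N' : Set (Set V)} {Lk : Set V → Prop} {g g' : ℕ} {X C : Set V}

theorem Tog.symm {x y : V} (h : Tog N x y) : Tog N y x :=
  let ⟨ν, h1, h2, h3⟩ := h; ⟨ν, h1, h3, h2⟩

theorem tog_symm (N : Set (Set V)) : ∀ x y, Tog N x y → Tog N y x := fun _ _ h => h.symm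

theorem Tog.mono {x y : V} (h : Tog N x y) (hN : N ⊆ N') : Tog N' x y :=
  let ⟨ν, h1, h2⟩ := h; ⟨ν, hN h1, h2⟩

theorem Thin.mono (h : Thin N Lk g X) (hg : g' ≤ g) : Thin N Lk g' X :=
  fun C h1 => h C (h1.trans hg)

theorem Far.mono {Y : Set V} {u : V} (h : Far N g X Y u) (hg : g' ≤ g) : Far N g' X Y u :=
  fun C h1 => h C (h1.trans hg)

/-- usable form of thinness -/
theorem Thin.link (h : Thin N Lk g X) (hC : C.ncard ≤ g) (hd : Disjoint C X)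
    (hc : ConnOn (Tog N) C) {w c : V} (hw : w ∈ X) (hcC : c ∈ C) (hwc : Tog N w c) :
    ∃ ℓ, Lk ℓ ∧ At N X C ⊆ ℓ ∧ ℓ ⊆ X ∧ ∃ ν ∈ N, ℓ ⊆ ν ∧ (ν ∩ C).Nonempty :=
  (h C hC hd hc).resolve_left fun e => (e ▸ ⟨hw, c, hcC, hwc⟩ : w ∈ (∅ : Set V))

theorem GLk.pair {G : SimpleGraph V} {ℓ : Set V} (h : GLk G ℓ) {u v : V} (hu : u ∈ ℓ) (hv : v ∈ ℓ)
    (huv : u ≠ v) : G.Adj u v ∧ ℓ = {u, v} := by
  rcases h with ⟨x, rfl⟩ | ⟨a, b, e, rfl⟩
  · exact absurd (hu.trans hv.symm) huv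
  · rcases hu with rfl | rfl <;> rcases hv with rfl | rfl
    exacts [absurd rfl huv, ⟨e, rfl⟩, ⟨e.symm, pair_comm _ _⟩, absurd rfl huv]

theorem GLk.inter {G : SimpleGraph V} {ℓ : Set V} (h : GLk G ℓ) (Y : Set V) :
    ℓ ∩ Y = ∅ ∨ GLk G (ℓ ∩ Y) := by
  by_cases hs : (ℓ ∩ Y).Subsingleton
  · exact hs.eq_empty_or_singleton.imp_right .inl
  · obtain ⟨u, hu, v, hv, huv⟩ := not_subsingleton_iff.1 hs
    obtain ⟨e, rfl⟩ := h.pair hu.1 hv.1 huv
    exact .inr (.inr ⟨u, v, e, inter_eq_left.2 (pair_subset hu.2 hv.2)⟩)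

/-- two attachments of a small connected set form an edge that lies in a bag meeting the set -/
theorem Thin.two {G : SimpleGraph V} (h : Thin N (GLk G) g X) (hC : C.ncard ≤ g)
    (hd : Disjoint C X) (hc : ConnOn (Tog N) C) {u v : V} (hu : u ∈ At N X C) (hv : v ∈ At N X C)
    (huv : u ≠ v) : G.Adj u v ∧ At N X C ⊆ {u, v} ∧ ∃ ν ∈ N, u ∈ ν ∧ v ∈ ν ∧ (ν ∩ C).Nonempty := by
  obtain ⟨c, h1, h2⟩ := hu.2
  obtain ⟨ℓ, l1, l2, -, ν, l3, l4, l5⟩ := h.link hC hd hc hu.1 h1 h2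
  obtain ⟨e, rfl⟩ := l1.pair (l2 hu) (l2 hv) huv
  exact ⟨e, l2, ν, l3, l4 (by simp), l4 (by simp), l5⟩

/-- a set is thin when every attachment is a single vertex -/
theorem thin_of_subsingleton (h1 : ∀ v, Lk {v})
    (h : ∀ C : Set V, C.ncard ≤ g → Disjoint C X → ConnOn (Tog N) C → (At N X C).Subsingleton) :
    Thin N Lk g X := fun C c1 c2 c3 => by
  rcases (h C c1 c2 c3).eq_empty_or_singleton with e | ⟨w, e⟩
  · exact .inl e
  · obtain ⟨hw, c, hc, ν, n1, n2, n3⟩ : w ∈ At N X C := e ▸ rfl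
    exact .inr ⟨{w}, h1 w, e.le, singleton_subset_iff.2 hw, ν, n1, singleton_subset_iff.2 n2,
      c, n3, hc⟩

variable {A : SimpleGraph U} {G R : SimpleGraph V} {Ls : Set (Set V)} {Bs : Set (Bag U V)}

theorem Pre.tog (h : Pre A G R Ls Bs g) {x y : V} (e : G.Adj x y) : Tog (Nodes Ls Bs) x y := by
  rcases h.cov x y e with ⟨L, h1, h2⟩ | ⟨β, h1, a, b, rfl, rfl, -⟩
  · exact ⟨L, .inl h1, h2⟩
  · exact ⟨_, .inr ⟨β, h1, rfl⟩, mem_range_self a, mem_range_self b⟩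

theorem Pre.ccol (h : Pre A G R Ls Bs g) {β : Bag U V} (hβ : β ∈ Bs) (c : Bool) (a b : U) :
    (cc G R c).Adj (β.f a) (β.f b) ↔ (cc A β.red c).Adj a b :=
  cc_iff ((h.ind β hβ).adj a b) (h.col β hβ a b) c

theorem Pre.red_le (h : Pre A G R Ls Bs g) {β : Bag U V} (hβ : β ∈ Bs) : β.red ≤ A :=
  fun a b e => ((h.ind β hβ).adj a b).1 (h.le ((h.col β hβ a b).2 e))

theorem Pre.eq_of_mem (h : Pre A G R Ls Bs g) {L L' : Set V} (hL : L ∈ Ls) (hL' : L' ∈ Ls) {x : V}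
    (hx : x ∈ L) (hx' : x ∈ L') : L = L' := by
  by_contra e
  exact disjoint_left.1 (h.dis L hL L' hL' e) hx hx'

theorem Pre.mono (h : Pre A G R Ls Bs g) (hg : g' ≤ g) : Pre A G R Ls Bs g' :=
  { h with thin := fun ν hν => (h.thin ν hν).mono hg }

theorem Core.ccol {X : Type} {Γ RΓ : SimpleGraph X} {Hub : Set X} {Gs : Set (X → V)}
    (h : Core A Γ RΓ Hub G R Gs Bs g) {γ : X → V} (hγ : γ ∈ Gs) (c : Bool) (a b : X) :
    (cc G R c).Adj (γ a) (γ b) ↔ (cc Γ RΓ c).Adj a b :=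
  cc_iff ((h.gind γ hγ).adj a b) (h.gcol γ hγ a b) c

theorem Core.eq_of_mem {X : Type} {Γ RΓ : SimpleGraph X} {Hub : Set X} {Gs : Set (X → V)}
    (h : Core A Γ RΓ Hub G R Gs Bs g) {γ γ' : X → V} (hγ : γ ∈ Gs) (hγ' : γ' ∈ Gs) {x : V}
    (hx : x ∈ range γ) (hx' : x ∈ range γ') : γ = γ' := by
  by_contra e
  exact disjoint_left.1 (h.gdis γ hγ γ' hγ' e) hx hx'

end Fr

end Pool.Agent.MP_1c0fc2_co.RE
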