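import Pool.Agent.MP_1c0fc2_co.RE.CloseDefs

/-! The closing step: local properties of the new graph. -/

open Function Set Relation

namespace Pool.Agent.MP_1c0fc2_co.RE

namespace CH
open CD
variable {U X V : Type} [Finite U] [Finite V] {c : CD U X V} (h : CH c)

theorem ι_Gs (d : h.Big) {γ : X → V} (hγ : γ ∈ c.Gs) : h.ι d ∘ γ ∈ h.Gs' :=
  ⟨γ, hγ, fun x y => h.ι_fst.2 ((c.cell_rng hγ (mem_range_self x)).trans
    (c.cell_rng hγ (mem_range_self y)).symm), fun _ => ⟨rfl, h.ι_val d _⟩⟩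

theorem pt_Gs {γ : X → V} (hγ : γ ∈ c.Gs) {n : h.H.V} (hn : h.H.kd n = some (range γ)) :
    (fun x => ((n, some (γ x)) : h.W)) ∈ h.Gs' :=
  ⟨γ, hγ, fun _ _ => rfl, fun x => ⟨rfl, hn.trans (congrArg some
    (c.cell_rng hγ (mem_range_self x)).symm)⟩⟩

theorem val_rng {γ : X → V} {z : h.W} (hz : h.Val z) (hn : h.H.kd z.1 = some (range γ)) :
    ∃ x, z.2 = some (γ x) := by
  obtain ⟨n, _ | u⟩ := z
  · exact absurd (hz.symm.trans hn) (by simp [CD.kd])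
  · have e : cell c.Gs u = range γ := Option.some.inj (hz.symm.trans hn)
    obtain ⟨x, rfl⟩ : u ∈ range γ := e ▸ c.mem_cell u
    exact ⟨x, rfl⟩

theorem range_pt {γ : X → V} (hγ : γ ∈ c.Gs) {n : h.H.V} (hn : h.H.kd n = some (range γ)) :
    range (fun x => ((n, some (γ x)) : h.W)) = h.pt n := by
  ext z
  constructor
  · rintro ⟨x, rfl⟩
    exact ⟨rfl, hn.trans (congrArg some (c.cell_rng hγ (mem_range_self x)).symm)⟩
  · rintro ⟨rfl, hz⟩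
    obtain ⟨x, hx⟩ := h.val_rng hz hn
    exact ⟨x, Prod.ext rfl hx.symm⟩

/-- normal form of a new copy of `Γ` through a vertex -/
theorem Gs_form {γ' : X → h.W} (hγ : γ' ∈ h.Gs') {z : h.W} (hz : z ∈ range γ') :
    ∃ γ ∈ c.Gs, h.H.kd z.1 = some (range γ) ∧ γ' = fun x => (z.1, some (γ x)) := by
  obtain ⟨γ, h1, h2, h3⟩ := hγ
  obtain ⟨x, rfl⟩ := hz
  exact ⟨γ, h1, (h3 x).2.trans ((congrArg c.kd (h3 x).1).trans
    (congrArg some (c.cell_rng h1 (mem_range_self x)))),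
    funext fun y => Prod.ext (h2 y x) (h3 y).1⟩

theorem lift_pt {K : SimpleGraph V} {n : h.H.V} {u v : V} (hu : h.Val (n, some u))
    (hv : h.Val (n, some v)) : (h.lift K).Adj (n, some u) (n, some v) ↔ K.Adj u v := by
  refine ⟨?_, fun e => ⟨⟨hu, hv, .inl rfl⟩, u, v, rfl, rfl, e⟩⟩
  rintro ⟨-, u', v', h1, h2, e⟩
  rwa [Option.some.inj h1, Option.some.inj h2]

theorem gind (γ' : X → h.W) (hγ : γ' ∈ h.Gs') : Ind c.Γ h.G' γ' univ := by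
  refine ⟨fun a _ b _ e => ?_, fun a _ b _ => ?_⟩
  · obtain ⟨γ, h1, -, h3⟩ := hγ
    exact (c.lev.core.gind γ h1).inj (Option.some.inj ((h3 a).1.symm.trans (e ▸ (h3 b).1)))
  · obtain ⟨γ, h1, h2, e⟩ := h.Gs_form hγ (mem_range_self a)
    have h3 : ∀ x, h.Val (γ' x) := fun x => let ⟨_, _, _, h3⟩ := hγ; (h3 x).2
    generalize (γ' a).1 = n at h2 e
    subst e
    rw [← (c.lev.core.gind γ h1).adj a b, ← h.lift_pt (h3 a) (h3 b)]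
    exact ⟨fun e => e.resolve_right fun ⟨_, _, _, _, _, h3, _⟩ => h3 rfl, .inl⟩

theorem gcol (γ' : X → h.W) (hγ : γ' ∈ h.Gs') (a b : X) :
    h.R'.Adj (γ' a) (γ' b) ↔ c.RΓ.Adj a b := by
  obtain ⟨γ, h1, h2, e⟩ := h.Gs_form hγ (mem_range_self a)
  have h3 : ∀ x, h.Val (γ' x) := fun x => let ⟨_, _, _, h3⟩ := hγ; (h3 x).2
  generalize (γ' a).1 = n at h2 e
  subst e
  rw [← c.lev.core.gcol γ h1 a b, ← h.lift_pt (h3 a) (h3 b)]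
  exact ⟨fun e => e.resolve_right fun ⟨_, _, _, _, _, h3, _⟩ => h3 rfl, .inl⟩

theorem gdis (γ' : X → h.W) (hγ : γ' ∈ h.Gs') (γ'' : X → h.W) (hγ' : γ'' ∈ h.Gs')
    (hne : γ' ≠ γ'') : Disjoint (range γ') (range γ'') := by
  refine disjoint_left.2 fun z h1 h2 => hne ?_
  obtain ⟨γ, a1, a2, a3⟩ := h.Gs_form hγ h1
  obtain ⟨δ, b1, b2, b3⟩ := h.Gs_form hγ' h2
  obtain ⟨x, -⟩ := h1
  have e : range γ = range δ := Option.some.inj (a2.symm.trans b2)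
  obtain rfl := c.lev.core.eq_of_mem a1 b1 (mem_range_self x) (e ▸ mem_range_self x)
  exact a3.trans b3.symm

theorem hub (γ' : X → h.W) (hγ : γ' ∈ h.Gs') (β : Bag U h.W) (hβ : β ∈ h.Bs') (a : U) (x : X)
    (hx : x ∈ c.Hub) : β.f a ≠ γ' x := by
  obtain ⟨γ, h1, -, h3⟩ := hγ
  intro e
  have e1 : (β.f a).2 = some (γ x) := e ▸ (h3 x).1
  rcases hβ with ⟨d, β, hβ, rfl⟩ | ⟨p, j, rfl⟩
  · exact c.lev.core.hub γ h1 β hβ a x hx (Option.some.inj e1)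
  · obtain ⟨v, hv⟩ := j.2.pend a _ e1
    exact c.lev.hub γ h1 x hx v hv

theorem kind (β : Bag U h.W) (hβ : β ∈ h.Bs') : Kind c.A c.E β.old β.red β.top := by
  rcases hβ with ⟨d, β, hβ, rfl⟩ | ⟨p, j, rfl⟩
  · exact .inl (c.lev.low β hβ)
  · exact .inr (j.2.kind.imp (fun e => ⟨trivial, e⟩) fun e => ⟨trivial, e⟩)

theorem le : h.R' ≤ h.G' := by
  rintro x y (⟨h1, u, v, h2, h3, e⟩ | ⟨d, r, -, e⟩)
  · exact .inl ⟨h1, u, v, h2, h3, c.lev.core.pre.le e⟩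
  · exact .inr ⟨d, r, False.elim, e⟩

theorem cov (x y : h.W) (e : h.G'.Adj x y) : (∃ L ∈ range '' h.Gs', x ∈ L ∧ y ∈ L) ∨
    ∃ β ∈ h.Bs', ∃ a b, β.f a = x ∧ β.f b = y ∧ ¬ β.old.Adj a b := by
  rcases e with ⟨⟨h1, h2, e | ⟨d, h3, h4⟩⟩, u, v, h5, h6, h7⟩ | ⟨d, r, -, e⟩
  · have k1 : h.H.kd x.1 = some (cell c.Gs u) := h1.trans (congrArg c.kd h5)
    have k2 : h.H.kd y.1 = some (cell c.Gs v) := h2.trans (congrArg c.kd h6)
    obtain ⟨γ, hγ, hu, -⟩ := c.cell_two (Option.some.inj (k1.symm.trans (e ▸ k2))) h7.ne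
    rw [c.cell_rng hγ hu] at k1
    refine .inl ⟨_, ⟨_, h.pt_Gs hγ k1, rfl⟩, ?_⟩
    rw [h.range_pt hγ k1]
    exact ⟨⟨rfl, h1⟩, e.symm, h2⟩
  · rw [h.eq_ι h1 h3 h5, h.eq_ι h2 h4 h6]
    rcases c.lev.core.pre.cov u v h7 with ⟨_, ⟨γ, hγ, rfl⟩, ⟨a, rfl⟩, b, rfl⟩ |
      ⟨β, hβ, a, b, rfl, rfl, ho⟩
    · exact .inl ⟨_, ⟨_, h.ι_Gs d hγ, rfl⟩, ⟨a, rfl⟩, b, rfl⟩
    · exact .inr ⟨_, .inl ⟨d, β, hβ, rfl⟩, a, b, rfl, rfl, ho⟩
  · obtain ⟨p, hp⟩ := h.good.cov (.inr d)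
    obtain ⟨j, a, b, -, -, ho, -, rfl, rfl⟩ := e.top hp
    exact .inr ⟨_, .inr ⟨p, j, rfl⟩, a, b, rfl, rfl, ho⟩

theorem low_pt {d : h.Big} {β : Bag U V} (hβ : β ∈ c.Bs) {a b : U} (hab : a ≠ b)
    (e : (h.ι d (β.f a)).1 = (h.ι d (β.f b)).1) : ¬ β.top ∧ β.old.Adj a b := by
  obtain ⟨γ, hγ, h1, h2⟩ := c.cell_two (h.ι_fst.1 e) ((c.lev.core.pre.ind β hβ).inj.ne hab)
  exact c.lev.core.pre.lb _ ⟨γ, hγ, rfl⟩ β hβ a b hab h1 h2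

theorem low_top {d : h.Big} {u v : V} {p : h.Q} {j : c.J} {a b : U} (e : c.G.Adj u v)
    (ho : ¬ (old j).Adj a b) (h1 : h.ι d u = h.tb p j a) (h2 : h.ι d v = h.tb p j b) : False := by
  have e1 := h.G'_ι (d := d).2 e
  rw [h1, h2] at e1
  exact h.not_plain_ι (r := False) (d := d) (u := u) (v := v)
    (h1 ▸ h2 ▸ ⟨_, _, False.elim, h.ed_plain p (h.G'_tb.1 e1) ho⟩)

theorem pre (hthin : ∀ ν ∈ h.N', Thin h.N' (GLk h.G') c.g ν) :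
    Pre c.A h.G' h.R' (range '' h.Gs') h.Bs' c.g where
  le := h.le
  ind := by
    rintro _ (⟨d, β, hβ, rfl⟩ | ⟨p, j, rfl⟩)
    · exact ⟨((h.ι_inj d).comp (c.lev.core.pre.ind β hβ).inj).injOn, fun a _ b _ =>
        h.G'_ι.trans ((c.lev.core.pre.ind β hβ).adj a b)⟩
    · exact ⟨(h.tb_inj p j).injOn, fun a _ b _ => h.G'_tb⟩
  col := by
    rintro _ (⟨d, β, hβ, rfl⟩ | ⟨p, j, rfl⟩) a b
    · exact h.R'_ι.trans (c.lev.core.pre.col β hβ a b)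
    · exact h.R'_tb
  old := by
    rintro _ (⟨d, β, hβ, rfl⟩ | ⟨p, j, rfl⟩)
    exacts [c.lev.core.pre.old β hβ, old_le j]
  cov := h.cov
  thin := hthin
  lb := by
    rintro _ ⟨γ', ⟨γ, -, h2, -⟩, rfl⟩ β hβ a b hab ⟨x, hx⟩ ⟨y, hy⟩
    have e : (β.f a).1 = (β.f b).1 := hx ▸ hy ▸ h2 x y
    rcases hβ with ⟨d, β, hβ, rfl⟩ | ⟨p, j, rfl⟩
    · exact h.low_pt hβ hab e
    · exact absurd (h.tb_fst e).2 hab
  bb := by
    rintro _ (⟨d, β, hβ, rfl⟩ | ⟨p, j, rfl⟩) _ (⟨d', β', hβ', rfl⟩ | ⟨p', j', rfl⟩) a b a' b' e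
      o1 o2 e1 e2
    · have hne : (h.ι d (β.f a)).1 ≠ (h.ι d (β.f b)).1 := fun e' => o1 (h.low_pt hβ e.ne e').2
      have e3 : h.ι d (β.f a) = h.ι d' (β'.f a') := e1
      have e4 : h.ι d (β.f b) = h.ι d' (β'.f b') := e2
      obtain rfl : d = d' := Subtype.ext (h.good.lin _ _ _ _ hne (h.ι_mem d _) (h.ι_mem d _)
        (e3 ▸ h.ι_mem d' _) (e4 ▸ h.ι_mem d' _))
      refine (c.lev.core.pre.bb β hβ β' hβ' a b a' b' e o1 o2 (h.ι_inj d e3)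
        (h.ι_inj d e4)).imp_left ?_
      rintro rfl
      rfl
    · exact (h.low_top (((c.lev.core.pre.ind β hβ).adj a b).2 e) o2 e1 e2).elim
    · have e3 : h.tb p j a = h.ι d' (β'.f a') := e1
      have e4 : h.tb p j b = h.ι d' (β'.f b') := e2
      have e5 := h.G'_tb (p := p) (j := j).2 e
      rw [e3, e4] at e5
      exact (h.low_top (h.G'_ι.1 e5) o1 e3.symm e4.symm).elim
    · exact .inr ⟨trivial, trivial⟩
  low := by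
    rintro _ (⟨d, β, hβ, rfl⟩ | ⟨p, j, rfl⟩) ht
    exacts [c.lev.core.pre.low β hβ ht, absurd trivial ht]
  dis := by
    rintro _ ⟨γ, hγ, rfl⟩ _ ⟨γ', hγ', rfl⟩ hne
    exact h.gdis γ hγ γ' hγ' fun e => hne (by rw [e])

theorem last (hthin : ∀ ν ∈ h.N', Thin h.N' (GLk h.G') c.g ν) (hram : RamOn c.A h.G' h.R' ⊥) :
    Last c.A c.E c.Γ c.RΓ c.Hub h.G' h.R' h.Gs' h.Bs' c.g :=
  ⟨⟨h.pre hthin, h.gind, h.gcol, h.gdis, h.hub⟩, h.kind, hram⟩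

end CH

end Pool.Agent.MP_1c0fc2_co.RE
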