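import Pool.Agent.MP_1c0fc2_co.RE.CloseA

/-! The closing step: every part is a star. -/

open Function Set Relation

namespace Pool.Agent.MP_1c0fc2_co.RE

namespace CH
open CD
variable {U X V : Type} [Finite U] [Finite V] {c : CD U X V} (h : CH c)

instance : Finite h.W := inferInstanceAs (Finite (h.H.V × Option V))

theorem bg_mem {p : h.Q} {j : c.J} {f : Φ j} {a : U}
    (hm : h.H.mem (h.tb p j a).1 (h.bg p f).1) : a = e1 f ∨ a = e2 f :=
  Sym2.mem_iff.1 (xlink_mem (ψ := h.φ p) hm).2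

theorem glk_ι (d : h.Big) (ℓ : Set V) (hℓ : GLk c.G ℓ) : GLk h.G' (h.ι d '' ℓ) := by
  rcases hℓ with ⟨v, rfl⟩ | ⟨a, b, e, rfl⟩
  · exact .inl ⟨_, image_singleton⟩
  · exact .inr ⟨_, _, h.G'_ι.2 e, image_pair _ _ _⟩

theorem star (p : h.Q) (j : c.J) :
    Star h.G' (h.tb p j) (fun a => h.pt (h.tb p j a).1) (Pn j) (fun f : Φ j => range (h.ι (h.bg p f)))
      e1 e2 (fun f : Φ j => image (h.ι (h.bg p f)) '' N0 c) c.g where
  bπ a := ⟨rfl, h.tb_val p j a⟩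
  dis a a' hne := disjoint_left.2 fun _ h1 h2 => hne (h.tb_fst (h1.1.symm.trans h2.1)).2
  sing a ha := by
    refine Subset.antisymm ?_ (singleton_subset_iff.2 ⟨rfl, h.tb_val p j a⟩)
    rintro ⟨n, σ⟩ ⟨h1, h2⟩
    have e : c.kd σ = c.kd (sl j a) := h2.symm.trans ((congrArg h.H.kd h1).trans (h.tb_val p j a))
    refine Prod.ext h1 (?_ : σ = sl j a)
    rcases hs : sl j a with _ | u
    · rw [hs] at e
      exact Option.map_eq_none_iff.1 e
    · rw [hs] at e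
      obtain ⟨w, rfl, hw⟩ := Option.map_eq_some_iff.1 e
      rcases c.cell_or u with h3 | ⟨γ, hγ, hu⟩
      · exact congrArg some (h3 ▸ c.cell_eq.2 hw : w ∈ ({u} : Set V))
      · exact absurd ⟨γ, hγ, u, hu, hs⟩ ha
  ne f := (e_adj f).ne
  xZ f _ hx := h.range_ι.2 ⟨hx.2, hx.1 ▸ h.ed_left p j _⟩
  yZ f _ hx := h.range_ι.2 ⟨hx.2, hx.1 ▸ h.ed_right p j _⟩
  oZ f a h1 h2 := disjoint_left.2 fun _ hx hz =>
    (h.bg_mem (hx.1 ▸ (h.range_ι.1 hz).2)).elim h1 h2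
  ZZ f f' hne := by
    have hd : (h.bg p f).1 ≠ (h.bg p f').1 := fun e => hne (Subtype.ext
      ((e12 f).symm.trans ((congrArg (fun z => z.1.2) ((h.φ p).e_inj e)).trans (e12 f'))))
    by_cases he : (range (h.ι (h.bg p f)) ∩ range (h.ι (h.bg p f'))).Nonempty
    · obtain ⟨z, h1, h2⟩ := he
      obtain ⟨-, m1⟩ := h.range_ι.1 h1
      obtain ⟨-, m2⟩ := h.range_ι.1 h2
      obtain ⟨v, k1, hv⟩ := ((h.φ p).mem_iff _ _).1 m1
      have k2 := xlink_mem (ψ := h.φ p) (hv ▸ m2)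
      rcases v with ⟨j', a⟩ | v
      · obtain rfl : j' = j := k1.1
        refine ⟨a, fun w ⟨w1, w2⟩ => ⟨?_, (h.range_ι.1 w1).1⟩⟩
        by_contra hw
        exact hd (h.good.lin _ _ _ _ (fun e => hw (e.trans hv.symm)) (h.range_ι.1 w1).2 m1
          (h.range_ι.1 w2).2 m2)
      · exact absurd (Subtype.ext ((e12 f).symm.trans ((k1.2.symm.trans k2.2).trans (e12 f')))) hne
    · exact ⟨e1 f, (not_nonempty_iff_eq_empty.1 he).le.trans (empty_subset _)⟩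
  sub := by
    rintro f _ ⟨ν, -, rfl⟩
    exact image_subset_range _ _
  pn := by
    rintro f a ⟨γ, hγ, u, hu, hs⟩ ha
    have hm : h.H.mem (h.tb p j a).1 (h.bg p f).1 := by
      rcases ha with rfl | rfl
      exacts [h.ed_left p j _, h.ed_right p j _]
    refine ⟨range γ, .inl ⟨γ, hγ, rfl⟩, ?_⟩
    rw [h.eq_ι (h.tb_val p j a) hm hs, h.pt_eq, c.cell_rng hγ hu]
  thin := by
    rintro f _ ⟨ν, hν, rfl⟩
    exact (map_stmt _ _ _ _ _ (h.ι_inj _)).1 _ _ _ (h.glk_ι _) (c.lev.core.pre.thin ν hν)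
  tog f := by
    obtain ⟨u, v, huv, -, -, h1, h2⟩ := h.old_ι p (e_adj f)
    obtain ⟨ν, hν, n1, n2⟩ := c.lev.core.pre.tog (c.blue huv).1
    exact ⟨_, ⟨ν, hν, rfl⟩, h1 ▸ mem_image_of_mem _ n1, h2 ▸ mem_image_of_mem _ n2⟩
  adj f := h.G'_tb.2 (old_le j (e_adj f))
  farx f := by
    obtain ⟨u, v, huv, -, -, h1, h2⟩ := h.old_ι p (e_adj f)
    simp only [h1, h2, h.pt_eq]
    exact (map_stmt _ _ _ _ _ (h.ι_inj _)).2 _ _ _ (c.far u v huv)
  fary f := by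
    obtain ⟨u, v, huv, -, -, h1, h2⟩ := h.old_ι p (e_adj f)
    simp only [h1, h2, h.pt_eq]
    exact (map_stmt _ _ _ _ _ (h.ι_inj _)).2 _ _ _ (c.far v u huv.symm)

end CH

end Pool.Agent.MP_1c0fc2_co.RE
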