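import Pool.Agent.MP_1c0fc2_co.RE.CloseB

/-! The closing step: all nodes are thin. -/

open Function Set Relation

namespace Pool.Agent.MP_1c0fc2_co.RE

theorem xclosec_thin {V : Type} {N N' : Set (Set V)} {Lk : Set V → Prop} {g : ℕ} {Y : Set V}
    (h1 : N ⊆ N') (h2 : ∀ ν ∈ N', ν.Nonempty → ν ∈ N) (h : Thin N Lk g Y) : Thin N' Lk g Y := by
  have e : Tog N' = Tog N := funext₂ fun x y => propext
    ⟨fun ⟨ν, n1, n2⟩ => ⟨ν, h2 ν n1 ⟨x, n2.1⟩, n2⟩, fun h => h.mono h1⟩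
  intro C c1 c2 c3
  rw [e] at c3
  have e' : At N' Y C = At N Y C := by simp only [At, e]
  rw [e']
  exact (h C c1 c2 c3).imp_right fun ⟨ℓ, l1, l2, l3, ν, l4, l5⟩ => ⟨ℓ, l1, l2, l3, ν, h1 l4, l5⟩

namespace CH
open CD
variable {U X V : Type} [Finite U] [Finite V] {c : CD U X V} (h : CH c)

/-- the nodes of a copy -/
def loc (p : h.Q) : Set (Set h.W) := ⋃ j, h.SN p j

/-- the vertices of a copy -/
def reg (p : h.Q) : Set h.W := {x | h.Val x ∧ Sum.inl x.1 ∈ (h.φ p).Bag}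

/-- the part of a point -/
def part : c.F.V → c.J
  | .inl z => z.1
  | .inr z => z.1.1

/-- the vertices of a part -/
def regj (p : h.Q) (j : c.J) : Set h.W := {x | h.Val x ∧ ∃ v, part v = j ∧ (h.φ p).v v = x.1}

theorem part_mem {v : c.F.V} {e : c.F.E} (hm : c.F.mem v e) : part v = e.1.1 := by
  rcases v with v | v <;> exact hm.1

theorem pt_regj (p : h.Q) (v : c.F.V) : h.pt ((h.φ p).v v) ⊆ h.regj p (part v) :=
  fun _ hx => ⟨hx.2, v, rfl, hx.1.symm⟩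

theorem ι_regj (p : h.Q) {j : c.J} (f : Φ j) : range (h.ι (h.bg p f)) ⊆ h.regj p j := by
  intro x hx
  obtain ⟨h1, h2⟩ := h.range_ι.1 hx
  obtain ⟨v, k1, hv⟩ := ((h.φ p).mem_iff _ _).1 h2
  exact ⟨h1, v, part_mem k1, hv⟩

theorem SN_regj (p : h.Q) (j : c.J) : ∀ ν ∈ h.SN p j, ν ⊆ h.regj p j := by
  rintro _ (rfl | ⟨a, -, rfl⟩ | ⟨f, ν, -, rfl⟩)
  · rintro _ ⟨a, rfl⟩
    exact ⟨h.tb_val p j a, .inl (j, a), rfl, rfl⟩
  · exact h.pt_regj p (.inl (j, a))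
  · exact (image_subset_range _ _).trans (h.ι_regj p f)

theorem thin_loc {p : h.Q} {j : c.J} {Y : Set h.W} (hY : Y ⊆ h.regj p j)
    (ht : Thin (h.SN p j) (GLk h.G') c.g Y) : Thin (h.loc p) (GLk h.G') c.g Y :=
  parts_stmt _ _ (h.regj p) (h.SN p) _ _ (h.SN_regj p) (fun _ _ hne => disjoint_left.2
    fun _ ⟨_, _, a1, a2⟩ ⟨_, _, b1, b2⟩ => hne (a1.symm.trans
      ((congrArg part ((h.φ p).v_inj (a2.trans b2.symm))).trans b1))) j Y hY ht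

theorem loc_reg (p : h.Q) : ∀ ν ∈ h.loc p, ν ⊆ h.reg p := by
  intro ν hν x hx
  obtain ⟨j, hj⟩ := mem_iUnion.1 hν
  obtain ⟨h1, v, -, h2⟩ := h.SN_regj p j ν hj hx
  exact ⟨h1, .inl v, congrArg Sum.inl h2⟩

theorem loc_sub (p : h.Q) : h.loc p ⊆ h.N' := by
  intro ν hν
  obtain ⟨j, rfl | ⟨a, ⟨γ, hγ, u, hu, hs⟩, rfl⟩ | ⟨f, _, ⟨γ, hγ, rfl⟩ | ⟨β, hβ, rfl⟩, rfl⟩⟩ :=
    mem_iUnion.1 hν
  · exact .inr ⟨_, .inr ⟨p, j, rfl⟩, rfl⟩
  · have k : h.H.kd (h.tb p j a).1 = some (range γ) :=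
      (h.tb_val p j a).trans ((congrArg c.kd hs).trans (congrArg some (c.cell_rng hγ hu)))
    exact .inl ⟨_, h.pt_Gs hγ k, h.range_pt hγ k⟩
  · exact .inl ⟨_, h.ι_Gs _ hγ, range_comp _ _⟩
  · exact .inr ⟨_, .inl ⟨_, β, hβ, rfl⟩, (range_comp _ _).symm⟩

theorem big_form {p : h.Q} {d : h.Big} (hd : Sum.inr d.1 ∈ (h.φ p).Bag) :
    ∃ j, ∃ f : Φ j, d = h.bg p f := by
  obtain ⟨j, a, b, e, he⟩ := h.edge_in hd
  have ho : (old j).Adj a b := h.ed_none.1 (he ▸ d.2)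
  refine ⟨j, ⟨s(a, b), ho⟩, Subtype.ext (he.trans (congrArg (h.φ p).e (Subtype.ext ?_)))⟩
  exact Prod.ext rfl (e12 (j := j) ⟨s(a, b), ho⟩).symm

theorem big_loc {p : h.Q} {d : h.Big} (hd : Sum.inr d.1 ∈ (h.φ p).Bag) {ν : Set V}
    (hν : ν ∈ N0 c) : h.ι d '' ν ∈ h.loc p := by
  obtain ⟨j, f, rfl⟩ := h.big_form hd
  exact mem_iUnion.2 ⟨j, .inr (.inr ⟨f, ν, hν, rfl⟩)⟩

theorem priv (p : h.Q) (z : c.FP) : ∃ (f : Φ z.1.1) (u : V), z.1.2.2 = cell c.Gs u ∧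
    h.pt ((h.φ p).v (.inr z)) = h.ι (h.bg p f) '' cell c.Gs u := by
  obtain ⟨⟨j, f, k⟩, h1, ⟨u, hu⟩, h2⟩ := z
  refine ⟨⟨f, h1⟩, u, hu, ?_⟩
  rw [← h.pt_eq]
  refine congrArg h.pt (h.mb_iff.1 ⟨((h.φ p).mem_iff _ _).2 ⟨_, ?_, rfl⟩,
    ((h.φ p).kd_v _).trans (congrArg some hu)⟩)
  exact ⟨rfl, (e12 (j := j) ⟨f, h1⟩).symm⟩

theorem pt_loc {p : h.Q} {n : h.H.V} (hn : Sum.inl n ∈ (h.φ p).Bag) {γ : X → V} (hγ : γ ∈ c.Gs)
    (hk : h.H.kd n = some (range γ)) : h.pt n ∈ h.loc p := by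
  obtain ⟨⟨j, a⟩ | z, rfl⟩ := xlink_inl hn
  · obtain ⟨x, hx⟩ := h.val_rng (h.tb_val p j a) hk
    exact mem_iUnion.2 ⟨j, .inr (.inl ⟨a, ⟨γ, hγ, _, mem_range_self x, hx⟩, rfl⟩)⟩
  · obtain ⟨f, u, h1, h2⟩ := h.priv p z
    have e : cell c.Gs u = range γ :=
      h1.symm.trans (Option.some.inj (((h.φ p).kd_v _).symm.trans hk))
    rw [h2, e]
    exact mem_iUnion.2 ⟨_, .inr (.inr ⟨f, _, .inl ⟨γ, hγ, rfl⟩, rfl⟩)⟩

theorem sub_loc (ν : Set h.W) (hν : ν ∈ h.N') (hn : ν.Nonempty) : ν ∈ ⋃ p, h.loc p := by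
  rw [mem_iUnion]
  rcases hν with ⟨γ', hγ, rfl⟩ | ⟨_, ⟨d, β, hβ, rfl⟩ | ⟨p, j, rfl⟩, rfl⟩
  · obtain ⟨z, hz⟩ := hn
    obtain ⟨γ, h1, h2, h3⟩ := h.Gs_form hγ hz
    obtain ⟨p, hp⟩ := h.good.cov (.inl z.1)
    rw [h3, h.range_pt h1 h2]
    exact ⟨p, h.pt_loc hp h1 h2⟩
  · obtain ⟨p, hp⟩ := h.good.cov (.inr d.1)
    exact ⟨p, (range_comp (h.ι d) β.f).symm ▸ h.big_loc hp (.inr ⟨β, hβ, rfl⟩)⟩
  · exact ⟨p, mem_iUnion.2 ⟨j, .inl rfl⟩⟩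

theorem tog_loc {p : h.Q} {x y : h.W} (hxy : x ≠ y) (hx : x ∈ h.reg p) (hy : y ∈ h.reg p)
    (ht : Tog h.N' x y) : Tog (h.loc p) x y := by
  by_cases he : x.1 = y.1
  · have k : c.kd x.2 = c.kd y.2 := hx.1.symm.trans ((congrArg h.H.kd he).trans hy.1)
    have hne : x.2 ≠ y.2 := fun e => hxy (Prod.ext he e)
    rcases hs : x.2 with _ | u
    · rw [hs] at k hne
      exact absurd (Option.map_eq_none_iff.1 k.symm).symm hne
    · rw [hs] at k hne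
      obtain ⟨w, hw, k⟩ := Option.map_eq_some_iff.1 k.symm
      obtain ⟨γ, hγ, hu, -⟩ := c.cell_two k.symm fun e => hne (by rw [hw, e])
      exact ⟨_, h.pt_loc hx.2 hγ (hx.1.trans ((congrArg c.kd hs).trans
        (congrArg some (c.cell_rng hγ hu)))), ⟨rfl, hx.1⟩, he.symm, hy.1⟩
  have hin : ∀ d, h.H.mem x.1 d → h.H.mem y.1 d → Sum.inr d ∈ (h.φ p).Bag := fun d h1 h2 =>
    xlink_two h.good (fun e => he (Sum.inl.inj e)) (.inr ⟨_, h1, rfl⟩) (.inr ⟨_, h2, rfl⟩) hx.2 hy.2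
  have hbig : ∀ (d : h.Big) u v, Tog (N0 c) u v → h.ι d u = x → h.ι d v = y →
      Tog (h.loc p) x y := by
    rintro d u v ⟨ν, hν, n1, n2⟩ rfl rfl
    exact ⟨_, h.big_loc (hin _ (h.ι_mem d u) (h.ι_mem d v)) hν, mem_image_of_mem _ n1,
      mem_image_of_mem _ n2⟩
  obtain ⟨_, ⟨γ', ⟨γ, -, h2, -⟩, rfl⟩ | ⟨_, ⟨d, β, hβ, rfl⟩ | ⟨q, j, rfl⟩, rfl⟩, ⟨a, ha⟩, b, hb⟩ := ht
  · exact absurd (ha ▸ hb ▸ h2 a b) he
  · exact hbig d _ _ ⟨_, .inr ⟨β, hβ, rfl⟩, mem_range_self a, mem_range_self b⟩ ha hb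
  · obtain rfl : h.tb q j a = x := ha
    obtain rfl : h.tb q j b = y := hb
    by_cases hq : p = q
    · subst hq
      exact ⟨_, mem_iUnion.2 ⟨j, .inl rfl⟩, mem_range_self a, mem_range_self b⟩
    obtain ⟨d, d1, d2⟩ := h.good.b2 p q hq _ _ (fun e => he (Sum.inl.inj e)) hx.2 hy.2
      ⟨.inl (.inl (j, a)), rfl⟩ ⟨.inl (.inl (j, b)), rfl⟩
    obtain ⟨_, m1, e1⟩ := d1.resolve_left Sum.inl_ne_inr
    obtain ⟨_, m2, e2⟩ := d2.resolve_left Sum.inl_ne_inr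
    obtain rfl := Sum.inl.inj e1
    obtain rfl := Sum.inl.inj e2
    obtain ⟨e, rfl⟩ := h.tb_two (fun e => hxy (by rw [e])) m1 m2
    by_cases ho : (old j).Adj a b
    · obtain ⟨u, v, huv, -, -, e3, e4⟩ := h.old_ι q ho
      exact hbig _ u v (c.lev.core.pre.tog (c.blue huv).1) e3.symm e4.symm
    · obtain ⟨j', a', b', -, -, -, -, e3, e4⟩ := (h.ed_plain q e ho).top (hin _ m1 m2)
      exact ⟨_, mem_iUnion.2 ⟨j', .inl rfl⟩, ⟨a', e3.symm⟩, b', e4.symm⟩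

theorem thin_pt (p : h.Q) (v : c.F.V) : Thin (h.loc p) (GLk h.G') c.g (h.pt ((h.φ p).v v)) := by
  refine h.thin_loc (h.pt_regj p v) ?_
  rcases v with ⟨j, a⟩ | z
  · exact (star_stmt _ _ _ _ _ _ _ _ _ _ _ _ (h.star p j)).2.2.1 a
  · obtain ⟨f, u, -, h2⟩ := h.priv p z
    rw [h2]
    rcases c.cell_or u with h3 | ⟨γ, hγ, hu⟩
    · rw [h3, image_singleton]
      exact thin_of_subsingleton (fun v => .inl ⟨v, rfl⟩) fun C _ _ _ =>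
        subsingleton_singleton.anti fun _ hw => hw.1
    · exact (star_stmt _ _ _ _ _ _ _ _ _ _ _ _ (h.star p z.1.1)).1 _
        (.inr (.inr ⟨f, _, .inl ⟨γ, hγ, (c.cell_rng hγ hu).symm⟩, rfl⟩))

theorem thin_edge (p : h.Q) {d : h.H.E} (hd : Sum.inr d ∈ (h.φ p).Bag) :
    Thin (h.loc p) (GLk h.G') c.g {x | h.Val x ∧ h.H.mem x.1 d} := by
  by_cases hb : h.H.ty d = none
  · obtain ⟨j, f, e⟩ := h.big_form (d := ⟨d, hb⟩) hd
    have e1 : {x : h.W | h.Val x ∧ h.H.mem x.1 d} = range (h.ι (h.bg p f)) :=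
      e ▸ Set.ext fun _ => (h.range_ι (d := ⟨d, hb⟩)).symm
    rw [e1]
    exact h.thin_loc (h.ι_regj p f) ((star_stmt _ _ _ _ _ _ _ _ _ _ _ _ (h.star p j)).2.1 f)
  · obtain ⟨j, a, b, e, rfl⟩ := h.edge_in hd
    have ho : ¬ (old j).Adj a b := fun ho => hb (h.ed_none.2 ho)
    have e1' : {x : h.W | h.Val x ∧ h.H.mem x.1 (h.ed p j e)} =
        h.pt (h.tb p j a).1 ∪ h.pt (h.tb p j b).1 := by
      ext z
      constructor
      · rintro ⟨h1, hz⟩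
        obtain ⟨⟨j', a'⟩ | ⟨⟨j', f', k⟩, h9, _⟩, hm, e'⟩ := ((h.φ p).mem_iff _ _).1 hz
        · obtain ⟨rfl, hm⟩ : j' = j ∧ a' ∈ s(a, b) := hm
          rcases Sym2.mem_iff.1 hm with rfl | rfl
          exacts [.inl ⟨e'.symm, h1⟩, .inr ⟨e'.symm, h1⟩]
        · obtain ⟨rfl, rfl⟩ : j' = j ∧ f' = s(a, b) := hm
          exact absurd h9 ho
      · rintro (⟨h1, h2⟩ | ⟨h1, h2⟩)
        exacts [⟨h2, h1 ▸ h.ed_left p j e⟩, ⟨h2, h1 ▸ h.ed_right p j e⟩]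
    rw [e1']
    refine h.thin_loc (union_subset (h.pt_regj p (.inl (j, a))) (h.pt_regj p (.inl (j, b))))
      ((star_stmt _ _ _ _ _ _ _ _ _ _ _ _ (h.star p j)).2.2.2 a b (h.G'_tb.2 e) fun f => ?_)
    constructor
    · rintro ⟨rfl, rfl⟩
      exact ho (e_adj f)
    · rintro ⟨rfl, rfl⟩
      exact ho (e_adj f).symm

open Classical in
theorem thin_reg (p : h.Q) : Thin (⋃ q, h.loc q) (GLk h.G') c.g (h.reg p) := by
  have hown : ∀ (x : h.W) (n : h.H.V ⊕ h.H.E),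
      (if h.Val x then some (Sum.inl x.1) else none) = some n ↔ h.Val x ∧ n = .inl x.1 := by
    intro x n
    split_ifs with hx
    · exact ⟨fun e => ⟨hx, (Option.some.inj e).symm⟩, fun e => congrArg some e.2.symm⟩
    · exact iff_of_false (by simp) fun e => hx e.1
  refine glue_stmt _ _ _ (fun q => (h.φ q).Bag) h.H.Lk
    (fun x : h.W => if h.Val x then some (Sum.inl x.1) else none) h.reg h.loc _ _ h.good.thin
    (xlink_inter h.good) (fun x n q e => ?_) (fun x q q' e h1 _ => ?_) h.loc_reg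
    (fun q q' x y hxy hx hy ht => h.tog_loc hxy hx hy (ht.mono (h.loc_sub q'))) ?_ p
  · obtain ⟨h1, rfl⟩ := (hown x n).1 e
    exact ⟨fun h2 => h2.2, fun h2 => ⟨h1, h2⟩⟩
  · exact absurd ((if_pos h1.1).symm.trans e) (by simp)
  · rintro q _ (⟨n, rfl⟩ | ⟨d, rfl⟩) hs
    · obtain ⟨v, rfl⟩ := xlink_inl (hs rfl)
      convert h.thin_pt q v using 1
      ext x
      simp only [mem_ofPred_eq, hown]
      constructor
      · rintro ⟨_, rfl, h1, h2⟩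
        exact ⟨(Sum.inl.inj h2).symm, h1⟩
      · exact fun hx => ⟨_, rfl, hx.2, congrArg Sum.inl hx.1.symm⟩
    · convert h.thin_edge q (hs (.inl rfl)) using 1
      ext x
      simp only [mem_ofPred_eq, hown]
      constructor
      · rintro ⟨_, h0, h1, rfl⟩
        obtain ⟨v, h2, h3⟩ := h0.resolve_left Sum.inl_ne_inr
        exact ⟨h1, Sum.inl.inj h3 ▸ h2⟩
      · exact fun hx => ⟨_, .inr ⟨_, hx.2, rfl⟩, hx.1, rfl⟩

theorem thin (ν : Set h.W) (hν : ν ∈ h.N') : Thin h.N' (GLk h.G') c.g ν := by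
  rcases ν.eq_empty_or_nonempty with rfl | hn
  · exact fun C _ _ _ => .inl (eq_empty_of_forall_notMem fun _ hw => hw.1)
  obtain ⟨p, hp⟩ := mem_iUnion.1 (h.sub_loc ν hν hn)
  obtain ⟨j, hj⟩ := mem_iUnion.1 hp
  have hs : (⋃ q, h.loc q) ⊆ h.N' := iUnion_subset h.loc_sub
  exact xclosec_thin hs h.sub_loc (local_stmt _ _ (h.loc p) _ _ _ ν (h.thin_reg p)
    (subset_iUnion _ p) (fun x y hxy hx hy ht => h.tog_loc hxy hx hy (ht.mono hs))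
    (h.loc_reg p ν hp) (h.thin_loc (h.SN_regj p j ν hj)
      ((star_stmt _ _ _ _ _ _ _ _ _ _ _ _ (h.star p j)).1 ν hj)) fun _ hℓ => hℓ.inter ν)

end CH

end Pool.Agent.MP_1c0fc2_co.RE
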