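import Pool.Agent.MP_1c0fc2_co.RE.Star
import Pool.Agent.MP_1c0fc2_co.RE.Link

/-! The closing step of the engine: definitions and basic facts. -/

open Function Set Relation

namespace Pool.Agent.MP_1c0fc2_co.RE

/-- the input of the closing step -/
structure CD (U X V : Type) where
  A : SimpleGraph U
  E : EP U
  Γ : SimpleGraph X
  RΓ : SimpleGraph X
  Hub : Set X
  G : SimpleGraph V
  R : SimpleGraph V
  D : SimpleGraph V
  Gs : Set (X → V)
  Bs : Set (Bag U V)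
  g : ℕ
  ok : E.Ok A
  lev : Lev A E Γ RΓ Hub G R D Gs Bs g
  blue : D ≤ G \ R
  far : FarD D Gs Bs (g + 1)

/-- slots, old edges and red edges of a top bag -/
abbrev Part (U V : Type) : Type := (U → Option V) × SimpleGraph U × SimpleGraph U

namespace CD
variable {U X V : Type} (c : CD U X V)

theorem mem_cell (u : V) : u ∈ cell c.Gs u := .inl rfl

theorem cell_rng {γ : X → V} (hγ : γ ∈ c.Gs) {u : V} (hu : u ∈ range γ) :
    cell c.Gs u = range γ := by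
  ext z
  constructor
  · rintro (rfl | ⟨γ', h1, h2, h3⟩)
    · exact hu
    · rwa [c.lev.core.eq_of_mem hγ h1 hu h2]
  · exact fun h => .inr ⟨γ, hγ, hu, h⟩

theorem cell_or (u : V) : cell c.Gs u = {u} ∨ ∃ γ ∈ c.Gs, u ∈ range γ := by
  by_cases h : ∃ γ ∈ c.Gs, u ∈ range γ
  · exact .inr h
  · refine .inl (Subset.antisymm ?_ (singleton_subset_iff.2 (c.mem_cell u)))
    rintro z (rfl | ⟨γ, h1, h2, -⟩)
    · rfl
    · exact absurd ⟨γ, h1, h2⟩ h

theorem cell_eq {u w : V} : w ∈ cell c.Gs u ↔ cell c.Gs w = cell c.Gs u := by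
  refine ⟨fun h => ?_, fun h => h ▸ c.mem_cell w⟩
  rcases h with rfl | ⟨γ, h1, h2, h3⟩
  · rfl
  · rw [c.cell_rng h1 h2, c.cell_rng h1 h3]

theorem cell_two {u w : V} (h : cell c.Gs u = cell c.Gs w) (huw : u ≠ w) :
    ∃ γ ∈ c.Gs, u ∈ range γ ∧ w ∈ range γ := by
  rcases c.cell_eq.2 h with e | ⟨γ, h1, h2, h3⟩
  · exact absurd e huw
  · exact ⟨γ, h1, h3, h2⟩

theorem cell_ne {u v : V} (h : c.D.Adj u v) : cell c.Gs u ≠ cell c.Gs v := fun e =>
  h.ne (c.far u v h {v} (by simp) (connOn_singleton v) ⟨v, rfl, e ▸ c.mem_cell v⟩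
    ⟨v, rfl, c.mem_cell v⟩)

/-- the kind of a slot -/
def kd (σ : Option V) : Option (Set V) := σ.map (cell c.Gs)

/-- admissible top bags -/
structure POk (j : Part U V) : Prop where
  kind : (j.2.1 = c.E.F ∧ j.2.2 = c.A \ c.E.F) ∨
    (j.2.1 = ⊥ ∧ (j.2.2 = cutG c.A c.E.S ∨ j.2.2 = covG c.A c.E.S))
  old : ∀ a b, j.2.1.Adj a b → ∃ u v, c.D.Adj u v ∧ j.1 a = some u ∧ j.1 b = some v
  pend : ∀ a u, j.1 a = some u → ∃ v, c.D.Adj u v
  inj : ∀ a b, c.kd (j.1 a) = c.kd (j.1 b) → j.1 a = j.1 b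

abbrev J : Type := {j : Part U V // c.POk j}

variable {c}

def sl (j : c.J) : U → Option V := j.1.1
def old (j : c.J) : SimpleGraph U := j.1.2.1
def red (j : c.J) : SimpleGraph U := j.1.2.2

theorem old_le (j : c.J) : old j ≤ c.A := by
  rcases j.2.kind with ⟨h, -⟩ | ⟨h, -⟩
  · exact h.le.trans c.ok.F_le
  · exact h.le.trans bot_le

theorem red_le (j : c.J) : red j ≤ c.A := by
  rcases j.2.kind with ⟨-, h⟩ | ⟨-, h | h⟩
  · exact h.le.trans sdiff_le
  · exact h.le.trans fun _ _ e => e.1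
  · exact h.le.trans fun _ _ e => e.1

theorem old_red (j : c.J) {a b : U} (h : (old j).Adj a b) : ¬ (red j).Adj a b := by
  rcases j.2.kind with ⟨h1, h2⟩ | ⟨h1, -⟩
  · intro e
    have e1 : (c.A \ c.E.F).Adj a b := h2 ▸ e
    exact e1.2 (h1 ▸ h)
  · exact absurd (h1 ▸ h : (⊥ : SimpleGraph U).Adj a b) (by simp)

variable (c)

open Classical in
/-- number of points of each kind on the edges of each type; `none` is the type of big edges -/
noncomputable def prof : Option (Sym2 (Option V) × Prop) → Option (Set V) → ℕ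
  | none, i => if ∃ u, i = some (cell c.Gs u) then 1 else 0
  | some t, i => Sym2.lift ⟨fun σ τ => (if c.kd σ = i then 1 else 0) + (if c.kd τ = i then 1 else 0),
      fun _ _ => add_comm _ _⟩ t.1

abbrev FP : Type := {z : c.J × Sym2 U × Set V // z.2.1 ∈ (old z.1).edgeSet ∧
  (∃ u, z.2.2 = cell c.Gs u) ∧ ∀ a ∈ z.2.1, c.kd (sl z.1 a) ≠ some z.2.2}

abbrev FE : Type := {z : c.J × Sym2 U // z.2 ∈ c.A.edgeSet}

def fkd : (c.J × U) ⊕ c.FP → Option (Set V)
  | .inl z => c.kd (sl z.1 z.2)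
  | .inr z => some z.1.2.2

def fmem : (c.J × U) ⊕ c.FP → c.FE → Prop
  | .inl z, e => z.1 = e.1.1 ∧ z.2 ∈ e.1.2
  | .inr z, e => z.1.1 = e.1.1 ∧ z.1.2.1 = e.1.2

open Classical in
noncomputable def fty (e : c.FE) : Option (Sym2 (Option V) × Prop) :=
  if e.1.2 ∈ (old e.1.1).edgeSet then none
  else some (e.1.2.map (sl e.1.1), e.1.2 ∈ (red e.1.1).edgeSet)

theorem fty_none {e : c.FE} : c.fty e = none ↔ e.1.2 ∈ (old e.1.1).edgeSet := by
  unfold fty
  split_ifs with h <;> simp [h]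

theorem fty_some {e : c.FE} (h : e.1.2 ∉ (old e.1.1).edgeSet) :
    c.fty e = some (e.1.2.map (sl e.1.1), e.1.2 ∈ (red e.1.1).edgeSet) := if_neg h

theorem fshape (e : c.FE) (i : Option (Set V)) :
    {v | c.fmem v e ∧ c.fkd v = i}.ncard = c.prof (c.fty e) i := by
  classical
  obtain ⟨⟨j, f⟩, hf⟩ := e
  induction f using Sym2.ind with | _ a b
  have hab : a ≠ b := (c.A.mem_edgeSet.1 hf).ne
  by_cases ho : s(a, b) ∈ (old j).edgeSet
  · rw [c.fty_none.2 ho]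
    obtain ⟨u, v, huv, ha, hb⟩ := j.2.old a b ho
    have ka : c.kd (sl j a) = some (cell c.Gs u) := congrArg c.kd ha
    have kb : c.kd (sl j b) = some (cell c.Gs v) := congrArg c.kd hb
    have hne := c.cell_ne huv
    by_cases hi : ∃ w, i = some (cell c.Gs w)
    · simp only [prof, if_pos hi]
      obtain ⟨w, rfl⟩ := hi
      rw [ncard_eq_one]
      have key : ∀ a b : U, ∀ hf, ∀ u v, cell c.Gs u ≠ cell c.Gs v →
          c.kd (sl j a) = some (cell c.Gs u) → c.kd (sl j b) = some (cell c.Gs v) →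
          {x | c.fmem x ⟨(j, s(a, b)), hf⟩ ∧ c.fkd x = some (cell c.Gs u)} = {.inl (j, a)} := by
        intro a b hf u v hne ka kb
        ext x
        constructor
        · rintro ⟨h1, h2⟩
          rcases x with ⟨j', a'⟩ | ⟨⟨j', f', k⟩, h3, h4, h5⟩
          · obtain ⟨rfl, h1⟩ : j' = j ∧ a' ∈ s(a, b) := h1
            rcases Sym2.mem_iff.1 h1 with rfl | rfl
            · rfl
            · exact absurd (Option.some.inj (h2.symm.trans kb)) hne
          · obtain ⟨rfl, rfl⟩ : j' = j ∧ f' = s(a, b) := h1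
            exact absurd (ka.trans h2.symm) (h5 a (Sym2.mem_mk_left a b))
        · rintro rfl
          exact ⟨⟨rfl, Sym2.mem_mk_left a b⟩, ka⟩
      by_cases h1 : cell c.Gs w = cell c.Gs u
      · exact ⟨_, h1 ▸ key a b hf u v hne ka kb⟩
      by_cases h2 : cell c.Gs w = cell c.Gs v
      · have := key b a (Sym2.eq_swap ▸ hf) v u hne.symm kb ka
        simp only [Sym2.eq_swap (a := b)] at this
        exact ⟨_, h2 ▸ this⟩
      refine ⟨.inr ⟨(j, s(a, b), cell c.Gs w), ho, ⟨w, rfl⟩, fun a' h => ?_⟩, ?_⟩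
      · rcases Sym2.mem_iff.1 h with rfl | rfl
        · exact fun e => h1 (Option.some.inj (e.symm.trans ka))
        · exact fun e => h2 (Option.some.inj (e.symm.trans kb))
      · ext x
        constructor
        · rintro ⟨h3, h4⟩
          rcases x with ⟨j', a'⟩ | ⟨⟨j', f', k⟩, h5⟩
          · obtain ⟨rfl, h3⟩ : j' = j ∧ a' ∈ s(a, b) := h3
            rcases Sym2.mem_iff.1 h3 with rfl | rfl
            · exact absurd (Option.some.inj (h4.symm.trans ka)) h1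
            · exact absurd (Option.some.inj (h4.symm.trans kb)) h2
          · obtain ⟨rfl, rfl⟩ : j' = j ∧ f' = s(a, b) := h3
            obtain rfl : k = cell c.Gs w := Option.some.inj h4
            rfl
        · rintro rfl
          exact ⟨⟨rfl, rfl⟩, rfl⟩
    · simp only [prof, if_neg hi]
      rw [eq_empty_of_forall_notMem (s := {v | c.fmem v ⟨(j, s(a, b)), hf⟩ ∧ c.fkd v = i}),
        ncard_empty]
      rintro (⟨j', a'⟩ | ⟨⟨j', f', k⟩, h5, ⟨w, h6⟩, h7⟩) ⟨h3, h4⟩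
      · obtain ⟨rfl, h3⟩ : j' = j ∧ a' ∈ s(a, b) := h3
        rcases Sym2.mem_iff.1 h3 with rfl | rfl
        · exact hi ⟨u, h4.symm.trans ka⟩
        · exact hi ⟨v, h4.symm.trans kb⟩
      · exact hi ⟨w, h4.symm.trans (congrArg some h6)⟩
  · rw [c.fty_some ho]
    simp only [prof, Sym2.map_mk, Sym2.lift_mk]
    have e1 : {v | c.fmem v ⟨(j, s(a, b)), hf⟩ ∧ c.fkd v = i} =
        {v | v = .inl (j, a) ∧ c.kd (sl j a) = i} ∪ {v | v = .inl (j, b) ∧ c.kd (sl j b) = i} := by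
      ext x
      constructor
      · rintro ⟨h3, h4⟩
        rcases x with ⟨j', a'⟩ | ⟨⟨j', f', k⟩, h5, h6⟩
        · obtain ⟨rfl, h3⟩ : j' = j ∧ a' ∈ s(a, b) := h3
          rcases Sym2.mem_iff.1 h3 with rfl | rfl
          exacts [.inl ⟨rfl, h4⟩, .inr ⟨rfl, h4⟩]
        · obtain ⟨rfl, rfl⟩ : j' = j ∧ f' = s(a, b) := h3
          exact absurd h5 ho
      · rintro (⟨rfl, h⟩ | ⟨rfl, h⟩)
        exacts [⟨⟨rfl, Sym2.mem_mk_left a b⟩, h⟩, ⟨⟨rfl, Sym2.mem_mk_right a b⟩, h⟩]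
    rw [e1]
    by_cases h1 : c.kd (sl j a) = i <;> by_cases h2 : c.kd (sl j b) = i <;> simp [h1, h2]
    exact ncard_pair (fun e => hab.symm (congrArg Prod.snd (Sum.inl.inj e)))

/-- the hypergraph of all parts -/
noncomputable def F [Finite U] [Finite V] : MH c.prof where
  V := (c.J × U) ⊕ c.FP
  E := c.FE
  kd := c.fkd
  ty := c.fty
  mem := c.fmem
  shape := c.fshape

theorem F_two {j j' : c.J} {a b : U} (hab : a ≠ b) {e : c.FE} (h1 : c.fmem (.inl (j, a)) e)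
    (h2 : c.fmem (.inl (j', b)) e) : e.1 = (j, s(a, b)) :=
  Prod.ext h1.1.symm ((Sym2.mem_and_mem_iff hab).1 ⟨h1.2, h2.2⟩)

theorem F_lin [Finite U] [Finite V] : c.F.Lin := by
  intro e e' u v huv h1 h2 h3 h4
  rcases u with ⟨j, a⟩ | z
  · rcases v with ⟨j', b⟩ | z
    · obtain rfl : j = j' := h1.1.trans h2.1.symm
      have hab : a ≠ b := fun e => huv (by rw [e])
      exact Subtype.ext ((c.F_two hab h1 h2).trans (c.F_two hab h3 h4).symm)
    · exact Subtype.ext (Prod.ext (h2.1.symm.trans h4.1) (h2.2.symm.trans h4.2))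
  · exact Subtype.ext (Prod.ext (h1.1.symm.trans h3.1) (h1.2.symm.trans h3.2))

end CD

/-- a tree-like system of copies of the hypergraph of parts -/
structure CH {U X V : Type} [Finite U] [Finite V] (c : CD U X V) where
  H : MH c.prof
  Q : Type
  φ : Q → MEmb c.F H
  good : Good φ c.g

namespace CH
open CD
variable {U X V : Type} [Finite U] [Finite V] {c : CD U X V} (h : CH c)

/-- vertices of the new graph -/
abbrev W : Type := h.H.V × Option V

/-- the slot fits the kind of the point -/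
def Val (x : h.W) : Prop := h.H.kd x.1 = c.kd x.2

/-- the cell of a point -/
def pt (n : h.H.V) : Set h.W := {x | x.1 = n ∧ h.Val x}

/-- big edges -/
abbrev Big : Type := {d : h.H.E // h.H.ty d = none}

theorem big_ex (d : h.Big) (u : V) :
    ∃ n, {v | h.H.mem v d.1 ∧ h.H.kd v = some (cell c.Gs u)} = {n} := by
  rw [← ncard_eq_one, h.H.shape, d.2]
  exact if_pos ⟨u, rfl⟩

/-- the point of a big edge that carries the cell of `u` -/
noncomputable def mb (d : h.Big) (u : V) : h.H.V := (h.big_ex d u).choose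

theorem mb_iff {d : h.Big} {u : V} {n : h.H.V} :
    (h.H.mem n d.1 ∧ h.H.kd n = some (cell c.Gs u)) ↔ n = h.mb d u :=
  Set.ext_iff.1 (h.big_ex d u).choose_spec n

/-- the copy of the old graph on a big edge -/
noncomputable def ι (d : h.Big) (u : V) : h.W := (h.mb d u, some u)

theorem ι_inj (d : h.Big) : Injective (h.ι d) :=
  fun _ _ e => Option.some.inj (congrArg Prod.snd e)

theorem ι_val (d : h.Big) (u : V) : h.Val (h.ι d u) := (h.mb_iff.2 rfl).2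

theorem ι_mem (d : h.Big) (u : V) : h.H.mem (h.ι d u).1 d.1 := (h.mb_iff.2 rfl).1

theorem eq_ι {d : h.Big} {x : h.W} {u : V} (hx : h.Val x) (hm : h.H.mem x.1 d.1)
    (e : x.2 = some u) : x = h.ι d u :=
  Prod.ext (h.mb_iff.1 ⟨hm, hx.trans (congrArg c.kd e)⟩) e

theorem range_ι {d : h.Big} {x : h.W} : x ∈ range (h.ι d) ↔ h.Val x ∧ h.H.mem x.1 d.1 := by
  refine ⟨?_, fun ⟨h1, h2⟩ => ?_⟩
  · rintro ⟨u, rfl⟩
    exact ⟨h.ι_val d u, h.ι_mem d u⟩
  · obtain ⟨n, _ | u⟩ := x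
    · have e := h.H.shape d.1 none
      rw [d.2] at e
      have e1 : {v | h.H.mem v d.1 ∧ h.H.kd v = none} = ∅ :=
        (ncard_eq_zero (toFinite _)).1 (e.trans (if_neg (by simp)))
      exact absurd (e1 ▸ ⟨h2, h1⟩ : n ∈ (∅ : Set h.H.V)) (notMem_empty n)
    · exact ⟨u, (h.eq_ι h1 h2 rfl).symm⟩

theorem ι_fst {d : h.Big} {u v : V} : (h.ι d u).1 = (h.ι d v).1 ↔ cell c.Gs u = cell c.Gs v :=
  ⟨fun e => Option.some.inj ((h.ι_val d u).symm.trans (e ▸ h.ι_val d v)),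
    fun e => h.mb_iff.1 ⟨h.ι_mem d u, e ▸ h.ι_val d u⟩⟩

theorem pt_eq (d : h.Big) (u : V) : h.pt (h.ι d u).1 = h.ι d '' cell c.Gs u := by
  ext x
  constructor
  · rintro ⟨h1, h2⟩
    obtain ⟨w, rfl⟩ := h.range_ι.2 ⟨h2, h1 ▸ h.ι_mem d u⟩
    exact ⟨w, c.cell_eq.2 (h.ι_fst.1 h1), rfl⟩
  · rintro ⟨w, hw, rfl⟩
    exact ⟨h.ι_fst.2 (c.cell_eq.1 hw), h.ι_val d w⟩

/-- the top bags -/
def tb (p : h.Q) (j : c.J) (a : U) : h.W := ((h.φ p).v (.inl (j, a)), sl j a)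

theorem tb_val (p : h.Q) (j : c.J) (a : U) : h.Val (h.tb p j a) := (h.φ p).kd_v _

theorem tb_fst {p : h.Q} {j j' : c.J} {a b : U} (e : (h.tb p j a).1 = (h.tb p j' b).1) :
    j = j' ∧ a = b :=
  Prod.mk.inj (Sum.inl.inj ((h.φ p).v_inj e))

theorem tb_inj (p : h.Q) (j : c.J) : Injective (h.tb p j) :=
  fun _ _ e => (h.tb_fst (congrArg Prod.fst e)).2

/-- the hyperedge of an edge of a top bag -/
def ed (p : h.Q) (j : c.J) {a b : U} (e : c.A.Adj a b) : h.H.E := (h.φ p).e ⟨(j, s(a, b)), e⟩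

theorem ed_left (p : h.Q) (j : c.J) {a b : U} (e : c.A.Adj a b) :
    h.H.mem (h.tb p j a).1 (h.ed p j e) :=
  ((h.φ p).mem_iff _ _).2 ⟨.inl (j, a), ⟨rfl, Sym2.mem_mk_left a b⟩, rfl⟩

theorem ed_right (p : h.Q) (j : c.J) {a b : U} (e : c.A.Adj a b) :
    h.H.mem (h.tb p j b).1 (h.ed p j e) :=
  ((h.φ p).mem_iff _ _).2 ⟨.inl (j, b), ⟨rfl, Sym2.mem_mk_right a b⟩, rfl⟩

theorem ed_none {p : h.Q} {j : c.J} {a b : U} {e : c.A.Adj a b} :
    h.H.ty (h.ed p j e) = none ↔ (old j).Adj a b := by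
  rw [ed, (h.φ p).ty_e]
  exact c.fty_none

theorem ed_some (p : h.Q) {j : c.J} {a b : U} (e : c.A.Adj a b) (ho : ¬ (old j).Adj a b) :
    h.H.ty (h.ed p j e) = some (s(sl j a, sl j b), (red j).Adj a b) :=
  ((h.φ p).ty_e _).trans (c.fty_some ho)

/-- a hyperedge through two points of a top bag belongs to an edge of the bag -/
theorem tb_two {p : h.Q} {j : c.J} {a b : U} (hab : a ≠ b) {d : h.H.E}
    (h1 : h.H.mem (h.tb p j a).1 d) (h2 : h.H.mem (h.tb p j b).1 d) :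
    ∃ e : c.A.Adj a b, d = h.ed p j e := by
  obtain ⟨⟨z, hz⟩, rfl⟩ := h.good.str p _ _ d
    (fun e => hab (congrArg Prod.snd (Sum.inl.inj e))) h1 h2
  obtain rfl : z = (j, s(a, b)) := c.F_two hab (xlink_mem h1) (xlink_mem h2)
  exact ⟨hz, rfl⟩

theorem edge_in {p : h.Q} {d : h.H.E} (hd : Sum.inr d ∈ (h.φ p).Bag) :
    ∃ j a b, ∃ e : c.A.Adj a b, d = h.ed p j e := by
  obtain ⟨x | ⟨⟨j, f⟩, hf⟩, e⟩ := hd
  · exact absurd e Sum.inl_ne_inr
  · induction f using Sym2.ind with | _ a b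
    exact ⟨j, a, b, hf, (Sum.inr.inj e).symm⟩

/-- two vertices in one point or on one big edge -/
def Lo (x y : h.W) : Prop :=
  h.Val x ∧ h.Val y ∧ (x.1 = y.1 ∨ ∃ d : h.Big, h.H.mem x.1 d.1 ∧ h.H.mem y.1 d.1)

/-- the copies of a graph on the old vertex set -/
def lift (K : SimpleGraph V) : SimpleGraph h.W where
  Adj x y := h.Lo x y ∧ ∃ u v, x.2 = some u ∧ y.2 = some v ∧ K.Adj u v
  symm := ⟨fun _ _ ⟨⟨h1, h2, h3⟩, u, v, h4, h5, h6⟩ => ⟨⟨h2, h1,
    h3.imp Eq.symm fun ⟨d, e⟩ => ⟨d, e.symm⟩⟩, v, u, h5, h4, h6.symm⟩⟩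
  loopless := ⟨fun _ ⟨_, _, _, h4, h5, h6⟩ => h6.ne (Option.some.inj (h4.symm.trans h5))⟩

/-- the edge on the plain hyperedge `d` -/
def PlOn (d : h.H.E) (r : Prop) (x y : h.W) : Prop :=
  h.Val x ∧ h.Val y ∧ x.1 ≠ y.1 ∧ h.H.ty d = some (s(x.2, y.2), r) ∧ h.H.mem x.1 d ∧ h.H.mem y.1 d

/-- plain edges; only the red ones if `only` holds -/
def plain (only : Prop) : SimpleGraph h.W where
  Adj x y := ∃ d r, (only → r) ∧ h.PlOn d r x y
  symm := ⟨fun _ _ ⟨d, r, h0, h1, h2, h3, h4, h5, h6⟩ =>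
    ⟨d, r, h0, h2, h1, h3.symm, Sym2.eq_swap ▸ h4, h6, h5⟩⟩
  loopless := ⟨fun _ ⟨_, _, _, _, _, h3, _⟩ => h3 rfl⟩

def G' : SimpleGraph h.W := h.lift c.G ⊔ h.plain False
def R' : SimpleGraph h.W := h.lift c.R ⊔ h.plain True

theorem ed_plain (p : h.Q) {j : c.J} {a b : U} (e : c.A.Adj a b) (ho : ¬ (old j).Adj a b) :
    h.PlOn (h.ed p j e) ((red j).Adj a b) (h.tb p j a) (h.tb p j b) :=
  ⟨h.tb_val p j a, h.tb_val p j b, fun e' => e.ne (h.tb_fst e').2, h.ed_some p e ho,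
    h.ed_left p j e, h.ed_right p j e⟩

/-- a plain edge whose hyperedge lies in the copy `p` is an edge of a top bag of `p` -/
theorem PlOn.top {h : CH c} {d : h.H.E} {r : Prop} {x y : h.W} (hp : h.PlOn d r x y) {p : h.Q}
    (hd : Sum.inr d ∈ (h.φ p).Bag) : ∃ j a b, ∃ e : c.A.Adj a b, d = h.ed p j e ∧
      ¬ (old j).Adj a b ∧ r = (red j).Adj a b ∧ x = h.tb p j a ∧ y = h.tb p j b := by
  obtain ⟨h1, h2, h3, h4, h5, h6⟩ := hp
  obtain ⟨j, a, b, e, rfl⟩ := h.edge_in hd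
  have ho : ¬ (old j).Adj a b := fun ho => by
    rw [h.ed_none.2 ho] at h4
    exact absurd h4 (by simp)
  obtain ⟨h7, h8⟩ := Prod.mk.inj (Option.some.inj (h4.symm.trans (h.ed_some p e ho)))
  have key : ∀ z : h.W, h.H.mem z.1 (h.ed p j e) →
      z.1 = (h.tb p j a).1 ∨ z.1 = (h.tb p j b).1 := by
    intro z hz
    obtain ⟨⟨j', a'⟩ | ⟨⟨j', f', k⟩, h9, _⟩, hm, e'⟩ := ((h.φ p).mem_iff _ _).1 hz
    · obtain ⟨rfl, hm⟩ : j' = j ∧ a' ∈ s(a, b) := hm
      rcases Sym2.mem_iff.1 hm with rfl | rfl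
      exacts [.inl e'.symm, .inr e'.symm]
    · obtain ⟨rfl, rfl⟩ : j' = j ∧ f' = s(a, b) := hm
      exact absurd h9 ho
  have fin : ∀ a b : U, s(x.2, y.2) = s(sl j a, sl j b) → x.1 = (h.tb p j a).1 →
      y.1 = (h.tb p j b).1 → x = h.tb p j a ∧ y = h.tb p j b := by
    intro a b h7 e1 e2
    rcases Sym2.eq_iff.1 h7 with ⟨e3, e4⟩ | ⟨e3, e4⟩
    · exact ⟨Prod.ext e1 e3, Prod.ext e2 e4⟩
    · have e5 : sl j a = sl j b := j.2.inj a b
        ((h.tb_val p j a).symm.trans ((congrArg h.H.kd e1.symm).trans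
          (Eq.trans h1 (congrArg c.kd e3))))
      exact ⟨Prod.ext e1 (e3.trans e5.symm), Prod.ext e2 (e4.trans e5)⟩
  rcases key x h5 with e1 | e1 <;> rcases key y h6 with e2 | e2
  · exact absurd (e1.trans e2.symm) h3
  · exact ⟨j, a, b, e, rfl, ho, h8, fin a b h7 e1 e2⟩
  · refine ⟨j, b, a, e.symm, ?_, fun h' => ho h'.symm, h8.trans (propext ⟨.symm, .symm⟩),
      fin b a (h7.trans Sym2.eq_swap) e1 e2⟩
    exact congrArg (h.φ p).e (Subtype.ext (Prod.ext rfl Sym2.eq_swap))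
  · exact absurd (e1.trans e2.symm) h3

/-- an old edge of a top bag is a pending edge on its big edge -/
theorem old_ι (p : h.Q) {j : c.J} {a b : U} (ho : (old j).Adj a b) :
    ∃ u v, c.D.Adj u v ∧ sl j a = some u ∧ sl j b = some v ∧
      h.tb p j a = h.ι ⟨h.ed p j (old_le j ho), h.ed_none.2 ho⟩ u ∧
      h.tb p j b = h.ι ⟨h.ed p j (old_le j ho), h.ed_none.2 ho⟩ v := by
  obtain ⟨u, v, huv, ha, hb⟩ := j.2.old a b ho
  exact ⟨u, v, huv, ha, hb, h.eq_ι (h.tb_val p j a) (h.ed_left p j _) ha,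
    h.eq_ι (h.tb_val p j b) (h.ed_right p j _) hb⟩

theorem lift_ι {K : SimpleGraph V} {d : h.Big} {u v : V} :
    (h.lift K).Adj (h.ι d u) (h.ι d v) ↔ K.Adj u v := by
  refine ⟨?_, fun e => ⟨⟨h.ι_val d u, h.ι_val d v, .inr ⟨d, h.ι_mem d u, h.ι_mem d v⟩⟩,
    u, v, rfl, rfl, e⟩⟩
  rintro ⟨-, u', v', h1, h2, e⟩
  rwa [Option.some.inj h1, Option.some.inj h2]

theorem not_plain_ι {r : Prop} {d : h.Big} {u v : V} : ¬ (h.plain r).Adj (h.ι d u) (h.ι d v) := by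
  rintro ⟨d', r', -, -, -, h3, h4, h5, h6⟩
  rw [h.good.lin d' d.1 _ _ h3 h5 h6 (h.ι_mem d u) (h.ι_mem d v), d.2] at h4
  exact absurd h4 (by simp)

theorem G'_ι {d : h.Big} {u v : V} : h.G'.Adj (h.ι d u) (h.ι d v) ↔ c.G.Adj u v :=
  ⟨fun e => h.lift_ι.1 (e.resolve_right h.not_plain_ι), fun e => .inl (h.lift_ι.2 e)⟩

theorem R'_ι {d : h.Big} {u v : V} : h.R'.Adj (h.ι d u) (h.ι d v) ↔ c.R.Adj u v :=
  ⟨fun e => h.lift_ι.1 (e.resolve_right h.not_plain_ι), fun e => .inl (h.lift_ι.2 e)⟩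

theorem G'_tb {p : h.Q} {j : c.J} {a b : U} :
    h.G'.Adj (h.tb p j a) (h.tb p j b) ↔ c.A.Adj a b := by
  constructor
  · intro e
    have hab : a ≠ b := fun e' => e.ne (by rw [e'])
    rcases e with ⟨⟨-, -, e | ⟨d, h1, h2⟩⟩, -⟩ | ⟨d, r, -, -, -, -, -, h1, h2⟩
    · exact absurd (h.tb_fst e).2 hab
    · exact (h.tb_two hab h1 h2).1
    · exact (h.tb_two hab h1 h2).1
  · intro e
    by_cases ho : (old j).Adj a b
    · obtain ⟨u, v, huv, -, -, e1, e2⟩ := h.old_ι p ho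
      rw [e1, e2]
      exact h.G'_ι.2 (c.blue huv).1
    · exact .inr ⟨_, _, False.elim, h.ed_plain p e ho⟩

theorem R'_tb {p : h.Q} {j : c.J} {a b : U} :
    h.R'.Adj (h.tb p j a) (h.tb p j b) ↔ (red j).Adj a b := by
  by_cases ho : (old j).Adj a b
  · obtain ⟨u, v, huv, -, -, e1, e2⟩ := h.old_ι p ho
    rw [e1, e2, h.R'_ι]
    exact iff_of_false (c.blue huv).2 (old_red j ho)
  constructor
  · intro e
    have hab : a ≠ b := fun e' => e.ne (by rw [e'])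
    rcases e with ⟨⟨-, -, e | ⟨d, h1, h2⟩⟩, -⟩ | ⟨d, r, h0, -, -, -, h3, h1, h2⟩
    · exact absurd (h.tb_fst e).2 hab
    · obtain ⟨e, e'⟩ := h.tb_two hab h1 h2
      exact absurd (h.ed_none.1 (e' ▸ d.2)) ho
    · obtain ⟨e, rfl⟩ := h.tb_two hab h1 h2
      exact (Prod.mk.inj (Option.some.inj (h3.symm.trans (h.ed_some p e ho)))).2 ▸ h0 trivial
  · exact fun e => .inr ⟨_, _, fun _ => e, h.ed_plain p (red_le j e) ho⟩

/-- the new copies of `Γ` -/
def Gs' : Set (X → h.W) :=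
  {γ' | ∃ γ ∈ c.Gs, (∀ x y, (γ' x).1 = (γ' y).1) ∧ ∀ x, (γ' x).2 = some (γ x) ∧ h.Val (γ' x)}

/-- the new bags -/
def Bs' : Set (Bag U h.W) :=
  {β' | (∃ d : h.Big, ∃ β ∈ c.Bs, β' = ⟨h.ι d ∘ β.f, β.old, β.red, β.top⟩) ∨
    ∃ p j, β' = ⟨h.tb p j, old j, red j, True⟩}

/-- the new nodes -/
def N' : Set (Set h.W) := Nodes (range '' h.Gs') h.Bs'

/-- the old nodes -/
def N0 (c : CD U X V) : Set (Set V) := Nodes (range '' c.Gs) c.Bs

/-- old edges of a part -/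
abbrev Φ (j : c.J) : Type := {f : Sym2 U // f ∈ (old j).edgeSet}

noncomputable def e1 {j : c.J} (f : Φ j) : U := f.1.out.1
noncomputable def e2 {j : c.J} (f : Φ j) : U := f.1.out.2

omit [Finite U] [Finite V] in
theorem e12 {j : c.J} (f : Φ j) : s(e1 f, e2 f) = f.1 := Quot.out_eq f.1

omit [Finite U] [Finite V] in
theorem e_adj {j : c.J} (f : Φ j) : (old j).Adj (e1 f) (e2 f) := by
  rw [← SimpleGraph.mem_edgeSet, e12]
  exact f.2

/-- the big edge of an old edge -/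
noncomputable def bg (p : h.Q) {j : c.J} (f : Φ j) : h.Big :=
  ⟨h.ed p j (old_le j (e_adj f)), h.ed_none.2 (e_adj f)⟩

/-- the vertices of a part that sit in copies of `Γ` -/
def Pn (j : c.J) : Set U := {a | ∃ γ ∈ c.Gs, ∃ u ∈ range γ, sl j a = some u}

/-- the nodes of a part -/
def SN (p : h.Q) (j : c.J) : Set (Set h.W) :=
  StarN (h.tb p j) (fun a => h.pt (h.tb p j a).1) (Pn j) fun f : Φ j => image (h.ι (h.bg p f)) '' N0 c

end CH

end Pool.Agent.MP_1c0fc2_co.RE
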