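import Mathlib
import Pool.Agent.MP_1c0fc2_co.Defs

/-! Definitions for the proof that Ramsey equivalent connected graphs are isomorphic. -/

open Function Set Relation

namespace Pool.Agent.MP_1c0fc2_co.RE

section Graphs
variable {U V W : Type}

/-- `C` is connected for the relation `R` -/
def ConnOn (R : V → V → Prop) (C : Set V) : Prop :=
  ∀ a ∈ C, ∀ b ∈ C, ReflTransGen (fun x y => x ∈ C ∧ y ∈ C ∧ R x y) a b

/-- `S` is 2-connected in `J` -/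
def TwoConn (J : SimpleGraph V) (S : Set V) : Prop :=
  3 ≤ S.ncard ∧ ∀ v, ConnOn J.Adj (S \ {v})

/-- twice the number of edges inside `S` -/
noncomputable def ec (J : SimpleGraph V) (S : Set V) : ℕ :=
  {p : V × V | p.1 ∈ S ∧ p.2 ∈ S ∧ J.Adj p.1 p.2}.ncard

/-- neighbours of `C` inside `S` -/
def Nb (J : SimpleGraph V) (S C : Set V) : Set V := {x | x ∈ S ∧ ∃ c ∈ C, J.Adj x c}

/-- clique with at most two vertices -/
def Cq (J : SimpleGraph V) (τ : Set V) : Prop :=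
  τ.Subsingleton ∨ ∃ a b, J.Adj a b ∧ τ = {a, b}

/-- injective homomorphism on `S` -/
def IHo (J : SimpleGraph V) (J' : SimpleGraph W) (f : V → W) (S : Set V) : Prop :=
  InjOn f S ∧ ∀ x ∈ S, ∀ y ∈ S, J.Adj x y → J'.Adj (f x) (f y)

/-- injective homomorphism -/
def IH (J : SimpleGraph V) (J' : SimpleGraph W) (f : V → W) : Prop :=
  Injective f ∧ ∀ x y, J.Adj x y → J'.Adj (f x) (f y)

/-- `J` is a subgraph of `J'` up to isomorphism -/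
def In (J : SimpleGraph V) (J' : SimpleGraph W) : Prop := ∃ f, IH J J' f

/-- induced embedding on `S` -/
def Ind (J : SimpleGraph V) (J' : SimpleGraph W) (f : V → W) (S : Set V) : Prop :=
  InjOn f S ∧ ∀ x ∈ S, ∀ y ∈ S, (J'.Adj (f x) (f y) ↔ J.Adj x y)

/-- `S'` carries a torso of `J[S]` that embeds in `H` -/
def Torso (H : SimpleGraph W) (J : SimpleGraph V) (S S' : Set V) : Prop :=
  S' ⊆ S ∧ S' ≠ S ∧ 3 ≤ S'.ncard ∧ ∃ f : V → W, IHo J H f S' ∧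
    ∀ C, C ⊆ S \ S' → ConnOn J.Adj C → Cq H (f '' Nb J S' C)

/-- everywhere stiff -/
def ES (H : SimpleGraph W) (J : SimpleGraph V) (S : Set V) : Prop :=
  TwoConn J S ∧ ∀ S', ¬ Torso H J S S'

/-- stiff at the root edge `a b` -/
def RS (H : SimpleGraph W) (J : SimpleGraph V) (S : Set V) (a b : V) : Prop :=
  a ∈ S ∧ b ∈ S ∧ J.Adj a b ∧ TwoConn J S ∧ ∀ S', a ∈ S' → b ∈ S' → ¬ Torso H J S S'

/-- triangle -/
def Tri (J : SimpleGraph V) (S : Set V) : Prop :=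
  ∃ a b c, J.Adj a b ∧ J.Adj a c ∧ J.Adj b c ∧ S = {a, b, c}

/-- matching -/
def Mat (M : SimpleGraph V) : Prop := ∀ a b c, M.Adj a b → M.Adj a c → b = c

/-- bipartite -/
def Bip (M : SimpleGraph V) : Prop := ∃ s : V → Bool, ∀ a b, M.Adj a b → s a ≠ s b

/-- `M` is an induced matching of `A` -/
def IMat (A M : SimpleGraph V) : Prop :=
  M ≤ A ∧ Mat M ∧ ∀ a b c d, M.Adj a b → M.Adj c d → A.Adj a c → c = b

/-- independent set -/
def Indp (A : SimpleGraph V) (I : Set V) : Prop := ∀ a ∈ I, ∀ b ∈ I, ¬ A.Adj a b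

/-- no two vertices of `I` have a common neighbour -/
def NoCom (A : SimpleGraph V) (I : Set V) : Prop :=
  ∀ a ∈ I, ∀ b ∈ I, ∀ x, A.Adj a x → A.Adj b x → a = b

/-- no path of `F` between the ends of an edge of `A` avoids that edge -/
def NoBack (A F : SimpleGraph V) : Prop :=
  ∀ a b, A.Adj a b → ¬ ReflTransGen (fun x y => F.Adj x y ∧ s(x, y) ≠ s(a, b)) a b

/-- colour class: `true` is red -/
def cc (G R : SimpleGraph V) : Bool → SimpleGraph V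
  | true => R
  | false => G \ R

/-- `Br` is the branch of the object `O` below `τ` -/
def Cut (Y : SimpleGraph V) (O τ Br : Set V) : Prop :=
  τ ⊆ O ∧ O \ τ ⊆ Br ∧ Disjoint Br τ ∧ ∀ v ∈ Br, ∀ w, Y.Adj v w → w ∈ Br ∨ w ∈ τ

/-- objects that attach along allowed cliques -/
structure Atoms (Y : SimpleGraph V) (Al Ob : Set V → Prop) : Prop where
  sub : ∀ τ τ', Al τ → τ' ⊆ τ → Al τ'
  one : ∀ v, Al {v}
  clq : ∀ τ, Al τ → ∀ a ∈ τ, ∀ b ∈ τ, a ≠ b → Y.Adj a b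
  att : ∀ O C, Ob O → Disjoint C O → ConnOn Y.Adj C → Al (Nb Y O C)
  nsep : ∀ O τ, Ob O → Al τ → ConnOn Y.Adj (O \ τ) ∧ (O \ τ).Nonempty
  anti : ∀ O O', Ob O → Ob O' → O ⊆ O' → O = O'

end Graphs

/-- the numerical invariants of the pair of graphs -/
structure Par where
  vT : ℕ
  mT : ℕ
  vA : ℕ
  mA : ℕ
  θ : ℕ

section Objects
variable {U V W : Type} (P : Par) (H : SimpleGraph W)

/-- `T`-sets -/
def TS (J : SimpleGraph V) (S : Set V) : Prop :=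
  ES H J S ∧ S.ncard = P.vT ∧ P.mT ≤ ec J S

/-- `α`-sets -/
def AS (J : SimpleGraph V) (S : Set V) : Prop :=
  (∃ a b, RS H J S a b) ∧ S.ncard = P.vA ∧ P.mA ≤ ec J S

/-- the edges that lie in a `T`-set inside `Y` -/
def TG (J : SimpleGraph V) (Y : Set V) : SimpleGraph V where
  Adj x y := J.Adj x y ∧ ∃ S, S ⊆ Y ∧ TS P H J S ∧ x ∈ S ∧ y ∈ S
  symm := ⟨fun _ _ ⟨h, S, h1, h2, h3, h4⟩ => ⟨h.symm, S, h1, h2, h4, h3⟩⟩
  loopless := ⟨fun _ h => h.1.ne rfl⟩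

/-- `θ`-sets -/
def TH (J : SimpleGraph V) (S : Set V) : Prop := TwoConn (TG P H J S) S ∧ S.ncard = P.θ

/-- largest blocks of the `T`-graph -/
def MaxB (J : SimpleGraph V) (S : Set V) : Prop :=
  TwoConn (TG P H J univ) S ∧ ∀ S', TwoConn (TG P H J univ) S' → S'.ncard ≤ S.ncard

structure Par.Ok : Prop where
  exT : ∃ S, TS P H H S
  maxT : ∀ S, ES H H S → S.ncard < P.vT ∨ (S.ncard = P.vT ∧ ec H S ≤ P.mT)
  exA : ∃ S, AS P H H S
  maxA : ∀ S a b, RS H H S a b → S.ncard < P.vA ∨ (S.ncard = P.vA ∧ ec H S ≤ P.mA)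
  exθ : ∃ S, TH P H H S
  maxθ : ∀ S, TwoConn (TG P H H univ) S → S.ncard ≤ P.θ

/-- every edge of `M` is a bridge of `(A - M)_T ∪ M` -/
def Bridge (A M : SimpleGraph V) : Prop :=
  ∀ a b, M.Adj a b → ¬ ReflTransGen
    (fun x y => ((TG P H (A \ M) univ).Adj x y ∨ M.Adj x y) ∧ s(x, y) ≠ s(a, b)) a b

/-- `y y'` is an isolating edge for the family `𝒯` -/
def Iso (J : SimpleGraph V) (𝒯 : Set (Set V)) (y y' : V) : Prop :=
  J.Adj y y' ∧ (∃ S ∈ 𝒯, y ∈ S) ∧ ∀ S ∈ 𝒯, y ∈ S → y' ∈ S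

end Objects

/-- the four cases -/
inductive Mode
  | N1 | N2 | S1 | S2

section Families
variable {U V W : Type}

/-- red objects -/
def RO (P : Par) (H : SimpleGraph W) : Mode → SimpleGraph V → Set V → Prop
  | .N1, J, S => AS P H J S ∧ ∀ c ∈ S, ∃ v ∈ S, v ≠ c ∧ ¬ J.Adj c v
  | .N2, J, S => TH P H J S ∧ ∀ c, ∃ D, D ⊆ S ∧ Tri J D ∧ c ∉ D
  | .S1, J, S => AS P H J S
  | .S2, J, S => TH P H J S

/-- blue objects -/
def BO (P : Par) (H : SimpleGraph W) : Mode → SimpleGraph V → Set V → Prop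
  | .S1, J, S => AS P H J S
  | _, J, S => TH P H J S

/-- the hypothesis of each case -/
def Case (P : Par) (H : SimpleGraph W) : Mode → Prop
  | .N1 => 4 ≤ P.vA ∧ ∃ S, RO P H .N1 H S
  | .N2 => P.vA = 3 ∧ ∃ S, RO P H .N2 H S
  | .S1 => 4 ≤ P.vA ∧ ∀ S, ¬ RO P H .N1 H S
  | .S2 => P.vA = 3 ∧ ∀ S, ¬ RO P H .N2 H S

def Mode.IsN : Mode → Prop
  | .N1 => True
  | .N2 => True
  | _ => False

/-- the local convexity rule for blue classes -/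
def Rule : Mode → SimpleGraph V → Set V → Prop
  | .S1, J, K => ∀ t ∈ K, ∀ C, Disjoint C K → (∀ x ∈ C, J.Adj t x) → ConnOn J.Adj C →
      {a | a ∈ K ∧ J.Adj t a ∧ ∃ x ∈ C, J.Adj a x}.Subsingleton
  | .S2, J, K => ∀ a ∈ K, ∀ b ∈ K, ∀ w, J.Adj a b → J.Adj a w → J.Adj b w → w ∈ K
  | _, _, _ => True

/-- the vertices of `K` through which `K` touches `Y` -/
def Port (J : SimpleGraph V) (K Y : Set V) : Set V :=
  {p | p ∈ K ∧ (p ∈ Y ∨ ∃ q ∈ Y, q ∉ K ∧ J.Adj p q)}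

/-- the union of the other classes -/
def Oth {L : Type} (K : L → Set V) (𝒮 : Set L) (l : L) : Set V :=
  {x | ∃ l' ∈ 𝒮, l' ≠ l ∧ x ∈ K l'}

/-- rooted peelability; `vr` is the set of admissible root vertices -/
def RP (J : SimpleGraph V) {L : Type} (K : L → Set V) (vr : Set V) : Prop :=
  ∀ (𝒮 : Set L) (R0 : Set V), 𝒮.Nonempty →
    (R0 = ∅ ∨ (∃ l0, l0 ∉ 𝒮 ∧ R0 = K l0) ∨ ∃ r ∈ vr, R0 = {r}) →
    ∃ l ∈ 𝒮, (Port J (K l) (R0 ∪ Oth K 𝒮 l)).Subsingleton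

/-- peelability with external ports -/
def RPX (J : SimpleGraph V) {L : Type} (K : L → Set V) (Ex : Set V → Prop) : Prop :=
  ∀ (𝒮 : Set L) (Pt : Set V), 𝒮.Nonempty → Ex Pt →
    ∃ l ∈ 𝒮, ((K l ∩ Pt) ∪ Port J (K l) (Oth K 𝒮 l)).Subsingleton

/-- an object with the vertices that have two neighbours in it -/
def Ext (J : SimpleGraph V) (O : Set V) : Set V :=
  {w | w ∈ O ∨ ∃ a ∈ O, ∃ b ∈ O, a ≠ b ∧ J.Adj w a ∧ J.Adj w b}

/-- red weight set of a class -/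
def RW (J : SimpleGraph V) (Ob : Set V → Prop) (K : Set V) : Set V :=
  {w | ∃ O, Ob O ∧ O ⊆ K ∧ w ∈ Ext J O}

/-- blue weight set of a class -/
def BW (Ob : Set V → Prop) (K : Set V) : Set V := {w | ∃ O, Ob O ∧ O ⊆ K ∧ w ∈ O}

/-- red family -/
structure IsRF (J : SimpleGraph V) (Ob : Set V → Prop) {L : Type} (K : L → Set V) : Prop where
  cov : ∀ O, Ob O → ∃ l, O ⊆ K l
  rp : RP J K univ

/-- blue family -/
structure IsBF (m : Mode) (J : SimpleGraph V) (Ob : Set V → Prop) {L : Type} (K : L → Set V) :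
    Prop where
  cov : ∀ O, Ob O → ∃ l, O ⊆ K l
  rp : RP J K ∅
  dis : ∀ l l', l ≠ l' → Disjoint (K l) (K l')
  rule : ∀ l, Rule m J (K l)

def RFam (P : Par) (H : SimpleGraph W) (m : Mode) (J : SimpleGraph V) (s : ℕ) : Prop :=
  ∃ (L : Type) (_ : Finite L) (K : L → Set V), IsRF J (RO P H m J) K ∧
    ∀ l, (RW J (RO P H m J) (K l)).ncard ≤ s

def BFam (P : Par) (H : SimpleGraph W) (m : Mode) (J : SimpleGraph V) (s : ℕ) : Prop :=
  ∃ (L : Type) (_ : Finite L) (K : L → Set V), IsBF m J (BO P H m J) K ∧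
    ∀ l, (BW (BO P H m J) (K l)).ncard ≤ s

end Families

section Frames
variable {V : Type}

/-- two vertices in a common bag -/
def Tog (N : Set (Set V)) (x y : V) : Prop := ∃ ν ∈ N, x ∈ ν ∧ y ∈ ν

/-- the attachment of `C` in `X` -/
def At (N : Set (Set V)) (X C : Set V) : Set V := {w | w ∈ X ∧ ∃ c ∈ C, Tog N w c}

/-- small connected sets attach to `X` inside a link -/
def Thin (N : Set (Set V)) (Lk : Set V → Prop) (g : ℕ) (X : Set V) : Prop :=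
  ∀ C : Set V, C.ncard ≤ g → Disjoint C X → ConnOn (Tog N) C →
    At N X C = ∅ ∨ ∃ ℓ, Lk ℓ ∧ At N X C ⊆ ℓ ∧ ℓ ⊆ X ∧ ∃ ν ∈ N, ℓ ⊆ ν ∧ (ν ∩ C).Nonempty

/-- vertices and edges as links -/
def GLk (G : SimpleGraph V) (ℓ : Set V) : Prop :=
  (∃ v, ℓ = {v}) ∨ ∃ a b, G.Adj a b ∧ ℓ = {a, b}

/-- small connected sets that meet `X` and `Y` contain `u` -/
def Far (N : Set (Set V)) (k : ℕ) (X Y : Set V) (u : V) : Prop :=
  ∀ C : Set V, C.ncard ≤ k → ConnOn (Tog N) C → (C ∩ X).Nonempty → (C ∩ Y).Nonempty → u ∈ C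

end Frames

/-- hypergraph with kinds of points and types of edges; `prof t i` is the number of points of
kind `i` on an edge of type `t` -/
structure MH {I T : Type} (prof : T → I → ℕ) where
  V : Type
  E : Type
  [finV : Finite V]
  [finE : Finite E]
  kd : V → I
  ty : E → T
  mem : V → E → Prop
  shape : ∀ e i, {v | mem v e ∧ kd v = i}.ncard = prof (ty e) i

attribute [instance] MH.finV MH.finE

section Hyper
variable {I T : Type} {prof : T → I → ℕ}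

def MH.Lin (F : MH prof) : Prop :=
  ∀ e e' u v, u ≠ v → F.mem u e → F.mem v e → F.mem u e' → F.mem v e' → e = e'

/-- no three different edges meet pairwise in three different points -/
def MH.NoTri (F : MH prof) : Prop :=
  ∀ a b c d e f, a ≠ b → a ≠ c → b ≠ c → F.mem a d → F.mem b d → F.mem a e → F.mem c e →
    F.mem b f → F.mem c f → d = e ∨ d = f ∨ e = f

/-- an edge with its points -/
def MH.WB (F : MH prof) (d : F.E) : Set (F.V ⊕ F.E) :=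
  {n | n = .inr d ∨ ∃ v, F.mem v d ∧ n = .inl v}

def MH.Lk (F : MH prof) (ℓ : Set (F.V ⊕ F.E)) : Prop :=
  (∃ v, ℓ = {.inl v}) ∨ ∃ d, ℓ = F.WB d

structure MEmb (F H : MH prof) where
  v : F.V → H.V
  e : F.E → H.E
  v_inj : Injective v
  e_inj : Injective e
  kd_v : ∀ x, H.kd (v x) = F.kd x
  ty_e : ∀ d, H.ty (e d) = F.ty d
  mem_iff : ∀ y d, H.mem y (e d) ↔ ∃ x, F.mem x d ∧ v x = y

def MEmb.Bag {F H : MH prof} (φ : MEmb F H) : Set (H.V ⊕ H.E) := range (Sum.map φ.v φ.e)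

/-- a tree-like system of copies -/
structure Good {F H : MH prof} {Q : Type} (φ : Q → MEmb F H) (g : ℕ) : Prop where
  lin : H.Lin
  str : ∀ p x y d, x ≠ y → H.mem ((φ p).v x) d → H.mem ((φ p).v y) d → ∃ d0, (φ p).e d0 = d
  cov : ∀ n, ∃ p, n ∈ (φ p).Bag
  b2 : ∀ p q, p ≠ q → ∀ x y, x ≠ y → x ∈ (φ p).Bag → y ∈ (φ p).Bag → x ∈ (φ q).Bag →
    y ∈ (φ q).Bag → ∃ d, x ∈ H.WB d ∧ y ∈ H.WB d
  thin : ∀ p, Thin (range fun q => (φ q).Bag) H.Lk g (φ p).Bag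

/-- Ramsey property for the types in `𝒯` -/
def MRam {F H : MH prof} {Q : Type} (φ : Q → MEmb F H) (κ : Type) (𝒯 : Set T) : Prop :=
  ∀ χ : H.E → κ, ∃ p, ∀ d d', F.ty d ∈ 𝒯 → F.ty d = F.ty d' → χ ((φ p).e d) = χ ((φ p).e d')

end Hyper

/-- a coloured copy of the target graph -/
structure Bag (U V : Type) where
  f : U → V
  old : SimpleGraph U
  red : SimpleGraph U
  top : Prop

section Systems
variable {U V W X : Type}

def Nodes (Ls : Set (Set V)) (Bs : Set (Bag U V)) : Set (Set V) :=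
  Ls ∪ {ν | ∃ β ∈ Bs, ν = range β.f}

/-- lower nodes and bags -/
structure Pre (A : SimpleGraph U) (G R : SimpleGraph V) (Ls : Set (Set V)) (Bs : Set (Bag U V))
    (g : ℕ) : Prop where
  le : R ≤ G
  ind : ∀ β ∈ Bs, Ind A G β.f univ
  col : ∀ β ∈ Bs, ∀ a b, R.Adj (β.f a) (β.f b) ↔ β.red.Adj a b
  old : ∀ β ∈ Bs, β.old ≤ A
  cov : ∀ x y, G.Adj x y → (∃ L ∈ Ls, x ∈ L ∧ y ∈ L) ∨
    ∃ β ∈ Bs, ∃ a b, β.f a = x ∧ β.f b = y ∧ ¬ β.old.Adj a b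
  thin : ∀ ν ∈ Nodes Ls Bs, Thin (Nodes Ls Bs) (GLk G) g ν
  lb : ∀ L ∈ Ls, ∀ β ∈ Bs, ∀ a b, a ≠ b → β.f a ∈ L → β.f b ∈ L → ¬ β.top ∧ β.old.Adj a b
  bb : ∀ β ∈ Bs, ∀ β' ∈ Bs, ∀ a b a' b', A.Adj a b → ¬ β.old.Adj a b → ¬ β'.old.Adj a' b' →
    β.f a = β'.f a' → β.f b = β'.f b' → β = β' ∨ (β.top ∧ β'.top)
  low : ∀ β ∈ Bs, ¬ β.top → Mat β.old ∧ ∃ c, cc A β.red c = A \ β.old
  dis : ∀ L ∈ Ls, ∀ L' ∈ Ls, L ≠ L' → Disjoint L L'

/-- the parameters of the engine -/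
structure EP (U : Type) where
  M : Bool → SimpleGraph U
  F : SimpleGraph U
  S : Set U

structure EP.Ok (E : EP U) (A : SimpleGraph U) : Prop where
  M_le : ∀ c, E.M c ≤ A
  mat : ∀ c, Mat (E.M c)
  F_le : E.F ≤ A
  bip : Bip E.F

/-- the edges between `S` and its complement -/
def cutG (A : SimpleGraph U) (S : Set U) : SimpleGraph U where
  Adj a b := A.Adj a b ∧ (a ∈ S ↔ b ∉ S)
  symm := ⟨fun _ _ ⟨h, h'⟩ => ⟨h.symm, by tauto⟩⟩
  loopless := ⟨fun _ h => h.1.ne rfl⟩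

/-- the edges that meet `S` -/
def covG (A : SimpleGraph U) (S : Set U) : SimpleGraph U where
  Adj a b := A.Adj a b ∧ (a ∈ S ∨ b ∈ S)
  symm := ⟨fun _ _ ⟨h, h'⟩ => ⟨h.symm, h'.symm⟩⟩
  loopless := ⟨fun _ h => h.1.ne rfl⟩

/-- protecting bags -/
def Low (A : SimpleGraph U) (E : EP U) (old red : SimpleGraph U) (top : Prop) : Prop :=
  ¬ top ∧ red ≤ A ∧ ∃ c, old = E.M c ∧ cc A red c = A \ E.M c

/-- all kinds of bags -/
def Kind (A : SimpleGraph U) (E : EP U) (old red : SimpleGraph U) (top : Prop) : Prop :=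
  Low A E old red top ∨ (top ∧ old = E.F ∧ red = A \ E.F) ∨
    (top ∧ old = ⊥ ∧ (red = cutG A E.S ∨ red = covG A E.S))

/-- copies of the coloured graph `Γ` as lower nodes -/
structure Core (A : SimpleGraph U) (Γ RΓ : SimpleGraph X) (Hub : Set X) (G R : SimpleGraph V)
    (Gs : Set (X → V)) (Bs : Set (Bag U V)) (g : ℕ) : Prop where
  pre : Pre A G R (range '' Gs) Bs g
  gind : ∀ γ ∈ Gs, Ind Γ G γ univ
  gcol : ∀ γ ∈ Gs, ∀ a b, R.Adj (γ a) (γ b) ↔ RΓ.Adj a b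
  gdis : ∀ γ ∈ Gs, ∀ γ' ∈ Gs, γ ≠ γ' → Disjoint (range γ) (range γ')
  hub : ∀ γ ∈ Gs, ∀ β ∈ Bs, ∀ a, ∀ x ∈ Hub, β.f a ≠ γ x

/-- the copy of `Γ` through `u`, or `u` alone -/
def cell (Gs : Set (X → V)) (u : V) : Set V := {z | z = u ∨ ∃ γ ∈ Gs, u ∈ range γ ∧ z ∈ range γ}

/-- every colouring that agrees with `R` on `D` has a monochromatic `A` -/
def RamOn (A : SimpleGraph U) (G R D : SimpleGraph V) : Prop :=
  ∀ R', R' ≤ G → (∀ x y, D.Adj x y → (R'.Adj x y ↔ R.Adj x y)) → In A R' ∨ In A (G \ R')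

/-- an intermediate level with pending edges `D` -/
structure Lev (A : SimpleGraph U) (E : EP U) (Γ RΓ : SimpleGraph X) (Hub : Set X)
    (G R D : SimpleGraph V) (Gs : Set (X → V)) (Bs : Set (Bag U V)) (g : ℕ) : Prop where
  core : Core A Γ RΓ Hub G R Gs Bs g
  low : ∀ β ∈ Bs, Low A E β.old β.red β.top
  le : D ≤ G
  ram : RamOn A G R D
  hub : ∀ γ ∈ Gs, ∀ x ∈ Hub, ∀ y, ¬ D.Adj (γ x) y

/-- pending edges are far from the copies of `Γ` at their ends -/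
def FarD (D : SimpleGraph V) (Gs : Set (X → V)) (Bs : Set (Bag U V)) (k : ℕ) : Prop :=
  ∀ u v, D.Adj u v → Far (Nodes (range '' Gs) Bs) k (cell Gs u) (cell Gs v) u

/-- the final graph -/
structure Last (A : SimpleGraph U) (E : EP U) (Γ RΓ : SimpleGraph X) (Hub : Set X)
    (G R : SimpleGraph V) (Gs : Set (X → V)) (Bs : Set (Bag U V)) (g : ℕ) : Prop where
  core : Core A Γ RΓ Hub G R Gs Bs g
  kind : ∀ β ∈ Bs, Kind A E β.old β.red β.top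
  ram : RamOn A G R ⊥

/-- the edges that avoid `Hub` -/
def offG (Γ : SimpleGraph X) (Hub : Set X) : SimpleGraph X where
  Adj a b := Γ.Adj a b ∧ a ∉ Hub ∧ b ∉ Hub
  symm := ⟨fun _ _ ⟨h, h1, h2⟩ => ⟨h.symm, h2, h1⟩⟩
  loopless := ⟨fun _ h => h.1.ne rfl⟩

/-- a bag is harmless for `T`-chains of colour `c` -/
def Tok (P : Par) (H : SimpleGraph W) (A : SimpleGraph U) (c : Bool) (old red : SimpleGraph U)
    (top : Prop) : Prop :=
  (¬ top ∧ cc A red c = A \ old ∧ Bridge P H A old) ∨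
    ((∀ S, ¬ TS P H (cc A red c) S) ∧ NoBack A old)

/-- `c` is an `α`-colour -/
def ColA (P : Par) (H : SimpleGraph W) (A : SimpleGraph U) (E : EP U) (c : Bool) : Prop :=
  ∀ old red top, Kind A E old red top → ∀ S, ¬ AS P H (cc A red c) S

/-- `c` is a `T`-colour -/
def ColT (P : Par) (H : SimpleGraph W) (A : SimpleGraph U) (E : EP U) (c : Bool) : Prop :=
  ∀ old red top, Kind A E old red top →
    Tok P H A c old red top ∧ ∀ S, ¬ TH P H (cc A red c) S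

/-- the colours of a case -/
def Cols (P : Par) (H : SimpleGraph W) (A : SimpleGraph U) (E : EP U) : Mode → Prop
  | .N1 => ColA P H A E true ∧ ColT P H A E false
  | .S1 => ColA P H A E true ∧ ColA P H A E false
  | _ => ColT P H A E true ∧ ColT P H A E false

/-- the bags of the frame of bodies and red parts -/
def RBags (M : SimpleGraph U) (I : Set U) (Us Xs : Set (U → X)) : Set (Set X) :=
  {ν | (∃ υ ∈ Us, ν = υ '' M.supportᶜ) ∨ ∃ ξ ∈ Xs, ν = ξ '' Iᶜ}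

/-- the shared points with their kinds -/
def Cells {Q : Type} (pt : U → Option Q) (Us : Set (U → X)) : Set (Q × Set X) :=
  {z | ∃ υ ∈ Us, z.2 = υ '' {u | pt u = some z.1}}

def RLk {Q : Type} (pt : U → Option Q) (Us : Set (U → X)) (ℓ : Set X) : Prop :=
  (∃ v, ℓ = {v}) ∨ ∃ z ∈ Cells pt Us, ℓ = z.2

/-- units as bags -/
def UBags (M : SimpleGraph U) (Us : Set (U → X)) : Set (Bag U X) :=
  {β | β.f ∈ Us ∧ β.old = M ∧ β.red = M ∧ ¬ β.top}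

/-- hubs, units and red parts -/
structure Gam {Q : Type} (A M : SimpleGraph U) (I : Set U) (pt : U → Option Q)
    (Γ RΓ : SimpleGraph X) (Hub : Set X) (Hs Us Xs : Set (U → X)) (g : ℕ) : Prop where
  le : RΓ ≤ Γ
  hind : ∀ h ∈ Hs, Ind A Γ h univ
  hred : ∀ h ∈ Hs, ∀ a b, A.Adj a b → RΓ.Adj (h a) (h b)
  hub : ∀ x, x ∈ Hub ↔ ∃ h ∈ Hs, x ∈ range h
  hcl : ∀ h ∈ Hs, ∀ a y, RΓ.Adj (h a) y → y ∈ range h
  uind : ∀ υ ∈ Us, Ind A Γ υ univ
  ucol : ∀ υ ∈ Us, ∀ a b, RΓ.Adj (υ a) (υ b) ↔ M.Adj a b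
  uhub : ∀ υ ∈ Us, ∀ a, υ a ∈ Hub ↔ a ∈ M.support
  xind : ∀ ξ ∈ Xs, Ind A Γ ξ Iᶜ
  xred : ∀ ξ ∈ Xs, ∀ a ∉ I, ∀ b ∉ I, A.Adj a b → RΓ.Adj (ξ a) (ξ b)
  xhub : ∀ ξ ∈ Xs, ∀ a ∉ I, ξ a ∉ Hub
  rcov : ∀ x y, RΓ.Adj x y → x ∉ Hub → ∃ ξ ∈ Xs, x ∈ ξ '' Iᶜ ∧ y ∈ ξ '' Iᶜ
  bcov : ∀ x y, (Γ \ RΓ).Adj x y → ∃ υ ∈ Us, x ∈ range υ ∧ y ∈ range υ
  ram : RamOn A Γ RΓ (offG Γ Hub)
  thin : ∀ ν ∈ RBags M I Us Xs, Thin (RBags M I Us Xs) (RLk pt Us) g ν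
  xx : ∀ ξ ∈ Xs, ∀ ξ' ∈ Xs, ξ ≠ ξ' → (ξ '' Iᶜ ∩ ξ' '' Iᶜ).Subsingleton
  xu : ∀ ξ ∈ Xs, ∀ υ ∈ Us, (ξ '' Iᶜ ∩ range υ).Subsingleton
  cel : ∀ z ∈ Cells pt Us, ∀ υ ∈ Us, (z.2 ∩ range υ).Nonempty →
    z.2 = υ '' {u | pt u = some z.1}
  uu : ∀ υ ∈ Us, ∀ υ' ∈ Us, υ ≠ υ' → range υ ∩ range υ' = ∅ ∨
    (∃ h ∈ Hs, range υ ∩ range υ' ⊆ range h) ∨ ∃ z ∈ Cells pt Us, range υ ∩ range υ' ⊆ z.2
  tri : ∀ S, Tri (Γ \ RΓ) S → ∃ υ ∈ Us, S ⊆ range υ
  preB : (∀ u, pt u = none) → ∃ G' R' : SimpleGraph X, G' \ R' = Γ \ RΓ ∧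
    Pre A G' R' (range '' Hs) (UBags M Us) g

end Systems

end Pool.Agent.MP_1c0fc2_co.RE
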