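import Pool.Agent.MP_1c0fc2_co.RE.Basic

/-! Equality of edge counts, monotonicity of red objects, triangles. -/

open Function Set Relation

namespace Pool.Agent.MP_1c0fc2_co.RE

variable {U V W : Type} {J : SimpleGraph V} {J' : SimpleGraph U} {H : SimpleGraph W} {S : Set V}

theorem xeqm_back [Finite U] {f : V → U} (hf : IHo J J' f S) (h : ec J' (f '' S) ≤ ec J S) :
    ∀ x ∈ S, ∀ y ∈ S, J'.Adj (f x) (f y) → J.Adj x y := by
  intro x hx y hy e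
  have hi : InjOn (fun p : V × V => (f p.1, f p.2))
      {p : V × V | p.1 ∈ S ∧ p.2 ∈ S ∧ J.Adj p.1 p.2} := by
    rintro ⟨x, y⟩ ⟨hx, hy, -⟩ ⟨x', y'⟩ ⟨hx', hy', -⟩ e
    exact Prod.ext (hf.1 hx hx' (congrArg Prod.fst e)) (hf.1 hy hy' (congrArg Prod.snd e))
  have hs : (fun p : V × V => (f p.1, f p.2)) '' {p : V × V | p.1 ∈ S ∧ p.2 ∈ S ∧ J.Adj p.1 p.2} =
      {p : U × U | p.1 ∈ f '' S ∧ p.2 ∈ f '' S ∧ J'.Adj p.1 p.2} := by
    refine eq_of_subset_of_ncard_le ?_ (by rw [hi.ncard_image]; exact h) (toFinite _)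
    rintro _ ⟨⟨x, y⟩, ⟨hx, hy, e⟩, rfl⟩
    exact ⟨mem_image_of_mem f hx, mem_image_of_mem f hy, hf.2 _ hx _ hy e⟩
  have hm : (f x, f y) ∈ {p : U × U | p.1 ∈ f '' S ∧ p.2 ∈ f '' S ∧ J'.Adj p.1 p.2} :=
    ⟨mem_image_of_mem f hx, mem_image_of_mem f hy, e⟩
  rw [← hs] at hm
  obtain ⟨⟨x', y'⟩, ⟨hx', hy', e'⟩, h2⟩ := hm
  rw [← hf.1 hx' hx (congrArg Prod.fst h2), ← hf.1 hy' hy (congrArg Prod.snd h2)]
  exact e'

theorem eq_stmt : EqStmt := by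
  intro W V V' _ _ _ H P hP J J' f h S hf hh hS
  refine xeqm_back hf ((ec_le hh).trans ?_)
  rcases hS with hS | hS
  · have h1 := (hS.map hf).map hh
    rcases hP.maxT _ h1.1 with h2 | h2
    · exact absurd h1.2.1 h2.ne
    · exact h2.2.trans hS.2.2
  · have h1 := (hS.map hf).map hh
    obtain ⟨a, b, h3⟩ := h1.1
    rcases hP.maxA _ a b h3 with h2 | h2
    · exact absurd h1.2.1 h2.ne
    · exact h2.2.trans hS.2.2

theorem roMono_stmt (hEq : EqStmt) : ROMonoStmt := by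
  intro W V V' _ _ _ H P hP m J J' f h S hf hh hS
  cases m with
  | N1 =>
    refine ⟨hS.1.map hf, ?_⟩
    rintro _ ⟨c, hc, rfl⟩
    obtain ⟨v, hv, h1, h2⟩ := hS.2 c hc
    exact ⟨f v, mem_image_of_mem f hv, fun e => h1 (hf.1 hv hc e),
      fun e => h2 (hEq W V V' H P hP J J' f h S hf hh (.inr hS.1) c hc v hv e)⟩
  | N2 =>
    refine ⟨hS.1.map hf, fun c' => ?_⟩
    by_cases hc : c' ∈ f '' S
    · obtain ⟨c, hc, rfl⟩ := hc
      obtain ⟨D, h1, h2, h3⟩ := hS.2 c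
      refine ⟨f '' D, image_mono h1, h2.map (hf.sub h1), ?_⟩
      rintro ⟨d, hd, e⟩
      exact h3 (hf.1 (h1 hd) hc e ▸ hd)
    · obtain ⟨c, -⟩ := hS.1.1.nonempty
      obtain ⟨D, h1, h2, -⟩ := hS.2 c
      exact ⟨f '' D, image_mono h1, h2.map (hf.sub h1), fun e => hc (image_mono h1 e)⟩
  | S1 => exact AS.map hS hf
  | S2 => exact TH.map hS hf

theorem xeqm_card (h : Tri J S) : S.ncard = 3 := by
  obtain ⟨a, b, c, h1, h2, h3, rfl⟩ := h
  exact ncard_eq_three.2 ⟨a, b, c, h1.ne, h2.ne, h3.ne, rfl⟩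

theorem xeqm_adj (h : Tri J S) : ∀ x ∈ S, ∀ y ∈ S, x = y ∨ J.Adj x y := by
  obtain ⟨a, b, c, h1, h2, h3, rfl⟩ := h
  rintro x (rfl | rfl | rfl) y (rfl | rfl | rfl)
  exacts [.inl rfl, .inr h1, .inr h2, .inr h1.symm, .inl rfl, .inr h3, .inr h2.symm, .inr h3.symm,
    .inl rfl]

theorem xeqm_es [Finite V] (h : Tri J S) : ES H J S := by
  refine ⟨⟨(xeqm_card h).ge, fun v x hx y hy => ?_⟩, ?_⟩
  · rcases xeqm_adj h x hx.1 y hy.1 with rfl | e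
    · exact .refl
    · exact .single ⟨hx, hy, e⟩
  · rintro S' ⟨h1, h2, h3, -⟩
    exact h2 (eq_of_subset_of_ncard_le h1 ((xeqm_card h).le.trans h3) (toFinite _))

theorem xeqm_tri (h : TwoConn J S) (h3 : S.ncard = 3) : Tri J S := by
  obtain ⟨a, b, c, hab, hac, hbc, rfl⟩ := ncard_eq_three.1 h3
  refine ⟨a, b, c, ?_, ?_, ?_, rfl⟩
  · obtain ⟨x, rfl | rfl | rfl, h1, h2⟩ := h.nbr (a := a) (by simp) c hac
    exacts [absurd rfl h2.ne, h2, absurd rfl h1]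
  · obtain ⟨x, rfl | rfl | rfl, h1, h2⟩ := h.nbr (a := a) (by simp) b hab
    exacts [absurd rfl h2.ne, absurd rfl h1, h2]
  · obtain ⟨x, rfl | rfl | rfl, h1, h2⟩ := h.nbr (a := b) (by simp) a hab.symm
    exacts [absurd rfl h1, absurd rfl h2.ne, h2]

theorem xeqm_ec [Finite V] {S0 : Set W} (h0 : Tri H S0) (h : Tri J S) : ec H S0 ≤ ec J S := by
  classical
  have ha := xeqm_adj h
  obtain ⟨a0, b0, c0, g1, g2, g3, rfl⟩ := h0
  obtain ⟨a, b, c, h1, h2, h3, rfl⟩ := h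
  let f : W → V := fun w => if w = a0 then a else if w = b0 then b else c
  have fa : f a0 = a := if_pos rfl
  have fb : f b0 = b := by simp [f, g1.ne']
  have fc : f c0 = c := by simp [f, g2.ne', g3.ne']
  have e : f '' {a0, b0, c0} = {a, b, c} := by
    rw [image_insert_eq, image_insert_eq, image_singleton, fa, fb, fc]
  have hi : InjOn f {a0, b0, c0} := by
    rintro x (rfl | rfl | rfl) y (rfl | rfl | rfl) e <;> simp only [fa, fb, fc] at e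
    exacts [rfl, absurd e h1.ne, absurd e h2.ne, absurd e h1.ne', rfl, absurd e h3.ne,
      absurd e h2.ne', absurd e h3.ne', rfl]
  rw [← e]
  refine ec_le ⟨hi, fun x hx y hy hxy => ?_⟩
  exact (ha _ (e ▸ mem_image_of_mem f hx) _ (e ▸ mem_image_of_mem f hy)).resolve_left
    fun e' => hxy.ne (hi hx hy e')

theorem k3_stmt : K3Stmt := by
  intro W V _ _ H P hP
  obtain ⟨T, hT⟩ := hP.exT
  obtain ⟨A, hA⟩ := hP.exA
  obtain ⟨B, hB⟩ := hP.exθ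
  refine ⟨⟨hT.2.1 ▸ hT.two.1, ?_, hA.2.1 ▸ ncard_le_card A, hB.2 ▸ ncard_le_card B⟩,
    fun J S => ⟨xeqm_es, fun h3 => ⟨fun h => xeqm_tri h.two (h.2.1.trans h3), fun h => ?_⟩,
      fun h3 => ⟨fun h => xeqm_tri h.two (h.2.1.trans h3), fun h => ?_⟩⟩⟩
  · obtain ⟨a, ha, b, hb, e⟩ := hT.two.edge
    rcases hP.maxA _ a b (hT.1.rs ha hb e) with h | h
    · exact hT.2.1 ▸ h.le
    · exact hT.2.1 ▸ h.1.le
  · exact ⟨xeqm_es h, (xeqm_card h).trans h3.symm,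
      hT.2.2.trans (xeqm_ec (xeqm_tri hT.two (hT.2.1.trans h3)) h)⟩
  · obtain ⟨a, ha, b, hb, e⟩ := (xeqm_es (H := H) h).1.edge
    exact ⟨⟨a, b, (xeqm_es h).rs ha hb e⟩, (xeqm_card h).trans h3.symm,
      hA.2.2.trans (xeqm_ec (xeqm_tri hA.two (hA.2.1.trans h3)) h)⟩

end Pool.Agent.MP_1c0fc2_co.RE
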