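import Pool.Agent.MP_1c0fc2_co.RE.Basic

/-! The pattern hypergraph of the middle graph. -/

open Function Set Relation

namespace Pool.Agent.MP_1c0fc2_co.RE.GamC

variable {U Q : Type} (A M : SimpleGraph U) (I : Set U) (pt : U → Option Q)

/-- a vertex with its partner -/
def kd (a : U) : Set U := {b | b = a ∨ M.Adj a b}

open Classical in
/-- the kind of the point that carries a vertex of a unit -/
noncomputable def ko (a : U) : Option (Set U ⊕ Q) :=
  if a ∈ M.support then some (.inl (kd M a)) else (pt a).map .inr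

abbrev Ty := {e : U → U // ∀ a b, M.Adj a b → A.Adj (e a) (e b)}

open Classical in
noncomputable def prof : (Set U ⊕ Q) ⊕ Ty A M → Set U ⊕ Q → ℕ
  | .inl i, i' => if i' = i then 1 else 0
  | .inr _, i' => if ∃ a, ko M pt a = some i' then 1 else 0

abbrev Sp := {s : U × U // s.1 ∈ M.support ∧ s.2 ∉ M.support ∧ A.Adj s.1 s.2}

abbrev Dt := {δ : U × U // δ.1 ∈ I ∧ A.Adj δ.1 δ.2}

abbrev Un := Ty A M × Option (Sp A M × Dt A I)

/-- the properties of the pattern -/
structure FOk (F : MH (prof A M pt)) (un : Un A M I → F.E) : Prop where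
  inj : Injective un
  ty : ∀ w, F.ty (un w) = .inr w.1
  sur : ∀ d e, F.ty d = .inr e → ∃ w, un w = d
  nj : ∀ n, ∃ w, F.mem n (un w)
  one : ∀ n, ∃ d, F.ty d = .inl (F.kd n) ∧ F.mem n d
  sh : ∀ w w' n, w ≠ w' → F.mem n (un w) → F.mem n (un w') → ∃ e s δ δ', w = (e, some (s, δ)) ∧
    w' = (e, some (s, δ')) ∧ ((δ.1.2 = δ'.1.2 ∧ ko M pt s.1.2 = some (F.kd n)) ∨
      (δ.1.1 = δ'.1.1 ∧ ko M pt s.1.1 = some (F.kd n)))
  shx : ∀ e (s : Sp A M) (δ δ' : Dt A I) n, δ.1.2 = δ'.1.2 → ko M pt s.1.2 = some (F.kd n) →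
    F.mem n (un (e, some (s, δ))) → F.mem n (un (e, some (s, δ')))
  shv : ∀ e (s : Sp A M) (δ δ' : Dt A I) n, δ.1.1 = δ'.1.1 → ko M pt s.1.1 = some (F.kd n) →
    F.mem n (un (e, some (s, δ))) → F.mem n (un (e, some (s, δ')))

variable {A M I pt}

theorem ko_sup {a : U} (h : a ∈ M.support) : ko M pt a = some (.inl (kd M a)) := if_pos h

theorem ko_off {a : U} (h : a ∉ M.support) : ko M pt a = (pt a).map .inr := if_neg h

theorem ko_inl {a : U} {k : Set U} (h : ko M pt a = some (.inl k)) :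
    a ∈ M.support ∧ k = kd M a := by
  by_cases ha : a ∈ M.support
  · rw [ko_sup ha] at h
    exact ⟨ha, (Sum.inl_injective (Option.some_injective _ h)).symm⟩
  · rw [ko_off ha] at h
    cases hp : pt a <;> simp [hp] at h

theorem ko_inr {a : U} {q : Q} (h : ko M pt a = some (.inr q)) :
    a ∉ M.support ∧ pt a = some q := by
  by_cases ha : a ∈ M.support
  · rw [ko_sup ha] at h
    simp at h
  · rw [ko_off ha] at h
    cases hp : pt a <;> simp_all

theorem ko_of_pt {a : U} {q : Q} (ha : a ∉ M.support) (h : pt a = some q) :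
    ko M pt a = some (.inr q) := by
  rw [ko_off ha, h]; rfl

theorem ko_sup_iff {a b : U} (h : ko M pt a = ko M pt b) (ha : a ∈ M.support) :
    b ∈ M.support ∧ kd M a = kd M b :=
  ko_inl (h.symm.trans (ko_sup ha))

theorem kd_eq {a b : U} (h : kd M a = kd M b) : a = b ∨ M.Adj a b := by
  have : b ∈ kd M a := h ▸ Or.inl rfl
  exact this.imp Eq.symm id

theorem kd_adj (hM : Mat M) {a b : U} (h : M.Adj a b) : kd M a = kd M b := by
  ext c
  constructor
  · rintro (rfl | e)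
    exacts [.inr h.symm, .inl (hM a c b e h)]
  · rintro (rfl | e)
    exacts [.inr h, .inl (hM b c a e h.symm)]

theorem ko_adj (hM : Mat M) {a b : U} (h : M.Adj a b) : ko M pt a = ko M pt b := by
  rw [ko_sup ⟨b, h⟩, ko_sup ⟨a, h.symm⟩, kd_adj hM h]

section General
variable {H : MH (prof A M pt)} {d : H.E} {n n' : H.V}

theorem one_kd {i : Set U ⊕ Q} (hd : H.ty d = .inl i) (h : H.mem n d) : H.kd n = i := by
  by_contra e
  have h1 := H.shape d (H.kd n)
  rw [hd, prof, if_neg e, ncard_eq_zero (toFinite _)] at h1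
  exact (h1 ▸ ⟨h, rfl⟩ : n ∈ (∅ : Set H.V))

theorem mem_uniq (h : H.mem n d) (h' : H.mem n' d) (e : H.kd n = H.kd n') : n = n' := by
  have h1 := H.shape d (H.kd n)
  have h2 : prof A M pt (H.ty d) (H.kd n) ≤ 1 := by
    rcases H.ty d with i | i <;> simp only [prof] <;> split_ifs <;> omega
  rw [← h1] at h2
  exact (ncard_le_one (toFinite _)).1 h2 n ⟨h, rfl⟩ n' ⟨h', e.symm⟩

theorem one_uniq {i : Set U ⊕ Q} (hd : H.ty d = .inl i) (h : H.mem n d) (h' : H.mem n' d) :
    n = n' :=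
  mem_uniq h h' ((one_kd hd h).trans (one_kd hd h').symm)

/-- unit edges -/
def IsU (d : H.E) : Prop := ∃ e, H.ty d = .inr e

theorem isU_of_two (h : H.mem n d) (h' : H.mem n' d) (e : n ≠ n') : IsU d := by
  rcases hd : H.ty d with i | i
  exacts [absurd (one_uniq hd h h') e, ⟨i, hd⟩]

theorem IsU.ex (hd : IsU d) {a : U} {i : Set U ⊕ Q} (h : ko M pt a = some i) :
    ∃ n, H.mem n d ∧ H.kd n = i := by
  obtain ⟨e, hd⟩ := hd
  have h1 := H.shape d i
  rw [hd, prof, if_pos ⟨a, h⟩] at h1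
  exact nonempty_of_ncard_ne_zero (s := {v | H.mem v d ∧ H.kd v = i}) (by omega)

theorem IsU.kind (hd : IsU d) (h : H.mem n d) : ∃ a, ko M pt a = some (H.kd n) := by
  obtain ⟨e, hd⟩ := hd
  by_contra e
  have h1 := H.shape d (H.kd n)
  rw [hd, prof, if_neg e, ncard_eq_zero (toFinite _)] at h1
  exact (h1 ▸ ⟨h, rfl⟩ : n ∈ (∅ : Set H.V))

end General

section Pattern
variable {F : MH (prof A M pt)} {un : Un A M I → F.E}

theorem FOk.lin (h : FOk A M I pt F un) : F.Lin := by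
  intro d d' u v huv h1 h2 h3 h4
  obtain ⟨e, he⟩ := isU_of_two h1 h2 huv
  obtain ⟨e', he'⟩ := isU_of_two h3 h4 huv
  obtain ⟨w, rfl⟩ := h.sur d e he
  obtain ⟨w', rfl⟩ := h.sur d' e' he'
  by_contra hne
  have hw : w ≠ w' := fun e => hne (by rw [e])
  obtain ⟨e1, s, δ, δ', rfl, rfl, k1⟩ := h.sh w w' u hw h1 h3
  obtain ⟨e2, s2, δ2, δ2', a1, a2, k2⟩ := h.sh _ _ v hw h2 h4
  simp only [Prod.mk.injEq, Option.some.injEq] at a1 a2
  obtain ⟨-, rfl, rfl⟩ := a1
  obtain ⟨-, -, rfl⟩ := a2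
  rcases k1 with ⟨k1, k3⟩ | ⟨k1, k3⟩ <;> rcases k2 with ⟨k2, k4⟩ | ⟨k2, k4⟩
  · exact huv (mem_uniq h1 h2 (Option.some_injective _ (k3.symm.trans k4)))
  · exact hw (by rw [Subtype.ext (Prod.ext k2 k1 : δ.1 = δ'.1)])
  · exact hw (by rw [Subtype.ext (Prod.ext k1 k2 : δ.1 = δ'.1)])
  · exact huv (mem_uniq h1 h2 (Option.some_injective _ (k3.symm.trans k4)))

theorem FOk.noTri (h : FOk A M I pt F un) : F.NoTri := by
  intro a b c d e f hab hac hbc h1 h2 h3 h4 h5 h6
  obtain ⟨_, t1⟩ := isU_of_two h1 h2 hab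
  obtain ⟨_, t2⟩ := isU_of_two h3 h4 hac
  obtain ⟨_, t3⟩ := isU_of_two h5 h6 hbc
  obtain ⟨w1, rfl⟩ := h.sur _ _ t1
  obtain ⟨w2, rfl⟩ := h.sur _ _ t2
  obtain ⟨w3, rfl⟩ := h.sur _ _ t3
  by_contra hne
  simp only [not_or] at hne
  obtain ⟨e1, s, δ, δ', rfl, rfl, k1⟩ := h.sh w1 w2 a (fun e => hne.1 (by rw [e])) h1 h3
  obtain ⟨e2, s2, δ2, δ2', a1, rfl, k2⟩ := h.sh _ w3 b (fun e => hne.2.1 (by rw [e])) h2 h5
  obtain ⟨e3, s3, δ3, δ3', a2, -, k3⟩ := h.sh _ _ c (fun e => hne.2.2 (by rw [e])) h4 h6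
  simp only [Prod.mk.injEq, Option.some.injEq] at a1 a2
  obtain ⟨-, rfl, -⟩ := a1
  obtain ⟨-, rfl, -⟩ := a2
  have j : ∀ {x : Option (Set U ⊕ Q)} {i j}, x = some i → x = some j → i = j :=
    fun a b => Option.some_injective _ (a.symm.trans b)
  rcases k1 with ⟨-, k1⟩ | ⟨-, k1⟩ <;> rcases k2 with ⟨-, k2⟩ | ⟨-, k2⟩ <;>
    rcases k3 with ⟨-, k3⟩ | ⟨-, k3⟩ <;>
    first
    | exact hab (mem_uniq h1 h2 (j k1 k2))
    | exact hac (mem_uniq h3 h4 (j k1 k3))
    | exact hbc (mem_uniq h5 h6 (j k2 k3))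

end Pattern

variable (A M I pt)

open Classical in
/-- the address of the point of kind `i` of the unit `w` -/
noncomputable def ad (w : Un A M I) (i : Set U ⊕ Q) :
    Ty A M × Option (Sp A M × Option U × Option U) × (Set U ⊕ Q) :=
  (w.1, w.2.map fun t => (t.1, if ko M pt t.1.1.2 = some i then none else some t.2.1.1,
    if ko M pt t.1.1.1 = some i then none else some t.2.1.2), i)

abbrev FV := {p : Ty A M × Option (Sp A M × Option U × Option U) × (Set U ⊕ Q) //
  (∃ a, ko M pt a = some p.2.2) ∧ ∃ w, p = ad A M I pt w p.2.2}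

/-- the pattern -/
noncomputable def pat [Finite U] [Finite Q] : MH (prof A M pt) where
  V := FV A M I pt
  E := Un A M I ⊕ FV A M I pt
  kd := fun n => n.1.2.2
  ty := Sum.elim (fun w => .inr w.1) fun n => .inl n.1.2.2
  mem := fun n => Sum.elim (fun w => n.1 = ad A M I pt w n.1.2.2) fun n' => n = n'
  shape := by
    rintro (w | n) i
    · simp only [Sum.elim_inl, prof]
      split_ifs with h
      · refine ncard_eq_one.2 ⟨⟨ad A M I pt w i, h, w, rfl⟩, ?_⟩
        ext v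
        constructor
        · rintro ⟨h1, rfl⟩
          exact Subtype.ext h1
        · rintro rfl
          exact ⟨rfl, rfl⟩
      · rw [ncard_eq_zero (toFinite _), eq_empty_iff_forall_notMem]
        rintro v ⟨-, rfl⟩
        exact h v.2.1
    · simp only [Sum.elim_inr, prof]
      split_ifs with h
      · refine ncard_eq_one.2 ⟨n, ?_⟩
        ext v
        constructor
        · exact fun h1 => h1.1
        · rintro rfl
          exact ⟨rfl, h.symm⟩
      · rw [ncard_eq_zero (toFinite _), eq_empty_iff_forall_notMem]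
        rintro v ⟨rfl, rfl⟩
        exact h rfl

theorem sp_ne (s : Sp A M) {i : Set U ⊕ Q} (h : ko M pt s.1.2 = some i) :
    ko M pt s.1.1 ≠ some i := fun h' =>
  s.2.2.1 (ko_sup_iff (h'.trans h.symm) s.2.1).1

theorem pat_ok [Finite U] [Finite Q] : FOk A M I pt (pat A M I pt) .inl where
  inj := Sum.inl_injective
  ty := fun _ => rfl
  sur := by
    rintro (w | n) e h
    · exact ⟨w, rfl⟩
    · exact (Sum.inl_ne_inr h).elim
  nj := fun n => n.2.2
  one := fun n => ⟨.inr n, rfl, rfl⟩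
  sh := by
    rintro ⟨e, o⟩ ⟨e', o'⟩ n hw h1 h2
    have h3 : ad A M I pt (e, o) n.1.2.2 = ad A M I pt (e', o') n.1.2.2 := h1.symm.trans h2
    simp only [ad, Prod.mk.injEq, and_true] at h3
    obtain ⟨rfl, h3⟩ := h3
    rcases o with _ | ⟨s, δ⟩ <;> rcases o' with _ | ⟨s', δ'⟩
    · exact absurd rfl hw
    · simp at h3
    · simp at h3
    simp only [Option.map_some, Option.some.injEq, Prod.mk.injEq] at h3
    obtain ⟨rfl, h3, h4⟩ := h3
    refine ⟨e, s, δ, δ', rfl, rfl, ?_⟩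
    by_cases k1 : ko M pt s.1.2 = some n.1.2.2
    · rw [if_neg (sp_ne A M pt s k1), if_neg (sp_ne A M pt s k1)] at h4
      exact .inl ⟨Option.some_injective _ h4, k1⟩
    · rw [if_neg k1, if_neg k1] at h3
      by_cases k2 : ko M pt s.1.1 = some n.1.2.2
      · exact .inr ⟨Option.some_injective _ h3, k2⟩
      · rw [if_neg k2, if_neg k2] at h4
        exact absurd (by rw [Subtype.ext (Prod.ext (Option.some_injective _ h3)
          (Option.some_injective _ h4) : δ.1 = δ'.1)]) hw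
  shx := by
    intro e s δ δ' n h1 h2 h3
    refine h3.trans ?_
    have h2' : ko M pt s.1.2 = some n.1.2.2 := h2
    simp only [ad, Option.map_some, if_pos h2', h1]
  shv := by
    intro e s δ δ' n h1 h2 h3
    refine h3.trans ?_
    have h2' : ko M pt s.1.1 = some n.1.2.2 := h2
    simp only [ad, Option.map_some, if_pos h2', h1]

end Pool.Agent.MP_1c0fc2_co.RE.GamC
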