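import Pool.Agent.MP_1c0fc2_co.RE.GamA

/-! Hubs, units and red parts of the middle graph. -/

open Function Set Relation

namespace Pool.Agent.MP_1c0fc2_co.RE.GamC

variable {U Q : Type} {A M : SimpleGraph U} {I : Set U} {pt : U → Option Q}

section Host
variable (H : MH (prof A M pt)) (R : Type)

abbrev XV := ((H.V ⊕ H.E) × U) ⊕ R × U

open Classical in
/-- the owner of a vertex of a unit -/
noncomputable def ow (d : H.E) (a : U) : H.V ⊕ H.E :=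
  if h : ∃ n, H.mem n d ∧ ko M pt a = some (H.kd n) then .inl h.choose else .inr d

def te : (Set U ⊕ Q) ⊕ Ty A M → U → U := Sum.elim (fun _ => id) Subtype.val

open Classical in
noncomputable def lab (d : H.E) (a : U) : U := if a ∈ M.support then te (H.ty d) a else a

noncomputable def uu (d : H.E) (a : U) : XV H R := .inl (ow H d a, lab H d a)

def hb (n : H.V) (a : U) : XV H R := .inl (.inl n, a)

def own : XV H R → Option (H.V ⊕ H.E) := Sum.elim (fun x => some x.1) fun _ => none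

def IsH (n : H.V) : Prop := ∃ k, H.kd n = .inl k

variable {H R} {d d' : H.E} {n n' : H.V} {a b : U}

theorem ow_inl : ow H d a = .inl n ↔ H.mem n d ∧ ko M pt a = some (H.kd n) := by
  unfold ow
  split_ifs with h
  · constructor
    · intro e
      exact Sum.inl_injective e ▸ h.choose_spec
    · intro e
      exact congrArg _ (mem_uniq h.choose_spec.1 e.1
        (Option.some_injective _ (h.choose_spec.2.symm.trans e.2)))
  · exact ⟨fun e => e.elim, fun e => absurd ⟨n, e⟩ h⟩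

theorem ow_inr (h : ow H d a = .inr d') : d' = d := by
  unfold ow at h
  split_ifs at h
  exact (Sum.inr_injective h).symm

theorem ow_none (h : ko M pt a = none) : ow H d a = .inr d :=
  dif_neg fun ⟨_, _, e⟩ => by simp [h] at e

theorem IsU.ow_some (hd : IsU d) {i : Set U ⊕ Q} (h : ko M pt a = some i) :
    ∃ n, ow H d a = .inl n ∧ H.mem n d ∧ H.kd n = i := by
  obtain ⟨n, h1, rfl⟩ := hd.ex h
  exact ⟨n, ow_inl.2 ⟨h1, h⟩, h1, rfl⟩

theorem ow_wb (d : H.E) (a : U) : ow H d a ∈ H.WB d := by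
  rcases e : ow H d a with n | d'
  · exact .inr ⟨n, (ow_inl.1 e).1, rfl⟩
  · exact .inl (congrArg _ (ow_inr e))

theorem ow_congr (h : ko M pt a = ko M pt b) : ow H d a = ow H d b := by
  unfold ow
  rw [h]

theorem ow_ne (h : d ≠ d') (e : ow H d a = ow H d' b) : ∃ n, ow H d a = .inl n ∧ H.mem n d ∧
    H.mem n d' ∧ ko M pt a = some (H.kd n) ∧ ko M pt b = some (H.kd n) := by
  rcases e1 : ow H d a with n | d1
  · have e2 := ow_inl.1 (e.symm.trans e1)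
    exact ⟨n, rfl, (ow_inl.1 e1).1, e2.1, (ow_inl.1 e1).2, e2.2⟩
  · exact absurd ((ow_inr e1).symm.trans (ow_inr (e.symm.trans e1))) h

theorem ow_ko (hd : IsU d) (hd' : IsU d') (e : ow H d a = ow H d' b) :
    ko M pt a = ko M pt b := by
  rcases e1 : ko M pt a with _ | i
  · rcases e2 : ko M pt b with _ | j
    · rfl
    · obtain ⟨n, h, -⟩ := hd'.ow_some e2
      rw [ow_none e1, h] at e
      exact (Sum.inr_ne_inl e).elim
  · obtain ⟨n, h, -, rfl⟩ := hd.ow_some e1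
    exact (ow_inl.1 (e.symm.trans h)).2.symm

theorem inl_wb : .inl n ∈ H.WB d ↔ H.mem n d :=
  ⟨fun h => h.elim (fun e => (Sum.inl_ne_inr e).elim) fun ⟨_, h, e⟩ => Sum.inl_injective e ▸ h,
    fun h => .inr ⟨n, h, rfl⟩⟩

theorem inr_wb : .inr d' ∈ H.WB d ↔ d' = d :=
  ⟨fun h => h.elim (fun e => Sum.inr_injective e) fun ⟨_, _, e⟩ => (Sum.inr_ne_inl e).elim,
    fun h => .inl (congrArg _ h)⟩

theorem wb_ne (h : d ≠ d') (e : ow H d a ∈ H.WB d') : ∃ n, ow H d a = .inl n ∧ H.mem n d ∧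
    H.mem n d' ∧ ko M pt a = some (H.kd n) := by
  rcases e1 : ow H d a with n | d1
  · rw [e1] at e
    exact ⟨n, rfl, (ow_inl.1 e1).1, inl_wb.1 e, (ow_inl.1 e1).2⟩
  · rw [e1] at e
    exact absurd ((ow_inr e1).symm.trans (inr_wb.1 e)) h

theorem ow_same {d1 d2 : H.E} (h1 : IsU d1) (h2 : IsU d2) (e : ko M pt a = ko M pt b)
    (w1 : ow H d1 a ∈ H.WB d) (w2 : ow H d2 b ∈ H.WB d) : ow H d1 a = ow H d2 b := by
  rcases e1 : ko M pt a with _ | i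
  · rw [ow_none e1] at w1 ⊢
    rw [ow_none (e.symm.trans e1)] at w2 ⊢
    rw [inr_wb.1 w1, inr_wb.1 w2]
  · obtain ⟨n, k1, -, k2⟩ := h1.ow_some e1
    obtain ⟨n', k3, -, k4⟩ := h2.ow_some (e.symm.trans e1)
    rw [k1] at w1 ⊢
    rw [k3] at w2 ⊢
    rw [mem_uniq (inl_wb.1 w1) (inl_wb.1 w2) (k2.trans k4.symm)]

theorem lab_off (h : a ∉ M.support) : lab H d a = a := if_neg h

theorem lab_sup {e : Ty A M} (hd : H.ty d = .inr e) (h : a ∈ M.support) : lab H d a = e.1 a := by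
  rw [lab, if_pos h, hd]; rfl

theorem lab_adj (hd : IsU d) (h : M.Adj a b) : A.Adj (lab H d a) (lab H d b) := by
  obtain ⟨e, hd⟩ := hd
  rw [lab_sup hd ⟨b, h⟩, lab_sup hd ⟨a, h.symm⟩]
  exact e.2 a b h

theorem uu_eq : uu H R d a = uu H R d' b ↔ ow H d a = ow H d' b ∧ lab H d a = lab H d' b := by
  simp [uu]

theorem own_uu : own H R (uu H R d a) = some (ow H d a) := rfl

theorem uu_hb {x : U} : uu H R d a = hb H R n x ↔ ow H d a = .inl n ∧ lab H d a = x := by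
  simp [uu, hb]

theorem hb_eq {x y : U} : hb H R n x = hb H R n' y ↔ n = n' ∧ x = y := by
  simp [hb]

theorem own_hb {y : XV H R} : y ∈ range (hb H R n) ↔ own H R y = some (.inl n) := by
  rcases y with ⟨o, x⟩ | y
  · simp [hb, own, eq_comm]
  · simp [hb, own]

theorem uu_off (hd : IsU d) (hd' : IsU d') (ha : a ∉ M.support)
    (e : uu H R d a = uu H R d' b) : a = b := by
  obtain ⟨e1, e2⟩ := uu_eq.1 e
  have hb : b ∉ M.support := fun hb => ha (ko_sup_iff (ow_ko hd hd' e1).symm hb).1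
  rwa [lab_off ha, lab_off hb] at e2

theorem uu_inj (hd : IsU d) : Injective (uu H R d) := fun a b e => by
  by_cases ha : a ∈ M.support
  · obtain ⟨e1, e2⟩ := uu_eq.1 e
    exact (kd_eq (ko_sup_iff (ow_ko hd hd e1) ha).2).resolve_right fun h => (lab_adj hd h).ne e2
  · exact uu_off hd hd ha e

theorem uu_of_ow (ha : a ∉ M.support) (e : ow H d a = ow H d' a) :
    uu H R d a = uu H R d' a :=
  uu_eq.2 ⟨e, by rw [lab_off ha, lab_off ha]⟩

theorem ow_hub (hn : IsH H n) (e : ow H d a = .inl n) : a ∈ M.support := by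
  obtain ⟨k, hk⟩ := hn
  have := (ow_inl.1 e).2
  rw [hk] at this
  exact (ko_inl this).1

theorem IsU.hub (hd : IsU d) (ha : a ∈ M.support) : ∃ n, IsH H n ∧ ow H d a = .inl n := by
  obtain ⟨n, h1, -, h2⟩ := hd.ow_some (ko_sup ha)
  exact ⟨n, ⟨_, h2⟩, h1⟩

theorem isH_of (ha : a ∈ M.support) (h : ko M pt a = some (H.kd n)) : IsH H n := by
  rw [ko_sup ha] at h
  exact ⟨_, (Option.some_injective _ h).symm⟩

/-- two vertices of a unit in one hub are partners -/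
theorem ow_adj (hn : IsH H n) (h1 : ow H d a = .inl n) (h2 : ow H d b = .inl n) (hab : a ≠ b) :
    M.Adj a b :=
  (kd_eq (ko_sup_iff ((ow_inl.1 h1).2.trans (ow_inl.1 h2).2.symm) (ow_hub hn h1)).2).resolve_left
    hab

end Host

/-- the label of the territory of a unit -/
def lx (w : Un A M I) : Ty A M × Option (Sp A M × U) := (w.1, w.2.map fun t => (t.1, t.2.1.2))

/-- the hypotheses of the construction -/
structure Ctx (I : Set U) {F H : MH (prof A M pt)} (un : Un A M I → F.E) {P : Type}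
    (φ : P → MEmb F H) (g : ℕ) : Prop where
  imat : IMat A M
  ind : Indp A I
  hpt : ∀ a ∈ M.support, pt a = none
  hnc : ∀ u ∉ M.support, pt u = none → NoCom A I
  ok : FOk A M I pt F un
  good : Good φ g
  tri : H.NoTri

variable {F H : MH (prof A M pt)} (un : Un A M I → F.E) {P : Type} (φ : P → MEmb F H) {g : ℕ}

abbrev RI (A M : SimpleGraph U) (P : Type) := P × Ty A M × Sp A M

/-- the unit `w` of the copy `p` -/
def uU (p : P) (w : Un A M I) : H.E := (φ p).e (un w)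

def uD (r : RI A M P) (δ : Dt A I) : H.E := uU un φ r.1 (r.2.1, some (r.2.2, δ))

noncomputable def leaf (r : RI A M P) (δ : Dt A I) : XV H (RI A M P) :=
  uu H _ (uD un φ r δ) r.2.2.1.2

noncomputable def ctr (r : RI A M P) (δ : Dt A I) : XV H (RI A M P) :=
  uu H _ (uD un φ r δ) r.2.2.1.1

open Classical in
/-- red parts -/
noncomputable def xi (r : RI A M P) (a : U) : XV H (RI A M P) :=
  if h : ∃ δ : Dt A I, δ.1.1 = a then ctr un φ r h.choose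
  else if h : ∃ δ : Dt A I, δ.1.2 = a then leaf un φ r h.choose else .inr (r, a)

variable {un φ} {p p' : P} {w w' : Un A M I} {n : H.V} {d : H.E} {a b : U}

theorem mem_bag_wb (h : .inr d ∈ (φ p).Bag) : H.WB d ⊆ (φ p).Bag := by
  obtain ⟨y | y, e⟩ := h
  · exact (Sum.inl_ne_inr e).elim
  obtain rfl : (φ p).e y = d := Sum.inr_injective e
  rintro _ (rfl | ⟨v, hv, rfl⟩)
  · exact ⟨.inr y, rfl⟩
  · obtain ⟨x, -, rfl⟩ := ((φ p).mem_iff _ _).1 hv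
    exact ⟨.inl x, rfl⟩

theorem uU_bag (p : P) (w : Un A M I) : H.WB (uU un φ p w) ⊆ (φ p).Bag :=
  mem_bag_wb ⟨.inr _, rfl⟩

theorem mem_pull {x : F.V} {f : F.E} (h : H.mem ((φ p).v x) ((φ p).e f)) : F.mem x f := by
  obtain ⟨y, hy, e⟩ := ((φ p).mem_iff _ _).1 h
  rwa [← (φ p).v_inj e]

namespace Ctx
variable (c : Ctx I un φ g)
include c

theorem mat : Mat M := c.imat.2.1

theorem ty (p : P) (w : Un A M I) : H.ty (uU un φ p w) = .inr w.1 :=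
  ((φ p).ty_e _).trans (c.ok.ty w)

theorem isU (p : P) (w : Un A M I) : IsU (uU un φ p w) := ⟨_, c.ty p w⟩

theorem isD (r : RI A M P) (δ : Dt A I) : IsU (uD un φ r δ) := c.isU _ _

theorem uU_inj (h : uU un φ p w = uU un φ p w') : w = w' := c.ok.inj ((φ p).e_inj h)

theorem of_bag (hd : IsU d) (h : .inr d ∈ (φ p).Bag) : ∃ w, uU un φ p w = d := by
  obtain ⟨y | y, e⟩ := h
  · exact (Sum.inl_ne_inr e).elim
  obtain rfl : (φ p).e y = d := Sum.inr_injective e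
  obtain ⟨t, ht⟩ := hd
  obtain ⟨w, rfl⟩ := c.ok.sur y t (((φ p).ty_e y).symm.trans ht)
  exact ⟨w, rfl⟩

theorem cov (hd : IsU d) : ∃ p w, uU un φ p w = d :=
  let ⟨p, hp⟩ := c.good.cov (.inr d); ⟨p, c.of_bag hd hp⟩

theorem nj (h : .inl n ∈ (φ p).Bag) : ∃ w, H.mem n (uU un φ p w) := by
  obtain ⟨y | y, e⟩ := h
  swap
  · exact (Sum.inr_ne_inl e).elim
  obtain ⟨w, hw⟩ := c.ok.nj y
  exact ⟨w, ((φ p).mem_iff _ _).2 ⟨y, hw, Sum.inl_injective e⟩⟩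

theorem two_bag {n n' : H.V} (h : .inl n ∈ (φ p).Bag) (h' : .inl n' ∈ (φ p).Bag) (e : n ≠ n')
    (m : H.mem n d) (m' : H.mem n' d) : ∃ w, uU un φ p w = d := by
  obtain ⟨y | y, k⟩ := h
  swap
  · exact (Sum.inr_ne_inl k).elim
  obtain ⟨y' | y', k'⟩ := h'
  swap
  · exact (Sum.inr_ne_inl k').elim
  obtain rfl : (φ p).v y = n := Sum.inl_injective k
  obtain rfl : (φ p).v y' = n' := Sum.inl_injective k'
  obtain ⟨d0, rfl⟩ := c.good.str p y y' d (fun k => e (by rw [k])) m m'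
  exact c.of_bag (isU_of_two m m' e) ⟨.inr d0, rfl⟩

theorem sh (hw : w ≠ w') (h : H.mem n (uU un φ p w)) (h' : H.mem n (uU un φ p w')) :
    ∃ e s δ δ', w = (e, some (s, δ)) ∧ w' = (e, some (s, δ')) ∧
      ((δ.1.2 = δ'.1.2 ∧ ko M pt s.1.2 = some (H.kd n)) ∨
      (δ.1.1 = δ'.1.1 ∧ ko M pt s.1.1 = some (H.kd n))) := by
  obtain ⟨x, hx, rfl⟩ := ((φ p).mem_iff _ _).1 h
  rw [(φ p).kd_v]
  exact c.ok.sh w w' x hw hx (mem_pull h')

/-- a vertex of a body whose owner lies on another unit of the copy is an exit -/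
theorem exit (hw : w ≠ w') (ha : a ∉ M.support)
    (h : ow H (uU un φ p w) a ∈ H.WB (uU un φ p w')) : ∃ e s δ δ', w = (e, some (s, δ)) ∧
      w' = (e, some (s, δ')) ∧ δ.1.2 = δ'.1.2 ∧ ko M pt a = ko M pt s.1.2 ∧
      ∃ n, ow H (uU un φ p w) a = .inl n ∧ ow H (uU un φ p w') s.1.2 = .inl n := by
  obtain ⟨n, h1, h2, h3, h4⟩ := wb_ne (fun e => hw (c.uU_inj e)) h
  obtain ⟨e, s, δ, δ', k1, k2, k | k⟩ := c.sh hw h2 h3
  · exact ⟨e, s, δ, δ', k1, k2, k.1, h4.trans k.2.symm, n, h1, ow_inl.2 ⟨h3, k.2⟩⟩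
  · exact absurd (ko_sup_iff (k.2.trans h4.symm) s.2.1).1 ha

theorem lx_eq (ha : a ∉ M.support) (h : ow H (uU un φ p w) a ∈ H.WB (uU un φ p w')) :
    lx w = lx w' := by
  by_cases hw : w = w'
  · rw [hw]
  obtain ⟨e, s, δ, δ', rfl, rfl, k, -⟩ := c.exit hw ha h
  simp [lx, k]

theorem ctr_eq (r : RI A M P) {δ δ' : Dt A I} (h : δ.1.1 = δ'.1.1) :
    ctr un φ r δ = ctr un φ r δ' := by
  obtain ⟨n, h1, h2, h3⟩ := (c.isD r δ).ow_some (ko_sup r.2.2.2.1)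
  have h4 := (ow_inl.1 h1).2
  obtain ⟨x, hx, rfl⟩ := ((φ r.1).mem_iff _ _).1 h2
  refine uu_eq.2 ⟨h1.trans (ow_inl.2 ⟨((φ r.1).mem_iff _ _).2 ⟨x, c.ok.shv _ _ δ δ' x h
    (by rwa [(φ r.1).kd_v] at h4) hx, rfl⟩, h4⟩).symm, ?_⟩
  exact (lab_sup (c.ty _ _) r.2.2.2.1).trans
    (lab_sup (c.ty r.1 (r.2.1, some (r.2.2, δ'))) r.2.2.2.1).symm

theorem leaf_eq (r : RI A M P) {δ δ' : Dt A I} (h : δ.1.2 = δ'.1.2) :
    leaf un φ r δ = leaf un φ r δ' := by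
  rcases hp : pt r.2.2.1.2 with _ | q
  · have := c.hnc _ r.2.2.2.2.1 hp _ δ.2.1 _ δ'.2.1 _ δ.2.2 (h ▸ δ'.2.2)
    rw [Subtype.ext (Prod.ext this h : δ.1 = δ'.1)]
  obtain ⟨n, h1, h2, h3⟩ := (c.isD r δ).ow_some (ko_of_pt r.2.2.2.2.1 hp)
  have h4 := (ow_inl.1 h1).2
  obtain ⟨x, hx, rfl⟩ := ((φ r.1).mem_iff _ _).1 h2
  exact uu_of_ow r.2.2.2.2.1 (h1.trans (ow_inl.2 ⟨((φ r.1).mem_iff _ _).2 ⟨x,
    c.ok.shx _ _ δ δ' x h (by rwa [(φ r.1).kd_v] at h4) hx, rfl⟩, h4⟩).symm)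

theorem dx (δ : Dt A I) : δ.1.2 ∉ I := fun h => c.ind _ δ.2.1 _ h δ.2.2

theorem xi_ctr (r : RI A M P) (δ : Dt A I) : xi un φ r δ.1.1 = ctr un φ r δ := by
  have h : ∃ δ' : Dt A I, δ'.1.1 = δ.1.1 := ⟨δ, rfl⟩
  rw [xi, dif_pos h]
  exact c.ctr_eq r h.choose_spec

theorem xi_leaf (r : RI A M P) (δ : Dt A I) : xi un φ r δ.1.2 = leaf un φ r δ := by
  have h : ∃ δ' : Dt A I, δ'.1.2 = δ.1.2 := ⟨δ, rfl⟩
  rw [xi, dif_neg fun ⟨δ', e⟩ => c.dx δ (e ▸ δ'.2.1), dif_pos h]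
  exact c.leaf_eq r h.choose_spec

theorem xi_cases (r : RI A M P) (a : U) : (∃ δ : Dt A I, δ.1.1 = a ∧ xi un φ r a = ctr un φ r δ) ∨
    (∃ δ : Dt A I, δ.1.2 = a ∧ xi un φ r a = leaf un φ r δ) ∨ xi un φ r a = .inr (r, a) := by
  by_cases h : ∃ δ : Dt A I, δ.1.1 = a
  · obtain ⟨δ, rfl⟩ := h
    exact .inl ⟨δ, rfl, c.xi_ctr r δ⟩
  by_cases h' : ∃ δ : Dt A I, δ.1.2 = a
  · obtain ⟨δ, rfl⟩ := h'
    exact .inr (.inl ⟨δ, rfl, c.xi_leaf r δ⟩)
  · exact .inr (.inr (by rw [xi, dif_neg h, dif_neg h']))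

theorem xi_off (r : RI A M P) (ha : a ∉ I) :
    (∃ δ : Dt A I, δ.1.2 = a ∧ xi un φ r a = leaf un φ r δ) ∨ xi un φ r a = .inr (r, a) :=
  (c.xi_cases r a).resolve_left fun ⟨δ, e, _⟩ => ha (e ▸ δ.2.1)

/-- leaves of one copy with the same owner -/
theorem leaf_own {e e' : Ty A M} {s s' : Sp A M} {δ δ' : Dt A I}
    (h : ow H (uD un φ (p, e, s) δ) s.1.2 ∈ H.WB (uD un φ (p, e', s') δ')) :
    e = e' ∧ s = s' ∧ δ.1.2 = δ'.1.2 := by
  have := c.lx_eq s.2.2.1 h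
  simpa [lx] using this

theorem leaf_wb {r : RI A M P} {δ δ' : Dt A I} (h : ow H (uD un φ r δ) r.2.2.1.2 ∈ H.WB d)
    (h' : ow H (uD un φ r δ') r.2.2.1.2 ∈ H.WB d) : leaf un φ r δ = leaf un φ r δ' := by
  have := ow_same (c.isD r δ) (c.isD r δ') rfl h h'
  exact uu_of_ow r.2.2.2.2.1 this

theorem xi_inj (r : RI A M P) : Injective (xi un φ r) := by
  have k : ∀ δ δ', ctr un φ r δ ≠ leaf un φ r δ' := fun δ δ' e =>
    r.2.2.2.2.1 (ko_sup_iff (ow_ko (c.isD r δ) (c.isD r δ') (uu_eq.1 e).1) r.2.2.2.1).1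
  intro a b e
  rcases c.xi_cases r a with ⟨δ, rfl, h⟩ | ⟨δ, rfl, h⟩ | h <;>
    rcases c.xi_cases r b with ⟨δ', rfl, h'⟩ | ⟨δ', rfl, h'⟩ | h' <;> rw [h, h'] at e
  · by_contra hne
    have hw : (r.2.1, some (r.2.2, δ)) ≠ (r.2.1, some (r.2.2, δ')) := fun k => hne (by
      simp only [Prod.mk.injEq, Option.some.injEq, true_and] at k
      rw [k])
    obtain ⟨n, -, h2, h3, h4, -⟩ := ow_ne (fun k => hw (c.uU_inj k)) (uu_eq.1 e).1
    obtain ⟨_, s, δ1, δ2, k1, k2, k⟩ := c.sh hw h2 h3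
    simp only [Prod.mk.injEq, Option.some.injEq] at k1 k2
    obtain ⟨-, rfl, rfl⟩ := k1
    obtain ⟨-, -, rfl⟩ := k2
    exact k.elim (fun k => sp_ne A M pt _ k.2 h4) fun k => hne k.1
  · exact absurd e (k _ _)
  · exact (Sum.inl_ne_inr e).elim
  · exact absurd e.symm (k _ _)
  · exact (c.leaf_own (p := r.1) (e := r.2.1) (s := r.2.2) (δ := δ) (δ' := δ')
      ((uu_eq.1 e).1.symm ▸ ow_wb _ _)).2.2
  · exact (Sum.inl_ne_inr e).elim
  · exact (Sum.inr_ne_inl e).elim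
  · exact (Sum.inr_ne_inl e).elim
  · exact congrArg Prod.snd (Sum.inr_injective e)

/-- a vertex of a red part with an owner is a leaf -/
theorem xi_own {r : RI A M P} {y : XV H (RI A M P)} (hy : y ∈ xi un φ r '' Iᶜ)
    {o : H.V ⊕ H.E} (h : own H _ y = some o) :
    ∃ δ, y = leaf un φ r δ ∧ ow H (uD un φ r δ) r.2.2.1.2 = o := by
  obtain ⟨a, ha, rfl⟩ := hy
  rcases c.xi_off r ha with ⟨δ, -, e⟩ | e <;> rw [e] at h ⊢
  · exact ⟨δ, rfl, Option.some_injective _ h⟩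
  · simp [own] at h

theorem leaf_mem (r : RI A M P) (δ : Dt A I) : leaf un φ r δ ∈ xi un φ r '' Iᶜ :=
  ⟨_, c.dx δ, c.xi_leaf r δ⟩

theorem xu (r : RI A M P) (d : H.E) : (xi un φ r '' Iᶜ ∩ range (uu H _ d)).Subsingleton := by
  rintro _ ⟨h1, a, rfl⟩ _ ⟨h2, b, rfl⟩
  obtain ⟨δ, e1, k1⟩ := c.xi_own h1 own_uu
  obtain ⟨δ', e2, k2⟩ := c.xi_own h2 own_uu
  rw [e1, e2]
  exact c.leaf_wb (k1 ▸ ow_wb d a) (k2 ▸ ow_wb d b)

/-- a common vertex of two red parts is a leaf, and the copies are different -/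
theorem xx_leaf {r r' : RI A M P} (hr : r ≠ r') {y : XV H (RI A M P)} (hy : y ∈ xi un φ r '' Iᶜ)
    (hy' : y ∈ xi un φ r' '' Iᶜ) : r.1 ≠ r'.1 ∧ ∃ δ δ', y = leaf un φ r δ ∧ y = leaf un φ r' δ' := by
  obtain ⟨a, ha, rfl⟩ := hy
  rcases c.xi_off r ha with ⟨δ, -, e⟩ | e <;> rw [e] at hy' ⊢
  · obtain ⟨δ', e', k⟩ := c.xi_own hy' own_uu
    refine ⟨?_, δ, δ', rfl, e'⟩
    obtain ⟨p, t, s⟩ := r
    obtain ⟨p', t', s'⟩ := r'
    rintro (rfl : p = p')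
    obtain ⟨rfl, rfl, -⟩ := c.leaf_own (k ▸ ow_wb _ _)
    exact hr rfl
  · obtain ⟨b, hb, e'⟩ := hy'
    rcases c.xi_off r' hb with ⟨δ, -, e⟩ | e <;> rw [e] at e'
    · exact (Sum.inl_ne_inr e').elim
    · exact absurd (congrArg Prod.fst (Sum.inr_injective e')).symm hr

/-- a red part meets another copy in at most one vertex -/
theorem xbag {r : RI A M P} (hp : r.1 ≠ p) {δ δ' : Dt A I}
    (h : ow H (uD un φ r δ) r.2.2.1.2 ∈ (φ p).Bag) (h' : ow H (uD un φ r δ') r.2.2.1.2 ∈ (φ p).Bag) :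
    leaf un φ r δ = leaf un φ r δ' := by
  by_cases e : ow H (uD un φ r δ) r.2.2.1.2 = ow H (uD un φ r δ') r.2.2.1.2
  · exact uu_of_ow r.2.2.2.2.1 e
  obtain ⟨d, k, k'⟩ := c.good.b2 _ _ hp _ _ e (uU_bag _ _ (ow_wb _ _)) (uU_bag _ _ (ow_wb _ _)) h h'
  exact c.leaf_wb k k'

theorem xx {r r' : RI A M P} (hr : r ≠ r') :
    (xi un φ r '' Iᶜ ∩ xi un φ r' '' Iᶜ).Subsingleton := by
  rintro y ⟨h1, h2⟩ y' ⟨h3, h4⟩
  obtain ⟨hp, δ, δ1, rfl, e1⟩ := c.xx_leaf hr h1 h2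
  obtain ⟨-, δ', δ2, rfl, e2⟩ := c.xx_leaf hr h3 h4
  exact c.xbag hp ((uu_eq.1 e1).1 ▸ uU_bag _ _ (ow_wb _ _))
    ((uu_eq.1 e2).1 ▸ uU_bag _ _ (ow_wb _ _))

theorem xi_hub {r : RI A M P} (hn : IsH H n) {y : XV H (RI A M P)} (hy : y ∈ xi un φ r '' Iᶜ) :
    y ∉ range (hb H _ n) := fun h => by
  obtain ⟨δ, -, k⟩ := c.xi_own hy (own_hb.1 h)
  exact r.2.2.2.2.1 (ow_hub hn k)

end Ctx

end Pool.Agent.MP_1c0fc2_co.RE.GamC
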