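import Pool.Agent.MP_1c0fc2_co.RE.GamR

/-! The edges of the middle graph and the frame of hubs and units. -/

open Function Set Relation

namespace Pool.Agent.MP_1c0fc2_co.RE.GamC

variable {U Q : Type} {A M : SimpleGraph U} {I : Set U} {pt : U → Option Q}

/-- the union of the images of `A[S]` -/
def gr {X : Type} (A : SimpleGraph U) (S : Set U) (Fs : Set (U → X)) : SimpleGraph X where
  Adj y y' := y ≠ y' ∧ ∃ f ∈ Fs, ∃ a ∈ S, ∃ b ∈ S, A.Adj a b ∧ f a = y ∧ f b = y'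
  symm := ⟨fun _ _ ⟨h, f, hf, a, ha, b, hb, e, e1, e2⟩ =>
    ⟨h.symm, f, hf, b, hb, a, ha, e.symm, e2, e1⟩⟩
  loopless := ⟨fun _ h => h.1 rfl⟩

theorem imat_adj (h : IMat A M) {a b : U} (ha : a ∈ M.support) (hb : b ∈ M.support)
    (e : A.Adj a b) : M.Adj a b := by
  obtain ⟨a', ha⟩ := ha
  obtain ⟨b', hb⟩ := hb
  rwa [h.2.2 a a' b b' ha hb e]

section Host
variable {H : MH (prof A M pt)} {R : Type} {d d' : H.E} {n : H.V} {a b : U}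

theorem gH_adj (hn : IsH H n) (e : A.Adj a b) :
    (gr A univ (Hs H R)).Adj (hb H R n a) (hb H R n b) :=
  ⟨fun k => e.ne (hb_eq.1 k).2, _, ⟨n, hn, rfl⟩, a, trivial, b, trivial, e, rfl, rfl⟩

theorem gH_hb {y : XV H R} (h : (gr A univ (Hs H R)).Adj (hb H R n a) y) :
    ∃ b, y = hb H R n b ∧ A.Adj a b := by
  obtain ⟨-, _, ⟨n', -, rfl⟩, x, -, b, -, e, e1, rfl⟩ := h
  obtain ⟨rfl, rfl⟩ := hb_eq.1 e1
  exact ⟨b, rfl, e⟩

theorem gH_uu (hM : Mat M) (hd : IsU d) :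
    (gr A univ (Hs H R)).Adj (uu H R d a) (uu H R d b) ↔ M.Adj a b := by
  constructor
  · rintro ⟨hne, _, ⟨n, hn, rfl⟩, x, -, y, -, -, e1, e2⟩
    exact ow_adj hn (uu_hb.1 e1.symm).1 (uu_hb.1 e2.symm).1 fun k => hne (by rw [k])
  · intro e
    obtain ⟨n, hn, k⟩ := hd.hub ⟨b, e⟩
    rw [uu_hb.2 ⟨k, rfl⟩, uu_hb.2 ⟨(ow_congr (ko_adj hM e)).symm.trans k, rfl⟩]
    exact gH_adj hn (lab_adj hd e)

theorem gU_adj (hd : IsU d) (e : A.Adj a b) :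
    (gr A univ (Us H R)).Adj (uu H R d a) (uu H R d b) :=
  ⟨fun k => e.ne (uu_inj hd k), _, ⟨d, hd, rfl⟩, a, trivial, b, trivial, e, rfl, rfl⟩

theorem gU_uu (hM : M ≤ A) (hl : H.Lin) (hd : IsU d)
    (h : (gr A univ (Us H R)).Adj (uu H R d a) (uu H R d b)) : A.Adj a b := by
  obtain ⟨hne, _, ⟨d', hd', rfl⟩, x, -, y, -, e, e1, e2⟩ := h
  by_cases k : d' = d
  · subst k
    rwa [← uu_inj hd e1, ← uu_inj hd e2]
  obtain ⟨n, -, k1, k2, -, k3⟩ := ow_ne k (uu_eq.1 e1).1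
  obtain ⟨n', -, k4, k5, -, k6⟩ := ow_ne k (uu_eq.1 e2).1
  obtain rfl : n = n' := by_contra fun k7 => k (hl _ _ _ _ k7 k1 k4 k2 k5)
  by_cases ha : a ∈ M.support
  · exact hM (ow_adj (isH_of ha k3) (ow_inl.2 ⟨k2, k3⟩) (ow_inl.2 ⟨k2, k6⟩)
      fun k => hne (by rw [k]))
  · have hb : b ∉ M.support := fun hb => ha (ko_sup_iff (k6.trans k3.symm) hb).1
    rwa [uu_off hd hd' ha e1.symm, uu_off hd hd' hb e2.symm]

theorem gU_hb (hn : IsH H n) (h : (gr A univ (Us H R)).Adj (hb H R n a) (hb H R n b)) :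
    A.Adj a b := by
  obtain ⟨-, _, ⟨d, hd, rfl⟩, x, -, y, -, e, e1, e2⟩ := h
  obtain ⟨k1, rfl⟩ := uu_hb.1 e1
  obtain ⟨k2, rfl⟩ := uu_hb.1 e2
  exact lab_adj hd (ow_adj hn k1 k2 e.ne)

theorem hb_cl : range (hb H R n) = cl H R {.inl n} := by
  ext y
  rw [own_hb]
  exact ⟨fun h => ⟨_, rfl, h⟩, fun ⟨_, h, e⟩ => h ▸ e⟩

theorem sup_of (h0 : ∀ u, pt u = none) {i : Set U ⊕ Q} (h : ko M pt a = some i) :
    a ∈ M.support := by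
  by_contra ha
  rw [ko_off ha, h0] at h
  simp at h

end Host

variable {F H : MH (prof A M pt)} (un : Un A M I → F.E) {P : Type} (φ : P → MEmb F H) {g : ℕ}

def locB (p : P) : Set (Set (XV H (RI A M P))) :=
  {ν | (∃ n, .inl n ∈ (φ p).Bag ∧ ν = range (hb H _ n)) ∨ ∃ w, ν = range (uu H _ (uU un φ p w))}

variable {un φ} {p p' : P} {w w' w'' : Un A M I} {n n' : H.V} {d : H.E} {a b : U}

namespace Ctx
variable (c : Ctx I un φ g)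
include c

theorem gX_uu : ¬ (gr A Iᶜ (range (xi un φ))).Adj (uu H _ d a) (uu H _ d b) := by
  rintro ⟨hne, _, ⟨r, rfl⟩, x, hx, y, hy, -, e1, e2⟩
  exact hne (c.xu r d ⟨⟨x, hx, e1⟩, a, rfl⟩ ⟨⟨y, hy, e2⟩, b, rfl⟩)

theorem gX_hb (hn : IsH H n) {y : XV H (RI A M P)} :
    ¬ (gr A Iᶜ (range (xi un φ))).Adj (hb H _ n a) y := by
  rintro ⟨-, _, ⟨r, rfl⟩, x, hx, -, -, -, e1, -⟩
  exact c.xi_hub hn ⟨x, hx, rfl⟩ ⟨a, e1.symm⟩

theorem gX_xi {r : RI A M P} (ha : a ∉ I) (hb : b ∉ I) :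
    (gr A Iᶜ (range (xi un φ))).Adj (xi un φ r a) (xi un φ r b) ↔ A.Adj a b := by
  constructor
  · rintro ⟨hne, _, ⟨r', rfl⟩, x, hx, y, hy, e, e1, e2⟩
    by_cases k : r' = r
    · subst k
      rwa [← c.xi_inj _ e1, ← c.xi_inj _ e2]
    · exact absurd (c.xx k ⟨⟨x, hx, e1⟩, a, ha, rfl⟩ ⟨⟨y, hy, e2⟩, b, hb, rfl⟩) hne
  · exact fun e => ⟨fun k => e.ne (c.xi_inj r k), _, ⟨r, rfl⟩, a, ha, b, hb, e, rfl, rfl⟩

theorem uu_tr (hb : b ∈ M.support) (h : ow H (uU un φ p w) b = .inl n)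
    (h' : H.mem n (uU un φ p w')) :
    uu H (RI A M P) (uU un φ p w) b = uu H _ (uU un φ p w') b := by
  by_cases hw : w = w'
  · rw [hw]
  obtain ⟨e, s, δ, δ', rfl, rfl, -⟩ := c.sh hw (ow_inl.1 h).1 h'
  exact uu_eq.2 ⟨h.trans (ow_inl.2 ⟨h', (ow_inl.1 h).2⟩).symm,
    (lab_sup (c.ty _ _) hb).trans (lab_sup (c.ty p (e, some (s, δ'))) hb).symm⟩

theorem shB (h0 : ∀ u, pt u = none) (h1 : w ≠ w') (h2 : w ≠ w'') (m1 : H.mem n (uU un φ p w))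
    (m2 : H.mem n (uU un φ p w')) (m3 : H.mem n' (uU un φ p w)) (m4 : H.mem n' (uU un φ p w'')) :
    n = n' := by
  obtain ⟨e, s, δ, δ', rfl, rfl, k | k⟩ := c.sh h1 m1 m2
  · exact absurd (sup_of h0 k.2) s.2.2.1
  obtain ⟨e', s', δ1, δ2, k1, -, k' | k'⟩ := c.sh h2 m3 m4
  · exact absurd (sup_of h0 k'.2) s'.2.2.1
  simp only [Prod.mk.injEq, Option.some.injEq] at k1
  obtain ⟨-, rfl, -⟩ := k1
  exact mem_uniq m1 m3 (Option.some_injective _ (k.2.symm.trans k'.2))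

theorem isH (h0 : ∀ u, pt u = none) (n : H.V) : IsH H n := by
  obtain ⟨p, hp⟩ := c.good.cov (.inl n)
  obtain ⟨w, hw⟩ := c.nj hp
  obtain ⟨a, ha⟩ := (c.isU p w).kind hw
  exact isH_of (sup_of h0 ha) ha

theorem thinB {S : Set (XV H (RI A M P))}
    (h1 : ∀ w b b', uu H _ (uU un φ p w) b ∈ S → M.Adj b b' → uu H _ (uU un φ p w) b' ∈ S)
    (h2 : ∀ C, Disjoint C S → ConnOn (Tog (locB un φ p)) C → ∀ y ∈ At (locB un φ p) S C,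
      (∃ w b, b ∈ M.support ∧ y = uu H _ (uU un φ p w) b) ∧
      ∀ y' ∈ At (locB un φ p) S C, own H _ y = own H _ y') :
    Thin (locB un φ p) (GLk (gr A univ (Hs H _) ⊔ gr A univ (Us H _))) g S := by
  intro C _ hd hc
  refine (eq_empty_or_nonempty _).imp_right ?_
  rintro ⟨y, hy⟩
  obtain ⟨⟨w, b, ⟨b', hb⟩, rfl⟩, k⟩ := h2 C hd hc y hy
  obtain ⟨n, hn, e⟩ := (c.isU p w).hub ⟨b', hb⟩
  have e' := (ow_congr (ko_adj c.mat hb)).symm.trans e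
  obtain ⟨hS, z, hz, ν, n1, n2, n3⟩ := hy
  refine ⟨{uu H _ (uU un φ p w) b, uu H _ (uU un φ p w) b'},
    .inr ⟨_, _, .inr (gU_adj (c.isU p w) (c.imat.1 hb)), rfl⟩, fun y' hy' => ?_,
    pair_subset hS (h1 w b b' hS hb), ν, n1, pair_subset n2 ?_, z, n3, hz⟩
  · obtain ⟨⟨w1, b1, hb1, rfl⟩, -⟩ := h2 C hd hc y' hy'
    have e1 := (Option.some_injective _ (k _ hy')).symm.trans e
    rw [c.uu_tr hb1 e1 (ow_inl.1 e).1]
    by_cases k1 : b = b1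
    · exact .inl (by rw [k1])
    · exact .inr (congrArg _ (c.mat b b1 b' (ow_adj hn e
        (ow_inl.2 ⟨(ow_inl.1 e).1, (ow_inl.1 e1).2⟩) k1) hb))
  · rcases n1 with ⟨n', -, rfl⟩ | ⟨w1, rfl⟩
    · exact own_hb.2 (congrArg some (e'.trans (e.symm.trans
        (Option.some_injective _ (own_hb.1 n2)))))
    · obtain ⟨b1, k1⟩ := n2
      exact ⟨b', (c.uu_tr ⟨b, hb.symm⟩ e' (ow_inl.1 ((uu_eq.1 k1).1.trans e)).1).symm⟩

theorem thinB_link (h0 : ∀ u, pt u = none) (p : P) (ℓ : Set (H.V ⊕ H.E)) (h : H.Lk ℓ)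
    (hp : ℓ ⊆ (φ p).Bag) :
    Thin (locB un φ p) (GLk (gr A univ (Hs H _) ⊔ gr A univ (Us H _))) g (cl H _ ℓ) := by
  refine c.thinB (fun w b b' h e => uu_cl.2 (ow_congr (ko_adj c.mat e) ▸ uu_cl.1 h)) ?_
  intro C hd _
  have key : ∀ y ∈ At (locB un φ p) (cl H _ ℓ) C, ∃ w b, y = uu H _ (uU un φ p w) b ∧
      ow H (uU un φ p w) b ∈ ℓ ∧ ℓ ≠ H.WB (uU un φ p w) := by
    rintro y ⟨hy, z, hz, _, ⟨n, -, rfl⟩ | ⟨w, rfl⟩, n2, n3⟩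
    · obtain ⟨o, ho, e⟩ := hy
      exact (disjoint_left.1 hd hz ⟨o, ho, (own_hb.1 n3).trans
        ((own_hb.1 n2).symm.trans e)⟩).elim
    · obtain ⟨b, rfl⟩ := n2
      obtain ⟨b', rfl⟩ := n3
      exact ⟨w, b, rfl, uu_cl.1 hy, fun e => disjoint_left.1 hd hz (uu_cl.2 (e ▸ ow_wb _ _))⟩
  intro y hy
  obtain ⟨w, b, rfl, k1, k2⟩ := key y hy
  rcases h with ⟨n, rfl⟩ | ⟨d, rfl⟩
  · refine ⟨⟨w, b, sup_of h0 (ow_inl.1 k1).2, rfl⟩, fun y' hy' => ?_⟩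
    obtain ⟨w', b', rfl, k3, -⟩ := key y' hy'
    exact congrArg some (k1.trans k3.symm)
  obtain ⟨n, m1, m2, m3, m4⟩ := wb_ne (fun e => k2 (by rw [e])) k1
  refine ⟨⟨w, b, sup_of h0 m4, rfl⟩, fun y' hy' => ?_⟩
  obtain ⟨w', b', rfl, k3, k4⟩ := key y' hy'
  obtain ⟨n', m1', m2', m3', -⟩ := wb_ne (fun e => k4 (by rw [e])) k3
  rw [own_uu, own_uu, m1, m1']
  by_contra e
  obtain ⟨w0, rfl⟩ := c.of_bag (isU_of_two m3 m3' fun k => e (by rw [k])) (hp (.inl rfl))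
  exact e (by rw [c.shB h0 (fun e => k2 (by rw [e])) (fun e => k4 (by rw [e])) m3 m2 m3' m2'])

theorem thinB_unit (h0 : ∀ u, pt u = none) (p : P) (w0 : Un A M I) :
    Thin (locB un φ p) (GLk (gr A univ (Hs H _) ⊔ gr A univ (Us H _))) g
      (range (uu H _ (uU un φ p w0))) := by
  refine c.thinB ?_ ?_
  · rintro w b b' ⟨b0, e⟩ hb
    obtain ⟨n, -, k⟩ := (c.isU p w).hub ⟨b', hb⟩
    exact ⟨b', (c.uu_tr ⟨b, hb.symm⟩ ((ow_congr (ko_adj c.mat hb)).symm.trans k)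
      (ow_inl.1 ((uu_eq.1 e).1.trans k)).1).symm⟩
  intro C hd hc
  let T : H.V → Set (XV H (RI A M P)) := fun n => {z | own H _ z = some (.inl n) ∨
    ∃ w, w0 ≠ w ∧ H.mem n (uU un φ p w) ∧ z ∈ cl H _ (H.WB (uU un φ p w))}
  have ne : ∀ w b, uu H _ (uU un φ p w) b ∈ C → w0 ≠ w := by
    rintro w b h rfl
    exact disjoint_left.1 hd h ⟨b, rfl⟩
  have key : ∀ y ∈ At (locB un φ p) (range (uu H _ (uU un φ p w0))) C, ∃ b n,
      y = uu H _ (uU un φ p w0) b ∧ ow H (uU un φ p w0) b = .inl n ∧ ∃ z ∈ C, z ∈ T n := by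
    rintro _ ⟨⟨b, rfl⟩, z, hz, _, ⟨n, -, rfl⟩ | ⟨w, rfl⟩, n2, n3⟩
    · exact ⟨b, n, rfl, Option.some_injective _ (own_hb.1 n2), z, hz, .inl (own_hb.1 n3)⟩
    · obtain ⟨b1, e⟩ := n2
      obtain ⟨b2, rfl⟩ := n3
      obtain ⟨n, m1, -, m2, -⟩ := ow_ne (fun k => ne w b2 hz (c.uU_inj k)) (uu_eq.1 e.symm).1
      exact ⟨b, n, rfl, m1, _, hz, .inr ⟨w, ne w b2 hz, m2, uu_cl.2 (ow_wb _ _)⟩⟩
  intro y hy
  obtain ⟨b, n, rfl, k1, z, hz, k2⟩ := key y hy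
  refine ⟨⟨w0, b, sup_of h0 (ow_inl.1 k1).2, rfl⟩, fun y' hy' => ?_⟩
  obtain ⟨b', n', rfl, k3, z', hz', k4⟩ := key y' hy'
  have m := (ow_inl.1 k1).1
  have m' := (ow_inl.1 k3).1
  have sub := hc.sub (Y := T n) hz k2 (by
    rintro x hx x' - hT ⟨_, ⟨n1, -, rfl⟩ | ⟨w2, rfl⟩, n2, n3⟩
    · have e := (own_hb.1 n3).trans (own_hb.1 n2).symm
      rcases hT with h | ⟨w, h1, h2, o, h3, h4⟩
      exacts [.inl (e.trans h), .inr ⟨w, h1, h2, o, h3, e.trans h4⟩]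
    · obtain ⟨b2, rfl⟩ := n2
      obtain ⟨b3, rfl⟩ := n3
      refine .inr ⟨w2, ne _ _ hx, ?_, uu_cl.2 (ow_wb _ _)⟩
      rcases hT with h | ⟨w, h1, h2, h3⟩
      · exact (ow_inl.1 (Option.some_injective _ h)).1
      by_cases e : w = w2
      · exact e ▸ h2
      obtain ⟨m1, -, q1, q2, -⟩ := wb_ne (fun k => e (c.uU_inj k).symm) (uu_cl.1 h3)
      rwa [c.shB h0 h1.symm e h2 m q2 q1])
  rw [own_uu, own_uu, k1, k3]
  congr 2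
  rcases sub hz' with h | ⟨w, h1, h2, o, h3, h4⟩ <;> rcases k4 with h' | ⟨w', h1', h2', o', h3', h4'⟩
  · exact Sum.inl_injective (Option.some_injective _ (h.symm.trans h'))
  · obtain rfl := Option.some_injective _ (h.symm.trans h4')
    exact c.shB h0 h1' h1' m (inl_wb.1 h3') m' h2'
  · obtain rfl := Option.some_injective _ (h'.symm.trans h4)
    exact c.shB h0 h1 h1 m h2 m' (inl_wb.1 h3)
  · exact c.shB h0 h1 h1' m h2 m' h2'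

theorem locB_union (h0 : ∀ u, pt u = none) :
    ⋃ p, locB un φ p = Nodes (range '' Hs H _) (UBags M (Us H _)) := by
  ext ν
  simp only [mem_iUnion]
  constructor
  · rintro ⟨p, ⟨n, -, rfl⟩ | ⟨w, rfl⟩⟩
    · exact .inl ⟨_, ⟨n, c.isH h0 n, rfl⟩, rfl⟩
    · exact .inr ⟨⟨_, M, M, False⟩, ⟨⟨_, c.isU p w, rfl⟩, rfl, rfl, id⟩, rfl⟩
  · rintro (⟨_, ⟨n, -, rfl⟩, rfl⟩ | ⟨β, ⟨⟨d, hd, e⟩, -⟩, rfl⟩)
    · obtain ⟨p, hp⟩ := c.good.cov (.inl n)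
      exact ⟨p, .inl ⟨n, hp, rfl⟩⟩
    · obtain ⟨p, w, rfl⟩ := c.cov hd
      exact ⟨p, .inr ⟨w, by rw [e]⟩⟩

theorem thin_B [Finite U] [Finite P] (hG : GlueStmt) (hLo : LocalStmt) (hL : LinkStmt)
    (h0 : ∀ u, pt u = none) : ∀ ν ∈ Nodes (range '' Hs H (RI A M P)) (UBags M (Us H _)),
      Thin (Nodes (range '' Hs H _) (UBags M (Us H _)))
        (GLk (gr A univ (Hs H _) ⊔ gr A univ (Us H _))) g ν := by
  rw [← c.locB_union h0]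
  refine frame hG hLo hL c.good _ _ ?_ ?_ (c.thinB_link h0) ?_ fun _ ν _ _ h => h.inter ν
  · rintro p _ (⟨n, hn, rfl⟩ | ⟨w, rfl⟩) _ ⟨a, rfl⟩
    exacts [.inl ⟨_, hn, rfl⟩, uu_reg.2 (uU_bag _ _ (ow_wb _ _))]
  · rintro p q x y - hx hy ⟨_, ⟨n, -, rfl⟩ | ⟨w, rfl⟩, h1, h2⟩
    · refine ⟨_, .inl ⟨n, ?_, rfl⟩, h1, h2⟩
      obtain ⟨a, rfl⟩ := h1
      rcases hx with ⟨o, ho, e⟩ | ⟨j, a, e⟩
      · exact (Option.some_injective _ e : Sum.inl n = o) ▸ ho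
      · exact (Sum.inl_ne_inr e).elim
    · obtain ⟨a, rfl⟩ := h1
      obtain ⟨b, rfl⟩ := h2
      rcases c.unit_reg (c.isU q w) (uu_reg.1 hx) (uu_reg.1 hy) with ⟨w', e⟩ | ⟨n, e1, e2, e⟩
      · exact ⟨_, .inr ⟨w', rfl⟩, ⟨a, by rw [e]⟩, b, by rw [e]⟩
      · exact ⟨_, .inl ⟨n, e, rfl⟩, own_hb.2 (congrArg some e1), own_hb.2 (congrArg some e2)⟩
  · rintro p _ (⟨n, hn, rfl⟩ | ⟨w, rfl⟩)
    · rw [hb_cl]
      exact c.thinB_link h0 p _ (.inl ⟨n, rfl⟩) (singleton_subset_iff.2 hn)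
    · exact c.thinB_unit h0 p w

theorem preB [Finite U] [Finite P] (hG : GlueStmt) (hLo : LocalStmt) (hL : LinkStmt)
    (h0 : ∀ u, pt u = none) : Pre A (gr A univ (Hs H (RI A M P)) ⊔ gr A univ (Us H _))
      (gr A univ (Hs H _)) (range '' Hs H _) (UBags M (Us H _)) g where
  le := le_sup_left
  ind := by
    rintro β ⟨⟨d, hd, e⟩, -⟩
    rw [e]
    exact ⟨(uu_inj hd).injOn, fun a _ b _ => ⟨fun h => h.elim
      (fun h => c.imat.1 ((gH_uu c.mat hd).1 h)) (gU_uu c.imat.1 c.good.lin hd),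
      fun h => .inr (gU_adj hd h)⟩⟩
  col := by
    rintro β ⟨⟨d, hd, e⟩, -, e', -⟩ a b
    rw [e, e']
    exact gH_uu c.mat hd
  old := fun β h => h.2.1.trans_le c.imat.1
  cov := by
    have k : ∀ x y, (gr A univ (Hs H (RI A M P))).Adj x y → ∃ L ∈ range '' Hs H _, x ∈ L ∧ y ∈ L := by
      rintro _ _ ⟨-, f, hf, a, -, b, -, -, rfl, rfl⟩
      exact ⟨_, ⟨f, hf, rfl⟩, ⟨a, rfl⟩, b, rfl⟩
    rintro x y (h | ⟨-, _, ⟨d, hd, rfl⟩, a, -, b, -, -, rfl, rfl⟩)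
    · exact .inl (k x y h)
    by_cases e : M.Adj a b
    · exact .inl (k _ _ ((gH_uu c.mat hd).2 e))
    · exact .inr ⟨⟨_, M, M, False⟩, ⟨⟨d, hd, rfl⟩, rfl, rfl, id⟩, a, b, rfl, rfl, e⟩
  thin := c.thin_B hG hLo hL h0
  lb := by
    rintro _ ⟨_, ⟨n, hn, rfl⟩, rfl⟩ β ⟨⟨d, hd, e⟩, e1, -, e2⟩ a b hab h1 h2
    rw [e] at h1 h2
    rw [e1]
    exact ⟨e2, ow_adj (d := d) hn (Option.some_injective _ (own_hb.1 h1))
      (Option.some_injective _ (own_hb.1 h2)) hab⟩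
  bb := by
    rintro ⟨_, o, r, t⟩ ⟨⟨d, hd, rfl⟩, (e1 : o = M), (e2 : r = M), e⟩ ⟨_, o', r', t'⟩
      ⟨⟨d', hd', rfl⟩, (e3 : o' = M), (e4 : r' = M), e'⟩ a b a' b' h1 h2 - h3 h4
    rw [e1] at h2
    rw [e1, e2, e3, e4]
    have k : ∀ a a', a ∉ M.support → uu H (RI A M P) d a = uu H _ d' a' → d = d' :=
      fun a a' ha h => ow_inr ((uu_eq.1 h).1.symm.trans (ow_none (by rw [ko_off ha, h0]; rfl)))
    obtain rfl : d = d' := by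
      by_cases ha : a ∈ M.support
      · exact k b b' (fun hb => h2 (imat_adj c.imat ha hb h1)) h4
      · exact k a a' ha h3
    obtain rfl : t = t' := propext ⟨fun h => (e h).elim, fun h => (e' h).elim⟩
    exact .inl rfl
  low := by
    rintro β ⟨-, e1, e2, -⟩ -
    rw [e1, e2]
    exact ⟨c.mat, false, rfl⟩
  dis := by
    rintro _ ⟨_, ⟨n, -, rfl⟩, rfl⟩ _ ⟨_, ⟨n', -, rfl⟩, rfl⟩ h
    refine disjoint_left.2 fun y h1 h2 => h ?_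
    rw [Sum.inl_injective (Option.some_injective _ ((own_hb.1 h1).symm.trans (own_hb.1 h2)))]

end Ctx

end Pool.Agent.MP_1c0fc2_co.RE.GamC
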