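import Pool.Agent.MP_1c0fc2_co.RE.GamB

/-! The frame of bodies and red parts. -/

open Function Set Relation

namespace Pool.Agent.MP_1c0fc2_co.RE.GamC

variable {U Q : Type} {A M : SimpleGraph U} {I : Set U} {pt : U → Option Q}

theorem thin_one {V : Type} {N : Set (Set V)} {Lk : Set V → Prop} {X C : Set V}
    (h1 : ∀ v, Lk {v}) (h : (At N X C).Subsingleton) :
    At N X C = ∅ ∨ ∃ ℓ, Lk ℓ ∧ At N X C ⊆ ℓ ∧ ℓ ⊆ X ∧ ∃ ν ∈ N, ℓ ⊆ ν ∧ (ν ∩ C).Nonempty := by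
  rcases h.eq_empty_or_singleton with e | ⟨w, e⟩
  · exact .inl e
  · obtain ⟨hw, c, hc, ν, n1, n2, n3⟩ : w ∈ At N X C := e ▸ rfl
    exact .inr ⟨{w}, h1 w, e.le, singleton_subset_iff.2 hw, ν, n1, singleton_subset_iff.2 n2,
      c, n3, hc⟩

section Host
variable (H : MH (prof A M pt)) (R : Type)

def Us : Set (U → XV H R) := {υ | ∃ d, IsU d ∧ υ = uu H R d}

def Hs : Set (U → XV H R) := {h | ∃ n, IsH H n ∧ h = hb H R n}

def body (d : H.E) : Set (XV H R) := uu H R d '' M.supportᶜ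

def cl (ℓ : Set (H.V ⊕ H.E)) : Set (XV H R) := {x | ∃ n ∈ ℓ, own H R x = some n}

variable {H R} {d d' : H.E} {n : H.V} {a b : U}

theorem uu_cl {ℓ : Set (H.V ⊕ H.E)} : uu H R d a ∈ cl H R ℓ ↔ ow H d a ∈ ℓ :=
  ⟨fun ⟨o, h, e⟩ => (Option.some_injective _ e : ow H d a = o) ▸ h, fun h => ⟨_, h, rfl⟩⟩

theorem uu_move (ha : a ∉ M.support) (h : ow H d a = .inl n) (h' : H.mem n d') :
    uu H R d a = uu H R d' a :=
  uu_of_ow ha (h.trans (ow_inl.2 ⟨h', (ow_inl.1 h).2⟩).symm)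

theorem pt_of_ow (ha : a ∉ M.support) (h : ow H d a = .inl n) :
    ∃ q, pt a = some q ∧ H.kd n = .inr q := by
  have h1 := (ow_inl.1 h).2
  rcases e : H.kd n with k | q <;> rw [e] at h1
  exacts [absurd (ko_inl h1).1 ha, ⟨q, (ko_inr h1).2, rfl⟩]

theorem cel (hpt : ∀ a ∈ M.support, pt a = none) : ∀ z ∈ Cells pt (Us H R), ∀ υ ∈ Us H R,
    (z.2 ∩ range υ).Nonempty → z.2 = υ '' {u | pt u = some z.1} := by
  rintro ⟨q, _⟩ ⟨_, ⟨d0, h0, rfl⟩, (rfl : _ = uu H R d0 '' {u | pt u = some q})⟩ _ ⟨d, hd, rfl⟩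
    ⟨_, ⟨a, ha, rfl⟩, b, e⟩
  have off : ∀ u, pt u = some q → u ∉ M.support := fun u h h' => by simp [hpt u h'] at h
  obtain rfl := uu_off h0 hd (off a ha) e.symm
  refine image_congr fun u hu => uu_of_ow (off u hu) ?_
  have k : ko M pt u = ko M pt a := (ko_of_pt (off u hu) hu).trans (ko_of_pt (off a ha) ha).symm
  exact (ow_congr k).trans ((uu_eq.1 e).1.symm.trans (ow_congr k).symm)

end Host

variable {F H : MH (prof A M pt)} (un : Un A M I → F.E) {P : Type} (φ : P → MEmb F H) {g : ℕ}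

/-- the region of a copy -/
def reg (p : P) : Set (XV H (RI A M P)) :=
  {y | y ∈ cl H _ (φ p).Bag ∨ ∃ j a, y = .inr ((p, j), a)}

def locR (p : P) : Set (Set (XV H (RI A M P))) :=
  {ν | (∃ w, ν = body H _ (uU un φ p w)) ∨ ∃ j, ν = xi un φ (p, j) '' Iᶜ}

variable {un φ} {p p' : P} {w w' : Un A M I} {n : H.V} {d : H.E} {a b : U}

theorem uu_reg : uu H _ d a ∈ reg φ p ↔ ow H d a ∈ (φ p).Bag :=
  ⟨fun h => h.elim uu_cl.1 fun ⟨_, _, e⟩ => (Sum.inl_ne_inr e).elim, fun h => .inl (uu_cl.2 h)⟩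

theorem frame [Finite U] [Finite P] (hG : GlueStmt) (hLo : LocalStmt) (hL : LinkStmt)
    (hg : Good φ g) (loc : P → Set (Set (XV H (RI A M P)))) (Lk : Set (XV H (RI A M P)) → Prop)
    (h1 : ∀ p, ∀ ν ∈ loc p, ν ⊆ reg φ p)
    (h2 : ∀ p q x y, x ≠ y → x ∈ reg φ p → y ∈ reg φ p → Tog (loc q) x y → Tog (loc p) x y)
    (h3 : ∀ p ℓ, H.Lk ℓ → ℓ ⊆ (φ p).Bag → Thin (loc p) Lk g (cl H _ ℓ))
    (h4 : ∀ p, ∀ ν ∈ loc p, Thin (loc p) Lk g ν)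
    (h5 : ∀ p, ∀ ν ∈ loc p, ∀ ℓ, Lk ℓ → ℓ ∩ ν = ∅ ∨ Lk (ℓ ∩ ν)) :
    ∀ ν ∈ ⋃ p, loc p, Thin (⋃ p, loc p) Lk g ν := by
  intro ν hν
  obtain ⟨p, hp⟩ := mem_iUnion.1 hν
  refine hLo _ _ (loc p) Lk g (reg φ p) ν (hG _ _ _ (fun p => (φ p).Bag) H.Lk (own H _) (reg φ) loc
    Lk g hg.thin (hL _ _ _ _ _ _ φ g hg).1 ?_ ?_ h1 h2 h3 p) (subset_iUnion loc p) ?_ (h1 p ν hp)
    (h4 p ν hp) (h5 p ν hp)
  · intro x n p e
    refine ⟨?_, fun h => .inl ⟨n, h, e⟩⟩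
    rintro (⟨m, h, e'⟩ | ⟨j, a, rfl⟩)
    · exact Option.some_injective _ (e'.symm.trans e) ▸ h
    · simp [own] at e
  · rintro x p q e (⟨m, -, e'⟩ | ⟨j, a, rfl⟩)
    · simp [e] at e'
    rintro (⟨m, -, e'⟩ | ⟨j', a', e'⟩)
    · simp [e] at e'
    · exact congrArg (fun z => z.1.1) (Sum.inr_injective e')
  · rintro x y hxy hx hy ⟨ν', h', k⟩
    obtain ⟨q, hq⟩ := mem_iUnion.1 h'
    exact h2 p q x y hxy hx hy ⟨ν', hq, k⟩

namespace Ctx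
variable (c : Ctx I un φ g)
include c

theorem off {q : Q} (h : pt a = some q) : a ∉ M.support := fun h' => by simp [c.hpt a h'] at h

theorem locR_union : ⋃ p, locR un φ p = RBags M I (Us H _) (range (xi un φ)) := by
  ext ν
  simp only [mem_iUnion]
  constructor
  · rintro ⟨p, ⟨w, rfl⟩ | ⟨j, rfl⟩⟩
    exacts [.inl ⟨_, ⟨_, c.isU p w, rfl⟩, rfl⟩, .inr ⟨_, ⟨_, rfl⟩, rfl⟩]
  · rintro (⟨_, ⟨d, hd, rfl⟩, rfl⟩ | ⟨_, ⟨r, rfl⟩, rfl⟩)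
    · obtain ⟨p, w, rfl⟩ := c.cov hd
      exact ⟨p, .inl ⟨w, rfl⟩⟩
    · exact ⟨r.1, .inr ⟨r.2, rfl⟩⟩

theorem locR_sub (p : P) : ∀ ν ∈ locR un φ p, ν ⊆ reg φ p := by
  rintro _ (⟨w, rfl⟩ | ⟨j, rfl⟩) _ ⟨a, ha, rfl⟩
  · exact uu_reg.2 (uU_bag _ _ (ow_wb _ _))
  · rcases c.xi_off (p, j) ha with ⟨δ, -, e⟩ | e <;> rw [e]
    exacts [uu_reg.2 (uU_bag _ _ (ow_wb _ _)), .inr ⟨j, a, rfl⟩]

/-- two vertices of a unit in a region: the unit lies in the copy or they have one owner -/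
theorem unit_reg (hd : IsU d) (ha : ow H d a ∈ (φ p).Bag) (hb : ow H d b ∈ (φ p).Bag) :
    (∃ w, uU un φ p w = d) ∨ ∃ n, ow H d a = .inl n ∧ ow H d b = .inl n ∧ .inl n ∈ (φ p).Bag := by
  rcases e1 : ow H d a with n | d1
  · rcases e2 : ow H d b with n' | d2
    · rw [e1] at ha
      rw [e2] at hb
      by_cases e : n = n'
      · exact .inr ⟨n, rfl, by rw [e], ha⟩
      · exact .inl (c.two_bag ha hb e (ow_inl.1 e1).1 (ow_inl.1 e2).1)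
    · rw [e2, ow_inr e2] at hb
      exact .inl (c.of_bag hd hb)
  · rw [e1, ow_inr e1] at ha
    exact .inl (c.of_bag hd ha)

theorem locR_cons (p q : P) (x y : XV H (RI A M P)) (hxy : x ≠ y) (hx : x ∈ reg φ p)
    (hy : y ∈ reg φ p) (h : Tog (locR un φ q) x y) : Tog (locR un φ p) x y := by
  by_cases hpq : q = p
  · exact hpq ▸ h
  obtain ⟨_, ⟨w, rfl⟩ | ⟨j, rfl⟩, h1, h2⟩ := h
  · obtain ⟨a, ha, rfl⟩ := h1
    obtain ⟨b, hb, rfl⟩ := h2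
    rcases c.unit_reg (c.isU q w) (uu_reg.1 hx) (uu_reg.1 hy) with ⟨w', e⟩ | ⟨n, e1, e2, e⟩
    · exact ⟨_, .inl ⟨w', rfl⟩, ⟨a, ha, by rw [e]⟩, b, hb, by rw [e]⟩
    · obtain ⟨w', hw⟩ := c.nj e
      exact ⟨_, .inl ⟨w', rfl⟩, ⟨a, ha, (uu_move ha e1 hw).symm⟩, b, hb, (uu_move hb e2 hw).symm⟩
  · have k : ∀ z ∈ xi un φ (q, j) '' Iᶜ, z ∈ reg φ p → ∃ δ, z = leaf un φ (q, j) δ := by
      rintro _ ⟨a, ha, rfl⟩ hz
      rcases c.xi_off (q, j) ha with ⟨δ, -, e⟩ | e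
      · exact ⟨δ, e⟩
      · rw [e] at hz
        rcases hz with ⟨m, -, e'⟩ | ⟨j', a', e'⟩
        · simp [own] at e'
        · exact absurd (congrArg (fun z => z.1.1) (Sum.inr_injective e')) hpq
    obtain ⟨δ, rfl⟩ := k x h1 hx
    obtain ⟨δ', rfl⟩ := k y h2 hy
    exact absurd (c.xbag (r := (q, j)) hpq (uu_reg.1 hx) (uu_reg.1 hy)) hxy

/-- an owned vertex of a bag lies in a body -/
theorem in_body {ν : Set (XV H (RI A M P))} (hν : ν ∈ locR un φ p) {y : XV H (RI A M P)}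
    (hy : y ∈ ν) {o : H.V ⊕ H.E} (h : own H _ y = some o) :
    ∃ w a, a ∉ M.support ∧ y = uu H _ (uU un φ p w) a := by
  rcases hν with ⟨w, rfl⟩ | ⟨j, rfl⟩
  · obtain ⟨a, ha, rfl⟩ := hy
    exact ⟨w, a, ha, rfl⟩
  · obtain ⟨δ, e, -⟩ := c.xi_own hy h
    exact ⟨_, _, j.2.2.2.1, e⟩

theorem thinR {S : Set (XV H (RI A M P))} (h0 : ∀ y ∈ S, ∃ o, own H _ y = some o)
    (h1 : ∀ y ∈ S, ∀ y' ∈ S, ∀ ν ∈ locR un φ p, ∀ ν' ∈ locR un φ p, y ∈ ν → y' ∈ ν' → ¬ ν ⊆ S →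
      ¬ ν' ⊆ S → own H _ y = own H _ y')
    (h2 : ∀ w a, a ∉ M.support → uu H _ (uU un φ p w) a ∈ S → ¬ body H _ (uU un φ p w) ⊆ S →
      ∃ n, ow H (uU un φ p w) a = .inl n ∧ ∀ b ∉ M.support, ow H (uU un φ p w) b = .inl n →
        uu H _ (uU un φ p w) b ∈ S) :
    Thin (locR un φ p) (RLk pt (Us H _)) g S := by
  intro C _ hd _
  have ns : ∀ {ν : Set (XV H (RI A M P))} {z}, z ∈ C → z ∈ ν → ¬ ν ⊆ S :=
    fun h h' e => disjoint_left.1 hd h (e h')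
  by_cases hb : ∃ w, (body H _ (uU un φ p w) ∩ S).Nonempty ∧ (body H _ (uU un φ p w) ∩ C).Nonempty
  · obtain ⟨w, ⟨_, ⟨a, ha, rfl⟩, hS⟩, z, hz, hzC⟩ := hb
    obtain ⟨n, e, k⟩ := h2 w a ha hS (ns hzC hz)
    obtain ⟨q, hq, hn⟩ := pt_of_ow ha e
    refine .inr ⟨uu H _ (uU un φ p w) '' {u | pt u = some q},
      .inr ⟨(q, _), ⟨_, ⟨_, c.isU p w, rfl⟩, rfl⟩, rfl⟩, ?_, ?_, _, .inl ⟨w, rfl⟩,
      image_mono fun u hu => c.off hu, z, hz, hzC⟩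
    · rintro y ⟨hy, z', hz', ν, n1, n2, n3⟩
      have e1 := h1 _ hS y hy _ (.inl ⟨w, rfl⟩) ν n1 ⟨a, ha, rfl⟩ n2 (ns hzC hz) (ns hz' n3)
      obtain ⟨w', b, hb, rfl⟩ := c.in_body n1 n2 e1.symm
      have e2 := (Option.some_injective _ e1).symm.trans e
      obtain ⟨q', hq', hn'⟩ := pt_of_ow hb e2
      obtain rfl : q = q' := Sum.inr_injective (hn.symm.trans hn')
      exact ⟨b, hq', (uu_move hb e2 (ow_inl.1 e).1).symm⟩
    · rintro _ ⟨b, hb, rfl⟩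
      exact k b (c.off hb) ((ow_congr ((ko_of_pt (c.off hb) hb).trans
        (ko_of_pt ha hq).symm)).trans e)
  · refine thin_one (fun v => .inl ⟨v, rfl⟩) ?_
    rintro y ⟨hy, z, hz, ν, n1, n2, n3⟩ y' ⟨hy', z', hz', ν', n1', n2', n3'⟩
    have e := h1 y hy y' hy' ν n1 ν' n1' n2 n2' (ns hz n3) (ns hz' n3')
    rcases n1 with ⟨w, rfl⟩ | ⟨⟨t, s⟩, rfl⟩
    · exact absurd ⟨w, ⟨y, n2, hy⟩, z, n3, hz⟩ hb
    rcases n1' with ⟨w, rfl⟩ | ⟨⟨t', s'⟩, rfl⟩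
    · exact absurd ⟨w, ⟨y', n2', hy'⟩, z', n3', hz'⟩ hb
    obtain ⟨o, ho⟩ := h0 y hy
    obtain ⟨δ, rfl, k⟩ := c.xi_own n2 ho
    obtain ⟨δ', rfl, k'⟩ := c.xi_own n2' (e.symm.trans ho)
    obtain ⟨rfl, rfl, k2⟩ := c.leaf_own (p := p) (e := t) (s := s) (δ := δ) (δ' := δ')
      ((k.trans k'.symm).symm ▸ ow_wb _ _)
    exact c.leaf_eq _ k2

theorem thinR_unit {S : Set (XV H (RI A M P))} (h1 : body H _ (uU un φ p w) ⊆ S)
    (h2 : S ⊆ cl H _ (H.WB (uU un φ p w))) : Thin (locR un φ p) (RLk pt (Us H _)) g S := by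
  have key : ∀ y ∈ S, ∀ ν ∈ locR un φ p, y ∈ ν → ¬ ν ⊆ S → ∃ e s δ, w = (e, some (s, δ)) ∧
      own H _ y = some (ow H (uU un φ p w) s.1.2) := by
    have k : ∀ w' a, w' ≠ w → a ∉ M.support → uu H _ (uU un φ p w') a ∈ S → ∃ e s δ,
        w = (e, some (s, δ)) ∧ own H _ (uu H (RI A M P) (uU un φ p w') a) =
          some (ow H (uU un φ p w) s.1.2) := fun w' a hw ha hS => by
      obtain ⟨e, s, δ, δ', -, k1, -, -, n, k2, k3⟩ := c.exit hw ha (uu_cl.1 (h2 hS))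
      exact ⟨e, s, δ', k1, congrArg some (k2.trans k3.symm)⟩
    rintro y hy _ (⟨w', rfl⟩ | ⟨⟨e, s⟩, rfl⟩) hν hS
    · obtain ⟨a, ha, rfl⟩ := hν
      exact k w' a (fun e => hS (e ▸ h1)) ha hy
    · obtain ⟨o, -, ho⟩ := h2 hy
      obtain ⟨δ, rfl, -⟩ := c.xi_own hν ho
      by_cases hw : (e, some (s, δ)) = w
      · subst hw
        exact ⟨e, s, δ, rfl, rfl⟩
      · exact k _ _ hw s.2.2.1 hy
  refine c.thinR (fun y hy => (h2 hy).imp fun _ h => h.2) ?_ ?_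
  · intro y hy y' hy' ν n1 ν' n1' n2 n2' n3 n3'
    obtain ⟨e, s, δ, rfl, k⟩ := key y hy ν n1 n2 n3
    obtain ⟨e', s', δ', k1, k'⟩ := key y' hy' ν' n1' n2' n3'
    simp only [Prod.mk.injEq, Option.some.injEq] at k1
    obtain ⟨-, rfl, -⟩ := k1
    exact k.trans k'.symm
  · intro w' a ha hS hb
    obtain ⟨e, s, δ, δ', -, -, -, -, n, k2, k3⟩ :=
      c.exit (w := w') (w' := w) (fun e => hb (e ▸ h1)) ha (uu_cl.1 (h2 hS))
    exact ⟨n, k2, fun b hb k => h1 ⟨b, hb, (uu_move hb k (ow_inl.1 k3).1).symm⟩⟩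

theorem thinR_link (p : P) (ℓ : Set (H.V ⊕ H.E)) (h : H.Lk ℓ) (hp : ℓ ⊆ (φ p).Bag) :
    Thin (locR un φ p) (RLk pt (Us H _)) g (cl H _ ℓ) := by
  rcases h with ⟨n, rfl⟩ | ⟨d, rfl⟩
  · refine c.thinR (fun y hy => hy.imp fun _ h => h.2) ?_ ?_
    · rintro y ⟨_, rfl, e⟩ y' ⟨_, rfl, e'⟩ - - - - - - - -
      exact e.trans e'.symm
    · exact fun w a _ h _ => ⟨n, uu_cl.1 h, fun b _ k => uu_cl.2 k⟩
  by_cases hd : IsU d
  · obtain ⟨w, rfl⟩ := c.of_bag hd (hp (.inl rfl))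
    refine c.thinR_unit ?_ subset_rfl
    rintro _ ⟨a, -, rfl⟩
    exact uu_cl.2 (ow_wb _ _)
  have hne : ∀ w, uU un φ p w ≠ d := fun w e => hd (e ▸ c.isU p w)
  refine c.thinR (fun y hy => hy.imp fun _ h => h.2) ?_ ?_
  · intro y hy y' hy' ν n1 ν' n1' n2 n2' _ _
    obtain ⟨w, a, -, rfl⟩ := c.in_body n1 n2 hy.choose_spec.2
    obtain ⟨w', a', -, rfl⟩ := c.in_body n1' n2' hy'.choose_spec.2
    obtain ⟨n, k1, -, k2, -⟩ := wb_ne (hne w) (uu_cl.1 hy)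
    obtain ⟨n', k3, -, k4, -⟩ := wb_ne (hne w') (uu_cl.1 hy')
    by_cases e : n = n'
    · rw [own_uu, own_uu, k1, k3, e]
    · exact absurd (isU_of_two k2 k4 e) hd
  · intro w a _ h _
    obtain ⟨n, k1, -, k2, -⟩ := wb_ne (hne w) (uu_cl.1 h)
    exact ⟨n, k1, fun b _ k => uu_cl.2 (k ▸ inl_wb.2 k2)⟩

theorem lx_body {y : XV H (RI A M P)} (h : y ∈ body H _ (uU un φ p w))
    (h' : y ∈ body H _ (uU un φ p w')) : lx w = lx w' := by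
  obtain ⟨a, ha, rfl⟩ := h
  obtain ⟨b, -, e⟩ := h'
  exact c.lx_eq ha ((uu_eq.1 e).1 ▸ ow_wb _ _)

theorem thinR_xi (j : Ty A M × Sp A M) :
    Thin (locR un φ p) (RLk pt (Us H _)) g (xi un φ (p, j) '' Iᶜ) := by
  refine thin_of_subsingleton (fun v => .inl ⟨v, rfl⟩) fun C _ hd hc => ?_
  have lb : ∀ j δ, leaf un φ (p, j) δ ∈ body H _ (uU un φ p (j.1, some (j.2, δ))) :=
    fun j δ => ⟨_, j.2.2.2.1, rfl⟩
  have key : ∀ y ∈ At (locR un φ p) (xi un φ (p, j) '' Iᶜ) C, ∃ δ, y = leaf un φ (p, j) δ ∧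
      ∃ z ∈ C, ∃ w, z ∈ body H _ (uU un φ p w) ∧ lx w = (j.1, some (j.2, δ.1.2)) := by
    rintro y ⟨hy, z, hz, _, ⟨w, rfl⟩ | ⟨j', rfl⟩, n2, n3⟩
    · obtain ⟨a, ha, rfl⟩ := n2
      obtain ⟨δ, e, -⟩ := c.xi_own hy own_uu
      exact ⟨δ, e, z, hz, w, n3, c.lx_body ⟨a, ha, rfl⟩ (e ▸ lb j δ)⟩
    · by_cases e : j' = j
      · exact (disjoint_left.1 hd hz (e ▸ n3)).elim
      · exact ((c.xx_leaf (fun k => e (congrArg Prod.snd k)) n2 hy).1 rfl).elim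
  intro y hy y' hy'
  obtain ⟨δ, rfl, z, hz, w, k1, k2⟩ := key y hy
  obtain ⟨δ', rfl, z', hz', w', k1', k2'⟩ := key y' hy'
  have sub := hc.sub (Y := {z | ∃ w, z ∈ body H _ (uU un φ p w) ∧
    lx w = (j.1, some (j.2, δ.1.2))}) hz ⟨w, k1, k2⟩ (by
      rintro x hx x' - ⟨w1, m1, m2⟩ ⟨_, ⟨w2, rfl⟩ | ⟨j', rfl⟩, n2, n3⟩
      · exact ⟨w2, n3, (c.lx_body n2 m1).trans m2⟩
      · obtain ⟨a, ha, rfl⟩ := m1
        obtain ⟨δ1, e, -⟩ := c.xi_own n2 own_uu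
        have := (c.lx_body (e ▸ lb j' δ1) ⟨a, ha, rfl⟩).trans m2
        simp only [lx, Option.map_some, Prod.mk.injEq, Option.some.injEq] at this
        obtain rfl : j' = j := Prod.ext this.1 this.2.1
        exact (disjoint_left.1 hd hx n2).elim)
  obtain ⟨w1, m1, m2⟩ := sub hz'
  have := m2.symm.trans ((c.lx_body m1 k1').trans k2')
  simp only [Prod.mk.injEq, Option.some.injEq, true_and] at this
  exact c.leaf_eq _ this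

theorem thin_R [Finite U] [Finite P] (hG : GlueStmt) (hLo : LocalStmt) (hL : LinkStmt) :
    ∀ ν ∈ RBags M I (Us H _) (range (xi un φ)),
      Thin (RBags M I (Us H _) (range (xi un φ))) (RLk pt (Us H _)) g ν := by
  rw [← c.locR_union]
  refine frame hG hLo hL c.good _ _ c.locR_sub c.locR_cons c.thinR_link ?_ ?_
  · rintro p _ (⟨w, rfl⟩ | ⟨j, rfl⟩)
    · refine c.thinR_unit subset_rfl ?_
      rintro _ ⟨a, -, rfl⟩
      exact uu_cl.2 (ow_wb _ _)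
    · exact c.thinR_xi j
  · have one : ∀ s : Set (XV H (RI A M P)), s.Subsingleton → s = ∅ ∨ RLk pt (Us H _) s :=
      fun s h => h.eq_empty_or_singleton.imp_right .inl
    rintro p ν hν _ (⟨v, rfl⟩ | ⟨z, hz, rfl⟩)
    · exact one _ (subsingleton_singleton.anti inter_subset_left)
    rcases hν with ⟨w, rfl⟩ | ⟨j, rfl⟩
    · refine (eq_empty_or_nonempty _).imp_right fun h => .inr ⟨z, hz, inter_eq_left.2 ?_⟩
      rw [cel c.hpt z hz _ ⟨_, c.isU p w, rfl⟩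
        (h.mono (inter_subset_inter_right _ (image_subset_range _ _)))]
      exact image_mono fun u hu => c.off hu
    · obtain ⟨_, ⟨d, -, rfl⟩, e⟩ := hz
      refine one _ ((c.xu (p, j) d).anti ?_)
      rw [e, inter_comm]
      exact inter_subset_inter_right _ (image_subset_range _ _)

end Ctx

end Pool.Agent.MP_1c0fc2_co.RE.GamC
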