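import Pool.Agent.MP_1c0fc2_co.RE.Basic

/-! Invariance of the objects and of the red weight. -/

open Function Set Relation

namespace Pool.Agent.MP_1c0fc2_co.RE

theorem xinv_pull {W U V : Type} [Finite W] [Finite U] [Finite V] {H : SimpleGraph W} {P : Par}
    (hK3 : K3Stmt) (hHost : HostStmt) (hESNode : ESNodeStmt) (hP : P.Ok H) {A : SimpleGraph U}
    {B : SimpleGraph V} (hA : In A H) (hI : Imp A B) {O : Set V} (hO : AS P H B O) :
    ∃ f : V → U, IHo B A f O := by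
  obtain ⟨Z, _, G, Bs, hpre, harr⟩ := hHost U A (Nat.card W)
  have hB : In B G := by
    rcases hI Z G harr ⊥ bot_le with h | h
    · exact h.trans (In.of_le bot_le)
    · exact h.trans (In.of_le sdiff_le)
  obtain ⟨φ, hφ⟩ := hB
  have hS : AS P H G (φ '' O) := hO.map (hφ.on O)
  obtain ⟨a, b, hab⟩ := hS.1
  have hc : (φ '' O).ncard ≤ Nat.card W := hS.2.1.le.trans (hK3 W V H P hP).1.2.2.1
  rcases (hESNode W U Z H A G ⊥ ∅ Bs _ hA hpre G le_rfl _ hc).2 a b hab with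
    ⟨β, hβ, hsub⟩ | ⟨L, hL, -⟩
  · obtain ⟨k, hk, -⟩ := exists_pull' (J := A) (J' := G) (hpre.ind β hβ).inj
      (fun x y e => ((hpre.ind β hβ).adj x y).1 e) hsub ⟨a, hab.1⟩
    exact ⟨k ∘ φ, (hφ.on O).comp hk⟩
  · exact hL.elim

theorem invA_stmt (hK3 : K3Stmt) (hROMono : ROMonoStmt) (hHost : HostStmt)
    (hESNode : ESNodeStmt) : InvAStmt := by
  intro W U V _ _ _ H P hP A B hA hI
  refine ⟨fun ⟨O, hO⟩ => ?_, fun ⟨O, hO⟩ => ?_⟩
  · obtain ⟨f, hf⟩ := xinv_pull hK3 hHost hESNode hP hA hI hO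
    exact ⟨_, hO.map hf⟩
  · obtain ⟨f, hf⟩ := xinv_pull hK3 hHost hESNode hP hA hI hO.1
    obtain ⟨h, hh⟩ := hA
    exact ⟨_, hROMono W V U H P hP .N1 B A f h O hf (hh.on _) hO⟩

theorem xinv_ram_blue {U : Type} (A : SimpleGraph U) : RamOn A A ⊥ (offG A ∅) := by
  intro R' _ h
  refine .inr (In.of_le fun x y e => ⟨e, fun e' => ?_⟩)
  exact (h x y ⟨e, notMem_empty _, notMem_empty _⟩).1 e'

theorem xinv_ram_red {U : Type} (A : SimpleGraph U) : RamOn A A A (offG A ∅) := by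
  intro R' _ h
  exact .inl (In.of_le fun x y e => (h x y ⟨e, notMem_empty _, notMem_empty _⟩).2 e)

/-- a 2-connected set of colour `c` inside a copy of `Γ` gives an edge of that colour -/
theorem xinv_edge {U X V : Type} {A : SimpleGraph U} {Γ RΓ : SimpleGraph X} {Hub : Set X}
    {G R : SimpleGraph V} {Gs : Set (X → V)} {Bs : Set (Bag U V)} {g : ℕ}
    (h : Core A Γ RΓ Hub G R Gs Bs g) {c : Bool} {S : Set V} (hS : TwoConn (cc G R c) S)
    {γ : X → V} (hγ : γ ∈ Gs) (hs : S ⊆ range γ) : ∃ a b, (cc Γ RΓ c).Adj a b := by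
  obtain ⟨x, hx, y, hy, e⟩ := hS.edge
  obtain ⟨a, rfl⟩ := hs hx
  obtain ⟨b, rfl⟩ := hs hy
  exact ⟨a, b, (h.ccol hγ c a b).1 e⟩

theorem xinv_colT {W U : Type} {H : SimpleGraph W} {P : Par} {A : SimpleGraph U} {E : EP U}
    {m : Mode} (hm : m ≠ .S1) (h : Cols P H A E m) : ColT P H A E false := by
  cases m
  exacts [h.2, h.2, absurd rfl hm, h.2]

theorem invT_stmt (hParam : ParamStmt) (hEngine : EngineStmt) (hLoc : LocStmt) : InvTStmt := by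
  intro W U V _ _ _ H P hP m hm hcase A B hA hI ⟨O1, hO1⟩ ⟨O2, hO2⟩
  obtain ⟨E, hE, hcol⟩ := hParam W U H P hP m hcase A hA
  obtain ⟨Z, _, G, R, Gs, Bs, hL⟩ :=
    hEngine U U A E A ⊥ ∅ (Nat.card W) hE bot_le (xinv_ram_blue A)
  have loc := fun c => hLoc W U U Z H P hP A E A ⊥ ∅ G R Gs Bs _ c hA le_rfl hL
  rcases hI Z G (ramOn_bot.1 hL.ram) R hL.core.pre.le with ⟨φ, hφ⟩ | ⟨φ, hφ⟩
  · exfalso
    have hT : ColT P H A E true → False := fun hc => by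
      have h2 : TH P H (cc G R true) (φ '' O2) := hO2.map (hφ.on O2)
      obtain ⟨γ, hγ, hs⟩ := (loc true _).1 hc h2
      obtain ⟨a, b, e⟩ := xinv_edge hL.core h2.two hγ hs
      exact e.elim
    cases m
    · have h1 : AS P H (cc G R true) (φ '' O1) := hO1.map (hφ.on O1)
      obtain ⟨γ, -, ⟨a, b, -, -, e⟩, -⟩ := (loc true _).2.2 hcol.1 h1
      exact e.elim
    · exact hT hcol.1
    · exact hm rfl
    · exact hT hcol.1
  · have h2 : TH P H (cc G R false) (φ '' O2) := hO2.map (hφ.on O2)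
    obtain ⟨γ, hγ, hs⟩ := (loc false _).1 (xinv_colT hm hcol) h2
    obtain ⟨k, hk, -⟩ := exists_pull' (J := A) (J' := cc G R false) (hL.core.gind γ hγ).inj
      (fun x y e => ((hL.core.gind γ hγ).adj x y).1 e.1) hs h2.two.nonempty
    exact ⟨_, h2.map hk⟩

theorem invR_stmt (hRP : RPStmt) (hParam : ParamStmt) (hEngine : EngineStmt) (hLoc : LocStmt)
    (hRedLoc : RedLocStmt) (hRedLift : RedLiftStmt) : InvRStmt := by
  intro W U V _ _ _ H P hP m hm hcase A B hA hB hiso hI ⟨O2, hO2⟩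
  have hm' : m ≠ .S1 := by
    rintro rfl
    exact hm
  obtain ⟨E, hE, hcol⟩ := hParam W U H P hP m hcase A hA
  obtain ⟨Z, _, G, R, Gs, Bs, hL⟩ :=
    hEngine U U A E A A ∅ (Nat.card W) hE le_rfl (xinv_ram_red A)
  have hR : In B R := by
    refine (hI Z G (ramOn_bot.1 hL.ram) R hL.core.pre.le).resolve_right fun ⟨φ, hφ⟩ => ?_
    have h2 : TH P H (cc G R false) (φ '' O2) := hO2.map (hφ.on O2)
    obtain ⟨γ, hγ, hs⟩ := (hLoc W U U Z H P hP A E A A ∅ G R Gs Bs _ false hA le_rfl hL _).1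
      (xinv_colT hm' hcol) h2
    obtain ⟨a, b, e⟩ := xinv_edge hL.core h2.two hγ hs
    exact e.2 e.1
  obtain ⟨φ, hφ⟩ := hR
  have hTr : RTr H A A ∅ (Nat.card W) := fun S _ _ _ _ => hA.imp fun _ hh => hh.on S
  have hub : ∀ γ ∈ Gs, ∀ x ∈ (∅ : Set U), γ x ∉ range φ := fun _ _ _ hx => hx.elim
  refine ⟨fun ⟨O, hO⟩ => ?_, fun s ⟨L, _, K, hK, hw⟩ => ?_⟩
  · obtain ⟨γ, -, -, h⟩ := hRedLoc W U U Z V H P hP m A E A A ∅ G R Gs Bs _ B φ hA le_rfl hL hcol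
      hTr hφ hub O hO
    exact ⟨_, h⟩
  · refine hRedLift W U U Z V L H P hP m A E A A ∅ G R Gs Bs _ B φ K s hA hB hiso le_rfl hL hcol
      hTr ⟨fun S _ hS => hK.cov S hS, hw, fun _ _ _ _ _ e => e, fun Y _ _ => ?_⟩ hφ hub
    have h1 : RP A (fun l => K l ∩ Y) (univ ∩ Y) := (hRP U L A K univ).1 hK.rp A Y le_rfl
    refine ⟨h1, fun 𝒮 Pt h𝒮 hPt => ?_⟩
    refine (hRP U L A _ _).2.2.2.1 h1 𝒮 Pt h𝒮 ⟨?_, fun x hx => ⟨trivial, hPt.1 hx⟩⟩
    rcases hPt.2 with h | ⟨a, b, -, -, e, -⟩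
    · exact h
    · exact (e.2 e.1).elim

end Pool.Agent.MP_1c0fc2_co.RE
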