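import Pool.Agent.MP_1c0fc2_co.GR.Main
import Pool.Agent.MP_1c0fc2_co.GR.Atom
import Pool.Agent.MP_1c0fc2_co.RE.Basic

open Function Set Relation

namespace Pool.Agent.MP_1c0fc2_co.GR

section
variable {A B : Geo} {P : Type} {φ : P → GHom A B} {g : ℕ}

theorem xmt1a_chain {α : Type} (R : α → α → Prop) (C : Set α)
    (hconn : ∀ a ∈ C, ∀ b ∈ C, ReflTransGen (fun u v => u ∈ C ∧ v ∈ C ∧ R u v) a b)
    {y a b : α} (ha : a ∈ C) (hb : b ∈ C) (hyb : R b y) :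
    ∃ c : List α, (a :: c).Nodup ∧ (∀ u ∈ a :: c, u ∈ C) ∧
      ∀ p ∈ path ((a :: c) ++ [y]), R p.1 p.2 := by
  rcases exists_nodup_chain _ (hconn a ha b hb) with rfl | ⟨c, hn, hc⟩
  · refine ⟨[], by simp, by simpa using ha, ?_⟩
    intro p hp
    have : p = (a, y) := by simpa [path] using hp
    subst this
    exact hyb
  · refine ⟨c ++ [b], hn, ?_, ?_⟩
    · intro u hu
      have hu' : u ∈ (a :: c) ++ [b] := by simpa using hu
      rcases List.mem_append.1 hu' with h1 | h1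
      · obtain ⟨v, hv⟩ := xatom_mem b (a :: c) u h1
        exact (hc (u, v) (by simpa using hv)).1
      · have : u = b := by simpa using h1
        subst this
        exact hb
    · intro p hp
      have e1 : ((a :: (c ++ [b])) ++ [y]) = (a :: c) ++ b :: [y] := by simp
      have e2 : (a :: c) ++ [b] = a :: (c ++ [b]) := by simp
      rw [e1, path_append, e2] at hp
      rcases List.mem_append.1 hp with h1 | h1
      · exact (hc p h1).2.2
      · have : p = (b, y) := by simpa [path] using h1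
        subst this
        exact hyb

theorem atom_twoN (h : AC φ (2 * g + 4) (2 * g + 4)) (C : Set B.N) (hf : C.Finite)
    (hC : C.ncard ≤ g)
    (hconn : ∀ a ∈ C, ∀ b ∈ C, ReflTransGen (fun u v => u ∈ C ∧ v ∈ C ∧ Adj φ u v) a b)
    {x y : B.N} (hxy : x ≠ y) (hadj : Adj φ x y) (hx : x ∉ C) (hy : y ∉ C)
    (ha : ∃ a ∈ C, Adj φ x a) (hb : ∃ b ∈ C, Adj φ y b) : ∃ a ∈ C, InBag φ [x, y, a] := by
  classical
  obtain ⟨a, haC, hxa⟩ := ha
  obtain ⟨b, hbC, hyb⟩ := hb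
  obtain ⟨c, hn, hm, hp⟩ := xmt1a_chain (Adj φ) C hconn haC hbC hyb.symm
  have hlen : (a :: c).length ≤ g := by
    rw [← List.toFinset_card_of_nodup hn, ← Set.ncard_coe_finset]
    exact le_trans (Set.ncard_le_ncard (fun u hu => hm u (by simpa using hu)) hf) hC
  have hlen' : (y :: x :: (a :: c)).length ≤ g + 2 := by
    simp only [List.length_cons] at hlen ⊢
    omega
  have hcyc : Cyc (Adj φ) (2 * g + 4) (2 * g + 4) (y :: x :: (a :: c)) := by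
    refine ⟨?_, ?_, ?_, ?_, ?_⟩
    · refine List.nodup_cons.2 ⟨?_, List.nodup_cons.2 ⟨fun hx' => hx (hm _ hx'), hn⟩⟩
      intro hy'
      rcases List.mem_cons.1 hy' with e | hy'
      · exact hxy e.symm
      · exact hy (hm _ hy')
    · simp
    · omega
    · have := wsum_le (y :: x :: (a :: c))
      omega
    · intro p hp'
      rw [steps_two] at hp'
      rcases List.mem_cons.1 hp' with rfl | hp'
      · exact hadj.symm
      · have e : path (x :: ((a :: c) ++ [y])) = (x, a) :: path ((a :: c) ++ [y]) := by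
          simp [path]
        rw [e] at hp'
        rcases List.mem_cons.1 hp' with rfl | hp'
        · exact hxa
        · exact hp p hp'
  obtain ⟨z, hz, hzy, hzx, hin⟩ := tri_of_step h hcyc (x := y) (y := x)
    (by rw [steps_two]; exact List.mem_cons_self)
  rcases List.mem_cons.1 hz with e | hz
  · exact absurd e hzy
  rcases List.mem_cons.1 hz with e | hz
  · exact absurd e hzx
  refine ⟨z, hm z hz, hin.sub ?_⟩
  intro t ht
  simp only [List.mem_cons, List.not_mem_nil, or_false] at ht ⊢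
  tauto

end

variable {K I : Type} {cl : K → I}

theorem gr_cl [Finite K] [Finite I] [LinearOrder K] (F : HG cl) (hO : F.Ord)
    (hL : F.Lin) (κ : Type) [Finite κ] [Nonempty κ] (w : ℕ) :
    ∃ (H : HG cl) (P : Type) (_ : Finite P) (φ : P → Emb F H),
      Ram (fun p => (φ p).e) κ ∧ H.Lin ∧ GoodL φ ⊥ ⊥ Set.univ w w := by
  let s : ℕ → Setoid F.E := fun μ => Nat.casesOn μ ⊥ fun _ => ⊤
  obtain ⟨H, t, P, _, φ, h1, h2, h3⟩ := main_step (max w 2) (le_max_right _ _) 0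
    (fun _ => max w 2) (fun _ => le_rfl) (Or.inl rfl) K I _ F s (fun _ => Set.univ)
    ⟨⟨fun _ _ h => h, fun _ _ _ _ => trivial, fun μ h => by
      obtain ⟨ν, rfl⟩ := Nat.exists_eq_add_of_le' h
      exact fun _ _ => trivial, fun _ _ _ _ _ _ _ _ => trivial⟩, hL,
      fun μ h h' => absurd h' (by omega)⟩ hO κ
  have e1 : t 0 = ⊥ := Setoid.ext fun x y => ⟨h2.tr.zero x y, fun h => h ▸ (t 0).refl x⟩
  have e2 : Hi (fun _ => (Set.univ : Set I)) (0 + 1) 0 = Set.univ :=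
    Set.eq_univ_of_forall fun _ => ⟨0, le_rfl, Nat.one_pos, trivial⟩
  rw [e1, e2] at h3
  obtain ⟨hc, h4, h5⟩ := h3
  have hw : w ≤ 2 * max w 2 := by omega
  exact ⟨H, P, inferInstance, φ, h1, h2.lin, hc, h4, h5.mono hw hw⟩

/-- the nodes of a copy -/
def Emb.nb {F H : HG cl} (φ : Emb F H) : Set (H.V ⊕ H.E) := range (Sum.map φ.v φ.e)

/-- an edge with its points -/
def HG.nw (H : HG cl) (d : H.E) : Set (H.V ⊕ H.E) :=
  {n | n = .inr d ∨ ∃ v, H.On v d ∧ n = .inl v}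

theorem Emb.nw_sub {F H : HG cl} (φ : Emb F H) (f : F.E) : H.nw (φ.e f) ⊆ φ.nb := by
  rintro _ (rfl | ⟨v, ⟨k, rfl⟩, rfl⟩)
  · exact ⟨.inr f, rfl⟩
  · exact ⟨.inl (F.inc f k), congrArg Sum.inl (φ.inc_e f k).symm⟩

theorem Emb.inr_mem {F H : HG cl} {φ : Emb F H} (hs : φ.Str) {d : H.E} {x y : H.V ⊕ H.E}
    (hxy : x ≠ y) (hx : x ∈ φ.nb) (hy : y ∈ φ.nb) (hxd : x ∈ H.nw d) (hyd : y ∈ H.nw d) :
    ∃ f, φ.e f = d := by
  have k : ∀ z ∈ φ.nb, z = .inr d → ∃ f, φ.e f = d := by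
    rintro _ ⟨z | z, rfl⟩ h
    · exact (Sum.inl_ne_inr h).elim
    · exact ⟨z, Sum.inr_injective h⟩
  have k' : ∀ v, Sum.inl v ∈ φ.nb → ∃ u, φ.v u = v := by
    rintro v ⟨z | z, h⟩
    · exact ⟨z, Sum.inl_injective h⟩
    · exact (Sum.inr_ne_inl h).elim
  rcases hxd with e | ⟨u, hu, rfl⟩
  · exact k _ hx e
  rcases hyd with e | ⟨v, hv, rfl⟩
  · exact k _ hy e
  obtain ⟨u, rfl⟩ := k' u hx
  obtain ⟨v, rfl⟩ := k' v hy
  exact hs d u v (fun e => hxy (by rw [e])) hu hv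

theorem gr_nodes [Finite K] [Finite I] [LinearOrder K] (F : HG cl) (hO : F.Ord)
    (hL : F.Lin) (κ : Type) [Finite κ] [Nonempty κ] (g : ℕ) :
    ∃ (H : HG cl) (P : Type) (_ : Finite P) (φ : P → Emb F H),
      Ram (fun p => (φ p).e) κ ∧ H.Lin ∧ (∀ p, (φ p).Str) ∧
      (∀ p q, p ≠ q → ∀ x y, x ≠ y → x ∈ (φ p).nb → y ∈ (φ p).nb → x ∈ (φ q).nb →
        y ∈ (φ q).nb → ∃ d, x ∈ H.nw d ∧ y ∈ H.nw d) ∧
      ∀ p (C : Set (H.V ⊕ H.E)), C.ncard ≤ g → Disjoint C (φ p).nb →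
        RE.ConnOn (RE.Tog (range fun q => (φ q).nb)) C → ∀ x ∈ (φ p).nb, ∀ y ∈ (φ p).nb, x ≠ y →
        (∃ c ∈ C, RE.Tog (range fun q => (φ q).nb) x c) →
        (∃ c ∈ C, RE.Tog (range fun q => (φ q).nb) y c) →
        ∃ q, x ∈ (φ q).nb ∧ y ∈ (φ q).nb ∧ ((φ q).nb ∩ C).Nonempty := by
  obtain ⟨H, P, _, φ, hR, hl, hc, hB, hAC⟩ := gr_cl F hO hL κ (2 * g + 4)
  let ψ := fun p => (φ p).hg (hc p) Set.univ
  let up : H.V ⊕ H.E → (hg H ⊥ Set.univ).N := Sum.map (fun v => ⟨v, trivial⟩) (Quotient.mk ⊥)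
  have hup : Injective up := Injective.sumMap (fun _ _ h => congrArg Subtype.val h)
    fun _ _ h => Quotient.exact h
  have hM : ∀ {u : (hg H ⊥ Set.univ).V} {e : H.E},
      (hg H ⊥ Set.univ).M u (Quotient.mk ⊥ e) → H.On u.1 e := by
    rintro u e ⟨e', h1, h2⟩
    obtain rfl : e' = e := Quotient.exact h1
    exact h2
  have hbag : ∀ p x, (ψ p).Bag (up x) ↔ x ∈ (φ p).nb := by
    refine fun p x => ⟨?_, ?_⟩
    · rintro ⟨y | y, h⟩
      · exact ⟨.inl y.1, hup h⟩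
      · induction y using Quotient.inductionOn with | _ f
        exact ⟨.inr f, hup h⟩
    · rintro ⟨a | a, rfl⟩
      · exact ⟨.inl ⟨a, trivial⟩, rfl⟩
      · exact ⟨.inr (Quotient.mk ⊥ a), rfl⟩
  have hwb : ∀ d x, (hg H ⊥ Set.univ).WB (Quotient.mk ⊥ d) (up x) → x ∈ H.nw d := by
    rintro d (x | x) h
    · exact .inr ⟨x, hM h, rfl⟩
    · exact .inl (congrArg Sum.inr (Quotient.exact h))
  have hwp : ∀ x y, (hg H ⊥ Set.univ).WP (up x) (up y) → ∃ d, x ∈ H.nw d ∧ y ∈ H.nw d := by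
    rintro x y ⟨d, h1, h2⟩
    induction d using Quotient.inductionOn with | _ d
    exact ⟨d, hwb _ _ h1, hwb _ _ h2⟩
  have htog : ∀ u v, RE.Tog (range fun q => (φ q).nb) u v → Adj ψ (up u) (up v) := by
    rintro u v ⟨_, ⟨p, rfl⟩, h1, h2⟩
    exact .inl ⟨p, (hbag _ _).2 h1, (hbag _ _).2 h2⟩
  have hstr : ∀ p, (φ p).Str := by
    intro p d u w huw hu hw
    obtain ⟨c, hc'⟩ := hB.str p ⟨u, trivial⟩ ⟨w, trivial⟩ (Quotient.mk ⊥ d)
      (fun e => huw (congrArg Subtype.val e)) ⟨d, rfl, hu⟩ ⟨d, rfl, hw⟩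
    induction c using Quotient.inductionOn with | _ f
    exact ⟨f, Quotient.exact hc'⟩
  refine ⟨H, P, inferInstance, φ, hR, hl, hstr, fun p q hpq x y hxy a1 a2 a3 a4 => hwp _ _
    (hB.b2 p q _ _ hpq (hup.ne hxy) ((hbag _ _).2 a1) ((hbag _ _).2 a2) ((hbag _ _).2 a3)
      ((hbag _ _).2 a4)), ?_⟩
  rintro p C hC hd hcn x hx y hy hxy ⟨a, ha, hxa⟩ ⟨b, hb, hyb⟩
  have nm : ∀ z ∈ (φ p).nb, up z ∉ up '' C := fun z hz h =>
    Set.disjoint_left.1 hd ((hup.mem_set_image).1 h) hz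
  obtain ⟨_, ⟨c, hcC, rfl⟩, hin⟩ := atom_twoN hAC (up '' C) ((Set.toFinite C).image _)
    ((Set.ncard_image_of_injective _ hup).trans_le hC)
    (hcn.image up fun u _ v _ h => .inr (htog u v h)) (hup.ne hxy)
    (.inl ⟨p, (hbag _ _).2 hx, (hbag _ _).2 hy⟩) (nm x hx) (nm y hy)
    ⟨_, ⟨a, ha, rfl⟩, htog _ _ hxa⟩ ⟨_, ⟨b, hb, rfl⟩, htog _ _ hyb⟩
  rcases hin with ⟨q, hq⟩ | ⟨d, hdd⟩
  · exact ⟨q, (hbag _ _).1 (hq _ (by simp)), (hbag _ _).1 (hq _ (by simp)), c,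
      (hbag _ _).1 (hq _ (by simp)), hcC⟩
  · induction d using Quotient.inductionOn with | _ d
    obtain ⟨f, rfl⟩ := Emb.inr_mem (hstr p) hxy hx hy (hwb _ _ (hdd _ (by simp)))
      (hwb _ _ (hdd _ (by simp)))
    exact (Set.disjoint_left.1 hd hcC ((φ p).nw_sub f (hwb _ _ (hdd _ (by simp))))).elim

end Pool.Agent.MP_1c0fc2_co.GR
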