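import Pool.Agent.MP_1c0fc2_co.RE.ProtB

/-! The protection step. -/

open Function Set Relation

namespace Pool.Agent.MP_1c0fc2_co.RE

section
variable {U X V Z Q κ Φ : Type} {M : SimpleGraph U} {x y : Φ → U} {u v : κ → V}
  {φ : Q → κ × Φ → Z} {β : Q × κ → U → (Z × V) ⊕ (Q × κ × U)}

/-- the new copies of the middle graph -/
def pGs (Z Q κ U : Type) (Gs : Set (X → V)) : Set (X → (Z × V) ⊕ (Q × κ × U)) :=
  {γ' | ∃ n, ∃ γ ∈ Gs, γ' = pι Q κ U n ∘ γ}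

/-- the new bags -/
def pBs (Bs : Set (Bag U V)) (β : Q × κ → U → (Z × V) ⊕ (Q × κ × U)) (M red : SimpleGraph U) :
    Set (Bag U ((Z × V) ⊕ (Q × κ × U))) :=
  {b | (∃ n, ∃ b0 ∈ Bs, b = ⟨pι Q κ U n ∘ b0.f, b0.old, b0.red, b0.top⟩) ∨
    ∃ j, b = ⟨β j, M, red, False⟩}

theorem xprot_nodes (Gs : Set (X → V)) (Bs : Set (Bag U V)) (red : SimpleGraph U) :
    Nodes (range '' pGs Z Q κ U Gs) (pBs Bs β M red) = PN (Nodes (range '' Gs) Bs) β := by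
  ext ν
  constructor
  · rintro (⟨_, ⟨n, γ, h, rfl⟩, rfl⟩ | ⟨_, ⟨n, b, h, rfl⟩ | ⟨j, rfl⟩, rfl⟩)
    exacts [.inl ⟨n, _, .inl ⟨γ, h, rfl⟩, (range_comp _ _).symm⟩,
      .inl ⟨n, _, .inr ⟨b, h, rfl⟩, (range_comp _ _).symm⟩, .inr ⟨j, rfl⟩]
  · rintro (⟨n, _, ⟨γ, h, rfl⟩ | ⟨b, h, rfl⟩, rfl⟩ | ⟨j, rfl⟩)
    exacts [.inl ⟨_, ⟨n, γ, h, rfl⟩, range_comp _ _⟩,
      .inr ⟨_, .inl ⟨n, b, h, rfl⟩, (range_comp _ _).symm⟩, .inr ⟨_, .inr ⟨j, rfl⟩, rfl⟩]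

theorem xprot_cell (Gs : Set (X → V)) (n : Z) (z : V) :
    cell (pGs Z Q κ U Gs) (pι Q κ U n z) = pι Q κ U n '' cell Gs z := by
  ext w
  constructor
  · rintro (rfl | ⟨_, ⟨n', γ, h, rfl⟩, ⟨a, e⟩, b, rfl⟩)
    · exact ⟨z, .inl rfl, rfl⟩
    · obtain ⟨rfl, rfl⟩ := pι_eq e
      exact ⟨γ b, .inr ⟨γ, h, ⟨a, rfl⟩, b, rfl⟩, rfl⟩
  · rintro ⟨z', rfl | ⟨γ, h, ⟨a, rfl⟩, b, rfl⟩, rfl⟩
    exacts [.inl rfl, .inr ⟨_, ⟨n, γ, h, rfl⟩, ⟨a, rfl⟩, b, rfl⟩]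

theorem xprot_cellr (Gs : Set (X → V)) (r : Q × κ × U) :
    cell (pGs Z Q κ U Gs) (.inr r) = {.inr r} := by
  ext w
  refine ⟨?_, fun h => .inl h⟩
  rintro (rfl | ⟨_, ⟨n', γ, h, rfl⟩, ⟨a, e⟩, -⟩)
  exacts [rfl, absurd e Sum.inl_ne_inr]

theorem PS.far [Finite V] [Finite ((Z × V) ⊕ (Q × κ × U))] (h : PS M x y u v φ β)
    {N : Set (Set V)} {G' : SimpleGraph ((Z × V) ⊕ (Q × κ × U))} {g k : ℕ} {Gs : Set (X → V)}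
    (hk : k + 1 ≤ g) (hN : range '' Gs ⊆ N) (ht : ∀ e, Tog N (u e) (v e))
    (hT : ∀ n, Thin (PN N β) (GLk G') g (range (pι Q κ U n)))
    (h1 : ∀ e, Far N k (cell Gs (u e)) (cell Gs (v e)) (u e))
    (h2 : ∀ e, Far N k (cell Gs (v e)) (cell Gs (u e)) (v e)) (j : Q × κ) {s t : U} (hst : s ≠ t)
    (hM : ¬ M.Adj s t) : Far (PN N β) (k + 1) (cell (pGs Z Q κ U Gs) (β j s))
      (cell (pGs Z Q κ U Gs) (β j t)) (β j s) := by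
  rintro C hC hc ⟨w, hw, hw'⟩ ⟨d, hd, hd'⟩
  by_contra ha
  rcases h.split j s with ⟨n, z, e⟩ | e
  swap
  · rw [e, xprot_cellr] at hw'
    exact ha (e.trans (Eq.symm hw') ▸ hw)
  obtain ⟨s', z', e', hz, hF⟩ : ∃ s' z', β j s' = pι Q κ U n z' ∧ z ≠ z' ∧
      Far N k (cell Gs z) (cell Gs z') z := by
    obtain ⟨f, rfl, ⟨rfl, rfl⟩ | ⟨rfl, rfl⟩⟩ := h.inl e
    exacts [⟨_, _, h.by' j f, h.uv _, h1 _⟩, ⟨_, _, h.bx j f, (h.uv _).symm, h2 _⟩]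
  have hb : β j t ∉ range (pι Q κ U n) := fun ⟨_, k⟩ =>
    (h.same e k.symm).elim (fun k => hst k.1) fun k => hM k.1
  have hdY : d ∉ range (pι Q κ U n) ∧ Tog (PN N β) (β j t) d := by
    rcases hd' with rfl | ⟨_, ⟨n', γ, k, rfl⟩, ⟨a, k1⟩, b, rfl⟩
    · exact ⟨hb, _, .inr ⟨j, rfl⟩, ⟨t, rfl⟩, t, rfl⟩
    · exact ⟨fun ⟨_, k2⟩ => hb ⟨γ a, by rw [(pι_eq k2).1]; exact k1⟩, _,
        .inl ⟨n', _, hN ⟨γ, k, rfl⟩, rfl⟩, ⟨_, ⟨a, rfl⟩, k1⟩, _, ⟨b, rfl⟩, rfl⟩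
  rw [e, xprot_cell] at hw'
  have hwY : w ∈ range (pι Q κ U n) := image_subset_range _ _ hw'
  obtain ⟨a, ha1, b, hb1, hab⟩ := hc.comp_nb (Y := range (pι Q κ U n)) ⟨hd, hdY.1⟩ ⟨hw, hwY⟩
  have hsz : (C \ range (pι Q κ U n)).ncard ≤ k := Nat.lt_succ_iff.1
    ((ncard_lt_ncard ⟨sdiff_subset, fun k => (k hw).2 hwY⟩).trans_le hC)
  have key := (hT n).two (C := insert (β j t) (comp (Tog (PN N β)) (C \ range (pι Q κ U n)) d))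
    ((ncard_insert_le _ _).trans ((Nat.succ_le_succ ((ncard_le_ncard comp_sub).trans hsz)).trans
      hk))
    (disjoint_left.2 fun z hz => hz.elim (fun e => e ▸ hb) fun k => (comp_sub k).2)
    ((comp_conn (tog_symm _)).insert (tog_symm _) (mem_comp ⟨hd, hdY.1⟩) hdY.2)
    (u := β j s) (v := β j s') ⟨⟨_, e.symm⟩, _, .inl rfl, _, .inr ⟨j, rfl⟩, ⟨s, rfl⟩, t, rfl⟩
    ⟨⟨_, e'.symm⟩, _, .inl rfl, _, .inr ⟨j, rfl⟩, ⟨s', rfl⟩, t, rfl⟩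
    fun k => hz (pι_eq (e.symm.trans (k.trans e'))).2
  have hs' : β j s' ∈ C := by
    rcases key.2.1 ⟨hb1.2, a, .inr ha1, hab.symm⟩ with k | k
    exacts [absurd (k ▸ hb1.1) ha, k ▸ hb1.1]
  have hp := (proj_stmt _ _ _ _ g _ C (hT n) (h.cons' ht n) (hsz.trans (by omega)) hc).1
  refine ha (e ▸ ((map_stmt V _ _ N k (pι_inj n)).2 _ _ _ hF _ ?_ hp ⟨w, ⟨hw, hwY⟩, hw'⟩
    ⟨_, ⟨hs', _, e'.symm⟩, z', .inl rfl, e'.symm⟩).1)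
  exact Nat.lt_succ_iff.1
    ((ncard_lt_ncard ⟨inter_subset_left, fun k => hdY.1 (k hd).2⟩).trans_le hC)

end

theorem xprot_cc {U : Type} {A M : SimpleGraph U} (h : M ≤ A) (c : Bool) :
    ∃ red, red ≤ A ∧ cc A red (!c) = A \ M ∧ ∀ s t, M.Adj s t → (red.Adj s t ↔ c = true) := by
  cases c
  · exact ⟨A \ M, sdiff_le, rfl, fun s t e => ⟨fun k => absurd e k.2, fun k => by cases k⟩⟩
  · exact ⟨M, h, rfl, fun s t e => ⟨fun _ => rfl, fun _ => e⟩⟩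

theorem xprot_col {V : Type} {G R : SimpleGraph V} {c : Bool} {a b : V} (h : (cc G R c).Adj a b) :
    R.Adj a b ↔ c = true := by
  cases c
  exacts [⟨fun k => absurd k h.2, fun k => by cases k⟩, ⟨fun _ => rfl, fun _ => h⟩]

theorem xprot_col' {V : Type} {G R : SimpleGraph V} {c : Bool} {a b : V} (h : G.Adj a b)
    (h' : R.Adj a b ↔ c = true) : (cc G R c).Adj a b := by
  cases c
  exacts [⟨h, fun k => by cases h'.1 k⟩, h'.2 rfl]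

theorem prot_stmt (hMT0 : MT0Stmt) : ProtStmt := by
  intro U X V _ _ _ A E Γ RΓ Hub G R D Gs Bs g k c hE hk L hF
  let κ := {e : V × V // D.Adj e.1 e.2 ∧ (cc G R c).Adj e.1 e.2}
  rcases isEmpty_or_nonempty κ with hκ | ⟨⟨e0⟩⟩
  · exact ⟨V, ‹_›, G, R, D, Gs, Bs, L, fun a b e => (cc_or (L.le e) c).resolve_left fun e' =>
      hκ.elim ⟨(a, b), e, e'⟩, fun h a b e => hκ.elim ⟨(a, b), e, h e⟩⟩
  obtain ⟨Φ, x, y, hΦ, hβ⟩ := exists_ps (hE.mat (!c)) (hE.mat (!c)).bip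
    (u := fun e : κ => e.1.1) (v := fun e => e.1.2) fun e => e.2.1.ne
  have : Finite Φ := .of_injective _ hΦ
  obtain ⟨Z, Q, _, _, φ, φ1, φ2, φ3, φ4, φ5⟩ := hMT0 (κ × Φ) (V → V → Prop) g
  obtain ⟨β, h⟩ := hβ Z Q φ φ1 φ3
  obtain ⟨red, r1, r2, r3⟩ := xprot_cc (hE.M_le (!c)) c
  have P := L.core.pre
  have kG : ∀ (e : κ) s t, (E.M !c).Adj s t → (A.Adj s t ↔ G.Adj e.1.1 e.1.2) := fun e s t k =>
    ⟨fun _ => L.le e.2.1, fun _ => hE.M_le _ k⟩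
  have kR : ∀ (e : κ) s t, (E.M !c).Adj s t → (red.Adj s t ↔ R.Adj e.1.1 e.1.2) := fun e s t k =>
    (r3 s t k).trans (xprot_col e.2.2).symm
  have Gι := h.adjι fun e s t k => (kG e s t k).1
  have Rι := h.adjι fun e s t k => (kR e s t k).1
  have Gβ := h.adjβ kG
  have Rβ := h.adjβ kR
  have ht : ∀ e : κ, Tog (Nodes (range '' Gs) Bs) e.1.1 e.1.2 := fun e => P.tog (L.le e.2.1)
  obtain ⟨t1, t2⟩ := h.thin P.thin ht (fun e => L.le e.2.1) (fun n z z' => (Gι n z z').2) φ4 φ5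
  have hub : ∀ γ ∈ Gs, ∀ a ∈ Hub, ∀ j s n, β j s ≠ pι Q κ U n (γ a) := fun γ hγ a ha j s n e => by
    obtain ⟨f, -, ⟨-, k⟩ | ⟨-, k⟩⟩ := h.inl e
    exacts [L.hub γ hγ a ha _ (k ▸ j.2.2.1), L.hub γ hγ a ha _ (k ▸ j.2.2.1.symm)]
  have gdis : ∀ γ ∈ pGs Z Q κ U Gs, ∀ γ' ∈ pGs Z Q κ U Gs, γ ≠ γ' →
      Disjoint (range γ) (range γ') := by
    rintro _ ⟨n, γ, h1, rfl⟩ _ ⟨n', γ', h2, rfl⟩ e
    refine disjoint_left.2 ?_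
    rintro _ ⟨a, rfl⟩ ⟨b, e'⟩
    obtain ⟨rfl, k⟩ := pι_eq e'
    rw [L.core.eq_of_mem h1 h2 ⟨a, rfl⟩ ⟨b, k⟩] at e
    exact e rfl
  have hD : imG (pι Q κ U) (D ⊓ cc G R (!c)) ⊔ imG β (A \ E.M (!c)) ≤
      cc (imG (pι Q κ U) G ⊔ imG β A) (imG (pι Q κ U) R ⊔ imG β red) (!c) := by
    rintro _ _ (⟨-, n, s, t, e, rfl, rfl⟩ | ⟨-, j, s, t, e, rfl, rfl⟩)
    · exact (cc_iff (Gι n s t) (Rι n s t) _).2 e.2
    · exact (cc_iff (Gβ j s t) (Rβ j s t) _).2 (r2 ▸ e)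
  have hle : imG (pι Q κ U) R ⊔ imG β red ≤ imG (pι Q κ U) G ⊔ imG β A :=
    sup_le_sup (imG_mono _ P.le) (imG_mono _ r1)
  refine ⟨(Z × V) ⊕ (Q × κ × U), inferInstance, imG (pι Q κ U) G ⊔ imG β A,
    imG (pι Q κ U) R ⊔ imG β red, imG (pι Q κ U) (D ⊓ cc G R (!c)) ⊔ imG β (A \ E.M (!c)),
    pGs Z Q κ U Gs, pBs Bs β (E.M (!c)) red, ⟨⟨⟨hle, ?_, ?_, ?_, ?_, ?_, ?_, ?_, ?_, ?_⟩, ?_, ?_,
    gdis, ?_⟩, ?_, hD.trans (cc_le hle _), ?_, ?_⟩, hD, ?_⟩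
  · rintro _ (⟨n, b, hb, rfl⟩ | ⟨j, rfl⟩)
    · exact ⟨fun s _ t _ e => (P.ind b hb).1 trivial trivial (pι_inj n e),
        fun s _ t _ => (Gι n _ _).trans ((P.ind b hb).2 s trivial t trivial)⟩
    · exact ⟨(h.inj j).injOn, fun s _ t _ => Gβ j s t⟩
  · rintro _ (⟨n, b, hb, rfl⟩ | ⟨j, rfl⟩) s t
    exacts [(Rι n _ _).trans (P.col b hb s t), Rβ j s t]
  · rintro _ (⟨n, b, hb, rfl⟩ | ⟨j, rfl⟩)
    exacts [P.old b hb, hE.M_le _]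
  · have k : ∀ n z z', G.Adj z z' → (∃ L ∈ range '' pGs Z Q κ U Gs, pι Q κ U n z ∈ L ∧
        pι Q κ U n z' ∈ L) ∨ ∃ b ∈ pBs Bs β (E.M (!c)) red, ∃ s t, b.f s = pι Q κ U n z ∧
        b.f t = pι Q κ U n z' ∧ ¬ b.old.Adj s t := fun n z z' e => by
      rcases P.cov z z' e with ⟨_, ⟨γ, hγ, rfl⟩, ⟨s, rfl⟩, t, rfl⟩ | ⟨b, hb, s, t, rfl, rfl, k⟩
      exacts [.inl ⟨_, ⟨_, ⟨n, γ, hγ, rfl⟩, rfl⟩, ⟨s, rfl⟩, t, rfl⟩,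
        .inr ⟨_, .inl ⟨n, b, hb, rfl⟩, s, t, rfl, rfl, k⟩]
    rintro _ _ (⟨-, n, s, t, e, rfl, rfl⟩ | ⟨-, j, s, t, e, rfl, rfl⟩)
    · exact k n s t e
    by_cases hM : (E.M (!c)).Adj s t
    · obtain ⟨f, z, z', h1, h2, k'⟩ := h.old j hM
      rw [h1, h2]
      exact k _ _ _ ((xprota_uv k').2 (L.le j.2.2.1))
    · exact .inr ⟨_, .inr ⟨j, rfl⟩, s, t, rfl, rfl, hM⟩
  · rw [xprot_nodes]
    exact t1
  · rintro _ ⟨_, ⟨n, γ, hγ, rfl⟩, rfl⟩ _ (⟨n', b, hb, rfl⟩ | ⟨j, rfl⟩) s t e ⟨a, h1⟩ ⟨a', h2⟩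
    · exact P.lb _ ⟨γ, hγ, rfl⟩ b hb s t e ⟨a, (pι_eq h1).2⟩ ⟨a', (pι_eq h2).2⟩
    · exact ⟨id, ((h.same h1.symm h2.symm).resolve_left fun k => e k.1).1⟩
  · rintro _ (⟨n, b, hb, rfl⟩ | ⟨j, rfl⟩) _ (⟨n', b', hb', rfl⟩ | ⟨j', rfl⟩) s t s' t' e k k' h1 h2
    · obtain rfl := (pι_eq h1).1
      exact (P.bb b hb b' hb' s t s' t' e k k' (pι_eq h1).2 (pι_eq h2).2).imp_left
        fun e => by rw [e]
    · exact ((h.same h1.symm h2.symm).elim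
        (fun q => e.ne ((P.ind b hb).1 trivial trivial q.2)) fun q => k' q.1).elim
    · exact ((h.same h1 h2).elim (fun q => e.ne q.1) fun q => k q.1).elim
    · exact .inl (by rw [h.two e.ne k h1 h2])
  · rintro _ (⟨n, b, hb, rfl⟩ | ⟨j, rfl⟩)
    exacts [P.low b hb, fun _ => ⟨hE.mat _, _, r2⟩]
  · rintro _ ⟨γ, h1, rfl⟩ _ ⟨γ', h2, rfl⟩ e
    exact gdis γ h1 γ' h2 fun e' => e (by rw [e'])
  · rintro _ ⟨n, γ, hγ, rfl⟩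
    exact ⟨fun s _ t _ e => (L.core.gind γ hγ).1 trivial trivial (pι_inj n e),
      fun s _ t _ => (Gι n _ _).trans ((L.core.gind γ hγ).2 s trivial t trivial)⟩
  · rintro _ ⟨n, γ, hγ, rfl⟩ s t
    exact (Rι n _ _).trans (L.core.gcol γ hγ s t)
  · rintro _ ⟨n, γ, hγ, rfl⟩ _ (⟨n', b, hb, rfl⟩ | ⟨j, rfl⟩) s a ha e
    exacts [L.core.hub γ hγ b hb s a ha (pι_eq e).2, hub γ hγ a ha j s n e]
  · rintro _ (⟨n, b, hb, rfl⟩ | ⟨j, rfl⟩)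
    exacts [L.low b hb, ⟨id, r1, _, rfl, r2⟩]
  · intro R' hR' hag
    obtain ⟨p, hp⟩ := φ2 fun n z z' => R'.Adj (pι Q κ U n z) (pι Q κ U n z')
    by_cases hw : ∃ e : κ, ∀ f, ¬ (R'.Adj (pι Q κ U (φ p (e, f)) e.1.1)
        (pι Q κ U (φ p (e, f)) e.1.2) ↔ c = true)
    · obtain ⟨e, hw⟩ := hw
      have k : In A (cc (imG (pι Q κ U) G ⊔ imG β A) R' (!c)) := by
        refine ⟨β (p, e), h.inj _, fun s t q => xprot_col' ((Gβ _ s t).2 q) ?_⟩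
        by_cases hM : (E.M (!c)).Adj s t
        · obtain ⟨f, z, z', h1, h2, k'⟩ := h.old (p, e) hM
          have := hw f
          rw [h1, h2, xprota_uv (J := R') (k'.imp (fun k => ⟨congrArg _ k.1, congrArg _ k.2⟩)
            fun k => ⟨congrArg _ k.1, congrArg _ k.2⟩)]
          cases c <;> simpa using this
        · have q' := imG_adj (J := A \ E.M (!c)) (h.inj (p, e)) ⟨q, hM⟩
          exact (hag _ _ (.inr q')).trans (xprot_col (hD (.inr q')))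
      cases c
      exacts [.inl k, .inr k]
    push Not at hw
    obtain ⟨f0, -⟩ := hw e0
    refine (L.ram (R'.comap (pι Q κ U (φ p (e0, f0)))) (fun a b e => (Gι _ a b).1 (hR' e))
      fun a b e => ?_).imp (fun ⟨ψ, h1, h2⟩ => ⟨_, (pι_inj _).comp h1, h2⟩)
      fun ⟨ψ, h1, h2⟩ => ⟨_, (pι_inj _).comp h1, fun a b e =>
        ⟨(Gι _ _ _).2 (h2 a b e).1, (h2 a b e).2⟩⟩
    rcases cc_or (L.le e) c with q | q
    · obtain ⟨f, k⟩ := hw ⟨(a, b), e, q⟩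
      exact (iff_of_eq (congrFun (congrFun (hp (e0, f0) (⟨(a, b), e, q⟩, f)) a) b)).trans
        (k.trans (xprot_col q).symm)
    · exact (hag _ _ (.inl (imG_adj (pι_inj _) ⟨e, q⟩))).trans (Rι _ a b)
  · rintro _ ⟨n, γ, hγ, rfl⟩ a ha _ (⟨-, n', s, t, e, h1, rfl⟩ | ⟨-, j, s, t, e, h1, rfl⟩)
    exacts [L.hub γ hγ a ha t ((pι_eq h1).2 ▸ e.1), hub γ hγ a ha j s n h1]
  · rintro hc _ _ (⟨-, n, s, t, e, rfl, rfl⟩ | ⟨-, j, s, t, e, rfl, rfl⟩)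
    · exact absurd e.2 (cc_not (hc e.1))
    · rw [xprot_nodes]
      exact h.far (by omega) subset_union_left ht t2 (fun e => hF _ _ e.2.1)
        (fun e => hF _ _ e.2.1.symm) j e.1.ne e.2

end Pool.Agent.MP_1c0fc2_co.RE
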