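import Pool.Agent.MP_1c0fc2_co.RE.Star

/-! The protection step: definitions and local facts. -/

open Function Set Relation

namespace Pool.Agent.MP_1c0fc2_co.RE

/-- union of images of a graph -/
def imG {I U V : Type} (f : I → U → V) (J : SimpleGraph U) : SimpleGraph V where
  Adj a b := a ≠ b ∧ ∃ i s t, J.Adj s t ∧ f i s = a ∧ f i t = b
  symm := ⟨fun _ _ ⟨h, i, s, t, h1, h2, h3⟩ => ⟨h.symm, i, t, s, h1.symm, h3, h2⟩⟩
  loopless := ⟨fun _ h => h.1 rfl⟩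

theorem imG_adj {I U V : Type} {f : I → U → V} {J : SimpleGraph U} {i : I}
    (hf : Injective (f i)) {s t : U} (h : J.Adj s t) : (imG f J).Adj (f i s) (f i t) :=
  ⟨hf.ne h.ne, i, s, t, h, rfl, rfl⟩

theorem imG_mono {I U V : Type} (f : I → U → V) {J J' : SimpleGraph U} (h : J ≤ J') :
    imG f J ≤ imG f J' := fun _ _ ⟨h0, i, s, t, h1, h2⟩ => ⟨h0, i, s, t, h h1, h2⟩

variable {U V Z Q κ Φ : Type}

/-- the copy of the old graph at the point `n` -/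
def pι (Q κ U : Type) (n : Z) (z : V) : (Z × V) ⊕ (Q × κ × U) := .inl (n, z)

theorem pι_inj (n : Z) : Injective (pι (V := V) Q κ U n) := fun _ _ h =>
  congrArg Prod.snd (Sum.inl_injective h)

theorem pι_eq {n n' : Z} {z z' : V} (h : pι Q κ U n z = pι Q κ U n' z') : n = n' ∧ z = z' :=
  Prod.ext_iff.1 (Sum.inl_injective h)

/-- the data of the protection step -/
structure PS (M : SimpleGraph U) (x y : Φ → U) (u v : κ → V) (φ : Q → κ × Φ → Z)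
    (β : Q × κ → U → (Z × V) ⊕ (Q × κ × U)) : Prop where
  adj : ∀ a b, M.Adj a b ↔ ∃ f, Ends x y f a b
  xi : Injective x
  yi : Injective y
  xy : ∀ f f', x f ≠ y f'
  uv : ∀ e, u e ≠ v e
  φi : ∀ p, Injective (φ p)
  b2 : ∀ p q, p ≠ q → (range (φ p) ∩ range (φ q)).Subsingleton
  bx : ∀ j f, β j (x f) = pι Q κ U (φ j.1 (j.2, f)) (u j.2)
  by' : ∀ j f, β j (y f) = pι Q κ U (φ j.1 (j.2, f)) (v j.2)
  br : ∀ j a, a ∉ M.support → β j a = .inr (j.1, j.2, a)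

theorem exists_ps {M : SimpleGraph U} (hM : Mat M) (hB : Bip M) {u v : κ → V}
    (huv : ∀ e, u e ≠ v e) : ∃ (Φ : Type) (x y : Φ → U), Injective (fun f => (x f, y f)) ∧
      ∀ (Z Q : Type) (φ : Q → κ × Φ → Z), (∀ p, Injective (φ p)) →
      (∀ p q, p ≠ q → (range (φ p) ∩ range (φ q)).Subsingleton) → ∃ β, PS M x y u v φ β := by
  classical
  obtain ⟨s, hs⟩ := hB
  let Φ := {d : U × U // M.Adj d.1 d.2 ∧ s d.1 = true}
  have xi : Injective fun f : Φ => f.1.1 := fun f f' e =>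
    Subtype.ext (Prod.ext e (hM _ _ _ f.2.1 ((show f.1.1 = f'.1.1 from e) ▸ f'.2.1)))
  have yi : Injective fun f : Φ => f.1.2 := fun f f' e =>
    Subtype.ext (Prod.ext (hM _ _ _ f.2.1.symm ((show f.1.2 = f'.1.2 from e) ▸ f'.2.1.symm)) e)
  have xy : ∀ f f' : Φ, f.1.1 ≠ f'.1.2 := fun f f' e =>
    hs _ _ f'.2.1 (f'.2.2.trans (e ▸ f.2.2.symm))
  refine ⟨Φ, fun f => f.1.1, fun f => f.1.2, Subtype.val_injective, fun Z Q φ h1 h2 =>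
    ⟨fun j a => if h : ∃ f : Φ, f.1.1 = a then pι Q κ U (φ j.1 (j.2, h.choose)) (u j.2)
      else if h : ∃ f : Φ, f.1.2 = a then pι Q κ U (φ j.1 (j.2, h.choose)) (v j.2)
      else .inr (j.1, j.2, a), fun a b => ⟨fun e => ?_, ?_⟩, xi, yi, xy, huv, h1, h2,
      fun j f => ?_, fun j f => ?_, fun j a ha => ?_⟩⟩
  · cases h : s a
    · refine ⟨⟨(b, a), e.symm, ?_⟩, .inr ⟨rfl, rfl⟩⟩
      have := hs a b e
      rw [h] at this
      simpa using this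
    · exact ⟨⟨(a, b), e, h⟩, .inl ⟨rfl, rfl⟩⟩
  · rintro ⟨f, ⟨rfl, rfl⟩ | ⟨rfl, rfl⟩⟩
    exacts [f.2.1, f.2.1.symm]
  · have h : ∃ f' : Φ, f'.1.1 = f.1.1 := ⟨f, rfl⟩
    rw [dif_pos h, xi h.choose_spec]
  · have h : ∃ f' : Φ, f'.1.2 = f.1.2 := ⟨f, rfl⟩
    rw [dif_neg fun ⟨f', e⟩ => xy f' f e, dif_pos h, yi h.choose_spec]
  · rw [dif_neg fun ⟨f, e⟩ => ha ⟨_, e ▸ f.2.1⟩, dif_neg fun ⟨f, e⟩ => ha ⟨_, e ▸ f.2.1.symm⟩]

variable {M : SimpleGraph U} {x y : Φ → U} {u v : κ → V} {φ : Q → κ × Φ → Z}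
  {β : Q × κ → U → (Z × V) ⊕ (Q × κ × U)}

theorem PS.cases (h : PS M x y u v φ β) (a : U) :
    (∃ f, a = x f) ∨ (∃ f, a = y f) ∨ a ∉ M.support := by
  by_cases ha : a ∈ M.support
  · obtain ⟨b, e⟩ := ha
    obtain ⟨f, e | e⟩ := (h.adj a b).1 e
    exacts [.inl ⟨f, e.1⟩, .inr (.inl ⟨f, e.1⟩)]
  · exact .inr (.inr ha)

theorem PS.inl (h : PS M x y u v φ β) {j : Q × κ} {a : U} {n : Z} {z : V}
    (e : β j a = pι Q κ U n z) :
    ∃ f, n = φ j.1 (j.2, f) ∧ ((a = x f ∧ z = u j.2) ∨ (a = y f ∧ z = v j.2)) := by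
  rcases h.cases a with ⟨f, rfl⟩ | ⟨f, rfl⟩ | ha
  · rw [h.bx] at e
    exact ⟨f, (pι_eq e).1.symm, .inl ⟨rfl, (pι_eq e).2.symm⟩⟩
  · rw [h.by'] at e
    exact ⟨f, (pι_eq e).1.symm, .inr ⟨rfl, (pι_eq e).2.symm⟩⟩
  · rw [h.br j a ha] at e
    exact absurd e Sum.inr_ne_inl

theorem PS.split (h : PS M x y u v φ β) (j : Q × κ) (a : U) :
    (∃ n z, β j a = pι Q κ U n z) ∨ β j a = .inr (j.1, j.2, a) := by
  rcases h.cases a with ⟨f, rfl⟩ | ⟨f, rfl⟩ | ha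
  exacts [.inl ⟨_, _, h.bx j f⟩, .inl ⟨_, _, h.by' j f⟩, .inr (h.br j a ha)]

theorem PS.inr (h : PS M x y u v φ β) {j : Q × κ} {a : U} {r : Q × κ × U} (e : β j a = .inr r) :
    r = (j.1, j.2, a) := by
  rcases h.split j a with ⟨n, z, e'⟩ | e'
  · exact absurd (e'.symm.trans e) Sum.inl_ne_inr
  · exact Sum.inr_injective (e.symm.trans e')

/-- two vertices of a new bag in one point -/
theorem PS.same (h : PS M x y u v φ β) {j : Q × κ} {a b : U} {n : Z} {z z' : V}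
    (e : β j a = pι Q κ U n z) (e' : β j b = pι Q κ U n z') :
    (a = b ∧ z = z') ∨ (M.Adj a b ∧ ((z = u j.2 ∧ z' = v j.2) ∨ (z = v j.2 ∧ z' = u j.2))) := by
  obtain ⟨f, h1, h2⟩ := h.inl e
  obtain ⟨f', h3, h4⟩ := h.inl e'
  obtain rfl : f = f' := congrArg Prod.snd (h.φi _ (h1.symm.trans h3))
  rcases h2 with ⟨rfl, rfl⟩ | ⟨rfl, rfl⟩ <;> rcases h4 with ⟨rfl, rfl⟩ | ⟨rfl, rfl⟩
  exacts [.inl ⟨rfl, rfl⟩, .inr ⟨(h.adj _ _).2 ⟨f, .inl ⟨rfl, rfl⟩⟩, .inl ⟨rfl, rfl⟩⟩,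
    .inr ⟨(h.adj _ _).2 ⟨f, .inr ⟨rfl, rfl⟩⟩, .inr ⟨rfl, rfl⟩⟩, .inl ⟨rfl, rfl⟩]

theorem PS.old (h : PS M x y u v φ β) (j : Q × κ) {a b : U} (e : M.Adj a b) :
    ∃ f z z', β j a = pι Q κ U (φ j.1 (j.2, f)) z ∧ β j b = pι Q κ U (φ j.1 (j.2, f)) z' ∧
      ((z = u j.2 ∧ z' = v j.2) ∨ (z = v j.2 ∧ z' = u j.2)) := by
  obtain ⟨f, ⟨rfl, rfl⟩ | ⟨rfl, rfl⟩⟩ := (h.adj a b).1 e
  exacts [⟨f, _, _, h.bx j f, h.by' j f, .inl ⟨rfl, rfl⟩⟩,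
    ⟨f, _, _, h.by' j f, h.bx j f, .inr ⟨rfl, rfl⟩⟩]

theorem PS.inj (h : PS M x y u v φ β) (j : Q × κ) : Injective (β j) := fun a b e => by
  rcases h.split j a with ⟨n, z, e'⟩ | e'
  · rcases h.same e' (e ▸ e') with k | ⟨-, k | k⟩
    exacts [k.1, absurd (k.1.symm.trans k.2) (h.uv _), absurd (k.2.symm.trans k.1) (h.uv _)]
  · exact congrArg (fun r => r.2.2) (h.inr (e ▸ e'))

/-- two new bags with a common pair that is not an old edge coincide -/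
theorem PS.two (h : PS M x y u v φ β) {j j' : Q × κ} {a b a' b' : U} (hab : a ≠ b)
    (hM : ¬ M.Adj a b) (e : β j a = β j' a') (e' : β j b = β j' b') : j = j' := by
  have k : ∀ a a', β j a = β j' a' → β j a = .inr (j.1, j.2, a) → j = j' := fun a a' e e' => by
    have : (j.1, j.2, a) = (j'.1, j'.2, a') := h.inr (e.symm.trans e')
    exact Prod.ext (congrArg (fun r : Q × κ × U => r.1) this)
      (congrArg (fun r : Q × κ × U => r.2.1) this)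
  rcases h.split j a with ⟨n, z, h1⟩ | h1
  swap
  · exact k a a' e h1
  rcases h.split j b with ⟨n', z', h2⟩ | h2
  swap
  · exact k b b' e' h2
  have hn : n ≠ n' := by
    rintro rfl
    rcases h.same h1 h2 with k | k
    exacts [hab k.1, hM k.1]
  obtain ⟨f1, k1, -⟩ := h.inl h1
  obtain ⟨f2, k2, -⟩ := h.inl h2
  obtain ⟨f3, k3, -⟩ := h.inl (e ▸ h1)
  obtain ⟨f4, k4, -⟩ := h.inl (e' ▸ h2)
  have hp : j.1 = j'.1 := by
    by_contra hp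
    exact hn (h.b2 _ _ hp ⟨⟨_, k1.symm⟩, _, k3.symm⟩ ⟨⟨_, k2.symm⟩, _, k4.symm⟩)
  rw [← hp] at k3
  exact Prod.ext hp (congrArg Prod.fst (h.φi _ (k1.symm.trans k3)))

theorem xprota_uv {J : SimpleGraph V} {a b z z' : V} (k : (z = a ∧ z' = b) ∨ (z = b ∧ z' = a)) :
    J.Adj z z' ↔ J.Adj a b := by
  rcases k with ⟨rfl, rfl⟩ | ⟨rfl, rfl⟩
  exacts [.rfl, J.adj_comm _ _]

theorem PS.adjι (h : PS M x y u v φ β) {J : SimpleGraph V} {K : SimpleGraph U}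
    (hK : ∀ e s t, M.Adj s t → K.Adj s t → J.Adj (u e) (v e)) (n : Z) (z z' : V) :
    (imG (pι Q κ U) J ⊔ imG β K).Adj (pι Q κ U n z) (pι Q κ U n z') ↔ J.Adj z z' := by
  refine ⟨?_, fun e => .inl (imG_adj (pι_inj n) e)⟩
  rintro (⟨-, n', s, t, e, h1, h2⟩ | ⟨-, j, s, t, e, h1, h2⟩)
  · exact (pι_eq h1).2 ▸ (pι_eq h2).2 ▸ e
  · rcases h.same h1 h2 with k | k
    exacts [absurd k.1 e.ne, (xprota_uv k.2).2 (hK _ s t k.1 e)]

theorem PS.adjβ (h : PS M x y u v φ β) {J : SimpleGraph V} {K : SimpleGraph U}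
    (hK : ∀ e s t, M.Adj s t → (K.Adj s t ↔ J.Adj (u e) (v e))) (j : Q × κ) (a b : U) :
    (imG (pι Q κ U) J ⊔ imG β K).Adj (β j a) (β j b) ↔ K.Adj a b := by
  by_cases hM : M.Adj a b
  · obtain ⟨f, z, z', h1, h2, k⟩ := h.old j hM
    rw [h1, h2, h.adjι fun e s t h1 h2 => (hK e s t h1).1 h2, xprota_uv k, hK j.2 a b hM]
  refine ⟨?_, fun e => .inr (imG_adj (h.inj j) e)⟩
  rintro (⟨h0, n', s, t, e, h1, h2⟩ | ⟨h0, j', s, t, e, h1, h2⟩)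
  · rcases h.same h1.symm h2.symm with k | k
    exacts [absurd k.2 e.ne, absurd k.1 hM]
  · obtain rfl : j = j' := h.two (fun e => h0 (congrArg (β j) e)) hM h1.symm h2.symm
    exact h.inj j h1 ▸ h.inj j h2 ▸ e

end Pool.Agent.MP_1c0fc2_co.RE
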