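import Pool.Agent.MP_1c0fc2_co.RE.ProtA

/-! The protection step: the frame of the new level. -/

open Function Set Relation

namespace Pool.Agent.MP_1c0fc2_co.RE

variable {U V Z Q κ Φ : Type} {M : SimpleGraph U} {x y : Φ → U} {u v : κ → V} {φ : Q → κ × Φ → Z}
  {β : Q × κ → U → (Z × V) ⊕ (Q × κ × U)}

/-- the nodes of the new level -/
def PN (N : Set (Set V)) (β : Q × κ → U → (Z × V) ⊕ (Q × κ × U)) :
    Set (Set ((Z × V) ⊕ (Q × κ × U))) :=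
  {ν | (∃ n, ν ∈ image (pι Q κ U n) '' N) ∨ ∃ j, ν = range (β j)}

theorem PS.cons (h : PS M x y u v φ β) {N : Set (Set V)} (ht : ∀ e, Tog N (u e) (v e)) {n : Z}
    {z z' : V} (hz : z ≠ z') (t : Tog (PN N β) (pι Q κ U n z) (pι Q κ U n z')) : Tog N z z' := by
  obtain ⟨_, ⟨n', ν, hν, rfl⟩ | ⟨j, rfl⟩, ⟨s, h1⟩, t, h2⟩ := t
  · exact ⟨ν, hν, (pι_eq h1.2).2 ▸ h1.1, (pι_eq h2.2).2 ▸ h2.1⟩
  · rcases h.same h1 h2 with k | ⟨-, ⟨rfl, rfl⟩ | ⟨rfl, rfl⟩⟩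
    exacts [absurd k.2 hz, ht _, (ht _).symm]

theorem PS.cons' (h : PS M x y u v φ β) {N : Set (Set V)} (ht : ∀ e, Tog N (u e) (v e)) (n : Z) :
    ∀ a b, a ≠ b → a ∈ range (pι Q κ U n) → b ∈ range (pι Q κ U n) → Tog (PN N β) a b →
      Tog (image (pι Q κ U n) '' N) a b := by
  rintro _ _ e ⟨z, rfl⟩ ⟨z', rfl⟩ t
  exact (xframe_tog (pι_inj n)).2 (h.cons ht (fun e' => e (congrArg _ e')) t)

theorem xprotb_lk {G : SimpleGraph V} {W : Type} {G' : SimpleGraph W} {f : V → W}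
    (hG : ∀ z z', G.Adj z z' → G'.Adj (f z) (f z')) (ℓ : Set V) (h : GLk G ℓ) :
    GLk G' (f '' ℓ) := by
  rcases h with ⟨w, rfl⟩ | ⟨a, b, e, rfl⟩
  exacts [.inl ⟨_, image_singleton⟩, .inr ⟨_, _, hG a b e, image_pair _ _ _⟩]

theorem PS.star [Finite V] [Finite ((Z × V) ⊕ (Q × κ × U))] (h : PS M x y u v φ β)
    {N : Set (Set V)} {G : SimpleGraph V} {G' : SimpleGraph ((Z × V) ⊕ (Q × κ × U))} {g : ℕ}
    (hT : ∀ ν ∈ N, Thin N (GLk G) g ν) (ht : ∀ e, Tog N (u e) (v e))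
    (ha : ∀ e, G.Adj (u e) (v e))
    (hG : ∀ n z z', G.Adj z z' → G'.Adj (pι Q κ U n z) (pι Q κ U n z')) (j : Q × κ) :
    Star G' (β j) (fun a => {β j a}) ∅ (fun f => range (pι Q κ U (φ j.1 (j.2, f)))) x y
      (fun f => image (pι Q κ U (φ j.1 (j.2, f))) '' N) g := by
  refine ⟨fun _ => rfl, fun a a' e => disjoint_singleton.2 ((h.inj j).ne e), fun _ _ => rfl,
    fun f => h.xy f f, fun f => singleton_subset_iff.2 ⟨_, (h.bx j f).symm⟩,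
    fun f => singleton_subset_iff.2 ⟨_, (h.by' j f).symm⟩, fun f a h1 h2 => ?_,
    fun f f' e => ⟨x f, ?_⟩, ?_, fun _ _ h => h.elim, ?_, fun f => ?_, fun f => ?_, ?_, ?_⟩
  · refine disjoint_singleton_left.2 fun ⟨z, e⟩ => ?_
    obtain ⟨f', k1, k2⟩ := h.inl e.symm
    obtain rfl : f = f' := congrArg Prod.snd (h.φi _ k1)
    exact k2.elim (fun k => h1 k.1) fun k => h2 k.1
  · rintro _ ⟨⟨z, rfl⟩, z', e'⟩
    exact absurd (congrArg Prod.snd (h.φi _ (pι_eq e').1)).symm e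
  · rintro f _ ⟨ν, -, rfl⟩
    exact image_subset_range _ _
  · rintro f _ ⟨ν, hν, rfl⟩
    exact (map_stmt V _ _ N g (pι_inj _)).1 _ _ ν (xprotb_lk (hG _)) (hT ν hν)
  · rw [h.bx, h.by']
    exact (xframe_tog (pι_inj _)).2 (ht _)
  · rw [h.bx, h.by']
    exact hG _ _ _ (ha _)
  · rintro f C - - ⟨_, hc, rfl⟩ -
    exact hc
  · rintro f C - - ⟨_, hc, rfl⟩ -
    exact hc

theorem PS.thin [Finite V] [Finite Z] [Finite ((Z × V) ⊕ (Q × κ × U))] (h : PS M x y u v φ β)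
    {N : Set (Set V)} {G : SimpleGraph V} {G' : SimpleGraph ((Z × V) ⊕ (Q × κ × U))} {g : ℕ}
    (hT : ∀ ν ∈ N, Thin N (GLk G) g ν) (ht : ∀ e, Tog N (u e) (v e))
    (ha : ∀ e, G.Adj (u e) (v e))
    (hG : ∀ n z z', G.Adj z z' → G'.Adj (pι Q κ U n z) (pι Q κ U n z'))
    (hcov : ∀ n, ∃ p i, φ p i = n)
    (h0 : ∀ p, Thin (range fun q => range (φ q)) (fun ℓ => ∃ n, ℓ = {n}) g (range (φ p))) :
    (∀ ν ∈ PN N β, Thin (PN N β) (GLk G') g ν) ∧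
      ∀ n, Thin (PN N β) (GLk G') g (range (pι Q κ U n)) := by
  let SN : Q × κ → Set (Set ((Z × V) ⊕ (Q × κ × U))) := fun j =>
    StarN (β j) (fun a => {β j a}) ∅ fun f => image (pι Q κ U (φ j.1 (j.2, f))) '' N
  let XS : Q × κ → Set ((Z × V) ⊕ (Q × κ × U)) := fun j =>
    {w | w ∈ range (β j) ∨ ∃ f, w ∈ range (pι Q κ U (φ j.1 (j.2, f)))}
  have s1 : ∀ j, ∀ ν ∈ SN j, ν ⊆ XS j := by
    rintro j ν (rfl | ⟨_, h, -⟩ | ⟨f, μ, -, rfl⟩) w hw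
    exacts [.inl hw, h.elim, .inr ⟨f, image_subset_range _ _ hw⟩]
  have s2 : ∀ j n z, pι Q κ U n z ∈ XS j ↔ ∃ f, φ j.1 (j.2, f) = n := fun j n z => by
    refine ⟨?_, fun ⟨f, e⟩ => .inr ⟨f, z, by rw [e]⟩⟩
    rintro (⟨a, e⟩ | ⟨f, z', e⟩)
    exacts [(h.inl e).imp fun _ k => k.1.symm, ⟨f, (pι_eq e).1⟩]
  have s3 : ∀ j r, Sum.inr r ∈ XS j → r.1 = j.1 ∧ r.2.1 = j.2 := by
    rintro j r (⟨a, e⟩ | ⟨f, z', e⟩)
    · rw [h.inr e]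
      exact ⟨rfl, rfl⟩
    · exact absurd e Sum.inl_ne_inr
  have s4 : ∀ p e Y, Y ⊆ XS (p, e) → Thin (SN (p, e)) (GLk G') g Y →
      Thin (⋃ e, SN (p, e)) (GLk G') g Y := fun p =>
    parts_stmt _ κ (fun e => XS (p, e)) (fun e => SN (p, e)) _ g (fun e => s1 (p, e))
      fun e e' he => disjoint_left.2 fun w h1 h2 => he (by
        rcases w with ⟨n, z⟩ | r
        · obtain ⟨f, k⟩ := (s2 _ n z).1 h1
          obtain ⟨f', k'⟩ := (s2 _ n z).1 h2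
          exact congrArg Prod.fst (h.φi p (k.trans k'.symm))
        · exact (s3 _ r h1).2.symm.trans (s3 _ r h2).2)
  have s5 : (⋃ p, ⋃ e, SN (p, e)) = PN N β := by
    ext ν
    simp only [mem_iUnion]
    constructor
    · rintro ⟨p, e, rfl | ⟨_, h, -⟩ | ⟨f, h⟩⟩
      exacts [.inr ⟨_, rfl⟩, h.elim, .inl ⟨_, h⟩]
    · rintro (⟨n, h⟩ | ⟨j, rfl⟩)
      · obtain ⟨p, ⟨e, f⟩, rfl⟩ := hcov n
        exact ⟨p, e, .inr (.inr ⟨f, h⟩)⟩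
      · exact ⟨j.1, j.2, .inl rfl⟩
  have s6 : ∀ p n z, (pι Q κ U n z ∈ ⋃ e, XS (p, e)) ↔ n ∈ range (φ p) := fun p n z => by
    simp only [mem_iUnion, s2]
    exact ⟨fun ⟨e, f, k⟩ => ⟨(e, f), k⟩, fun ⟨i, k⟩ => ⟨i.1, i.2, k⟩⟩
  have s7 : ∀ r p q, (Sum.inr r ∈ ⋃ e, XS (p, e)) → (Sum.inr r ∈ ⋃ e, XS (q, e)) → p = q := by
    intro r p q h1 h2
    obtain ⟨e, h1⟩ := mem_iUnion.1 h1
    obtain ⟨e', h2⟩ := mem_iUnion.1 h2
    exact (s3 _ r h1).1.symm.trans (s3 _ r h2).1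
  have s8 : ∀ p, ∀ ν ∈ ⋃ e, SN (p, e), ν ⊆ ⋃ e, XS (p, e) := fun p ν hν => by
    obtain ⟨e, hν⟩ := mem_iUnion.1 hν
    exact (s1 _ ν hν).trans (subset_iUnion (fun e => XS (p, e)) e)
  have s9 : ∀ p, (⋃ e, SN (p, e)) ⊆ PN N β := fun p =>
    s5 ▸ subset_iUnion (fun p => ⋃ e, SN (p, e)) p
  have s10 : ∀ p q a b, a ≠ b → (a ∈ ⋃ e, XS (p, e)) → (b ∈ ⋃ e, XS (p, e)) →
      Tog (⋃ e, SN (q, e)) a b → Tog (⋃ e, SN (p, e)) a b := by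
    intro p q a b e h1 h2 t
    by_cases hpq : p = q
    · exact hpq ▸ t
    obtain ⟨ν, hν, k1, k2⟩ := id t
    rcases a with ⟨n, z⟩ | r
    swap
    · exact absurd (s7 r p q h1 (s8 q ν hν k1)) hpq
    rcases b with ⟨n', z'⟩ | r
    swap
    · exact absurd (s7 r p q h2 (s8 q ν hν k2)) hpq
    obtain rfl : n = n' := h.b2 p q hpq ⟨(s6 p n z).1 h1, (s6 q n z).1 (s8 q ν hν k1)⟩
      ⟨(s6 p n' z').1 h2, (s6 q n' z').1 (s8 q ν hν k2)⟩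
    obtain ⟨⟨e', f⟩, rfl⟩ := (s6 p n z).1 h1
    exact (h.cons' ht _ _ _ e ⟨z, rfl⟩ ⟨z', rfl⟩ (t.mono (s9 q))).mono fun μ hμ =>
      mem_iUnion.2 ⟨e', .inr (.inr ⟨f, hμ⟩)⟩
  have s11 : ∀ p e f, Thin (⋃ e, SN (p, e)) (GLk G') g (range (pι Q κ U (φ p (e, f)))) :=
    fun p e f => s4 p e _ (fun w hw => .inr ⟨f, hw⟩) ((h.star hT ht ha hG (p, e)).thinZ f)
  have s12 := glue_stmt Z _ Q (fun p => range (φ p)) (fun ℓ => ∃ n, ℓ = {n})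
    (Sum.elim (fun r => some r.1) fun _ => none) (fun p => ⋃ e, XS (p, e))
    (fun p => ⋃ e, SN (p, e)) (GLk G') g h0
    (fun p q hpq => (h.b2 p q hpq).eq_empty_or_singleton.imp_right fun ⟨n, e⟩ =>
      ⟨{n}, ⟨n, rfl⟩, e.le, e ▸ inter_subset_left, e ▸ inter_subset_right⟩)
    (by rintro (⟨n, z⟩ | r) n' p e
        · obtain rfl : n = n' := Option.some_injective _ e
          exact s6 p n z
        · cases e)
    (by rintro (⟨n, z⟩ | r) p q e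
        · cases e
        · exact s7 r p q) s8 s10
    (by rintro p _ ⟨n, rfl⟩ hn
        obtain ⟨⟨e, f⟩, rfl⟩ := hn rfl
        convert s11 p e f using 1
        ext (⟨n, z⟩ | r)
        · exact ⟨fun ⟨_, k, k'⟩ => ⟨z, by rw [← k, ← Option.some_injective _ k']; rfl⟩,
            fun ⟨z', k⟩ => ⟨_, rfl, congrArg some (pι_eq k).1.symm⟩⟩
        · exact ⟨fun ⟨_, _, k⟩ => (by cases k), fun ⟨_, k⟩ => absurd k Sum.inl_ne_inr⟩)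
  rw [s5] at s12
  have s13 : ∀ p Y, (Y ⊆ ⋃ e, XS (p, e)) → Thin (⋃ e, SN (p, e)) (GLk G') g Y →
      Thin (PN N β) (GLk G') g Y := fun p Y h1 h2 =>
    local_stmt _ _ _ _ g _ Y (s12 p) (s9 p) (fun a b e k1 k2 ⟨ν, hν, t⟩ => by
      rw [← s5] at hν
      obtain ⟨q, hν⟩ := mem_iUnion.1 hν
      exact s10 p q a b e k1 k2 ⟨ν, hν, t⟩) h1 h2 fun ℓ hℓ => hℓ.inter Y
  refine ⟨fun ν hν => ?_, fun n => ?_⟩
  · rw [← s5] at hν
    obtain ⟨p, hp⟩ := mem_iUnion.1 hν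
    obtain ⟨e, he⟩ := mem_iUnion.1 hp
    exact s13 p ν (s8 p ν hp) (s4 p e ν (s1 _ ν he)
      ((star_stmt _ _ _ _ _ _ _ _ _ _ _ _ (h.star hT ht ha hG (p, e))).1 ν he))
  · obtain ⟨p, ⟨e, f⟩, rfl⟩ := hcov n
    refine s13 p _ ?_ (s11 p e f)
    rintro _ ⟨z, rfl⟩
    exact (s6 p _ z).2 ⟨_, rfl⟩

end Pool.Agent.MP_1c0fc2_co.RE
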