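import Pool.Agent.MP_1c0fc2_co.RE.Frame

open Function Set Relation

namespace Pool.Agent.MP_1c0fc2_co.RE

variable {V X Φ : Type} {G : SimpleGraph V} {b : X → V} {π : X → Set V} {Pn : Set X}
  {Z : Φ → Set V} {x y : Φ → X} {loc : Φ → Set (Set V)} {g : ℕ}

/-- `a` and `a'` are the two ends of `f` -/
def Ends (x y : Φ → X) (f : Φ) (a a' : X) : Prop := (a = x f ∧ a' = y f) ∨ (a = y f ∧ a' = x f)

theorem Star.ends (h : Star G b π Pn Z x y loc g) {f : Φ} {a : X} {w : V} (h1 : w ∈ π a)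
    (h2 : w ∈ Z f) : ∃ a', Ends x y f a a' := by
  by_cases e : a = x f
  · exact ⟨_, .inl ⟨e, rfl⟩⟩
  by_cases e' : a = y f
  · exact ⟨_, .inr ⟨e', rfl⟩⟩
  exact absurd h2 (disjoint_left.1 (h.oZ f a e e') h1)

theorem Ends.eq {f : Φ} {a a' d d' : X} (h : Ends x y f a a') (h' : Ends x y f d d') :
    d = a ∨ d = a' := by
  rcases h with ⟨rfl, rfl⟩ | ⟨rfl, rfl⟩ <;> rcases h' with ⟨rfl, -⟩ | ⟨rfl, -⟩ <;> simp

theorem Star.eq (h : Star G b π Pn Z x y loc g) {a a' : X} {w : V} (h1 : w ∈ π a) (h2 : w ∈ π a') :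
    a = a' := by
  by_contra e
  exact disjoint_left.1 (h.dis a a' e) h1 h2

theorem Star.far (h : Star G b π Pn Z x y loc g) {f : Φ} {a a' : X} (e : Ends x y f a a')
    {C : Set V} (hg : C.ncard ≤ g + 1) (hC : ConnOn (Tog (loc f)) C) (h1 : (C ∩ π a).Nonempty)
    (h2 : (C ∩ π a').Nonempty) : b a ∈ C ∧ b a' ∈ C := by
  rcases e with ⟨rfl, rfl⟩ | ⟨rfl, rfl⟩
  exacts [⟨h.farx f C hg hC h1 h2, h.fary f C hg hC h2 h1⟩,
    ⟨h.fary f C hg hC h1 h2, h.farx f C hg hC h2 h1⟩]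

/-- inner vertices of a lower system lie only in its bags -/
theorem Star.inner (h : Star G b π Pn Z x y loc g) {f : Φ} {z z' : V} (hz : z ∈ Z f)
    (hπ : ∀ a, z ∉ π a) (t : Tog (StarN b π Pn loc) z z') : Tog (loc f) z z' := by
  obtain ⟨ν, rfl | ⟨a, -, rfl⟩ | ⟨f', hf'⟩, h1, h2⟩ := t
  · obtain ⟨a, rfl⟩ := h1
    exact absurd (h.bπ a) (hπ a)
  · exact absurd h1 (hπ a)
  · by_cases e : f = f'
    · exact ⟨ν, e ▸ hf', h1, h2⟩
    · obtain ⟨a, ha⟩ := h.ZZ f f' e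
      exact absurd (ha ⟨hz, h.sub f' ν hf' h1⟩) (hπ a)

theorem Star.key [Finite V] (h : Star G b π Pn Z x y loc g) {f : Φ} {a a' : X}
    (e : Ends x y f a a') {C : Set V} (hg : C.ncard ≤ g) (hC : ConnOn (Tog (StarN b π Pn loc)) C)
    (hd : Disjoint C (π a)) {w c : V} (hw : w ∈ π a) (hc : c ∈ C) (t : Tog (loc f) w c) :
    (C ⊆ Z f ∧ ∀ z ∈ C, ∀ d, z ∉ π d) ∨ (w = b a ∧ b a' ∈ C) := by
  have hZ : ∀ u v, Tog (loc f) u v → v ∈ Z f := fun u v ⟨ν, h1, _, h2⟩ => h.sub f ν h1 h2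
  have fin : ∀ D, D ⊆ C → c ∈ D → ConnOn (Tog (loc f)) D → (D ∩ π a').Nonempty →
      w = b a ∧ b a' ∈ C := by
    rintro D h1 h2 h3 ⟨z, hz⟩
    obtain ⟨k1, k2⟩ := h.far e (C := insert w D)
      ((ncard_insert_le w D).trans (Nat.succ_le_succ ((ncard_le_ncard h1).trans hg)))
      (h3.insert (tog_symm _) h2 t) ⟨w, .inl rfl, hw⟩ ⟨z, .inr hz.1, hz.2⟩
    have hne : a ≠ a' := by
      rcases e with ⟨rfl, rfl⟩ | ⟨rfl, rfl⟩
      exacts [h.ne f, (h.ne f).symm]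
    refine ⟨(k1.resolve_right fun k => disjoint_left.1 hd (h1 k) (h.bπ a)).symm, ?_⟩
    exact h1 (k2.resolve_left fun k => hne (h.eq hw (k ▸ h.bπ a')))
  by_cases hca : c ∈ π a'
  · exact .inr (fin {c} (singleton_subset_iff.2 hc) rfl (connOn_singleton c) ⟨c, rfl, hca⟩)
  let D := comp (Tog (loc f)) ((C ∩ Z f) \ π a') c
  have hcD : c ∈ D := mem_comp ⟨⟨hc, hZ _ _ t⟩, hca⟩
  have hD : ∀ z ∈ D, ∀ d, z ∉ π d := fun z hz d hd' => by
    have h1 := comp_sub hz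
    obtain ⟨d', e'⟩ := h.ends hd' h1.1.2
    rcases e.eq e' with rfl | rfl
    exacts [disjoint_left.1 hd h1.1.1 hd', h1.2 hd']
  by_cases hall : C ⊆ D
  · exact .inl ⟨fun z hz => (comp_sub (hall hz)).1.2, fun z hz => hD z (hall hz)⟩
  obtain ⟨c', hc', hc''⟩ := not_subset.1 hall
  obtain ⟨z, -, z', hz', h1, h2, h3⟩ := hC.cross hc hc' hcD hc''
  have h4 := h.inner (comp_sub h1).1.2 (hD z h1) h3
  refine .inr (fin (insert z' D) (insert_subset hz' fun u hu => (comp_sub hu).1.1) (.inr hcD)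
    ((comp_conn (tog_symm _)).insert (tog_symm _) h1 h4.symm) ⟨z', .inl rfl, ?_⟩)
  by_contra h5
  exact h2 (comp_closed h1 ⟨⟨hz', hZ _ _ h4⟩, h5⟩ h4)

theorem Star.thinπ (h : Star G b π Pn Z x y loc g) {f : Φ} {a a' : X} (e : Ends x y f a a') :
    Thin (loc f) (GLk G) g (π a) := by
  by_cases ha : a ∈ Pn
  · exact h.thin f _ (h.pn f a ha (e.imp And.left And.left))
  · rw [h.sing a ha]
    exact thin_of_subsingleton (fun v => .inl ⟨v, rfl⟩) fun C _ _ _ =>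
      subsingleton_singleton.anti fun w hw => hw.1

theorem xstar_sub (f : Φ) : loc f ⊆ StarN b π Pn loc := fun _ h => .inr (.inr ⟨f, h⟩)

theorem Star.gen [Finite V] (h : Star G b π Pn Z x y loc g) {Y : Set V} {a a' : X}
    (hadj : a = a' ∨ G.Adj (b a) (b a')) (ha : π a ⊆ Y) (ha' : π a' ⊆ Y)
    (ho : ∀ d, d ≠ a → d ≠ a' → Disjoint (π d) Y)
    (hZ : ∀ f, Z f ⊆ Y ∨ ∀ w ∈ Y ∩ Z f, ∃ d d', Ends x y f d d' ∧ Y ∩ Z f ⊆ π d ∧
      Disjoint (π d') Y) : Thin (StarN b π Pn loc) (GLk G) g Y := by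
  intro C hg hd hC
  have hπ : ∀ d w, w ∈ π d → w ∈ Y → π d ⊆ Y := fun d w h1 h2 => by
    by_cases e : d = a
    · exact e ▸ ha
    by_cases e' : d = a'
    · exact e' ▸ ha'
    exact absurd h2 (disjoint_left.1 (ho d e e') h1)
  have hat : ∀ w ∈ Y, ∀ c ∈ C, Tog (StarN b π Pn loc) w c → (w ∈ range b ∧ c ∈ range b) ∨
      ∃ f d d', Ends x y f d d' ∧ Tog (loc f) w c ∧ Y ∩ Z f ⊆ π d ∧ w ∈ π d ∧
        ((C ⊆ Z f ∧ ∀ z ∈ C, ∀ d, z ∉ π d) ∨ (w = b d ∧ b d' ∈ C)) := by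
    rintro w hw c hc ⟨ν, rfl | ⟨d, -, rfl⟩ | ⟨f, hf⟩, h1, h2⟩
    · exact .inl ⟨h1, h2⟩
    · exact absurd (hπ d w h1 hw h2) (disjoint_left.1 hd hc)
    · rcases hZ f with k | k
      · exact absurd (k (h.sub f ν hf h2)) (disjoint_left.1 hd hc)
      · obtain ⟨d, d', e, k1, -⟩ := k w ⟨hw, h.sub f ν hf h1⟩
        have k2 := k1 ⟨hw, h.sub f ν hf h1⟩
        exact .inr ⟨f, d, d', e, ⟨ν, hf, h1, h2⟩, k1, k2,
          h.key e hg hC (hd.mono_right (hπ d w k2 hw)) k2 hc ⟨ν, hf, h1, h2⟩⟩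
  by_cases h0 : At (StarN b π Pn loc) Y C = ∅
  · exact .inl h0
  obtain ⟨w, hw, c, hc, t⟩ := nonempty_iff_ne_empty.2 h0
  by_cases hb : (range b ∩ C).Nonempty
  · refine .inr ⟨{b a, b a'}, ?_, ?_, pair_subset (ha (h.bπ a)) (ha' (h.bπ a')), range b,
      .inl rfl, pair_subset (mem_range_self a) (mem_range_self a'), hb⟩
    · rcases hadj with rfl | e
      exacts [.inl ⟨b a, pair_eq_singleton _⟩, .inr ⟨_, _, e, rfl⟩]
    · rintro w ⟨hw, c, hc, t⟩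
      have hr : w ∈ range b := by
        rcases hat w hw c hc t with k | ⟨f, d, d', -, -, -, -, k | k⟩
        · exact k.1
        · obtain ⟨_, ⟨u, rfl⟩, hu⟩ := hb
          exact absurd (h.bπ u) (k.2 _ hu u)
        · exact ⟨d, k.1.symm⟩
      obtain ⟨d, rfl⟩ := hr
      by_contra k
      exact disjoint_left.1 (ho d (fun e => k (.inl (e ▸ rfl))) fun e => k (.inr (e ▸ rfl)))
        (h.bπ d) hw
  · rcases hat w hw c hc t with k | ⟨f, d, d', e, t', k1, k2, k | k⟩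
    · exact absurd ⟨c, k.2, hc⟩ hb
    · obtain ⟨ℓ, l1, l2, l3, ν, hν, l4⟩ := (h.thinπ e).link hg (hd.mono_right (hπ d w k2 hw))
        (hC.mono fun u hu v _ t => h.inner (k.1 hu) (k.2 u hu) t) k2 hc t'
      refine .inr ⟨ℓ, l1, ?_, l3.trans (hπ d w k2 hw), ν, xstar_sub f hν, l4⟩
      rintro u ⟨hu, v, hv, t⟩
      obtain ⟨μ, m1, m2, m3⟩ := h.inner (k.1 hv) (k.2 v hv) t.symm
      exact l2 ⟨k1 ⟨hu, h.sub f μ m1 m3⟩, v, hv, μ, m1, m3, m2⟩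
    · exact absurd ⟨_, mem_range_self d', k.2⟩ hb

theorem Star.thinZ [Finite V] (h : Star G b π Pn Z x y loc g) (f : Φ) :
    Thin (StarN b π Pn loc) (GLk G) g (Z f) := by
  refine h.gen (.inr (h.adj f)) (h.xZ f) (h.yZ f) (h.oZ f) fun f' => ?_
  by_cases e : f = f'
  · exact .inl (e ▸ subset_rfl)
  refine .inr fun w hw => ?_
  obtain ⟨d, hd⟩ := h.ZZ f f' e
  obtain ⟨d', e'⟩ := h.ends (hd hw) hw.2
  refine ⟨d, d', e', hd, disjoint_left.2 fun u hu hu' => ?_⟩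
  have k : π d' ⊆ Z f' ∧ d' ≠ d := by
    rcases e' with ⟨rfl, rfl⟩ | ⟨rfl, rfl⟩
    exacts [⟨h.yZ f', (h.ne f').symm⟩, ⟨h.xZ f', h.ne f'⟩]
  exact k.2 (h.eq hu (hd ⟨hu', k.1 hu⟩))

theorem Star.thinU [Finite V] (h : Star G b π Pn Z x y loc g) {a a' : X}
    (hadj : a = a' ∨ G.Adj (b a) (b a'))
    (hf : ∀ f, ¬ (x f = a ∧ y f = a') ∧ ¬ (x f = a' ∧ y f = a)) :
    Thin (StarN b π Pn loc) (GLk G) g (π a ∪ π a') := by
  have ho : ∀ d, d ≠ a → d ≠ a' → Disjoint (π d) (π a ∪ π a') := fun d h1 h2 =>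
    disjoint_union_right.2 ⟨h.dis d a h1, h.dis d a' h2⟩
  refine h.gen hadj subset_union_left subset_union_right ho fun f => .inr fun w hw => ?_
  have k : ∀ d d', Ends x y f d d' → (d = a ∨ d = a') → d' ≠ a ∧ d' ≠ a' := by
    have h1 := hf f
    have h2 := h.ne f
    rintro d d' (⟨rfl, rfl⟩ | ⟨rfl, rfl⟩) (e | e) <;> constructor <;> intro e' <;> simp_all
  obtain ⟨d, hd, hw'⟩ : ∃ d, (d = a ∨ d = a') ∧ w ∈ π d := by
    rcases hw.1 with k | k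
    exacts [⟨a, .inl rfl, k⟩, ⟨a', .inr rfl, k⟩]
  obtain ⟨d', e⟩ := h.ends hw' hw.2
  refine ⟨d, d', e, fun u hu => ?_, ho d' (k d d' e hd).1 (k d d' e hd).2⟩
  obtain ⟨c, hc, hu'⟩ : ∃ c, (c = a ∨ c = a') ∧ u ∈ π c := by
    rcases hu.1 with k | k
    exacts [⟨a, .inl rfl, k⟩, ⟨a', .inr rfl, k⟩]
  obtain ⟨c', e'⟩ := h.ends hu' hu.2
  rcases e.eq e' with rfl | rfl
  · exact hu'
  · exact (hc.elim (k d c e hd).1 (k d c e hd).2).elim

theorem Star.thinB [Finite V] (h : Star G b π Pn Z x y loc g) :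
    Thin (StarN b π Pn loc) (GLk G) g (range b) := by
  intro C hg hd hC
  have one : ∀ a, (At (StarN b π Pn loc) (range b) C ⊆ {b a}) →
      At (StarN b π Pn loc) (range b) C = ∅ ∨ ∃ ℓ, GLk G ℓ ∧
      At (StarN b π Pn loc) (range b) C ⊆ ℓ ∧ ℓ ⊆ range b ∧
        ∃ ν ∈ StarN b π Pn loc, ℓ ⊆ ν ∧ (ν ∩ C).Nonempty := fun a ha => by
    by_cases h0 : At (StarN b π Pn loc) (range b) C = ∅
    · exact .inl h0
    obtain ⟨w, hw⟩ := nonempty_iff_ne_empty.2 h0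
    obtain rfl : w = b a := ha hw
    obtain ⟨-, c, hc, ν, hν, h1, h2⟩ := hw
    exact .inr ⟨_, .inl ⟨_, rfl⟩, ha, singleton_subset_iff.2 (mem_range_self a), ν, hν,
      singleton_subset_iff.2 h1, c, h2, hc⟩
  by_cases h1 : ∃ a, (C ∩ π a).Nonempty
  · obtain ⟨a, w0, hw0⟩ := h1
    refine one a ?_
    rintro _ ⟨⟨d, rfl⟩, c, hc, t⟩
    by_contra hne
    have hda : b d ∉ π a := fun k => hne (h.eq (h.bπ d) k ▸ rfl)
    let D := comp (Tog (StarN b π Pn loc)) (insert (b d) C \ π a) (b d)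
    obtain ⟨u, hu, w, hw, t'⟩ := (hC.insert (tog_symm _) hc t).comp_nb (Y := π a)
      ⟨.inl rfl, hda⟩ ⟨.inr hw0.1, hw0.2⟩
    have hwC : w ∈ C := hw.1.resolve_left fun e => hda (e ▸ hw.2)
    have hDg : D.ncard ≤ g := by
      have k1 : D ⊆ insert (b d) (C \ {w0}) := fun z hz => by
        rcases (comp_sub hz).1 with e | e
        · exact .inl e
        · exact .inr ⟨e, fun e' => (comp_sub hz).2 (mem_singleton_iff.1 e' ▸ hw0.2)⟩
      have k2 := ncard_sdiff_singleton_add_one hw0.1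
      have := (ncard_le_ncard k1).trans (ncard_insert_le _ _)
      omega
    obtain ⟨ν, rfl | ⟨a', -, rfl⟩ | ⟨f, hf⟩, n1, n2⟩ := t'
    · exact disjoint_left.1 hd hwC n2
    · exact (comp_sub hu).2 (h.eq n2 hw.2 ▸ n1)
    · obtain ⟨a', e⟩ := h.ends hw.2 (h.sub f ν hf n2)
      rcases h.key e hDg (comp_conn (tog_symm _)) (disjoint_left.2 fun z hz => (comp_sub hz).2)
        hw.2 hu ⟨ν, hf, n2, n1⟩ with k | k
      · exact k.2 _ (mem_comp ⟨.inl rfl, hda⟩) d (h.bπ d)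
      · exact disjoint_left.1 hd hwC ⟨a, k.1.symm⟩
  have h2 : ∀ z ∈ C, ∀ a, z ∉ π a := fun z hz a k => h1 ⟨a, z, hz, k⟩
  by_cases h0 : At (StarN b π Pn loc) (range b) C = ∅
  · exact .inl h0
  obtain ⟨_, ⟨a, rfl⟩, c, hc, ν, rfl | ⟨a', -, rfl⟩ | ⟨f, hf⟩, n1, n2⟩ :=
    nonempty_iff_ne_empty.2 h0
  · exact absurd n2 (disjoint_left.1 hd hc)
  · exact absurd n2 (h2 c hc a')
  have hCZ : C ⊆ Z f := hC.sub hc (h.sub f ν hf n2) fun u hu v _ k t => by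
    obtain ⟨μ, m1, -, m2⟩ := h.inner k (h2 u hu) t
    exact h.sub f μ m1 m2
  have hat : ∀ w ∈ At (StarN b π Pn loc) (range b) C,
      (w = b (x f) ∨ w = b (y f)) ∧ ∃ c ∈ C, Tog (loc f) w c := by
    rintro _ ⟨⟨d, rfl⟩, v, hv, t⟩
    obtain ⟨μ, m1, m2, m3⟩ := h.inner (hCZ hv) (h2 v hv) t.symm
    obtain ⟨d', e⟩ := h.ends (h.bπ d) (h.sub f μ m1 m3)
    exact ⟨Or.imp (fun e => congrArg b e.1) (fun e => congrArg b e.1) e, v, hv, μ, m1, m3, m2⟩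
  by_cases hx : b (x f) ∈ At (StarN b π Pn loc) (range b) C
  swap
  · exact one (y f) fun w hw => (hat w hw).1.resolve_left fun e => hx (e ▸ hw)
  by_cases hy : b (y f) ∈ At (StarN b π Pn loc) (range b) C
  swap
  · exact one (x f) fun w hw => (hat w hw).1.resolve_right fun e => hy (e ▸ hw)
  obtain ⟨μ, m1, m2, m3, m4⟩ := pair_stmt V (loc f) G g (h.thin f) _ _ C (h.adj f).ne (h.tog f) hg
    (hC.mono fun u hu v _ t => h.inner (hCZ hu) (h2 u hu) t)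
    (disjoint_right.1 hd (mem_range_self _)) (disjoint_right.1 hd (mem_range_self _))
    (hat _ hx).2 (hat _ hy).2
  exact .inr ⟨_, .inr ⟨_, _, h.adj f, rfl⟩, fun w hw => (hat w hw).1,
    pair_subset (mem_range_self _) (mem_range_self _), μ, xstar_sub f m1, pair_subset m2 m3, m4⟩

theorem Star.cons (h : Star G b π Pn Z x y loc g) (f : Φ) (u v : V) (huv : u ≠ v) (hu : u ∈ Z f)
    (hv : v ∈ Z f) (t : Tog (StarN b π Pn loc) u v) : Tog (loc f) u v := by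
  have hπ : ∀ a, u ∈ π a → v ∈ π a → Tog (loc f) u v := fun a h1 h2 => by
    obtain ⟨a', e⟩ := h.ends h1 hu
    by_cases ha : a ∈ Pn
    · exact ⟨_, h.pn f a ha (e.imp And.left And.left), h1, h2⟩
    · rw [h.sing a ha] at h1 h2
      exact absurd (h1.trans h2.symm) huv
  obtain ⟨ν, rfl | ⟨a, -, rfl⟩ | ⟨f', hf'⟩, h1, h2⟩ := t
  · obtain ⟨a, rfl⟩ := h1
    obtain ⟨d, rfl⟩ := h2
    obtain ⟨a', e⟩ := h.ends (h.bπ a) hu
    obtain ⟨d', e'⟩ := h.ends (h.bπ d) hv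
    rcases e with ⟨rfl, -⟩ | ⟨rfl, -⟩ <;> rcases e' with ⟨rfl, -⟩ | ⟨rfl, -⟩
    exacts [absurd rfl huv, h.tog f, (h.tog f).symm, absurd rfl huv]
  · exact hπ a h1 h2
  · by_cases e : f = f'
    · exact ⟨ν, e ▸ hf', h1, h2⟩
    · obtain ⟨a, ha⟩ := h.ZZ f f' e
      exact hπ a (ha ⟨hu, h.sub f' ν hf' h1⟩) (ha ⟨hv, h.sub f' ν hf' h2⟩)

theorem star_stmt : StarStmt := by
  intro V X Φ _ G b π Pn Z x y loc g h
  have h1 : ∀ a, Thin (StarN b π Pn loc) (GLk G) g (π a) := fun a => by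
    have := h.thinU (a := a) (a' := a) (.inl rfl) fun f =>
      ⟨fun e => h.ne f (e.1.trans e.2.symm), fun e => h.ne f (e.1.trans e.2.symm)⟩
    rwa [union_self] at this
  refine ⟨?_, h.thinZ, h1, fun a a' e hf => h.thinU (.inr e) hf⟩
  rintro ν (rfl | ⟨a, -, rfl⟩ | ⟨f, hf⟩)
  · exact h.thinB
  · exact h1 a
  · exact local_stmt V _ (loc f) _ g (Z f) ν (h.thinZ f) (xstar_sub f) (h.cons f) (h.sub f ν hf)
      (h.thin f ν hf) fun ℓ hℓ => hℓ.inter ν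

end Pool.Agent.MP_1c0fc2_co.RE
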