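import Pool.Agent.MP_1c0fc2_co.RE.Defs

/-! The statements of the steps of the proof. -/

open Function Set Relation

namespace Pool.Agent.MP_1c0fc2_co.RE

section More
variable {U V W X : Type}

def Arr (G : SimpleGraph V) (A : SimpleGraph U) : Prop := ∀ R, R ≤ G → In A R ∨ In A (G \ R)

/-- every finite Ramsey graph of `A` is a Ramsey graph of `B` -/
def Imp (A : SimpleGraph U) (B : SimpleGraph V) : Prop :=
  ∀ (Z : Type) [Finite Z] (G : SimpleGraph Z), Arr G A → Arr G B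

/-- one top bag `range b` with lower systems `Z f` glued along some of its edges -/
structure Star {Φ : Type} (G : SimpleGraph V) (b : X → V) (π : X → Set V) (Pn : Set X)
    (Z : Φ → Set V) (x y : Φ → X) (loc : Φ → Set (Set V)) (g : ℕ) : Prop where
  bπ : ∀ a, b a ∈ π a
  dis : ∀ a a', a ≠ a' → Disjoint (π a) (π a')
  sing : ∀ a ∉ Pn, π a = {b a}
  ne : ∀ f, x f ≠ y f
  xZ : ∀ f, π (x f) ⊆ Z f
  yZ : ∀ f, π (y f) ⊆ Z f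
  oZ : ∀ f a, a ≠ x f → a ≠ y f → Disjoint (π a) (Z f)
  ZZ : ∀ f f', f ≠ f' → ∃ a, Z f ∩ Z f' ⊆ π a
  sub : ∀ f, ∀ ν ∈ loc f, ν ⊆ Z f
  pn : ∀ f, ∀ a ∈ Pn, (a = x f ∨ a = y f) → π a ∈ loc f
  thin : ∀ f, ∀ ν ∈ loc f, Thin (loc f) (GLk G) g ν
  tog : ∀ f, Tog (loc f) (b (x f)) (b (y f))
  adj : ∀ f, G.Adj (b (x f)) (b (y f))
  farx : ∀ f, Far (loc f) (g + 1) (π (x f)) (π (y f)) (b (x f))
  fary : ∀ f, Far (loc f) (g + 1) (π (y f)) (π (x f)) (b (y f))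

def StarN {Φ : Type} (b : X → V) (π : X → Set V) (Pn : Set X) (loc : Φ → Set (Set V)) :
    Set (Set V) :=
  {ν | ν = range b ∨ (∃ a ∈ Pn, ν = π a) ∨ ∃ f, ν ∈ loc f}

/-- admissible sets of external ports -/
def ExP (Γ RΓ : SimpleGraph X) (Hub : Set X) (c : Bool) (Y Pt : Set X) : Prop :=
  Pt ⊆ Y ∧ (Pt.Subsingleton ∨
    ∃ a b, a ∉ Hub ∧ b ∉ Hub ∧ (cc Γ RΓ (!c)).Adj a b ∧ Pt ⊆ {a, b})

/-- peelability inside small sets that avoid `Av` -/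
def LocRP (Γ RΓ : SimpleGraph X) (Hub : Set X) (c : Bool) {L : Type} (K : L → Set X) (vr : Prop)
    (Av : Set X) (g : ℕ) : Prop :=
  ∀ Y : Set X, Y.ncard ≤ g → Disjoint Y Av →
    RP (cc Γ RΓ c) (fun l => K l ∩ Y) {r | vr ∧ r ∈ Y} ∧
    RPX (cc Γ RΓ c) (fun l => K l ∩ Y) (ExP Γ RΓ Hub c Y)

/-- the cone shape of the blue objects -/
def Shape : Mode → SimpleGraph V → Set V → Prop
  | .S1, J, S => 4 ≤ S.ncard ∧ ∃ w ∈ S, (∀ x ∈ S, x ≠ w → J.Adj w x) ∧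
      ∀ x, ConnOn J.Adj (S \ {w, x})
  | .S2, J, S => 3 ≤ S.ncard ∧ ∃ w ∈ S, (∀ x ∈ S, x ≠ w → J.Adj w x) ∧ ConnOn J.Adj (S \ {w})
  | _, _, _ => True

/-- blue classes of the middle graph -/
structure BlueG (P : Par) (H : SimpleGraph W) (m : Mode) (Γ RΓ : SimpleGraph X) (Hub : Set X)
    {L : Type} (K : L → Set X) (s g : ℕ) : Prop where
  cov : ∀ S, BO P H m (Γ \ RΓ) S → Shape m (Γ \ RΓ) S → ∃ l, S ⊆ K l
  wt : ∀ l, (BW (BO P H m (Γ \ RΓ)) (K l)).ncard ≤ s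
  dis : ∀ l l', l ≠ l' → Disjoint (K l) (K l')
  rule : ∀ l, Rule m (Γ \ RΓ) (K l)
  rp : LocRP Γ RΓ Hub false K False ∅ g

/-- small 2-connected sets with a red edge away from the hubs embed in `H` -/
def RTr (H : SimpleGraph W) (Γ RΓ : SimpleGraph X) (Hub : Set X) (g : ℕ) : Prop :=
  ∀ S : Set X, S.ncard ≤ g → Disjoint S Hub → TwoConn Γ S → (∃ a ∈ S, ∃ b ∈ S, RΓ.Adj a b) →
    ∃ h : X → W, IHo Γ H h S

/-- red classes of the middle graph -/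
structure RedG (P : Par) (H : SimpleGraph W) (m : Mode) (Γ RΓ : SimpleGraph X) (Hub : Set X)
    {L : Type} (K : L → Set X) (s g : ℕ) : Prop where
  cov : ∀ S, Disjoint S Hub → RO P H m RΓ S → ∃ l, S ⊆ K l
  wt : ∀ l, (RW RΓ (RO P H m RΓ) (K l)).ncard ≤ s
  red : ∀ l, ∀ a ∈ K l, ∀ b ∈ K l, Γ.Adj a b → RΓ.Adj a b
  rp : LocRP Γ RΓ Hub true K True Hub g

/-- the shared points in the cone cases -/
def IsPt {L : Type} (M : SimpleGraph U) (K : L → Set U) (pt : U → Option (L ⊕ U)) : Prop :=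
  (∀ a ∈ M.support, pt a = none) ∧ (∀ l a, pt a = some (.inl l) ↔ a ∈ K l) ∧
    ∀ a ∉ M.support, (∀ l, a ∉ K l) → pt a = some (.inr a)

/-- blue data on `A` after the choice of the slot edges -/
structure MData (P : Par) (H : SimpleGraph W) (m : Mode) (A M : SimpleGraph U) {L : Type}
    (K : L → Set U) (s : ℕ) : Prop where
  imat : IMat A M
  fam : IsBF m (A \ M) (BO P H m (A \ M)) K
  wt : ∀ l, (BW (BO P H m (A \ M)) (K l)).ncard ≤ s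
  off : ∀ l, Disjoint (K l) M.support
  br : m.IsN → Bridge P H A M

/-- red data on `A` after the choice of the centres -/
structure VData (P : Par) (H : SimpleGraph W) (m : Mode) (A : SimpleGraph U) (I : Set U)
    {L : Type} (K : L → Set U) (s : ℕ) : Prop where
  ind : Indp A I
  nc : NoCom A I
  fam : IsRF A (RO P H m A) K
  wt : ∀ l, (RW A (RO P H m A) (K l) \ I).ncard ≤ s

end More

/-! ### B. structure theory -/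

def ParStmt : Prop := ∀ (W : Type) [Finite W] (H : SimpleGraph W), ¬ H.IsAcyclic →
  ∃ P : Par, P.Ok H

def EqStmt : Prop := ∀ (W V V' : Type) [Finite W] [Finite V] [Finite V'] (H : SimpleGraph W)
  (P : Par), P.Ok H → ∀ (J : SimpleGraph V) (J' : SimpleGraph V') (f : V → V') (h : V' → W)
  (S : Set V), IHo J J' f S → IHo J' H h (f '' S) → (TS P H J S ∨ AS P H J S) →
  ∀ x ∈ S, ∀ y ∈ S, J'.Adj (f x) (f y) → J.Adj x y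

def ROMonoStmt : Prop := ∀ (W V V' : Type) [Finite W] [Finite V] [Finite V'] (H : SimpleGraph W)
  (P : Par), P.Ok H → ∀ (m : Mode) (J : SimpleGraph V) (J' : SimpleGraph V') (f : V → V')
  (h : V' → W) (S : Set V), IHo J J' f S → IHo J' H h (f '' S) → RO P H m J S →
  RO P H m J' (f '' S)

def K3Stmt : Prop := ∀ (W V : Type) [Finite W] [Finite V] (H : SimpleGraph W) (P : Par), P.Ok H →
  (3 ≤ P.vT ∧ P.vT ≤ P.vA ∧ P.vA ≤ Nat.card W ∧ P.θ ≤ Nat.card W) ∧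
  ∀ (J : SimpleGraph V) (S : Set V), (Tri J S → ES H J S) ∧ (P.vT = 3 → (TS P H J S ↔ Tri J S)) ∧
    (P.vA = 3 → (AS P H J S ↔ Tri J S))

def NsepStmt : Prop := ∀ (W V : Type) [Finite W] [Finite V] (H : SimpleGraph W)
  (J : SimpleGraph V), In J H → ∀ S a b τ, RS H J S a b → Cq J τ →
  ConnOn J.Adj (S \ τ) ∧ (S \ τ).Nonempty

def AtomAStmt : Prop := ∀ (W V : Type) [Finite W] [Finite V] (H : SimpleGraph W) (P : Par),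
  P.Ok H → ∀ J : SimpleGraph V, In J H → Atoms J (Cq J) (AS P H J)

def AtomBStmt : Prop := ∀ (W V : Type) [Finite W] [Finite V] (H : SimpleGraph W) (P : Par)
  (J : SimpleGraph V), Atoms (TG P H J univ) Set.Subsingleton (MaxB P H J) ∧
  (∀ O S, MaxB P H J O → TS P H J S → ¬ (S ∩ O).Subsingleton → S ⊆ O) ∧
  (∀ O, MaxB P H J O → TwoConn (TG P H J O) O) ∧
  (P.Ok H → In J H → ∀ O, TH P H J O → MaxB P H J O)

/-- the conclusion about isolating edges -/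
def IEC {V : Type} (J : SimpleGraph V) (𝒯 : Set (Set V)) : Prop :=
  (∀ p q, ∃ y y', y ≠ p ∧ y ≠ q ∧ Iso J 𝒯 y y') ∧ ∀ r, ∃ y y', y ≠ r ∧ y' ≠ r ∧ Iso J 𝒯 y y'

def IE4Stmt : Prop := ∀ (W V : Type) [Finite W] [Finite V] (H : SimpleGraph W) (P : Par),
  P.Ok H → 4 ≤ P.vT → ∀ J : SimpleGraph V, In J H → ∀ 𝒯 : Set (Set V), 𝒯.Nonempty →
  (∀ S ∈ 𝒯, TS P H J S) → IEC J 𝒯

def EdgeStmt : Prop := ∀ (W : Type) [Finite W] (H : SimpleGraph W) (P : Par),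
  P.Ok H → P.vT = 3 → ∀ S : Set W, 2 ≤ S.ncard → ec H S + 6 ≤ 4 * S.ncard

def IE3Stmt : Prop := ∀ (W V : Type) [Finite W] [Finite V] (H : SimpleGraph W) (P : Par),
  P.Ok H → P.vT = 3 → ∀ J : SimpleGraph V, In J H → ∀ 𝒯 : Set (Set V), 𝒯.Nonempty →
  (∀ S ∈ 𝒯, TS P H J S) → IEC J 𝒯

def IEStmt : Prop := ∀ (W V : Type) [Finite W] [Finite V] (H : SimpleGraph W) (P : Par),
  P.Ok H → ∀ J : SimpleGraph V, In J H → ∀ 𝒯 : Set (Set V), 𝒯.Nonempty →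
  (∀ S ∈ 𝒯, TS P H J S) → IEC J 𝒯

def Col2Stmt : Prop := ∀ (W V : Type) [Finite W] [Finite V] (H : SimpleGraph W) (P : Par),
  P.Ok H → ∀ J : SimpleGraph V, In J H → ∀ 𝒯 : Set (Set V), (∀ S ∈ 𝒯, TS P H J S) →
  ∀ (χ0 : V → Bool) (p q : V), ∃ χ : V → Bool, χ p = χ0 p ∧ χ q = χ0 q ∧
    ∀ S ∈ 𝒯, ∃ a ∈ S, ∃ b ∈ S, χ a ≠ χ b

def L6Stmt : Prop := ∀ (W V : Type) [Finite W] [Finite V] (H : SimpleGraph W) (P : Par),
  P.Ok H → 4 ≤ P.vA → ∀ J : SimpleGraph V, In J H → ∃ Y : Set V,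
  (∀ S, TS P H J S → ¬ S ⊆ Y ∧ ¬ S ⊆ Yᶜ) ∧
  ∀ S, AS P H J S → ∃ a ∈ S, ∃ b ∈ S, a ∉ Y ∧ b ∉ Y ∧ J.Adj a b

def BrStmt : Prop := ∀ (V : Type) [Finite V] (Y : SimpleGraph V) (Al Ob : Set V → Prop),
  Atoms Y Al Ob → ∀ 𝒪 : Set (Set V), 𝒪.Nonempty → (∀ O ∈ 𝒪, Ob O) → ∀ c, ∃ O ∈ 𝒪, ∃ τ Br,
  Al τ ∧ Cut Y O τ Br ∧ c ∉ Br ∧ ∀ O' ∈ 𝒪, O' ≠ O → Disjoint O' Br

def EOStmt : Prop := ∀ (V : Type) [Finite V] (Y : SimpleGraph V) (Al Ob : Set V → Prop),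
  Atoms Y Al Ob → ∃ (ρ : Set V → ℕ) (τ Br : Set V → Set V),
  (∀ O O', Ob O → Ob O' → ρ O = ρ O' → O = O') ∧ (∀ O, Ob O → Al (τ O) ∧ Cut Y O (τ O) (Br O)) ∧
  ∀ O O', Ob O → Ob O' → ρ O < ρ O' → Disjoint O' (Br O)

def MAStmt : Prop := ∀ (V : Type) [Finite V] (Y : SimpleGraph V) (Ob : Set V → Prop),
  Atoms Y (Cq Y) Ob → (∀ O, Ob O → 4 ≤ O.ncard) →
  ∃ M, M ≤ Y ∧ Mat M ∧ ∀ O, Ob O → ∃ a ∈ O, ∃ b ∈ O, M.Adj a b

def IAStmt : Prop := ∀ (V : Type) [Finite V] (Y : SimpleGraph V) (Ob : Set V → Prop),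
  Atoms Y (Cq Y) Ob → ∃ I, Indp Y I ∧ ∀ O, Ob O → ∃ v, O ∩ I = {v}

def FPStmt : Prop := ∀ (V : Type) [Finite V] (Y : SimpleGraph V), Atoms Y (Cq Y) (Tri Y) →
  ∃ F, F ≤ Y ∧ Bip F ∧ NoBack Y F ∧ ∀ O, Tri Y O → ∃ a ∈ O, ∃ b ∈ O, F.Adj a b

def BridgeStmt : Prop := ∀ (W V : Type) [Finite W] [Finite V] (H : SimpleGraph W) (P : Par),
  P.Ok H → ∀ J M : SimpleGraph V, In J H →
  (∀ O y y', M.Adj y y' → y ∈ O → Iso J {S | S ⊆ O ∧ TS P H J S} y y' →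
    ¬ TwoConn (TG P H (J \ M) O) O) ∧
  (Mat M → (∀ a b, M.Adj a b → ∃ O y y', MaxB P H J O ∧ s(y, y') = s(a, b) ∧
    Iso J {S | S ⊆ O ∧ TS P H J S} y y') → Bridge P H J M)

def MIStmt : Prop := ∀ (W V : Type) [Finite W] [Finite V] (H : SimpleGraph W) (P : Par),
  P.Ok H → ∀ J : SimpleGraph V, In J H →
  ∃ M, M ≤ J ∧ Mat M ∧ Bridge P H J M ∧ ∀ S, ¬ TH P H (J \ M) S

def ConeStmt : Prop := ∀ (W V : Type) [Finite W] [Finite V] (H : SimpleGraph W) (P : Par),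
  P.Ok H → ∀ m, Case P H m → ∀ J : SimpleGraph V, In J H → ∀ S, BO P H m J S →
  Shape m J S ∧ (m = .S1 → ES H J S)

/-! ### families -/

def RPStmt : Prop := ∀ (V L : Type) [Finite V] [Finite L] (J : SimpleGraph V) (K : L → Set V)
  (vr : Set V),
  (RP J K vr → ∀ (J' : SimpleGraph V) (Y : Set V), J' ≤ J → RP J' (fun l => K l ∩ Y) (vr ∩ Y)) ∧
  ((∀ (𝒮 : Set L) (R0 : Set V), 𝒮.Nonempty → ((∃ l0, l0 ∉ 𝒮 ∧ R0 = K l0) ∨ ∃ r ∈ vr, R0 = {r}) →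
    ∃ l ∈ 𝒮, (Port J (K l) (R0 ∪ Oth K 𝒮 l)).Subsingleton) → RP J K vr) ∧
  (RP J K vr → (∀ l l', l ≠ l' → Disjoint (K l) (K l')) → RPX J K Set.Subsingleton) ∧
  (RP J K vr → RPX J K fun Pt => Pt.Subsingleton ∧ Pt ⊆ vr) ∧
  (RP J K vr → Nonempty V → ∃ c : L → V, ∀ l l', l ≠ l' →
    Port J (K l) (K l') ⊆ {c l} ∨ Port J (K l') (K l) ⊆ {c l'})

def SplitStmt : Prop := ∀ (V L : Type) [Finite V] [Finite L] (J : SimpleGraph V)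
  (Ob : Set V → Prop) (K : L → Set V), IsRF J Ob K → (∀ O, Ob O → ConnOn J.Adj O ∧ O.Nonempty) →
  ∃ (L' : Type) (_ : Finite L') (K' : L' → Set V), IsRF J Ob K' ∧ (∀ l', ConnOn J.Adj (K' l')) ∧
    ∀ l', ∃ l, K' l' ⊆ K l

def V0AbsStmt : Prop := ∀ (V L : Type) [Finite V] [Finite L] (J : SimpleGraph V)
  (A0 Ob : Set V → Prop) (K : L → Set V), Atoms J (Cq J) A0 → (∀ D, A0 D → ¬ D.Subsingleton) →
  (∀ O, Ob O → O.Nonempty) →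
  (∀ O x, Ob O → ∃ D, D ⊆ O ∧ A0 D ∧ (x ∉ D ∨ ∃ v ∈ D, v ≠ x ∧ ¬ J.Adj x v)) →
  RP J K univ → (∀ l, ConnOn J.Adj (K l)) →
  ∃ I, Indp J I ∧ NoCom J I ∧ ∀ l, (∃ O, Ob O ∧ O ⊆ K l) → (I ∩ RW J Ob (K l)).Nonempty

def V0Stmt : Prop := ∀ (W U : Type) [Finite W] [Finite U] (H : SimpleGraph W) (P : Par),
  P.Ok H → ∀ m, m.IsN → Case P H m → ∀ A : SimpleGraph U, In A H → ∀ s, RFam P H m A (s + 1) →
  ∃ (I : Set U) (L : Type) (_ : Finite L) (K : L → Set U), VData P H m A I K s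

def M0AStmt : Prop := ∀ (W U : Type) [Finite W] [Finite U] (H : SimpleGraph W) (P : Par),
  P.Ok H → Case P H .S1 → ∀ A : SimpleGraph U, In A H → ∀ s, BFam P H .S1 A (s + 1) →
  ∃ (M : SimpleGraph U) (L : Type) (_ : Finite L) (K : L → Set U), MData P H .S1 A M K s

def M0TStmt : Prop := ∀ (W U : Type) [Finite W] [Finite U] (H : SimpleGraph W) (P : Par),
  P.Ok H → ∀ m, m ≠ .S1 → Case P H m → ∀ A : SimpleGraph U, In A H → ∀ s,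
  BFam P H m A (s + 1) →
  ∃ (M : SimpleGraph U) (L : Type) (_ : Finite L) (K : L → Set U), MData P H m A M K s

def PullBStmt : Prop := ∀ (W V Z L : Type) [Finite W] [Finite V] [Finite Z] [Finite L]
  (H : SimpleGraph W) (P : Par) (m : Mode) (B : SimpleGraph V) (Y : SimpleGraph Z) (φ : V → Z)
  (K : L → Set Z) (s : ℕ), IH B Y φ → (∀ O, BO P H m B O → ∃ l, φ '' O ⊆ K l) →
  RP Y (fun l => K l ∩ range φ) ∅ → (∀ l l', l ≠ l' → Disjoint (K l) (K l')) →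
  (∀ l, Rule m Y (K l)) →
  (∀ l, ∃ D : Set Z, D.ncard ≤ s ∧ ∀ O, BO P H m B O → φ '' O ⊆ K l → φ '' O ⊆ D) →
  BFam P H m B s

def PullRStmt : Prop := ∀ (W V Z L : Type) [Finite W] [Finite V] [Finite Z] [Finite L]
  (H : SimpleGraph W) (P : Par) (m : Mode) (B : SimpleGraph V) (Y : SimpleGraph Z) (φ : V → Z)
  (K : L → Set Z) (s : ℕ), IH B Y φ → (∀ O, RO P H m B O → ∃ l, φ '' O ⊆ K l) →
  RP Y (fun l => K l ∩ range φ) (range φ) →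
  (∀ l, ∃ D : Set Z, D.ncard ≤ s ∧ ∀ O, RO P H m B O → φ '' O ⊆ K l → φ '' Ext B O ⊆ D) →
  RFam P H m B s

def FamStmt : Prop := ∀ (W U V : Type) [Finite W] [Finite U] [Finite V] (H : SimpleGraph W)
  (P : Par) (m : Mode) (A : SimpleGraph U) (B : SimpleGraph V),
  (In B A → ∀ s, BFam P H m A s → BFam P H m B s) ∧
  BFam P H m A (Nat.card U) ∧ RFam P H m A (Nat.card U) ∧
  ((∃ O, BO P H m A O) → ¬ BFam P H m A 0) ∧ ((∃ O, RO P H m A O) → ¬ RFam P H m A 0)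

/-! ### C. frames -/

def LeafStmt : Prop := ∀ (V : Type) [Finite V] (N : Set (Set V)) (Lk : Set V → Prop) (g : ℕ),
  (∀ ν ∈ N, Thin N Lk g ν) → ∀ Z : Set V, Z.ncard ≤ g → (∀ z ∈ Z, ∃ ν ∈ N, z ∈ ν) →
  ∀ ν0 ∈ N, Z ⊆ ν0 ∨ ∃ μ ∈ N, ∃ ℓ, (ℓ = ∅ ∨ Lk ℓ) ∧ ℓ ⊆ μ ∧ ((Z ∩ μ) \ ℓ).Nonempty ∧
    ∀ s ∈ (Z ∩ μ) \ ℓ, s ∉ ν0 ∧ ∀ z ∈ Z, Tog N s z → z ∈ μ

def ProjStmt : Prop := ∀ (V : Type) [Finite V] (N N' : Set (Set V)) (Lk : Set V → Prop) (n : ℕ)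
  (X C : Set V), Thin N Lk n X → (∀ x y, x ≠ y → x ∈ X → y ∈ X → Tog N x y → Tog N' x y) →
  (C \ X).ncard ≤ n → ConnOn (Tog N) C → ConnOn (Tog N') (C ∩ X) ∧
    ∀ w ∈ X, w ∉ C → (∃ c ∈ C, Tog N w c) → (C ∩ X).Nonempty → ∃ c ∈ C ∩ X, Tog N' w c

def LocalStmt : Prop := ∀ (V : Type) [Finite V] (N N' : Set (Set V)) (Lk : Set V → Prop) (g : ℕ)
  (X Y : Set V), Thin N Lk g X → N' ⊆ N →
  (∀ x y, x ≠ y → x ∈ X → y ∈ X → Tog N x y → Tog N' x y) → Y ⊆ X → Thin N' Lk g Y →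
  (∀ ℓ, Lk ℓ → ℓ ∩ Y = ∅ ∨ Lk (ℓ ∩ Y)) → Thin N Lk g Y

def GlueStmt : Prop := ∀ (N0 V Q : Type) [Finite N0] [Finite V] (B : Q → Set N0)
  (Lk0 : Set N0 → Prop) (own : V → Option N0) (X : Q → Set V) (loc : Q → Set (Set V))
  (Lk : Set V → Prop) (g : ℕ), (∀ p, Thin (range B) Lk0 g (B p)) →
  (∀ p q, p ≠ q → B p ∩ B q = ∅ ∨ ∃ ℓ, Lk0 ℓ ∧ B p ∩ B q ⊆ ℓ ∧ ℓ ⊆ B p ∧ ℓ ⊆ B q) →
  (∀ x n p, own x = some n → (x ∈ X p ↔ n ∈ B p)) →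
  (∀ x p q, own x = none → x ∈ X p → x ∈ X q → p = q) →
  (∀ p, ∀ ν ∈ loc p, ν ⊆ X p) →
  (∀ p q x y, x ≠ y → x ∈ X p → y ∈ X p → Tog (loc q) x y → Tog (loc p) x y) →
  (∀ p ℓ, Lk0 ℓ → ℓ ⊆ B p → Thin (loc p) Lk g {x | ∃ n ∈ ℓ, own x = some n}) →
  ∀ p, Thin (⋃ q, loc q) Lk g (X p)

def PartsStmt : Prop := ∀ (V Q : Type) [Finite V] (X : Q → Set V) (loc : Q → Set (Set V))
  (Lk : Set V → Prop) (g : ℕ), (∀ p, ∀ ν ∈ loc p, ν ⊆ X p) →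
  (∀ p q, p ≠ q → Disjoint (X p) (X q)) → ∀ p Y, Y ⊆ X p → Thin (loc p) Lk g Y →
  Thin (⋃ q, loc q) Lk g Y

def PairStmt : Prop := ∀ (V : Type) [Finite V] (N : Set (Set V)) (G : SimpleGraph V) (g : ℕ),
  (∀ ν ∈ N, Thin N (GLk G) g ν) → ∀ (u v : V) (C : Set V), u ≠ v → Tog N u v → C.ncard ≤ g →
  ConnOn (Tog N) C → u ∉ C → v ∉ C → (∃ c ∈ C, Tog N u c) → (∃ c ∈ C, Tog N v c) →
  ∃ ν ∈ N, u ∈ ν ∧ v ∈ ν ∧ (ν ∩ C).Nonempty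

def MapStmt : Prop := ∀ (V V' : Type) [Finite V] [Finite V'] (f : V → V') (N : Set (Set V))
  (g : ℕ), Injective f →
  (∀ (Lk : Set V → Prop) (Lk' : Set V' → Prop) (Y : Set V), (∀ ℓ, Lk ℓ → Lk' (f '' ℓ)) →
    Thin N Lk g Y → Thin (image f '' N) Lk' g (f '' Y)) ∧
  ∀ X Y u, Far N g X Y u → Far (image f '' N) g (f '' X) (f '' Y) (f u)

def StarStmt : Prop := ∀ (V X Φ : Type) [Finite V] (G : SimpleGraph V) (b : X → V)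
  (π : X → Set V) (Pn : Set X) (Z : Φ → Set V) (x y : Φ → X) (loc : Φ → Set (Set V)) (g : ℕ),
  Star G b π Pn Z x y loc g →
  (∀ ν ∈ StarN b π Pn loc, Thin (StarN b π Pn loc) (GLk G) g ν) ∧
  (∀ f, Thin (StarN b π Pn loc) (GLk G) g (Z f)) ∧
  (∀ a, Thin (StarN b π Pn loc) (GLk G) g (π a)) ∧
  ∀ a a', G.Adj (b a) (b a') → (∀ f, ¬ (x f = a ∧ y f = a') ∧ ¬ (x f = a' ∧ y f = a)) →
    Thin (StarN b π Pn loc) (GLk G) g (π a ∪ π a')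

def LinkStmt : Prop := ∀ (I T : Type) (prof : T → I → ℕ) (F H : MH prof) (Q : Type)
  (φ : Q → MEmb F H) (g : ℕ), Good φ g →
  (∀ p q, p ≠ q → (φ p).Bag ∩ (φ q).Bag = ∅ ∨ ∃ ℓ, H.Lk ℓ ∧ (φ p).Bag ∩ (φ q).Bag ⊆ ℓ ∧
    ℓ ⊆ (φ p).Bag ∧ ℓ ⊆ (φ q).Bag) ∧
  (∀ ℓ, H.Lk ℓ → Thin (range fun q => (φ q).Bag) H.Lk g ℓ) ∧
  (1 ≤ g → F.NoTri → H.NoTri)

def MT1Stmt : Prop := ∀ (I T : Type) [Finite I] [Finite T] (prof : T → I → ℕ) (F : MH prof),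
  F.Lin → ∀ (t : T) (κ : Type) [Finite κ] [Nonempty κ] (g : ℕ),
  ∃ (H : MH prof) (Q : Type) (_ : Finite Q) (φ : Q → MEmb F H), Good φ g ∧ MRam φ κ {t}

def MTStmt : Prop := ∀ (I T : Type) [Finite I] [Finite T] (prof : T → I → ℕ) (F : MH prof),
  F.Lin → ∀ (κ : Type) [Finite κ] [Nonempty κ] (g : ℕ),
  ∃ (H : MH prof) (Q : Type) (_ : Finite Q) (φ : Q → MEmb F H), Good φ g ∧ MRam φ κ univ

def MT0Stmt : Prop := ∀ (X κ : Type) [Finite X] [Finite κ] [Nonempty κ] (g : ℕ),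
  ∃ (Z Q : Type) (_ : Finite Z) (_ : Finite Q) (φ : Q → X → Z), (∀ p, Injective (φ p)) ∧
    (∀ χ : Z → κ, ∃ p, ∀ x x', χ (φ p x) = χ (φ p x')) ∧
    (∀ p q, p ≠ q → (range (φ p) ∩ range (φ q)).Subsingleton) ∧ (∀ n, ∃ p x, φ p x = n) ∧
    ∀ p, Thin (range fun q => range (φ q)) (fun ℓ => ∃ v, ℓ = {v}) g (range (φ p))

/-! ### D. constructions -/

def HostStmt : Prop := ∀ (U : Type) [Finite U] (A : SimpleGraph U) (g : ℕ),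
  ∃ (V : Type) (_ : Finite V) (G : SimpleGraph V) (Bs : Set (Bag U V)),
    Pre A G ⊥ ∅ Bs g ∧ Arr G A

def ProtStmt : Prop := ∀ (U X V : Type) [Finite U] [Finite X] [Finite V] (A : SimpleGraph U)
  (E : EP U) (Γ RΓ : SimpleGraph X) (Hub : Set X) (G R D : SimpleGraph V) (Gs : Set (X → V))
  (Bs : Set (Bag U V)) (g k : ℕ) (c : Bool), E.Ok A → k + 2 ≤ g → Lev A E Γ RΓ Hub G R D Gs Bs g →
  FarD D Gs Bs k → ∃ (V' : Type) (_ : Finite V') (G' R' D' : SimpleGraph V') (Gs' : Set (X → V'))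
    (Bs' : Set (Bag U V')), Lev A E Γ RΓ Hub G' R' D' Gs' Bs' g ∧ D' ≤ cc G' R' (!c) ∧
    (D ≤ cc G R c → FarD D' Gs' Bs' (k + 1))

def CloseStmt : Prop := ∀ (U X V : Type) [Finite U] [Finite X] [Finite V] (A : SimpleGraph U)
  (E : EP U) (Γ RΓ : SimpleGraph X) (Hub : Set X) (G R D : SimpleGraph V) (Gs : Set (X → V))
  (Bs : Set (Bag U V)) (g : ℕ), E.Ok A → Lev A E Γ RΓ Hub G R D Gs Bs g → D ≤ G \ R →
  FarD D Gs Bs (g + 1) → ∃ (V' : Type) (_ : Finite V') (G' R' : SimpleGraph V')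
    (Gs' : Set (X → V')) (Bs' : Set (Bag U V')), Last A E Γ RΓ Hub G' R' Gs' Bs' g

def EngineStmt : Prop := ∀ (U X : Type) [Finite U] [Finite X] (A : SimpleGraph U) (E : EP U)
  (Γ RΓ : SimpleGraph X) (Hub : Set X) (g : ℕ), E.Ok A → RΓ ≤ Γ → RamOn A Γ RΓ (offG Γ Hub) →
  ∃ (V : Type) (_ : Finite V) (G R : SimpleGraph V) (Gs : Set (X → V)) (Bs : Set (Bag U V)),
    Last A E Γ RΓ Hub G R Gs Bs g

def GamStmt : Prop := ∀ (U Q : Type) [Finite U] [Finite Q] (A M : SimpleGraph U) (I : Set U)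
  (pt : U → Option Q) (g : ℕ), IMat A M → Indp A I → (∀ a ∈ M.support, pt a = none) →
  (∀ u ∉ M.support, pt u = none → NoCom A I) →
  ∃ (X : Type) (_ : Finite X) (Γ RΓ : SimpleGraph X) (Hub : Set X) (Hs Us Xs : Set (U → X)),
    Gam A M I pt Γ RΓ Hub Hs Us Xs g

/-! ### E. analysis of thin systems -/

def ESNodeStmt : Prop := ∀ (W U V : Type) [Finite W] [Finite U] [Finite V] (H : SimpleGraph W)
  (A : SimpleGraph U) (G R : SimpleGraph V) (Ls : Set (Set V)) (Bs : Set (Bag U V)) (g : ℕ),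
  In A H → Pre A G R Ls Bs g → ∀ J, J ≤ G → ∀ S : Set V, S.ncard ≤ g →
  (ES H J S → (∃ L ∈ Ls, S ⊆ L) ∨ ∃ β ∈ Bs, S ⊆ range β.f) ∧
  ∀ a b, RS H J S a b → (∃ β ∈ Bs, S ⊆ range β.f) ∨ ∃ L ∈ Ls, a ∈ L ∧ b ∈ L ∧
    TwoConn G (S ∩ L) ∧ ∀ h : V → W, IHo G H h (S ∩ L) → S ⊆ L

def TwoNbStmt : Prop := ∀ (U V : Type) [Finite U] [Finite V]
  (A : SimpleGraph U) (G R : SimpleGraph V) (Ls : Set (Set V)) (Bs : Set (Bag U V)) (g : ℕ),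
  1 ≤ g → Pre A G R Ls Bs g → ∀ c, ∀ L ∈ Ls, ∀ w ∉ L, ∀ a ∈ L, ∀ b ∈ L, a ≠ b →
  (cc G R c).Adj w a → (cc G R c).Adj w b → (cc G R (!c)).Adj a b

def ThNodeStmt : Prop := ∀ (W U V : Type) [Finite W] [Finite U] [Finite V] (H : SimpleGraph W)
  (P : Par) (A : SimpleGraph U) (G R : SimpleGraph V) (Ls : Set (Set V)) (Bs : Set (Bag U V))
  (g : ℕ) (c : Bool), In A H → P.vT ≤ g → Pre A G R Ls Bs g →
  (∀ β ∈ Bs, Tok P H A c β.old β.red β.top) → ∀ S : Set V, S.ncard ≤ g →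
  TwoConn (TG P H (cc G R c) univ) S → (∃ L ∈ Ls, S ⊆ L) ∨ ∃ β ∈ Bs, S ⊆ range β.f

def PiStmt : Prop := ∀ (U V : Type) [Finite U] [Finite V]
  (A : SimpleGraph U) (G R : SimpleGraph V) (Ls : Set (Set V)) (Bs : Set (Bag U V)) (g : ℕ),
  Pre A G R Ls Bs g → ∀ (c : Bool) (𝒢 : Set (Set V)), 𝒢 ⊆ Ls → 𝒢.Nonempty →
  ∀ ν0 ∈ Nodes Ls Bs, ν0 ∉ 𝒢 → ∀ Y : Set V, Y.ncard ≤ g → Y ⊆ ν0 ∪ ⋃₀ 𝒢 →
  ∃ L ∈ 𝒢, {p | p ∈ Y ∩ L ∧ ∃ q ∈ Y \ L, (cc G R c).Adj p q}.Subsingleton ∨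
    ∃ a b, (cc G R (!c)).Adj a b ∧ {p | p ∈ Y ∩ L ∧ ∃ q ∈ Y \ L, (cc G R c).Adj p q} = {a, b}

def RPGStmt : Prop := ∀ (U X V L : Type) [Finite U] [Finite X] [Finite V] [Finite L]
  (A : SimpleGraph U) (Γ RΓ : SimpleGraph X) (Hub : Set X) (G R : SimpleGraph V)
  (Gs : Set (X → V)) (Bs : Set (Bag U V)) (g : ℕ) (c : Bool) (K : L → Set X) (vr : Prop)
  (Av : Set X), Core A Γ RΓ Hub G R Gs Bs g → LocRP Γ RΓ Hub c K vr Av g →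
  ∀ Y : Set V, Y.ncard ≤ g → (∀ r ∈ Y, ∃ q, G.Adj r q) → (∀ γ ∈ Gs, ∀ x ∈ Av, γ x ∉ Y) →
  RP (cc G R c) (fun z : Gs × L => z.1.1 '' K z.2 ∩ Y) {r | vr ∧ r ∈ Y}

/-! ### F. the cases -/

def ParamStmt : Prop := ∀ (W U : Type) [Finite W] [Finite U] (H : SimpleGraph W) (P : Par),
  P.Ok H → ∀ m, Case P H m → ∀ A : SimpleGraph U, In A H → ∃ E : EP U, E.Ok A ∧ Cols P H A E m

def LocStmt : Prop := ∀ (W U X V : Type) [Finite W] [Finite U] [Finite X] [Finite V]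
  (H : SimpleGraph W) (P : Par), P.Ok H → ∀ (A : SimpleGraph U) (E : EP U) (Γ RΓ : SimpleGraph X)
  (Hub : Set X) (G R : SimpleGraph V) (Gs : Set (X → V)) (Bs : Set (Bag U V)) (g : ℕ) (c : Bool),
  In A H → Nat.card W ≤ g → Last A E Γ RΓ Hub G R Gs Bs g → ∀ S : Set V,
  (ColT P H A E c → TH P H (cc G R c) S → ∃ γ ∈ Gs, S ⊆ range γ) ∧
  (ColA P H A E c → AS P H (cc G R c) S → ES H (cc G R c) S → ∃ γ ∈ Gs, S ⊆ range γ) ∧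
  (ColA P H A E c → AS P H (cc G R c) S → ∃ γ ∈ Gs, (∃ a b, γ a ∈ S ∧ γ b ∈ S ∧
    (cc Γ RΓ c).Adj a b) ∧ TwoConn Γ (γ ⁻¹' S) ∧ ∀ h : X → W, IHo Γ H h (γ ⁻¹' S) → S ⊆ range γ)

def RedLocStmt : Prop := ∀ (W U X V Z : Type) [Finite W] [Finite U] [Finite X] [Finite V]
  [Finite Z] (H : SimpleGraph W) (P : Par), P.Ok H → ∀ (m : Mode) (A : SimpleGraph U) (E : EP U)
  (Γ RΓ : SimpleGraph X) (Hub : Set X) (G R : SimpleGraph V) (Gs : Set (X → V))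
  (Bs : Set (Bag U V)) (g : ℕ) (B : SimpleGraph Z) (φ : Z → V), In A H → Nat.card W ≤ g →
  Last A E Γ RΓ Hub G R Gs Bs g → Cols P H A E m → RTr H Γ RΓ Hub g → IH B R φ →
  (∀ γ ∈ Gs, ∀ x ∈ Hub, γ x ∉ range φ) → ∀ O, RO P H m B O →
  ∃ γ ∈ Gs, φ '' O ⊆ range γ ∧ RO P H m RΓ (γ ⁻¹' (φ '' O))

def RedLiftStmt : Prop := ∀ (W U X V Z L : Type) [Finite W] [Finite U] [Finite X] [Finite V]
  [Finite Z] [Finite L] (H : SimpleGraph W) (P : Par), P.Ok H → ∀ (m : Mode) (A : SimpleGraph U)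
  (E : EP U) (Γ RΓ : SimpleGraph X) (Hub : Set X) (G R : SimpleGraph V) (Gs : Set (X → V))
  (Bs : Set (Bag U V)) (g : ℕ) (B : SimpleGraph Z) (φ : Z → V) (K : L → Set X) (s : ℕ), In A H →
  In B H → (∀ z, ∃ z', B.Adj z z') → Nat.card W ≤ g → Last A E Γ RΓ Hub G R Gs Bs g →
  Cols P H A E m → RTr H Γ RΓ Hub g → RedG P H m Γ RΓ Hub K s g → IH B R φ →
  (∀ γ ∈ Gs, ∀ x ∈ Hub, γ x ∉ range φ) → RFam P H m B s

def BlueLiftStmt : Prop := ∀ (W U X V Z L : Type) [Finite W] [Finite U] [Finite X] [Finite V]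
  [Finite Z] [Finite L] (H : SimpleGraph W) (P : Par), P.Ok H → ∀ (m : Mode), Case P H m →
  ∀ (A : SimpleGraph U) (E : EP U) (Γ RΓ : SimpleGraph X) (Hub : Set X) (G R : SimpleGraph V)
  (Gs : Set (X → V)) (Bs : Set (Bag U V)) (g : ℕ) (B : SimpleGraph Z) (φ : Z → V)
  (K : L → Set X) (s : ℕ), In A H → In B H → (∀ z, ∃ z', B.Adj z z') → Nat.card W ≤ g →
  Last A E Γ RΓ Hub G R Gs Bs g → Cols P H A E m → BlueG P H m Γ RΓ Hub K s g →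
  IH B (G \ R) φ → BFam P H m B s

def HubStmt : Prop := ∀ (U X V Z Q : Type) [Finite U] [Finite X] [Finite V] [Finite Z]
  (A M : SimpleGraph U) (I : Set U) (pt : U → Option Q) (Γ RΓ : SimpleGraph X) (Hub : Set X)
  (Hs Us Xs : Set (U → X)) (G R : SimpleGraph V) (Gs : Set (X → V)) (Bs : Set (Bag U V))
  (g g' : ℕ) (B : SimpleGraph Z) (φ : Z → V), Gam A M I pt Γ RΓ Hub Hs Us Xs g →
  Core A Γ RΓ Hub G R Gs Bs g' → B.Connected → IH B R φ → ∀ γ ∈ Gs, ∀ x ∈ Hub, γ x ∈ range φ →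
  In B A

def GXStmt : Prop := ∀ (U X Q : Type) [Finite U] [Finite X] (A M : SimpleGraph U) (I : Set U)
  (pt : U → Option Q) (Γ RΓ : SimpleGraph X) (Hub : Set X) (Hs Us Xs : Set (U → X)) (g : ℕ),
  Gam A M I pt Γ RΓ Hub Hs Us Xs g →
  (∀ S : Set X, S.ncard ≤ g → Disjoint S Hub → TwoConn Γ S → (∃ a ∈ S, ∃ b ∈ S, RΓ.Adj a b) →
    ∃ ξ ∈ Xs, S ⊆ ξ '' Iᶜ) ∧
  (1 ≤ g → ∀ ξ ∈ Xs, ∀ a ∈ ξ '' Iᶜ, ∀ b ∈ ξ '' Iᶜ, a ≠ b → ∀ w, RΓ.Adj w a → RΓ.Adj w b →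
    w ∈ ξ '' Iᶜ)

def GRedRPStmt : Prop := ∀ (U X Q L : Type) [Finite U] [Finite X] [Finite L]
  (A M : SimpleGraph U) (I : Set U) (Γ RΓ : SimpleGraph X) (Hub : Set X) (Hs Us Xs : Set (U → X))
  (g : ℕ) (K : L → Set U), Gam A M I (fun _ => (none : Option Q)) Γ RΓ Hub Hs Us Xs g →
  RP A K univ → LocRP Γ RΓ Hub true (fun z : Xs × L => z.1.1 '' (K z.2 \ I)) True Hub g

def GRedStmt : Prop := ∀ (W U X Q L : Type) [Finite W] [Finite U] [Finite X] [Finite L]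
  (H : SimpleGraph W) (P : Par), P.Ok H → ∀ (m : Mode) (A M : SimpleGraph U) (I : Set U)
  (Γ RΓ : SimpleGraph X) (Hub : Set X) (Hs Us Xs : Set (U → X)) (g : ℕ) (K : L → Set U) (s : ℕ),
  In A H → Nat.card W ≤ g → Gam A M I (fun _ => (none : Option Q)) Γ RΓ Hub Hs Us Xs g →
  VData P H m A I K s → RedG P H m Γ RΓ Hub (fun z : Xs × L => z.1.1 '' (K z.2 \ I)) s g

def GBlueNStmt : Prop := ∀ (W U X Q L : Type) [Finite W] [Finite U] [Finite X] [Finite L]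
  (H : SimpleGraph W) (P : Par), P.Ok H → ∀ (m : Mode), m.IsN → ∀ (A M : SimpleGraph U)
  (I : Set U) (Γ RΓ : SimpleGraph X) (Hub : Set X) (Hs Us Xs : Set (U → X)) (g : ℕ)
  (K : L → Set U) (s : ℕ), In A H → Nat.card W ≤ g →
  Gam A M I (fun _ => (none : Option Q)) Γ RΓ Hub Hs Us Xs g → MData P H m A M K s →
  BlueG P H m Γ RΓ Hub (fun z : Us × L => z.1.1 '' K z.2) s g

/-- the class points of the middle graph -/
abbrev CI {U X L : Type} (pt : U → Option (L ⊕ U)) (Us : Set (U → X)) : Type :=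
  {z : L × Set X // z.2.Nonempty ∧ (Sum.inl z.1, z.2) ∈ Cells pt Us}

def GBlueSRPStmt : Prop := ∀ (U X L : Type) [Finite U] [Finite X] [Finite L]
  (A M : SimpleGraph U) (I : Set U) (pt : U → Option (L ⊕ U)) (Γ RΓ : SimpleGraph X)
  (Hub : Set X) (Hs Us Xs : Set (U → X)) (g : ℕ) (K : L → Set U),
  Gam A M I pt Γ RΓ Hub Hs Us Xs g → IsPt M K pt → RP (A \ M) K ∅ →
  LocRP Γ RΓ Hub false (fun z : CI pt Us => z.1.2) False ∅ g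

def GBlueSRuleStmt : Prop := ∀ (U X L : Type) [Finite U] [Finite X] [Finite L] (m : Mode)
  (A M : SimpleGraph U) (I : Set U) (pt : U → Option (L ⊕ U)) (Γ RΓ : SimpleGraph X)
  (Hub : Set X) (Hs Us Xs : Set (U → X)) (g : ℕ) (K : L → Set U),
  Gam A M I pt Γ RΓ Hub Hs Us Xs g → IsPt M K pt → (∀ l, Rule m (A \ M) (K l)) →
  (∀ z : CI pt Us, Rule m (Γ \ RΓ) z.1.2) ∧
  (¬ m.IsN → ∀ S, Shape m (Γ \ RΓ) S → ∃ υ ∈ Us, S ⊆ range υ)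

def GBlueSStmt : Prop := ∀ (W U X L : Type) [Finite W] [Finite U] [Finite X] [Finite L]
  (H : SimpleGraph W) (P : Par), P.Ok H → ∀ (m : Mode), ¬ m.IsN → ∀ (A M : SimpleGraph U)
  (I : Set U) (pt : U → Option (L ⊕ U)) (Γ RΓ : SimpleGraph X) (Hub : Set X)
  (Hs Us Xs : Set (U → X)) (g : ℕ) (K : L → Set U) (s : ℕ),
  Gam A M I pt Γ RΓ Hub Hs Us Xs g → IsPt M K pt → MData P H m A M K s →
  BlueG P H m Γ RΓ Hub (fun z : CI pt Us => z.1.2) s g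

def InvAStmt : Prop := ∀ (W U V : Type) [Finite W] [Finite U] [Finite V] (H : SimpleGraph W)
  (P : Par), P.Ok H → ∀ (A : SimpleGraph U) (B : SimpleGraph V), In A H → Imp A B →
  ((∃ O, AS P H B O) → ∃ O, AS P H A O) ∧ ((∃ O, RO P H .N1 B O) → ∃ O, RO P H .N1 A O)

def InvTStmt : Prop := ∀ (W U V : Type) [Finite W] [Finite U] [Finite V] (H : SimpleGraph W)
  (P : Par), P.Ok H → ∀ m, m ≠ .S1 → Case P H m → ∀ (A : SimpleGraph U) (B : SimpleGraph V),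
  In A H → Imp A B → (∃ O, AS P H B O) → (∃ O, TH P H B O) → ∃ O, TH P H A O

def InvRStmt : Prop := ∀ (W U V : Type) [Finite W] [Finite U] [Finite V] (H : SimpleGraph W)
  (P : Par), P.Ok H → ∀ m, m.IsN → Case P H m → ∀ (A : SimpleGraph U) (B : SimpleGraph V),
  In A H → In B H → (∀ z, ∃ z', B.Adj z z') → Imp A B → (∃ O, TH P H B O) →
  ((∃ O, RO P H m B O) → ∃ O, RO P H m A O) ∧ ∀ s, RFam P H m A s → RFam P H m B s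

def StepNStmt : Prop := ∀ (W U V : Type) [Finite W] [Finite U] [Finite V] (H : SimpleGraph W)
  (P : Par), P.Ok H → ∀ m, m.IsN → Case P H m → ∀ (A : SimpleGraph U) (B : SimpleGraph V),
  In A H → In B H → B.Connected → (∀ z, ∃ z', B.Adj z z') → Imp A B → ¬ In B A →
  ∀ t, RFam P H m A (t + 1) → ¬ RFam P H m B t → ∀ s, BFam P H m A (s + 1) → BFam P H m B s

def StepSStmt : Prop := ∀ (W U V : Type) [Finite W] [Finite U] [Finite V] (H : SimpleGraph W)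
  (P : Par), P.Ok H → ∀ m, ¬ m.IsN → Case P H m → ∀ (A : SimpleGraph U) (B : SimpleGraph V),
  In A H → In B H → B.Connected → (∀ z, ∃ z', B.Adj z z') → Imp A B → ¬ In B A →
  (∃ O, RO P H m B O) → ∀ s, BFam P H m A (s + 1) → BFam P H m B s

def BothStmt : Prop := ∀ (U V : Type) [Finite U] [Finite V] (A : SimpleGraph U)
  (B : SimpleGraph V), A.Connected → B.Connected → ¬ A.IsAcyclic → ¬ B.IsAcyclic → Imp A B →
  Imp B A → In A B ∧ In B A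

def FinalStmt : Prop := ∀ (U V : Type) [Finite U] [Finite V] (A : SimpleGraph U)
  (B : SimpleGraph V), A.Connected → B.Connected →
  (∀ (Z : Type) [Finite Z] (G : SimpleGraph Z), Arrows G A ↔ Arrows G B) → Nonempty (A ≃g B)

end Pool.Agent.MP_1c0fc2_co.RE
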